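import Pool.Agent.Helper67.SC.F4b

/-! Module C1a: Harnack chains to the reference points of cells. -/

open MeasureTheory Filter Topology

noncomputable section

namespace Pool.Agent.Helper67.SC

variable (S : CarForm)

/-- The digit with coordinates `a`, `b` modulo `3` (junk value for `(1, 1)`). -/
def mkD (a b : ℕ) : Dig :=
  if h : (Fin.ofNat 3 a, Fin.ofNat 3 b) ≠ ((1 : Fin 3), (1 : Fin 3)) then ⟨_, h⟩ else dg 0 0

/-- The word of length `3` with position `p` (if there is one). -/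
def w3 (p : ℕ × ℕ) : List Dig := [mkD (p.1 / 9) (p.2 / 9), mkD (p.1 / 3) (p.2 / 3), mkD p.1 p.2]

theorem w3_length (p : ℕ × ℕ) : (w3 p).length = 3 := rfl

/-- The position is the expected one. -/
def Okp (p : ℕ × ℕ) : Prop := pos (w3 p) = ((p.1 : ℤ), (p.2 : ℤ))

instance (p : ℕ × ℕ) : Decidable (Okp p) := inferInstanceAs (Decidable (_ = _))

/-- Touching positions. -/
def Tch (p q : ℕ × ℕ) : Prop := p.1 ≤ q.1 + 1 ∧ q.1 ≤ p.1 + 1 ∧ p.2 ≤ q.2 + 1 ∧ q.2 ≤ p.2 + 1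

instance : DecidableRel Tch := fun _ _ => inferInstanceAs (Decidable (_ ∧ _))

theorem near_of_tch {p q : ℕ × ℕ} (hp : Okp p) (hq : Okp q) (h : Tch p q) :
    near 1 (w3 p) (w3 q) := by
  unfold Okp at hp hq
  unfold near
  rw [hp, hq, abs_le, abs_le]
  obtain ⟨h1, h2, h3, h4⟩ := h
  refine ⟨⟨?_, ?_⟩, ⟨?_, ?_⟩⟩ <;> simp only <;> omega

/-- Harnack chains given by lists of positions of level `3`. -/
theorem path_bound : ∃ c : ℝ, 0 < c ∧ c < 1 ∧ ∀ (A : Set K) (H : C(K, ℝ)), SupOff S A H → 0 ≤ H →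
    ∀ (l : List (ℕ × ℕ)) (hl : l ≠ []), (∀ p ∈ l, Okp p) → List.IsChain Tch l →
      (∀ p ∈ l, A ⊆ out 1 (w3 p)) → ∀ x ∈ cell (w3 (l.head hl)), ∀ y ∈ cell (w3 (l.getLast hl)),
        c ^ l.length * H y ≤ H x := by
  obtain ⟨c, hc0, hc1, hc⟩ := harnack_chain S
  refine ⟨c, hc0, hc1, fun A H hH h0 l hl hok hch hA x hx y hy => ?_⟩
  have hl' : l.map w3 ≠ [] := by simpa using hl
  have := hc A H hH (l.map w3) hl' (by
      intro s hs
      rw [List.head_map]
      obtain ⟨p, _, rfl⟩ := List.mem_map.1 hs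
      rfl) (by
      intro s hs
      obtain ⟨p, hp, rfl⟩ := List.mem_map.1 hs
      exact hA p hp) (fun s _ x _ => h0 x) (by
      rw [List.isChain_map]
      exact hch.imp_of_mem_imp (fun a b ha hb hab => near_of_tch (hok a ha) (hok b hb) hab))
      x (by rw [List.head_map]; exact hx) y (by rw [List.getLast_map]; exact hy)
  rwa [List.length_map] at this

/-- `l` is a path of touching cells of level `3` from `p` to `q`. -/
def IsPath (l : List (ℕ × ℕ)) (p q : ℕ × ℕ) : Prop :=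
  l.head? = some p ∧ l.getLast? = some q ∧ l.length ≤ 60 ∧ (∀ r ∈ l, Okp r) ∧ List.IsChain Tch l

instance (l : List (ℕ × ℕ)) (p q : ℕ × ℕ) : Decidable (IsPath l p q) :=
  inferInstanceAs (Decidable (_ ∧ _ ∧ _ ∧ _ ∧ _))

/-- Same, in the form of an upper bound with a uniform constant. -/
theorem path_le : ∃ C : ℝ, 1 ≤ C ∧ ∀ (A : Set K) (H : C(K, ℝ)), SupOff S A H → 0 ≤ H →
    ∀ (l : List (ℕ × ℕ)) (p q : ℕ × ℕ), IsPath l p q →
      (∀ r ∈ l, A ⊆ out 1 (w3 r)) → ∀ x ∈ cell (w3 p), ∀ y ∈ cell (w3 q),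
        H y ≤ C * H x ∧ H x ≤ C * H y := by
  obtain ⟨c, hc0, hc1, hc⟩ := path_bound S
  have key : ∀ (A : Set K) (H : C(K, ℝ)), SupOff S A H → 0 ≤ H →
    ∀ (l : List (ℕ × ℕ)) (hl : l ≠ []), l.length ≤ 60 → (∀ p ∈ l, Okp p) → List.IsChain Tch l →
      (∀ p ∈ l, A ⊆ out 1 (w3 p)) → ∀ x ∈ cell (w3 (l.head hl)), ∀ y ∈ cell (w3 (l.getLast hl)),
        H y ≤ (c ^ 60)⁻¹ * H x := by
    intro A H hH h0 l hl hN hok hch hA x hx y hy
    have h1 := hc A H hH h0 l hl hok hch hA x hx y hy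
    have h2 : 0 ≤ H y := h0 y
    have h3 : c ^ 60 ≤ c ^ l.length := pow_le_pow_of_le_one hc0.le hc1.le hN
    rw [← div_eq_inv_mul, le_div_iff₀ (by positivity)]
    nlinarith
  refine ⟨(c ^ 60)⁻¹, ?_, fun A H hH h0 l p q hpath hA x hx y hy => ?_⟩
  · exact (one_le_inv₀ (by positivity)).2 (pow_le_one₀ hc0.le hc1.le)
  · obtain ⟨h1, h2, h3, h4, h5⟩ := hpath
    have hl : l ≠ [] := by
      rintro rfl
      simp at h1
    have e1 : l.head hl = p := by
      rw [List.head?_eq_some_head hl] at h1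
      exact Option.some.inj h1
    have e2 : l.getLast hl = q := by
      rw [List.getLast?_eq_some_getLast hl] at h2
      exact Option.some.inj h2
    constructor
    · exact key A H hH h0 l hl h3 h4 h5 hA x (by rw [e1]; exact hx) y (by rw [e2]; exact hy)
    · have hl' : l.reverse ≠ [] := by simpa using hl
      refine key A H hH h0 l.reverse hl' (by simpa using h3) (by simpa using h4) ?_
        (by simpa using hA) y ?_ x ?_
      · rw [List.isChain_reverse]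
        exact h5.imp fun a b hab => ⟨hab.2.1, hab.1, hab.2.2.2, hab.2.2.1⟩
      · rw [List.head_reverse, e2]; exact hy
      · rw [List.getLast_reverse, e1]; exact hx

/-- Membership of a vertex in a cell of level `3`. -/
theorem vertex_w3 {p : ℕ × ℕ} (hp : Okp p) {x : K} {a b : ℤ} (ha : a = 0 ∨ a = 1)
    (hb : b = 0 ∨ b = 1) (h1 : 27 * x.1.1 = (p.1 : ℝ) + a) (h2 : 27 * x.1.2 = (p.2 : ℝ) + b) :
    x ∈ cell (w3 p) := by
  unfold Okp at hp
  apply vertex_mem_cell ha hb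
  · rw [w3_length, hp]
    push_cast
    rw [← h1]; norm_num
  · rw [w3_length, hp]
    push_cast
    rw [← h2]; norm_num

/-- Conditions for the boundary. -/
theorem V0_subset_out_w3 {p : ℕ × ℕ} (hp : Okp p) (h1 : 2 ≤ p.1) (h2 : 2 ≤ p.2) (h3 : p.1 ≤ 24)
    (h4 : p.2 ≤ 24) : V0 ⊆ out 1 (w3 p) := by
  unfold Okp at hp
  refine Set.union_subset (Set.union_subset (Set.union_subset ?_ ?_) ?_) ?_
  · apply left_subset_out; rw [hp]; simp only; omega
  · apply right_subset_out; rw [hp, w3_length]; simp only; omega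
  · apply bot_subset_out; rw [hp]; simp only; omega
  · apply top_subset_out; rw [hp, w3_length]; simp only; omega

/-- Integers from `a` to `b`, in either direction. -/
def rng (a b : ℕ) : List ℕ :=
  if a ≤ b then List.range' a (b + 1 - a) else (List.range' b (a + 1 - b)).reverse

/-- Horizontal path. -/
def hpath (a b j : ℕ) : List (ℕ × ℕ) := (rng a b).map fun i => (i, j)

/-- Vertical path. -/
def vpath (i a b : ℕ) : List (ℕ × ℕ) := (rng a b).map fun j => (i, j)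

/-- The chains of `step_rp`, from the cell `(18, 18)`. -/
def rpPath (d : Dig) : List (ℕ × ℕ) :=
  if d.1.1 = 1 then
    vpath 18 18 (6 + 9 * d.1.2) ++ hpath 18 15 (6 + 9 * d.1.2)
  else hpath 18 (6 + 9 * d.1.1) 18 ++ vpath (6 + 9 * d.1.1) 18 (6 + 9 * d.1.2)

theorem rpPath_isPath : ∀ d : Dig, IsPath (rpPath d) (18, 18) (6 + 9 * d.1.1, 6 + 9 * d.1.2) := by
  decide +kernel

theorem rpPath_mem : ∀ d : Dig, ∀ r ∈ rpPath d, Okp r ∧ 2 ≤ r.1 ∧ 2 ≤ r.2 ∧ r.1 ≤ 24 ∧ r.2 ≤ 24 := by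
  decide +kernel

theorem rp_mem : rp ∈ cell (w3 (18, 18)) := by
  refine vertex_w3 (p := (18, 18)) (by decide +kernel) (a := 0) (b := 0) (Or.inl rfl) (Or.inl rfl) ?_ ?_
  · have e : rp.1.1 = ((0 : ℝ) + ((2 : ℤ) : ℝ)) / 3 := rfl
    rw [e]; norm_num
  · have e : rp.1.2 = ((0 : ℝ) + ((2 : ℤ) : ℝ)) / 3 := rfl
    rw [e]; norm_num

theorem F_rp_mem (d : Dig) : F d rp ∈ cell (w3 (6 + 9 * d.1.1, 6 + 9 * d.1.2)) := by
  have hok : Okp (6 + 9 * (d.1.1 : ℕ), 6 + 9 * (d.1.2 : ℕ)) := by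
    revert d; decide +kernel
  refine vertex_w3 hok (a := 0) (b := 0) (Or.inl rfl) (Or.inl rfl) ?_ ?_
  · have e : (F d rp).1.1 = (((0 : ℝ) + ((2 : ℤ) : ℝ)) / 3 + ((d.1.1 : ℕ) : ℤ)) / 3 := rfl
    rw [e]; push_cast; ring
  · have e : (F d rp).1.2 = (((0 : ℝ) + ((2 : ℤ) : ℝ)) / 3 + ((d.1.2 : ℕ) : ℤ)) / 3 := rfl
    rw [e]; push_cast; ring

/-- Chain of interior cells of level 3 (indices between `6` and `24`) from `F d rp`, which is the vertex
`(6 + 9 d.x, 6 + 9 d.y)` of the grid of level 3, to `rp`, the vertex `(18, 18)`: if `d.x ≠ 1` go along the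
full column of index `6` or `24` to the full row `18`, then along this row to the cell `(18,18)`; if
`d.x = 1` then `d.y ≠ 1`, go along the full row of index `6` or `24` to the column `18`. Use
`harnack_chain` (all cells have `V0 ⊆ out 1 s`). -/
theorem step_rp : ∃ C : ℝ, 1 ≤ C ∧ ∀ H, SupOff S V0 H → 0 ≤ H → ∀ d, H (F d rp) ≤ C * H rp := by
  obtain ⟨C, hC1, hC⟩ := path_le S
  refine ⟨C, hC1, fun H hH h0 d => ?_⟩
  refine (hC V0 H hH h0 (rpPath d) _ _ (rpPath_isPath d) (fun r hr => ?_) rp rp_mem (F d rp)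
    (F_rp_mem d)).1
  obtain ⟨h1, h2, h3, h4, h5⟩ := rpPath_mem d r hr
  exact V0_subset_out_w3 h1 h2 h3 h4 h5

theorem Fw_mem_left {w : List Dig} {x : K} (h : Fw w x ∈ left) : x ∈ left ∧ (pos w).1 = 0 := by
  have h1 : (Fw w x).1.1 = 0 := h
  rw [Fw_apply1] at h1
  have h3 : (3 : ℝ) ^ w.length ≠ 0 := by positivity
  have h2 : ((pos w).1 : ℝ) + x.1.1 = 0 := by
    rcases div_eq_zero_iff.1 h1 with h | h
    · exact h
    · exact absurd h h3
  have h4 : (0 : ℝ) ≤ (pos w).1 := by exact_mod_cast (pos_nonneg w).1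
  have h5 := (K_bounds x).1
  refine ⟨?_, ?_⟩
  · change x.1.1 = 0
    linarith
  · have : ((pos w).1 : ℝ) = 0 := by linarith
    exact_mod_cast this

theorem Fw_mem_bot {w : List Dig} {x : K} (h : Fw w x ∈ bot) : x ∈ bot ∧ (pos w).2 = 0 := by
  have h1 : (Fw w x).1.2 = 0 := h
  rw [Fw_apply2] at h1
  have h3 : (3 : ℝ) ^ w.length ≠ 0 := by positivity
  have h2 : ((pos w).2 : ℝ) + x.1.2 = 0 := by
    rcases div_eq_zero_iff.1 h1 with h | h
    · exact h
    · exact absurd h h3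
  have h4 : (0 : ℝ) ≤ (pos w).2 := by exact_mod_cast (pos_nonneg w).2
  have h5 := (K_bounds x).2.2.1
  refine ⟨?_, ?_⟩
  · change x.1.2 = 0
    linarith
  · have : ((pos w).2 : ℝ) = 0 := by linarith
    exact_mod_cast this

theorem Fw_mem_right {w : List Dig} {x : K} (h : Fw w x ∈ right) :
    x ∈ right ∧ (pos w).1 = 3 ^ w.length - 1 := by
  have h1 : (Fw w x).1.1 = 1 := h
  rw [Fw_apply1] at h1
  have h3 : (3 : ℝ) ^ w.length ≠ 0 := by positivity
  have h2 : ((pos w).1 : ℝ) + x.1.1 = 3 ^ w.length := by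
    rw [div_eq_one_iff_eq h3] at h1
    exact h1
  have h4 : (pos w).1 + 1 ≤ 3 ^ w.length := (pos_lt w).1
  have h4' : ((pos w).1 : ℝ) + 1 ≤ 3 ^ w.length := by exact_mod_cast h4
  have h5 := (K_bounds x).2.1
  refine ⟨?_, ?_⟩
  · change x.1.1 = 1
    linarith
  · have : ((pos w).1 : ℝ) = 3 ^ w.length - 1 := by linarith
    exact_mod_cast this

theorem Fw_mem_top {w : List Dig} {x : K} (h : Fw w x ∈ top) :
    x ∈ top ∧ (pos w).2 = 3 ^ w.length - 1 := by
  have h1 : (Fw w x).1.2 = 1 := h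
  rw [Fw_apply2] at h1
  have h3 : (3 : ℝ) ^ w.length ≠ 0 := by positivity
  have h2 : ((pos w).2 : ℝ) + x.1.2 = 3 ^ w.length := by
    rw [div_eq_one_iff_eq h3] at h1
    exact h1
  have h4 : (pos w).2 + 1 ≤ 3 ^ w.length := (pos_lt w).2
  have h4' : ((pos w).2 : ℝ) + 1 ≤ 3 ^ w.length := by exact_mod_cast h4
  have h5 := (K_bounds x).2.2.2
  refine ⟨?_, ?_⟩
  · change x.1.2 = 1
    linarith
  · have : ((pos w).2 : ℝ) = 3 ^ w.length - 1 := by linarith
    exact_mod_cast this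

theorem Fw_preimage_V0 (w : List Dig) : Fw w ⁻¹' V0 ⊆ V0 := by
  rintro x (((h | h) | h) | h)
  · exact Or.inl (Or.inl (Or.inl (Fw_mem_left h).1))
  · exact Or.inl (Or.inl (Or.inr (Fw_mem_right h).1))
  · exact Or.inl (Or.inr (Fw_mem_bot h).1)
  · exact Or.inr (Fw_mem_top h).1

/-- Iterate `step_rp` using `SupOff.restrict` (to cells, with `B = V0`, `Bd_subset_V0`). -/
theorem harnack_rp : ∃ C : ℝ, 1 ≤ C ∧ ∀ H, SupOff S V0 H → 0 ≤ H → ∀ w : List Dig,
    H (Fw w rp) ≤ C ^ w.length * H rp := by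
  obtain ⟨C, hC1, hC⟩ := step_rp S
  refine ⟨C, hC1, fun H hH h0 w => ?_⟩
  induction w generalizing H with
  | nil => simp [Fw]
  | cons d w ih =>
    have h1 : SupOff S V0 (H.comp (Fw [d])) :=
      hH.restrict [d] (Bd_subset_V0 _) (Fw_preimage_V0 _)
    have h2 : 0 ≤ H.comp (Fw [d]) := fun x => h0 (Fw [d] x)
    have h3 := ih (H.comp (Fw [d])) h1 h2
    have h4 := hC H hH h0 d
    have e1 : (H.comp (Fw [d])) (Fw w rp) = H (Fw (d :: w) rp) := rfl
    have e2 : (H.comp (Fw [d])) rp = H (F d rp) := rfl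
    rw [e1, e2] at h3
    have h5 : 0 ≤ C ^ w.length := by positivity
    calc H (Fw (d :: w) rp) ≤ C ^ w.length * H (F d rp) := h3
      _ ≤ C ^ w.length * (C * H rp) := mul_le_mul_of_nonneg_left h4 h5
      _ = C ^ (d :: w).length * H rp := by
        rw [List.length_cons, pow_succ]; ring

end Pool.Agent.Helper67.SC
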