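import Pool.Agent.Helper67.SC.G1

/-! Module G2: linking of words, connectedness, explicit words, chains. -/

open MeasureTheory Filter Topology

noncomputable section

namespace Pool.Agent.Helper67.SC

/-- Two digits are joined by three steps of touching digits. -/
theorem dig_three (a b : Dig) : ∃ c d : Dig,
    ((a.1.1 : ℕ) ≤ c.1.1 + 1 ∧ (c.1.1 : ℕ) ≤ a.1.1 + 1 ∧
      (a.1.2 : ℕ) ≤ c.1.2 + 1 ∧ (c.1.2 : ℕ) ≤ a.1.2 + 1) ∧
    ((c.1.1 : ℕ) ≤ d.1.1 + 1 ∧ (d.1.1 : ℕ) ≤ c.1.1 + 1 ∧
      (c.1.2 : ℕ) ≤ d.1.2 + 1 ∧ (d.1.2 : ℕ) ≤ c.1.2 + 1) ∧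
    ((d.1.1 : ℕ) ≤ b.1.1 + 1 ∧ (b.1.1 : ℕ) ≤ d.1.1 + 1 ∧
      (d.1.2 : ℕ) ≤ b.1.2 + 1 ∧ (b.1.2 : ℕ) ≤ d.1.2 + 1) := by
  revert a b
  decide

theorem near_single {a b : Dig} (h : (a.1.1 : ℕ) ≤ b.1.1 + 1 ∧ (b.1.1 : ℕ) ≤ a.1.1 + 1 ∧
      (a.1.2 : ℕ) ≤ b.1.2 + 1 ∧ (b.1.2 : ℕ) ≤ a.1.2 + 1) : near 1 [a] [b] := by
  obtain ⟨h1, h2, h3, h4⟩ := h
  simp only [near, pos, Dig.x, Dig.y, List.length_nil, pow_zero, one_mul, add_zero]
  constructor <;> rw [abs_le] <;> constructor <;> omega

/-- The children of a word are linked. -/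
theorem linked_children (p : List Dig) (n : ℕ) (hp : p.length = n) (a b : Dig) :
    Linked {w | w.length = n + 1} (p ++ [a]) (p ++ [b]) := by
  obtain ⟨c, d, h1, h2, h3⟩ := dig_three a b
  have key : ∀ {e f : Dig}, near 1 [e] [f] → near 1 (p ++ [e]) (p ++ [f]) := fun {e f} h =>
    (near_append_left p [e] [f] rfl).2 h
  have hl : ∀ e : Dig, (p ++ [e]).length = n + 1 := fun e => by simp [hp]
  exact ((Relation.ReflTransGen.single (a := p ++ [a]) (b := p ++ [c])
    ⟨hl c, key (near_single h1)⟩).tail ⟨hl d, key (near_single h2)⟩).tail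
    ⟨hl b, key (near_single h3)⟩

/-- If two words touch, all their children are linked. -/
theorem linked_children_of_near (p q : List Dig) (n : ℕ) (hp : p.length = n) (hq : q.length = n)
    (hn : near 1 p q) (a b : Dig) :
    Linked {w | w.length = n + 1} (p ++ [a]) (q ++ [b]) := by
  obtain ⟨x, hxp, hxq⟩ := exists_common (hp.trans hq.symm) hn
  obtain ⟨v, hv, hxv⟩ := exists_cell_append p 1 hxp
  obtain ⟨w, hw, hxw⟩ := exists_cell_append q 1 hxq
  obtain ⟨c, rfl⟩ := List.length_eq_one_iff.1 hv
  obtain ⟨d, rfl⟩ := List.length_eq_one_iff.1 hw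
  have h1 := linked_children p n hp a c
  have h2 := linked_children q n hq d b
  have h3 : near 1 (p ++ [c]) (q ++ [d]) :=
    near_of_mem (by simp [hp, hq]) hxv hxw
  have h4 : Linked {w | w.length = n + 1} (p ++ [a]) (q ++ [d]) :=
    Relation.ReflTransGen.tail h1 ⟨by simp [hq], h3⟩
  exact Relation.ReflTransGen.trans h4 h2

theorem exists_snoc {n : ℕ} {u : List Dig} (hu : u.length = n + 1) :
    ∃ p : List Dig, ∃ a : Dig, p.length = n ∧ u = p ++ [a] := by
  have hne : u ≠ [] := by
    rintro rfl
    simp at hu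
  refine ⟨u.dropLast, u.getLast hne, by simp [hu], (List.dropLast_append_getLast hne).symm⟩

/-- All words of length `n` are linked by touching words of length `n`.
Induction on `n` (append a digit): the eight children of a word are linked (cyclically consecutive
digits touch), and if `near 1 u v` then some child of `u` touches some child of `v`
(take a common point, `exists_common`, and children containing it, `near_of_mem`). -/
theorem linked_words (n : ℕ) (u v : List Dig) (hu : u.length = n) (hv : v.length = n) :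
    Linked {a | a.length = n} u v := by
  induction n generalizing u v with
  | zero =>
    have h1 : u = [] := List.length_eq_zero_iff.1 hu
    have h2 : v = [] := List.length_eq_zero_iff.1 hv
    subst h1 h2
    exact Relation.ReflTransGen.refl
  | succ n ih =>
    obtain ⟨p, a, hp, rfl⟩ := exists_snoc hu
    obtain ⟨q, b, hq, rfl⟩ := exists_snoc hv
    have h := ih p q hp hq
    have key : ∀ r, Linked {a | a.length = n} p r → r.length = n ∧
        ∀ c : Dig, Linked {a | a.length = n + 1} (p ++ [a]) (r ++ [c]) := by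
      intro r hr
      induction hr with
      | refl => exact ⟨hp, fun c => linked_children p n hp a c⟩
      | tail _ h2 ih2 =>
        refine ⟨h2.1, fun c => ?_⟩
        exact Relation.ReflTransGen.trans (ih2.2 a)
          (linked_children_of_near _ _ n ih2.1 h2.1 h2.2 a c)
    exact (key q h).2 b

/-- A linked chain as a list. -/
theorem Linked.exists_list {n : ℕ} {u v : List Dig} (h : Linked {a | a.length = n} u v) :
    ∃ l : List (List Dig), (∀ a ∈ l, a.length = n) ∧
      List.IsChain (near 1) (u :: l) ∧ (u :: l).getLast (List.cons_ne_nil _ _) = v := by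
  obtain ⟨l, h1, h2⟩ := List.exists_isChain_cons_of_relationReflTransGen h
  refine ⟨l, ?_, h1.imp fun _ _ h => h.2, h2⟩
  clear h2 h
  induction l generalizing u with
  | nil => simp
  | cons b l ih =>
    rw [List.isChain_cons_cons] at h1
    intro a ha
    rcases List.mem_cons.1 ha with rfl | ha
    · exact h1.1.1
    · exact ih h1.2 a ha

/-- Uniform bound for the length of the chains in `linked_words` (finiteness). -/
theorem linked_words_len (n : ℕ) : ∃ N : ℕ, ∀ u v : List Dig, u.length = n → v.length = n →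
    ∃ l : List (List Dig), l.length ≤ N ∧ (∀ a ∈ l, a.length = n) ∧
      List.IsChain (near 1) (u :: l) ∧ (u :: l).getLast (List.cons_ne_nil _ _) = v := by
  have h : ∀ p : List Dig × List Dig, ∃ l : List (List Dig), p.1.length = n → p.2.length = n →
      (∀ a ∈ l, a.length = n) ∧
      List.IsChain (near 1) (p.1 :: l) ∧ (p.1 :: l).getLast (List.cons_ne_nil _ _) = p.2 := by
    intro p
    by_cases h1 : p.1.length = n
    · by_cases h2 : p.2.length = n
      · obtain ⟨l, hl⟩ := (linked_words n p.1 p.2 h1 h2).exists_list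
        exact ⟨l, fun _ _ => hl⟩
      · exact ⟨[], fun _ h => absurd h h2⟩
    · exact ⟨[], fun h => absurd h h1⟩
  choose L hL using h
  refine ⟨(words n ×ˢ words n).sup (fun p => (L p).length), fun u v hu hv => ?_⟩
  have h2 := hL (u, v) hu hv
  refine ⟨L (u, v), ?_, h2.1, h2.2.1, h2.2.2⟩
  exact Finset.le_sup (f := fun p => (L p).length) (b := (u, v))
    (Finset.mem_product.2 ⟨mem_words.2 hu, mem_words.2 hv⟩)

/-- Link inside the cell of `w`: the words `w ++ s`, `s.length = n`. -/
theorem linked_below (w : List Dig) (n : ℕ) (u v : List Dig) (hu : u.length = n)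
    (hv : v.length = n) :
    Linked {a | ∃ s : List Dig, s.length = n ∧ a = w ++ s} (w ++ u) (w ++ v) := by
  have h := linked_words n u v hu hv
  have key : ∀ r, Linked {a | a.length = n} u r → r.length = n ∧
      Linked {a | ∃ s : List Dig, s.length = n ∧ a = w ++ s} (w ++ u) (w ++ r) := by
    intro r hr
    induction hr with
    | refl => exact ⟨hu, Relation.ReflTransGen.refl⟩
    | @tail b c _ h2 ih2 =>
      refine ⟨h2.1, Relation.ReflTransGen.tail ih2.2 ⟨⟨c, h2.1, rfl⟩, ?_⟩⟩
      exact (near_append_left w b c (ih2.1.trans h2.1.symm)).2 h2.2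
  exact (key v h).2

/-- Clopen subsets of `K` are trivial: by compactness every cell of some level `n` is contained
in `U` or in its complement, then use `linked_words` and `exists_common`. -/
instance instConnectedSpaceK : ConnectedSpace K := by
  have hpre : PreconnectedSpace K := by
    rw [preconnectedSpace_iff_clopen]
    intro U hU
    by_cases hne : U = ∅
    · exact Or.inl hne
    right
    obtain ⟨x₀, hx₀⟩ := Set.nonempty_iff_ne_empty.2 hne
    let c : Bool → Set K := fun b => if b then U else Uᶜ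
    have hc : ∀ b, IsOpen (c b) := by
      intro b
      cases b
      · simpa [c] using hU.1
      · simpa [c] using hU.2
    have hcov : (Set.univ : Set K) ⊆ ⋃ b, c b := by
      intro x _
      by_cases hx : x ∈ U
      · exact Set.mem_iUnion.2 ⟨true, by simpa [c] using hx⟩
      · exact Set.mem_iUnion.2 ⟨false, by simpa [c] using hx⟩
    obtain ⟨δ, hδ, hleb⟩ := lebesgue_number_lemma_of_metric isCompact_univ hc hcov
    have hstep : ∀ x y : K, dist y x < δ → x ∈ U → y ∈ U := by
      intro x y hd hx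
      obtain ⟨b, hb⟩ := hleb x (Set.mem_univ _)
      cases b
      · have := hb (Metric.mem_ball_self hδ)
        simp only [c, Bool.false_eq_true, if_false] at this
        exact absurd hx this
      · have := hb (Metric.mem_ball.2 hd)
        simpa [c] using this
    obtain ⟨n, hn⟩ := exists_pow_lt_of_lt_one hδ (y := (1 / 3 : ℝ)) (by norm_num)
    have hn' : (1 : ℝ) / 3 ^ n < δ := by
      rwa [one_div_pow] at hn
    have hcell : ∀ (w : List Dig), w.length = n → ∀ x ∈ cell w, ∀ y ∈ cell w, x ∈ U → y ∈ U := by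
      intro w hw x hx y hy hxU
      refine hstep x y ?_ hxU
      have := dist_cell_le hy hx
      rw [hw] at this
      exact lt_of_le_of_lt this hn'
    obtain ⟨u, hu, hxu⟩ := exists_cell n x₀
    have key : ∀ r, Linked {a | a.length = n} u r → r.length = n ∧ cell r ⊆ U := by
      intro r hr
      induction hr with
      | refl => exact ⟨hu, fun y hy => hcell u hu x₀ hxu y hy hx₀⟩
      | @tail b c' _ h2 ih2 =>
        refine ⟨h2.1, fun y hy => ?_⟩
        obtain ⟨z, hz1, hz2⟩ := exists_common (ih2.1.trans h2.1.symm) h2.2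
        exact hcell c' h2.1 z hz2 y hy (ih2.2 hz1)
    refine Set.eq_univ_of_forall fun y => ?_
    obtain ⟨v, hv, hyv⟩ := exists_cell n y
    exact (key v (linked_words n u v hu hv)).2 hyv
  exact { toPreconnectedSpace := hpre, toNonempty := inferInstance }

theorem cell_isPreconnected (w : List Dig) : IsPreconnected (cell w) :=
  isPreconnected_range (Fw w).continuous

/-- A cell contained in the union of two disjoint open sets is contained in one of them. -/
theorem cell_subset_or {w : List Dig} {O₁ O₂ : Set K} (h1 : IsOpen O₁) (h2 : IsOpen O₂)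
    (hd : Disjoint O₁ O₂) (h : cell w ⊆ O₁ ∪ O₂) : cell w ⊆ O₁ ∨ cell w ⊆ O₂ :=
  IsPreconnected.subset_or_subset h1 h2 hd h (cell_isPreconnected w)

/-- The digit of weight `3 ^ k` pattern: `j` has only ternary digits `0` and `2` below level `n`. -/
def Good : ℕ → ℤ → Prop
  | 0, j => j = 0
  | n + 1, j => ∃ i : ℤ, (j = 3 * i ∨ j = 3 * i + 2) ∧ Good n i

theorem exists_dig {a b : ℤ} (ha : 0 ≤ a) (ha' : a ≤ 2) (hb : 0 ≤ b) (hb' : b ≤ 2)
    (h : ¬ (a = 1 ∧ b = 1)) : ∃ d : Dig, d.x = a ∧ d.y = b := by
  refine ⟨⟨(⟨a.toNat, by omega⟩, ⟨b.toNat, by omega⟩), ?_⟩, ?_, ?_⟩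
  · intro he
    apply h
    have h1 := congrArg (fun p : Fin 3 × Fin 3 => (p.1 : ℕ)) he
    have h2 := congrArg (fun p : Fin 3 × Fin 3 => (p.2 : ℕ)) he
    simp only [Fin.val_one] at h1 h2
    omega
  · simp only [Dig.x]
    omega
  · simp only [Dig.y]
    omega

theorem pos_snoc (w : List Dig) (d : Dig) :
    pos (w ++ [d]) = (3 * (pos w).1 + d.x, 3 * (pos w).2 + d.y) := by
  rw [pos_append]
  simp [pos]

/-- Rows with good index are full. -/
theorem exists_word_row {n : ℕ} {i j : ℤ} (hi : 0 ≤ i) (hi' : i < 3 ^ n) (hj : Good n j) :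
    ∃ w : List Dig, w.length = n ∧ pos w = (i, j) := by
  induction n generalizing i j with
  | zero =>
    refine ⟨[], rfl, ?_⟩
    have hj' : j = 0 := hj
    simp only [pow_zero] at hi'
    have hi0 : i = 0 := by omega
    simp [pos, hj', hi0]
  | succ n ih =>
    obtain ⟨j', hj1, hj2⟩ := hj
    have h3 : i / 3 < 3 ^ n := by
      rw [pow_succ] at hi'
      omega
    obtain ⟨w, hw, hp⟩ := ih (i := i / 3) (j := j') (by omega) h3 hj2
    obtain ⟨d, hd1, hd2⟩ := exists_dig (a := i % 3) (b := j - 3 * j') (by omega) (by omega)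
      (by omega) (by omega) (by omega)
    refine ⟨w ++ [d], by simp [hw], ?_⟩
    rw [pos_snoc, hp, hd1, hd2]
    ext
    · simp only
      omega
    · simp only
      omega

/-- Columns with good index are full. -/
theorem exists_word_col {n : ℕ} {i j : ℤ} (hi : Good n i) (hj : 0 ≤ j) (hj' : j < 3 ^ n) :
    ∃ w : List Dig, w.length = n ∧ pos w = (i, j) := by
  induction n generalizing i j with
  | zero =>
    refine ⟨[], rfl, ?_⟩
    have hi0 : i = 0 := hi
    simp only [pow_zero] at hj'
    have hj0 : j = 0 := by omega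
    simp [pos, hi0, hj0]
  | succ n ih =>
    obtain ⟨i', hi1, hi2⟩ := hi
    have h3 : j / 3 < 3 ^ n := by
      rw [pow_succ] at hj'
      omega
    obtain ⟨w, hw, hp⟩ := ih (i := i') (j := j / 3) hi2 (by omega) h3
    obtain ⟨d, hd1, hd2⟩ := exists_dig (a := i - 3 * i') (b := j % 3) (by omega) (by omega)
      (by omega) (by omega) (by omega)
    refine ⟨w ++ [d], by simp [hw], ?_⟩
    rw [pos_snoc, hp, hd1, hd2]
    ext
    · simp only
      omega
    · simp only
      omega

/-- A point whose position in the grid of level `n` is a vertex of the square with index `p`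
lies in the cell of every word with this position; here the vertex is `p + (a, b)`. -/
theorem vertex_mem_cell {w : List Dig} {x : K} {a b : ℤ} (ha : a = 0 ∨ a = 1) (hb : b = 0 ∨ b = 1)
    (h1 : (3 : ℝ) ^ w.length * x.1.1 = (pos w).1 + a) (h2 : (3 : ℝ) ^ w.length * x.1.2 = (pos w).2 + b) :
    x ∈ cell w := by
  have hc : ∃ c : K, c.1.1 = a ∧ c.1.2 = b := by
    rcases ha with rfl | rfl <;> rcases hb with rfl | rfl
    · exact ⟨c00, by simp [c00], by simp [c00]⟩
    · exact ⟨c01, by simp [c01], by simp [c01]⟩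
    · exact ⟨c10, by simp [c10], by simp [c10]⟩
    · exact ⟨c11, by simp [c11], by simp [c11]⟩
  obtain ⟨c, hc1, hc2⟩ := hc
  have h3 : (3 : ℝ) ^ w.length ≠ 0 := by positivity
  refine ⟨c, K_ext ?_ ?_⟩
  · rw [Fw_apply1, hc1, ← h1]
    field_simp
  · rw [Fw_apply2, hc2, ← h2]
    field_simp

end Pool.Agent.Helper67.SC
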