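import Pool.Agent.Helper67.SC.L1

/-! Module L2: chains of cells inside open sets, components. -/

open MeasureTheory Filter Topology

noncomputable section

namespace Pool.Agent.Helper67.SC

variable {S : CarForm}

theorem l2_linked_mem {T : Set (List Dig)} {s t : List Dig} (hs : s ∈ T) (h : Linked T s t) :
    t ∈ T := by
  induction h with
  | refl => exact hs
  | tail _ h2 _ => exact h2.1

theorem l2_linked_symm {T : Set (List Dig)} {s t : List Dig} (hs : s ∈ T) (h : Linked T s t) :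
    Linked T t s := by
  induction h with
  | refl => exact Relation.ReflTransGen.refl
  | tail h1 h2 ih => exact Relation.ReflTransGen.head ⟨l2_linked_mem hs h1, near_symm h2.2⟩ ih

theorem l2_linked_mono {T T' : Set (List Dig)} (hT : T ⊆ T') {s t : List Dig} (h : Linked T s t) :
    Linked T' s t := by
  induction h with
  | refl => exact Relation.ReflTransGen.refl
  | tail _ h2 ih => exact Relation.ReflTransGen.tail ih ⟨hT h2.1, h2.2⟩

/-- `Conn O` is symmetric. -/
theorem Conn.symm {O : Set K} {x y : K} (h : Conn O x y) : Conn O y x := by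
  obtain ⟨n, s, t, hs, hx, hy, hO, hl⟩ := h
  have ht := l2_linked_mem (T := {a | a.length = n ∧ cell a ⊆ O}) ⟨hs, hO⟩ hl
  exact ⟨n, t, s, ht.1, hy, hx, ht.2, l2_linked_symm ⟨hs, hO⟩ hl⟩

theorem Conn.mono {O O' : Set K} (hO : O ⊆ O') {x y : K} (h : Conn O x y) : Conn O' x y := by
  obtain ⟨n, s, t, hs, hx, hy, hsO, hl⟩ := h
  exact ⟨n, s, t, hs, hx, hy, hsO.trans hO,
    l2_linked_mono (T := {a | a.length = n ∧ cell a ⊆ O}) (T' := {a | a.length = n ∧ cell a ⊆ O'})
      (fun _ ha => ⟨ha.1, Set.Subset.trans ha.2 hO⟩) hl⟩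

theorem Conn.mem_left {O : Set K} {x y : K} (h : Conn O x y) : x ∈ O := by
  obtain ⟨n, s, t, hs, hx, hy, hsO, hl⟩ := h
  exact hsO hx

theorem Conn.mem_right {O : Set K} {x y : K} (h : Conn O x y) : y ∈ O := h.symm.mem_left

/-- refinement of a chain -/
theorem l2_refine {O : Set K} {n : ℕ} {s t : List Dig} (hs : s.length = n) (hO : cell s ⊆ O)
    (h : Linked {a | a.length = n ∧ cell a ⊆ O} s t) (k : ℕ) (v v' : List Dig)
    (hv : v.length = k) (hv' : v'.length = k) :
    Linked {a | a.length = n + k ∧ cell a ⊆ O} (s ++ v) (t ++ v') := by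
  have hin : ∀ a : List Dig, a.length = n → cell a ⊆ O → ∀ v v' : List Dig, v.length = k →
      v'.length = k → Linked {a | a.length = n + k ∧ cell a ⊆ O} (a ++ v) (a ++ v') := by
    intro a ha haO v v' hv hv'
    refine l2_linked_mono ?_ (linked_below a k v v' hv hv')
    rintro _ ⟨s, hs, rfl⟩
    exact ⟨by simp [ha, hs], (cell_append_subset a s).trans haO⟩
  induction h generalizing v' with
  | refl => exact hin s hs hO v v' hv hv'
  | tail h1 h2 ih =>
    rename_i b c
    obtain ⟨hb, hbO⟩ := l2_linked_mem (T := {a | a.length = n ∧ cell a ⊆ O}) ⟨hs, hO⟩ h1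
    obtain ⟨⟨hc, hcO⟩, hbc⟩ := h2
    obtain ⟨z, hzb, hzc⟩ := exists_common (hb.trans hc.symm) hbc
    obtain ⟨u, hu, hzu⟩ := exists_cell_append b k hzb
    obtain ⟨u', hu', hzu'⟩ := exists_cell_append c k hzc
    refine (ih u hu).trans ((Relation.ReflTransGen.single ⟨?_, ?_⟩).trans (hin c hc hcO u' v' hu' hv'))
    · exact ⟨by simp [hc, hu'], (cell_append_subset c u').trans hcO⟩
    · exact near_of_mem (by simp [hb, hc, hu, hu']) hzu hzu'

/-- A chain at level `n` can be refined to a chain at every level `m ≥ n`. -/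
theorem Conn.exists_level {O : Set K} {x y : K} (h : Conn O x y) :
    ∃ n₀ : ℕ, ∀ m ≥ n₀, ∃ s t : List Dig, s.length = m ∧ x ∈ cell s ∧ y ∈ cell t ∧ cell s ⊆ O ∧
      Linked {a | a.length = m ∧ cell a ⊆ O} s t := by
  obtain ⟨n, s, t, hs, hx, hy, hO, hl⟩ := h
  refine ⟨n, fun m hm => ?_⟩
  obtain ⟨k, rfl⟩ := Nat.exists_eq_add_of_le hm
  obtain ⟨v, hv, hxv⟩ := exists_cell_append s k hx
  obtain ⟨v', hv', hyv⟩ := exists_cell_append t k hy
  exact ⟨s ++ v, t ++ v', by simp [hs, hv], hxv, hyv, (cell_append_subset s v).trans hO,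
    l2_refine hs hO hl k v v' hv hv'⟩

/-- `Conn O` is transitive (refine the two chains to a common level; inside a cell use
`linked_below`). -/
theorem Conn.trans {O : Set K} {x y z : K} (h : Conn O x y) (h' : Conn O y z) : Conn O x z := by
  obtain ⟨n, hn⟩ := h.exists_level
  obtain ⟨n', hn'⟩ := h'.exists_level
  obtain ⟨s, t, hs, hx, hy, hO, hl⟩ := hn (max n n') (le_max_left _ _)
  obtain ⟨s', t', hs', hx', hy', hO', hl'⟩ := hn' (max n n') (le_max_right _ _)
  have ht := l2_linked_mem (T := {a | a.length = max n n' ∧ cell a ⊆ O}) ⟨hs, hO⟩ hl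
  refine ⟨max n n', s, t', hs, hx, hy', hO, hl.trans ((Relation.ReflTransGen.single
    ⟨⟨hs', hO'⟩, near_of_mem (ht.1.trans hs'.symm) hy hx'⟩).trans hl')⟩

/-- Points of an open set are joined to all near points. -/
theorem l2_ball {O : Set K} (hO : IsOpen O) {x : K} (hx : x ∈ O) :
    ∃ ε > 0, ∀ y, dist x y < ε → Conn O x y := by
  obtain ⟨ε, hε, hball⟩ := Metric.isOpen_iff.1 hO x hx
  obtain ⟨n, hn⟩ := exists_pow_lt_of_lt_one (half_pos hε) (by norm_num : (1 / 3 : ℝ) < 1)
  have h3 : (0 : ℝ) < 3 ^ n := by positivity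
  have hn' : 1 / (3 : ℝ) ^ n < ε / 2 := by rwa [one_div_pow] at hn
  refine ⟨1 / 3 ^ n, by positivity, fun y hy => ?_⟩
  obtain ⟨s, hs, hxs⟩ := exists_cell n x
  obtain ⟨t, ht, hyt⟩ := exists_cell n y
  have hnear : near 1 s t := by
    refine near_of_dist (hs.trans ht.symm) hxs hyt ?_
    rw [hs]
    push_cast
    rw [lt_div_iff₀ h3] at hy
    linarith
  have hsO : cell s ⊆ O := fun z hz => hball (by
    rw [Metric.mem_ball, dist_comm]
    have := dist_cell_le hxs hz
    rw [hs] at this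
    linarith)
  have htO : cell t ⊆ O := fun z hz => hball (by
    rw [Metric.mem_ball, dist_comm]
    have h1 := dist_cell_le hyt hz
    rw [ht] at h1
    have h2 := dist_triangle x y z
    linarith)
  exact ⟨n, s, t, hs, hxs, hyt, hsO, Relation.ReflTransGen.single ⟨⟨ht, htO⟩, hnear⟩⟩

theorem Conn.refl {O : Set K} (hO : IsOpen O) {x : K} (hx : x ∈ O) : Conn O x x := by
  obtain ⟨ε, hε, h⟩ := l2_ball hO hx
  exact h x (by rwa [dist_self])

/-- Coarse chains: at every level `m` the cells meeting `O` contain a chain from `x` to `y`. -/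
theorem Conn.coarse {O : Set K} {x y : K} (h : Conn O x y) (m : ℕ) :
    ∃ s t : List Dig, s.length = m ∧ x ∈ cell s ∧ y ∈ cell t ∧ (∃ z ∈ cell s, z ∈ O) ∧
      Linked {a | a.length = m ∧ ∃ z ∈ cell a, z ∈ O} s t := by
  obtain ⟨n, hn⟩ := h.exists_level
  obtain ⟨s, t, hs, hx, hy, hO, hl⟩ := hn (max n m) (le_max_left _ _)
  have hm : m ≤ max n m := le_max_right _ _
  have hsub : ∀ a : List Dig, cell a ⊆ cell (a.take m) := by
    intro a
    conv_lhs => rw [← List.take_append_drop m a]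
    exact cell_append_subset _ _
  have hmem : ∀ a : List Dig, a.length = max n m → cell a ⊆ O →
      (a.take m).length = m ∧ ∃ z ∈ cell (a.take m), z ∈ O := by
    intro a ha haO
    exact ⟨by rw [List.length_take, ha, min_eq_left hm], Fw a c00, hsub a ⟨c00, rfl⟩,
      haO ⟨c00, rfl⟩⟩
  obtain ⟨k1, k2⟩ := hmem s hs hO
  refine ⟨s.take m, t.take m, k1, hsub s hx, hsub t hy, k2, ?_⟩
  have key : ∀ b : List Dig, Linked {a | a.length = max n m ∧ cell a ⊆ O} s b →
      Linked {a | a.length = m ∧ ∃ z ∈ cell a, z ∈ O} (s.take m) (b.take m) := by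
    intro b hb
    induction hb with
    | refl => exact Relation.ReflTransGen.refl
    | tail h1 h2 ih =>
      rename_i b c
      obtain ⟨hb, hbO⟩ := l2_linked_mem (T := {a | a.length = max n m ∧ cell a ⊆ O}) ⟨hs, hO⟩ h1
      obtain ⟨⟨hc, hcO⟩, hbc⟩ := h2
      obtain ⟨z, hzb, hzc⟩ := exists_common (hb.trans hc.symm) hbc
      refine ih.tail ⟨hmem c hc hcO, ?_⟩
      exact near_of_mem ((hmem b hb hbO).1.trans (hmem c hc hcO).1.symm) (hsub b hzb) (hsub c hzc)
  exact key t hl

/-- Components of open sets are open. -/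
theorem isOpen_conn {O : Set K} (hO : IsOpen O) (x : K) : IsOpen {y | Conn O x y} := by
  rw [Metric.isOpen_iff]
  intro y hy
  obtain ⟨ε, hε, h⟩ := l2_ball hO (Conn.mem_right hy)
  refine ⟨ε, hε, fun z hz => ?_⟩
  rw [Metric.mem_ball, dist_comm] at hz
  exact Conn.trans hy (h z hz)

theorem isOpen_not_conn {O : Set K} (hO : IsOpen O) (x : K) : IsOpen {y | y ∈ O ∧ ¬ Conn O x y} := by
  rw [Metric.isOpen_iff]
  rintro y ⟨hy, hxy⟩
  obtain ⟨ε, hε, h⟩ := l2_ball hO hy
  refine ⟨ε, hε, fun z hz => ?_⟩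
  rw [Metric.mem_ball, dist_comm] at hz
  exact ⟨(h z hz).mem_right, fun hc => hxy (hc.trans (h z hz).symm)⟩

/-- COMP. Cutting out the component of `x₀` in `{f > 0}`. -/
theorem exists_component {f : C(K, ℝ)} (hf : f ∈ S.dom) (x₀ : K) :
    ∃ φ ∈ S.dom, 0 ≤ φ ∧ (∀ x, Conn {y | 0 < f y} x₀ x → φ x = f x) ∧
      (∀ x, ¬ Conn {y | 0 < f y} x₀ x → φ x = 0) ∧
      ∀ m : ℝ, 0 ≤ m →
        S.E ((φ - ContinuousMap.const K m) ⊔ 0) ((φ - ContinuousMap.const K m) ⊔ 0) ≤
          S.E f ((φ - ContinuousMap.const K m) ⊔ 0) := by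
  have hO : IsOpen {y | 0 < f y} := isOpen_lt continuous_const f.continuous
  obtain ⟨φ, hφ, hφ0, h1, h2⟩ := exists_split (S.pos_mem hf) (CarForm.pos_nonneg' f)
    (isOpen_conn hO x₀) (isOpen_not_conn hO x₀)
    (Set.disjoint_left.2 fun y hy hy' => hy'.2 hy) (fun x hx => by
      have hx' : 0 < f x := by
        rw [ContinuousMap.sup_apply, ContinuousMap.zero_apply] at hx
        rcases lt_max_iff.1 hx with h | h
        · exact h
        · exact absurd h (lt_irrefl _)
      by_cases hc : Conn {y | 0 < f y} x₀ x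
      · exact Or.inl hc
      · exact Or.inr ⟨hx', hc⟩)
  have h1' : ∀ x, Conn {y | 0 < f y} x₀ x → φ x = f x := by
    intro x hx
    have hpos : 0 < f x := hx.mem_right
    rw [h1 x hx, ContinuousMap.sup_apply, ContinuousMap.zero_apply, max_eq_left hpos.le]
  refine ⟨φ, hφ, hφ0, h1', h2, fun m hm => ?_⟩
  set ψ := (φ - ContinuousMap.const K m) ⊔ 0 with hψd
  have hψ : ψ ∈ S.dom := S.pos_mem (S.dom.sub_mem hφ (S.const_mem m))
  have hfψ : f - ψ ∈ S.dom := S.dom.sub_mem hf hψ
  have hz : S.E (f - ψ - ContinuousMap.const K m) ψ = 0 := by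
    refine E_eq_zero_of_mul (S.dom.sub_mem hfψ (S.const_mem m)) hψ fun x => ?_
    by_cases hc : Conn {y | 0 < f y} x₀ x
    · have e : ψ x = max (f x - m) 0 := by
        rw [hψd, ContinuousMap.sup_apply, ContinuousMap.sub_apply, ContinuousMap.const_apply,
          ContinuousMap.zero_apply, h1' x hc]
      rcases le_total (f x) m with h | h
      · right
        rw [e, max_eq_right (by linarith)]
      · left
        rw [ContinuousMap.sub_apply, ContinuousMap.sub_apply, ContinuousMap.const_apply, e,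
          max_eq_left (by linarith)]
        ring
    · right
      rw [hψd, ContinuousMap.sup_apply, ContinuousMap.sub_apply, ContinuousMap.const_apply,
        ContinuousMap.zero_apply, h2 x hc]
      exact max_eq_right (by linarith)
  rw [S.E_sub_const_left m hfψ hψ, S.E_sub_left hf hψ hψ] at hz
  linarith

end Pool.Agent.Helper67.SC
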