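import Pool.Agent.Helper67.SC.T1
import Pool.Agent.Helper67.SC.L2

/-! Module T2: crossing lemma for connected sets in the carpet. -/

open MeasureTheory Filter Topology

noncomputable section

namespace Pool.Agent.Helper67.SC

/-- a chain as a sequence of words -/
theorem t2_seq {T : Set (List Dig)} {s t : List Dig} (hs : s ∈ T) (h : Linked T s t) :
    ∃ (a : ℕ → List Dig) (m : ℕ), a 0 = s ∧ a m = t ∧ (∀ i ≤ m, a i ∈ T) ∧
      ∀ i < m, near 1 (a i) (a (i + 1)) := by
  induction h with
  | refl => exact ⟨fun _ => s, 0, rfl, rfl, fun _ _ => hs, fun i hi => absurd hi (Nat.not_lt_zero i)⟩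
  | tail h1 h2 ih =>
    rename_i b c
    obtain ⟨a, m, h0, hm, hT, hn⟩ := ih
    refine ⟨fun i => if i ≤ m then a i else c, m + 1, ?_, ?_, fun i hi => ?_, fun i hi => ?_⟩
    · simp [h0]
    · simp
    · by_cases h : i ≤ m
      · simp only [h, if_true]
        exact hT i h
      · simp only [h, if_false]
        exact h2.1
    · by_cases h : i < m
      · have h' : i + 1 ≤ m := h
        have h'' : i ≤ m := h.le
        simp only [h', h'', if_true]
        exact hn i h
      · have hi' : i = m := by omega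
        subst hi'
        simp only [le_refl, if_true, Nat.not_succ_le_self, if_false]
        rw [hm]
        exact h2.2

theorem t2_pos_bounds {n : ℕ} {w : List Dig} (h : w.length = n) :
    0 ≤ (pos w).1 ∧ (pos w).1 ≤ 3 ^ n - 1 ∧ 0 ≤ (pos w).2 ∧ (pos w).2 ≤ 3 ^ n - 1 := by
  have h1 := pos_nonneg w
  have h2 := pos_lt w
  rw [h] at h2
  exact ⟨h1.1, by linarith [h2.1], h1.2, by linarith [h2.2]⟩

/-- Take chains at a common level `n` (`Conn.exists_level`); cells of the two chains are disjoint sets,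
hence at index distance at least `2` (`exists_common`); apply `dcl` with `N = 3^n - 1`; compare `dtau` of
the indices with `tau` of the points (points in disjoint sets are different). -/
theorem crossing {O₁ O₂ : Set K} (hd : Disjoint O₁ O₂) {p₁ p₂ q₁ q₂ : K} (hp₁ : p₁ ∈ bot)
    (hp₂ : p₂ ∈ bot) (hp : p₁.1.1 < p₂.1.1) (hq₁ : q₁ ∈ Lam) (hq₂ : q₂ ∈ Lam)
    (h₁ : Conn O₁ p₁ q₁) (h₂ : Conn O₂ p₂ q₂) : tau q₁ < tau q₂ := by
  obtain ⟨n₁, hn₁⟩ := h₁.exists_level
  obtain ⟨n₂, hn₂⟩ := h₂.exists_level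
  obtain ⟨n, hnn₁, hnn₂⟩ : ∃ n, n₁ ≤ n ∧ n₂ ≤ n := ⟨max n₁ n₂, le_max_left _ _, le_max_right _ _⟩
  obtain ⟨s₁, t₁, hs₁, hx₁, hy₁, hO₁, hl₁⟩ := hn₁ n hnn₁
  obtain ⟨s₂, t₂, hs₂, hx₂, hy₂, hO₂, hl₂⟩ := hn₂ n hnn₂
  obtain ⟨a, m₁, ha0, ham, haT, han⟩ := t2_seq (T := {a | a.length = n ∧ cell a ⊆ O₁}) ⟨hs₁, hO₁⟩ hl₁
  obtain ⟨b, m₂, hb0, hbm, hbT, hbn⟩ := t2_seq (T := {a | a.length = n ∧ cell a ⊆ O₂}) ⟨hs₂, hO₂⟩ hl₂
  have hN : (0 : ℤ) ≤ 3 ^ n - 1 := by
    have : (0 : ℤ) < 3 ^ n := by positivity
    linarith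
  have h3 : (0 : ℝ) < 3 ^ n := by positivity
  -- separation of the cells
  have hsep : ∀ u v : List Dig, u.length = n → v.length = n → cell u ⊆ O₁ → cell v ⊆ O₂ →
      2 ≤ max |(pos u).1 - (pos v).1| |(pos u).2 - (pos v).2| := by
    intro u v hu hv huO hvO
    by_contra hcon
    push Not at hcon
    have hlt := max_lt_iff.1 hcon
    obtain ⟨x, hxu, hxv⟩ := exists_common (hu.trans hv.symm)
      ⟨by linarith [hlt.1], by linarith [hlt.2]⟩
    exact Set.disjoint_left.1 hd (huO hxu) (hvO hxv)
  -- coordinates of the end points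
  have ht₁ : t₁.length = n ∧ cell t₁ ⊆ O₁ := by
    rw [← ham]; exact haT m₁ le_rfl
  have ht₂ : t₂.length = n ∧ cell t₂ ⊆ O₂ := by
    rw [← hbm]; exact hbT m₂ le_rfl
  have c1 := mem_cell_coord hx₁
  have c2 := mem_cell_coord hx₂
  have c3 := mem_cell_coord hy₁
  have c4 := mem_cell_coord hy₂
  rw [hs₁] at c1
  rw [hs₂] at c2
  rw [ht₁.1] at c3
  rw [ht₂.1] at c4
  have b1 := t2_pos_bounds hs₁
  have b2 := t2_pos_bounds hs₂
  have b3 := t2_pos_bounds ht₁.1
  have b4 := t2_pos_bounds ht₂.1
  have hbot₁ : (pos s₁).2 = 0 := by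
    have h : p₁.1.2 = 0 := hp₁
    rw [h, mul_zero] at c1
    have : (pos s₁).2 ≤ 0 := by exact_mod_cast c1.2.2.1
    exact le_antisymm this b1.2.2.1
  have hbot₂ : (pos s₂).2 = 0 := by
    have h : p₂.1.2 = 0 := hp₂
    rw [h, mul_zero] at c2
    have : (pos s₂).2 ≤ 0 := by exact_mod_cast c2.2.2.1
    exact le_antisymm this b2.2.2.1
  have hlt : (pos s₁).1 < (pos s₂).1 := by
    have h1 : ((pos s₁).1 : ℝ) < (pos s₂).1 + 1 := by
      have := mul_lt_mul_of_pos_left hp h3
      linarith [c1.1, c2.2.1]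
    have h2 : (pos s₁).1 < (pos s₂).1 + 1 := by exact_mod_cast h1
    have h4 := hsep s₁ s₂ hs₁ hs₂ hO₁ hO₂
    rw [hbot₁, hbot₂, sub_self, abs_zero] at h4
    have h5 : 2 ≤ |(pos s₁).1 - (pos s₂).1| := by
      rcases le_max_iff.1 h4 with h | h
      · exact h
      · exact absurd h (by norm_num)
    have h6 : (pos s₁).1 - (pos s₂).1 ≤ 0 := by linarith
    rw [abs_of_nonpos h6] at h5
    linarith
  -- sides
  have hside : ∀ (q : K) (t : List Dig), t.length = n → q ∈ cell t →
      (q.1.1 = 0 → (pos t).1 = 0) ∧ (q.1.1 = 1 → (pos t).1 = 3 ^ n - 1) ∧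
        (q.1.2 = 1 → (pos t).2 = 3 ^ n - 1) := by
    intro q t ht hq
    have c := mem_cell_coord hq
    have bb := t2_pos_bounds ht
    rw [ht] at c
    refine ⟨fun h => ?_, fun h => ?_, fun h => ?_⟩
    · rw [h, mul_zero] at c
      have : (pos t).1 ≤ 0 := by exact_mod_cast c.1
      exact le_antisymm this bb.1
    · rw [h, mul_one] at c
      have : (3 : ℤ) ^ n ≤ (pos t).1 + 1 := by exact_mod_cast c.2.1
      exact le_antisymm bb.2.1 (by linarith)
    · rw [h, mul_one] at c
      have : (3 : ℤ) ^ n ≤ (pos t).2 + 1 := by exact_mod_cast c.2.2.2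
      exact le_antisymm bb.2.2.2 (by linarith)
  have hside₁ := hside q₁ t₁ ht₁.1 hy₁
  have hside₂ := hside q₂ t₂ ht₂.1 hy₂
  have hend : ∀ q : K, q ∈ Lam → q.1.1 = 0 ∨ q.1.2 = 1 ∨ q.1.1 = 1 := by
    intro q hq
    rcases hq with (h | h) | h
    · exact Or.inl h
    · exact Or.inr (Or.inl h)
    · exact Or.inr (Or.inr h)
  have key := dcl (3 ^ n - 1) hN (fun i => pos (a i)) (fun j => pos (b j)) m₁ m₂
    (fun i hi => by
      have := t2_pos_bounds (haT i hi).1
      exact this)
    (fun j hj => by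
      have := t2_pos_bounds (hbT j hj).1
      exact this)
    (fun i hi => near_symm (han i hi)) (fun j hj => near_symm (hbn j hj))
    (fun i hi j hj => hsep (a i) (b j) (haT i hi).1 (hbT j hj).1 (haT i hi).2 (hbT j hj).2)
    (by simp only [ha0]; exact hbot₁) (by simp only [hb0]; exact hbot₂)
    (by simp only [ha0, hb0]; exact hlt)
    (by
      simp only [ham]
      rcases hend q₁ hq₁ with h | h | h
      · exact Or.inl (hside₁.1 h)
      · exact Or.inr (Or.inl (hside₁.2.2 h))
      · exact Or.inr (Or.inr (hside₁.2.1 h)))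
    (by
      simp only [hbm]
      rcases hend q₂ hq₂ with h | h | h
      · exact Or.inl (hside₂.1 h)
      · exact Or.inr (Or.inl (hside₂.2.2 h))
      · exact Or.inr (Or.inr (hside₂.2.1 h)))
  simp only [ham, hbm] at key
  -- comparison of the positions
  have hT := hsep t₁ t₂ ht₁.1 ht₂.1 ht₁.2 ht₂.2
  obtain ⟨N, hNd⟩ : ∃ N : ℤ, N = 3 ^ n - 1 := ⟨_, rfl⟩
  have hNr : (N : ℝ) = 3 ^ n - 1 := by rw [hNd]; push_cast; ring
  rw [← hNd] at key b3 b4 hside₁ hside₂
  have hN2 : 2 ≤ N := by
    rcases le_max_iff.1 hT with h | h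
    · rcases le_total 0 ((pos t₁).1 - (pos t₂).1) with h' | h'
      · rw [abs_of_nonneg h'] at h; linarith [b3.2.1, b4.1]
      · rw [abs_of_nonpos h'] at h; linarith [b4.2.1, b3.1]
    · rcases le_total 0 ((pos t₁).2 - (pos t₂).2) with h' | h'
      · rw [abs_of_nonneg h'] at h; linarith [b3.2.2.2, b4.2.2.1]
      · rw [abs_of_nonpos h'] at h; linarith [b4.2.2.2, b3.2.2.1]
  have d1 := K_bounds q₁
  have d2 := K_bounds q₂
  have hcast : ∀ i j : ℤ, i + 2 ≤ j → (i : ℝ) + 2 ≤ j := fun i j h => by exact_mod_cast h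
  -- from an index gap of two to a strict inequality
  have hgap1 : (pos t₁).2 + 2 ≤ (pos t₂).2 → q₁.1.2 < q₂.1.2 := by
    intro h
    have h1 := hcast _ _ h
    by_contra hc
    push Not at hc
    have := mul_le_mul_of_nonneg_left hc h3.le
    linarith [c3.2.2.2, c4.2.2.1]
  have hgap2 : (pos t₂).2 + 2 ≤ (pos t₁).2 → q₂.1.2 < q₁.1.2 := by
    intro h
    have h1 := hcast _ _ h
    by_contra hc
    push Not at hc
    have := mul_le_mul_of_nonneg_left hc h3.le
    linarith [c4.2.2.2, c3.2.2.1]
  have hgap3 : (pos t₁).1 + 2 ≤ (pos t₂).1 → q₁.1.1 < q₂.1.1 := by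
    intro h
    have h1 := hcast _ _ h
    by_contra hc
    push Not at hc
    have := mul_le_mul_of_nonneg_left hc h3.le
    linarith [c3.2.1, c4.1]
  have hdx : (pos t₁).1 = (pos t₂).1 → 2 ≤ |(pos t₁).2 - (pos t₂).2| := by
    intro h
    rw [h, sub_self, abs_zero] at hT
    rcases le_max_iff.1 hT with h | h
    · exact absurd h (by norm_num)
    · exact h
  have hdy : (pos t₁).2 = (pos t₂).2 → 2 ≤ |(pos t₁).1 - (pos t₂).1| := by
    intro h
    rw [h, sub_self, abs_zero] at hT
    rcases le_max_iff.1 hT with h | h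
    · exact h
    · exact absurd h (by norm_num)
  unfold tau
  unfold dtau at key
  by_cases e1 : q₁.1.1 = 0
  · rw [if_pos e1]
    have f1 := hside₁.1 e1
    rw [if_pos f1] at key
    by_cases e2 : q₂.1.1 = 0
    · rw [if_pos e2]
      have f2 := hside₂.1 e2
      rw [if_pos f2] at key
      have g := hdx (f1.trans f2.symm)
      rw [abs_of_neg (by linarith)] at g
      exact hgap1 (by linarith)
    · rw [if_neg e2]
      have hpos : 0 < q₂.1.1 := lt_of_le_of_ne d2.1 (Ne.symm e2)
      by_cases e3 : q₂.1.2 = 1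
      · rw [if_pos e3]
        linarith [d1.2.2.2]
      · rw [if_neg e3]
        linarith [d1.2.2.2, d2.2.2.2]
  · rw [if_neg e1]
    have hpos1 : 0 < q₁.1.1 := lt_of_le_of_ne d1.1 (Ne.symm e1)
    by_cases e3 : q₁.1.2 = 1
    · rw [if_pos e3]
      have f1 := hside₁.2.2 e3
      have key' : N + (pos t₁).1 <
          (if (pos t₂).1 = 0 then (pos t₂).2 else if (pos t₂).2 = N then N + (pos t₂).1
            else 3 * N - (pos t₂).2) := by
        by_cases h0 : (pos t₁).1 = 0
        · rw [if_pos h0, f1] at key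
          rw [h0, add_zero]
          exact key
        · rw [if_neg h0, if_pos f1] at key
          exact key
      by_cases e2 : q₂.1.1 = 0
      · exfalso
        rw [if_pos (hside₂.1 e2)] at key'
        linarith [b4.2.2.2, b3.1]
      · rw [if_neg e2]
        by_cases e4 : q₂.1.2 = 1
        · rw [if_pos e4]
          have f2 := hside₂.2.2 e4
          have g := hdy (f1.trans f2.symm)
          have key2 : (pos t₁).1 < (pos t₂).1 := by
            by_cases h0 : (pos t₂).1 = 0
            · rw [if_pos h0, f2] at key'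
              linarith [b3.1]
            · rw [if_neg h0, if_pos f2] at key'
              linarith
          rw [abs_of_neg (by linarith)] at g
          have := hgap3 (by linarith)
          linarith
        · rw [if_neg e4]
          have h1 : q₂.1.2 < 1 := lt_of_le_of_ne d2.2.2.2 e4
          linarith [d1.2.1]
    · rw [if_neg e3]
      have hr1 : q₁.1.1 = 1 := by
        rcases hend q₁ hq₁ with h | h | h
        · exact absurd h e1
        · exact absurd h e3
        · exact h
      have f1 := hside₁.2.1 hr1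
      have key' : 3 * N - (pos t₁).2 <
          (if (pos t₂).1 = 0 then (pos t₂).2 else if (pos t₂).2 = N then N + (pos t₂).1
            else 3 * N - (pos t₂).2) := by
        rw [if_neg (by rw [f1]; linarith)] at key
        by_cases h0 : (pos t₁).2 = N
        · rw [if_pos h0, f1] at key
          rw [h0]
          linarith
        · rw [if_neg h0] at key
          exact key
      by_cases e2 : q₂.1.1 = 0
      · exfalso
        rw [if_pos (hside₂.1 e2)] at key'
        linarith [b4.2.2.2, b3.2.2.2]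
      · rw [if_neg e2]
        by_cases e4 : q₂.1.2 = 1
        · exfalso
          have f2 := hside₂.2.2 e4
          by_cases h0 : (pos t₂).1 = 0
          · rw [if_pos h0] at key'
            linarith [b4.2.2.2, b3.2.2.2]
          · rw [if_neg h0, if_pos f2] at key'
            linarith [b4.2.1, b3.2.2.2]
        · rw [if_neg e4]
          have hr2 : q₂.1.1 = 1 := by
            rcases hend q₂ hq₂ with h | h | h
            · exact absurd h e2
            · exact absurd h e4
            · exact h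
          have f2 := hside₂.2.1 hr2
          have g := hdx (f1.trans f2.symm)
          have key2 : (pos t₂).2 < (pos t₁).2 := by
            rw [if_neg (by rw [f2]; linarith)] at key'
            by_cases h0 : (pos t₂).2 = N
            · rw [if_pos h0, f2] at key'
              linarith [b3.2.2.2]
            · rw [if_neg h0] at key'
              linarith
          rw [abs_of_pos (by linarith)] at g
          have := hgap2 (by linarith)
          linarith

end Pool.Agent.Helper67.SC
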