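import Pool.Agent.Helper67.SC.G2

/-! Module A1a: additive weights and near equality in the Cauchy-Schwarz inequality. -/

open MeasureTheory Filter Topology

noncomputable section

namespace Pool.Agent.Helper67.SC

/-- a point lies in at most nine cells `w ++ v` of one level -/
theorem a1a_count (w : List Dig) (j : ℕ) (x : K) :
    (∑ v ∈ words j, (cell (w ++ v)).indicator (fun _ => (1 : ℝ)) x) ≤
      9 * (cell w).indicator (fun _ => (1 : ℝ)) x := by
  classical
  by_cases hx : x ∈ cell w
  · rw [Set.indicator_of_mem hx, mul_one]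
    have h1 : (∑ v ∈ words j, (cell (w ++ v)).indicator (fun _ => (1 : ℝ)) x) =
        (((words j).filter (fun v => x ∈ cell (w ++ v))).card : ℝ) := by
      rw [Finset.card_filter, Nat.cast_sum]
      refine Finset.sum_congr rfl fun v _ => ?_
      by_cases h : x ∈ cell (w ++ v)
      · simp [h]
      · simp [h]
    rw [h1]
    rcases ((words j).filter (fun v => x ∈ cell (w ++ v))).eq_empty_or_nonempty with h0 | ⟨v₀, hv₀⟩
    · rw [h0]; simp
    · rw [Finset.mem_filter, mem_words] at hv₀
      have hcard : ((words j).filter (fun v => x ∈ cell (w ++ v))).card ≤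
          (Finset.Icc ((pos (w ++ v₀)).1 - 1) ((pos (w ++ v₀)).1 + 1) ×ˢ
            Finset.Icc ((pos (w ++ v₀)).2 - 1) ((pos (w ++ v₀)).2 + 1)).card := by
        refine Finset.card_le_card_of_injOn (fun v => pos (w ++ v)) ?_ ?_
        · intro v hv
          rw [Finset.mem_coe, Finset.mem_filter, mem_words] at hv
          have hn := near_of_mem (u := w ++ v) (v := w ++ v₀) (x := x)
            (by simp [hv.1, hv₀.1]) hv.2 hv₀.2
          rw [near, abs_le, abs_le] at hn
          simp only [Finset.coe_product, Finset.coe_Icc, Set.mem_prod, Set.mem_Icc]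
          omega
        · intro v hv v' hv' h
          rw [Finset.mem_coe, Finset.mem_filter, mem_words] at hv hv'
          have := pos_inj (u := w ++ v) (v := w ++ v') (by simp [hv.1, hv'.1]) h
          exact List.append_cancel_left this
      rw [Finset.card_product, Int.card_Icc, Int.card_Icc] at hcard
      have e1 : ((pos (w ++ v₀)).1 + 1 + 1 - ((pos (w ++ v₀)).1 - 1)).toNat = 3 := by
        rw [show (pos (w ++ v₀)).1 + 1 + 1 - ((pos (w ++ v₀)).1 - 1) = 3 by ring]; rfl
      have e2 : ((pos (w ++ v₀)).2 + 1 + 1 - ((pos (w ++ v₀)).2 - 1)).toNat = 3 := by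
        rw [show (pos (w ++ v₀)).2 + 1 + 1 - ((pos (w ++ v₀)).2 - 1) = 3 by ring]; rfl
      rw [e1, e2] at hcard
      exact_mod_cast hcard
  · rw [Set.indicator_of_notMem hx, mul_zero]
    refine (Finset.sum_eq_zero fun v _ => ?_).le
    exact Set.indicator_of_notMem (fun h => hx (cell_append_subset w v h)) _

/-- An additive version of the measure: `b w = ⨆ j, ∑ v ∈ words j, μ (cell (w ++ v))`, additive over
children, `μ (cell w) ≤ b w ≤ 4 μ (cell w)` (a point lies in at most four cells of one level). -/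
theorem exists_additive (μ : Measure K) [IsFiniteMeasure μ] :
    ∃ b : List Dig → ℝ, (∀ w, (μ (cell w)).toReal ≤ b w) ∧ (∀ w, b w ≤ 9 * (μ (cell w)).toReal) ∧
      ∀ w, b w = ∑ d, b (w ++ [d]) := by
  set B : List Dig → ℕ → ℝ := fun w j => ∑ v ∈ words j, (μ (cell (w ++ v))).toReal with hB
  have hmeas : ∀ w, MeasurableSet (cell w) := fun w => (isClosed_cell w).measurableSet
  -- one step
  have hstep : ∀ w, (μ (cell w)).toReal ≤ ∑ d, (μ (cell (w ++ [d]))).toReal := by
    intro w
    have hsub : cell w ⊆ ⋃ d : Dig, cell (w ++ [d]) := by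
      intro x hx
      obtain ⟨v, hv, hxv⟩ := exists_cell_append w 1 hx
      obtain ⟨d, rfl⟩ := List.length_eq_one_iff.1 hv
      exact Set.mem_iUnion.2 ⟨d, hxv⟩
    have h1 : μ (cell w) ≤ ∑ d, μ (cell (w ++ [d])) :=
      (measure_mono hsub).trans (measure_iUnion_fintype_le μ _)
    calc (μ (cell w)).toReal ≤ (∑ d, μ (cell (w ++ [d]))).toReal :=
          ENNReal.toReal_mono (ENNReal.sum_lt_top.2 fun d _ => measure_lt_top μ _).ne h1
      _ = ∑ d, (μ (cell (w ++ [d]))).toReal :=
          ENNReal.toReal_sum fun d _ => (measure_lt_top μ _).ne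
  have hmono : ∀ w, Monotone (B w) := by
    intro w
    refine monotone_nat_of_le_succ fun j => ?_
    simp only [hB]
    rw [sum_words_snoc]
    refine Finset.sum_le_sum fun v _ => ?_
    refine (hstep (w ++ v)).trans (le_of_eq ?_)
    refine Finset.sum_congr rfl fun d _ => ?_
    rw [List.append_assoc]
  have hbd : ∀ w j, B w j ≤ 9 * (μ (cell w)).toReal := by
    intro w j
    have hint : ∀ w, Integrable ((cell w).indicator (fun _ => (1 : ℝ))) μ := fun w =>
      (integrable_const 1).indicator (hmeas w)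
    have h1 : ∀ w, (μ (cell w)).toReal = ∫ x, (cell w).indicator (fun _ => (1 : ℝ)) x ∂μ := by
      intro w
      rw [integral_indicator (hmeas w)]
      simp [Measure.real]
    simp only [hB]
    calc ∑ v ∈ words j, (μ (cell (w ++ v))).toReal
        = ∑ v ∈ words j, ∫ x, (cell (w ++ v)).indicator (fun _ => (1 : ℝ)) x ∂μ :=
          Finset.sum_congr rfl fun v _ => h1 _
      _ = ∫ x, ∑ v ∈ words j, (cell (w ++ v)).indicator (fun _ => (1 : ℝ)) x ∂μ :=
          (integral_finsetSum _ fun v _ => hint _).symm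
      _ ≤ ∫ x, 9 * (cell w).indicator (fun _ => (1 : ℝ)) x ∂μ :=
          integral_mono (integrable_finsetSum _ fun v _ => hint _) ((hint w).const_mul 9)
            (fun x => a1a_count w j x)
      _ = 9 * (μ (cell w)).toReal := by rw [integral_const_mul, ← h1]
  have hbdd : ∀ w, BddAbove (Set.range (B w)) := fun w => ⟨_, by
    rintro _ ⟨j, rfl⟩
    exact hbd w j⟩
  have hlim : ∀ w, Tendsto (B w) atTop (𝓝 (⨆ j, B w j)) := fun w =>
    tendsto_atTop_ciSup (hmono w) (hbdd w)
  refine ⟨fun w => ⨆ j, B w j, fun w => ?_, fun w => ciSup_le fun j => hbd w j, fun w => ?_⟩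
  · refine le_trans (le_of_eq ?_) (le_ciSup (hbdd w) 0)
    simp only [hB]
    rw [sum_words_zero, List.append_nil]
  · have h1 : Tendsto (fun j => B w (j + 1)) atTop (𝓝 (⨆ j, B w j)) :=
      (hlim w).comp (tendsto_add_atTop_nat 1)
    have h2 : Tendsto (fun j => ∑ d, B (w ++ [d]) j) atTop (𝓝 (∑ d, ⨆ j, B (w ++ [d]) j)) :=
      tendsto_finsetSum _ fun d _ => hlim (w ++ [d])
    have h3 : (fun j => B w (j + 1)) = fun j => ∑ d, B (w ++ [d]) j := by
      funext j
      simp only [hB]
      rw [sum_words_cons]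
      refine Finset.sum_congr rfl fun d _ => Finset.sum_congr rfl fun v _ => ?_
      rw [List.append_assoc, List.singleton_append]
    rw [h3] at h1
    exact tendsto_nhds_unique h1 h2

theorem a1a_add (a : List Dig → ℝ) (haa : ∀ w, a w = ∑ d, a (w ++ [d])) (w : List Dig) (k : ℕ) :
    ∑ v ∈ words k, a (w ++ v) = a w := by
  induction k with
  | zero => rw [sum_words_zero, List.append_nil]
  | succ k ih =>
    rw [sum_words_snoc, ← ih]
    refine Finset.sum_congr rfl fun v _ => ?_
    rw [haa (w ++ v)]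
    refine Finset.sum_congr rfl fun d _ => ?_
    rw [List.append_assoc]

theorem a1a_cs (a b : List Dig → ℝ) (ha : ∀ w, 0 ≤ a w) (hb : ∀ w, 0 ≤ b w)
    (haa : ∀ w, a w = ∑ d, a (w ++ [d])) (hba : ∀ w, b w = ∑ d, b (w ++ [d])) (w : List Dig) :
    ∑ d, Real.sqrt (a (w ++ [d]) * b (w ++ [d])) ≤ Real.sqrt (a w * b w) := by
  rw [haa w, hba w]
  have h := Real.sum_sqrt_mul_sqrt_le (Finset.univ : Finset Dig)
    (f := fun d => a (w ++ [d])) (g := fun d => b (w ++ [d])) (fun d => ha _) (fun d => hb _)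
  rw [Real.sqrt_mul (Finset.sum_nonneg fun d _ => ha _)]
  refine le_trans (le_of_eq ?_) h
  refine Finset.sum_congr rfl fun d _ => ?_
  rw [Real.sqrt_mul (ha _)]

/-- The combinatorial part: `a, b` non-negative additive functions on words with
`∑_{w ∈ words n} sqrt (a w * b w) ≥ c₀ > 0` for all `n`. Then for all `m`, `η > 0` there is a word `w` with
`a w > 0`, `b w > 0`, and `|sqrt (a (w++v) / a w) - sqrt (b (w++v) / b w)| ≤ η` for all `|v| ≤ m`.
(`H n = ∑ sqrt (a b)` is non-increasing by Cauchy-Schwarz, bounded below; take `n` with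
`H n - H (n+m) ≤ (η²/2) c₀`, then a word `w` of length `n` with
`sqrt (a w b w) - ∑_{v ∈ words m} sqrt (a (w++v) b (w++v)) ≤ (η²/2) sqrt (a w b w)`, `a w b w > 0`; the
same holds for all smaller `m`; `∑ (sqrt p - sqrt q)² = 2 - 2 ∑ sqrt (p q)` for probability
vectors `p, q`.) -/
theorem exists_near_equality (a b : List Dig → ℝ) (ha : ∀ w, 0 ≤ a w) (hb : ∀ w, 0 ≤ b w)
    (haa : ∀ w, a w = ∑ d, a (w ++ [d])) (hba : ∀ w, b w = ∑ d, b (w ++ [d])) {c₀ : ℝ}
    (hc₀ : 0 < c₀) (h : ∀ n, c₀ ≤ ∑ w ∈ words n, Real.sqrt (a w * b w)) (m : ℕ) {η : ℝ}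
    (hη : 0 < η) : ∃ w : List Dig, 0 < a w ∧ 0 < b w ∧ ∀ v : List Dig, v.length ≤ m →
      |Real.sqrt (a (w ++ v) / a w) - Real.sqrt (b (w ++ v) / b w)| ≤ η := by
  set s : List Dig → ℝ := fun w => Real.sqrt (a w * b w) with hs
  set H : ℕ → ℝ := fun n => ∑ w ∈ words n, s w with hH
  set hk : List Dig → ℕ → ℝ := fun w k => ∑ v ∈ words k, s (w ++ v) with hhk
  have hs0 : ∀ w, 0 ≤ s w := fun w => Real.sqrt_nonneg _
  have hanti : ∀ w, Antitone (hk w) := by
    intro w
    refine antitone_nat_of_succ_le fun k => ?_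
    simp only [hhk]
    rw [sum_words_snoc]
    refine Finset.sum_le_sum fun v _ => ?_
    refine le_trans (le_of_eq ?_) (a1a_cs a b ha hb haa hba (w ++ v))
    refine Finset.sum_congr rfl fun d _ => ?_
    simp only [hs, List.append_assoc]
  have hHanti : Antitone H := by
    have : H = hk [] := by
      funext n; simp only [hH, hhk, List.nil_append]
    rw [this]; exact hanti []
  have hHbdd : BddBelow (Set.range H) := ⟨c₀, by rintro _ ⟨n, rfl⟩; exact h n⟩
  have hlim := tendsto_atTop_ciInf hHanti hHbdd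
  have hlim2 : Tendsto (fun n => H n - H (n + m)) atTop (𝓝 0) := by
    have := hlim.sub (hlim.comp (tendsto_add_atTop_nat m))
    rwa [sub_self] at this
  have hε : 0 < η ^ 2 / 2 * c₀ := by positivity
  obtain ⟨n, hn⟩ := ((tendsto_order.1 hlim2).2 _ hε).exists
  have hsum : H n - H (n + m) = ∑ w ∈ words n, (s w - hk w m) := by
    simp only [hH, hhk]
    rw [sum_words_append, Finset.sum_sub_distrib]
  -- find the word
  obtain ⟨w, hw0, hw⟩ : ∃ w, 0 < s w ∧ s w - hk w m ≤ η ^ 2 / 2 * s w := by
    by_contra hcon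
    push Not at hcon
    have h1 : ∀ w ∈ words n, η ^ 2 / 2 * s w ≤ s w - hk w m := by
      intro w _
      rcases (hs0 w).eq_or_lt with h0 | h0
      · have h2 : hk w m ≤ s w := by
          have := hanti w (Nat.zero_le m)
          simp only [hhk] at this
          rw [sum_words_zero, List.append_nil] at this
          exact this
        rw [← h0] at h2 ⊢
        linarith
      · exact (hcon w h0).le
    have h2 := Finset.sum_le_sum h1
    rw [← Finset.mul_sum, ← hsum] at h2
    have h3 : c₀ ≤ ∑ w ∈ words n, s w := h n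
    have h4 : η ^ 2 / 2 * c₀ ≤ η ^ 2 / 2 * ∑ w ∈ words n, s w :=
      mul_le_mul_of_nonneg_left h3 (by positivity)
    linarith
  have hab : 0 < a w * b w := Real.sqrt_pos.1 hw0
  have haw : 0 < a w := by
    rcases (ha w).eq_or_lt with h0 | h0
    · rw [← h0, zero_mul] at hab; exact absurd hab (lt_irrefl _)
    · exact h0
  have hbw : 0 < b w := by
    rcases (hb w).eq_or_lt with h0 | h0
    · rw [← h0, mul_zero] at hab; exact absurd hab (lt_irrefl _)
    · exact h0
  refine ⟨w, haw, hbw, fun v hv => ?_⟩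
  set k := v.length with hk'
  have hwk : s w - hk w k ≤ η ^ 2 / 2 * s w := by
    have := hanti w hv
    linarith
  set p : List Dig → ℝ := fun u => Real.sqrt (a (w ++ u) / a w) with hp
  set q : List Dig → ℝ := fun u => Real.sqrt (b (w ++ u) / b w) with hq
  have hpp : ∑ u ∈ words k, p u ^ 2 = 1 := by
    have : ∀ u, p u ^ 2 = a (w ++ u) / a w := fun u =>
      Real.sq_sqrt (div_nonneg (ha _) (ha _))
    simp only [this]
    rw [← Finset.sum_div, a1a_add a haa, div_self haw.ne']
  have hqq : ∑ u ∈ words k, q u ^ 2 = 1 := by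
    have : ∀ u, q u ^ 2 = b (w ++ u) / b w := fun u =>
      Real.sq_sqrt (div_nonneg (hb _) (hb _))
    simp only [this]
    rw [← Finset.sum_div, a1a_add b hba, div_self hbw.ne']
  have hpq : ∑ u ∈ words k, p u * q u = hk w k / s w := by
    simp only [hhk]
    rw [Finset.sum_div]
    refine Finset.sum_congr rfl fun u _ => ?_
    simp only [hp, hq, hs]
    rw [← Real.sqrt_mul (div_nonneg (ha _) (ha _)), ← Real.sqrt_div (mul_nonneg (ha _) (hb _))]
    congr 1
    rw [div_mul_div_comm]
  have hge : 1 - η ^ 2 / 2 ≤ hk w k / s w := by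
    rw [le_div_iff₀ hw0]; linarith
  have htot : ∑ u ∈ words k, (p u - q u) ^ 2 ≤ η ^ 2 := by
    have h1 : ∑ u ∈ words k, (p u - q u) ^ 2 =
        ∑ u ∈ words k, p u ^ 2 + ∑ u ∈ words k, q u ^ 2 - 2 * ∑ u ∈ words k, p u * q u := by
      rw [Finset.mul_sum, ← Finset.sum_add_distrib, ← Finset.sum_sub_distrib]
      exact Finset.sum_congr rfl fun u _ => by ring
    rw [h1, hpp, hqq, hpq]
    linarith
  have hone : (p v - q v) ^ 2 ≤ η ^ 2 :=
    (Finset.single_le_sum (f := fun u => (p u - q u) ^ 2) (fun u _ => sq_nonneg _)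
      (mem_words.2 rfl)).trans htot
  exact abs_le_of_sq_le_sq hone hη.le |> fun h => h

end Pool.Agent.Helper67.SC
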