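import Pool.Agent.Helper67.SC.R1

/-! Module F2: interpolation of vertex values, cutoffs. -/

open MeasureTheory Filter Topology

noncomputable section

namespace Pool.Agent.Helper67.SC

variable (S : CarForm)

/-- A symmetrized Urysohn function: `0` on `left`, `1` on `right`, invariant under `flipY`,
mapped to `1 - p` by `flipX`. -/
theorem F2.exists_p : ∃ p ∈ S.dom, (∀ x, 0 ≤ p x ∧ p x ≤ 1) ∧ (∀ x : K, x.1.1 = 0 → p x = 0) ∧
    (∀ x : K, x.1.1 = 1 → p x = 1) ∧ (∀ x, p (flipY x) = p x) ∧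
    (∀ x, p (flipX x) = 1 - p x) := by
  have hcl : IsClosed left := by
    have h : Continuous (fun x : K => x.1.1) := by fun_prop
    exact isClosed_eq h continuous_const
  have hcr : IsClosed right := by
    have h : Continuous (fun x : K => x.1.1) := by fun_prop
    exact isClosed_eq h continuous_const
  have hd : Disjoint left right := by
    rw [Set.disjoint_left]
    intro x h0 h1
    have e0 : x.1.1 = 0 := h0
    have e1 : x.1.1 = 1 := h1
    rw [e0] at e1
    norm_num at e1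
  obtain ⟨χ, hχ, hb, h0, h1⟩ := CarForm.exists_urysohn S hcl hcr hd
  have hconst : ContinuousMap.const K (1 : ℝ) ∈ S.dom := CarForm.const_mem S 1
  have hg : (1 / 2 : ℝ) • (χ + (ContinuousMap.const K (1 : ℝ) - χ.comp flipX)) ∈ S.dom :=
    S.dom.smul_mem _ (S.dom.add_mem hχ (S.dom.sub_mem hconst (S.flip_inv χ hχ).1))
  set g : C(K, ℝ) := (1 / 2 : ℝ) • (χ + (ContinuousMap.const K (1 : ℝ) - χ.comp flipX)) with hgdef
  have gv : ∀ x, g x = (1 / 2) * (χ x + (1 - χ (flipX x))) := fun x => rfl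
  have hf : (1 / 2 : ℝ) • (g + g.comp flipY) ∈ S.dom :=
    S.dom.smul_mem _ (S.dom.add_mem hg (CarForm.flipY_mem S hg))
  set f : C(K, ℝ) := (1 / 2 : ℝ) • (g + g.comp flipY) with hfdef
  have fv : ∀ x, f x = (1 / 2) * (g x + g (flipY x)) := fun x => rfl
  have gb : ∀ x, 0 ≤ g x ∧ g x ≤ 1 := by
    intro x
    have a1 := hb x
    have a2 := hb (flipX x)
    rw [gv]
    constructor <;> linarith [a1.1, a1.2, a2.1, a2.2]
  have g0 : ∀ x : K, x.1.1 = 0 → g x = 0 := by
    intro x hx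
    have e1 : χ x = 0 := h0 x hx
    have e2 : χ (flipX x) = 1 := by
      apply h1
      change 1 - x.1.1 = 1
      rw [hx]; norm_num
    rw [gv, e1, e2]; norm_num
  have g1 : ∀ x : K, x.1.1 = 1 → g x = 1 := by
    intro x hx
    have e1 : χ x = 1 := h1 x hx
    have e2 : χ (flipX x) = 0 := by
      apply h0
      change 1 - x.1.1 = 0
      rw [hx]; norm_num
    rw [gv, e1, e2]; norm_num
  have gf : ∀ x, g (flipX x) = 1 - g x := by
    intro x
    rw [gv, gv, flipX_flipX]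
    ring
  have hcomm : ∀ x, flipY (flipX x) = flipX (flipY x) := by
    intro x
    apply K_ext <;> rfl
  refine ⟨f, hf, ?_, ?_, ?_, ?_, ?_⟩
  · intro x
    have a1 := gb x
    have a2 := gb (flipY x)
    rw [fv]
    constructor <;> linarith [a1.1, a1.2, a2.1, a2.2]
  · intro x hx
    rw [fv, g0 x hx, g0 (flipY x) hx]
    norm_num
  · intro x hx
    rw [fv, g1 x hx, g1 (flipY x) hx]
    norm_num
  · intro x
    rw [fv, fv, flipY_flipY]
    ring
  · intro x
    rw [fv, fv, hcomm, gf, gf]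
    ring

/-- Correction term. -/
def F2.cor (p q : C(K, ℝ)) : C(K, ℝ) :=
  (1 / 4 : ℝ) • (1 - ((((1 - p) ⊓ (1 - q)) + (p ⊓ (1 - q))) + (((1 - p) ⊓ q) + (p ⊓ q))))

/-- The interpolating function with prescribed corner values. -/
def F2.intp (p q : C(K, ℝ)) (a00 a10 a01 a11 : ℝ) : C(K, ℝ) :=
  a00 • ((1 - p) ⊓ (1 - q) + F2.cor p q) + a10 • (p ⊓ (1 - q) + F2.cor p q) +
    (a01 • ((1 - p) ⊓ q + F2.cor p q) + a11 • (p ⊓ q + F2.cor p q))

theorem F2.cor_apply (p q : C(K, ℝ)) (x : K) : F2.cor p q x = (1 / 4) * (1 -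
    ((min (1 - p x) (1 - q x) + min (p x) (1 - q x)) + (min (1 - p x) (q x) + min (p x) (q x)))) :=
  rfl

theorem F2.intp_apply (p q : C(K, ℝ)) (a00 a10 a01 a11 : ℝ) (x : K) :
    F2.intp p q a00 a10 a01 a11 x = a00 * (min (1 - p x) (1 - q x) + F2.cor p q x) +
      a10 * (min (p x) (1 - q x) + F2.cor p q x) + (a01 * (min (1 - p x) (q x) + F2.cor p q x) +
      a11 * (min (p x) (q x) + F2.cor p q x)) := rfl

theorem F2.intp_same (p q : C(K, ℝ)) (a : ℝ) (x : K) : F2.intp p q a a a a x = a := by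
  rw [F2.intp_apply, F2.cor_apply]
  ring

theorem F2.intp_left {p q : C(K, ℝ)} (a00 a10 a01 a11 : ℝ) {x : K} (hp : p x = 0)
    (hq : 0 ≤ q x ∧ q x ≤ 1) :
    F2.intp p q a00 a10 a01 a11 x = a00 * (1 - q x) + a01 * q x := by
  rw [F2.intp_apply, F2.cor_apply, hp]
  have e1 : min (1 - 0) (1 - q x) = 1 - q x := min_eq_right (by linarith [hq.1])
  have e2 : min 0 (1 - q x) = 0 := min_eq_left (by linarith [hq.2])
  have e3 : min (1 - 0) (q x) = q x := min_eq_right (by linarith [hq.2])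
  have e4 : min 0 (q x) = 0 := min_eq_left (by linarith [hq.1])
  rw [e1, e2, e3, e4]
  ring

theorem F2.intp_right {p q : C(K, ℝ)} (a00 a10 a01 a11 : ℝ) {x : K} (hp : p x = 1)
    (hq : 0 ≤ q x ∧ q x ≤ 1) :
    F2.intp p q a00 a10 a01 a11 x = a10 * (1 - q x) + a11 * q x := by
  rw [F2.intp_apply, F2.cor_apply, hp]
  have e1 : min 1 (1 - q x) = 1 - q x := min_eq_right (by linarith [hq.1])
  have e2 : min (1 - 1) (1 - q x) = 0 := by
    rw [min_eq_left (by linarith [hq.2])]; norm_num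
  have e3 : min 1 (q x) = q x := min_eq_right (by linarith [hq.2])
  have e4 : min (1 - 1) (q x) = 0 := by
    rw [min_eq_left (by linarith [hq.1])]; norm_num
  rw [e1, e2, e3, e4]
  ring

theorem F2.intp_bot {p q : C(K, ℝ)} (a00 a10 a01 a11 : ℝ) {x : K} (hq : q x = 0)
    (hp : 0 ≤ p x ∧ p x ≤ 1) :
    F2.intp p q a00 a10 a01 a11 x = a00 * (1 - p x) + a10 * p x := by
  rw [F2.intp_apply, F2.cor_apply, hq]
  have e1 : min (1 - p x) (1 - 0) = 1 - p x := min_eq_left (by linarith [hp.1])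
  have e2 : min (1 - p x) 0 = 0 := min_eq_right (by linarith [hp.2])
  have e3 : min (p x) (1 - 0) = p x := min_eq_left (by linarith [hp.2])
  have e4 : min (p x) 0 = 0 := min_eq_right (by linarith [hp.1])
  rw [e1, e2, e3, e4]
  ring

theorem F2.intp_top {p q : C(K, ℝ)} (a00 a10 a01 a11 : ℝ) {x : K} (hq : q x = 1)
    (hp : 0 ≤ p x ∧ p x ≤ 1) :
    F2.intp p q a00 a10 a01 a11 x = a01 * (1 - p x) + a11 * p x := by
  rw [F2.intp_apply, F2.cor_apply, hq]
  have e1 : min (1 - p x) 1 = 1 - p x := min_eq_left (by linarith [hp.1])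
  have e2 : min (1 - p x) (1 - 1) = 0 := by
    rw [min_eq_right (by linarith [hp.2])]; norm_num
  have e3 : min (p x) 1 = p x := min_eq_left (by linarith [hp.2])
  have e4 : min (p x) (1 - 1) = 0 := by
    rw [min_eq_right (by linarith [hp.1])]; norm_num
  rw [e1, e2, e3, e4]
  ring

/-- Two vertices with the same position agree. -/
theorem F2.vertex_eq {u v : List Dig} (h : u.length = v.length) {c c' : K}
    (h1 : ((pos u).1 : ℝ) + c.1.1 = (pos v).1 + c'.1.1)
    (h2 : ((pos u).2 : ℝ) + c.1.2 = (pos v).2 + c'.1.2) : Fw u c = Fw v c' := by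
  apply K_ext
  · rw [Fw_apply1, Fw_apply1, h1, h]
  · rw [Fw_apply2, Fw_apply2, h2, h]

theorem F2.c00_1 : c00.1.1 = 0 := rfl
theorem F2.c00_2 : c00.1.2 = 0 := rfl
theorem F2.c10_1 : c10.1.1 = 1 := rfl
theorem F2.c10_2 : c10.1.2 = 0 := rfl
theorem F2.c01_1 : c01.1.1 = 0 := rfl
theorem F2.c01_2 : c01.1.2 = 1 := rfl
theorem F2.c11_1 : c11.1.1 = 1 := rfl
theorem F2.c11_2 : c11.1.2 = 1 := rfl

theorem F2.mem_corners {c : K} : c ∈ corners ↔ c = c00 ∨ c = c10 ∨ c = c01 ∨ c = c11 := by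
  unfold corners
  simp only [Finset.mem_insert, Finset.mem_singleton]

/-- The interpolation on the cell of `w`. -/
def F2.loc (p q : C(K, ℝ)) (α : K → ℝ) (w : List Dig) : C(K, ℝ) :=
  F2.intp p q (α (Fw w c00)) (α (Fw w c10)) (α (Fw w c01)) (α (Fw w c11))

theorem F2.intp_mem {p q : C(K, ℝ)} (hp : p ∈ S.dom) (hq : q ∈ S.dom) (a00 a10 a01 a11 : ℝ) :
    F2.intp p q a00 a10 a01 a11 ∈ S.dom := by
  have h1 : (1 : C(K, ℝ)) - p ∈ S.dom := S.dom.sub_mem S.one_mem hp
  have h2 : (1 : C(K, ℝ)) - q ∈ S.dom := S.dom.sub_mem S.one_mem hq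
  have hc : F2.cor p q ∈ S.dom := by
    refine S.dom.smul_mem _ (S.dom.sub_mem S.one_mem (S.dom.add_mem (S.dom.add_mem ?_ ?_)
      (S.dom.add_mem ?_ ?_)))
    · exact CarForm.inf_mem S h1 h2
    · exact CarForm.inf_mem S hp h2
    · exact CarForm.inf_mem S h1 hq
    · exact CarForm.inf_mem S hp hq
  refine S.dom.add_mem (S.dom.add_mem ?_ ?_) (S.dom.add_mem ?_ ?_)
  · exact S.dom.smul_mem _ (S.dom.add_mem (CarForm.inf_mem S h1 h2) hc)
  · exact S.dom.smul_mem _ (S.dom.add_mem (CarForm.inf_mem S hp h2) hc)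
  · exact S.dom.smul_mem _ (S.dom.add_mem (CarForm.inf_mem S h1 hq) hc)
  · exact S.dom.smul_mem _ (S.dom.add_mem (CarForm.inf_mem S hp hq) hc)

/-- Compatibility of the local interpolations. -/
theorem F2.loc_compat {p : C(K, ℝ)} (hb : ∀ x, 0 ≤ p x ∧ p x ≤ 1)
    (h0 : ∀ x : K, x.1.1 = 0 → p x = 0) (h1 : ∀ x : K, x.1.1 = 1 → p x = 1)
    (hY : ∀ x, p (flipY x) = p x) (α : K → ℝ) {u v : List Dig} (huv : u.length = v.length)
    {x y : K} (hxy : Fw u x = Fw v y) :
    F2.loc p (p.comp swapXY) α u x = F2.loc p (p.comp swapXY) α v y := by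
  have hq : ∀ x : K, (p.comp swapXY) x = p (swapXY x) := fun x => rfl
  have qb : ∀ x : K, 0 ≤ (p.comp swapXY) x ∧ (p.comp swapXY) x ≤ 1 := fun x => hb _
  have q0 : ∀ x : K, x.1.2 = 0 → (p.comp swapXY) x = 0 := fun x hx => h0 (swapXY x) hx
  have q1 : ∀ x : K, x.1.2 = 1 → (p.comp swapXY) x = 1 := fun x hx => h1 (swapXY x) hx
  have e1 : ((pos u).1 : ℝ) + x.1.1 = (pos v).1 + y.1.1 := by
    have := congrArg (fun z : K => z.1.1) hxy
    simp only [Fw_apply1, huv] at this
    have h3 : (3 : ℝ) ^ v.length ≠ 0 := by positivity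
    field_simp at this
    exact this
  have e2 : ((pos u).2 : ℝ) + x.1.2 = (pos v).2 + y.1.2 := by
    have := congrArg (fun z : K => z.1.2) hxy
    simp only [Fw_apply2, huv] at this
    have h3 : (3 : ℝ) ^ v.length ≠ 0 := by positivity
    field_simp at this
    exact this
  have hx := K_bounds x
  have hy := K_bounds y
  -- equality of the transverse weights
  have qeq : x.1.2 = y.1.2 → ((x.1.1 = 0 ∧ y.1.1 = 1) ∨ (x.1.1 = 1 ∧ y.1.1 = 0)) →
      (p.comp swapXY) x = (p.comp swapXY) y := by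
    intro h h'
    have hs : swapXY y = flipY (swapXY x) := by
      apply K_ext
      · change y.1.2 = x.1.2
        exact h.symm
      · change y.1.1 = 1 - x.1.1
        rcases h' with ⟨a, b⟩ | ⟨a, b⟩
        · rw [a, b]; norm_num
        · rw [a, b]; norm_num
    rw [hq, hq, hs, hY]
  have peq : x.1.1 = y.1.1 → ((x.1.2 = 0 ∧ y.1.2 = 1) ∨ (x.1.2 = 1 ∧ y.1.2 = 0)) →
      p x = p y := by
    intro h h'
    have hs : y = flipY x := by
      apply K_ext
      · change y.1.1 = x.1.1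
        exact h.symm
      · change y.1.2 = 1 - x.1.2
        rcases h' with ⟨a, b⟩ | ⟨a, b⟩
        · rw [a, b]; norm_num
        · rw [a, b]; norm_num
    rw [hs, hY]
  rcases offset_cases e1 hx.1 hx.2.1 hy.1 hy.2.1 with f1 | ⟨f1, f1'⟩ | ⟨f1, f1'⟩
  · rcases offset_cases e2 hx.2.2.1 hx.2.2.2 hy.2.2.1 hy.2.2.2 with f2 | ⟨f2, f2'⟩ | ⟨f2, f2'⟩
    · have : u = v := pos_inj huv (Prod.ext f1 f2)
      subst this
      rw [Fw_injective u hxy]
    · -- `u` above `v`
      have g1 : x.1.1 = y.1.1 := by rw [f1] at e1; linarith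
      have g2 : x.1.2 = 0 := by
        rw [f2, f2'] at e2
        push_cast at e2
        linarith
      have v1 : Fw u c00 = Fw v c01 := by
        apply F2.vertex_eq huv
        · rw [f1, F2.c00_1, F2.c01_1]
        · rw [f2, F2.c00_2, F2.c01_2]; push_cast; ring
      have v2 : Fw u c10 = Fw v c11 := by
        apply F2.vertex_eq huv
        · rw [f1, F2.c10_1, F2.c11_1]
        · rw [f2, F2.c10_2, F2.c11_2]; push_cast; ring
      unfold F2.loc
      rw [F2.intp_bot _ _ _ _ (q0 x g2) (hb x), F2.intp_top _ _ _ _ (q1 y f2') (hb y),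
        peq g1 (Or.inl ⟨g2, f2'⟩), v1, v2]
    · have g1 : x.1.1 = y.1.1 := by rw [f1] at e1; linarith
      have g2 : x.1.2 = 1 := by
        rw [f2, f2'] at e2
        push_cast at e2
        linarith
      have v1 : Fw u c01 = Fw v c00 := by
        apply F2.vertex_eq huv
        · rw [f1, F2.c01_1, F2.c00_1]
        · rw [f2, F2.c01_2, F2.c00_2]; push_cast; ring
      have v2 : Fw u c11 = Fw v c10 := by
        apply F2.vertex_eq huv
        · rw [f1, F2.c11_1, F2.c10_1]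
        · rw [f2, F2.c11_2, F2.c10_2]; push_cast; ring
      unfold F2.loc
      rw [F2.intp_top _ _ _ _ (q1 x g2) (hb x), F2.intp_bot _ _ _ _ (q0 y f2') (hb y),
        peq g1 (Or.inr ⟨g2, f2'⟩), v1, v2]
  · -- `u` right of `v`
    have g1 : x.1.1 = 0 := by
      rw [f1, f1'] at e1
      push_cast at e1
      linarith
    rcases offset_cases e2 hx.2.2.1 hx.2.2.2 hy.2.2.1 hy.2.2.2 with f2 | ⟨f2, f2'⟩ | ⟨f2, f2'⟩
    · have g2 : x.1.2 = y.1.2 := by rw [f2] at e2; linarith
      have v1 : Fw u c00 = Fw v c10 := by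
        apply F2.vertex_eq huv
        · rw [f1, F2.c00_1, F2.c10_1]; push_cast; ring
        · rw [f2, F2.c00_2, F2.c10_2]
      have v2 : Fw u c01 = Fw v c11 := by
        apply F2.vertex_eq huv
        · rw [f1, F2.c01_1, F2.c11_1]; push_cast; ring
        · rw [f2, F2.c01_2, F2.c11_2]
      unfold F2.loc
      rw [F2.intp_left _ _ _ _ (h0 x g1) (qb x), F2.intp_right _ _ _ _ (h1 y f1') (qb y),
        qeq g2 (Or.inl ⟨g1, f1'⟩), v1, v2]
    · have g2 : x.1.2 = 0 := by
        rw [f2, f2'] at e2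
        push_cast at e2
        linarith
      have v1 : Fw u c00 = Fw v c11 := by
        apply F2.vertex_eq huv
        · rw [f1, F2.c00_1, F2.c11_1]; push_cast; ring
        · rw [f2, F2.c00_2, F2.c11_2]; push_cast; ring
      unfold F2.loc
      rw [F2.intp_left _ _ _ _ (h0 x g1) (qb x), F2.intp_right _ _ _ _ (h1 y f1') (qb y),
        q0 x g2, q1 y f2', v1]
      ring
    · have g2 : x.1.2 = 1 := by
        rw [f2, f2'] at e2
        push_cast at e2
        linarith
      have v1 : Fw u c01 = Fw v c10 := by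
        apply F2.vertex_eq huv
        · rw [f1, F2.c01_1, F2.c10_1]; push_cast; ring
        · rw [f2, F2.c01_2, F2.c10_2]; push_cast; ring
      unfold F2.loc
      rw [F2.intp_left _ _ _ _ (h0 x g1) (qb x), F2.intp_right _ _ _ _ (h1 y f1') (qb y),
        q1 x g2, q0 y f2', v1]
      ring
  · -- `u` left of `v`
    have g1 : x.1.1 = 1 := by
      rw [f1, f1'] at e1
      push_cast at e1
      linarith
    rcases offset_cases e2 hx.2.2.1 hx.2.2.2 hy.2.2.1 hy.2.2.2 with f2 | ⟨f2, f2'⟩ | ⟨f2, f2'⟩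
    · have g2 : x.1.2 = y.1.2 := by rw [f2] at e2; linarith
      have v1 : Fw u c10 = Fw v c00 := by
        apply F2.vertex_eq huv
        · rw [f1, F2.c10_1, F2.c00_1]; push_cast; ring
        · rw [f2, F2.c10_2, F2.c00_2]
      have v2 : Fw u c11 = Fw v c01 := by
        apply F2.vertex_eq huv
        · rw [f1, F2.c11_1, F2.c01_1]; push_cast; ring
        · rw [f2, F2.c11_2, F2.c01_2]
      unfold F2.loc
      rw [F2.intp_right _ _ _ _ (h1 x g1) (qb x), F2.intp_left _ _ _ _ (h0 y f1') (qb y),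
        qeq g2 (Or.inr ⟨g1, f1'⟩), v1, v2]
    · have g2 : x.1.2 = 0 := by
        rw [f2, f2'] at e2
        push_cast at e2
        linarith
      have v1 : Fw u c10 = Fw v c01 := by
        apply F2.vertex_eq huv
        · rw [f1, F2.c10_1, F2.c01_1]; push_cast; ring
        · rw [f2, F2.c10_2, F2.c01_2]; push_cast; ring
      unfold F2.loc
      rw [F2.intp_right _ _ _ _ (h1 x g1) (qb x), F2.intp_left _ _ _ _ (h0 y f1') (qb y),
        q0 x g2, q1 y f2', v1]
      ring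
    · have g2 : x.1.2 = 1 := by
        rw [f2, f2'] at e2
        push_cast at e2
        linarith
      have v1 : Fw u c11 = Fw v c00 := by
        apply F2.vertex_eq huv
        · rw [f1, F2.c11_1, F2.c00_1]; push_cast; ring
        · rw [f2, F2.c11_2, F2.c00_2]; push_cast; ring
      unfold F2.loc
      rw [F2.intp_right _ _ _ _ (h1 x g1) (qb x), F2.intp_left _ _ _ _ (h0 y f1') (qb y),
        q1 x g2, q0 y f2', v1]
      ring

theorem F2.sqrt_E_smul (c : ℝ) {f : C(K, ℝ)} (hf : f ∈ S.dom) :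
    Real.sqrt (S.E (c • f) (c • f)) = |c| * Real.sqrt (S.E f f) := by
  rw [CarForm.E_smul_self S c hf, Real.sqrt_mul (sq_nonneg c), Real.sqrt_sq_eq_abs]

/-- Interpolation of vertex values. Let `f''` be in the domain with `f'' = 0` on `left`, `1` on `right`,
`f'' ∘ flipY = f''`, `f'' ∘ flipX = 1 - f''` (symmetrize a Urysohn function). Put
`b = (1 - f'') ⊓ (1 - f'' ∘ swapXY)` and `b_c` its images under the symmetries (`c` a corner, `b_c c = 1`);
on the boundary `∑ b_c = 1`, `b_c = 0` on the sides not containing `c`; put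
`b'_c = b_c + (1 - ∑ b_c)/4`. On the cell of `w` take `∑_c α (Fw w c) b'_c`; neighbouring cells
agree on common sides because the trace on a side is the same function `f''` of the position.
`E (∑ α_c b'_c) = E (∑ (α_c - α_0) b'_c) ≤ C osc²`. -/
theorem exists_interp : ∃ C : ℝ, 0 < C ∧ ∀ (n : ℕ) (α : K → ℝ), ∃ f ∈ S.dom,
    (∀ w : List Dig, w.length = n → ∀ c ∈ corners, f (Fw w c) = α (Fw w c)) ∧
    (∀ w : List Dig, w.length = n → ∀ a, (∀ c ∈ corners, α (Fw w c) = a) →
      ∀ x ∈ cell w, f x = a) ∧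
    (∀ w : List Dig, w.length = n → ∀ M : ℝ,
      (∀ c ∈ corners, ∀ c' ∈ corners, |α (Fw w c) - α (Fw w c')| ≤ M) →
      S.en f w ≤ C * M ^ 2) := by
  obtain ⟨p, hp, hb, h0, h1, hY, hX⟩ := F2.exists_p S
  set q : C(K, ℝ) := p.comp swapXY with hqdef
  have hq : q ∈ S.dom := (S.swap_inv p hp).1
  have qb : ∀ x : K, 0 ≤ q x ∧ q x ≤ 1 := fun x => hb _
  have q0 : ∀ x : K, x.1.2 = 0 → q x = 0 := fun x hx => h0 (swapXY x) hx
  have q1 : ∀ x : K, x.1.2 = 1 → q x = 1 := fun x hx => h1 (swapXY x) hx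
  have hp1 : (1 : C(K, ℝ)) - p ∈ S.dom := S.dom.sub_mem S.one_mem hp
  have hq1 : (1 : C(K, ℝ)) - q ∈ S.dom := S.dom.sub_mem S.one_mem hq
  have hc : F2.cor p q ∈ S.dom := by
    refine S.dom.smul_mem _ (S.dom.sub_mem S.one_mem (S.dom.add_mem (S.dom.add_mem ?_ ?_)
      (S.dom.add_mem ?_ ?_)))
    · exact CarForm.inf_mem S hp1 hq1
    · exact CarForm.inf_mem S hp hq1
    · exact CarForm.inf_mem S hp1 hq
    · exact CarForm.inf_mem S hp hq
  set B10 : C(K, ℝ) := p ⊓ (1 - q) + F2.cor p q with hB10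
  set B01 : C(K, ℝ) := (1 - p) ⊓ q + F2.cor p q with hB01
  set B11 : C(K, ℝ) := p ⊓ q + F2.cor p q with hB11
  have m10 : B10 ∈ S.dom := S.dom.add_mem (CarForm.inf_mem S hp hq1) hc
  have m01 : B01 ∈ S.dom := S.dom.add_mem (CarForm.inf_mem S hp1 hq) hc
  have m11 : B11 ∈ S.dom := S.dom.add_mem (CarForm.inf_mem S hp hq) hc
  set s10 := Real.sqrt (S.E B10 B10) with hs10
  set s01 := Real.sqrt (S.E B01 B01) with hs01
  set s11 := Real.sqrt (S.E B11 B11) with hs11
  have n10 : 0 ≤ s10 := Real.sqrt_nonneg _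
  have n01 : 0 ≤ s01 := Real.sqrt_nonneg _
  have n11 : 0 ≤ s11 := Real.sqrt_nonneg _
  refine ⟨(s10 + s01 + s11) ^ 2 + 1, by positivity, fun n α => ?_⟩
  obtain ⟨f, hf⟩ := glue n (fun w => F2.loc p q α w) (by
    intro u v hu hv x y hxy
    exact F2.loc_compat hb h0 h1 hY α (hu.trans hv.symm) hxy)
  have hfd : f ∈ S.dom := by
    apply CarForm.mem_of_comp_Fw S n
    intro w hw
    rw [hf w hw]
    exact F2.intp_mem S hp hq _ _ _ _
  have fv : ∀ w : List Dig, w.length = n → ∀ x, f (Fw w x) = F2.loc p q α w x := by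
    intro w hw x
    rw [← hf w hw]
    rfl
  refine ⟨f, hfd, ?_, ?_, ?_⟩
  · intro w hw c hc
    rw [fv w hw]
    rw [F2.mem_corners] at hc
    unfold F2.loc
    rcases hc with rfl | rfl | rfl | rfl
    · rw [F2.intp_left _ _ _ _ (h0 _ F2.c00_1) (qb _), q0 _ F2.c00_2]; ring
    · rw [F2.intp_right _ _ _ _ (h1 _ F2.c10_1) (qb _), q0 _ F2.c10_2]; ring
    · rw [F2.intp_left _ _ _ _ (h0 _ F2.c01_1) (qb _), q1 _ F2.c01_2]; ring
    · rw [F2.intp_right _ _ _ _ (h1 _ F2.c11_1) (qb _), q1 _ F2.c11_2]; ring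
  · intro w hw a ha x hx
    obtain ⟨y, rfl⟩ := hx
    rw [fv w hw]
    unfold F2.loc
    rw [ha c00 (F2.mem_corners.2 (Or.inl rfl)), ha c10 (F2.mem_corners.2 (Or.inr (Or.inl rfl))),
      ha c01 (F2.mem_corners.2 (Or.inr (Or.inr (Or.inl rfl)))),
      ha c11 (F2.mem_corners.2 (Or.inr (Or.inr (Or.inr rfl))))]
    exact F2.intp_same p q a y
  · intro w hw M hM
    have k00 : c00 ∈ corners := F2.mem_corners.2 (Or.inl rfl)
    have k10 : c10 ∈ corners := F2.mem_corners.2 (Or.inr (Or.inl rfl))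
    have k01 : c01 ∈ corners := F2.mem_corners.2 (Or.inr (Or.inr (Or.inl rfl)))
    have k11 : c11 ∈ corners := F2.mem_corners.2 (Or.inr (Or.inr (Or.inr rfl)))
    have hM0 : 0 ≤ M := (abs_nonneg _).trans (hM c00 k00 c00 k00)
    set A0 := α (Fw w c00) with hA0
    set g : C(K, ℝ) := (α (Fw w c10) - A0) • B10 + ((α (Fw w c01) - A0) • B01 +
      (α (Fw w c11) - A0) • B11) with hg
    have hgd : g ∈ S.dom := S.dom.add_mem (S.dom.smul_mem _ m10)
      (S.dom.add_mem (S.dom.smul_mem _ m01) (S.dom.smul_mem _ m11))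
    have e : f.comp (Fw w) = g - ContinuousMap.const K (-A0) := by
      rw [hf w hw]
      refine ContinuousMap.ext fun x => ?_
      change F2.intp p q (α (Fw w c00)) (α (Fw w c10)) (α (Fw w c01)) (α (Fw w c11)) x =
        ((α (Fw w c10) - A0) * (min (p x) (1 - q x) + F2.cor p q x) +
        ((α (Fw w c01) - A0) * (min (1 - p x) (q x) + F2.cor p q x) +
        (α (Fw w c11) - A0) * (min (p x) (q x) + F2.cor p q x))) - (-A0)
      rw [F2.intp_apply, F2.cor_apply]
      ring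
    have hE : S.en f w = S.E g g := by
      unfold CarForm.en
      rw [e]
      exact (CarForm.E_sub_const S (-A0) hgd).2
    have b1 : Real.sqrt (S.E g g) ≤ M * (s10 + s01 + s11) := by
      have t1 := CarForm.sqrt_E_add_le S (S.dom.smul_mem (α (Fw w c10) - A0) m10)
        (S.dom.add_mem (S.dom.smul_mem (α (Fw w c01) - A0) m01)
          (S.dom.smul_mem (α (Fw w c11) - A0) m11))
      have t2 := CarForm.sqrt_E_add_le S (S.dom.smul_mem (α (Fw w c01) - A0) m01)
          (S.dom.smul_mem (α (Fw w c11) - A0) m11)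
      rw [F2.sqrt_E_smul S _ m10] at t1
      rw [F2.sqrt_E_smul S _ m01, F2.sqrt_E_smul S _ m11] at t2
      have u1 := hM c10 k10 c00 k00
      have u2 := hM c01 k01 c00 k00
      have u3 := hM c11 k11 c00 k00
      have v1 := mul_le_mul_of_nonneg_right u1 n10
      have v2 := mul_le_mul_of_nonneg_right u2 n01
      have v3 := mul_le_mul_of_nonneg_right u3 n11
      rw [hg]
      linarith
    have hEn : 0 ≤ S.E g g := S.E_nonneg g hgd
    have b2 : S.E g g ≤ (M * (s10 + s01 + s11)) ^ 2 := by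
      have := pow_le_pow_left₀ (Real.sqrt_nonneg _) b1 2
      rwa [Real.sq_sqrt hEn] at this
    rw [hE]
    nlinarith [sq_nonneg M]

theorem F2.clamp_apply (f : C(K, ℝ)) (x : K) : clamp f x = min (max 0 (f x)) 1 := rfl

theorem F2.clamp_comp (f : C(K, ℝ)) (w : List Dig) :
    (clamp f).comp (Fw w) = clamp (f.comp (Fw w)) := rfl

theorem F2.en_clamp_le {f : C(K, ℝ)} (hf : f ∈ S.dom) (w : List Dig) :
    S.en (clamp f) w ≤ S.en f w := by
  unfold CarForm.en
  rw [F2.clamp_comp]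
  exact (S.markov _ (CarForm.comp_Fw_mem S w hf)).2

/-- Cutoff functions. Interpolate (`exists_interp`) the indicator of the vertices lying in
`inn k w` and clamp. -/
theorem exists_cutoff (k : ℕ) : ∃ C : ℝ, 0 < C ∧ ∀ w : List Dig, ∃ χ ∈ S.dom,
    (∀ x, 0 ≤ χ x ∧ χ x ≤ 1) ∧ (∀ x ∈ inn k w, χ x = 1) ∧ (∀ x ∈ out (k + 1) w, χ x = 0) ∧
    (∀ s : List Dig, s.length = w.length → S.en χ s ≤ C) ∧
    S.E χ χ ≤ C * S.ρ ^ w.length := by
  classical
  obtain ⟨C, hC, H⟩ := exists_interp S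
  refine ⟨C * ((2 * ((k + 1 : ℕ) : ℝ) + 1) ^ 2), by positivity, fun w => ?_⟩
  obtain ⟨f, hf, _, h2, h3⟩ := H w.length (fun x => if x ∈ inn k w then 1 else 0)
  have hone : (1 : ℝ) ≤ (2 * ((k + 1 : ℕ) : ℝ) + 1) ^ 2 := by
    have : (0 : ℝ) ≤ ((k + 1 : ℕ) : ℝ) := by positivity
    nlinarith
  have hen : ∀ s : List Dig, s.length = w.length → S.en (clamp f) s ≤ C := by
    intro s hs
    refine (F2.en_clamp_le S hf s).trans ?_
    have := h3 s hs 1 (by
      intro c _ c' _
      by_cases a : Fw s c ∈ inn k w <;> by_cases b : Fw s c' ∈ inn k w <;> simp [a, b])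
    simpa using this
  have hzero : ∀ x ∈ out (k + 1) w, clamp f x = 0 := by
    rintro x ⟨s, hs, hn, hx⟩
    have : f x = 0 := by
      apply h2 s hs 0 _ x hx
      intro c _
      rw [if_neg]
      rintro ⟨t, ht, htn, hxt⟩
      apply hn
      have h4 : near 1 s t := near_of_mem (hs.trans ht.symm) ⟨c, rfl⟩ hxt
      have := near_trans h4 htn
      rwa [add_comm] at this
    rw [F2.clamp_apply, this]
    norm_num
  refine ⟨clamp f, (S.markov f hf).1, ?_, ?_, hzero, ?_, ?_⟩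
  · intro x
    rw [F2.clamp_apply]
    exact ⟨le_min (le_max_left _ _) zero_le_one, min_le_right _ _⟩
  · rintro x ⟨s, hs, hn, hx⟩
    have : f x = 1 := by
      apply h2 s hs 1 _ x hx
      intro c _
      rw [if_pos]
      exact ⟨s, hs, hn, ⟨c, rfl⟩⟩
    rw [F2.clamp_apply, this]
    norm_num
  · intro s hs
    refine (hen s hs).trans ?_
    nlinarith
  · have hcl := (S.markov f hf).1
    have e := E_eq_sum_near (S := S) ((k + 1 : ℕ) : ℤ) w hcl hcl (by
      intro x hx
      apply hzero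
      have : ((k + 1 : ℕ) : ℤ) = (k : ℤ) + 1 := by push_cast; ring
      rwa [this] at hx)
    rw [e]
    have hcard := card_near_le (k + 1) w
    have hsum : ∑ s ∈ (words w.length).filter (fun s =>
        |(pos s).1 - (pos w).1| ≤ ((k + 1 : ℕ) : ℤ) ∧ |(pos s).2 - (pos w).2| ≤ ((k + 1 : ℕ) : ℤ)),
        S.E ((clamp f).comp (Fw s)) ((clamp f).comp (Fw s)) ≤
        C * ((2 * ((k + 1 : ℕ) : ℝ) + 1) ^ 2) := by
      refine (Finset.sum_le_card_nsmul _ _ C ?_).trans ?_
      · intro s hs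
        exact hen s (mem_words.1 (Finset.mem_filter.1 hs).1)
      · rw [nsmul_eq_mul, mul_comm]
        apply mul_le_mul_of_nonneg_left _ hC.le
        exact_mod_cast hcard
    rw [mul_comm]
    exact mul_le_mul_of_nonneg_right hsum (by have := S.ρ_pos; positivity)

/-- Cutoff of the square `[0, (a+1)/3^n]²` for the corner analysis: equal to `1` on the cells with both
indices at most `a - 1`, to `0` on the cells with an index at least `a + 1`. -/
theorem exists_corner_cutoff : ∃ C : ℝ, 0 < C ∧ ∀ (n : ℕ) (a : ℤ), ∃ χ ∈ S.dom,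
    (∀ x, 0 ≤ χ x ∧ χ x ≤ 1) ∧
    (∀ s : List Dig, s.length = n → (pos s).1 < a → (pos s).2 < a → ∀ x ∈ cell s, χ x = 1) ∧
    (∀ s : List Dig, s.length = n → a < (pos s).1 ∨ a < (pos s).2 → ∀ x ∈ cell s, χ x = 0) ∧
    (∀ s : List Dig, s.length = n → S.en χ s ≤ C) := by
  classical
  obtain ⟨C, hC, H⟩ := exists_interp S
  refine ⟨C, hC, fun n a => ?_⟩
  set U : Set K := {x | ∃ s : List Dig, s.length = n ∧ (pos s).1 < a ∧ (pos s).2 < a ∧ x ∈ cell s}
    with hU
  obtain ⟨f, hf, _, h2, h3⟩ := H n (fun x => if x ∈ U then 1 else 0)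
  have hen : ∀ s : List Dig, s.length = n → S.en (clamp f) s ≤ C := by
    intro s hs
    refine (F2.en_clamp_le S hf s).trans ?_
    have := h3 s hs 1 (by
      intro c _ c' _
      by_cases a : Fw s c ∈ U <;> by_cases b : Fw s c' ∈ U <;> simp [a, b])
    simpa using this
  refine ⟨clamp f, (S.markov f hf).1, ?_, ?_, ?_, hen⟩
  · intro x
    rw [F2.clamp_apply]
    exact ⟨le_min (le_max_left _ _) zero_le_one, min_le_right _ _⟩
  · intro s hs p1 p2 x hx
    have : f x = 1 := by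
      apply h2 s hs 1 _ x hx
      intro c _
      rw [if_pos]
      exact ⟨s, hs, p1, p2, ⟨c, rfl⟩⟩
    rw [F2.clamp_apply, this]
    norm_num
  · intro s hs hp x hx
    have : f x = 0 := by
      apply h2 s hs 0 _ x hx
      intro c _
      rw [if_neg]
      rintro ⟨t, ht, p1, p2, hxt⟩
      have h4 : near 1 s t := near_of_mem (hs.trans ht.symm) ⟨c, rfl⟩ hxt
      obtain ⟨n1, n2⟩ := h4
      rw [abs_le] at n1 n2
      rcases hp with hp | hp
      · omega
      · omega
    rw [F2.clamp_apply, this]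
    norm_num

end Pool.Agent.Helper67.SC
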