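import Pool.Agent.Helper67.SC.G2

/-! Module P0: metrics of the conformal gauge and cells. -/

open MeasureTheory Filter Topology

noncomputable section

namespace Pool.Agent.Helper67.SC

/-- The size of a cell in the metric `θ`. -/
def dlt (θ : K → K → ℝ) (w : List Dig) : ℝ := θ (Fw w c00) (Fw w c11)

variable {θ : K → K → ℝ}

theorem Gauge.nonneg (hθ : Gauge θ) (x y : K) : 0 ≤ θ x y := by
  have h1 := hθ.triangle x y x
  rw [(hθ.zero_iff x x).2 rfl, hθ.symm y x] at h1
  linarith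

theorem p0_dist_le_edist2 (x y : K) : dist x y ≤ edist2 x y := by
  rw [dist_eq, edist2]
  refine max_le ?_ ?_
  · refine Real.abs_le_sqrt ?_
    nlinarith [sq_nonneg (x.1.2 - y.1.2)]
  · refine Real.abs_le_sqrt ?_
    nlinarith [sq_nonneg (x.1.1 - y.1.1)]

theorem p0_edist2_le (x y : K) : edist2 x y ≤ 2 * dist x y := by
  rw [edist2]
  have h1 : |x.1.1 - y.1.1| ≤ dist x y := dist_eq x y ▸ le_max_left _ _
  have h2 : |x.1.2 - y.1.2| ≤ dist x y := dist_eq x y ▸ le_max_right _ _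
  have h3 : 0 ≤ dist x y := dist_nonneg
  rw [Real.sqrt_le_left (by linarith)]
  have h4 : (x.1.1 - y.1.1) ^ 2 ≤ dist x y ^ 2 := by
    rw [← sq_abs]
    exact pow_le_pow_left₀ (abs_nonneg _) h1 2
  have h5 : (x.1.2 - y.1.2) ^ 2 ≤ dist x y ^ 2 := by
    rw [← sq_abs]
    exact pow_le_pow_left₀ (abs_nonneg _) h2 2
  nlinarith

theorem p0_homeo_mono (η : NNReal ≃ₜ NNReal) : StrictMono η := by
  rcases Continuous.strictMono_of_inj η.continuous η.injective with h | h
  · exact h
  · exfalso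
    obtain ⟨s, hs⟩ := η.surjective (η 0 + 1)
    have h1 : η s ≤ η 0 := h.antitone zero_le
    rw [hs] at h1
    exact absurd h1 (by simp)

theorem p0_homeo_zero (η : NNReal ≃ₜ NNReal) : η 0 = 0 := by
  obtain ⟨s, hs⟩ := η.surjective 0
  have h1 : η 0 ≤ η s := (p0_homeo_mono η).monotone zero_le
  rw [hs] at h1
  exact le_antisymm h1 zero_le

theorem p0_pos (hθ : Gauge θ) {x y : K} (h : x ≠ y) : 0 < θ x y :=
  lt_of_le_of_ne (hθ.nonneg x y) fun h0 => h ((hθ.zero_iff x y).1 h0.symm)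

/-- Quasisymmetry with respect to the sup metric `dist` (which is comparable to `edist2`). -/
theorem Gauge.qs1 (hθ : Gauge θ) (t : ℝ) : ∃ H : ℝ, 1 ≤ H ∧ ∀ x a b : K,
    dist x a ≤ t * dist x b → θ x a ≤ H * θ x b := by
  obtain ⟨η, hη⟩ := hθ.quasi
  refine ⟨max 1 (η (Real.toNNReal (2 * t))), le_max_left _ _, ?_⟩
  intro x a b h
  by_cases hb : x = b
  · subst hb
    rw [dist_self, mul_zero] at h
    have h1 : x = a := dist_le_zero.1 h
    subst h1
    rw [(hθ.zero_iff x x).2 rfl, mul_zero]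
  · have h1 := hη x a b hb
    have h2 : 0 < dist x b := dist_pos.2 hb
    have h3 := p0_edist2_le x a
    have h4 := p0_dist_le_edist2 x b
    have ht : 0 ≤ t := by
      by_contra hneg
      push Not at hneg
      have := mul_neg_of_neg_of_pos hneg h2
      have h5 : 0 ≤ dist x a := dist_nonneg
      linarith
    have h6 : edist2 x a / edist2 x b ≤ 2 * t := by
      rw [div_le_iff₀ (by linarith)]
      have := mul_le_mul_of_nonneg_left h4 ht
      linarith
    have h7 : η (Real.toNNReal (edist2 x a / edist2 x b)) ≤ η (Real.toNNReal (2 * t)) :=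
      (p0_homeo_mono η).monotone (Real.toNNReal_le_toNNReal h6)
    have h8 : (η (Real.toNNReal (edist2 x a / edist2 x b)) : ℝ) ≤ η (Real.toNNReal (2 * t)) := by
      exact_mod_cast h7
    have h9 : θ x a / θ x b ≤ max 1 (η (Real.toNNReal (2 * t)) : ℝ) :=
      (h1.trans h8).trans (le_max_right _ _)
    rwa [div_le_iff₀ (p0_pos hθ hb)] at h9

theorem Gauge.qs0 (hθ : Gauge θ) {ε : ℝ} (hε : 0 < ε) : ∃ t : ℝ, 0 < t ∧ ∀ x a b : K,
    dist x a ≤ t * dist x b → θ x a ≤ ε * θ x b := by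
  obtain ⟨η, hη⟩ := hθ.quasi
  obtain ⟨s, hs⟩ := η.surjective (Real.toNNReal ε)
  have hs0 : 0 < s := by
    rw [pos_iff_ne_zero]
    intro h0
    rw [h0, p0_homeo_zero] at hs
    have := Real.toNNReal_pos.2 hε
    rw [← hs] at this
    exact lt_irrefl _ this
  refine ⟨s / 2, by positivity, ?_⟩
  intro x a b h
  by_cases hb : x = b
  · subst hb
    rw [dist_self, mul_zero] at h
    have h1 : x = a := dist_le_zero.1 h
    subst h1
    rw [(hθ.zero_iff x x).2 rfl, mul_zero]
  · have h1 := hη x a b hb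
    have h2 : 0 < dist x b := dist_pos.2 hb
    have h3 := p0_edist2_le x a
    have h4 := p0_dist_le_edist2 x b
    have h6 : edist2 x a / edist2 x b ≤ s := by
      rw [div_le_iff₀ (by linarith)]
      have h5 : (0 : ℝ) ≤ s := s.2
      have := mul_le_mul_of_nonneg_left h4 h5
      linarith
    have h7 : η (Real.toNNReal (edist2 x a / edist2 x b)) ≤ η s := by
      refine (p0_homeo_mono η).monotone ?_
      rw [Real.toNNReal_le_iff_le_coe]
      exact h6
    have h8 : (η (Real.toNNReal (edist2 x a / edist2 x b)) : ℝ) ≤ ε := by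
      rw [hs] at h7
      have : ((η (Real.toNNReal (edist2 x a / edist2 x b)) : NNReal) : ℝ) ≤
          (Real.toNNReal ε : ℝ) := by exact_mod_cast h7
      rwa [Real.coe_toNNReal _ hε.le] at this
    have h9 := h1.trans h8
    rwa [div_le_iff₀ (p0_pos hθ hb)] at h9

theorem p0_c_ne : c00 ≠ c11 := by
  intro h
  have := congrArg (fun z : K => z.1.1) h
  simp [c00, c11] at this

theorem dlt_pos (hθ : Gauge θ) (w : List Dig) : 0 < dlt θ w :=
  p0_pos hθ fun h => p0_c_ne (Fw_injective w h)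

theorem p0_dist_c : dist c00 c11 = 1 := by
  rw [dist_eq]
  simp [c00, c11]

theorem p0_dist_corner (w : List Dig) : dist (Fw w c00) (Fw w c11) = 1 / 3 ^ w.length := by
  rw [dist_Fw, p0_dist_c]

/-- Far from one of two opposite corners. -/
theorem p0_far (w : List Dig) (x : K) : (1 / 3 ^ w.length ≤ 2 * dist x (Fw w c00)) ∨
    (1 / 3 ^ w.length ≤ 2 * dist x (Fw w c11)) := by
  by_contra hcon
  push Not at hcon
  have h1 := dist_triangle (Fw w c00) x (Fw w c11)
  rw [p0_dist_corner, dist_comm (Fw w c00) x] at h1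
  linarith [hcon.1, hcon.2]

theorem p0_mem (w : List Dig) (x : K) : Fw w x ∈ cell w := ⟨x, rfl⟩

/-- `θ`-diameter of a cell. -/
theorem theta_le_dlt (hθ : Gauge θ) : ∃ C : ℝ, 1 ≤ C ∧ ∀ w : List Dig, ∀ x ∈ cell w, ∀ y ∈ cell w,
    θ x y ≤ C * dlt θ w := by
  obtain ⟨H1, hH1, h1⟩ := hθ.qs1 1
  obtain ⟨H2, hH2, h2⟩ := hθ.qs1 2
  refine ⟨H2 * H1, by nlinarith, ?_⟩
  intro w x hx y hy
  have hxy := dist_cell_le hx hy
  have hc := p0_dist_corner w
  rcases p0_far w x with hf | hf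
  · have h3 : θ x y ≤ H2 * θ x (Fw w c00) := h2 x y _ (by linarith)
    have h4 : θ (Fw w c00) x ≤ H1 * θ (Fw w c00) (Fw w c11) := by
      apply h1
      rw [one_mul, hc]
      exact dist_cell_le (p0_mem w _) hx
    rw [hθ.symm] at h4
    calc θ x y ≤ H2 * θ x (Fw w c00) := h3
      _ ≤ H2 * (H1 * dlt θ w) := mul_le_mul_of_nonneg_left h4 (by linarith)
      _ = H2 * H1 * dlt θ w := by ring
  · have h3 : θ x y ≤ H2 * θ x (Fw w c11) := h2 x y _ (by linarith)
    have h4 : θ (Fw w c11) x ≤ H1 * θ (Fw w c11) (Fw w c00) := by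
      apply h1
      rw [one_mul, dist_comm _ (Fw w c00), hc]
      exact dist_cell_le (p0_mem w _) hx
    rw [hθ.symm, hθ.symm (Fw w c11) (Fw w c00)] at h4
    calc θ x y ≤ H2 * θ x (Fw w c11) := h3
      _ ≤ H2 * (H1 * dlt θ w) := mul_le_mul_of_nonneg_left h4 (by linarith)
      _ = H2 * H1 * dlt θ w := by ring

/-- The size of a cell is bounded by distances of far points. -/
theorem p0_sep (hθ : Gauge θ) (t : ℝ) : ∃ C : ℝ, 1 ≤ C ∧ ∀ (w : List Dig) (x y : K),
    dist x (Fw w c00) ≤ t * dist x y → dist x (Fw w c11) ≤ t * dist x y →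
      dlt θ w ≤ C * θ x y := by
  obtain ⟨H, hH, h⟩ := hθ.qs1 t
  refine ⟨2 * H, by linarith, ?_⟩
  intro w x y h1 h2
  have h3 := h x _ y h1
  have h4 := h x _ y h2
  have h5 := hθ.triangle (Fw w c00) x (Fw w c11)
  rw [hθ.symm (Fw w c00) x] at h5
  unfold dlt
  linarith

/-- Sizes of near cells. -/
theorem p0_near (hθ : Gauge θ) (j : ℕ) : ∃ C : ℝ, 1 ≤ C ∧ ∀ s w : List Dig,
    s.length = w.length → near j s w → dlt θ s ≤ C * dlt θ w := by
  obtain ⟨H, hH, h⟩ := hθ.qs1 (j + 1)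
  refine ⟨2 * H, by linarith, ?_⟩
  intro s w hl hn
  have hn' := near_symm hn
  have key : ∀ z : K, θ (Fw w c00) (Fw s z) ≤ H * dlt θ w := by
    intro z
    apply h
    rw [p0_dist_corner]
    have h1 := dist_le_of_near hl.symm hn' (p0_mem w c00) (p0_mem s z)
    have e : (((j : ℕ) : ℤ) : ℝ) = (j : ℝ) := by push_cast; ring
    rw [e] at h1
    calc dist (Fw w c00) (Fw s z) ≤ (j + 1) / 3 ^ w.length := h1
      _ = (j + 1) * (1 / 3 ^ w.length) := by ring
  have h5 := hθ.triangle (Fw s c00) (Fw w c00) (Fw s c11)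
  rw [hθ.symm (Fw s c00) (Fw w c00)] at h5
  have h6 := key c00
  have h7 := key c11
  unfold dlt at *
  linarith

/-- Lower bound of the sup distance from the index distance. -/
theorem p0_dist_ge {k : ℕ} {u v : List Dig} {x y : K} (h : u.length = v.length)
    (hn : ¬ near (k + 1) u v) (hx : x ∈ cell u) (hy : y ∈ cell v) :
    (k + 1 : ℝ) / 3 ^ u.length ≤ dist x y := by
  by_contra hcon
  push Not at hcon
  refine hn (near_of_dist h hx hy ?_)
  have h3 : (0 : ℝ) < 3 ^ u.length := by positivity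
  rw [lt_div_iff₀ h3] at hcon
  push_cast
  linarith

theorem p0_rp : rp.1.1 = 2 / 3 ∧ rp.1.2 = 2 / 3 := by
  constructor
  · show (c00.1.1 + ((dg 2 2).x : ℤ)) / 3 = 2 / 3
    have : (dg 2 2).x = 2 := by decide
    rw [this]
    simp [c00]
  · show (c00.1.2 + ((dg 2 2).y : ℤ)) / 3 = 2 / 3
    have : (dg 2 2).y = 2 := by decide
    rw [this]
    simp [c00]

/-- Points of the other cells of the level of `w` are at distance at least `κ δ_w` from the point
`Fw w rp` (their sup distance from it is at least `3^{-n}/3`). -/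
theorem exists_ball_subset (hθ : Gauge θ) : ∃ κ : ℝ, 0 < κ ∧ ∀ w : List Dig, ∀ y,
    θ (Fw w rp) y < κ * dlt θ w → y ∉ out 0 w := by
  obtain ⟨C, hC, h⟩ := p0_sep hθ 3
  refine ⟨1 / C, by positivity, ?_⟩
  intro w y hlt hout
  obtain ⟨s, hs, hn, hy⟩ := hout
  have hd : 1 / 3 ^ w.length ≤ 3 * dist (Fw w rp) y := by
    have h3 : (0 : ℝ) < 3 ^ w.length := by positivity
    have h1 := mem_cell_coord hy
    rw [hs] at h1
    have hne : (pos s).1 ≠ (pos w).1 ∨ (pos s).2 ≠ (pos w).2 := by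
      by_contra hc
      push Not at hc
      apply hn
      unfold near
      rw [hc.1, hc.2]
      simp
    rw [dist_eq, div_le_iff₀ h3, Fw_apply1, Fw_apply2, p0_rp.1, p0_rp.2]
    have key : ∀ (a b : ℤ) (z : ℝ), a ≠ b → (a : ℝ) ≤ 3 ^ w.length * z →
        3 ^ w.length * z ≤ a + 1 → 1 ≤ 3 * |((b : ℝ) + 2 / 3) / 3 ^ w.length - z| * 3 ^ w.length := by
      intro a b z hab ha ha'
      have e1 : 3 * |((b : ℝ) + 2 / 3) / 3 ^ w.length - z| * 3 ^ w.length =
          3 * |(b : ℝ) + 2 / 3 - 3 ^ w.length * z| := by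
        have e0 : ((b : ℝ) + 2 / 3) / 3 ^ w.length - z =
            ((b : ℝ) + 2 / 3 - 3 ^ w.length * z) / 3 ^ w.length := by
          field_simp
        rw [mul_assoc, e0, abs_div, abs_of_pos h3, div_mul_cancel₀ _ h3.ne']
      rw [e1]
      rcases lt_or_gt_of_ne hab with hlt | hlt
      · have h4 : (a : ℝ) + 1 ≤ b := by exact_mod_cast hlt
        have h5 := le_abs_self ((b : ℝ) + 2 / 3 - 3 ^ w.length * z)
        linarith
      · have h4 : (b : ℝ) + 1 ≤ a := by exact_mod_cast hlt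
        have h5 := neg_abs_le ((b : ℝ) + 2 / 3 - 3 ^ w.length * z)
        linarith
    rcases hne with hne | hne
    · have h5 := key _ _ _ hne h1.1 h1.2.1
      refine h5.trans ?_
      refine mul_le_mul_of_nonneg_right ?_ h3.le
      exact mul_le_mul_of_nonneg_left (le_max_left _ _) (by norm_num)
    · have h5 := key _ _ _ hne h1.2.2.1 h1.2.2.2
      refine h5.trans ?_
      refine mul_le_mul_of_nonneg_right ?_ h3.le
      exact mul_le_mul_of_nonneg_left (le_max_right _ _) (by norm_num)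
  have h1 : dlt θ w ≤ C * θ (Fw w rp) y :=
    h w _ _ ((dist_cell_le (p0_mem w _) (p0_mem w _)).trans hd)
      ((dist_cell_le (p0_mem w _) (p0_mem w _)).trans hd)
  have h2 : C * θ (Fw w rp) y < C * (1 / C * dlt θ w) :=
    mul_lt_mul_of_pos_left hlt (by linarith)
  rw [← mul_assoc, mul_one_div_cancel (by linarith), one_mul] at h2
  linarith

/-- Points of `inn k w` are at distance at least `κ δ_w` from the points of `out (k+1) w` (their
sup distance is at least `3^{-n}`). -/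
theorem exists_ball_subset_inn (hθ : Gauge θ) (k : ℕ) : ∃ κ : ℝ, 0 < κ ∧ ∀ w : List Dig,
    ∀ x ∈ inn k w, ∀ y, θ x y < κ * dlt θ w → y ∉ out (k + 1) w := by
  obtain ⟨C, hC, h⟩ := p0_sep hθ (k + 1)
  refine ⟨1 / C, by positivity, ?_⟩
  intro w x hx y hlt hout
  obtain ⟨s, hs, hn, hxs⟩ := hx
  obtain ⟨u, hu, hun, hyu⟩ := hout
  have hnn : ¬ near ((0 : ℕ) + 1) s u := by
    intro hc
    apply hun
    have := near_trans (near_symm hc) hn
    refine near_mono ?_ this
    push_cast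
    omega
  have hd := p0_dist_ge (hs.trans hu.symm) hnn hxs hyu
  rw [hs] at hd
  have hd' : 1 / 3 ^ w.length ≤ dist x y := by
    simpa using hd
  have key : ∀ z : K, dist x (Fw w z) ≤ (k + 1) * dist x y := by
    intro z
    have h1 := dist_le_of_near hs hn hxs (p0_mem w z)
    rw [hs] at h1
    have e : (((k : ℕ) : ℤ) : ℝ) = (k : ℝ) := by push_cast; ring
    rw [e] at h1
    calc dist x (Fw w z) ≤ (k + 1) / 3 ^ w.length := h1
      _ = (k + 1) * (1 / 3 ^ w.length) := by ring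
      _ ≤ (k + 1) * dist x y := mul_le_mul_of_nonneg_left hd' (by positivity)
  have h1 : dlt θ w ≤ C * θ x y := h w _ _ (key _) (key _)
  have h2 : C * θ x y < C * (1 / C * dlt θ w) := mul_lt_mul_of_pos_left hlt (by linarith)
  rw [← mul_assoc, mul_one_div_cancel (by linarith), one_mul] at h2
  linarith


/-- Small cells: for every `ε` there is `k` such that the cells of level `|w| + k` near `w` have
`θ`-diameter less than `ε δ_w`. (By `qs0`; for `x, y ∈ cell (s ++ v)`, `s` near `w`, compare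
`θ x y ≤ ε' θ x b` with a point `b` of the cell of `s` at distance at least `3^{-n}/2`.) -/
theorem exists_small (hθ : Gauge θ) (j : ℕ) {ε : ℝ} (hε : 0 < ε) : ∃ k : ℕ, ∀ w s v : List Dig,
    s.length = w.length → near j s w → v.length = k → ∀ x ∈ cell (s ++ v), ∀ y ∈ cell (s ++ v),
      θ x y < ε * dlt θ w := by
  obtain ⟨C5, hC5, h5⟩ := theta_le_dlt hθ
  obtain ⟨C2, hC2, h2⟩ := p0_near hθ j
  obtain ⟨t0, ht0, h0⟩ := hθ.qs0 (ε := ε / (2 * C5 * C2)) (by positivity)
  obtain ⟨k, hk⟩ := exists_pow_lt_of_lt_one (show (0 : ℝ) < t0 / 2 by positivity)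
    (show (1 / 3 : ℝ) < 1 by norm_num)
  refine ⟨k, ?_⟩
  intro w s v hs hn hv x hx y hy
  have hxs := cell_append_subset s v hx
  have hxy := dist_cell_le hx hy
  have h3 : (0 : ℝ) < 3 ^ s.length := by positivity
  have hsmall : ∀ b : K, 1 / 3 ^ s.length ≤ 2 * dist x b → dist x y ≤ t0 * dist x b := by
    intro b hb
    have e1 : (1 : ℝ) / 3 ^ (s ++ v).length = (1 / 3) ^ k * (1 / 3 ^ s.length) := by
      rw [List.length_append, hv, pow_add, one_div_pow]
      field_simp
    rw [e1] at hxy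
    have e2 : (1 / 3 : ℝ) ^ k * (1 / 3 ^ s.length) ≤ t0 / 2 * (2 * dist x b) :=
      mul_le_mul hk.le hb (by positivity) (by positivity)
    linarith
  have hdiam : ∀ b ∈ cell s, 1 / 3 ^ s.length ≤ 2 * dist x b → θ x y < ε * dlt θ w := by
    intro b hb hb2
    have g1 := h0 x y b (hsmall b hb2)
    have g2 := h5 s x hxs b hb
    have g3 := h2 s w hs hn
    have g4 := dlt_pos hθ w
    have g5 : 0 < ε / (2 * C5 * C2) := by positivity
    have g6 : θ x b ≤ C5 * (C2 * dlt θ w) :=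
      g2.trans (mul_le_mul_of_nonneg_left g3 (by linarith))
    have g7 : ε / (2 * C5 * C2) * θ x b ≤ ε / (2 * C5 * C2) * (C5 * (C2 * dlt θ w)) :=
      mul_le_mul_of_nonneg_left g6 g5.le
    have g8 : ε / (2 * C5 * C2) * (C5 * (C2 * dlt θ w)) = ε / 2 * dlt θ w := by
      field_simp
    rw [g8] at g7
    have g9 : ε / 2 * dlt θ w < ε * dlt θ w := by nlinarith
    linarith
  rcases p0_far s x with hf | hf
  · exact hdiam _ (p0_mem s _) hf
  · exact hdiam _ (p0_mem s _) hf

theorem p0_exists_ne (x : K) : ∃ b : K, 0 < dist x b := by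
  by_cases h : x = c00
  · refine ⟨c11, dist_pos.2 fun h' => p0_c_ne (h ▸ h')⟩
  · exact ⟨c00, dist_pos.2 h⟩

theorem continuous_theta (hθ : Gauge θ) (x : K) : Continuous (fun y => θ x y) := by
  rw [Metric.continuous_iff]
  intro y ε hε
  obtain ⟨b, hb⟩ := p0_exists_ne y
  have hyb : 0 < θ y b := p0_pos hθ (dist_pos.1 hb)
  obtain ⟨t, ht, h⟩ := hθ.qs0 (ε := ε / (2 * θ y b)) (by positivity)
  refine ⟨t * dist y b, by positivity, ?_⟩
  intro z hz
  rw [dist_comm] at hz
  have h1 := h y z b hz.le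
  have h2 : ε / (2 * θ y b) * θ y b = ε / 2 := by field_simp
  rw [h2] at h1
  have h3 := hθ.triangle x y z
  have h4 := hθ.triangle x z y
  rw [hθ.symm z y] at h4
  rw [Real.dist_eq, abs_lt]
  constructor <;> linarith

/-- Balls of `θ` are open and a neighbourhood basis is not needed. -/
theorem isOpen_ball (hθ : Gauge θ) (x : K) (r : ℝ) : IsOpen {y | θ x y < r} :=
  isOpen_lt (continuous_theta hθ x) continuous_const

/-- All sizes are bounded. -/
theorem dlt_le (hθ : Gauge θ) : ∃ D : ℝ, 0 < D ∧ (∀ w, dlt θ w ≤ D) ∧ ∀ x y, θ x y ≤ D := by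
  obtain ⟨C, hC, h⟩ := theta_le_dlt hθ
  have h1 := dlt_pos hθ []
  have h2 : ∀ x y, θ x y ≤ C * dlt θ [] := fun x y => h [] x ⟨x, rfl⟩ y ⟨y, rfl⟩
  exact ⟨C * dlt θ [], by positivity, fun w => h2 _ _, h2⟩

/-- The graph of touching words of a finite set. -/
def p0Gr (T : Finset (List Dig)) : SimpleGraph (List Dig) where
  Adj a b := a ≠ b ∧ near 1 a b ∧ a ∈ T ∧ b ∈ T
  symm := ⟨fun a b h => ⟨h.1.symm, near_symm h.2.1, h.2.2.2, h.2.2.1⟩⟩
  loopless := ⟨fun a h => h.1 rfl⟩

theorem p0_reach {T : Finset (List Dig)} {s t : List Dig} (hs : s ∈ T)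
    (h : Linked (↑T) s t) : (p0Gr T).Reachable s t ∧ t ∈ T := by
  induction h with
  | refl => exact ⟨SimpleGraph.Reachable.refl _, hs⟩
  | @tail b c _ hbc ih =>
    refine ⟨ih.1.trans ?_, hbc.1⟩
    by_cases he : b = c
    · rw [he]
    · exact SimpleGraph.Adj.reachable ⟨he, hbc.2, ih.2, hbc.1⟩

theorem p0_walk (hθ : Gauge θ) {C : ℝ} (hC : ∀ w : List Dig, ∀ x ∈ cell w, ∀ y ∈ cell w,
    θ x y ≤ C * dlt θ w) {T : Finset (List Dig)} {N : ℕ} (hT : ∀ s ∈ T, s.length = N)
    {s t : List Dig} (p : (p0Gr T).Walk s t) : ∀ x ∈ cell s, ∀ y ∈ cell t,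
      θ x y ≤ C * (p.support.map (dlt θ)).sum := by
  induction p with
  | nil =>
    intro x hx y hy
    simpa using hC _ x hx y hy
  | @cons a b c hab p ih =>
    intro x hx y hy
    obtain ⟨z, hz1, hz2⟩ := exists_common ((hT a hab.2.2.1).trans (hT b hab.2.2.2).symm) hab.2.1
    have h1 := hC a x hx z hz1
    have h2 := ih z hz2 y hy
    have h3 := hθ.triangle x z y
    rw [SimpleGraph.Walk.support_cons, List.map_cons, List.sum_cons, mul_add]
    linarith

theorem p0_walk_support {T : Finset (List Dig)} {s t : List Dig} (hs : s ∈ T)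
    (p : (p0Gr T).Walk s t) : ∀ a ∈ p.support, a ∈ T := by
  induction p with
  | nil =>
    intro a ha
    simp at ha
    rw [ha]
    exact hs
  | cons hab p ih =>
    intro a ha
    rw [SimpleGraph.Walk.support_cons, List.mem_cons] at ha
    rcases ha with rfl | ha
    · exact hs
    · exact ih hab.2.2.2 a ha

theorem p0_chain (hθ : Gauge θ) {C : ℝ} (hC1 : 1 ≤ C) (hC : ∀ w : List Dig, ∀ x ∈ cell w,
    ∀ y ∈ cell w, θ x y ≤ C * dlt θ w) {T : Finset (List Dig)} {N : ℕ}
    (hT : ∀ s ∈ T, s.length = N) {s t : List Dig} (hs : s ∈ T) (h : Linked (↑T) s t) :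
    ∀ x ∈ cell s, ∀ y ∈ cell t, θ x y ≤ C * ∑ a ∈ T, dlt θ a := by
  classical
  intro x hx y hy
  obtain ⟨⟨p⟩, -⟩ := p0_reach hs h
  let q := p.toPath
  have h1 := p0_walk hθ hC hT (q : (p0Gr T).Walk s t) x hx y hy
  refine h1.trans (mul_le_mul_of_nonneg_left ?_ (by linarith))
  have hnd : (q : (p0Gr T).Walk s t).support.Nodup := q.2.support_nodup
  rw [← List.sum_toFinset _ hnd]
  refine Finset.sum_le_sum_of_subset_of_nonneg ?_ fun a _ _ => (dlt_pos hθ a).le
  intro a ha
  rw [List.mem_toFinset] at ha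
  exact p0_walk_support hs _ a ha

/-- `dlt θ` is a weight. `touch`: a common point `p` of the two cells and a corner `b` of the cell
of `v` at distance at least `3^{-n}/2` from `p`. `child`: `p = Fw (w ++ [d]) c00` and
`b = Fw (w ++ [d]) c11`. `chain`: `δ_v ≤ 2 H(27) θ x y` and `θ x y ≤ ∑_{s ∈ T} diam (cell s)` by a
simple chain from `s` to `t` in `T`. -/
theorem dlt_wt (hθ : Gauge θ) : ∃ C : ℝ, 1 ≤ C ∧ Wt C (dlt θ) := by
  obtain ⟨C1, hC1, h1⟩ := theta_le_dlt hθ
  obtain ⟨C2, hC2, h2⟩ := p0_near hθ 1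
  obtain ⟨C3, hC3, h3⟩ := p0_sep hθ 3
  obtain ⟨C4, hC4, h4⟩ := p0_sep hθ 27
  have hmul : ∀ a b c : ℝ, a ≤ b → 0 ≤ c → a * c ≤ b * c :=
    fun a b c h h' => mul_le_mul_of_nonneg_right h h'
  have e1 : C1 ≤ C1 * C2 * C3 * C4 := by
    have g1 : 1 ≤ C2 * C3 := by nlinarith
    have g2 : 1 ≤ C2 * C3 * C4 := by nlinarith
    nlinarith
  have e2 : C2 ≤ C1 * C2 * C3 * C4 := by
    have g1 : 1 ≤ C1 * C3 := by nlinarith
    have g2 : 1 ≤ C1 * C3 * C4 := by nlinarith
    nlinarith
  have e3 : C3 ≤ C1 * C2 * C3 * C4 := by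
    have g1 : 1 ≤ C1 * C2 := by nlinarith
    have g2 : 1 ≤ C1 * C2 * C4 := by nlinarith
    nlinarith
  have e4 : C4 * C1 ≤ C1 * C2 * C3 * C4 := by
    have g1 : 1 ≤ C2 * C3 := by nlinarith
    have g2 : 0 < C1 * C4 := by positivity
    nlinarith
  refine ⟨C1 * C2 * C3 * C4, by linarith, ⟨dlt_pos hθ, ?_, ?_, ?_, ?_⟩⟩
  · intro u v hl hn
    exact (h2 u v hl (by exact_mod_cast hn)).trans (hmul _ _ _ e2 (dlt_pos hθ v).le)
  · intro w d
    have hlen : (w ++ [d]).length = w.length + 1 := by simp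
    have key : ∀ z : K, dist (Fw (w ++ [d]) c00) (Fw w z) ≤
        3 * dist (Fw (w ++ [d]) c00) (Fw (w ++ [d]) c11) := by
      intro z
      rw [p0_dist_corner, hlen, pow_succ]
      have g1 := dist_cell_le (cell_append_subset w [d] (p0_mem (w ++ [d]) c00)) (p0_mem w z)
      have g2 : (3 : ℝ) * (1 / (3 ^ w.length * 3)) = 1 / 3 ^ w.length := by field_simp
      rw [g2]
      exact g1
    exact (h3 w _ _ (key _) (key _)).trans (hmul _ _ _ e3 (dlt_pos hθ (w ++ [d])).le)
  · intro w d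
    refine (h1 w _ (cell_append_subset w [d] (p0_mem (w ++ [d]) c00)) _
      (cell_append_subset w [d] (p0_mem (w ++ [d]) c11))).trans (hmul _ _ _ e1 (dlt_pos hθ w).le)
  · intro v N T hT hvN s hs t hst x hx y hy hxv hd
    have key : ∀ z : K, dist x (Fw v z) ≤ 27 * dist x y := by
      intro z
      have g1 := dist_cell_le hxv (p0_mem v z)
      have g2 : (1 : ℝ) / 27 / 3 ^ v.length = 1 / 3 ^ v.length / 27 := by ring
      rw [g2] at hd
      linarith
    have g1 := h4 v x y (key _) (key _)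
    have g2 := p0_chain hθ hC1 h1 hT hs hst x hx y hy
    have g3 : 0 ≤ ∑ a ∈ T, dlt θ a := Finset.sum_nonneg fun a _ => (dlt_pos hθ a).le
    calc dlt θ v ≤ C4 * θ x y := g1
      _ ≤ C4 * (C1 * ∑ a ∈ T, dlt θ a) := mul_le_mul_of_nonneg_left g2 (by linarith)
      _ = C4 * C1 * ∑ a ∈ T, dlt θ a := by ring
      _ ≤ C1 * C2 * C3 * C4 * ∑ a ∈ T, dlt θ a := hmul _ _ _ e4 g3

theorem p0_linked_append {T : Finset (List Dig)} (u : List Dig) {N : ℕ}
    (hT : ∀ s ∈ T, s.length = N) {s t : List Dig} (hs : s ∈ T) (h : Linked (↑T) s t) :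
    Linked (↑(T.image (u ++ ·))) (u ++ s) (u ++ t) ∧ t ∈ T := by
  classical
  induction h with
  | refl => exact ⟨Relation.ReflTransGen.refl, hs⟩
  | @tail b c _ hbc ih =>
    have hc : c ∈ T := hbc.1
    refine ⟨ih.1.tail ⟨?_, ?_⟩, hc⟩
    · exact Finset.mem_coe.2 (Finset.mem_image_of_mem _ hc)
    · rw [near_append_left u b c ((hT b ih.2).trans (hT c hc).symm)]
      exact hbc.2

/-- Weights can be shifted and rescaled. -/
theorem Wt.shift {C : ℝ} {δ : List Dig → ℝ} (h : Wt C δ) (u : List Dig) {a : ℝ} (ha : 0 < a) :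
    Wt C (fun v => a * δ (u ++ v)) := by
  classical
  refine ⟨fun w => mul_pos ha (h.pos _), ?_, ?_, ?_, ?_⟩
  · intro s v hl hn
    have h1 := h.touch (u ++ s) (u ++ v) (by simp [hl]) ((near_append_left u s v hl).2 hn)
    have h2 := mul_le_mul_of_nonneg_left h1 ha.le
    calc a * δ (u ++ s) ≤ a * (C * δ (u ++ v)) := h2
      _ = C * (a * δ (u ++ v)) := by ring
  · intro w d
    have h1 := h.child (u ++ w) d
    rw [List.append_assoc] at h1
    have h2 := mul_le_mul_of_nonneg_left h1 ha.le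
    calc a * δ (u ++ w) ≤ a * (C * δ (u ++ (w ++ [d]))) := h2
      _ = C * (a * δ (u ++ (w ++ [d]))) := by ring
  · intro w d
    have h1 := h.child' (u ++ w) d
    rw [List.append_assoc] at h1
    have h2 := mul_le_mul_of_nonneg_left h1 ha.le
    calc a * δ (u ++ (w ++ [d])) ≤ a * (C * δ (u ++ w)) := h2
      _ = C * (a * δ (u ++ w)) := by ring
  · intro v N T hT hvN s hs t hst x hx y hy hxv hd
    have hmem : ∀ (w : List Dig) (z : K), z ∈ cell w → Fw u z ∈ cell (u ++ w) := by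
      rintro w _ ⟨z, rfl⟩
      exact ⟨z, by rw [Fw_append]; rfl⟩
    have h1 := h.chain (u ++ v) (u.length + N) (T.image (u ++ ·)) (by
      intro s' hs'
      obtain ⟨s'', h2, rfl⟩ := Finset.mem_image.1 hs'
      simp [hT s'' h2]) (by simp [hvN]) (u ++ s) (Finset.mem_image_of_mem _ hs) (u ++ t)
      (p0_linked_append u hT hs hst).1 (Fw u x) (hmem s x hx) (Fw u y) (hmem t y hy)
      (hmem v x hxv) (by
        rw [dist_Fw, List.length_append, pow_add]
        have h3 : (0 : ℝ) < 3 ^ u.length := by positivity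
        have e : (1 : ℝ) / 27 / (3 ^ u.length * 3 ^ v.length) =
            1 / 27 / 3 ^ v.length / 3 ^ u.length := by
          field_simp
        rw [e]
        exact div_le_div_of_nonneg_right hd h3.le)
    rw [Finset.sum_image (fun p _ q _ hpq => List.append_cancel_left hpq)] at h1
    have h2 := mul_le_mul_of_nonneg_left h1 ha.le
    calc a * δ (u ++ v) ≤ a * (C * ∑ s ∈ T, δ (u ++ s)) := h2
      _ = C * ∑ s ∈ T, a * δ (u ++ s) := by rw [← Finset.mul_sum]; ring

theorem Wt.mono {C C' : ℝ} (hC : C ≤ C') {δ : List Dig → ℝ} (h : Wt C δ) : Wt C' δ := by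
  refine ⟨h.pos, ?_, ?_, ?_, ?_⟩
  · intro u v hl hn
    exact (h.touch u v hl hn).trans (mul_le_mul_of_nonneg_right hC (h.pos v).le)
  · intro w d
    exact (h.child w d).trans (mul_le_mul_of_nonneg_right hC (h.pos _).le)
  · intro w d
    exact (h.child' w d).trans (mul_le_mul_of_nonneg_right hC (h.pos _).le)
  · intro v N T hT hvN s hs t hst x hx y hy hxv hd
    exact (h.chain v N T hT hvN s hs t hst x hx y hy hxv hd).trans
      (mul_le_mul_of_nonneg_right hC (Finset.sum_nonneg fun a _ => (h.pos a).le))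

theorem Wt.le_append {C : ℝ} (hC : 1 ≤ C) {δ : List Dig → ℝ} (h : Wt C δ) (u v : List Dig) :
    δ u ≤ C ^ v.length * δ (u ++ v) ∧ δ (u ++ v) ≤ C ^ v.length * δ u := by
  induction v generalizing u with
  | nil => simp
  | cons d v ih =>
    have h1 := ih (u ++ [d])
    rw [List.append_assoc, List.singleton_append] at h1
    have h2 := h.child u d
    have h3 := h.child' u d
    have hC0 : (0 : ℝ) ≤ C := by linarith
    have hCp : (0 : ℝ) ≤ C ^ v.length := by positivity
    rw [List.length_cons, pow_succ]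
    constructor
    · calc δ u ≤ C * δ (u ++ [d]) := h2
        _ ≤ C * (C ^ v.length * δ (u ++ d :: v)) := mul_le_mul_of_nonneg_left h1.1 hC0
        _ = C ^ v.length * C * δ (u ++ d :: v) := by ring
    · calc δ (u ++ d :: v) ≤ C ^ v.length * δ (u ++ [d]) := h1.2
        _ ≤ C ^ v.length * (C * δ u) := mul_le_mul_of_nonneg_left h3 hCp
        _ = C ^ v.length * C * δ u := by ring

end Pool.Agent.Helper67.SC
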