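import Pool.Agent.Helper67.SC.A1a
import Pool.Agent.Helper67.SC.P0
import Pool.Agent.Helper67.SC.F2

/-! Module A1b: harmonic functions with energies comparable to the weight. -/

open MeasureTheory Filter Topology

noncomputable section

namespace Pool.Agent.Helper67.SC

theorem a1b_fix (d : Dig) (x : K) (h : F d x = x) (n : ℕ) : Fw (List.replicate n d) x = x := by
  induction n with
  | zero => rfl
  | succ n ih =>
    rw [List.replicate_succ]
    change F d (Fw (List.replicate n d) x) = x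
    rw [ih, h]

theorem a1b_fix00 (n : ℕ) : Fw (List.replicate n (dg 0 0)) c00 = c00 := by
  refine a1b_fix _ _ (K_ext ?_ ?_) n
  · rw [F_apply1]; simp [c00, dg, Dig.x]
  · rw [F_apply2]; simp [c00, dg, Dig.y]

theorem a1b_fix11 (n : ℕ) : Fw (List.replicate n (dg 2 2)) c11 = c11 := by
  refine a1b_fix _ _ (K_ext ?_ ?_) n
  · rw [F_apply1]; simp [c11, dg, Dig.x]; norm_num
  · rw [F_apply2]; simp [c11, dg, Dig.y]; norm_num

theorem a1b_c00_ne : c00 ≠ c11 := by
  intro h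
  have : (c00 : K).1.1 = (c11 : K).1.1 := by rw [h]
  simp [c00, c11] at this

theorem a1b_pre (w : List Dig) : Fw w ⁻¹' {c00, c11} ⊆ V0 := by
  intro x hx
  have hb := K_bounds x
  have hp := pos_nonneg w
  have hl := pos_lt w
  have h3 : (0 : ℝ) < 3 ^ w.length := by positivity
  rcases hx with hx | hx
  · have h1 : (Fw w x).1.1 = 0 := by rw [hx]; rfl
    rw [Fw_apply1, div_eq_zero_iff] at h1
    rcases h1 with h1 | h1
    · have h2 : (0 : ℝ) ≤ (pos w).1 := by exact_mod_cast hp.1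
      exact Or.inl (Or.inl (Or.inl (show x.1.1 = 0 by linarith [hb.1])))
    · exact absurd h1 h3.ne'
  · have h1 : (Fw w x).1.1 = 1 := by rw [Set.mem_singleton_iff.1 hx]; rfl
    rw [Fw_apply1, div_eq_one_iff_eq h3.ne'] at h1
    have h2 : ((pos w).1 : ℝ) + 1 ≤ 3 ^ w.length := by
      have : (pos w).1 + 1 ≤ 3 ^ w.length := hl.1
      exact_mod_cast this
    exact Or.inl (Or.inl (Or.inr (show x.1.1 = 1 by linarith [hb.2.1])))

/-- Let `f₀` be harmonic off `{c00, c11}` with `f₀ c00 = 0`, `f₀ c11 = 1` (`exists_dirichlet`), and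
`a w = ρ^n en f₀ w`. `ψ_n` = interpolation (`exists_interp`) of `α = θ c00 ·` at level `n`:
`E f₀ ψ_n = δ_∅ E f₀ f₀` (as `ψ_n - δ_∅ f₀` vanishes at the two points), and
`en ψ_n w ≤ C δ_w² ≤ C' ρ^{-n} b w`, so `δ_∅ E f₀ f₀ ≤ C'' ∑ sqrt (a w b w)`. Then apply
`exists_near_equality` with `η = η_m` so small that `|sqrt p - sqrt q| ≤ η` forces
`sqrt q / 2 ≤ sqrt p ≤ 2 sqrt q` (`b (w ++ v) / b w ≥ c_m` by `Wt.le_append`), and take
`h = f₀ ∘ Fw w` scaled, `δ v = δ_{w v}` scaled. `h` is harmonic off `V0` by `HarmOff.restrict`. -/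
theorem exists_comp (S : CarForm) {θ : K → K → ℝ} (hθ : Gauge θ) (μ : Measure K)
    [IsFiniteMeasure μ] {C₀ : ℝ} (hC₀ : 0 < C₀)
    (hup : ∀ w : List Dig, dlt θ w ^ 2 ≤ C₀ * (S.ρ ^ w.length)⁻¹ * (μ (cell w)).toReal)
    (hlo : ∀ w : List Dig, (S.ρ ^ w.length)⁻¹ * (μ (cell w)).toReal ≤ C₀ * dlt θ w ^ 2) :
    ∃ C : ℝ, 1 ≤ C ∧ ∀ m : ℕ, ∃ h δ, HarmOff S V0 h ∧ Wt C δ ∧ CompTo S m C δ h := by
  obtain ⟨b, hb1, hb2, hbadd⟩ := exists_additive μ
  obtain ⟨C₃, hC₃1, hwt⟩ := dlt_wt hθ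
  obtain ⟨C₁, hC₁1, hth⟩ := theta_le_dlt hθ
  obtain ⟨C₂, hC₂0, hint⟩ := exists_interp S
  have hρ := S.ρ_pos
  have hρ1 := one_lt_rho S
  have hδ : ∀ w, 0 < dlt θ w := fun w => dlt_pos hθ w
  -- bounds for δ in terms of b
  have hup' : ∀ w : List Dig, dlt θ w ^ 2 ≤ C₀ * ((S.ρ ^ w.length)⁻¹ * b w) := by
    intro w
    refine (hup w).trans ?_
    rw [mul_assoc]
    have h0 : 0 ≤ C₀ * (S.ρ ^ w.length)⁻¹ := by positivity
    have := mul_le_mul_of_nonneg_left (hb1 w) h0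
    rw [mul_assoc, mul_assoc] at this
    exact this
  have hlo' : ∀ w : List Dig, (S.ρ ^ w.length)⁻¹ * b w ≤ 9 * C₀ * dlt θ w ^ 2 := by
    intro w
    have h0 : 0 ≤ (S.ρ ^ w.length)⁻¹ := by positivity
    have := mul_le_mul_of_nonneg_left (hb2 w) h0
    nlinarith [hlo w]
  have hb0 : ∀ w, 0 < b w := by
    intro w
    have h1 := hup' w
    have h2 : 0 < dlt θ w ^ 2 := pow_pos (hδ w) 2
    by_contra hcon
    push Not at hcon
    have h3 : 0 ≤ (S.ρ ^ w.length)⁻¹ := by positivity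
    have h4 : (S.ρ ^ w.length)⁻¹ * b w ≤ 0 := mul_nonpos_of_nonneg_of_nonpos h3 hcon
    nlinarith
  -- the function f₀
  obtain ⟨χ, hχd, _, hχ0, hχ1⟩ := S.exists_urysohn (A := {c00}) (B := {c11}) isClosed_singleton
    isClosed_singleton (Set.disjoint_singleton.2 a1b_c00_ne)
  obtain ⟨f₀, hf₀, hfχ⟩ := exists_dirichlet S (A := {c00, c11}) ⟨c00, by simp⟩ hχd
  have hf00 : f₀ c00 = 0 := by rw [hfχ _ (by simp)]; exact hχ0 _ rfl
  have hf11 : f₀ c11 = 1 := by rw [hfχ _ (by simp)]; exact hχ1 _ rfl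
  have hE0 : 0 < S.E f₀ f₀ := by
    refine lt_of_le_of_ne (S.E_nonneg f₀ hf₀.1) (fun h => ?_)
    have h1 := CarForm.eq_zero_of_E S hf₀.1 h.symm.le hf00
    rw [h1] at hf11
    simp at hf11
  set a : List Dig → ℝ := fun w => S.ρ ^ w.length * S.en f₀ w with ha
  have ha0 : ∀ w, 0 ≤ a w := fun w => mul_nonneg (by positivity) (S.en_nonneg hf₀.1 w)
  have haadd : ∀ w, a w = ∑ d, a (w ++ [d]) := by
    intro w
    have h1 := S.E_eq_sum_en 1 (S.comp_Fw_mem w hf₀.1)
    simp only [S.en_comp] at h1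
    have h2 : S.en f₀ w = S.ρ ^ 1 * ∑ d, S.en f₀ (w ++ [d]) := by
      change S.E (f₀.comp (Fw w)) (f₀.comp (Fw w)) = _
      have h3 := sum_words_cons 0 (fun v => S.en f₀ (w ++ v))
      simp only [sum_words_zero, zero_add] at h3
      rw [h1, h3]
    simp only [ha, List.length_append, List.length_singleton]
    rw [h2, Finset.mul_sum, Finset.mul_sum]
    refine Finset.sum_congr rfl fun d _ => ?_
    rw [pow_add]; ring
  -- the lower bound
  set M : ℝ := Real.sqrt C₂ * C₁ * Real.sqrt C₀ with hM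
  have hM0 : 0 < M := by
    have : 0 < C₁ := by linarith
    positivity
  have hd0 : 0 < θ c00 c11 := hδ []
  have hlow : ∀ n, θ c00 c11 * S.E f₀ f₀ / M ≤ ∑ w ∈ words n, Real.sqrt (a w * b w) := by
    intro n
    obtain ⟨ψ, hψd, hψc, _, hψe⟩ := hint n (fun x => θ c00 x)
    have hc00 : c00 ∈ corners := by simp [corners]
    have hc11 : c11 ∈ corners := by simp [corners]
    have hψ0 : ψ c00 = 0 := by
      have := hψc (List.replicate n (dg 0 0)) List.length_replicate c00 hc00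
      rw [a1b_fix00] at this
      rw [this]; exact (hθ.zero_iff _ _).2 rfl
    have hψ1 : ψ c11 = θ c00 c11 := by
      have := hψc (List.replicate n (dg 2 2)) List.length_replicate c11 hc11
      rw [a1b_fix11] at this
      exact this
    have h1 : S.E f₀ (ψ - θ c00 c11 • f₀) = 0 := by
      refine hf₀.2 _ (S.dom.sub_mem hψd (S.dom.smul_mem _ hf₀.1)) ?_
      intro x hx
      rcases hx with hx | hx
      · rw [hx]; simp [hψ0, hf00]
      · rw [Set.mem_singleton_iff.1 hx]; simp [hψ1, hf11]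
    have h2 : S.E f₀ ψ = θ c00 c11 * S.E f₀ f₀ := by
      rw [S.E_sub_right hf₀.1 hψd (S.dom.smul_mem _ hf₀.1), S.E_smul_right _ hf₀.1 hf₀.1] at h1
      linarith
    rw [div_le_iff₀ hM0, ← h2, S.E_selfsim n hf₀.1 hψd, Finset.mul_sum, Finset.sum_mul]
    refine Finset.sum_le_sum fun w hw => ?_
    have hwn : w.length = n := mem_words.1 hw
    have h3 : S.E (f₀.comp (Fw w)) (ψ.comp (Fw w)) ≤
        Real.sqrt (S.en f₀ w) * Real.sqrt (S.en ψ w) :=
      S.E_le (S.comp_Fw_mem w hf₀.1) (S.comp_Fw_mem w hψd)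
    have h4 : S.en ψ w ≤ C₂ * (C₁ * dlt θ w) ^ 2 := by
      refine hψe w hwn _ ?_
      intro c _ c' _
      have t1 := hθ.triangle c00 (Fw w c) (Fw w c')
      have t2 := hθ.triangle c00 (Fw w c') (Fw w c)
      have t3 := hth w (Fw w c) ⟨c, rfl⟩ (Fw w c') ⟨c', rfl⟩
      rw [hθ.symm (Fw w c') (Fw w c)] at t2
      rw [abs_le]
      constructor <;> linarith
    have h5 : S.en ψ w ≤ C₂ * C₁ ^ 2 * C₀ * ((S.ρ ^ n)⁻¹ * b w) := by
      refine h4.trans ?_
      have := hup' w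
      rw [hwn] at this
      have h0 : 0 ≤ C₂ * C₁ ^ 2 := by positivity
      have := mul_le_mul_of_nonneg_left this h0
      calc C₂ * (C₁ * dlt θ w) ^ 2 = C₂ * C₁ ^ 2 * dlt θ w ^ 2 := by ring
        _ ≤ C₂ * C₁ ^ 2 * (C₀ * ((S.ρ ^ n)⁻¹ * b w)) := this
        _ = _ := by ring
    have h6 : Real.sqrt (S.en ψ w) ≤ M * Real.sqrt ((S.ρ ^ n)⁻¹ * b w) := by
      refine (Real.sqrt_le_sqrt h5).trans (le_of_eq ?_)
      have e1 : C₂ * C₁ ^ 2 * C₀ = M ^ 2 := by
        rw [hM, mul_pow, mul_pow, Real.sq_sqrt hC₂0.le, Real.sq_sqrt hC₀.le]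
      rw [e1, Real.sqrt_mul (by positivity), Real.sqrt_sq hM0.le]
    have h7 : Real.sqrt (a w * b w) =
        S.ρ ^ n * (Real.sqrt (S.en f₀ w) * Real.sqrt ((S.ρ ^ n)⁻¹ * b w)) := by
      rw [← Real.sqrt_mul (S.en_nonneg hf₀.1 w)]
      have e1 : a w * b w = (S.ρ ^ n) ^ 2 * (S.en f₀ w * ((S.ρ ^ n)⁻¹ * b w)) := by
        simp only [ha]
        rw [hwn]
        have : S.ρ ^ n ≠ 0 := by positivity
        field_simp
      rw [e1, Real.sqrt_mul (by positivity), Real.sqrt_sq (by positivity)]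
    rw [h7]
    calc S.ρ ^ n * S.E (f₀.comp (Fw w)) (ψ.comp (Fw w))
        ≤ S.ρ ^ n * (Real.sqrt (S.en f₀ w) * (M * Real.sqrt ((S.ρ ^ n)⁻¹ * b w))) := by
          refine mul_le_mul_of_nonneg_left (h3.trans ?_) (by positivity)
          exact mul_le_mul_of_nonneg_left h6 (Real.sqrt_nonneg _)
      _ = _ := by ring
  -- constants
  set C : ℝ := max C₃ (6 * Real.sqrt C₀) with hC
  have hsC0 : 0 < Real.sqrt C₀ := Real.sqrt_pos.2 hC₀
  refine ⟨C, hC₃1.trans (le_max_left _ _), fun m => ?_⟩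
  have hC₃0 : 0 < C₃ := by linarith
  set c : ℝ := 1 / (3 * C₀ * C₃ ^ m) with hc
  have hc0 : 0 < c := by positivity
  obtain ⟨w, haw, hbw, hnear⟩ := exists_near_equality a b ha0 (fun w => (hb0 w).le) haadd hbadd
    (c₀ := θ c00 c11 * S.E f₀ f₀ / M) (by positivity) hlow m (η := c / 2) (by positivity)
  set t : ℝ := Real.sqrt (a w / b w) with ht
  have ht0 : 0 < t := Real.sqrt_pos.2 (by positivity)
  refine ⟨f₀.comp (Fw w), fun v => t * dlt θ (w ++ v), ?_, ?_, ?_⟩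
  · exact hf₀.restrict w (Bd_subset_V0 w) (a1b_pre w)
  · exact (hwt.shift w ht0).mono (le_max_left _ _)
  · intro v hv
    have hn := hnear v hv
    -- the quotient q is not small
    have hq : c ≤ Real.sqrt (b (w ++ v) / b w) := by
      apply Real.le_sqrt_of_sq_le
      rw [le_div_iff₀ hbw]
      have h1 := hup' (w ++ v)
      have h2 := hlo' w
      have h3 := (hwt.le_append hC₃1 w v).1
      have h4 : C₃ ^ v.length ≤ C₃ ^ m := pow_le_pow_right₀ hC₃1 hv
      have h5 : dlt θ w ≤ C₃ ^ m * dlt θ (w ++ v) :=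
        h3.trans (mul_le_mul_of_nonneg_right h4 (hδ _).le)
      have h6 : dlt θ w ^ 2 ≤ (C₃ ^ m) ^ 2 * dlt θ (w ++ v) ^ 2 := by
        rw [← mul_pow]
        exact pow_le_pow_left₀ (hδ w).le h5 2
      have h7 : b w ≤ 9 * C₀ * dlt θ w ^ 2 * S.ρ ^ w.length := by
        have hr : 0 < S.ρ ^ w.length := by positivity
        have := mul_le_mul_of_nonneg_right h2 hr.le
        calc b w = (S.ρ ^ w.length)⁻¹ * b w * S.ρ ^ w.length := by field_simp
          _ ≤ _ := this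
      have h8 : dlt θ (w ++ v) ^ 2 * S.ρ ^ w.length ≤ C₀ * b (w ++ v) := by
        have hr : 0 < S.ρ ^ (w ++ v).length := by positivity
        have h9 := mul_le_mul_of_nonneg_right h1 hr.le
        have h10 : C₀ * ((S.ρ ^ (w ++ v).length)⁻¹ * b (w ++ v)) * S.ρ ^ (w ++ v).length =
            C₀ * b (w ++ v) := by field_simp
        rw [h10] at h9
        refine le_trans ?_ h9
        refine mul_le_mul_of_nonneg_left ?_ (by positivity)
        refine pow_le_pow_right₀ hρ1.le ?_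
        rw [List.length_append]; omega
      calc c ^ 2 * b w ≤ c ^ 2 * (9 * C₀ * dlt θ w ^ 2 * S.ρ ^ w.length) :=
            mul_le_mul_of_nonneg_left h7 (by positivity)
        _ ≤ c ^ 2 * (9 * C₀ * ((C₃ ^ m) ^ 2 * dlt θ (w ++ v) ^ 2) * S.ρ ^ w.length) := by
            gcongr
        _ = c ^ 2 * (9 * C₀ * (C₃ ^ m) ^ 2) * (dlt θ (w ++ v) ^ 2 * S.ρ ^ w.length) := by ring
        _ ≤ c ^ 2 * (9 * C₀ * (C₃ ^ m) ^ 2) * (C₀ * b (w ++ v)) :=
            mul_le_mul_of_nonneg_left h8 (by positivity)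
        _ = b (w ++ v) := by
            rw [hc]; field_simp; norm_num
    set p' : ℝ := Real.sqrt (a (w ++ v) / a w) with hp'
    set q' : ℝ := Real.sqrt (b (w ++ v) / b w) with hq'
    rw [abs_le] at hn
    have hpq1 : p' ≤ 2 * q' := by linarith
    have hpq2 : q' ≤ 2 * p' := by linarith
    -- the energy
    set R : ℝ := S.ρ ^ (w ++ v).length with hR
    have hR0 : 0 < R := by positivity
    have hen : Real.sqrt (S.en (f₀.comp (Fw w)) v) = Real.sqrt (R⁻¹ * a w) * p' := by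
      rw [S.en_comp, hp', ← Real.sqrt_mul (by positivity)]
      congr 1
      have e1 : a (w ++ v) = R * S.en f₀ (w ++ v) := rfl
      have e2 : R⁻¹ * a w * (a (w ++ v) / a w) = R⁻¹ * a (w ++ v) := by
        field_simp
      rw [e2, e1, ← mul_assoc, inv_mul_cancel₀ hR0.ne', one_mul]
    have hbt : Real.sqrt (R⁻¹ * a w) * q' = t * Real.sqrt (R⁻¹ * b (w ++ v)) := by
      rw [hq', ht, ← Real.sqrt_mul (by positivity), ← Real.sqrt_mul (by positivity)]
      congr 1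
      field_simp
    have hd1 : dlt θ (w ++ v) ≤ Real.sqrt C₀ * Real.sqrt (R⁻¹ * b (w ++ v)) := by
      rw [← Real.sqrt_mul hC₀.le]
      exact Real.le_sqrt_of_sq_le (hup' (w ++ v))
    have hd2 : Real.sqrt (R⁻¹ * b (w ++ v)) ≤ 3 * Real.sqrt C₀ * dlt θ (w ++ v) := by
      refine (Real.sqrt_le_sqrt (hlo' (w ++ v))).trans (le_of_eq ?_)
      rw [Real.sqrt_mul (by positivity), Real.sqrt_sq (hδ _).le, Real.sqrt_mul (by norm_num),
        show (9 : ℝ) = 3 ^ 2 by norm_num, Real.sqrt_sq (by norm_num)]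
    have hs0 : 0 ≤ Real.sqrt (R⁻¹ * a w) := Real.sqrt_nonneg _
    constructor
    · calc t * dlt θ (w ++ v) ≤ t * (Real.sqrt C₀ * Real.sqrt (R⁻¹ * b (w ++ v))) :=
            mul_le_mul_of_nonneg_left hd1 ht0.le
        _ = Real.sqrt C₀ * (Real.sqrt (R⁻¹ * a w) * q') := by rw [hbt]; ring
        _ ≤ Real.sqrt C₀ * (Real.sqrt (R⁻¹ * a w) * (2 * p')) := by gcongr
        _ = 2 * Real.sqrt C₀ * Real.sqrt (S.en (f₀.comp (Fw w)) v) := by rw [hen]; ring
        _ ≤ C * Real.sqrt (S.en (f₀.comp (Fw w)) v) := by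
            refine mul_le_mul_of_nonneg_right ?_ (Real.sqrt_nonneg _)
            refine le_trans ?_ (le_max_right _ _)
            linarith
    · calc Real.sqrt (S.en (f₀.comp (Fw w)) v) = Real.sqrt (R⁻¹ * a w) * p' := hen
        _ ≤ Real.sqrt (R⁻¹ * a w) * (2 * q') := by gcongr
        _ = 2 * t * Real.sqrt (R⁻¹ * b (w ++ v)) := by
            rw [mul_left_comm, hbt]; ring
        _ ≤ 2 * t * (3 * Real.sqrt C₀ * dlt θ (w ++ v)) :=
            mul_le_mul_of_nonneg_left hd2 (by positivity)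
        _ = 6 * Real.sqrt C₀ * (t * dlt θ (w ++ v)) := by ring
        _ ≤ C * (t * dlt θ (w ++ v)) := by
            refine mul_le_mul_of_nonneg_right (le_max_right _ _) ?_
            have := hδ (w ++ v)
            positivity

end Pool.Agent.Helper67.SC
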