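import Pool.Agent.Helper67.SC.F5a

/-! Module F5b: applications of the content estimate. -/

open MeasureTheory Filter Topology

noncomputable section

namespace Pool.Agent.Helper67.SC

variable (S : CarForm)

theorem f5b_closed_left : IsClosed left :=
  isClosed_eq (by fun_prop) continuous_const
theorem f5b_closed_right : IsClosed right :=
  isClosed_eq (by fun_prop) continuous_const
theorem f5b_closed_bot : IsClosed bot :=
  isClosed_eq (by fun_prop) continuous_const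
theorem f5b_closed_top : IsClosed top :=
  isClosed_eq (by fun_prop) continuous_const

/-- General form of the content estimate with a fixed cutoff function. -/
theorem f5b_gen {A B : Set K} (hA : IsClosed A) (hB : IsClosed B) (hAB : Disjoint A B) :
    ∃ C : ℝ, 0 < C ∧ ∀ (v : C(K, ℝ)), SubOff S A v → 0 ≤ v →
    ∀ (n : ℕ), 2 ≤ n → ∀ (T : Finset (List Dig)), (∀ w ∈ T, w.length = n) →
      (∀ w ∈ T, A ⊆ out 3 w) → (∀ w ∈ T, inn 3 w ⊆ B) → ∀ ε : ℝ,
      (∀ w ∈ T, ∃ x ∈ cell w, v x ≤ ε) →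
          ∃ m : List Dig → ℝ, (∀ w ∈ T, 0 ≤ m w) ∧ (∀ w ∈ T, ∀ x ∈ inn 1 w, v x ≤ m w) ∧
            ∑ w ∈ T, m w ≤ C * (T.card * ε + (S.ρ ^ n)⁻¹ * Real.sqrt (S.E v v)) := by
  obtain ⟨C, hC, hcont⟩ := content S
  obtain ⟨χ, hχ, hχ01, hχA, hχB⟩ := S.exists_urysohn hA hB hAB
  refine ⟨C * (1 + Real.sqrt (S.E χ χ)), by positivity, ?_⟩
  intro v hv hv0 n hn T hT hTA hTB ε hε
  obtain ⟨m, hm, hsum⟩ := hcont A v hv hv0 n hn T hT hTA ε hε χ hχ (fun x => (hχ01 x).1)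
    (fun w hw x hx => (hχB x (hTB w hw hx)).ge) hχA
  refine ⟨m, ?_, hm, hsum.trans ?_⟩
  · intro w hw
    have h1 : Fw w c00 ∈ inn 1 w :=
      cell_subset_inn rfl (near_refl (by norm_num) w) ⟨c00, rfl⟩
    exact (hv0 (Fw w c00)).trans (hm w hw _ h1)
  · have h1 : (0 : ℝ) ≤ T.card * ε := by
      rcases T.eq_empty_or_nonempty with h | ⟨w, hw⟩
      · simp [h]
      · obtain ⟨x, _, hx⟩ := hε w hw
        have h2 : 0 ≤ v x := hv0 x
        have : 0 ≤ ε := h2.trans hx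
        positivity
    have h2 : (0 : ℝ) ≤ (S.ρ ^ n)⁻¹ * Real.sqrt (S.E v v) := by
      have := S.ρ_pos
      positivity
    have h3 := Real.sqrt_nonneg (S.E χ χ)
    rw [mul_assoc C (1 + _)]
    apply mul_le_mul_of_nonneg_left _ hC.le
    nlinarith [mul_nonneg h3 h1]

/-- The region `[2/9, 7/9] × [0, 1/9]` near the bottom side. -/
def RegM : Set K := {x | 2 / 9 ≤ x.1.1 ∧ x.1.1 ≤ 7 / 9 ∧ x.1.2 ≤ 1 / 9}

/-- The larger region. -/
def f5b_B : Set K := {x | 1 / 9 ≤ x.1.1 ∧ x.1.1 ≤ 8 / 9 ∧ x.1.2 ≤ 2 / 9}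

theorem f5b_closed_B : IsClosed f5b_B := by
  have c1 : Continuous fun x : K => x.1.1 := by fun_prop
  have c2 : Continuous fun x : K => x.1.2 := by fun_prop
  exact (isClosed_le continuous_const c1).inter
    ((isClosed_le c1 continuous_const).inter (isClosed_le c2 continuous_const))

theorem f5b_disj_B : Disjoint Lam f5b_B := by
  rw [Set.disjoint_left]
  rintro x ((hx | hx) | hx) ⟨h1, h2, h3⟩
  · change x.1.1 = 0 at hx
    linarith
  · change x.1.2 = 1 at hx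
    linarith
  · change x.1.1 = 1 at hx
    linarith

theorem f5b_closed_Lam : IsClosed Lam :=
  (f5b_closed_left.union f5b_closed_top).union f5b_closed_right

theorem f5b_geom {n : ℕ} (hn : 4 ≤ n) {w : List Dig} (hw : w.length = n) {x : K}
    (hx : x ∈ cell w) (hR : x ∈ RegM) : Lam ⊆ out 3 w ∧ inn 3 w ⊆ f5b_B := by
  obtain ⟨a1, a2, a3, a4⟩ := mem_cell_coord hx
  obtain ⟨r1, r2, r3⟩ := hR
  have hp : (81 : ℝ) ≤ 3 ^ w.length := by
    have : (3 : ℝ) ^ 4 ≤ 3 ^ w.length := pow_le_pow_right₀ (by norm_num) (by omega)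
    norm_num at this ⊢
    exact this
  set P : ℝ := 3 ^ w.length with hP
  have hPz : ((3 ^ w.length : ℤ) : ℝ) = P := by
    rw [hP]
    push_cast
    rfl
  have b1 : 2 / 9 * P ≤ P * x.1.1 := by nlinarith
  have b2 : P * x.1.1 ≤ 7 / 9 * P := by nlinarith
  have b3 : P * x.1.2 ≤ 1 / 9 * P := by nlinarith
  constructor
  · rintro y ((hy | hy) | hy)
    · refine left_subset_out ?_ hy
      have : ((3 : ℤ) : ℝ) < ((pos w).1 : ℝ) := by
        push_cast
        linarith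
      exact_mod_cast this
    · refine top_subset_out ?_ hy
      have : (((pos w).2 + 3 + 1 : ℤ) : ℝ) < ((3 ^ w.length : ℤ) : ℝ) := by
        rw [hPz]
        push_cast
        linarith
      exact_mod_cast this
    · refine right_subset_out ?_ hy
      have : (((pos w).1 + 3 + 1 : ℤ) : ℝ) < ((3 ^ w.length : ℤ) : ℝ) := by
        rw [hPz]
        push_cast
        linarith
      exact_mod_cast this
  · rintro y ⟨s, hs, hn, hy⟩
    obtain ⟨c1, c2, c3, c4⟩ := mem_cell_coord hy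
    rw [hs, ← hP] at c1 c2 c3 c4
    obtain ⟨n1, n2⟩ := hn
    rw [abs_le] at n1 n2
    have m1 : ((-3 : ℤ) : ℝ) ≤ (((pos s).1 - (pos w).1 : ℤ) : ℝ) := by exact_mod_cast n1.1
    have m2 : (((pos s).1 - (pos w).1 : ℤ) : ℝ) ≤ ((3 : ℤ) : ℝ) := by exact_mod_cast n1.2
    have m3 : (((pos s).2 - (pos w).2 : ℤ) : ℝ) ≤ ((3 : ℤ) : ℝ) := by exact_mod_cast n2.2
    push_cast at m1 m2 m3
    have hPpos : 0 < P := by linarith
    refine ⟨?_, ?_, ?_⟩
    · have : P * (1 / 9) ≤ P * y.1.1 := by linarith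
      exact le_of_mul_le_mul_left this hPpos
    · have : P * y.1.1 ≤ P * (8 / 9) := by linarith
      exact le_of_mul_le_mul_left this hPpos
    · have : P * y.1.2 ≤ P * (2 / 9) := by linarith
      exact le_of_mul_le_mul_left this hPpos

/-- Content estimate for level sets of functions harmonic off `Lam`, in the region `RegM`:
apply `content` to `|h - t|` and `cacc_harm`; `χ` from `exists_urysohn` with `A = Lam` and
`B = [1/9, 8/9] × [0, 2/9]`. -/
theorem content_level : ∃ C : ℝ, 0 < C ∧ ∀ (h : C(K, ℝ)), HarmOff S Lam h → ∀ (n : ℕ), 4 ≤ n →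
    ∀ (T : Finset (List Dig)), (∀ w ∈ T, w.length = n) → (∀ w ∈ T, ∃ x ∈ cell w, x ∈ RegM) →
      ∀ t ε : ℝ, (∀ w ∈ T, ∃ x ∈ cell w, |h x - t| ≤ ε) →
        ∑ w ∈ T, Real.sqrt (S.en h w) ≤
          C * (T.card * ε + (S.ρ ^ n)⁻¹ * Real.sqrt (S.E h h)) := by
  obtain ⟨C, hC, hgen⟩ := f5b_gen S f5b_closed_Lam f5b_closed_B f5b_disj_B
  obtain ⟨C', hC', hcacc⟩ := cacc_harm S
  refine ⟨Real.sqrt C' * C, by positivity, ?_⟩
  intro h hh n hn T hT hR t ε hε
  have hgeo : ∀ w ∈ T, Lam ⊆ out 3 w ∧ inn 3 w ⊆ f5b_B := fun w hw => by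
    obtain ⟨x, hx, hxR⟩ := hR w hw
    exact f5b_geom hn (hT w hw) hx hxR
  set v : C(K, ℝ) := |h - ContinuousMap.const K t| with hv
  have hvx : ∀ x, v x = |h x - t| := fun x => rfl
  obtain ⟨m, hm0, hm, hsum⟩ := hgen v (hh.abs_sub t) (fun x => abs_nonneg _) n (by omega) T hT
    (fun w hw => (hgeo w hw).1) (fun w hw => (hgeo w hw).2) ε hε
  have hEv : S.E v v ≤ S.E h h := by
    have h1 := S.E_sub_const t hh.1
    have h2 := S.E_abs_self_le h1.1
    rw [h1.2] at h2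
    exact h2
  have h1 : ∑ w ∈ T, Real.sqrt (S.en h w) ≤ ∑ w ∈ T, Real.sqrt C' * m w := by
    refine Finset.sum_le_sum fun w hw => ?_
    have h2 := hcacc w h t (m w)
      (hh.mono ((hgeo w hw).1.trans (out_anti (by norm_num) w))) (fun x hx => hm w hw x hx)
    calc Real.sqrt (S.en h w) ≤ Real.sqrt (C' * m w ^ 2) := Real.sqrt_le_sqrt h2
      _ = Real.sqrt C' * m w := by
        rw [Real.sqrt_mul hC'.le, Real.sqrt_sq (hm0 w hw)]
  rw [← Finset.mul_sum] at h1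
  refine h1.trans ?_
  rw [mul_assoc]
  refine mul_le_mul_of_nonneg_left (hsum.trans ?_) (Real.sqrt_nonneg _)
  refine mul_le_mul_of_nonneg_left ?_ hC.le
  have := S.ρ_pos
  have h3 := Real.sqrt_le_sqrt hEv
  gcongr

/-- The sign parts of a function vanishing on the cells. -/
theorem f5b_parts {C' : ℝ} (hC' : 0 < C')
    (hcacc : ∀ (w : List Dig) (v : C(K, ℝ)) (M : ℝ),
      SubOff S (out 1 w) v → (∀ x ∈ inn 1 w, 0 ≤ v x ∧ v x ≤ M) → S.en v w ≤ C' * M ^ 2)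
    {A : Set K} {u : C(K, ℝ)} (h1 : SubOff S A (u ⊔ 0)) (h2 : SubOff S A ((-u) ⊔ 0))
    (hu : u ∈ S.dom) {w : List Dig} (hA : A ⊆ out 1 w) {M : ℝ} (hM : 0 ≤ M)
    (hb : ∀ x ∈ inn 1 w, |u| x ≤ M) : Real.sqrt (S.en u w) ≤ 2 * Real.sqrt C' * M := by
  have e1 : S.en (u ⊔ 0) w ≤ C' * M ^ 2 := by
    refine hcacc w _ M (h1.mono hA) fun x hx => ?_
    have h3 : |u x| ≤ M := hb x hx
    change 0 ≤ max (u x) 0 ∧ max (u x) 0 ≤ M
    exact ⟨le_max_right _ _, max_le ((le_abs_self _).trans h3) hM⟩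
  have e2 : S.en ((-u) ⊔ 0) w ≤ C' * M ^ 2 := by
    refine hcacc w _ M (h2.mono hA) fun x hx => ?_
    have h3 : |u x| ≤ M := hb x hx
    change 0 ≤ max (-u x) 0 ∧ max (-u x) 0 ≤ M
    exact ⟨le_max_right _ _, max_le ((neg_le_abs _).trans h3) hM⟩
  have e3 : u.comp (Fw w) = (u ⊔ 0).comp (Fw w) - ((-u) ⊔ 0).comp (Fw w) := by
    conv_lhs => rw [CarForm.eq_pos_sub u]
    rfl
  have e4 : Real.sqrt (S.en u w) ≤ Real.sqrt (S.en (u ⊔ 0) w) +
      Real.sqrt (S.en ((-u) ⊔ 0) w) := by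
    have := S.sqrt_E_sub_le (S.comp_Fw_mem w (S.pos_mem hu))
      (S.comp_Fw_mem w (S.pos_mem (S.dom.neg_mem hu)))
    rw [← e3] at this
    exact this
  have e5 : ∀ y, y ≤ C' * M ^ 2 → Real.sqrt y ≤ Real.sqrt C' * M := by
    intro y hy
    calc Real.sqrt y ≤ Real.sqrt (C' * M ^ 2) := Real.sqrt_le_sqrt hy
      _ = Real.sqrt C' * M := by rw [Real.sqrt_mul hC'.le, Real.sqrt_sq hM]
  have e6 := e5 _ e1
  have e7 := e5 _ e2
  linarith

/-- Common part of `content_bot` and `content_left`. -/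
theorem f5b_zero {A B D : Set K} (hA : IsClosed A) (hB : IsClosed B) (hAB : Disjoint A B) :
    ∃ C : ℝ, 0 < C ∧ ∀ (u : C(K, ℝ)), HarmOff S (A ∪ D) u → ZeroOn D u →
    ∀ (n : ℕ), 2 ≤ n → ∀ (T : Finset (List Dig)), (∀ w ∈ T, w.length = n) →
      (∀ w ∈ T, A ⊆ out 3 w) → (∀ w ∈ T, inn 3 w ⊆ B) →
      (∀ w ∈ T, ∃ x ∈ cell w, x ∈ D) →
        ∑ w ∈ T, Real.sqrt (S.en u w) ≤ C * ((S.ρ ^ n)⁻¹ * Real.sqrt (S.E u u)) := by
  obtain ⟨C, hC, hgen⟩ := f5b_gen S hA hB hAB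
  obtain ⟨C', hC', hcacc⟩ := cacc_sub S
  refine ⟨2 * Real.sqrt C' * C, by positivity, ?_⟩
  intro u hu hD n hn T hT hTA hTB hTD
  obtain ⟨m, hm0, hm, hsum⟩ := hgen |u| (hu.abs_subOff hD) (fun x => abs_nonneg _) n hn T hT
    hTA hTB 0 (fun w hw => by
      obtain ⟨x, hx, hxD⟩ := hTD w hw
      refine ⟨x, hx, ?_⟩
      change |u x| ≤ 0
      rw [hD x hxD, abs_zero])
  have p1 : SubOff S A (u ⊔ 0) := hu.sub'.pos_subOff hD
  have p2 : SubOff S A ((-u) ⊔ 0) := hu.neg.sub'.pos_subOff fun x hx => by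
    rw [ContinuousMap.neg_apply, hD x hx, neg_zero]
  have h1 : ∑ w ∈ T, Real.sqrt (S.en u w) ≤ ∑ w ∈ T, 2 * Real.sqrt C' * m w := by
    refine Finset.sum_le_sum fun w hw => ?_
    exact f5b_parts S hC' hcacc p1 p2 hu.1 ((hTA w hw).trans (out_anti (by norm_num) w))
      (hm0 w hw) (hm w hw)
  rw [← Finset.mul_sum] at h1
  refine h1.trans ?_
  rw [mul_assoc (2 * Real.sqrt C') C]
  refine mul_le_mul_of_nonneg_left (hsum.trans ?_) (by positivity)
  refine mul_le_mul_of_nonneg_left ?_ hC.le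
  rw [mul_zero, zero_add]
  have := S.ρ_pos
  have h3 := Real.sqrt_le_sqrt (S.E_abs_self_le hu.1)
  gcongr

/-- Content estimate for functions vanishing on the bottom side, along the bottom side:
`o` harmonic off `V0`, zero on `bot`; `o⁺`, `o⁻` are subharmonic off `Lam` (`SubOff.pos_subOff`), use
`content` for `|o|` and `cacc_sub` for `o⁺`, `o⁻`. -/
theorem content_bot : ∃ C : ℝ, 0 < C ∧ ∀ (o : C(K, ℝ)), HarmOff S V0 o → ZeroOn bot o →
    ∀ (n : ℕ), 4 ≤ n → ∀ (T : Finset (List Dig)), (∀ w ∈ T, w.length = n) →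
      (∀ w ∈ T, ∃ x ∈ cell w, x ∈ RegM ∧ x ∈ bot) →
        ∑ w ∈ T, Real.sqrt (S.en o w) ≤ C * ((S.ρ ^ n)⁻¹ * Real.sqrt (S.E o o)) := by
  obtain ⟨C, hC, hz⟩ := f5b_zero S (D := bot) f5b_closed_Lam f5b_closed_B f5b_disj_B
  refine ⟨C, hC, ?_⟩
  intro o ho hb n hn T hT hR
  have hV : V0 = Lam ∪ bot := by
    ext x
    simp only [V0, Lam, Set.mem_union]
    tauto
  have hgeo : ∀ w ∈ T, Lam ⊆ out 3 w ∧ inn 3 w ⊆ f5b_B := fun w hw => by
    obtain ⟨x, hx, hxR, _⟩ := hR w hw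
    exact f5b_geom hn (hT w hw) hx hxR
  rw [hV] at ho
  exact hz o ho hb n (by omega) T hT (fun w hw => (hgeo w hw).1) (fun w hw => (hgeo w hw).2)
    (fun w hw => by
      obtain ⟨x, hx, _, hxb⟩ := hR w hw
      exact ⟨x, hx, hxb⟩)

/-- The lower third of the left side. -/
def RegL : Set K := {x | x.1.1 = 0 ∧ x.1.2 ≤ 1 / 3}

/-- The larger region for the left side. -/
def f5b_B' : Set K := {x | x.1.1 ≤ 1 / 2 ∧ x.1.2 ≤ 1 / 2}

theorem f5b_closed_B' : IsClosed f5b_B' := by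
  have c1 : Continuous fun x : K => x.1.1 := by fun_prop
  have c2 : Continuous fun x : K => x.1.2 := by fun_prop
  exact (isClosed_le c1 continuous_const).inter (isClosed_le c2 continuous_const)

theorem f5b_disj_B' : Disjoint LamP f5b_B' := by
  rw [Set.disjoint_left]
  rintro x (hx | hx) ⟨h1, h2⟩
  · change x.1.2 = 1 at hx
    linarith
  · change x.1.1 = 1 at hx
    linarith

theorem f5b_geom' {n : ℕ} (hn : 4 ≤ n) {w : List Dig} (hw : w.length = n) {x : K}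
    (hx : x ∈ cell w) (hR : x ∈ RegL) : LamP ⊆ out 3 w ∧ inn 3 w ⊆ f5b_B' := by
  obtain ⟨a1, a2, a3, a4⟩ := mem_cell_coord hx
  obtain ⟨r1, r3⟩ := hR
  have hp : (81 : ℝ) ≤ 3 ^ w.length := by
    have : (3 : ℝ) ^ 4 ≤ 3 ^ w.length := pow_le_pow_right₀ (by norm_num) (by omega)
    norm_num at this ⊢
    exact this
  set P : ℝ := 3 ^ w.length with hP
  have hPz : ((3 ^ w.length : ℤ) : ℝ) = P := by
    rw [hP]
    push_cast
    rfl
  rw [r1, mul_zero] at a1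
  have b3 : P * x.1.2 ≤ 1 / 3 * P := by nlinarith
  constructor
  · rintro y (hy | hy)
    · refine top_subset_out ?_ hy
      have : (((pos w).2 + 3 + 1 : ℤ) : ℝ) < ((3 ^ w.length : ℤ) : ℝ) := by
        rw [hPz]
        push_cast
        linarith
      exact_mod_cast this
    · refine right_subset_out ?_ hy
      have : (((pos w).1 + 3 + 1 : ℤ) : ℝ) < ((3 ^ w.length : ℤ) : ℝ) := by
        rw [hPz]
        push_cast
        linarith
      exact_mod_cast this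
  · rintro y ⟨s, hs, hn, hy⟩
    obtain ⟨c1, c2, c3, c4⟩ := mem_cell_coord hy
    rw [hs, ← hP] at c1 c2 c3 c4
    obtain ⟨n1, n2⟩ := hn
    rw [abs_le] at n1 n2
    have m2 : (((pos s).1 - (pos w).1 : ℤ) : ℝ) ≤ ((3 : ℤ) : ℝ) := by exact_mod_cast n1.2
    have m3 : (((pos s).2 - (pos w).2 : ℤ) : ℝ) ≤ ((3 : ℤ) : ℝ) := by exact_mod_cast n2.2
    push_cast at m2 m3
    have hPpos : 0 < P := by linarith
    refine ⟨?_, ?_⟩
    · have : P * y.1.1 ≤ P * (1 / 2) := by linarith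
      exact le_of_mul_le_mul_left this hPpos
    · have : P * y.1.2 ≤ P * (1 / 2) := by linarith
      exact le_of_mul_le_mul_left this hPpos

/-- Content estimate for functions vanishing on the left side, natural on the bottom side, along the
lower third of the left side. -/
theorem content_left : ∃ C : ℝ, 0 < C ∧ ∀ (u : C(K, ℝ)), HarmOff S (LamP ∪ left) u → ZeroOn left u →
    ∀ (n : ℕ), 4 ≤ n → ∀ (T : Finset (List Dig)), (∀ w ∈ T, w.length = n) →
      (∀ w ∈ T, ∃ x ∈ cell w, x ∈ RegL) →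
        ∑ w ∈ T, Real.sqrt (S.en u w) ≤ C * ((S.ρ ^ n)⁻¹ * Real.sqrt (S.E u u)) := by
  obtain ⟨C, hC, hz⟩ := f5b_zero S (D := left) (f5b_closed_top.union f5b_closed_right)
    f5b_closed_B' f5b_disj_B'
  refine ⟨C, hC, ?_⟩
  intro u hu hl n hn T hT hR
  have hgeo : ∀ w ∈ T, LamP ⊆ out 3 w ∧ inn 3 w ⊆ f5b_B' := fun w hw => by
    obtain ⟨x, hx, hxR⟩ := hR w hw
    exact f5b_geom' hn (hT w hw) hx hxR
  exact hz u hu hl n (by omega) T hT (fun w hw => (hgeo w hw).1) (fun w hw => (hgeo w hw).2)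
    (fun w hw => by
      obtain ⟨x, hx, hxR⟩ := hR w hw
      exact ⟨x, hx, hxR.1⟩)

end Pool.Agent.Helper67.SC
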