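import Pool.Agent.Helper67.SC.P0
import Pool.Agent.Helper67.SC.F5b

/-! Module A3a: from V0 to the natural condition on the bottom side. -/

open MeasureTheory Filter Topology

noncomputable section

namespace Pool.Agent.Helper67.SC

theorem a3a_V0_flip {x : K} (hx : x ∈ V0) : flipY x ∈ V0 := by
  rcases hx with ((h | h) | h) | h
  · exact Or.inl (Or.inl (Or.inl h))
  · exact Or.inl (Or.inl (Or.inr h))
  · right
    show (1 : ℝ) - x.1.2 = 1
    have : x.1.2 = 0 := h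
    rw [this, sub_zero]
  · left; right
    show (1 : ℝ) - x.1.2 = 0
    have : x.1.2 = 1 := h
    rw [this, sub_self]

theorem a3a_comp_flip_flip (f : C(K, ℝ)) : (f.comp flipY).comp flipY = f := by
  ext x
  show f (flipY (flipY x)) = f x
  rw [flipY_flipY]

theorem a3a_E_flip {S : CarForm} {f g : C(K, ℝ)} (hf : f ∈ S.dom) (hg : g ∈ S.dom) :
    S.E (f.comp flipY) g = S.E f (g.comp flipY) := by
  rw [← S.E_flipY hf (S.flipY_mem hg), a3a_comp_flip_flip]

theorem a3a_harm_flip {S : CarForm} {f : C(K, ℝ)} (hf : HarmOff S V0 f) :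
    HarmOff S V0 (f.comp flipY) := by
  refine ⟨S.flipY_mem hf.1, fun φ hφ h0 => ?_⟩
  rw [a3a_E_flip hf.1 hφ]
  exact hf.2 _ (S.flipY_mem hφ) fun x hx => h0 _ (a3a_V0_flip hx)

theorem a3a_pre_left {w : List Dig} {x : K} (h : Fw w x ∈ left) : x ∈ left := by
  have h1 : (Fw w x).1.1 = 0 := h
  rw [Fw_apply1, div_eq_zero_iff] at h1
  have h3 : (3 : ℝ) ^ w.length ≠ 0 := by positivity
  have h2 := h1.resolve_right h3
  have h4 : (0 : ℝ) ≤ (pos w).1 := by exact_mod_cast (pos_nonneg w).1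
  have h5 := (K_bounds x).1
  show x.1.1 = 0
  linarith

theorem a3a_pre_bot {w : List Dig} {x : K} (h : Fw w x ∈ bot) : x ∈ bot := by
  have h1 : (Fw w x).1.2 = 0 := h
  rw [Fw_apply2, div_eq_zero_iff] at h1
  have h3 : (3 : ℝ) ^ w.length ≠ 0 := by positivity
  have h2 := h1.resolve_right h3
  have h4 : (0 : ℝ) ≤ (pos w).2 := by exact_mod_cast (pos_nonneg w).2
  have h5 := (K_bounds x).2.2.1
  show x.1.2 = 0
  linarith

theorem a3a_pre_right {w : List Dig} {x : K} (h : Fw w x ∈ right) : x ∈ right := by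
  have h1 : (Fw w x).1.1 = 1 := h
  have h3 : (0 : ℝ) < 3 ^ w.length := by positivity
  rw [Fw_apply1, div_eq_iff h3.ne', one_mul] at h1
  have h4 : ((pos w).1 : ℝ) + 1 ≤ 3 ^ w.length := by
    have := (pos_lt w).1
    exact_mod_cast this
  have h5 := (K_bounds x).2.1
  show x.1.1 = 1
  linarith

theorem a3a_pre_top {w : List Dig} {x : K} (h : Fw w x ∈ top) : x ∈ top := by
  have h1 : (Fw w x).1.2 = 1 := h
  have h3 : (0 : ℝ) < 3 ^ w.length := by positivity
  rw [Fw_apply2, div_eq_iff h3.ne', one_mul] at h1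
  have h4 : ((pos w).2 : ℝ) + 1 ≤ 3 ^ w.length := by
    have := (pos_lt w).2
    exact_mod_cast this
  have h5 := (K_bounds x).2.2.2
  show x.1.2 = 1
  linarith

theorem a3a_pre_V0 (w : List Dig) : Fw w ⁻¹' V0 ⊆ V0 := by
  rintro x (((h | h) | h) | h)
  · exact Or.inl (Or.inl (Or.inl (a3a_pre_left h)))
  · exact Or.inl (Or.inl (Or.inr (a3a_pre_right h)))
  · exact Or.inl (Or.inr (a3a_pre_bot h))
  · exact Or.inr (a3a_pre_top h)

theorem a3a_pre_Lam (w : List Dig) : Fw w ⁻¹' Lam ⊆ Lam := by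
  rintro x ((h | h) | h)
  · exact Or.inl (Or.inl (a3a_pre_left h))
  · exact Or.inl (Or.inr (a3a_pre_top h))
  · exact Or.inr (a3a_pre_right h)

/-- The even part is natural on the bottom side. -/
theorem a3a_even {S : CarForm} {h : C(K, ℝ)} (hh : HarmOff S V0 h) :
    HarmOff S Lam (h.comp (F (dg 0 1)) + (h.comp (F (dg 0 0))).comp flipY) := by
  have hd := fun d => (S.selfsim_mem h).1 hh.1 d
  refine ⟨S.dom.add_mem (hd _) (S.flipY_mem (hd _)), fun φ hφ h0 => ?_⟩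
  classical
  set g : List Dig → C(K, ℝ) := fun u => if u = [dg 0 1] then φ else
    if u = [dg 0 0] then φ.comp flipY else 0 with hg
  have h01 : ([dg 0 0] : List Dig) ≠ [dg 0 1] := by decide
  have g1 : g [dg 0 1] = φ := by rw [hg]; simp
  have g2 : g [dg 0 0] = φ.comp flipY := by
    show (if ([dg 0 0] : List Dig) = [dg 0 1] then φ else
      if ([dg 0 0] : List Dig) = [dg 0 0] then φ.comp flipY else 0) = _
    rw [if_neg h01, if_pos rfl]
  have g3 : ∀ u, u ≠ [dg 0 1] → u ≠ [dg 0 0] → g u = 0 := by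
    intro u h1 h2
    show (if u = [dg 0 1] then φ else if u = [dg 0 0] then φ.comp flipY else 0) = _
    rw [if_neg h1, if_neg h2]
  have hx0 : ∀ x : K, x.1.1 = 1 → φ x = 0 := fun x hx => h0 x (Or.inr hx)
  have hy0 : ∀ x : K, x.1.2 = 1 → φ x = 0 := fun x hx => h0 x (Or.inl (Or.inr hx))
  have other : ∀ b : Dig, [b] ≠ [dg 0 1] → [b] ≠ [dg 0 0] → 1 ≤ b.x ∨ b.y = 2 := by
    decide
  -- zero on the contact with other cells
  have keyA : ∀ b : Dig, [b] ≠ [dg 0 1] → [b] ≠ [dg 0 0] → ∀ x y : K,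
      Fw [dg 0 1] x = Fw [b] y → φ x = 0 := by
    intro b hb1 hb2 x y hxy
    have e1 : (x.1.1 + 0) / 3 = (y.1.1 + b.x) / 3 := by
      have := congrArg (fun z : K => z.1.1) hxy
      simpa [Fw, F, dg, Dig.x] using this
    have e2 : (x.1.2 + 1) / 3 = (y.1.2 + b.y) / 3 := by
      have := congrArg (fun z : K => z.1.2) hxy
      simpa [Fw, F, dg, Dig.y] using this
    have hxb := K_bounds x
    have hyb := K_bounds y
    rcases other b hb1 hb2 with hb | hb
    · have : (1 : ℝ) ≤ b.x := by exact_mod_cast hb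
      exact hx0 x (by linarith)
    · have : (b.y : ℝ) = 2 := by exact_mod_cast hb
      exact hy0 x (by linarith)
  have keyB : ∀ b : Dig, [b] ≠ [dg 0 1] → [b] ≠ [dg 0 0] → ∀ x y : K,
      Fw [dg 0 0] x = Fw [b] y → φ (flipY x) = 0 := by
    intro b hb1 hb2 x y hxy
    have e1 : (x.1.1 + 0) / 3 = (y.1.1 + b.x) / 3 := by
      have := congrArg (fun z : K => z.1.1) hxy
      simpa [Fw, F, dg, Dig.x] using this
    have e2 : (x.1.2 + 0) / 3 = (y.1.2 + b.y) / 3 := by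
      have := congrArg (fun z : K => z.1.2) hxy
      simpa [Fw, F, dg, Dig.y] using this
    have hxb := K_bounds x
    have hyb := K_bounds y
    rcases other b hb1 hb2 with hb | hb
    · have : (1 : ℝ) ≤ b.x := by exact_mod_cast hb
      refine hx0 _ ?_
      show x.1.1 = 1
      linarith
    · have : (b.y : ℝ) = 2 := by exact_mod_cast hb
      exfalso
      linarith
  have keyC : ∀ x y : K, Fw [dg 0 1] x = Fw [dg 0 0] y → φ x = φ (flipY y) := by
    intro x y hxy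
    have e1 : (x.1.1 + 0) / 3 = (y.1.1 + 0) / 3 := by
      have := congrArg (fun z : K => z.1.1) hxy
      simpa [Fw, F, dg, Dig.x] using this
    have e2 : (x.1.2 + 1) / 3 = (y.1.2 + 0) / 3 := by
      have := congrArg (fun z : K => z.1.2) hxy
      simpa [Fw, F, dg, Dig.y] using this
    have hxb := K_bounds x
    have hyb := K_bounds y
    congr 1
    apply K_ext
    · show x.1.1 = y.1.1
      linarith
    · show x.1.2 = 1 - y.1.2
      linarith
  obtain ⟨Φ, hΦ⟩ := glue 1 g (by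
    intro u v hu hv x y hxy
    obtain ⟨a, rfl⟩ := List.length_eq_one_iff.1 hu
    obtain ⟨b, rfl⟩ := List.length_eq_one_iff.1 hv
    by_cases hab : [a] = [b]
    · rw [hab] at hxy ⊢
      rw [Fw_injective _ hxy]
    by_cases ha1 : [a] = [dg 0 1]
    · rw [ha1] at hxy hab ⊢
      by_cases hb2 : [b] = [dg 0 0]
      · rw [hb2] at hxy ⊢
        rw [g1, g2]
        exact keyC x y hxy
      · rw [g1, g3 _ (Ne.symm hab) hb2]
        exact keyA b (Ne.symm hab) hb2 x y hxy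
    · by_cases ha2 : [a] = [dg 0 0]
      · rw [ha2] at hxy hab ⊢
        by_cases hb1 : [b] = [dg 0 1]
        · rw [hb1] at hxy ⊢
          rw [g1, g2]
          exact (keyC y x hxy.symm).symm
        · rw [g2, g3 _ hb1 (Ne.symm hab)]
          exact keyB b hb1 (Ne.symm hab) x y hxy
      · rw [g3 _ ha1 ha2]
        by_cases hb1 : [b] = [dg 0 1]
        · rw [hb1] at hxy ⊢
          rw [g1]
          exact (keyA a ha1 ha2 y x hxy.symm).symm
        · by_cases hb2 : [b] = [dg 0 0]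
          · rw [hb2] at hxy ⊢
            rw [g2]
            exact (keyB a ha1 ha2 y x hxy.symm).symm
          · rw [g3 _ hb1 hb2]
            rfl)
  have hgd : ∀ u, g u ∈ S.dom := by
    intro u
    show (if u = [dg 0 1] then φ else if u = [dg 0 0] then φ.comp flipY else 0) ∈ S.dom
    split_ifs
    · exact hφ
    · exact S.flipY_mem hφ
    · exact S.dom.zero_mem
  have hΦd : Φ ∈ S.dom := S.mem_of_comp_Fw 1 fun w hw => by rw [hΦ w hw]; exact hgd w
  have hΦF : ∀ d, Φ.comp (F d) = g [d] := fun d => hΦ [d] rfl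
  have hΦ0 : ZeroOn V0 Φ := by
    intro z hz
    obtain ⟨s, hs, x, rfl⟩ := exists_cell 1 z
    obtain ⟨a, rfl⟩ := List.length_eq_one_iff.1 hs
    have e1 : Φ (Fw [a] x) = g [a] x := by rw [← hΦ [a] rfl]; rfl
    rw [e1]
    have hx := a3a_pre_V0 [a] hz
    by_cases ha1 : [a] = [dg 0 1]
    · rw [ha1, g1]
      rcases hx with ((h | h) | h) | h
      · exact h0 x (Or.inl (Or.inl h))
      · exact h0 x (Or.inr h)
      · -- bottom of the cell (0,1) is not on V0 unless on the left or right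
        rw [ha1] at hz
        have hb := K_bounds x
        have hxz : x.1.2 = 0 := h
        have c1 : (Fw [dg 0 1] x).1.1 = (x.1.1 + 0) / 3 := by
          simp [Fw, F, dg, Dig.x]
        have c2 : (Fw [dg 0 1] x).1.2 = (x.1.2 + 1) / 3 := by
          simp [Fw, F, dg, Dig.y]
        rcases hz with ((h' | h') | h') | h'
        · have h'' : (Fw [dg 0 1] x).1.1 = 0 := h'
          refine h0 x (Or.inl (Or.inl ?_))
          show x.1.1 = 0
          linarith
        · have h'' : (Fw [dg 0 1] x).1.1 = 1 := h'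
          exfalso; linarith
        · have h'' : (Fw [dg 0 1] x).1.2 = 0 := h'
          exfalso; linarith
        · have h'' : (Fw [dg 0 1] x).1.2 = 1 := h'
          exfalso; linarith
      · exact h0 x (Or.inl (Or.inr h))
    · by_cases ha2 : [a] = [dg 0 0]
      · rw [ha2, g2]
        show φ (flipY x) = 0
        rw [ha2] at hz
        have hb := K_bounds x
        have c1 : (Fw [dg 0 0] x).1.1 = (x.1.1 + 0) / 3 := by
          simp [Fw, F, dg, Dig.x]
        have c2 : (Fw [dg 0 0] x).1.2 = (x.1.2 + 0) / 3 := by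
          simp [Fw, F, dg, Dig.y]
        rcases hz with ((h' | h') | h') | h'
        · have h'' : (Fw [dg 0 0] x).1.1 = 0 := h'
          refine h0 _ (Or.inl (Or.inl ?_))
          show x.1.1 = 0
          linarith
        · have h'' : (Fw [dg 0 0] x).1.1 = 1 := h'
          exfalso; linarith
        · have h'' : (Fw [dg 0 0] x).1.2 = 0 := h'
          refine h0 _ (Or.inl (Or.inr ?_))
          show 1 - x.1.2 = 1
          linarith
        · have h'' : (Fw [dg 0 0] x).1.2 = 1 := h'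
          exfalso; linarith
      · rw [g3 _ ha1 ha2]
        rfl
  have hE := hh.2 Φ hΦd hΦ0
  rw [S.E_selfsim_one hh.1 hΦd] at hE
  have hne : dg 0 1 ≠ dg 0 0 := by decide
  rw [Finset.sum_eq_add (dg 0 1) (dg 0 0) hne (fun c _ hc => by
      rw [hΦF c, g3 [c] (by simpa using hc.1) (by simpa using hc.2)]
      exact S.E_zero_right (hd c)) (by simp) (by simp)] at hE
  rw [hΦF, hΦF, g1, g2, ← a3a_E_flip (hd _) hφ] at hE
  have hρ := S.ρ_pos
  rw [S.E_add _ (hd _) _ (S.flipY_mem (hd _)) φ hφ]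
  exact (mul_eq_zero.1 hE).resolve_left hρ.ne'

theorem a3a_good (n : ℕ) : Good n 0 := by
  induction n with
  | zero => rfl
  | succ n ih => exact ⟨0, Or.inl rfl, ih⟩

/-- The words of level `n` along the middle third of the bottom side. -/
def a3aT (n : ℕ) : Finset (List Dig) := by
  classical exact (words n).filter (fun w => (pos w).2 = 0 ∧ (3 : ℤ) ^ (n - 1) ≤ (pos w).1 ∧
    (pos w).1 < 2 * 3 ^ (n - 1))

theorem a3a_mem {n : ℕ} {w : List Dig} : w ∈ a3aT n ↔ w.length = n ∧ (pos w).2 = 0 ∧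
    (3 : ℤ) ^ (n - 1) ≤ (pos w).1 ∧ (pos w).1 < 2 * 3 ^ (n - 1) := by
  unfold a3aT
  rw [Finset.mem_filter, mem_words]

theorem a3a_exists (n : ℕ) (hn : 1 ≤ n) (i : ℤ) (h1 : (3 : ℤ) ^ (n - 1) ≤ i)
    (h2 : i < 2 * 3 ^ (n - 1)) : ∃ w ∈ a3aT n, pos w = (i, 0) := by
  have h3 : (0 : ℤ) < 3 ^ (n - 1) := by positivity
  have h4 : (3 : ℤ) ^ n = 3 * 3 ^ (n - 1) := by
    obtain ⟨m, rfl⟩ : ∃ m, n = m + 1 := ⟨n - 1, by omega⟩
    rw [pow_succ, Nat.add_sub_cancel]
    ring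
  obtain ⟨w, hw, hp⟩ := exists_word_row (n := n) (i := i) (j := 0) (by linarith)
    (by rw [h4]; linarith) (a3a_good n)
  refine ⟨w, a3a_mem.2 ⟨hw, ?_, ?_, ?_⟩, hp⟩ <;> rw [hp]
  · exact h1
  · exact h2

theorem a3a_row {C : ℝ} {δ : List Dig → ℝ} (hW : Wt C δ) (n : ℕ) (hn : 1 ≤ n) (d : Dig) :
    δ [d] ≤ C * ∑ w ∈ a3aT n, δ (d :: w) := by
  classical
  have h3 : (0 : ℤ) < 3 ^ (n - 1) := by positivity
  have hlink : ∀ k : ℕ, (3 : ℤ) ^ (n - 1) + k < 2 * 3 ^ (n - 1) → ∀ s t : List Dig,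
      s ∈ a3aT n → t ∈ a3aT n → pos s = ((3 : ℤ) ^ (n - 1), 0) → pos t = ((3 : ℤ) ^ (n - 1) + k, 0) →
      Linked (↑((a3aT n).image (fun w => d :: w))) (d :: s) (d :: t) := by
    intro k
    induction k with
    | zero =>
      intro _ s t hs ht hps hpt
      have : s = t := pos_inj ((a3a_mem.1 hs).1.trans (a3a_mem.1 ht).1.symm) (by
        rw [hps, hpt]; simp)
      rw [this]
      exact Relation.ReflTransGen.refl
    | succ k ih =>
      intro hk s t hs ht hps hpt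
      push_cast at hk hpt
      obtain ⟨u, hu, hpu⟩ := a3a_exists n hn (3 ^ (n - 1) + k) (by linarith) (by linarith)
      refine Relation.ReflTransGen.tail (ih (by linarith) s u hs hu hps hpu) ⟨?_, ?_⟩
      · exact Finset.mem_coe.2 (Finset.mem_image_of_mem _ ht)
      · refine (near_append_left [d] u t ((a3a_mem.1 hu).1.trans (a3a_mem.1 ht).1.symm)).2 ?_
        unfold near
        rw [hpu, hpt]
        constructor
        · rw [abs_le]
          constructor <;> simp only <;> linarith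
        · simp
  obtain ⟨s, hs, hps⟩ := a3a_exists n hn (3 ^ (n - 1)) le_rfl (by linarith)
  obtain ⟨t, ht, hpt⟩ := a3a_exists n hn (3 ^ (n - 1) + ((3 ^ (n - 1) - 1 : ℕ) : ℤ))
    (le_add_of_nonneg_right (Int.natCast_nonneg _)) (by
    rw [Nat.cast_sub (Nat.one_le_pow _ _ (by norm_num))]
    push_cast
    linarith)
  have hl := hlink (3 ^ (n - 1) - 1) (by
    rw [Nat.cast_sub (Nat.one_le_pow _ _ (by norm_num))]
    push_cast
    linarith) s t hs ht hps hpt
  have hns := (a3a_mem.1 hs).1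
  have hnt := (a3a_mem.1 ht).1
  have key := hW.chain [d] (n + 1) ((a3aT n).image (fun w => d :: w)) (by
    intro u hu
    obtain ⟨w, hw, rfl⟩ := Finset.mem_image.1 hu
    simp [(a3a_mem.1 hw).1]) (by simp) (d :: s) (Finset.mem_image_of_mem _ hs) (d :: t) hl
    (Fw (d :: s) c00) ⟨c00, rfl⟩ (Fw (d :: t) c10) ⟨c10, rfl⟩
    (cell_append_subset [d] s ⟨c00, rfl⟩) (by
      rw [dist_eq]
      refine le_trans ?_ (le_max_left _ _)
      have e1 : (Fw (d :: s) c00).1.1 = (((3 : ℝ) ^ (n - 1) + 0) / 3 ^ n + d.x) / 3 := by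
        change ((Fw s c00).1.1 + d.x) / 3 = _
        rw [Fw_apply1, hps, hns]
        push_cast
        rfl
      have e2 : (Fw (d :: t) c10).1.1 = ((2 * (3 : ℝ) ^ (n - 1)) / 3 ^ n + d.x) / 3 := by
        change ((Fw t c10).1.1 + d.x) / 3 = _
        rw [Fw_apply1, hpt, hnt]
        have : (c10 : K).1.1 = 1 := rfl
        rw [this, Nat.cast_sub (Nat.one_le_pow _ _ (by norm_num))]
        push_cast
        congr 2
        ring
      have e3 : (3 : ℝ) ^ n = 3 * 3 ^ (n - 1) := by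
        obtain ⟨m, rfl⟩ : ∃ m, n = m + 1 := ⟨n - 1, by omega⟩
        rw [pow_succ, Nat.add_sub_cancel]
        ring
      have e4 : (0 : ℝ) < 3 ^ (n - 1) := by positivity
      have e5 : (Fw (d :: s) c00).1.1 - (Fw (d :: t) c10).1.1 = - (1 / 9) := by
        rw [e1, e2, e3]
        field_simp
        ring
      rw [e5, abs_neg, abs_of_pos (by norm_num)]
      norm_num)
  rw [Finset.sum_image (by
    intro a _ b _ hab
    simpa using hab)] at key
  exact key

theorem a3a_pow (ρ : ℝ) (hρ : 1 < ρ) {ε : ℝ} (hε : 0 < ε) : ∃ n : ℕ, 4 ≤ n ∧ (ρ ^ n)⁻¹ ≤ ε := by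
  have h0 : 0 < ρ := by linarith
  obtain ⟨n, hn⟩ := exists_pow_lt_of_lt_one hε (inv_lt_one_of_one_lt₀ hρ)
  refine ⟨max n 4, le_max_right _ _, ?_⟩
  rw [← inv_pow]
  refine (pow_le_pow_of_le_one (inv_nonneg.2 h0.le) (inv_lt_one_of_one_lt₀ hρ).le
    (le_max_left n 4)).trans hn.le

/-- From `V0` to the natural condition on the bottom side. -/
theorem exists_comp_bot (S : CarForm)
    (H : ∃ C : ℝ, 1 ≤ C ∧ ∀ m : ℕ, ∃ h δ, HarmOff S V0 h ∧ Wt C δ ∧ CompTo S m C δ h) :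
    ∃ C : ℝ, 1 ≤ C ∧ ∀ m : ℕ, ∃ h δ, HarmOff S Lam h ∧ Wt C δ ∧ CompTo S m C δ h := by
  obtain ⟨C, hC, H⟩ := H
  obtain ⟨C', hC', hcon⟩ := content_bot S
  have hC0 : 0 < C := by linarith
  refine ⟨2 * C, by linarith, fun m => ?_⟩
  -- the final smallness
  set K₁ : ℝ := C' * (C * (1 + C)) * C with hK₁
  have hK₁0 : 0 < K₁ := by positivity
  obtain ⟨n, hn4, hn⟩ := a3a_pow S.ρ (one_lt_rho S) (ε := 1 / (K₁ * C ^ m * C)) (by positivity)
  obtain ⟨h, δ, hh, hW, hcomp⟩ := H (1 + n + m)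
  have hδ := hW.pos
  set hp : C(K, ℝ) := h.comp (F (dg 0 1)) with hhp
  set hm : C(K, ℝ) := (h.comp (F (dg 0 0))).comp flipY with hhm
  have hd := fun d => (S.selfsim_mem h).1 hh.1 d
  have hpd : hp ∈ S.dom := hd _
  have hmd : hm ∈ S.dom := S.flipY_mem (hd _)
  have hph : HarmOff S V0 hp :=
    hh.restrict [dg 0 1] (Bd_subset_V0 _) (a3a_pre_V0 _)
  have hmh : HarmOff S V0 hm :=
    a3a_harm_flip (hh.restrict [dg 0 0] (Bd_subset_V0 _) (a3a_pre_V0 _))
  set o : C(K, ℝ) := hp - hm with ho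
  have hod : o ∈ S.dom := S.dom.sub_mem hpd hmd
  have hoh : HarmOff S V0 o := hph.sub hmh
  have ho0 : ZeroOn bot o := by
    intro x hx
    have hx' : x.1.2 = 0 := hx
    show h (F (dg 0 1) x) - h (F (dg 0 0) (flipY x)) = 0
    have : F (dg 0 1) x = F (dg 0 0) (flipY x) := by
      apply K_ext
      · rfl
      · rw [F_apply2, F_apply2]
        show (x.1.2 + ((dg 0 1).y : ℝ)) / 3 = (1 - x.1.2 + ((dg 0 0).y : ℝ)) / 3
        rw [hx']
        simp [dg, Dig.y]
    rw [this, sub_self]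
  set e : C(K, ℝ) := (1 / 2 : ℝ) • (hp + hm) with he
  have heh : HarmOff S Lam e := (a3a_even hh).smul (1 / 2)
  have hed : e ∈ S.dom := heh.1
  -- energy of o
  have hlen : ∀ d : Dig, ([d] : List Dig).length ≤ 1 + n + m := fun d => by simp; omega
  have hEp : Real.sqrt (S.E hp hp) ≤ C * δ [dg 0 1] := (hcomp [dg 0 1] (hlen _)).2
  have hEm : Real.sqrt (S.E hm hm) ≤ C * (C * δ [dg 0 1]) := by
    have e1 : S.E hm hm = S.en h [dg 0 0] := S.E_flipY (hd _) (hd _)
    rw [e1]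
    refine (hcomp [dg 0 0] (hlen _)).2.trans (mul_le_mul_of_nonneg_left ?_ hC0.le)
    exact hW.touch [dg 0 0] [dg 0 1] rfl (by unfold near; simp [pos, dg, Dig.x, Dig.y])
  have hEo : Real.sqrt (S.E o o) ≤ C * (1 + C) * δ [dg 0 1] := by
    refine (S.sqrt_E_sub_le hpd hmd).trans ?_
    have : C * (1 + C) * δ [dg 0 1] = C * δ [dg 0 1] + C * (C * δ [dg 0 1]) := by ring
    rw [this]
    exact add_le_add hEp hEm
  have hρn : 0 < S.ρ ^ n := pow_pos S.ρ_pos _
  -- the row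
  have hrow := a3a_row hW n (by omega) (dg 0 1)
  have hsum : ∑ w ∈ a3aT n, Real.sqrt (S.en o w) ≤
      ∑ w ∈ a3aT n, K₁ * (S.ρ ^ n)⁻¹ * δ (dg 0 1 :: w) := by
    have h1 := hcon o hoh ho0 n hn4 (a3aT n) (fun w hw => (a3a_mem.1 hw).1) (by
      intro w hw
      obtain ⟨hw1, hw2, hw3, hw4⟩ := a3a_mem.1 hw
      have e3 : (3 : ℝ) ^ n = 3 * 3 ^ (n - 1) := by
        obtain ⟨m, rfl⟩ : ∃ m, n = m + 1 := ⟨n - 1, by omega⟩
        rw [pow_succ, Nat.add_sub_cancel]
        ring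
      have e4 : (0 : ℝ) < 3 ^ (n - 1) := by positivity
      have e5 : (Fw w c00).1.1 = (pos w).1 / (3 * 3 ^ (n - 1)) := by
        rw [Fw_apply1, hw1, e3]
        show ((pos w).1 + (0 : ℝ)) / _ = _
        rw [add_zero]
      have e6 : (Fw w c00).1.2 = 0 := by
        rw [Fw_apply2, hw2]
        show (((0 : ℤ) : ℝ) + (0 : ℝ)) / _ = _
        simp
      have e7 : (3 : ℝ) ^ (n - 1) ≤ (pos w).1 := by exact_mod_cast hw3
      have e8 : ((pos w).1 : ℝ) < 2 * 3 ^ (n - 1) := by exact_mod_cast hw4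
      refine ⟨Fw w c00, ⟨c00, rfl⟩, ⟨?_, ?_, ?_⟩, e6⟩
      · rw [e5, le_div_iff₀ (by positivity)]
        linarith
      · rw [e5, div_le_iff₀ (by positivity)]
        linarith
      · rw [e6]
        norm_num)
    refine h1.trans ?_
    rw [← Finset.mul_sum]
    calc C' * ((S.ρ ^ n)⁻¹ * Real.sqrt (S.E o o))
        ≤ C' * ((S.ρ ^ n)⁻¹ * (C * (1 + C) * (C * ∑ w ∈ a3aT n, δ (dg 0 1 :: w)))) := by
          have : Real.sqrt (S.E o o) ≤ C * (1 + C) * (C * ∑ w ∈ a3aT n, δ (dg 0 1 :: w)) :=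
            hEo.trans (mul_le_mul_of_nonneg_left hrow (by positivity))
          gcongr
      _ = K₁ * (S.ρ ^ n)⁻¹ * ∑ w ∈ a3aT n, δ (dg 0 1 :: w) := by
          rw [hK₁]; ring
  obtain ⟨w₀, hw₀, -⟩ := a3a_exists n (by omega) (3 ^ (n - 1)) le_rfl (by
    have : (0 : ℤ) < 3 ^ (n - 1) := by positivity
    linarith)
  obtain ⟨w, hw, hwo⟩ := Finset.exists_le_of_sum_le ⟨w₀, hw₀⟩ hsum
  obtain ⟨hwl, hw2, -, -⟩ := a3a_mem.1 hw
  have hW' : Wt C (fun v => 1 * δ ((dg 0 1 :: w) ++ v)) := hW.shift (dg 0 1 :: w) one_pos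
  refine ⟨e.comp (Fw w), fun v => 1 * δ ((dg 0 1 :: w) ++ v),
    heh.restrict w (Bd_subset_Lam hw2) (a3a_pre_Lam w), hW'.mono (by linarith), fun v hv => ?_⟩
  rw [S.en_comp]
  simp only [one_mul]
  -- sizes on the cell w ++ v
  have hone : (1 : ℝ) ≤ C ^ m := one_le_pow₀ hC
  have hsz : δ (dg 0 1 :: w) ≤ C ^ m * δ ((dg 0 1 :: w) ++ v) := by
    refine (hW.le_append hC (dg 0 1 :: w) v).1.trans ?_
    exact mul_le_mul_of_nonneg_right (pow_le_pow_right₀ hC hv) (hδ _).le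
  have ho1 : Real.sqrt (S.en o (w ++ v)) ≤ 1 / C * δ ((dg 0 1 :: w) ++ v) := by
    refine (Real.sqrt_le_sqrt (en_append_le_en S hod w v)).trans (hwo.trans ?_)
    calc K₁ * (S.ρ ^ n)⁻¹ * δ (dg 0 1 :: w)
        ≤ K₁ * (1 / (K₁ * C ^ m * C)) * (C ^ m * δ ((dg 0 1 :: w) ++ v)) := by
          have := (hδ (dg 0 1 :: w)).le
          gcongr
      _ = 1 / C * δ ((dg 0 1 :: w) ++ v) := by
          field_simp
  have hcp := hcomp ((dg 0 1 :: w) ++ v) (by simp [hwl]; omega)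
  have hEn : S.en h ((dg 0 1 :: w) ++ v) = S.en hp (w ++ v) := by
    rw [hhp]
    exact (S.en_comp h [dg 0 1] (w ++ v)).symm
  rw [hEn] at hcp
  have hpc := S.comp_Fw_mem (w ++ v) hpd
  have hoc := S.comp_Fw_mem (w ++ v) (S.dom.smul_mem (1 / 2 : ℝ) hod)
  have hec := S.comp_Fw_mem (w ++ v) hed
  have e1 : e.comp (Fw (w ++ v)) = hp.comp (Fw (w ++ v)) - ((1 / 2 : ℝ) • o).comp (Fw (w ++ v)) := by
    ext x
    show (1 / 2 : ℝ) * (hp (Fw (w ++ v) x) + hm (Fw (w ++ v) x)) = hp (Fw (w ++ v) x) -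
      (1 / 2 : ℝ) * (hp (Fw (w ++ v) x) - hm (Fw (w ++ v) x))
    ring
  have e2 : hp.comp (Fw (w ++ v)) = e.comp (Fw (w ++ v)) + ((1 / 2 : ℝ) • o).comp (Fw (w ++ v)) := by
    rw [e1]
    abel
  have e3 : Real.sqrt (S.E (((1 / 2 : ℝ) • o).comp (Fw (w ++ v)))
      (((1 / 2 : ℝ) • o).comp (Fw (w ++ v)))) ≤ 1 / 2 * (1 / C * δ ((dg 0 1 :: w) ++ v)) := by
    have : ((1 / 2 : ℝ) • o).comp (Fw (w ++ v)) = (1 / 2 : ℝ) • (o.comp (Fw (w ++ v))) := rfl
    rw [this, S.E_smul_self _ (S.comp_Fw_mem (w ++ v) hod), Real.sqrt_mul (by positivity),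
      Real.sqrt_sq (by norm_num)]
    exact mul_le_mul_of_nonneg_left ho1 (by norm_num)
  have e4 : Real.sqrt (S.en e (w ++ v)) ≤ Real.sqrt (S.en hp (w ++ v)) +
      1 / 2 * (1 / C * δ ((dg 0 1 :: w) ++ v)) := by
    refine le_trans ?_ (add_le_add le_rfl e3)
    unfold CarForm.en
    rw [e1]
    exact S.sqrt_E_sub_le hpc hoc
  have e5 : Real.sqrt (S.en hp (w ++ v)) ≤ Real.sqrt (S.en e (w ++ v)) +
      1 / 2 * (1 / C * δ ((dg 0 1 :: w) ++ v)) := by
    refine le_trans ?_ (add_le_add le_rfl e3)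
    unfold CarForm.en
    rw [e2]
    exact S.sqrt_E_add_le hec hoc
  have hδv := hδ ((dg 0 1 :: w) ++ v)
  have hCi : 1 / C * δ ((dg 0 1 :: w) ++ v) ≤ Real.sqrt (S.en hp (w ++ v)) := by
    rw [one_div, inv_mul_le_iff₀ hC0]
    exact hcp.1
  constructor
  · have h1 : 1 / C * δ ((dg 0 1 :: w) ++ v) ≤ 2 * Real.sqrt (S.en e (w ++ v)) := by linarith
    rw [one_div, inv_mul_le_iff₀ hC0] at h1
    linarith
  · have h1 : 1 / C * δ ((dg 0 1 :: w) ++ v) ≤ C * δ ((dg 0 1 :: w) ++ v) := by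
      refine mul_le_mul_of_nonneg_right ?_ hδv.le
      rw [one_div]
      exact (inv_le_one_of_one_le₀ hC).trans hC
    have h2 := hcp.2
    have h3 : 0 < C * δ ((dg 0 1 :: w) ++ v) := by positivity
    linarith

end Pool.Agent.Helper67.SC
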