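import Pool.Agent.Helper67.SC.F4a
import Pool.Agent.Helper67.SC.G2

/-! Module F4b: weak Harnack inequality, Harnack chains, decay. -/

open MeasureTheory Filter Topology

noncomputable section

namespace Pool.Agent.Helper67.SC

variable (S : CarForm)

/-- One small cell. -/
theorem f4b_small : ∃ k : ℕ, ∀ (w t : List Dig) (H : C(K, ℝ)), t.length = k →
    SupOff S (out 1 w) H → (∀ x ∈ inn 1 w, 0 ≤ H x) → ∀ x ∈ cell (w ++ t), ∀ y ∈ cell (w ++ t),
      1 / 2 * H y ≤ H x := by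
  obtain ⟨C, hC, hcacc⟩ := cacc_sup S
  obtain ⟨C', hC', hosc⟩ := osc_cell S
  have hρ := one_lt_rho S
  obtain ⟨k, hk⟩ := pow_unbounded_of_one_lt (4 * C' ^ 2 * C) hρ
  refine ⟨k, ?_⟩
  intro w t H ht hH hpos x hx y hy
  have hyw : y ∈ cell w := cell_append_subset w t hy
  have hM : 0 ≤ H y := hpos y (f4a_cell_inn (by norm_num) w hyw)
  set M := H y with hMdef
  have hG : H ⊓ ContinuousMap.const K M ∈ S.dom := S.inf_mem hH.1 (S.const_mem _)
  have h1 := hcacc w H M hM hH hpos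
  have h2 := S.en_append_le hG w t
  rw [ht] at h2
  have hρk : 0 < S.ρ ^ k := pow_pos S.ρ_pos k
  have hen := S.en_nonneg hG (w ++ t)
  set G := H ⊓ ContinuousMap.const K M with hGdef
  have h3 : 4 * C' ^ 2 * S.en G (w ++ t) ≤ M ^ 2 := by
    have h4 : S.ρ ^ k * S.en G (w ++ t) ≤ C * M ^ 2 := h2.trans h1
    have h5 : (4 * C' ^ 2 * C) * S.en G (w ++ t) ≤ S.ρ ^ k * S.en G (w ++ t) :=
      mul_le_mul_of_nonneg_right hk.le hen
    have h6 : C * (4 * C' ^ 2 * S.en G (w ++ t)) ≤ C * M ^ 2 := by linarith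
    exact le_of_mul_le_mul_left h6 hC
  have h7 := hosc G hG (w ++ t) x hx y hy
  have h8 : C' * Real.sqrt (S.en G (w ++ t)) ≤ M / 2 := by
    have h9 : (C' * Real.sqrt (S.en G (w ++ t))) ^ 2 ≤ (M / 2) ^ 2 := by
      rw [mul_pow, Real.sq_sqrt hen]
      linarith
    exact (pow_le_pow_iff_left₀ (by positivity) (by positivity) (by norm_num)).1 h9
  have hGy : G y = M := by
    show min (H y) M = M
    exact min_eq_right le_rfl
  have hGx : G x ≤ H x := by
    show min (H x) M ≤ H x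
    exact min_le_left _ _
  have h10 := (abs_le.1 (h7.trans h8)).1
  rw [hGy] at h10
  linarith

/-- Chains. -/
theorem f4b_chain {R : List Dig → List Dig → Prop} {H : K → ℝ} {c : ℝ} (hc : 0 ≤ c)
    (P : List Dig → Prop) (f : List Dig → Set K)
    (hcom : ∀ a b, P a → P b → R a b → ∃ z, z ∈ f a ∧ z ∈ f b)
    (h1 : ∀ a, P a → ∀ x ∈ f a, ∀ y ∈ f a, c * H y ≤ H x) :
    ∀ (l : List (List Dig)) (a : List Dig), P a → (∀ b ∈ l, P b) → List.IsChain R (a :: l) →
      ∀ x ∈ f a, ∀ y ∈ f ((a :: l).getLast (List.cons_ne_nil _ _)),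
        c ^ (l.length + 1) * H y ≤ H x := by
  intro l
  induction l with
  | nil =>
    intro a ha _ _ x hx y hy
    simpa using h1 a ha x hx y hy
  | cons b l ih =>
    intro a ha hl hch x hx y hy
    rw [List.isChain_cons_cons] at hch
    have hb : P b := hl b (by simp)
    obtain ⟨z, hza, hzb⟩ := hcom a b ha hb hch.1
    have h2 := ih b hb (fun b' hb' => hl b' (by simp [hb'])) hch.2 z hzb y (by simpa using hy)
    have h3 := h1 a ha x hx z hza
    rw [List.length_cons, pow_succ, mul_comm _ c, mul_assoc]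
    exact (mul_le_mul_of_nonneg_left h2 hc).trans h3

/-- E1 (weak Harnack inequality; points have positive capacity).
By `cacc_sup` with `M = H y`, `en (H ⊓ M) (w ++ t) ≤ ρ^{-k} C M²` for `|t| = k`, so by `osc_cell` for
`k` large (fixed) `H x ≥ H y / 2` for all `x, y` in the same cell `w ++ t`; chain the cells `w ++ t`
with `linked_words_len` and `exists_common`. -/
theorem weak_harnack : ∃ c : ℝ, 0 < c ∧ c < 1 ∧ ∀ (w : List Dig) (H : C(K, ℝ)),
    SupOff S (out 1 w) H → (∀ x ∈ inn 1 w, 0 ≤ H x) → ∀ x ∈ cell w, ∀ y ∈ cell w,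
      c * H y ≤ H x := by
  obtain ⟨k, hk⟩ := f4b_small S
  obtain ⟨N, hN⟩ := linked_words_len k
  refine ⟨(1 / 2) ^ (N + 1), by positivity, pow_lt_one₀ (by norm_num) (by norm_num) (by omega), ?_⟩
  intro w H hH hpos x hx y hy
  obtain ⟨u, hu, hxu⟩ := exists_cell_append w k hx
  obtain ⟨v, hv, hyv⟩ := exists_cell_append w k hy
  obtain ⟨l, hlN, hl, hch, hlast⟩ := hN u v hu hv
  have h1 := f4b_chain (H := H) (c := 1 / 2) (by norm_num) (fun a : List Dig => a.length = k)
    (fun a => cell (w ++ a)) (R := near 1)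
    (fun a b ha hb hab => exists_common (by simp [ha, hb])
      ((near_append_left w a b (ha.trans hb.symm)).2 hab))
    (fun a ha x hx y hy => hk w a H ha hH hpos x hx y hy) l u hu hl hch x hxu y
    (by rw [hlast]; exact hyv)
  have hHy : 0 ≤ H y := hpos y (f4a_cell_inn (by norm_num) w hy)
  refine le_trans (mul_le_mul_of_nonneg_right ?_ hHy) h1
  exact pow_le_pow_of_le_one (by norm_num) (by norm_num) (by omega)

/-- Harnack chains: consecutive touching words of one level. -/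
theorem harnack_chain : ∃ c : ℝ, 0 < c ∧ c < 1 ∧ ∀ (A : Set K) (H : C(K, ℝ)), SupOff S A H →
    ∀ (l : List (List Dig)) (hl : l ≠ []), (∀ s ∈ l, s.length = (l.head hl).length) →
      (∀ s ∈ l, A ⊆ out 1 s) → (∀ s ∈ l, ∀ x ∈ inn 1 s, 0 ≤ H x) → List.IsChain (near 1) l →
      ∀ x ∈ cell (l.head hl), ∀ y ∈ cell (l.getLast hl), c ^ l.length * H y ≤ H x := by
  obtain ⟨c, hc0, hc1, hc⟩ := weak_harnack S
  refine ⟨c, hc0, hc1, ?_⟩
  intro A H hH l hl hlen hA hpos hch x hx y hy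
  cases l with
  | nil => exact absurd rfl hl
  | cons a l =>
    refine f4b_chain (H := H) hc0.le (fun b : List Dig => b ∈ a :: l) cell (R := near 1)
      (fun b b' hb hb' hbb => exists_common ((hlen b hb).trans (hlen b' hb').symm) hbb)
      (fun b hb x hx y hy => hc b H (hH.mono (hA b hb)) (hpos b hb) x hx y hy) l a
      (by simp) (fun b hb => by simp [hb]) hch x hx y hy

/-- One-step decay: if `0 ≤ U ≤ m` is subharmonic on `inn 2 w` and vanishes at a point of the cell of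
`w` then `U ≤ (1 - c) m` on `inn 1 w` (apply `weak_harnack` to `m - U` on the cells near `w`). -/
theorem decay_step : ∃ c : ℝ, 0 < c ∧ c < 1 ∧ ∀ (w : List Dig) (U : C(K, ℝ)) (m : ℝ),
    SubOff S (out 2 w) U → (∀ x ∈ inn 2 w, 0 ≤ U x ∧ U x ≤ m) → (∃ z ∈ cell w, U z = 0) →
      ∀ x ∈ inn 1 w, U x ≤ (1 - c) * m := by
  obtain ⟨c, hc0, hc1, hc⟩ := weak_harnack S
  refine ⟨c ^ 2, by positivity, pow_lt_one₀ hc0.le hc1 (by norm_num), ?_⟩
  intro w U m hU hUm hz x hx
  obtain ⟨z, hzw, hz0⟩ := hz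
  obtain ⟨s, hs, hn, hxs⟩ := hx
  obtain ⟨q, hqs, hqw⟩ := exists_common hs hn
  have hH : SupOff S (out 2 w) (-U + ContinuousMap.const K m) :=
    hU.neg.add (HarmOff.const _ m).sup'
  have key : ∀ t : List Dig, t.length = w.length → near 1 t w → ∀ a ∈ cell t, ∀ b ∈ cell t,
      c * (-U b + m) ≤ -U a + m := by
    intro t ht htn a ha b hb
    refine hc t _ (hH.mono ?_) ?_ a ha b hb
    · exact out_subset_out (k := 1) (j := 1) ht htn
    · intro y hy
      have := (hUm y (inn_subset_inn (k := 1) (j := 1) ht htn hy)).2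
      show 0 ≤ -U y + m
      linarith
  have h1 := key w rfl (near_refl (by norm_num) w) q hqw z hzw
  have h2 := key s hs hn x hxs q hqs
  rw [hz0] at h1
  have h3 := mul_le_mul_of_nonneg_left h1 hc0.le
  nlinarith

theorem f4b_inn_child (w : List Dig) (d : Dig) : inn 2 (w ++ [d]) ⊆ inn 1 w := by
  rintro x ⟨s, hs, hn, hx⟩
  have hne : s ≠ [] := by
    rintro rfl
    simp at hs
  obtain ⟨s', a, rfl⟩ : ∃ s' a, s = s' ++ [a] :=
    ⟨s.dropLast, s.getLast hne, (List.dropLast_append_getLast hne).symm⟩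
  refine ⟨s', by simpa using hs, near_mono ?_ (near_parent hn), cell_append_subset s' [a] hx⟩
  norm_num

theorem f4b_out_child (w : List Dig) (d : Dig) : out 1 w ⊆ out 2 (w ++ [d]) := by
  rintro x ⟨s, hs, hn, hx⟩
  obtain ⟨v, hv, hxv⟩ := exists_cell_append s 1 hx
  obtain ⟨a, rfl⟩ := List.length_eq_one_iff.1 hv
  refine ⟨s ++ [a], by simp [hs], fun h => hn ?_, hxv⟩
  refine near_mono ?_ (near_parent h)
  norm_num

/-- Hölder decay at a zero: `w = u ++ v`, `|v| = k`; iterate `decay_step` along the words between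
`u` and `u ++ v` (`near_parent` gives `inn 2 (w ++ [d]) ⊆ inn 1 w`). -/
theorem decay : ∃ c : ℝ, 0 < c ∧ c < 1 ∧ ∀ (u v : List Dig) (U : C(K, ℝ)) (m : ℝ),
    SubOff S (out 1 u) U → (∀ x ∈ inn 1 u, 0 ≤ U x ∧ U x ≤ m) → (∃ z ∈ cell (u ++ v), U z = 0) →
      ∀ x ∈ inn 1 (u ++ v), U x ≤ (1 - c) ^ v.length * m := by
  obtain ⟨c, hc0, hc1, hc⟩ := decay_step S
  refine ⟨c, hc0, hc1, ?_⟩
  intro u v U m hU hUm
  have key : ∀ v : List Dig, out 1 u ⊆ out 1 (u ++ v) ∧ inn 1 (u ++ v) ⊆ inn 1 u ∧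
      ((∃ z ∈ cell (u ++ v), U z = 0) → ∀ x ∈ inn 1 (u ++ v), U x ≤ (1 - c) ^ v.length * m) := by
    intro v
    induction v using List.reverseRecOn with
    | nil =>
      rw [List.append_nil]
      refine ⟨subset_rfl, subset_rfl, fun _ x hx => ?_⟩
      simpa using (hUm x hx).2
    | append_singleton v d ih =>
      obtain ⟨h1, h2, h3⟩ := ih
      rw [← List.append_assoc]
      have h4 := f4b_inn_child (u ++ v) d
      have h5 := f4b_out_child (u ++ v) d
      refine ⟨h1.trans (out_child (u ++ v) d (by norm_num)),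
        ((inn_mono (by norm_num) _).trans h4).trans h2, ?_⟩
      intro hz x hx
      have hz' : ∃ z ∈ cell (u ++ v), U z = 0 := by
        obtain ⟨z, hz1, hz2⟩ := hz
        exact ⟨z, cell_append_subset _ _ hz1, hz2⟩
      have h6 := hc (u ++ v ++ [d]) U ((1 - c) ^ v.length * m) (hU.mono (h1.trans h5))
        (fun y hy => ⟨(hUm y (h2 (h4 hy))).1, h3 hz' y (h4 hy)⟩) hz x hx
      rw [List.length_append, List.length_singleton, pow_succ]
      linarith
  exact (key v).2.2

end Pool.Agent.Helper67.SC
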