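import Pool.Agent.Helper67.SC.P0
import Pool.Agent.Helper67.SC.F4b

/-! Module A3b: compactness, passage to the limit. -/

open MeasureTheory Filter Topology

noncomputable section

namespace Pool.Agent.Helper67.SC

/-- Oscillation on small cells for functions of bounded energy. -/
theorem a3b_small (S : CarForm) {C1 : ℝ} (hC1 : 0 < C1)
    (hcell : ∀ f ∈ S.dom, ∀ w : List Dig, ∀ x ∈ cell w, ∀ y ∈ cell w,
      |f x - f y| ≤ C1 * Real.sqrt (S.en f w)) {f : C(K, ℝ)} (hf : f ∈ S.dom) {B : ℝ}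
    (hB : S.E f f ≤ B) (w : List Dig) {x y : K} (hx : x ∈ cell w) (hy : y ∈ cell w) :
    |f x - f y| ≤ C1 * Real.sqrt (B / S.ρ ^ w.length) := by
  have hρ : 0 < S.ρ ^ w.length := pow_pos S.ρ_pos _
  refine (hcell f hf w x hx y hy).trans (mul_le_mul_of_nonneg_left ?_ hC1.le)
  apply Real.sqrt_le_sqrt
  rw [le_div_iff₀ hρ, mul_comm]
  have h1 := S.en_append_le hf [] w
  exact h1.trans hB

/-- Compactness: bounded energy and normalization at a point give total boundedness in the sup
norm (oscillation on the cells of level `k` is at most `C ρ^{-k/2}`). -/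
theorem exists_subseq (S : CarForm) (f : ℕ → C(K, ℝ)) (hf : ∀ n, f n ∈ S.dom)
    (h0 : ∀ n, f n c00 = 0) {B : ℝ} (hB : ∀ n, S.E (f n) (f n) ≤ B) :
    ∃ (k : C(K, ℝ)) (σ : ℕ → ℕ), StrictMono σ ∧ Tendsto (fun n => f (σ n)) atTop (𝓝 k) := by
  obtain ⟨C, hC, hosc⟩ := S.osc
  obtain ⟨C1, hC1, hcell⟩ := osc_cell S
  have hρ := one_lt_rho S
  have hB0 : 0 ≤ B := (S.E_nonneg _ (hf 0)).trans (hB 0)
  -- bounded
  have hbd : ∀ n x, f n x ∈ Set.Icc (-(C * Real.sqrt B)) (C * Real.sqrt B) := by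
    intro n x
    have := hosc (f n) (hf n) x c00
    rw [h0 n, sub_zero] at this
    have h2 := Real.sqrt_le_sqrt (hB n)
    exact abs_le.1 (this.trans (mul_le_mul_of_nonneg_left h2 hC.le))
  -- uniform smallness
  have hsm : ∀ ε > 0, ∃ k : ℕ, C1 * Real.sqrt (B / S.ρ ^ k) < ε := by
    intro ε hε
    have h1 : Tendsto (fun k : ℕ => C1 * Real.sqrt (B * (S.ρ⁻¹) ^ k)) atTop
        (𝓝 (C1 * Real.sqrt (B * 0))) := by
      refine Tendsto.const_mul _ ((Real.continuous_sqrt.tendsto _).comp ?_)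
      exact (tendsto_pow_atTop_nhds_zero_of_lt_one (by positivity)
        (inv_lt_one_of_one_lt₀ hρ)).const_mul B
    rw [mul_zero, Real.sqrt_zero, mul_zero] at h1
    obtain ⟨k, hk⟩ := (h1.eventually (gt_mem_nhds hε)).exists
    refine ⟨k, ?_⟩
    rwa [div_eq_mul_inv, ← inv_pow]
  let e := ContinuousMap.isometryEquivBoundedOfCompact K ℝ
  let A : Set (BoundedContinuousFunction K ℝ) := Set.range (fun n => e (f n))
  have hcomp : IsCompact (closure A) := by
    refine BoundedContinuousFunction.arzela_ascoli (Set.Icc (-(C * Real.sqrt B)) (C * Real.sqrt B))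
      isCompact_Icc A ?_ ?_
    · rintro _ x ⟨n, rfl⟩
      exact hbd n x
    · intro x
      rw [Metric.equicontinuousAt_iff]
      intro ε hε
      obtain ⟨k, hk⟩ := hsm (ε / 2) (by positivity)
      refine ⟨1 / 3 ^ k, by positivity, ?_⟩
      intro y hy ⟨_, n, hn⟩
      subst hn
      change dist (f n x) (f n y) < ε
      obtain ⟨u, hu, hxu⟩ := exists_cell k x
      obtain ⟨v, hv, hyv⟩ := exists_cell k y
      have huv : near 1 u v := by
        refine near_of_dist (hu.trans hv.symm) hxu hyv ?_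
        rw [dist_comm, hu]
        rw [lt_div_iff₀ (by positivity)] at hy
        push_cast
        linarith
      obtain ⟨z, hzu, hzv⟩ := exists_common (hu.trans hv.symm) huv
      have h1 := a3b_small S hC1 hcell (hf n) (hB n) u hxu hzu
      have h2 := a3b_small S hC1 hcell (hf n) (hB n) v hzv hyv
      rw [hu] at h1
      rw [hv] at h2
      rw [Real.dist_eq]
      have h3 := abs_sub_le (f n x) (f n z) (f n y)
      linarith
  obtain ⟨a, _, σ, hσ, hlim⟩ := hcomp.tendsto_subseq (x := fun n => e (f n))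
    (fun n => subset_closure ⟨n, rfl⟩)
  refine ⟨e.symm a, σ, hσ, ?_⟩
  have h3 := (e.symm.continuous.tendsto a).comp hlim
  refine h3.congr fun n => ?_
  simp

/-- A weak limit of ratios of weights. -/
theorem a3b_weights {C : ℝ} (hC : 1 ≤ C) (δ : ℕ → List Dig → ℝ) (hW : ∀ m, Wt C (δ m)) :
    ∃ (𝒰 : Ultrafilter ℕ) (D : List Dig → ℝ), (𝒰 : Filter ℕ) ≤ atTop ∧ Wt C D ∧
      ∀ w, Tendsto (fun n => δ n w / δ n []) 𝒰 (𝓝 (D w)) := by
  have hd : ∀ m w, 0 < δ m w := fun m w => (hW m).pos w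
  have hlo : ∀ w m, 1 ≤ C ^ w.length * (δ m w / δ m []) := by
    intro w m
    have h1 := ((hW m).le_append hC [] w).1
    rw [List.nil_append] at h1
    rw [← mul_div_assoc, one_le_div (hd m [])]
    exact h1
  have hhi : ∀ w m, δ m w / δ m [] ≤ C ^ w.length := by
    intro w m
    have h1 := ((hW m).le_append hC [] w).2
    rw [List.nil_append] at h1
    rw [div_le_iff₀ (hd m [])]
    exact h1
  have hex : ∀ w, ∃ d : ℝ, Tendsto (fun n => δ n w / δ n []) (hyperfilter ℕ) (𝓝 d) := by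
    intro w
    have hmem : Set.Icc (0 : ℝ) (C ^ w.length) ∈
        (Ultrafilter.map (fun n => δ n w / δ n []) (hyperfilter ℕ)) := by
      rw [Ultrafilter.mem_map]
      filter_upwards with n
      exact ⟨(div_pos (hd n w) (hd n [])).le, hhi w n⟩
    obtain ⟨d, _, hd'⟩ := isCompact_Icc.ultrafilter_le_nhds' _ hmem
    exact ⟨d, hd'⟩
  choose D hD using hex
  refine ⟨hyperfilter ℕ, D, Nat.hyperfilter_le_atTop, ?_, hD⟩
  have hlim1 : ∀ w, 1 ≤ C ^ w.length * D w := fun w =>
    ge_of_tendsto' ((hD w).const_mul _) (hlo w)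
  refine ⟨fun w => ?_, fun u v huv hn => ?_, fun w d => ?_, fun w d => ?_, ?_⟩
  · have h1 := hlim1 w
    have h2 : 0 < C ^ w.length := by positivity
    by_contra hcon
    push Not at hcon
    have := mul_nonpos_of_nonneg_of_nonpos h2.le hcon
    linarith
  · refine le_of_tendsto_of_tendsto' (hD u) ((hD v).const_mul C) fun n => ?_
    rw [← mul_div_assoc]
    exact div_le_div_of_nonneg_right ((hW n).touch u v huv hn) (hd n []).le
  · refine le_of_tendsto_of_tendsto' (hD w) ((hD (w ++ [d])).const_mul C) fun n => ?_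
    rw [← mul_div_assoc]
    exact div_le_div_of_nonneg_right ((hW n).child w d) (hd n []).le
  · refine le_of_tendsto_of_tendsto' (hD (w ++ [d])) ((hD w).const_mul C) fun n => ?_
    rw [← mul_div_assoc]
    exact div_le_div_of_nonneg_right ((hW n).child' w d) (hd n []).le
  · intro v N T hT hvN s hs t hst x hx y hy hxv hdist
    refine le_of_tendsto_of_tendsto' (hD v)
      ((tendsto_finsetSum T fun s _ => hD s).const_mul C) fun n => ?_
    rw [← Finset.sum_div, ← mul_div_assoc]
    exact div_le_div_of_nonneg_right ((hW n).chain v N T hT hvN s hs t hst x hx y hy hxv hdist)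
      (hd n []).le

/-- Limit. `k_m = (h_m - h_m c00) / δ_m []`, restricted to the cell of `u = [(1,0),(1,0)]`
(`Lam ⊆ out 1 u`): by `cacc_harm` sup-norm convergence of `k_m` implies `E`-convergence of
`k_m ∘ Fw u`; the weights `δ_m (u ++ v) / δ_m []` lie in `[C^{-|v|-2}, C^{|v|+2}]`, take a
subsequence converging for every `v` (or an ultrafilter). -/
theorem exists_obj (S : CarForm)
    (H : ∃ C : ℝ, 1 ≤ C ∧ ∀ m : ℕ, ∃ h δ, HarmOff S Lam h ∧ Wt C δ ∧ CompTo S m C δ h) :
    ∃ (C : ℝ) (g : C(K, ℝ)) (δ : List Dig → ℝ), 1 ≤ C ∧ Obj S C g δ := by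
  obtain ⟨C, hC1, H⟩ := H
  choose h δ hH hW hcomp using H
  have hd : ∀ m, 0 < δ m [] := fun m => (hW m).pos []
  obtain ⟨f, hfdef⟩ : ∃ f : ℕ → C(K, ℝ), f = fun m =>
    (δ m [])⁻¹ • (h m - ContinuousMap.const K (h m c00)) := ⟨_, rfl⟩
  have hfH : ∀ m, HarmOff S Lam (f m) := fun m => by
    rw [hfdef]
    exact ((hH m).sub (HarmOff.const _ _)).smul _
  have hf0 : ∀ m, f m c00 = 0 := by
    intro m
    rw [hfdef]
    simp
  have hen : ∀ m w, S.en (f m) w = ((δ m [])⁻¹) ^ 2 * S.en (h m) w := by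
    intro m w
    have e1 : (f m).comp (Fw w) = (δ m [])⁻¹ • ((h m).comp (Fw w) -
        ContinuousMap.const K (h m c00)) := by
      rw [hfdef]; ext x; simp
    have hm := S.comp_Fw_mem w (hH m).1
    have h2 := S.E_sub_const (h m c00) hm
    unfold CarForm.en
    rw [e1, S.E_smul_self _ h2.1, h2.2]
  have hE : ∀ m, S.E (f m) (f m) ≤ C ^ 2 := by
    intro m
    have h1 := (hcomp m [] (by simp)).2
    have h2 := hen m []
    have h3 : S.E (f m) (f m) = S.en (f m) [] := rfl
    rw [h3, h2]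
    have h4 := Real.sqrt_le_left (by have := hd m; positivity : 0 ≤ C * δ m []) |>.1 h1
    rw [inv_pow, inv_mul_le_iff₀ (by have := hd m; positivity)]
    nlinarith
  obtain ⟨k, σ, hσ, hk⟩ := exists_subseq S f (fun m => (hfH m).1) hf0 hE
  -- the word `u`
  obtain ⟨u, hudef⟩ : ∃ u : List Dig, u = [dg 1 0, dg 1 0] := ⟨_, rfl⟩
  have hulen : u.length = 2 := by rw [hudef]; rfl
  have hupos : pos u = (4, 0) := by rw [hudef]; decide
  have hu1 : (pos u).1 = 4 := by rw [hupos]
  have hu2 : (pos u).2 = 0 := by rw [hupos]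
  have hu : Lam ⊆ out 1 u := by
    rintro x ((hx | hx) | hx)
    · exact left_subset_out (by omega) hx
    · exact top_subset_out (by rw [hulen, hu2]; norm_num) hx
    · exact right_subset_out (by rw [hulen, hu1]; norm_num) hx
  have huL : Fw u ⁻¹' Lam ⊆ Lam := by
    intro x hx
    exfalso
    have hb := K_bounds x
    have e1 := Fw_apply1 u x
    have e2 := Fw_apply2 u x
    rw [hulen, hu1] at e1
    rw [hulen, hu2] at e2
    rcases hx with (hx | hx) | hx
    · have hx' : (Fw u x).1.1 = 0 := hx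
      rw [e1, div_eq_zero_iff] at hx'
      push_cast at hx'
      rcases hx' with h | h
      · linarith
      · norm_num at h
    · have hx' : (Fw u x).1.2 = 1 := hx
      rw [e2, div_eq_one_iff_eq (by norm_num)] at hx'
      push_cast at hx'
      linarith
    · have hx' : (Fw u x).1.1 = 1 := hx
      rw [e1, div_eq_one_iff_eq (by norm_num)] at hx'
      push_cast at hx'
      linarith
  obtain ⟨Cc, hCc, hcacc⟩ := cacc_harm S
  have hfu : ∀ n, (f (σ n)).comp (Fw u) ∈ S.dom := fun n => S.comp_Fw_mem u (hfH _).1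
  have hcauchy : ∀ ε > 0, ∃ N, ∀ m ≥ N, ∀ n ≥ N,
      S.E ((f (σ m)).comp (Fw u) - (f (σ n)).comp (Fw u))
        ((f (σ m)).comp (Fw u) - (f (σ n)).comp (Fw u)) < ε := by
    intro ε hε
    obtain ⟨η, hη, hη2⟩ : ∃ η : ℝ, 0 < η ∧ Cc * (2 * η) ^ 2 < ε := by
      refine ⟨Real.sqrt (ε / (8 * Cc)), by positivity, ?_⟩
      rw [mul_pow, Real.sq_sqrt (by positivity)]
      field_simp
      linarith
    rw [Metric.tendsto_atTop] at hk
    obtain ⟨N, hN⟩ := hk η hη
    refine ⟨N, fun m hm n hn => ?_⟩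
    have h1 : HarmOff S (out 1 u) (f (σ m) - f (σ n)) := ((hfH _).sub (hfH _)).mono hu
    have h2 := hcacc u (f (σ m) - f (σ n)) 0 (2 * η) h1 (fun x _ => by
      rw [sub_zero, ContinuousMap.sub_apply]
      have a1 := ContinuousMap.dist_apply_le_dist (f := f (σ m)) (g := k) x
      have a2 := ContinuousMap.dist_apply_le_dist (f := f (σ n)) (g := k) x
      rw [Real.dist_eq] at a1 a2
      have a3 := hN m hm
      have a4 := hN n hn
      have a5 := abs_sub_le (f (σ m) x) (k x) (f (σ n) x)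
      rw [abs_sub_comm (k x)] at a5
      linarith)
    refine lt_of_le_of_lt ?_ hη2
    exact h2
  obtain ⟨g0, hg0, hlim0⟩ := S.complete (fun n => (f (σ n)).comp (Fw u)) hfu hcauchy
  -- identification of the limit
  obtain ⟨Co, hCo, hosc⟩ := S.osc
  have hkx : ∀ x, Tendsto (fun n => f (σ n) x) atTop (𝓝 (k x)) := by
    intro x
    exact ((continuous_eval_const x).tendsto k).comp hk
  have hconst : ∀ x y : K, (k.comp (Fw u) - g0) x = (k.comp (Fw u) - g0) y := by
    intro x y
    have h1 : Tendsto (fun n => |((f (σ n)).comp (Fw u) - g0) x - ((f (σ n)).comp (Fw u) - g0) y|)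
        atTop (𝓝 |(k.comp (Fw u) - g0) x - (k.comp (Fw u) - g0) y|) := by
      apply Tendsto.abs
      apply Tendsto.sub
      · exact (hkx (Fw u x)).sub_const _
      · exact (hkx (Fw u y)).sub_const _
    have h2 : Tendsto (fun n => Co * Real.sqrt (S.E ((f (σ n)).comp (Fw u) - g0)
        ((f (σ n)).comp (Fw u) - g0))) atTop (𝓝 (Co * Real.sqrt 0)) :=
      Tendsto.const_mul _ ((Real.continuous_sqrt.tendsto _).comp hlim0)
    rw [Real.sqrt_zero, mul_zero] at h2
    have h3 := le_of_tendsto_of_tendsto' h1 h2 fun n =>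
      hosc _ (S.dom.sub_mem (hfu n) hg0) x y
    have h4 := abs_nonneg ((k.comp (Fw u) - g0) x - (k.comp (Fw u) - g0) y)
    exact sub_eq_zero.1 (abs_eq_zero.1 (le_antisymm h3 h4))
  obtain ⟨g, hgdef⟩ : ∃ g : C(K, ℝ), g = k.comp (Fw u) := ⟨_, rfl⟩
  have hgc : g = g0 - ContinuousMap.const K (-((k.comp (Fw u) - g0) c00)) := by
    rw [hgdef]
    ext x
    have := hconst x c00
    simp only [ContinuousMap.sub_apply, ContinuousMap.const_apply] at this ⊢
    linarith
  have hg : g ∈ S.dom := by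
    rw [hgc]
    exact (S.E_sub_const _ hg0).1
  have hlim : Tendsto (fun n => S.E ((f (σ n)).comp (Fw u) - g) ((f (σ n)).comp (Fw u) - g))
      atTop (𝓝 0) := by
    refine hlim0.congr fun n => ?_
    have e1 : (f (σ n)).comp (Fw u) - g = ((f (σ n)).comp (Fw u) - g0) -
        ContinuousMap.const K ((k.comp (Fw u) - g0) c00) := by
      rw [hgc]
      ext x
      simp only [ContinuousMap.sub_apply, ContinuousMap.const_apply]
      ring
    rw [e1, (S.E_sub_const _ (S.dom.sub_mem (hfu n) hg0)).2]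
  -- harmonicity
  have hgH : HarmOff S Lam g := by
    refine ⟨hg, fun φ hφ hz => ?_⟩
    have hfuH : ∀ n, HarmOff S Lam ((f (σ n)).comp (Fw u)) := fun n =>
      (hfH _).restrict u (Bd_subset_Lam hu2) huL
    have h1 : ∀ n, |S.E g φ| ≤ Real.sqrt (S.E ((f (σ n)).comp (Fw u) - g)
        ((f (σ n)).comp (Fw u) - g)) * Real.sqrt (S.E φ φ) := by
      intro n
      have h2 := S.E_abs_le (S.dom.sub_mem (hfu n) hg) hφ
      rw [S.E_sub_left (hfu n) hg hφ, (hfuH n).2 φ hφ hz, zero_sub, abs_neg] at h2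
      exact h2
    have h2 : Tendsto (fun n => Real.sqrt (S.E ((f (σ n)).comp (Fw u) - g)
        ((f (σ n)).comp (Fw u) - g)) * Real.sqrt (S.E φ φ)) atTop
        (𝓝 (Real.sqrt 0 * Real.sqrt (S.E φ φ))) :=
      ((Real.continuous_sqrt.tendsto _).comp hlim).mul_const _
    rw [Real.sqrt_zero, zero_mul] at h2
    have h3 := ge_of_tendsto' h2 h1
    exact abs_eq_zero.1 (le_antisymm h3 (abs_nonneg _))
  -- energies on cells
  have henlim : ∀ v, Tendsto (fun n => Real.sqrt (S.en (f (σ n)) (u ++ v))) atTop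
      (𝓝 (Real.sqrt (S.en g v))) := by
    intro v
    have h1 : ∀ n, |Real.sqrt (S.en (f (σ n)) (u ++ v)) - Real.sqrt (S.en g v)| ≤
        Real.sqrt (S.E ((f (σ n)).comp (Fw u) - g) ((f (σ n)).comp (Fw u) - g) /
          S.ρ ^ v.length) := by
      intro n
      have hρ : 0 < S.ρ ^ v.length := pow_pos S.ρ_pos _
      have ha := S.comp_Fw_mem v (hfu n)
      have hb := S.comp_Fw_mem v hg
      have h2 : Real.sqrt (S.en ((f (σ n)).comp (Fw u) - g) v) ≤
          Real.sqrt (S.E ((f (σ n)).comp (Fw u) - g) ((f (σ n)).comp (Fw u) - g) /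
          S.ρ ^ v.length) := by
        apply Real.sqrt_le_sqrt
        rw [le_div_iff₀ hρ, mul_comm]
        exact S.en_append_le (S.dom.sub_mem (hfu n) hg) [] v
      refine le_trans ?_ h2
      have e1 : ((f (σ n)).comp (Fw u) - g).comp (Fw v) =
          ((f (σ n)).comp (Fw u)).comp (Fw v) - g.comp (Fw v) := by ext x; rfl
      rw [← S.en_comp (f (σ n)) u v]
      unfold CarForm.en
      rw [e1]
      have hab := S.dom.sub_mem ha hb
      rw [abs_le]
      constructor
      · have h3 := S.sqrt_E_sub_le ha hab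
        have e2 : ((f (σ n)).comp (Fw u)).comp (Fw v) - (((f (σ n)).comp (Fw u)).comp (Fw v) -
            g.comp (Fw v)) = g.comp (Fw v) := by abel
        rw [e2] at h3
        linarith
      · have h3 := S.sqrt_E_add_le hab hb
        rw [sub_add_cancel] at h3
        linarith
    have h2 : Tendsto (fun n => Real.sqrt (S.E ((f (σ n)).comp (Fw u) - g)
        ((f (σ n)).comp (Fw u) - g) / S.ρ ^ v.length)) atTop (𝓝 (Real.sqrt (0 / S.ρ ^ v.length))) :=
      (Real.continuous_sqrt.tendsto _).comp (hlim.div_const _)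
    rw [zero_div, Real.sqrt_zero] at h2
    rw [tendsto_iff_dist_tendsto_zero]
    refine squeeze_zero (fun n => dist_nonneg) (fun n => ?_) h2
    rw [Real.dist_eq]
    exact h1 n
  -- weights
  obtain ⟨𝒰, D, h𝒰, hWD, hD⟩ := a3b_weights hC1 (fun n => δ (σ n)) (fun n => hW _)
  refine ⟨C, g, fun v => D (u ++ v), hC1, hgH, ?_, ?_⟩
  · have := hWD.shift u (a := 1) one_pos
    simpa using this
  · intro m v _
    have hlev : ∀ᶠ n in (𝒰 : Filter ℕ), (u ++ v).length ≤ σ n :=
      h𝒰 (eventually_atTop.2 ⟨(u ++ v).length, fun n hn => hn.trans (hσ.id_le n)⟩)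
    have hsq : ∀ n w, Real.sqrt (S.en (f (σ n)) w) =
        Real.sqrt (S.en (h (σ n)) w) / δ (σ n) [] := by
      intro n w
      rw [hen, Real.sqrt_mul (by positivity), Real.sqrt_sq (inv_nonneg.2 (hd _).le)]
      rw [div_eq_inv_mul]
    constructor
    · refine le_of_tendsto_of_tendsto (hD (u ++ v)) (((henlim v).mono_left h𝒰).const_mul C) ?_
      filter_upwards [hlev] with n hn
      rw [hsq, ← mul_div_assoc]
      exact div_le_div_of_nonneg_right (hcomp (σ n) (u ++ v) hn).1 (hd _).le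
    · refine le_of_tendsto_of_tendsto ((henlim v).mono_left h𝒰) ((hD (u ++ v)).const_mul C) ?_
      filter_upwards [hlev] with n hn
      rw [hsq, ← mul_div_assoc]
      exact div_le_div_of_nonneg_right (hcomp (σ n) (u ++ v) hn).2 (hd _).le

end Pool.Agent.Helper67.SC
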