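import Pool.Agent.Helper67.SC.Defs

/-!
Working vocabulary: words, cells, positions, neighbourhoods, sides, harmonicity, weights.
-/

open MeasureTheory Filter Topology

noncomputable section

namespace Pool.Agent.Helper67.SC

/-- The digit `(i, j)` (a junk value if both coordinates are `1`). -/
def dg (i j : Fin 3) : Dig :=
  if h : (i, j) ≠ ((1 : Fin 3), (1 : Fin 3)) then ⟨(i, j), h⟩ else ⟨(0, 0), by decide⟩

/-- Iterated contraction along a word. -/
def Fw : List Dig → C(K, K)
  | [] => ContinuousMap.id K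
  | d :: w => (F d).comp (Fw w)

/-- Position of the cell of `w` in the grid of mesh `3 ^ (- w.length)`. -/
def pos : List Dig → ℤ × ℤ
  | [] => (0, 0)
  | d :: w => (3 ^ w.length * d.x + (pos w).1, 3 ^ w.length * d.y + (pos w).2)

/-- The cell of a word. -/
def cell (w : List Dig) : Set K := Set.range (Fw w)

/-- The words of length `n`. -/
def words : ℕ → Finset (List Dig)
  | 0 => {[]}
  | n + 1 => (Finset.univ ×ˢ words n).image (fun p : Dig × List Dig => p.1 :: p.2)

/-- Index distance at most `k` (used for words of equal length). -/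
def near (k : ℤ) (s w : List Dig) : Prop :=
  |(pos s).1 - (pos w).1| ≤ k ∧ |(pos s).2 - (pos w).2| ≤ k

/-- Union of the cells of the level of `w` at index distance at most `k` from `w`. -/
def inn (k : ℤ) (w : List Dig) : Set K :=
  {x | ∃ s : List Dig, s.length = w.length ∧ near k s w ∧ x ∈ cell s}

/-- Union of the cells of the level of `w` at index distance more than `k` from `w`. -/
def out (k : ℤ) (w : List Dig) : Set K :=
  {x | ∃ s : List Dig, s.length = w.length ∧ ¬ near k s w ∧ x ∈ cell s}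

/-- Left side. -/
def left : Set K := {x | x.1.1 = 0}
/-- Right side. -/
def right : Set K := {x | x.1.1 = 1}
/-- Bottom side. -/
def bot : Set K := {x | x.1.2 = 0}
/-- Top side. -/
def top : Set K := {x | x.1.2 = 1}
/-- The boundary of the unit square. -/
def V0 : Set K := left ∪ right ∪ bot ∪ top
/-- All sides but the bottom. -/
def Lam : Set K := left ∪ top ∪ right
/-- Top and right sides. -/
def LamP : Set K := top ∪ right

/-- Reflection `(x, y) ↦ (x, 1 - y)`. -/
def flipY : C(K, K) := (swapXY.comp flipX).comp swapXY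

/-- Corner `(0, 0)`. -/
def c00 : K := ⟨(0, 0), ⟨fun _ => dg 0 0, by simp [dg, Dig.x, hasSum_zero],
  by simp [dg, Dig.y, hasSum_zero]⟩⟩
/-- Corner `(1, 1)`. -/
def c11 : K := ⟨(1, 1), ⟨fun _ => dg 2 2, by simpa [dg, Dig.x] using hasSum_two,
  by simpa [dg, Dig.y] using hasSum_two⟩⟩
/-- Corner `(1, 0)`. -/
def c10 : K := ⟨(1, 0), ⟨fun _ => dg 2 0, by simpa [dg, Dig.x] using hasSum_two,
  by simp [dg, Dig.y, hasSum_zero]⟩⟩
/-- Corner `(0, 1)`. -/
def c01 : K := ⟨(0, 1), ⟨fun _ => dg 0 2, by simp [dg, Dig.x, hasSum_zero],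
  by simpa [dg, Dig.y] using hasSum_two⟩⟩
/-- The four corners. -/
def corners : Finset K := by classical exact {c00, c10, c01, c11}
/-- Reference point `(2/3, 2/3)`. -/
def rp : K := F (dg 2 2) c00
/-- The point `(1/3, 0)`. -/
def pA : K := F (dg 1 0) c00
/-- The word `(0,0)^k`. -/
def zz (k : ℕ) : List Dig := List.replicate k (dg 0 0)
/-- The points `(3^{-k-1}, 0)`. -/
def Apt (k : ℕ) : K := Fw (zz k) pA

/-- Energy of `f` on the cell of `w` (not rescaled). -/
def CarForm.en (S : CarForm) (f : C(K, ℝ)) (w : List Dig) : ℝ :=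
  S.E (f.comp (Fw w)) (f.comp (Fw w))

/-- `f` vanishes on `A`. -/
def ZeroOn (A : Set K) (f : C(K, ℝ)) : Prop := ∀ x ∈ A, f x = 0

/-- `f` is harmonic off `A` (natural condition everywhere else). -/
def HarmOff (S : CarForm) (A : Set K) (f : C(K, ℝ)) : Prop :=
  f ∈ S.dom ∧ ∀ φ ∈ S.dom, ZeroOn A φ → S.E f φ = 0

/-- `f` is subharmonic off `A`. -/
def SubOff (S : CarForm) (A : Set K) (f : C(K, ℝ)) : Prop :=
  f ∈ S.dom ∧ ∀ φ ∈ S.dom, 0 ≤ φ → ZeroOn A φ → S.E f φ ≤ 0

/-- `f` is superharmonic off `A`. -/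
def SupOff (S : CarForm) (A : Set K) (f : C(K, ℝ)) : Prop :=
  f ∈ S.dom ∧ ∀ φ ∈ S.dom, 0 ≤ φ → ZeroOn A φ → 0 ≤ S.E f φ

/-- Linked by a chain of touching words inside `T`. -/
def Linked (T : Set (List Dig)) (s t : List Dig) : Prop :=
  Relation.ReflTransGen (fun a b => b ∈ T ∧ near 1 a b) s t

/-- Weights on words behaving like the diameters of the cells in a quasisymmetric metric. -/
structure Wt (C : ℝ) (δ : List Dig → ℝ) : Prop where
  pos : ∀ w, 0 < δ w
  touch : ∀ u v : List Dig, u.length = v.length → near 1 u v → δ u ≤ C * δ v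
  child : ∀ w d, δ w ≤ C * δ (w ++ [d])
  child' : ∀ w d, δ (w ++ [d]) ≤ C * δ w
  chain : ∀ (v : List Dig) (N : ℕ) (T : Finset (List Dig)), (∀ s ∈ T, s.length = N) →
    v.length ≤ N → ∀ s ∈ T, ∀ t, Linked (↑T) s t → ∀ x ∈ cell s, ∀ y ∈ cell t, x ∈ cell v →
      1 / 27 / 3 ^ v.length ≤ dist x y → δ v ≤ C * ∑ s ∈ T, δ s

/-- The energies of `h` on cells are comparable to the squares of the weights, up to level `m`. -/
def CompTo (S : CarForm) (m : ℕ) (C : ℝ) (δ : List Dig → ℝ) (h : C(K, ℝ)) : Prop :=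
  ∀ v : List Dig, v.length ≤ m → δ v ≤ C * Real.sqrt (S.en h v) ∧ Real.sqrt (S.en h v) ≤ C * δ v

/-- The impossible object: a function harmonic off `Lam`, natural on the bottom side, whose
energies on cells are comparable to the squares of a weight. -/
def Obj (S : CarForm) (C : ℝ) (g : C(K, ℝ)) (δ : List Dig → ℝ) : Prop :=
  HarmOff S Lam g ∧ Wt C δ ∧ ∀ m, CompTo S m C δ g

/-- `x` and `y` are joined inside `O` by a finite chain of touching cells of one level. -/
def Conn (O : Set K) (x y : K) : Prop :=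
  ∃ n : ℕ, ∃ s t : List Dig, s.length = n ∧ x ∈ cell s ∧ y ∈ cell t ∧ cell s ⊆ O ∧
    Linked {a | a.length = n ∧ cell a ⊆ O} s t

/-- Position along `Lam`, from the corner `(0,0)` clockwise to `(1,0)`. -/
def tau (x : K) : ℝ := by
  classical exact if x.1.1 = 0 then x.1.2 else if x.1.2 = 1 then 1 + x.1.1 else 3 - x.1.2

end Pool.Agent.Helper67.SC
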