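import Pool.Agent.Helper67.SC.C1a

/-! Module C1b: Carleson estimate in a cell. -/

open MeasureTheory Filter Topology

noncomputable section

namespace Pool.Agent.Helper67.SC

variable (S : CarForm)

/-- Distance to the three sides other than `left`. -/
def cphi (x : K) : ℝ := min (min x.1.2 (1 - x.1.2)) (1 - x.1.1)

theorem continuous_cphi : Continuous cphi := by
  unfold cphi
  fun_prop

theorem cphi_nonneg (x : K) : 0 ≤ cphi x := by
  have h := K_bounds x
  unfold cphi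
  refine le_min (le_min h.2.2.1 ?_) ?_ <;> linarith [h.2.1, h.2.2.2]

theorem cphi_lt_one (x : K) : cphi x < 1 := by
  unfold cphi
  rcases lt_or_ge x.1.2 1 with h | h
  · exact lt_of_le_of_lt ((min_le_left _ _).trans (min_le_left _ _)) h
  · have h1 : min (min x.1.2 (1 - x.1.2)) (1 - x.1.1) ≤ 1 - x.1.2 :=
      (min_le_left _ _).trans (min_le_right _ _)
    linarith

theorem cphi_lip (x y : K) : cphi x - dist x y ≤ cphi y := by
  have hd := dist_eq x y
  have h1 : |x.1.1 - y.1.1| ≤ dist x y := by rw [hd]; exact le_max_left _ _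
  have h2 : |x.1.2 - y.1.2| ≤ dist x y := by rw [hd]; exact le_max_right _ _
  rw [abs_le] at h1 h2
  have a1 : cphi x ≤ x.1.2 := (min_le_left _ _).trans (min_le_left _ _)
  have a2 : cphi x ≤ 1 - x.1.2 := (min_le_left _ _).trans (min_le_right _ _)
  have a3 : cphi x ≤ 1 - x.1.1 := min_le_right _ _
  change cphi x - dist x y ≤ min (min y.1.2 (1 - y.1.2)) (1 - y.1.1)
  refine le_min (le_min ?_ ?_) ?_
  · linarith [h2.2]
  · linarith [h2.1]
  · linarith [h1.1]

/-- A cell of level `n` containing a point of depth at least `9 · 3^{-n}` is far from the three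
sides. -/
theorem cphi_out {u : List Dig} {x : K} (hx : x ∈ cell u)
    (h : 9 ≤ 3 ^ u.length * cphi x) : right ∪ bot ∪ top ⊆ out 1 u := by
  have hc := mem_cell_coord hx
  have h3 : (0 : ℝ) < 3 ^ u.length := by positivity
  have a1 : cphi x ≤ x.1.2 := (min_le_left _ _).trans (min_le_left _ _)
  have a2 : cphi x ≤ 1 - x.1.2 := (min_le_left _ _).trans (min_le_right _ _)
  have a3 : cphi x ≤ 1 - x.1.1 := min_le_right _ _
  have b1 : (3 : ℝ) ^ u.length * cphi x ≤ 3 ^ u.length * x.1.2 :=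
    mul_le_mul_of_nonneg_left a1 h3.le
  have b2 : (3 : ℝ) ^ u.length * cphi x ≤ 3 ^ u.length * (1 - x.1.2) :=
    mul_le_mul_of_nonneg_left a2 h3.le
  have b3 : (3 : ℝ) ^ u.length * cphi x ≤ 3 ^ u.length * (1 - x.1.1) :=
    mul_le_mul_of_nonneg_left a3 h3.le
  rw [mul_sub, mul_one] at b2 b3
  have e1 : (8 : ℝ) ≤ ((pos u).2 : ℤ) := by linarith [hc.2.2.2]
  have e2 : (((pos u).2 + 9 : ℤ) : ℝ) ≤ ((3 ^ u.length : ℤ) : ℝ) := by
    push_cast
    linarith [hc.2.2.1]
  have e3 : (((pos u).1 + 9 : ℤ) : ℝ) ≤ ((3 ^ u.length : ℤ) : ℝ) := by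
    push_cast
    linarith [hc.1]
  have f1 : (8 : ℤ) ≤ (pos u).2 := by exact_mod_cast e1
  have f2 : (pos u).2 + 9 ≤ 3 ^ u.length := by exact_mod_cast e2
  have f3 : (pos u).1 + 9 ≤ 3 ^ u.length := by exact_mod_cast e3
  refine Set.union_subset (Set.union_subset ?_ ?_) ?_
  · exact right_subset_out (by linarith)
  · exact bot_subset_out (by linarith)
  · exact top_subset_out (by linarith)

theorem cphi_left_out {u : List Dig} {x : K} (hx : x ∈ cell u)
    (h : 9 ≤ 3 ^ u.length * x.1.1) : left ⊆ out 1 u := by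
  have hc := mem_cell_coord hx
  have e1 : (8 : ℝ) ≤ ((pos u).1 : ℤ) := by linarith [hc.2.1]
  have f1 : (8 : ℤ) ≤ (pos u).1 := by exact_mod_cast e1
  exact left_subset_out (by linarith)

/-- Choice of the scale. -/
theorem exists_scale {t : ℝ} (h0 : 0 < t) (h1 : t < 1) :
    ∃ n : ℕ, 9 ≤ 3 ^ n * t ∧ 3 ^ n * t ≤ 27 := by
  obtain ⟨m, hm1, hm2⟩ := exists_nat_pow_near_of_lt_one h0 h1.le
    (show (0 : ℝ) < 1 / 3 by norm_num) (show (1 / 3 : ℝ) < 1 by norm_num)
  have h3 : (0 : ℝ) < 3 ^ m := by positivity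
  refine ⟨m + 3, ?_, ?_⟩
  · rw [pow_succ, one_div, inv_pow] at hm1
    have : (3 : ℝ) ^ m * ((3 ^ m)⁻¹ * (3⁻¹)) < 3 ^ m * t := mul_lt_mul_of_pos_left hm1 h3
    rw [← mul_assoc, mul_inv_cancel₀ h3.ne'] at this
    rw [pow_add]
    nlinarith
  · rw [one_div, inv_pow] at hm2
    have : (3 : ℝ) ^ m * t ≤ 3 ^ m * (3 ^ m)⁻¹ := mul_le_mul_of_nonneg_left hm2 h3.le
    rw [mul_inv_cancel₀ h3.ne'] at this
    rw [pow_add]
    nlinarith

/-- Case 1 of the Carleson estimate: the maximum point cannot be too close to `left`. -/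
theorem carleson_case1 {c : ℝ} (hc0 : 0 < c) (hc1 : c < 1)
    (hdec : ∀ (u v : List Dig) (U : C(K, ℝ)) (m : ℝ),
      SubOff S (out 1 u) U → (∀ x ∈ inn 1 u, 0 ≤ U x ∧ U x ≤ m) → (∃ z ∈ cell (u ++ v), U z = 0) →
      ∀ x ∈ inn 1 (u ++ v), U x ≤ (1 - c) ^ v.length * m)
    {p k n : ℕ} (hk : (1 - c) ^ k * (9 / 7) ^ p < 1) {U : C(K, ℝ)} (hU : HarmOff S V0 U)
    (hU0 : 0 ≤ U) (hl : ZeroOn left U) {z : K} (hz : 0 < U z) (hzp : 0 < cphi z)
    (hmax : ∀ x, U x * cphi x ^ p ≤ U z * cphi z ^ p) (hn : 9 ≤ 3 ^ n * cphi z) :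
    1 ≤ 3 ^ (n + k) * z.1.1 := by
  by_contra hcon
  push Not at hcon
  obtain ⟨w, hw, hzw⟩ := exists_cell (n + k) z
  have hpos : (pos w).1 = 0 := by
    have h1 := (mem_cell_coord hzw).1
    rw [hw] at h1
    have h2 : ((pos w).1 : ℝ) < 1 := lt_of_le_of_lt h1 hcon
    have h3 : (pos w).1 < 1 := by exact_mod_cast h2
    have h4 := (pos_nonneg w).1
    omega
  obtain ⟨u, v, rfl, hu, hv⟩ : ∃ u v : List Dig, u ++ v = w ∧ u.length = n ∧ v.length = k :=
    ⟨w.take n, w.drop n, List.take_append_drop n w, by simp [hw], by simp [hw]⟩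
  have hzu : z ∈ cell u := cell_append_subset u v hzw
  have hout : right ∪ bot ∪ top ⊆ out 1 u := cphi_out hzu (by rw [hu]; exact hn)
  have hsub : SubOff S (out 1 u) U := by
    have e : V0 = (right ∪ bot ∪ top) ∪ left := by
      unfold V0
      ext x
      simp only [Set.mem_union]
      tauto
    have h1 : SubOff S ((right ∪ bot ∪ top) ∪ left) U := by
      rw [← e]
      exact hU.sub'
    have h2 := h1.pos_subOff hl
    have h3 : U ⊔ 0 = U := sup_eq_left.2 hU0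
    rw [h3] at h2
    exact h2.mono hout
  have h3n : (0 : ℝ) < 3 ^ n := by positivity
  have hbd : ∀ x ∈ inn 1 u, 0 ≤ U x ∧ U x ≤ (9 / 7) ^ p * U z := by
    rintro x ⟨s, hs, hns, hxs⟩
    refine ⟨hU0 x, ?_⟩
    have hd := dist_le_of_near hs.symm (near_symm hns) hzu hxs
    rw [hu] at hd
    have h1 := cphi_lip z x
    have h2 : (7 / 9) * cphi z ≤ cphi x := by
      have h5 : 3 ^ n * dist z x ≤ 2 := by
        have := mul_le_mul_of_nonneg_left hd h3n.le
        rw [mul_div_cancel₀ _ h3n.ne'] at this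
        norm_num at this
        linarith
      have h6 : 3 ^ n * ((7 / 9) * cphi z) ≤ 3 ^ n * cphi x := by nlinarith
      exact le_of_mul_le_mul_left h6 h3n
    have h4 : (7 / 9 * cphi z) ^ p ≤ cphi x ^ p := pow_le_pow_left₀ (by positivity) h2 p
    have h5 : 0 < (7 / 9 * cphi z) ^ p := by positivity
    have h6 : U x * (7 / 9 * cphi z) ^ p ≤ U z * cphi z ^ p :=
      (mul_le_mul_of_nonneg_left h4 (hU0 x)).trans (hmax x)
    have h7 : U z * cphi z ^ p = ((9 / 7) ^ p * U z) * (7 / 9 * cphi z) ^ p := by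
      rw [mul_pow]
      have : ((9 : ℝ) / 7) ^ p * (7 / 9) ^ p = 1 := by rw [← mul_pow]; norm_num
      calc U z * cphi z ^ p = (((9 : ℝ) / 7) ^ p * (7 / 9) ^ p) * (U z * cphi z ^ p) := by
            rw [this, one_mul]
        _ = _ := by ring
    rw [h7] at h6
    exact le_of_mul_le_mul_right h6 h5
  have hzero : ∃ y ∈ cell (u ++ v), U y = 0 := by
    refine ⟨Fw (u ++ v) c00, ⟨c00, rfl⟩, hl _ ?_⟩
    change (Fw (u ++ v) c00).1.1 = 0
    rw [Fw_apply1, hpos]
    simp [c00]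
  have hfin := hdec u v U _ hsub hbd hzero z ⟨u ++ v, rfl, near_refl (by norm_num) _, hzw⟩
  rw [hv] at hfin
  have : (1 - c) ^ k * ((9 / 7) ^ p * U z) = ((1 - c) ^ k * (9 / 7) ^ p) * U z := by ring
  rw [this] at hfin
  nlinarith

/-- Carleson estimate in a cell. `U ≥ 0` harmonic off `V0`, zero on `left`. Let
`φ x = min (min y (1-y)) (1-x)` (distance to the other three sides), `D x = x` (distance to
`left`), `p` a natural number with `3^p ≥ C_H` (`harnack_rp`), `x*` a maximum point of `U φ^p`,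
`S = U(x*) φ(x*)^p > 0`, `n` such that `9 · 3^{-n} ≤ φ(x*) < 27 · 3^{-n}`. Let `k` be such that
`(1-c)^k (9/7)^p < 1` (`decay`).
Case 1, `D x* ≤ 3^{-n-k}`: `x*` lies in a cell `w` of level `n + k` touching `left`; on `inn 1` of its
ancestor of level `n`, `φ ≥ (7/9) φ(x*)`, so `U ≤ (9/7)^p U(x*)` there, and `U` is subharmonic off the
three other sides (`SubOff.pos_subOff`), hence `decay` gives `U(x*) ≤ (1-c)^k (9/7)^p U(x*)`,
contradiction. Case 2: the cell of level `n+k+2` containing `x*` has `V0 ⊆ out 1 w`, so by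
`weak_harnack` and `harnack_rp`, `U(x*) ≤ C C_H^{n+k+2} U rp`, so `S ≤ C' U rp`. On the cell `(0,1)`,
`φ ≥ 1/3`. -/
theorem carleson0 : ∃ C : ℝ, 0 < C ∧ ∀ U, HarmOff S V0 U → 0 ≤ U → ZeroOn left U →
    ∀ x ∈ cell [dg 0 1], U x ≤ C * U rp := by
  obtain ⟨c, hc0, hc1, hdec⟩ := decay S
  obtain ⟨a, ha0, ha1, hwh⟩ := weak_harnack S
  obtain ⟨H, hH1, hrp⟩ := harnack_rp S
  obtain ⟨p, hp⟩ : ∃ p : ℕ, H < 3 ^ p := pow_unbounded_of_one_lt H (by norm_num)
  obtain ⟨k, hk⟩ : ∃ k : ℕ, (1 - c) ^ k < 1 / (9 / 7) ^ p :=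
    exists_pow_lt_of_lt_one (by positivity) (by linarith)
  have hk' : (1 - c) ^ k * (9 / 7) ^ p < 1 := by
    rwa [lt_div_iff₀ (by positivity)] at hk
  refine ⟨3 ^ p * (27 ^ p * (H ^ (k + 2) / a)), by positivity, fun U hU hU0 hl x hx => ?_⟩
  have hcont : Continuous fun x : K => U x * cphi x ^ p :=
    U.continuous.mul (continuous_cphi.pow p)
  obtain ⟨z, -, hz⟩ := isCompact_univ.exists_isMaxOn (Set.univ_nonempty (α := K))
    hcont.continuousOn
  have hmax : ∀ x, U x * cphi x ^ p ≤ U z * cphi z ^ p := fun x => hz (Set.mem_univ x)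
  have hrp0 : 0 ≤ U rp := hU0 rp
  -- depth of the cell `(0,1)`
  have hphix : 1 / 3 ≤ cphi x := by
    have h := mem_cell_coord hx
    have e1 : (pos [dg 0 1]).1 = 0 := by simp [pos, dg, Dig.x]
    have e2 : (pos [dg 0 1]).2 = 1 := by simp [pos, dg, Dig.y]
    rw [e1, e2] at h
    simp only [List.length_cons, List.length_nil, zero_add, pow_one, Int.cast_zero,
      Int.cast_one] at h
    change 1 / 3 ≤ min (min x.1.2 (1 - x.1.2)) (1 - x.1.1)
    refine le_min (le_min ?_ ?_) ?_ <;> linarith [h.2.1, h.2.2.1, h.2.2.2]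
  have hx1 : U x ≤ 3 ^ p * (U z * cphi z ^ p) := by
    have h1 : (1 / 3 : ℝ) ^ p ≤ cphi x ^ p := pow_le_pow_left₀ (by norm_num) hphix p
    have h2 : U x * (1 / 3 : ℝ) ^ p ≤ U z * cphi z ^ p :=
      (mul_le_mul_of_nonneg_left h1 (hU0 x)).trans (hmax x)
    have h3 : (3 : ℝ) ^ p * (1 / 3) ^ p = 1 := by rw [← mul_pow]; norm_num
    calc U x = 3 ^ p * (U x * (1 / 3) ^ p) := by
          rw [mul_left_comm, h3, mul_one]
      _ ≤ _ := mul_le_mul_of_nonneg_left h2 (by positivity)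
  have hUz0 : 0 ≤ U z := hU0 z
  have hcz0 := cphi_nonneg z
  rcases hUz0.eq_or_lt with hz0 | hz0
  · rw [← hz0, zero_mul, mul_zero] at hx1
    exact hx1.trans (by positivity)
  rcases hcz0.eq_or_lt with hz1 | hz1
  · rcases Nat.eq_zero_or_pos p with rfl | hppos
    · rw [pow_zero] at hp
      linarith
    · rw [← hz1, zero_pow hppos.ne', mul_zero, mul_zero] at hx1
      exact hx1.trans (by positivity)
  obtain ⟨n, hn1, hn2⟩ := exists_scale hz1 (cphi_lt_one z)
  have hcase := carleson_case1 S hc0 hc1 hdec hk' hU hU0 hl hz0 hz1 hmax hn1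
  obtain ⟨w, hw, hzw⟩ := exists_cell (n + k + 2) z
  have h3n : (0 : ℝ) < 3 ^ n := by positivity
  have hout : V0 ⊆ out 1 w := by
    have h1 : left ⊆ out 1 w := cphi_left_out hzw (by
      rw [hw, pow_add (3 : ℝ) (n + k) 2]
      nlinarith)
    have h2 : right ∪ bot ∪ top ⊆ out 1 w := cphi_out hzw (by
      rw [hw, add_assoc, pow_add (3 : ℝ) n (k + 2)]
      have h4 : (1 : ℝ) ≤ 3 ^ (k + 2) := one_le_pow₀ (by norm_num)
      nlinarith)
    intro y hy
    rcases hy with ((hy | hy) | hy) | hy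
    · exact h1 hy
    · exact h2 (Or.inl (Or.inl hy))
    · exact h2 (Or.inl (Or.inr hy))
    · exact h2 (Or.inr hy)
  have hs : SupOff S (out 1 w) U := hU.sup'.mono hout
  have g1 : a * U z ≤ U (Fw w rp) := hwh w U hs (fun y _ => hU0 y) _ ⟨rp, rfl⟩ z hzw
  have g2 : U (Fw w rp) ≤ H ^ w.length * U rp := hrp U hU.sup' hU0 w
  rw [hw] at g2
  have g3 : U z ≤ H ^ (n + k + 2) / a * U rp := by
    rw [div_mul_eq_mul_div, le_div_iff₀ ha0]
    linarith
  have hHn : H ^ n ≤ (3 ^ n) ^ p := by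
    rw [← pow_mul, mul_comm, pow_mul]
    exact pow_le_pow_left₀ (by linarith) hp.le n
  have g4 : U z * cphi z ^ p ≤ 27 ^ p * (H ^ (k + 2) / a) * U rp := by
    have h5 : (3 ^ n * cphi z) ^ p ≤ 27 ^ p := pow_le_pow_left₀ (by positivity) hn2 p
    rw [mul_pow] at h5
    have h6 : H ^ n * cphi z ^ p ≤ 27 ^ p :=
      (mul_le_mul_of_nonneg_right hHn (by positivity)).trans h5
    calc U z * cphi z ^ p ≤ (H ^ (n + k + 2) / a * U rp) * cphi z ^ p :=
          mul_le_mul_of_nonneg_right g3 (by positivity)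
      _ = (H ^ n * cphi z ^ p) * (H ^ (k + 2) / a * U rp) := by
          rw [add_assoc, pow_add H n (k + 2)]
          ring
      _ ≤ 27 ^ p * (H ^ (k + 2) / a * U rp) :=
          mul_le_mul_of_nonneg_right h6 (by positivity)
      _ = _ := by ring
  calc U x ≤ 3 ^ p * (U z * cphi z ^ p) := hx1
    _ ≤ 3 ^ p * (27 ^ p * (H ^ (k + 2) / a) * U rp) :=
        mul_le_mul_of_nonneg_left g4 (by positivity)
    _ = _ := by ring

end Pool.Agent.Helper67.SC
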