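import Pool.Agent.Helper67.SC.C1b

/-! Module C2a: bounds near the corner for positive functions vanishing on the left side. -/

open MeasureTheory Filter Topology

noncomputable section

namespace Pool.Agent.Helper67.SC

variable (S : CarForm)

/-- The points `(1/3, 1/3)` and `(2/3, 0)`. -/
def xi : K := F (dg 0 0) c11
def pole : K := F (dg 2 0) c00

/-- Annulus: cells of level 3 whose larger index is `4` (only `(4,0), (4,2), (0,4), (2,4)` exist). -/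
def Ann : Set K := {x | ∃ s : List Dig, s.length = 3 ∧ max (pos s).1 (pos s).2 = 4 ∧ x ∈ cell s}

theorem LamP_subset_out_w3 {p : ℕ × ℕ} (hp : Okp p) (h3 : p.1 ≤ 24) (h4 : p.2 ≤ 24) :
    LamP ⊆ out 1 (w3 p) := by
  unfold Okp at hp
  refine Set.union_subset ?_ ?_
  · apply top_subset_out; rw [hp, w3_length]; simp only; omega
  · apply right_subset_out; rw [hp, w3_length]; simp only; omega

theorem left_subset_out_w3 {p : ℕ × ℕ} (hp : Okp p) (h1 : 2 ≤ p.1) : left ⊆ out 1 (w3 p) := by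
  unfold Okp at hp
  apply left_subset_out; rw [hp]; simp only; omega

theorem pos_zz (k : ℕ) : pos (zz k) = (0, 0) := by
  induction k with
  | zero => rfl
  | succ k ih =>
    have e : zz (k + 1) = dg 0 0 :: zz k := rfl
    rw [e]
    simp only [pos, ih]
    have h1 : (dg 0 0).x = 0 := by decide
    have h2 : (dg 0 0).y = 0 := by decide
    rw [h1, h2]
    simp

theorem zz2_subset_out_w3 {p : ℕ × ℕ} (hp : Okp p) (h1 : 4 ≤ p.1 ∨ 4 ≤ p.2) :
    cell (zz 2) ⊆ out 1 (w3 p) := by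
  unfold Okp at hp
  intro x hx
  obtain ⟨v, hv, hxv⟩ := exists_cell_append (zz 2) 1 hx
  refine ⟨zz 2 ++ v, ?_, ?_, hxv⟩
  · rw [List.length_append, hv]; rfl
  · intro hn
    have hlt := pos_lt v
    have hnn := pos_nonneg v
    rw [hv] at hlt
    obtain ⟨n1, n2⟩ := hn
    rw [pos_append, pos_zz, hp, abs_le] at n1 n2
    simp only [mul_zero, zero_add] at n1 n2
    omega

theorem corner_subset_out_w3 {p : ℕ × ℕ} (hp : Okp p) (h1 : 4 ≤ p.1 ∨ 4 ≤ p.2) (h2 : 2 ≤ p.1)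
    (h3 : p.1 ≤ 24) (h4 : p.2 ≤ 24) : left ∪ LamP ∪ cell (zz 2) ⊆ out 1 (w3 p) :=
  Set.union_subset (Set.union_subset (left_subset_out_w3 hp h2) (LamP_subset_out_w3 hp h3 h4))
    (zz2_subset_out_w3 hp h1)

theorem vertex_of_coord {p : ℕ × ℕ} (hp : Okp p) {x : K} (a b : ℤ) (ha : a = 0 ∨ a = 1)
    (hb : b = 0 ∨ b = 1) (h1 : 27 * x.1.1 = (p.1 : ℝ) + a) (h2 : 27 * x.1.2 = (p.2 : ℝ) + b) :
    x ∈ cell (w3 p) := vertex_w3 hp ha hb h1 h2

theorem pA_coord : pA.1.1 = 1 / 3 ∧ pA.1.2 = 0 := by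
  constructor
  · have e : pA.1.1 = ((0 : ℝ) + ((1 : ℤ) : ℝ)) / 3 := rfl
    rw [e]; norm_num
  · have e : pA.1.2 = ((0 : ℝ) + ((0 : ℤ) : ℝ)) / 3 := rfl
    rw [e]; norm_num

theorem Apt1_coord : (Apt 1).1.1 = 1 / 9 ∧ (Apt 1).1.2 = 0 := by
  constructor
  · have e : (Apt 1).1.1 = (((0 : ℝ) + ((1 : ℤ) : ℝ)) / 3 + ((0 : ℤ) : ℝ)) / 3 := rfl
    rw [e]; norm_num
  · have e : (Apt 1).1.2 = (((0 : ℝ) + ((0 : ℤ) : ℝ)) / 3 + ((0 : ℤ) : ℝ)) / 3 := rfl
    rw [e]; norm_num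

theorem xi_coord : xi.1.1 = 1 / 3 ∧ xi.1.2 = 1 / 3 := by
  constructor
  · have e : xi.1.1 = ((1 : ℝ) + ((0 : ℤ) : ℝ)) / 3 := rfl
    rw [e]; norm_num
  · have e : xi.1.2 = ((1 : ℝ) + ((0 : ℤ) : ℝ)) / 3 := rfl
    rw [e]; norm_num

theorem pole_coord : pole.1.1 = 2 / 3 ∧ pole.1.2 = 0 := by
  constructor
  · have e : pole.1.1 = ((0 : ℝ) + ((2 : ℤ) : ℝ)) / 3 := rfl
    rw [e]; norm_num
  · have e : pole.1.2 = ((0 : ℝ) + ((0 : ℤ) : ℝ)) / 3 := rfl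
    rw [e]; norm_num

theorem ann_pos : ∀ a b c : Dig, max (pos [a, b, c]).1 (pos [a, b, c]).2 = 4 →
      pos [a, b, c] = (4, 0) ∨ pos [a, b, c] = (4, 2) ∨ pos [a, b, c] = (2, 4) ∨
        pos [a, b, c] = (0, 4) := by
  decide +kernel

theorem eq_w3_of_pos {s : List Dig} (hs : s.length = 3) {p : ℕ × ℕ} (hp : Okp p)
    (h : pos s = ((p.1 : ℤ), (p.2 : ℤ))) : s = w3 p :=
  pos_inj (hs.trans rfl) (h.trans hp.symm)

theorem ann_cases (a b c : Dig) (h : max (pos [a, b, c]).1 (pos [a, b, c]).2 = 4) :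
      [a, b, c] = w3 (4, 0) ∨ [a, b, c] = w3 (4, 2) ∨ [a, b, c] = w3 (2, 4) ∨
        [a, b, c] = w3 (0, 4) := by
  rcases ann_pos a b c h with e | e | e | e
  · exact Or.inl (eq_w3_of_pos rfl (by decide +kernel) e)
  · exact Or.inr (Or.inl (eq_w3_of_pos rfl (by decide +kernel) e))
  · exact Or.inr (Or.inr (Or.inl (eq_w3_of_pos rfl (by decide +kernel) e)))
  · exact Or.inr (Or.inr (Or.inr (eq_w3_of_pos rfl (by decide +kernel) e)))

theorem restrict_01 {A : Set K} (hA : A ⊆ left ∪ LamP ∪ cell (zz 2)) :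
    Fw [dg 0 0, dg 0 1] ⁻¹' A ⊆ V0 := by
  intro t ht
  rcases hA ht with (ht | ht) | ht
  · exact Fw_preimage_V0 _ (Or.inl (Or.inl (Or.inl ht)))
  · rcases ht with ht | ht
    · exact Fw_preimage_V0 _ (Or.inr ht)
    · exact Fw_preimage_V0 _ (Or.inl (Or.inl (Or.inr ht)))
  · exact Bd_subset_V0 [dg 0 0, dg 0 1] ⟨zz 2, rfl, by decide +kernel, ht⟩

theorem Fw01_left {t : K} (ht : t ∈ left) : Fw [dg 0 0, dg 0 1] t ∈ left := by
  change (Fw [dg 0 0, dg 0 1] t).1.1 = 0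
  have ht' : t.1.1 = 0 := ht
  rw [Fw_apply1, ht']
  have : (pos [dg 0 0, dg 0 1]).1 = 0 := by decide +kernel
  rw [this]; simp

theorem Fw01_rp : Fw [dg 0 0, dg 0 1] rp ∈ cell (w3 (2, 4)) := by
  have e1 : (Fw [dg 0 0, dg 0 1] rp).1.1
      = ((((0 : ℝ) + ((2 : ℤ) : ℝ)) / 3 + ((0 : ℤ) : ℝ)) / 3 + ((0 : ℤ) : ℝ)) / 3 := rfl
  have e2 : (Fw [dg 0 0, dg 0 1] rp).1.2
      = ((((0 : ℝ) + ((2 : ℤ) : ℝ)) / 3 + ((1 : ℤ) : ℝ)) / 3 + ((0 : ℤ) : ℝ)) / 3 := rfl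
  exact vertex_of_coord (by decide +kernel) 0 1 (Or.inl rfl) (Or.inr rfl)
    (by rw [e1]; norm_num) (by rw [e2]; norm_num)

/-- LAM. On the cells `(4,0), (4,2), (2,4)`: Harnack chain of level 3 through
`(2,4),(2,5),(2,6),(3,6),(4,6),(5,6),(6,6),(6,5),...,(6,0),(5,0),(4,0)`, `(6,2),(5,2),(4,2)` and
`(6,0),(7,0),(8,0) ∋ pA`; all have `left ∪ LamP ∪ cell (zz 2) ⊆ out 1 s`. On the cell `(0,4)`, contained in the cell
`[(0,0),(0,1)]`: `carleson0` for `U ∘ Fw [(0,0),(0,1)]` and the point `Fw [(0,0),(0,1)] rp` is the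
vertex `(2,5)` of level 3, in the cell `(2,4)`. -/
theorem lam_bound : ∃ C : ℝ, 0 < C ∧ ∀ U, HarmOff S (left ∪ LamP ∪ cell (zz 2)) U → 0 ≤ U →
    ZeroOn left U → ∀ x ∈ Ann, U x ≤ C * U pA := by
  obtain ⟨C, hC1, hC⟩ := path_le S
  obtain ⟨C', hC'0, hC'⟩ := carleson0 S
  refine ⟨C + C' * C, by positivity, fun U hU h0 hl x hx => ?_⟩
  have hH := hU.sup'
  have hok : ∀ (l : List (ℕ × ℕ)),
      (∀ r ∈ l, Okp r ∧ (4 ≤ r.1 ∨ 4 ≤ r.2) ∧ 2 ≤ r.1 ∧ r.1 ≤ 24 ∧ r.2 ≤ 24) →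
      ∀ r ∈ l, left ∪ LamP ∪ cell (zz 2) ⊆ out 1 (w3 r) := fun l hl r hr =>
    corner_subset_out_w3 (hl r hr).1 (hl r hr).2.1 (hl r hr).2.2.1 (hl r hr).2.2.2.1
      (hl r hr).2.2.2.2
  have mA : pA ∈ cell (w3 (8, 0)) := vertex_of_coord (by decide +kernel) 1 0 (Or.inr rfl)
    (Or.inl rfl) (by rw [pA_coord.1]; norm_num) (by rw [pA_coord.2]; norm_num)
  have hA0 : 0 ≤ U pA := h0 pA
  have hCA : 0 ≤ C' * C * U pA := by positivity
  have hCA' : 0 ≤ C * U pA := by positivity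
  -- the three Harnack paths
  have g1 : ∀ y ∈ cell (w3 (4, 0)), U y ≤ C * U pA := fun y hy =>
    (hC _ U hH h0 (hpath 8 4 0) (8, 0) (4, 0) (by decide +kernel)
      (hok _ (by decide +kernel)) pA mA y hy).1
  have g2 : ∀ y ∈ cell (w3 (4, 2)), U y ≤ C * U pA := fun y hy =>
    (hC _ U hH h0 (hpath 8 6 0 ++ vpath 6 0 2 ++ hpath 6 4 2) (8, 0) (4, 2) (by decide +kernel)
      (hok _ (by decide +kernel)) pA mA y hy).1
  have g3 : ∀ y ∈ cell (w3 (2, 4)), U y ≤ C * U pA := fun y hy =>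
    (hC _ U hH h0 (hpath 8 6 0 ++ vpath 6 0 6 ++ hpath 6 2 6 ++ vpath 2 6 4) (8, 0) (2, 4)
      (by decide +kernel) (hok _ (by decide +kernel)) pA mA y hy).1
  -- the cell (0, 4)
  have g4 : ∀ y ∈ cell (w3 (0, 4)), U y ≤ C' * C * U pA := by
    intro y hy
    have e : w3 (0, 4) = [dg 0 0, dg 0 1] ++ [dg 0 1] := by decide +kernel
    rw [e] at hy
    obtain ⟨z, rfl⟩ := hy
    rw [Fw_append, ContinuousMap.comp_apply]
    have hres : HarmOff S V0 (U.comp (Fw [dg 0 0, dg 0 1])) :=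
      hU.restrict _ (Bd_subset_V0 _) (restrict_01 subset_rfl)
    have hz : ZeroOn left (U.comp (Fw [dg 0 0, dg 0 1])) := fun t ht => hl _ (Fw01_left ht)
    have h5 := hC' _ hres (fun t => h0 (Fw [dg 0 0, dg 0 1] t)) hz (Fw [dg 0 1] z) ⟨z, rfl⟩
    have h7 := g3 _ Fw01_rp
    calc U (Fw [dg 0 0, dg 0 1] (Fw [dg 0 1] z)) ≤ C' * U (Fw [dg 0 0, dg 0 1] rp) := h5
      _ ≤ C' * (C * U pA) := mul_le_mul_of_nonneg_left h7 hC'0.le
      _ = C' * C * U pA := by ring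
  -- the four cells of the annulus
  obtain ⟨s, hs, hm, hxs⟩ := hx
  obtain ⟨a, b, c, rfl⟩ := List.length_eq_three.1 hs
  rw [add_mul]
  rcases ann_cases a b c hm with e | e | e | e
  · rw [e] at hxs; linarith [g1 x hxs]
  · rw [e] at hxs; linarith [g2 x hxs]
  · rw [e] at hxs; linarith [g3 x hxs]
  · rw [e] at hxs; linarith [g4 x hxs]

/-- Maximum principle inside the annulus: glue `(U - m)⁺` on the cells of level 3 with indices at
most `3` with zero. -/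
theorem inner_le {U : C(K, ℝ)} (hU : SubOff S (left ∪ LamP) U) (h0 : ZeroOn left U) {m : ℝ}
    (hm : 0 ≤ m) (h : ∀ x ∈ Ann, U x ≤ m) : ∀ x ∈ cell (zz 2), U x ≤ m := by
  have hUd := hU.1
  have hUm : U - ContinuousMap.const K m ∈ S.dom := (S.E_sub_const m hUd).1
  have hg : (U - ContinuousMap.const K m) ⊔ 0 ∈ S.dom := S.pos_mem hUm
  obtain ⟨k, hk, hkT, hkT'⟩ := glue_dom (S := S) 3
    {s | (pos s).1 ≤ 3 ∧ (pos s).2 ≤ 3} hg (S.dom.zero_mem) (by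
      intro u v hu hv huT hvT x hxu hxv
      have hn := near_of_mem (hu.trans hv.symm) hxu hxv
      have hA : x ∈ Ann := by
        refine ⟨v, hv, ?_, hxv⟩
        obtain ⟨n1, n2⟩ := hn
        rw [abs_le] at n1 n2
        have hu1 : (pos u).1 ≤ 3 := huT.1
        have hu2 : (pos u).2 ≤ 3 := huT.2
        have hv1 : ¬ ((pos v).1 ≤ 3 ∧ (pos v).2 ≤ 3) := hvT
        omega
      have h1 := h x hA
      change max (U x - m) 0 = 0
      exact max_eq_right (by linarith))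
  have hval : ∀ x, k x = max (U x - m) 0 ∨ k x = 0 := by
    intro x
    obtain ⟨s, hs, hxs⟩ := exists_cell 3 x
    by_cases hsT : s ∈ {s : List Dig | (pos s).1 ≤ 3 ∧ (pos s).2 ≤ 3}
    · left; exact (hkT s hs hsT).2 x hxs
    · right; exact (hkT' s hs hsT).2 x hxs
  have hk0 : 0 ≤ k := by
    intro x
    change 0 ≤ k x
    rcases hval x with h1 | h1
    · rw [h1]; exact le_max_right _ _
    · rw [h1]
  have hkz : ZeroOn (left ∪ LamP) k := by
    rintro x (hx | hx | hx)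
    · rcases hval x with h1 | h1
      · rw [h1, h0 x hx]
        exact max_eq_right (by linarith)
      · exact h1
    · obtain ⟨s, hs, hp, hxs⟩ := exists_cell_top 3 hx
      refine (hkT' s hs ?_).2 x hxs
      intro hsT
      have : (pos s).2 ≤ 3 := hsT.2
      rw [hp] at this
      norm_num at this
    · obtain ⟨s, hs, hp, hxs⟩ := exists_cell_right 3 hx
      refine (hkT' s hs ?_).2 x hxs
      intro hsT
      have : (pos s).1 ≤ 3 := hsT.1
      rw [hp] at this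
      norm_num at this
  have hE : S.E k k ≤ S.E U k := by
    rw [S.E_selfsim 3 hk hk, S.E_selfsim 3 hUd hk]
    refine mul_le_mul_of_nonneg_left ?_ (pow_nonneg S.ρ_pos.le _)
    refine Finset.sum_le_sum fun s hs => ?_
    rw [mem_words] at hs
    have hUs := S.comp_Fw_mem s hUd
    by_cases hsT : s ∈ {s : List Dig | (pos s).1 ≤ 3 ∧ (pos s).2 ≤ 3}
    · rw [(hkT s hs hsT).1]
      have e1 : ((U - ContinuousMap.const K m) ⊔ 0).comp (Fw s)
          = (U.comp (Fw s) - ContinuousMap.const K m) ⊔ 0 := by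
        ext x; rfl
      have hUsm : U.comp (Fw s) - ContinuousMap.const K m ∈ S.dom := (S.E_sub_const m hUs).1
      rw [e1, ← S.E_sub_const_left m hUs (S.pos_mem hUsm)]
      exact S.E_pos_pos_le hUsm
    · rw [(hkT' s hs hsT).1]
      have e1 : (0 : C(K, ℝ)).comp (Fw s) = 0 := by
        ext x; rfl
      rw [e1, S.E_zero_right hUs, S.E_zero_right S.dom.zero_mem]
  have hkE : S.E k k ≤ 0 := hE.trans (hU.2 k hk hk0 hkz)
  have hc0 : k c00 = 0 := hkz c00 (Or.inl rfl)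
  have hk00 : k = 0 := S.eq_zero_of_E hk hkE hc0
  intro x hx
  obtain ⟨v, hv, hxv⟩ := exists_cell_append (zz 2) 1 hx
  have hsT : (zz 2 ++ v) ∈ {s : List Dig | (pos s).1 ≤ 3 ∧ (pos s).2 ≤ 3} := by
    have hlt := pos_lt v
    rw [hv] at hlt
    change (pos (zz 2 ++ v)).1 ≤ 3 ∧ (pos (zz 2 ++ v)).2 ≤ 3
    rw [pos_append, pos_zz]
    simp only [mul_zero, zero_add]
    omega
  have h1 : k x = max (U x - m) 0 := (hkT (zz 2 ++ v) (by rw [List.length_append, hv]; rfl) hsT).2 x hxv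
  rw [hk00] at h1
  have h2 : U x - m ≤ max (U x - m) 0 := le_max_left _ _
  rw [← h1] at h2
  have h3 : (0 : C(K, ℝ)) x = 0 := rfl
  rw [h3] at h2
  linarith

theorem carl : ∃ C : ℝ, 0 < C ∧ ∀ U, HarmOff S (left ∪ LamP) U → 0 ≤ U → ZeroOn left U →
    ∀ x ∈ cell (zz 2), U x ≤ C * U pA := by
  obtain ⟨C, hC, h⟩ := lam_bound S
  refine ⟨C, hC, fun U hU h0 hl => ?_⟩
  exact inner_le S hU.sub' hl (mul_nonneg hC.le (h0 pA))
    (h U (hU.mono Set.subset_union_left) h0 hl)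

/-- Harnack chains along the bottom row and the column of index 8 (level 3). -/
theorem chains : ∃ C : ℝ, 1 ≤ C ∧ ∀ H, SupOff S (left ∪ LamP) H → 0 ≤ H →
    H pA ≤ C * H (Apt 1) ∧ H (Apt 1) ≤ C * H pA ∧ H pA ≤ C * H xi ∧ H xi ≤ C * H pA ∧
      H pole ≤ C * H pA := by
  obtain ⟨C, hC1, hC⟩ := path_le S
  refine ⟨C, hC1, fun H hH h0 => ?_⟩
  have hok : ∀ (l : List (ℕ × ℕ)), (∀ r ∈ l, Okp r ∧ 2 ≤ r.1 ∧ r.1 ≤ 24 ∧ r.2 ≤ 24) →
      ∀ r ∈ l, left ∪ LamP ⊆ out 1 (w3 r) := fun l hl r hr =>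
    Set.union_subset (left_subset_out_w3 (hl r hr).1 (hl r hr).2.1)
      (LamP_subset_out_w3 (hl r hr).1 (hl r hr).2.2.1 (hl r hr).2.2.2)
  have mA : pA ∈ cell (w3 (8, 0)) := vertex_of_coord (by decide +kernel) 1 0 (Or.inr rfl)
    (Or.inl rfl) (by rw [pA_coord.1]; norm_num) (by rw [pA_coord.2]; norm_num)
  have m1 : Apt 1 ∈ cell (w3 (3, 0)) := vertex_of_coord (by decide +kernel) 0 0 (Or.inl rfl)
    (Or.inl rfl) (by rw [Apt1_coord.1]; norm_num) (by rw [Apt1_coord.2]; norm_num)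
  have m2 : xi ∈ cell (w3 (8, 8)) := vertex_of_coord (by decide +kernel) 1 1 (Or.inr rfl)
    (Or.inr rfl) (by rw [xi_coord.1]; norm_num) (by rw [xi_coord.2]; norm_num)
  have m3 : pole ∈ cell (w3 (18, 0)) := vertex_of_coord (by decide +kernel) 0 0 (Or.inl rfl)
    (Or.inl rfl) (by rw [pole_coord.1]; norm_num) (by rw [pole_coord.2]; norm_num)
  have g1 := hC _ H hH h0 (hpath 8 3 0) (8, 0) (3, 0) (by decide +kernel)
    (hok _ (by decide +kernel)) pA mA (Apt 1) m1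
  have g2 := hC _ H hH h0 (vpath 8 0 8) (8, 0) (8, 8) (by decide +kernel)
    (hok _ (by decide +kernel)) pA mA xi m2
  have g3 := hC _ H hH h0 (hpath 8 18 0) (8, 0) (18, 0) (by decide +kernel)
    (hok _ (by decide +kernel)) pA mA pole m3
  exact ⟨g1.2, g1.1, g2.2, g2.1, g3.1⟩

end Pool.Agent.Helper67.SC
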