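import Pool.Agent.Helper67.SC.C2a

/-! Module C2b: upper bound by the Green function. -/

open MeasureTheory Filter Topology

noncomputable section

namespace Pool.Agent.Helper67.SC

variable (S : CarForm)

/-- A point in a cell of level 4 with larger index between 12 and 14 is in the annulus. -/
theorem c2b_ann {t : List Dig} (ht : t.length = 4) (h1 : 12 ≤ max (pos t).1 (pos t).2)
    (h2 : max (pos t).1 (pos t).2 ≤ 14) {y : K} (hy : y ∈ cell t) : y ∈ Ann := by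
  obtain ⟨t', d, rfl⟩ : ∃ t' d, t = t' ++ [d] := by
    rcases List.eq_nil_or_concat t with h | ⟨t', d, h⟩
    · rw [h] at ht
      simp at ht
    · exact ⟨t', d, by rw [h, List.concat_eq_append]⟩
  refine ⟨t', ?_, ?_, cell_append_subset _ _ hy⟩
  · simpa using ht
  · rw [pos_append] at h1 h2
    have e1 : (pos [d]).1 = d.x := by simp [pos]
    have e2 : (pos [d]).2 = d.y := by simp [pos]
    have b1 := d.x_nonneg
    have b2 := d.y_nonneg
    have b3 := d.x_le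
    have b4 := d.y_le
    simp only [List.length_cons, List.length_nil, zero_add, pow_one, e1, e2] at h1 h2
    omega

theorem c2b_LamP_subset {k : ℤ} {s : List Dig} (hs : s.length = 4)
    (h : max (pos s).1 (pos s).2 + k + 1 < 81) : LamP ⊆ out k s := by
  have e : (3 : ℤ) ^ s.length = 81 := by rw [hs]; norm_num
  rintro x (hx | hx)
  · exact top_subset_out (by rw [e]; omega) hx
  · exact right_subset_out (by rw [e]; omega) hx

/-- the truncated function -/
theorem c2b_trunc {f χ : C(K, ℝ)} (hf : f ∈ S.dom) (hf0 : 0 ≤ f) (hfl : ZeroOn left f)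
    (hχ : χ ∈ S.dom) (hχ0 : ∀ x, 0 ≤ χ x)
    (hχ1 : ∀ s : List Dig, s.length = 4 → (pos s).1 < 13 → (pos s).2 < 13 → ∀ x ∈ cell s, χ x = 1)
    (hχ2 : ∀ s : List Dig, s.length = 4 → 13 < (pos s).1 ∨ 13 < (pos s).2 →
      ∀ x ∈ cell s, χ x = 0)
    {B : ℝ} (hB : 0 ≤ B) (hfB : ∀ y ∈ Ann, f y ≤ B) :
    ∃ k ∈ S.dom, ZeroOn (left ∪ LamP) k ∧
      (∀ s : List Dig, s.length = 4 → (pos s).1 < 13 → (pos s).2 < 13 →
        k.comp (Fw s) = f.comp (Fw s) ∧ ∀ x ∈ cell s, k x = f x) ∧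
      (∀ s : List Dig, s.length = 4 → ¬ ((pos s).1 < 13 ∧ (pos s).2 < 13) →
        k.comp (Fw s) = (f ⊓ (B • χ)).comp (Fw s)) ∧
      (∀ s : List Dig, s.length = 4 → 13 < (pos s).1 ∨ 13 < (pos s).2 → k.comp (Fw s) = 0) := by
  have hBχ : B • χ ∈ S.dom := S.dom.smul_mem _ hχ
  obtain ⟨k, hk, hk1, hk2⟩ := glue_dom (S := S) 4 {s | (pos s).1 < 13 ∧ (pos s).2 < 13} hf
    (S.inf_mem hf hBχ) (by
      intro u v hu hv huT hvT x hxu hxv
      have hn := near_of_mem (hu.trans hv.symm) hxu hxv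
      have hn1 := hn.1
      have hn2 := hn.2
      rw [abs_le] at hn1 hn2
      simp only [Set.mem_ofPred_eq] at huT hvT
      have hA : x ∈ Ann := c2b_ann hv (by omega) (by omega) hxv
      have h1 : χ x = 1 := hχ1 u hu huT.1 huT.2 x hxu
      have h2 := hfB x hA
      show f x = min (f x) (B • χ x)
      rw [h1, smul_eq_mul, mul_one, min_eq_left h2])
  have hk3 : ∀ s : List Dig, s.length = 4 → 13 < (pos s).1 ∨ 13 < (pos s).2 →
      ∀ x ∈ cell s, k x = 0 := by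
    intro s hs hp x hx
    rw [(hk2 s hs (by simp only [Set.mem_ofPred_eq]; omega)).2 x hx]
    show min (f x) (B • χ x) = 0
    rw [hχ2 s hs hp x hx, smul_zero]
    exact min_eq_right (hf0 x)
  refine ⟨k, hk, ?_, fun s hs h1 h2 => hk1 s hs ⟨h1, h2⟩, fun s hs h1 => (hk2 s hs h1).1, ?_⟩
  · rintro x (hx | hx)
    · obtain ⟨s, hs, hxs⟩ := exists_cell 4 x
      by_cases h : (pos s).1 < 13 ∧ (pos s).2 < 13
      · rw [(hk1 s hs h).2 x hxs, hfl x hx]
      · rw [(hk2 s hs h).2 x hxs]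
        show min (f x) (B • χ x) = 0
        rw [hfl x hx]
        exact min_eq_left (mul_nonneg hB (hχ0 x))
    · rcases hx with hx | hx
      · obtain ⟨s, hs, hp, hxs⟩ := exists_cell_top 4 hx
        exact hk3 s hs (Or.inr (by rw [hp]; norm_num)) x hxs
      · obtain ⟨s, hs, hp, hxs⟩ := exists_cell_right 4 hx
        exact hk3 s hs (Or.inl (by rw [hp]; norm_num)) x hxs
  · intro s hs hp
    ext x
    exact hk3 s hs hp _ ⟨x, rfl⟩

/-- energy bound on the cells of index 13 -/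
theorem c2b_energy {C : ℝ} (hcac : ∀ (w : List Dig) (v : C(K, ℝ)) (M : ℝ),
    SubOff S (out 1 w) v → (∀ x ∈ inn 1 w, 0 ≤ v x ∧ v x ≤ M) → S.en v w ≤ C * M ^ 2)
    {f : C(K, ℝ)} {x : K} (hx : x ∈ cell (zz 2)) (hf : HarmOff S (left ∪ LamP ∪ {x}) f)
    (hf0 : 0 ≤ f) (hfl : ZeroOn left f) {B : ℝ} (hfB : ∀ y ∈ Ann, f y ≤ B)
    {s : List Dig} (hs : s.length = 4) (hp : max (pos s).1 (pos s).2 = 13) :
    S.en f s ≤ C * B ^ 2 := by
  apply hcac s f B
  · have h1 : HarmOff S ((LamP ∪ {x}) ∪ left) f := hf.mono (by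
      rintro y ((hy | hy) | hy)
      · exact Or.inr hy
      · exact Or.inl (Or.inl hy)
      · exact Or.inl (Or.inr hy))
    have h2 := h1.sub'.pos_subOff hfl
    have h3 : f ⊔ 0 = f := sup_eq_left.2 hf0
    rw [h3] at h2
    refine h2.mono ?_
    rintro y (hy | hy)
    · exact c2b_LamP_subset hs (by omega) hy
    · rw [Set.mem_singleton_iff] at hy
      subst hy
      obtain ⟨v, hv, hyv⟩ := exists_cell_append (zz 2) 2 hx
      refine ⟨zz 2 ++ v, by simp [zz, hv, hs], fun hn => ?_, hyv⟩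
      have h4 := pos_lt v
      have h5 := pos_nonneg v
      rw [hv] at h4
      have hn1 := hn.1
      have hn2 := hn.2
      rw [pos_append] at hn1 hn2
      have e1 : pos (zz 2) = (0, 0) := by decide
      rw [e1] at hn1 hn2
      simp only [mul_zero, zero_add] at hn1 hn2
      rw [abs_le] at hn1 hn2
      omega
  · rintro y ⟨t, ht, hn, hy⟩
    refine ⟨hf0 y, hfB y (c2b_ann (ht.trans hs) ?_ ?_ hy)⟩
    · have hn1 := hn.1
      have hn2 := hn.2
      rw [abs_le] at hn1 hn2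
      omega
    · have hn1 := hn.1
      have hn2 := hn.2
      rw [abs_le] at hn1 hn2
      omega

/-- Upper bound by the Green function. `G` = Green function with pole `pA`, `G_x` with pole `x` in the
cell of `zz 2`, zero on `A = left ∪ LamP`; `G_x pA = G x` (symmetry). Let `M, m` be upper bounds of
`U`, `G_x` on `Ann` given by `lam_bound`. With the cutoff `χ` of `exists_corner_cutoff` at level `4`,
`a = 13`, the functions `Ũ` (`= U` on the cells with indices `≤ 12`, `U ⊓ M χ` on the cells with larger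
index `13`, `0` elsewhere) and `G̃` (same with `G_x`, `m`) are in the domain and vanish on `A`.
`U x = Ũ x = E G_x Ũ`, `0 = E U G̃`; subtracting, only the cells with larger index `13` remain:
`U x = ρ^4 ∑ (E (U ⊓ Mχ) G_x - E U (G_x ⊓ mχ)) ≤ C M m` by `cacc_sub` (`U`, `G_x` are subharmonic across
`left`, `SubOff.pos_subOff`; the neighbours of these cells are in `Ann`). So
`U x ≤ C (U pA) (G_x pA) = C (U pA) (G x)`. -/
theorem bh_upper : ∃ C : ℝ, 0 < C ∧ ∀ U, HarmOff S (left ∪ LamP) U → 0 ≤ U → ZeroOn left U →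
    ∀ G ∈ S.dom, ZeroOn (left ∪ LamP) G →
      (∀ φ ∈ S.dom, ZeroOn (left ∪ LamP) φ → S.E G φ = φ pA) →
      ∀ x ∈ cell (zz 2), U x ≤ C * U pA * G x := by
  obtain ⟨C1, hC1, hlam⟩ := lam_bound S
  obtain ⟨C2, hC2, hcut⟩ := exists_corner_cutoff S
  obtain ⟨C3, hC3, hcac⟩ := cacc_sub S
  obtain ⟨χ, hχ, hχ01, hχ1, hχ2, hχe⟩ := hcut 4 13
  have hρ := S.ρ_pos
  refine ⟨S.ρ ^ 4 * (8 ^ 4 * (2 * (C3 + C2) * C1 ^ 2)), by positivity, ?_⟩
  intro U hU hU0 hUl G hG hGA hGp x hx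
  have hA : (left ∪ LamP).Nonempty := ⟨c00, Or.inl rfl⟩
  obtain ⟨Gx, hGx, hGxA, hGxp⟩ := exists_green S hA x
  obtain ⟨hGx0, -, hGxh, -⟩ := green_nonneg S hA hGx hGxA hGxp
  have hsymm : Gx pA = G x := by
    rw [← hGp Gx hGx hGxA, ← hGxp G hG hGA, S.E_symm _ hG _ hGx]
  have hUp : 0 ≤ U pA := hU0 pA
  have hGxp0 : 0 ≤ Gx pA := hGx0 pA
  have hGxl : ZeroOn left Gx := fun y hy => hGxA y (Or.inl hy)
  -- bounds on the annulus
  set M := C1 * U pA with hM
  set m := C1 * Gx pA with hm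
  have hM0 : 0 ≤ M := by positivity
  have hm0 : 0 ≤ m := by positivity
  have hUM : ∀ y ∈ Ann, U y ≤ M := hlam U (hU.mono Set.subset_union_left) hU0 hUl
  have hGm : ∀ y ∈ Ann, Gx y ≤ m := hlam Gx (hGxh.mono (by
    rintro y (hy | hy)
    · exact Or.inl hy
    · rw [Set.mem_singleton_iff] at hy
      rw [hy]
      exact Or.inr hx)) hGx0 hGxl
  have hχ0 : ∀ y, 0 ≤ χ y := fun y => (hχ01 y).1
  obtain ⟨U', hU', hU'A, hU'1, hU'2, hU'3⟩ := c2b_trunc S hU.1 hU0 hUl hχ hχ0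
    (fun s hs h1 h2 => hχ1 s hs h1 h2) (fun s hs h => hχ2 s hs h) hM0 hUM
  obtain ⟨G', hG', hG'A, hG'1, hG'2, hG'3⟩ := c2b_trunc S hGx hGx0 hGxl hχ hχ0
    (fun s hs h1 h2 => hχ1 s hs h1 h2) (fun s hs h => hχ2 s hs h) hm0 hGm
  have h1 : S.E Gx U' = U x := by
    rw [hGxp U' hU' hU'A]
    obtain ⟨v, hv, hyv⟩ := exists_cell_append (zz 2) 2 hx
    have h4 := pos_lt v
    rw [hv] at h4
    have e1 : pos (zz 2) = (0, 0) := by decide
    have e2 := pos_append (zz 2) v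
    rw [e1] at e2
    refine (hU'1 (zz 2 ++ v) (by simp [zz, hv]) ?_ ?_).2 x hyv
    · rw [e2]
      simp only [mul_zero, zero_add]
      omega
    · rw [e2]
      simp only [mul_zero, zero_add]
      omega
  have h2 : S.E U G' = 0 := hU.2 G' hG' hG'A
  have h3 : U x = S.ρ ^ 4 * ∑ s ∈ words 4, (S.E (Gx.comp (Fw s)) (U'.comp (Fw s)) -
      S.E (U.comp (Fw s)) (G'.comp (Fw s))) := by
    rw [Finset.sum_sub_distrib, mul_sub, ← S.E_selfsim 4 hGx hU', ← S.E_selfsim 4 hU.1 hG', h1,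
      h2, sub_zero]
  have hterm : ∀ s ∈ words 4, S.E (Gx.comp (Fw s)) (U'.comp (Fw s)) -
      S.E (U.comp (Fw s)) (G'.comp (Fw s)) ≤ 2 * (C3 + C2) * (M * m) := by
    intro s hs
    rw [mem_words] at hs
    have hpos : 0 ≤ 2 * (C3 + C2) * (M * m) := by positivity
    by_cases hp : (pos s).1 < 13 ∧ (pos s).2 < 13
    · rw [(hU'1 s hs hp.1 hp.2).1, (hG'1 s hs hp.1 hp.2).1,
        S.E_symm _ (S.comp_Fw_mem s hGx) _ (S.comp_Fw_mem s hU.1), sub_self]
      exact hpos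
    by_cases hp' : 13 < (pos s).1 ∨ 13 < (pos s).2
    · rw [hU'3 s hs hp', hG'3 s hs hp', S.E_zero_right (S.comp_Fw_mem s hGx),
        S.E_zero_right (S.comp_Fw_mem s hU.1), sub_self]
      exact hpos
    have hmax : max (pos s).1 (pos s).2 = 13 := by omega
    -- the energies
    have eU : S.en U s ≤ C3 * M ^ 2 := c2b_energy S hcac hx (hU.mono Set.subset_union_left) hU0
      hUl hUM hs hmax
    have eG : S.en Gx s ≤ C3 * m ^ 2 := c2b_energy S hcac hx hGxh hGx0 hGxl hGm hs hmax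
    have hcomb : ∀ (f k : C(K, ℝ)) (B : ℝ), f ∈ S.dom → k.comp (Fw s) =
        (f ⊓ (B • χ)).comp (Fw s) → S.en f s ≤ C3 * B ^ 2 →
        S.E (k.comp (Fw s)) (k.comp (Fw s)) ≤ (C3 + C2) * B ^ 2 := by
      intro f k B hf hk he
      rw [hk]
      have e1 : (f ⊓ (B • χ)).comp (Fw s) = f.comp (Fw s) ⊓ B • χ.comp (Fw s) := by
        ext y; rfl
      have hχs := S.comp_Fw_mem s hχ
      rw [e1]
      refine (S.E_inf_le (S.comp_Fw_mem s hf) (S.dom.smul_mem B hχs)).trans ?_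
      rw [S.E_smul_self B hχs]
      have h5 : S.E (χ.comp (Fw s)) (χ.comp (Fw s)) ≤ C2 := hχe s hs
      have h6 : S.E (f.comp (Fw s)) (f.comp (Fw s)) ≤ C3 * B ^ 2 := he
      nlinarith [sq_nonneg B]
    have eU' := hcomb U U' M hU.1 (hU'2 s hs hp) eU
    have eG' := hcomb Gx G' m hGx (hG'2 s hs hp) eG
    have hD : 0 ≤ C3 + C2 := by positivity
    have hsq : ∀ B : ℝ, 0 ≤ B → Real.sqrt ((C3 + C2) * B ^ 2) = Real.sqrt (C3 + C2) * B := by
      intro B hB
      rw [Real.sqrt_mul hD, Real.sqrt_sq hB]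
    have b1 : S.E (Gx.comp (Fw s)) (U'.comp (Fw s)) ≤
        (Real.sqrt (C3 + C2) * m) * (Real.sqrt (C3 + C2) * M) := by
      refine (S.E_le (S.comp_Fw_mem s hGx) (S.comp_Fw_mem s hU')).trans ?_
      refine mul_le_mul ?_ ?_ (Real.sqrt_nonneg _) (by positivity)
      · rw [← hsq m hm0]
        refine Real.sqrt_le_sqrt (le_trans eG ?_)
        nlinarith [sq_nonneg m]
      · rw [← hsq M hM0]
        exact Real.sqrt_le_sqrt eU'
    have b2 : -S.E (U.comp (Fw s)) (G'.comp (Fw s)) ≤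
        (Real.sqrt (C3 + C2) * M) * (Real.sqrt (C3 + C2) * m) := by
      refine (neg_le_abs _).trans ((S.E_abs_le (S.comp_Fw_mem s hU.1)
        (S.comp_Fw_mem s hG')).trans ?_)
      refine mul_le_mul ?_ ?_ (Real.sqrt_nonneg _) (by positivity)
      · rw [← hsq M hM0]
        refine Real.sqrt_le_sqrt (le_trans eU ?_)
        nlinarith [sq_nonneg M]
      · rw [← hsq m hm0]
        exact Real.sqrt_le_sqrt eG'
    have hs2 : Real.sqrt (C3 + C2) * Real.sqrt (C3 + C2) = C3 + C2 := Real.mul_self_sqrt hD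
    calc S.E (Gx.comp (Fw s)) (U'.comp (Fw s)) - S.E (U.comp (Fw s)) (G'.comp (Fw s))
        ≤ (Real.sqrt (C3 + C2) * m) * (Real.sqrt (C3 + C2) * M) +
          (Real.sqrt (C3 + C2) * M) * (Real.sqrt (C3 + C2) * m) := by linarith
      _ = 2 * (Real.sqrt (C3 + C2) * Real.sqrt (C3 + C2)) * (M * m) := by ring
      _ = 2 * (C3 + C2) * (M * m) := by rw [hs2]
  have hsum := Finset.sum_le_sum hterm
  rw [Finset.sum_const, card_words, nsmul_eq_mul] at hsum
  rw [h3]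
  calc S.ρ ^ 4 * ∑ s ∈ words 4, (S.E (Gx.comp (Fw s)) (U'.comp (Fw s)) -
      S.E (U.comp (Fw s)) (G'.comp (Fw s)))
      ≤ S.ρ ^ 4 * (((8 ^ 4 : ℕ) : ℝ) * (2 * (C3 + C2) * (M * m))) := by gcongr
    _ = S.ρ ^ 4 * (8 ^ 4 * (2 * (C3 + C2) * C1 ^ 2)) * U pA * Gx pA := by
        rw [hM, hm]
        push_cast
        ring
    _ = S.ρ ^ 4 * (8 ^ 4 * (2 * (C3 + C2) * C1 ^ 2)) * U pA * G x := by rw [hsymm]

end Pool.Agent.Helper67.SC
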