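import Mathlib

/-!
The standard Sierpinski carpet, its eight contractions and its symmetries.
-/

noncomputable section

namespace Pool.Agent.Helper67.SC

/-- The eight digits: pairs of ternary digits different from `(1, 1)`. -/
abbrev Dig := {d : Fin 3 × Fin 3 // d ≠ (1, 1)}

/-- First coordinate of a digit, as an integer. -/
def Dig.x (d : Dig) : ℤ := ((d.1.1 : ℕ) : ℤ)

/-- Second coordinate of a digit, as an integer. -/
def Dig.y (d : Dig) : ℤ := ((d.1.2 : ℕ) : ℤ)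

/-- The standard Sierpinski carpet: points of the square both of whose coordinates have
ternary expansions `∑ a k / 3 ^ (k+1)`, `∑ b k / 3 ^ (k+1)` such that
`(a k, b k) ≠ (1, 1)` for all `k`. -/
def carpet : Set (ℝ × ℝ) :=
  {p | ∃ c : ℕ → Dig, HasSum (fun k => ((c k).x : ℝ) / 3 ^ (k + 1)) p.1 ∧
    HasSum (fun k => ((c k).y : ℝ) / 3 ^ (k + 1)) p.2}

/-- The carpet as a type (with the topology and Borel structure from the plane). -/
abbrev K := ↥carpet

theorem cons_hasSum (a : ℝ) (f : ℕ → ℝ) {s : ℝ} (h : HasSum (fun k => f k / 3 ^ (k + 1)) s) :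
    HasSum (fun k : ℕ => (Nat.casesOn k a f : ℝ) / 3 ^ (k + 1)) ((s + a) / 3) := by
  rw [← hasSum_nat_add_iff' 1]
  simp only [Finset.range_one, Finset.sum_singleton, zero_add, pow_one]
  have h3 := h.div_const 3
  have e1 : (fun n : ℕ => (Nat.casesOn (n + 1) a f : ℝ) / 3 ^ (n + 1 + 1)) =
      fun k => f k / 3 ^ (k + 1) / 3 := by
    funext k
    rw [div_div, ← pow_succ]
  have e2 : (s + a) / 3 - (Nat.casesOn 0 a f : ℝ) / 3 = s / 3 := by
    change (s + a) / 3 - a / 3 = s / 3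
    ring
  rw [e2]
  exact e1 ▸ h3

theorem contr_mem (d : Dig) {p : ℝ × ℝ} (hp : p ∈ carpet) :
    ((p.1 + d.x) / 3, (p.2 + d.y) / 3) ∈ carpet := by
  obtain ⟨c, h1, h2⟩ := hp
  refine ⟨fun k => Nat.casesOn k d c, ?_, ?_⟩
  · have h := cons_hasSum (d.x : ℝ) (fun k => ((c k).x : ℝ)) h1
    have e : (fun k : ℕ => (Nat.casesOn k (d.x : ℝ) (fun k => ((c k).x : ℝ)) : ℝ) / 3 ^ (k + 1)) =
        fun k : ℕ => (((Nat.casesOn k d c : Dig).x : ℤ) : ℝ) / 3 ^ (k + 1) := by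
      funext k; cases k <;> rfl
    rw [e] at h
    exact h
  · have h := cons_hasSum (d.y : ℝ) (fun k => ((c k).y : ℝ)) h2
    have e : (fun k : ℕ => (Nat.casesOn k (d.y : ℝ) (fun k => ((c k).y : ℝ)) : ℝ) / 3 ^ (k + 1)) =
        fun k : ℕ => (((Nat.casesOn k d c : Dig).y : ℤ) : ℝ) / 3 ^ (k + 1) := by
      funext k; cases k <;> rfl
    rw [e] at h
    exact h

theorem hasSum_two : HasSum (fun k : ℕ => (2 : ℝ) / 3 ^ (k + 1)) 1 := by
  have h := (hasSum_geometric_of_lt_one (r := (1 / 3 : ℝ)) (by norm_num) (by norm_num)).mul_left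
    (2 / 3)
  have e : (fun k : ℕ => (2 : ℝ) / 3 ^ (k + 1)) = fun k : ℕ => (2 / 3 : ℝ) * (1 / 3) ^ k := by
    funext k
    rw [one_div, inv_pow, pow_succ]
    field_simp
  rw [e]
  have e2 : (2 / 3 : ℝ) * (1 - 1 / 3)⁻¹ = 1 := by norm_num
  rw [e2] at h
  exact h

/-- Mirror image of a digit under `x ↦ 2 - x`. -/
def Dig.flip (d : Dig) : Dig := ⟨(2 - d.1.1, d.1.2), by
  have := d.2
  intro h
  apply this
  have h1 : 2 - d.1.1 = 1 := (Prod.ext_iff.1 h).1
  have h2 : d.1.2 = 1 := (Prod.ext_iff.1 h).2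
  ext
  · have : d.1.1 = 1 := by
      generalize d.1.1 = a at h1
      revert a; decide
    simp [this]
  · simp [h2]⟩

/-- Mirror image of a digit under exchange of the coordinates. -/
def Dig.swap (d : Dig) : Dig := ⟨(d.1.2, d.1.1), by
  have := d.2
  intro h
  apply this
  have h1 := (Prod.ext_iff.1 h).1
  have h2 := (Prod.ext_iff.1 h).2
  exact Prod.ext h2 h1⟩

theorem Dig.flip_x (d : Dig) : (d.flip.x : ℝ) = 2 - d.x := by
  obtain ⟨⟨a, b⟩, h⟩ := d
  simp only [Dig.flip, Dig.x]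
  fin_cases a
  · norm_num
  · have : ((2 - 1 : Fin 3) : ℕ) = 1 := by decide
    norm_num [this]
  · norm_num

theorem Dig.flip_y (d : Dig) : d.flip.y = d.y := rfl
theorem Dig.swap_x (d : Dig) : d.swap.x = d.y := rfl
theorem Dig.swap_y (d : Dig) : d.swap.y = d.x := rfl

theorem flip_mem {p : ℝ × ℝ} (hp : p ∈ carpet) : (1 - p.1, p.2) ∈ carpet := by
  obtain ⟨c, h1, h2⟩ := hp
  refine ⟨fun k => (c k).flip, ?_, ?_⟩
  · have h := hasSum_two.sub h1
    have e : (fun k : ℕ => (((c k).flip.x : ℤ) : ℝ) / 3 ^ (k + 1)) =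
        fun k : ℕ => 2 / 3 ^ (k + 1) - ((c k).x : ℝ) / 3 ^ (k + 1) := by
      funext k
      rw [Dig.flip_x]
      ring
    exact e ▸ h
  · exact h2

theorem swap_mem {p : ℝ × ℝ} (hp : p ∈ carpet) : (p.2, p.1) ∈ carpet := by
  obtain ⟨c, h1, h2⟩ := hp
  exact ⟨fun k => (c k).swap, h2, h1⟩


/-- The contraction `p ↦ (p + d) / 3` of the carpet. -/
def cellMap (d : Dig) (p : K) : K := ⟨((p.1.1 + d.x) / 3, (p.1.2 + d.y) / 3), contr_mem d p.2⟩

/-- The reflection `(x, y) ↦ (1 - x, y)` of the carpet. -/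
def mirrorX (p : K) : K := ⟨(1 - p.1.1, p.1.2), flip_mem p.2⟩

/-- The reflection `(x, y) ↦ (y, x)` of the carpet. -/
def mirrorDiag (p : K) : K := ⟨(p.1.2, p.1.1), swap_mem p.2⟩

end Pool.Agent.Helper67.SC
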