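import Pool.Agent.Helper67.SC.C2b

/-! Module D4a: scale steps near the corner. -/

open MeasureTheory Filter Topology

noncomputable section

namespace Pool.Agent.Helper67.SC

variable (S : CarForm)

/-- `V` is the Green function with pole `(2/3, 0)` and zero values on `left ∪ LamP`. -/
def IsV (V : C(K, ℝ)) : Prop :=
  V ∈ S.dom ∧ ZeroOn (left ∪ LamP) V ∧ ∀ φ ∈ S.dom, ZeroOn (left ∪ LamP) φ → S.E V φ = φ pole

theorem d4a_isClosed_left : IsClosed left := by
  apply isClosed_eq (by fun_prop) continuous_const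

theorem d4a_isClosed_LamP : IsClosed LamP := by
  apply IsClosed.union
  · exact isClosed_eq (by fun_prop) continuous_const
  · exact isClosed_eq (by fun_prop) continuous_const

theorem d4a_isClosed_A : IsClosed (left ∪ LamP) := d4a_isClosed_left.union d4a_isClosed_LamP

theorem d4a_nonempty : (left ∪ LamP).Nonempty := ⟨c00, Or.inl rfl⟩

theorem d4a_pole_notMem : pole ∉ left ∪ LamP := by
  have h1 : pole.1.1 = 2 / 3 := by
    show ((0 : ℝ) + ((dg 2 0).x : ℝ)) / 3 = 2 / 3
    simp [dg, Dig.x]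
  have h2 : pole.1.2 = 0 := by
    show ((0 : ℝ) + ((dg 2 0).y : ℝ)) / 3 = 0
    simp [dg, Dig.y]
  rintro (h | h | h)
  · have h' : pole.1.1 = 0 := h
    rw [h1] at h'
    norm_num at h'
  · have h' : pole.1.2 = 1 := h
    rw [h2] at h'
    norm_num at h'
  · have h' : pole.1.1 = 1 := h
    rw [h1] at h'
    norm_num at h'

theorem d4a_pA_notMem : pA ∉ left ∪ LamP := by
  have h1 : pA.1.1 = 1 / 3 := by
    show ((0 : ℝ) + ((dg 1 0).x : ℝ)) / 3 = 1 / 3
    simp [dg, Dig.x]
  have h2 : pA.1.2 = 0 := by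
    show ((0 : ℝ) + ((dg 1 0).y : ℝ)) / 3 = 0
    simp [dg, Dig.y]
  rintro (h | h | h)
  · have h' : pA.1.1 = 0 := h
    rw [h1] at h'
    norm_num at h'
  · have h' : pA.1.2 = 1 := h
    rw [h2] at h'
    norm_num at h'
  · have h' : pA.1.1 = 1 := h
    rw [h1] at h'
    norm_num at h'

/-- Green functions are positive at the pole. -/
theorem d4a_green_pos {A : Set K} (hA : A.Nonempty) (hAc : IsClosed A) {a : K} (ha : a ∉ A)
    {G : C(K, ℝ)} (hG : G ∈ S.dom) (h0 : ZeroOn A G)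
    (h : ∀ φ ∈ S.dom, ZeroOn A φ → S.E G φ = φ a) : 0 < G a := by
  by_contra hcon
  push Not at hcon
  obtain ⟨x, hx⟩ := hA
  have h1 : G = 0 := S.eq_zero_of_E hG (by rw [h G hG h0]; exact hcon) (h0 x hx)
  obtain ⟨χ, hχ, -, hχ0, hχ1⟩ := S.exists_urysohn hAc (isClosed_singleton (x := a))
    (Set.disjoint_singleton_right.2 ha)
  have h2 := h χ hχ hχ0
  rw [h1, S.E_zero_left hχ, hχ1 a rfl] at h2
  norm_num at h2

theorem d4a_pos_zz (k : ℕ) : pos (zz k) = (0, 0) := by
  induction k with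
  | zero => rfl
  | succ k ih =>
    have e : zz (k + 1) = dg 0 0 :: zz k := rfl
    rw [e, pos, ih]
    simp [dg, Dig.x, Dig.y]

theorem d4a_len_zz (k : ℕ) : (zz k).length = k := by simp [zz]

theorem d4a_Fw1 (k : ℕ) (x : K) : (Fw (zz k) x).1.1 = x.1.1 / 3 ^ k := by
  rw [Fw_apply1, d4a_pos_zz, d4a_len_zz]
  simp

theorem d4a_Fw2 (k : ℕ) (x : K) : (Fw (zz k) x).1.2 = x.1.2 / 3 ^ k := by
  rw [Fw_apply2, d4a_pos_zz, d4a_len_zz]
  simp

theorem d4a_pre_left (k : ℕ) : Fw (zz k) ⁻¹' left ⊆ left := by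
  intro x hx
  have h1 : (Fw (zz k) x).1.1 = 0 := hx
  rw [d4a_Fw1] at h1
  have h3 : (3 : ℝ) ^ k ≠ 0 := by positivity
  show x.1.1 = 0
  rcases div_eq_zero_iff.1 h1 with h | h
  · exact h
  · exact absurd h h3

theorem d4a_pre_LamP (k : ℕ) : Fw (zz k) ⁻¹' LamP ⊆ LamP := by
  intro x hx
  have h3 : (1 : ℝ) ≤ 3 ^ k := one_le_pow₀ (by norm_num)
  have h3' : (0 : ℝ) < 3 ^ k := by positivity
  have hb := K_bounds x
  rcases hx with hx | hx
  · have h1 : (Fw (zz k) x).1.2 = 1 := hx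
    rw [d4a_Fw2, div_eq_one_iff_eq h3'.ne'] at h1
    left
    show x.1.2 = 1
    linarith [hb.2.2.2]
  · have h1 : (Fw (zz k) x).1.1 = 1 := hx
    rw [d4a_Fw1, div_eq_one_iff_eq h3'.ne'] at h1
    right
    show x.1.1 = 1
    linarith [hb.2.1]

theorem d4a_pre_A (k : ℕ) : Fw (zz k) ⁻¹' (left ∪ LamP) ⊆ left ∪ LamP := by
  rintro x (hx | hx)
  · exact Or.inl (d4a_pre_left k hx)
  · exact Or.inr (d4a_pre_LamP k hx)

theorem d4a_Bd (k : ℕ) : Bd (zz k) ⊆ LamP := Bd_subset_LamP (d4a_pos_zz k)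

theorem d4a_zz_add (j k : ℕ) : zz (j + k) = zz j ++ zz k := List.replicate_add j k _

theorem d4a_Fw_add (j k : ℕ) (x : K) : Fw (zz (j + k)) x = Fw (zz j) (Fw (zz k) x) := by
  rw [d4a_zz_add, Fw_append]
  rfl

theorem d4a_cell_anti {j k : ℕ} (h : j ≤ k) : cell (zz k) ⊆ cell (zz j) := by
  obtain ⟨i, rfl⟩ := Nat.exists_eq_add_of_le h
  rw [d4a_zz_add]
  exact cell_append_subset _ _

theorem exists_V : ∃ V, IsV S V := by
  obtain ⟨V, hV, hV0, hVp⟩ := exists_green S d4a_nonempty pole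
  exact ⟨V, hV, hV0, hVp⟩

/-- Basic properties: `V ≥ 0`, superharmonic off `left ∪ LamP`, harmonic in the corner cell, positive at
the points `Apt k`, and Harnack between consecutive scales. (`green_nonneg`, `SupOff.restrict`,
`HarmOff.restrict`, `chains` applied to `V ∘ Fw (zz k)`; `V pole = E V V > 0`.) -/
theorem V_props {V : C(K, ℝ)} (hV : IsV S V) :
    0 ≤ V ∧ SupOff S (left ∪ LamP) V ∧ (∀ k, SupOff S (left ∪ LamP) (V.comp (Fw (zz k)))) ∧
      (∀ k, 1 ≤ k → HarmOff S (left ∪ LamP) (V.comp (Fw (zz k)))) ∧ (∀ k, 0 < V (Apt k)) ∧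
      ∃ C : ℝ, 1 ≤ C ∧ ∀ k, V (Apt k) ≤ C * V (Apt (k + 1)) ∧ V (Apt (k + 1)) ≤ C * V (Apt k) ∧
        (∀ x ∈ cell (zz (k + 3)), V x ≤ C * V (Apt (k + 1))) ∧ V (Apt k) ≤ C * V (Fw (zz k) xi) ∧
        V (Fw (zz k) xi) ≤ C * V (Apt k) := by
  obtain ⟨hVd, hV0, hVp⟩ := hV
  obtain ⟨hVn, hVs, hVh, -⟩ := green_nonneg S d4a_nonempty hVd hV0 hVp
  have hsup : ∀ k, SupOff S (left ∪ LamP) (V.comp (Fw (zz k))) := fun k =>
    hVs.restrict (zz k) ((d4a_Bd k).trans Set.subset_union_right) (d4a_pre_A k)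
  have hharm : ∀ k, 1 ≤ k → HarmOff S (left ∪ LamP) (V.comp (Fw (zz k))) := by
    intro k hk
    refine hVh.restrict (zz k) ((d4a_Bd k).trans Set.subset_union_right) ?_
    rintro x (hx | hx)
    · exact d4a_pre_A k hx
    · exfalso
      have h1 : Fw (zz k) x = pole := hx
      have h2 : (Fw (zz k) x).1.1 = pole.1.1 := by rw [h1]
      have h3 : pole.1.1 = 2 / 3 := by
        show ((0 : ℝ) + ((dg 2 0).x : ℝ)) / 3 = 2 / 3
        simp [dg, Dig.x]
      rw [d4a_Fw1, h3] at h2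
      have h4 : (3 : ℝ) ≤ 3 ^ k := by
        calc (3 : ℝ) = 3 ^ 1 := (pow_one _).symm
          _ ≤ 3 ^ k := pow_le_pow_right₀ (by norm_num) hk
      have h5 := (K_bounds x).2.1
      rw [div_eq_iff (by positivity)] at h2
      linarith
  have hnn : ∀ k, 0 ≤ V.comp (Fw (zz k)) := fun k y => hVn (Fw (zz k) y)
  have hpole : 0 < V pole := d4a_green_pos S d4a_nonempty d4a_isClosed_A d4a_pole_notMem hVd hV0
    hVp
  obtain ⟨C, hC, hch⟩ := chains S
  have hA0 : Apt 0 = pA := rfl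
  have e1 : ∀ k, (V.comp (Fw (zz k))) pA = V (Apt k) := fun k => rfl
  have e2 : ∀ k, (V.comp (Fw (zz k))) (Apt 1) = V (Apt (k + 1)) := by
    intro k
    show V (Fw (zz k) (Fw (zz 1) pA)) = V (Fw (zz (k + 1)) pA)
    rw [d4a_Fw_add]
  have e3 : ∀ k, (V.comp (Fw (zz k))) xi = V (Fw (zz k) xi) := fun k => rfl
  have hpos : ∀ k, 0 < V (Apt k) := by
    intro k
    induction k with
    | zero =>
      have h := (hch V hVs hVn).2.2.2.2
      rw [hA0]
      by_contra hcon
      push Not at hcon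
      have : C * V pA ≤ 0 := mul_nonpos_of_nonneg_of_nonpos (by linarith) hcon
      linarith
    | succ k ih =>
      have h := (hch _ (hsup k) (hnn k)).1
      rw [e1, e2] at h
      by_contra hcon
      push Not at hcon
      have : C * V (Apt (k + 1)) ≤ 0 := mul_nonpos_of_nonneg_of_nonpos (by linarith) hcon
      linarith
  obtain ⟨C', hC', hcarl⟩ := carl S
  refine ⟨hVn, hVs, hsup, hharm, hpos, max C C', le_max_of_le_left hC, fun k => ?_⟩
  have hb : ∀ a b : ℝ, 0 ≤ b → a ≤ C * b → a ≤ max C C' * b := fun a b hb h =>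
    h.trans (mul_le_mul_of_nonneg_right (le_max_left _ _) hb)
  have hb' : ∀ a b : ℝ, 0 ≤ b → a ≤ C' * b → a ≤ max C C' * b := fun a b hb h =>
    h.trans (mul_le_mul_of_nonneg_right (le_max_right _ _) hb)
  have hk := hch _ (hsup k) (hnn k)
  rw [e1, e2, e3] at hk
  obtain ⟨h1, h2, h3, h4, -⟩ := hk
  refine ⟨hb _ _ (hpos (k + 1)).le h1, hb _ _ (hpos k).le h2, ?_, hb _ _ (hVn _) h3,
    hb _ _ (hpos k).le h4⟩
  rintro x ⟨y, rfl⟩
  refine hb' _ _ (hpos (k + 1)).le ?_
  have h5 := hcarl _ (hharm (k + 1) (by omega)) (hnn (k + 1))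
    (fun z hz => hV0 _ (Or.inl (by
      show (Fw (zz (k + 1)) z).1.1 = 0
      have : z.1.1 = 0 := hz
      rw [d4a_Fw1, this, zero_div]))) (Fw (zz 2) y) ⟨y, rfl⟩
  rw [e1] at h5
  have e4 : (V.comp (Fw (zz (k + 1)))) (Fw (zz 2) y) = V (Fw (zz (k + 3)) y) := by
    show V (Fw (zz (k + 1)) (Fw (zz 2) y)) = V (Fw (zz (k + 3)) y)
    rw [← d4a_Fw_add]
  rwa [e4] at h5

theorem d4a_zeroOn_comp {V : C(K, ℝ)} (h : ZeroOn left V) (k : ℕ) :
    ZeroOn left (V.comp (Fw (zz k))) := fun z hz => h _ (by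
      show (Fw (zz k) z).1.1 = 0
      have : z.1.1 = 0 := hz
      rw [d4a_Fw1, this, zero_div])

/-- Scale step. `v ≥ 0` subharmonic off `LamP`, zero on `left`, `v ≤ κ V` on the cell of `zz j`, `j ≥ 1`.
Let `W = κ V - v`, `W ∘ Fw (zz j) ≥ 0` is superharmonic off `left ∪ LamP`. If `v (Fw (zz j) xi) = 0` then
`W ≥ κ V` at this point, so by `chains`, `green_lower` (lower bound of `W ∘ Fw (zz j)` by the Green function `G`
with pole `pA`) and `bh_upper` (upper bound of `V ∘ Fw (zz j)` by `G`), `W ≥ c κ V` on the cell of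
`zz (j + 2)`. -/
theorem scale_step {V : C(K, ℝ)} (hV : IsV S V) : ∃ c : ℝ, 0 < c ∧ c < 1 ∧ ∀ (v : C(K, ℝ)),
    SubOff S LamP v → 0 ≤ v → ZeroOn left v → ∀ (j : ℕ), 1 ≤ j → ∀ κ : ℝ, 0 ≤ κ →
      (∀ x ∈ cell (zz j), v x ≤ κ * V x) → v (Fw (zz j) xi) = 0 →
        ∀ x ∈ cell (zz (j + 2)), v x ≤ (1 - c) * κ * V x := by
  obtain ⟨hVn, hVs, hsup, hharm, hpos, C0, hC0, hprop⟩ := V_props S hV
  obtain ⟨C, hC, hch⟩ := chains S
  obtain ⟨C', hC', hbh⟩ := bh_upper S
  obtain ⟨G, hG, hG0, hGp⟩ := exists_green S d4a_nonempty pA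
  have hGpos : 0 < G pA := d4a_green_pos S d4a_nonempty d4a_isClosed_A d4a_pA_notMem hG hG0 hGp
  obtain ⟨hGn, -, -, -⟩ := green_nonneg S d4a_nonempty hG hG0 hGp
  set D : ℝ := C * C0 * C' * G pA + 1 with hD
  have hD1 : 1 < D := by
    have : 0 < C * C0 * C' * G pA := by positivity
    linarith
  have hDle : C * C0 * C' * G pA ≤ D := by linarith
  refine ⟨1 / D, by positivity, by rw [div_lt_one (by linarith)]; exact hD1, ?_⟩
  intro v hv hv0 hvl j hj κ hκ hle hxi x hx
  -- the function W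
  set W : C(K, ℝ) := κ • V.comp (Fw (zz j)) - v.comp (Fw (zz j)) with hW
  have hWn : 0 ≤ W := by
    intro y
    show 0 ≤ κ * V (Fw (zz j) y) - v (Fw (zz j) y)
    have := hle (Fw (zz j) y) ⟨y, rfl⟩
    linarith
  have hvj : SubOff S (left ∪ LamP) (v.comp (Fw (zz j))) :=
    hv.restrict (zz j) ((d4a_Bd j).trans Set.subset_union_right)
      ((d4a_pre_LamP j).trans Set.subset_union_right)
  have hWs : SupOff S (left ∪ LamP) W := by
    have := ((hsup j).smul hκ).add hvj.neg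
    rwa [← sub_eq_add_neg] at this
  have hWxi : W xi = κ * V (Fw (zz j) xi) := by
    show κ * V (Fw (zz j) xi) - v (Fw (zz j) xi) = _
    rw [hxi, sub_zero]
  have h1 : W xi ≤ C * W pA := (hch W hWs hWn).2.2.2.1
  have h2 : V (Apt j) ≤ C0 * V (Fw (zz j) xi) := (hprop j).2.2.2.1
  -- lower bound of W pA
  have h3 : κ * V (Apt j) ≤ C * C0 * W pA := by
    calc κ * V (Apt j) ≤ κ * (C0 * V (Fw (zz j) xi)) := by gcongr
      _ = C0 * W xi := by rw [hWxi]; ring
      _ ≤ C0 * (C * W pA) := by gcongr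
      _ = C * C0 * W pA := by ring
  obtain ⟨y, rfl⟩ := hx
  set z := Fw (zz 2) y with hz
  have hxz : Fw (zz (j + 2)) y = Fw (zz j) z := d4a_Fw_add j 2 y
  rw [hxz]
  have h4 : V (Fw (zz j) z) ≤ C' * V (Apt j) * G z :=
    hbh _ (hharm j hj) (fun y => hVn (Fw (zz j) y)) (d4a_zeroOn_comp (fun y hy => hV.2.1 y (Or.inl hy)) j)
      G hG hG0 hGp z ⟨y, rfl⟩
  have h5 : W pA * G z ≤ W z * G pA := green_lower S d4a_nonempty hG hG0 hGp hWs hWn z
  have hGz : 0 ≤ G z := hGn z
  have hWz : W z = κ * V (Fw (zz j) z) - v (Fw (zz j) z) := rfl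
  have hWz0 : 0 ≤ W z := hWn z
  -- combine
  have h6 : κ * V (Fw (zz j) z) ≤ D * W z := by
    calc κ * V (Fw (zz j) z) ≤ κ * (C' * V (Apt j) * G z) := by gcongr
      _ = C' * G z * (κ * V (Apt j)) := by ring
      _ ≤ C' * G z * (C * C0 * W pA) := by gcongr
      _ = C * C0 * C' * (W pA * G z) := by ring
      _ ≤ C * C0 * C' * (W z * G pA) := by gcongr
      _ = (C * C0 * C' * G pA) * W z := by ring
      _ ≤ D * W z := by gcongr
  have h7 : 1 / D * (κ * V (Fw (zz j) z)) ≤ W z := by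
    rw [one_div, inv_mul_le_iff₀ (by linarith)]
    exact h6
  rw [hWz] at h7
  linarith

/-- Start: `v ≤ C (sup v) V` on the cell of `zz 3` (compare `v ∘ Fw (zz 1)` with the harmonic function off
`left ∪ LamP` with the same values there, then `bh_upper`, `green_lower`). -/
theorem scale_start {V : C(K, ℝ)} (hV : IsV S V) : ∃ C : ℝ, 0 < C ∧ ∀ (v : C(K, ℝ)),
    SubOff S LamP v → 0 ≤ v → ZeroOn left v → ∀ M : ℝ, (∀ x, v x ≤ M) →
      ∀ x ∈ cell (zz 3), v x ≤ C * M * V x := by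
  obtain ⟨hVn, hVs, hsup, hharm, hpos, C0, hC0, hprop⟩ := V_props S hV
  obtain ⟨C', hC', hbh⟩ := bh_upper S
  obtain ⟨G, hG, hG0, hGp⟩ := exists_green S d4a_nonempty pA
  have hGpos : 0 < G pA := d4a_green_pos S d4a_nonempty d4a_isClosed_A d4a_pA_notMem hG hG0 hGp
  obtain ⟨hGn, -, -, -⟩ := green_nonneg S d4a_nonempty hG hG0 hGp
  have hV1 : 0 < V (Apt 1) := hpos 1
  refine ⟨C' * G pA / V (Apt 1), by positivity, ?_⟩
  intro v hv hv0 hvl M hM x hx
  have hM0 : 0 ≤ M := le_trans (hv0 c00) (hM c00)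
  set v1 : C(K, ℝ) := v.comp (Fw (zz 1)) with hv1
  have hv1s : SubOff S (left ∪ LamP) v1 :=
    hv.restrict (zz 1) ((d4a_Bd 1).trans Set.subset_union_right)
      ((d4a_pre_LamP 1).trans Set.subset_union_right)
  obtain ⟨H, hH, hHA⟩ := exists_dirichlet S d4a_nonempty hv1s.1
  -- comparison
  have h1 : ∀ y, v1 y ≤ H y := by
    intro y
    have h := (hv1s.add hH.sup'.neg).le_zero d4a_nonempty (fun x hx => by
      show v1 x + -H x ≤ 0
      rw [hHA x hx]; linarith) y
    have h' : v1 y + -H y ≤ 0 := h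
    linarith
  have h2 : 0 ≤ H := fun y => le_trans (hv0 (Fw (zz 1) y)) (h1 y)
  have h3 : ∀ y, H y ≤ M := by
    intro y
    have h := ((hH.sub (HarmOff.const (left ∪ LamP) M)).sub').le_zero d4a_nonempty
      (fun x hx => by
        show H x - M ≤ 0
        rw [hHA x hx]
        have := hM (Fw (zz 1) x)
        show v (Fw (zz 1) x) - M ≤ 0
        linarith) y
    have h' : H y - M ≤ 0 := h
    linarith
  have hHl : ZeroOn left H := by
    intro y hy
    rw [hHA y (Or.inl hy)]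
    exact d4a_zeroOn_comp hvl 1 y hy
  obtain ⟨y, rfl⟩ := hx
  set z := Fw (zz 2) y with hz
  have hxz : Fw (zz 3) y = Fw (zz 1) z := d4a_Fw_add 1 2 y
  rw [hxz]
  have h4 : H z ≤ C' * H pA * G z := hbh H hH h2 hHl G hG hG0 hGp z ⟨y, rfl⟩
  have h5 : V (Apt 1) * G z ≤ V (Fw (zz 1) z) * G pA :=
    green_lower S d4a_nonempty hG hG0 hGp (hsup 1) (fun y => hVn (Fw (zz 1) y)) z
  have hGz : 0 ≤ G z := hGn z
  have h6 : G z ≤ V (Fw (zz 1) z) * G pA / V (Apt 1) := by
    rw [le_div_iff₀ hV1]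
    linarith
  calc v (Fw (zz 1) z) ≤ H z := h1 z
    _ ≤ C' * H pA * G z := h4
    _ ≤ C' * M * (V (Fw (zz 1) z) * G pA / V (Apt 1)) := by
        have := h3 pA
        gcongr
    _ = C' * G pA / V (Apt 1) * M * V (Fw (zz 1) z) := by ring

/-- A finite set of naturals has a subset without adjacent elements with at least half of the
elements. -/
theorem d4a_half (J : Finset ℕ) : ∃ J' ⊆ J, (∀ j ∈ J', j + 1 ∉ J') ∧ J.card / 2 ≤ J'.card := by
  have h := Finset.card_filter_add_card_filter_not (s := J) (p := fun j => Even j)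
  by_cases hc : J.card / 2 ≤ (J.filter (fun j => Even j)).card
  · refine ⟨J.filter (fun j => Even j), Finset.filter_subset _ _, ?_, hc⟩
    intro j hj hj'
    rw [Finset.mem_filter] at hj hj'
    exact (Nat.even_add_one.1 hj'.2) hj.2
  · refine ⟨J.filter (fun j => ¬ Even j), Finset.filter_subset _ _, ?_, by omega⟩
    intro j hj hj'
    rw [Finset.mem_filter] at hj hj'
    exact hj'.2 (Nat.even_add_one.2 hj.2)

/-- Decay of one part: if `v (Fw (zz j) xi) = 0` for `j ∈ J` then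
`v ≤ C M (1-c)^{|J ∩ [3,k)|/2} V (Apt k)` on the cell of `zz (k+3)` or so. -/
theorem scale_decay {V : C(K, ℝ)} (hV : IsV S V) : ∃ C c : ℝ, 0 < C ∧ 0 < c ∧ c < 1 ∧
    ∀ (v : C(K, ℝ)), SubOff S LamP v → 0 ≤ v → ZeroOn left v → ∀ M : ℝ, (∀ x, v x ≤ M) →
      ∀ (J : Finset ℕ), (∀ j ∈ J, v (Fw (zz j) xi) = 0) → ∀ k : ℕ, (∀ j ∈ J, 3 ≤ j ∧ j < k) →
        ∀ x ∈ cell (zz (k + 4)), v x ≤ C * M * (1 - c) ^ (J.card / 2) * V (Apt k) := by
  obtain ⟨hVn, hVs, hsup, hharm, hpos, C0, hC0, hprop⟩ := V_props S hV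
  obtain ⟨c, hc0, hc1, hstep⟩ := scale_step S hV
  obtain ⟨C1, hC1, hstart⟩ := scale_start S hV
  refine ⟨C1 * C0 ^ 3, c, by positivity, hc0, hc1, ?_⟩
  intro v hv hv0 hvl M hM J hJ k hk x hx
  have hM0 : 0 ≤ M := le_trans (hv0 c00) (hM c00)
  have hc : 0 ≤ 1 - c := by linarith
  obtain ⟨J', hJ'J, hadj, hcard⟩ := d4a_half J
  have key : ∀ n, 3 ≤ n → ∀ y ∈ cell (zz n),
      v y ≤ (C1 * M * (1 - c) ^ (J'.filter (fun j => j + 2 ≤ n)).card) * V y := by
    intro n
    induction n using Nat.strong_induction_on with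
    | _ n ih =>
      intro hn y hy
      by_cases h3 : n = 3
      · subst h3
        have he : J'.filter (fun j => j + 2 ≤ 3) = ∅ := by
          apply Finset.filter_eq_empty_iff.2
          intro j hj
          have := (hk j (hJ'J hj)).1
          omega
        rw [he, Finset.card_empty, pow_zero, mul_one]
        exact hstart v hv hv0 hvl M hM y hy
      · by_cases hmem : n - 2 ∈ J'
        · -- use the scale step
          have hge := (hk _ (hJ'J hmem)).1
          have hih := ih (n - 2) (by omega) hge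
          have he : J'.filter (fun j => j + 2 ≤ n) =
              insert (n - 2) (J'.filter (fun j => j + 2 ≤ n - 2)) := by
            ext j
            simp only [Finset.mem_filter, Finset.mem_insert]
            constructor
            · rintro ⟨h1, h2⟩
              by_cases hj : j = n - 2
              · exact Or.inl hj
              · right
                refine ⟨h1, ?_⟩
                have hne : j ≠ n - 3 := by
                  rintro rfl
                  apply hadj _ h1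
                  have : n - 3 + 1 = n - 2 := by omega
                  rw [this]
                  exact hmem
                omega
            · rintro (h1 | ⟨h1, h2⟩)
              · subst h1
                exact ⟨hmem, by omega⟩
              · exact ⟨h1, by omega⟩
          rw [he, Finset.card_insert_of_notMem (by
            intro h
            rw [Finset.mem_filter] at h
            omega)]
          have e : n = n - 2 + 2 := by omega
          rw [e] at hy
          have h := hstep v hv hv0 hvl (n - 2) (by omega) _ (by positivity) hih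
            (hJ _ (hJ'J hmem)) y hy
          refine h.trans (le_of_eq ?_)
          rw [pow_succ]
          ring
        · have he : J'.filter (fun j => j + 2 ≤ n) = J'.filter (fun j => j + 2 ≤ n - 1) := by
            apply Finset.filter_congr
            intro j hj
            have hne : j ≠ n - 2 := by
              rintro rfl
              exact hmem hj
            constructor
            · intro h; omega
            · intro h; omega
          rw [he]
          exact ih (n - 1) (by omega) (by omega) y (d4a_cell_anti (by omega) hy)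
  have h1 := key (k + 4) (by omega) x hx
  have he : J'.filter (fun j => j + 2 ≤ k + 4) = J' := by
    apply Finset.filter_true_of_mem
    intro j hj
    have := (hk j (hJ'J hj)).2
    omega
  rw [he] at h1
  have h2 : V x ≤ C0 ^ 3 * V (Apt k) := by
    calc V x ≤ C0 * V (Apt (k + 2)) := (hprop (k + 1)).2.2.1 x hx
      _ ≤ C0 * (C0 * V (Apt (k + 1))) := by
          have := (hprop (k + 1)).2.1
          gcongr
      _ ≤ C0 * (C0 * (C0 * V (Apt k))) := by
          have := (hprop k).2.1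
          gcongr
      _ = C0 ^ 3 * V (Apt k) := by ring
  have h3 : (1 - c) ^ J'.card ≤ (1 - c) ^ (J.card / 2) :=
    pow_le_pow_of_le_one hc (by linarith) hcard
  have hVx : 0 ≤ V x := hVn x
  calc v x ≤ (C1 * M * (1 - c) ^ J'.card) * V x := h1
    _ ≤ (C1 * M * (1 - c) ^ (J.card / 2)) * (C0 ^ 3 * V (Apt k)) := by
        gcongr
    _ = C1 * C0 ^ 3 * M * (1 - c) ^ (J.card / 2) * V (Apt k) := by ring

end Pool.Agent.Helper67.SC
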