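import Pool.Agent.Helper67.SC.D4a
import Pool.Agent.Helper67.SC.T2

/-! Module D4b: functions natural on both sides of the corner decay strictly faster. -/

open MeasureTheory Filter Topology

noncomputable section

namespace Pool.Agent.Helper67.SC

variable (S : CarForm)

theorem d4b_one_le_tau {c : K} (h : c ∈ LamP) : 1 ≤ tau c := by
  have hb := K_bounds c
  unfold tau
  rcases h with h | h
  · have h' : c.1.2 = 1 := h
    split_ifs
    · exact h'.ge
    · linarith [hb.1]
  · have h' : c.1.1 = 1 := h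
    split_ifs with h1 h2
    · rw [h'] at h1; exact absurd h1 one_ne_zero
    · linarith [hb.1]
    · linarith [hb.2.2.2]

theorem d4b_tau_le_one {a : K} (h : a ∈ left) : tau a ≤ 1 := by
  have hb := K_bounds a
  have h' : a.1.1 = 0 := h
  unfold tau
  rw [if_pos h']
  exact hb.2.2.2

theorem d4b_LamP_subset_Lam : LamP ⊆ Lam := by
  rintro x (h | h)
  · exact Or.inl (Or.inr h)
  · exact Or.inr h

theorem d4b_c11_mem : c11 ∈ LamP := Or.inl rfl

/-- No component of `{e > ε}` joins `left` and `bot`, if `e` is harmonic off `LamP` and `e c00 = 0`,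
`ε > 0`: the component of `c00` in `{e < ε/2}` reaches `LamP` (otherwise `exists_component` for
`ε/2 - e` gives a function of energy zero), contradiction with `crossing`. -/
theorem no_crossing_component {e : C(K, ℝ)} (he : HarmOff S LamP e) (h0 : e c00 = 0) {ε : ℝ}
    (hε : 0 < ε) {a b : K} (ha : a ∈ left) (hb : b ∈ bot) : ¬ Conn {x | ε < e x} a b := by
  intro hab
  set f : C(K, ℝ) := ContinuousMap.const K (ε / 2) - e with hf
  have hfH : HarmOff S LamP f := (HarmOff.const LamP (ε / 2)).sub he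
  have hfx : ∀ x, f x = ε / 2 - e x := fun x => rfl
  have hopen : IsOpen {y | 0 < f y} := isOpen_lt continuous_const f.continuous
  have hc0 : c00 ∈ {y | 0 < f y} := by
    change 0 < f c00
    rw [hfx, h0]
    linarith
  have hreach : ∃ c ∈ LamP, Conn {y | 0 < f y} c00 c := by
    by_contra hcon
    push Not at hcon
    obtain ⟨φ, hφ, hφ0, hφ1, hφ2, hφ3⟩ := exists_component hfH.1 c00
    have hz : ZeroOn LamP φ := fun x hx => hφ2 x (hcon x hx)
    have h3 := hφ3 0 le_rfl
    have e1 : (φ - ContinuousMap.const K (0 : ℝ)) ⊔ 0 = φ := by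
      ext x
      have : 0 ≤ φ x := hφ0 x
      simp [this]
    rw [e1, hfH.2 φ hφ hz] at h3
    have h4 := S.eq_zero_of_E hφ h3 (hz c11 d4b_c11_mem)
    have h5 := hφ1 c00 (Conn.refl hopen hc0)
    rw [h4, hfx, h0] at h5
    simp only [ContinuousMap.zero_apply, sub_zero] at h5
    linarith
  obtain ⟨c, hc, hcc⟩ := hreach
  have hd : Disjoint {y | 0 < f y} {x | ε < e x} := by
    rw [Set.disjoint_left]
    intro x hx hx'
    have h1 : 0 < f x := hx
    have h2 : ε < e x := hx'
    rw [hfx] at h1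
    linarith
  have hbpos : c00.1.1 < b.1.1 := by
    change (0 : ℝ) < b.1.1
    have hb1 := (K_bounds b).1
    rcases hb1.lt_or_eq with h | h
    · exact h
    · exfalso
      have hbc : b = c00 := K_ext h.symm hb
      have : ε < e b := hab.mem_right
      rw [hbc, h0] at this
      linarith
  have hc0bot : c00 ∈ bot := rfl
  have h := crossing hd hc0bot hb hbpos (d4b_LamP_subset_Lam hc) (Or.inl (Or.inl ha)) hcc hab.symm
  have h1 := d4b_one_le_tau hc
  have h2 := d4b_tau_le_one ha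
  linarith

theorem d4b_swap_LamP {x : K} (h : x ∈ LamP) : swapXY x ∈ LamP := by
  rcases h with h | h
  · exact Or.inr h
  · exact Or.inl h

theorem d4b_swap_subOff {f : C(K, ℝ)} (hf : SubOff S LamP f) : SubOff S LamP (f.comp swapXY) := by
  refine ⟨S.swapXY_mem hf.1, fun φ hφ h0 hz => ?_⟩
  have e : φ = (φ.comp swapXY).comp swapXY := by
    ext x
    rfl
  rw [e, S.E_swap hf.1 (S.swapXY_mem hφ)]
  exact hf.2 _ (S.swapXY_mem hφ) (fun x => h0 (swapXY x)) fun x hx => hz _ (d4b_swap_LamP hx)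

theorem d4b_pos_zz (n : ℕ) : pos (zz n) = (0, 0) := by
  induction n with
  | zero => rfl
  | succ n ih =>
    change pos (dg 0 0 :: zz n) = _
    simp only [pos, ih]
    simp [dg, Dig.x, Dig.y]

theorem d4b_length_zz (n : ℕ) : (zz n).length = n := by simp [zz]

theorem d4b_map_swap_zz (n : ℕ) : (zz n).map Dig.swap = zz n := by
  simp only [zz, List.map_replicate]
  rfl

theorem d4b_swap_Fw_zz (n : ℕ) (x : K) : swapXY (Fw (zz n) x) = Fw (zz n) (swapXY x) := by
  have h := congrArg (fun f : C(K, K) => f x) (swapXY_Fw (zz n))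
  rw [d4b_map_swap_zz] at h
  exact h

theorem d4b_swap_xi : swapXY xi = xi := by
  apply K_ext
  · change (((1 : ℝ)) + (dg 0 0).y) / 3 = (1 + (dg 0 0).x) / 3
    rfl
  · change (((1 : ℝ)) + (dg 0 0).x) / 3 = (1 + (dg 0 0).y) / 3
    rfl

theorem d4b_swap_cell {n : ℕ} {x : K} (h : x ∈ cell (zz n)) : swapXY x ∈ cell (zz n) := by
  obtain ⟨y, rfl⟩ := h
  exact ⟨swapXY y, (d4b_swap_Fw_zz n y).symm⟩

/-- One-sided decay. -/
theorem d4b_pos_decay {V : C(K, ℝ)} (hV : IsV S V) : ∃ C c : ℝ, 0 < C ∧ 0 < c ∧ c < 1 ∧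
    ∀ e : C(K, ℝ), HarmOff S LamP e → e c00 = 0 → ∀ M : ℝ, (∀ x, |e x| ≤ M) →
      ∀ (J : Finset ℕ), (∀ j ∈ J, e (Fw (zz j) xi) ≤ 0) → ∀ k : ℕ, (∀ j ∈ J, 3 ≤ j ∧ j < k) →
        ∀ x ∈ cell (zz (k + 4)), e x ≤ C * M * (1 - c) ^ (J.card / 2) * V (Apt k) := by
  obtain ⟨C, c, hC, hc, hc1, hdec⟩ := scale_decay S hV
  refine ⟨2 * C, c, by positivity, hc, hc1, fun e he h0 M hM J hJ k hk x hx => ?_⟩
  have key : ∀ ε : ℝ, 0 < ε → e x - ε ≤ 2 * C * M * (1 - c) ^ (J.card / 2) * V (Apt k) := by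
    intro ε hε
    set v : C(K, ℝ) := (e - ContinuousMap.const K ε) ⊔ 0 with hvdef
    have hvx : ∀ y, v y = max (e y - ε) 0 := fun y => rfl
    have hv : SubOff S LamP v := he.sub'.pos_sub ε
    have hv0 : 0 ≤ v := CarForm.pos_nonneg' _
    set O : Set K := {y | ε < e y} with hO
    have hOopen : IsOpen O := isOpen_lt continuous_const e.continuous
    set O₂ : Set K := {y | ∃ a ∈ left, Conn O a y} with hO₂
    set O₁ : Set K := {y | y ∈ O ∧ ¬ ∃ a ∈ left, Conn O a y} with hO₁
    have ho2 : IsOpen O₂ := by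
      have : O₂ = ⋃ a ∈ left, {y | Conn O a y} := by
        ext y
        simp [hO₂]
      rw [this]
      exact isOpen_biUnion fun a _ => isOpen_conn hOopen a
    have ho1 : IsOpen O₁ := by
      have : O₁ = ⋃ a ∈ O₁, {y | Conn O a y} := by
        ext y
        simp only [Set.mem_iUnion, Set.mem_setOf_eq, exists_prop]
        constructor
        · intro hy
          exact ⟨y, hy, Conn.refl hOopen hy.1⟩
        · rintro ⟨z, hz, hzy⟩
          refine ⟨hzy.mem_right, ?_⟩
          rintro ⟨a, ha, hay⟩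
          exact hz.2 ⟨a, ha, hay.trans hzy.symm⟩
      rw [this]
      exact isOpen_biUnion fun a _ => isOpen_conn hOopen a
    have hdisj : Disjoint O₁ O₂ := by
      rw [Set.disjoint_left]
      intro y hy hy'
      exact hy.2 hy'
    have hvO : ∀ y, 0 < v y → y ∈ O₁ ∪ O₂ := by
      intro y hy
      have hyO : y ∈ O := by
        change ε < e y
        rw [hvx] at hy
        by_contra hcon
        push Not at hcon
        rw [max_eq_right (by linarith)] at hy
        exact lt_irrefl _ hy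
      by_cases h : ∃ a ∈ left, Conn O a y
      · exact Or.inr h
      · exact Or.inl ⟨hyO, h⟩
    obtain ⟨v₁, hv₁, hv₁0, hv₁1, hv₁2⟩ := exists_split hv.1 hv0 ho1 ho2 hdisj hvO
    set v₂ : C(K, ℝ) := v - v₁ with hv₂
    have hv₂m : v₂ ∈ S.dom := S.dom.sub_mem hv.1 hv₁
    have hcase : ∀ y, (v₁ y = v y ∧ v₂ y = 0) ∨ (v₁ y = 0 ∧ v₂ y = v y) := by
      intro y
      by_cases hy : y ∈ O₁
      · left
        refine ⟨hv₁1 y hy, ?_⟩
        change v y - v₁ y = 0
        rw [hv₁1 y hy, sub_self]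
      · right
        refine ⟨hv₁2 y hy, ?_⟩
        change v y - v₁ y = v y
        rw [hv₁2 y hy, sub_zero]
    have hs1 : SubOff S LamP v₁ := split_subOff hv hv₁ hv0 fun y => (hcase y).imp And.left And.left
    have hs2 : SubOff S LamP v₂ :=
      split_subOff hv hv₂m hv0 fun y => (hcase y).symm.imp And.right And.right
    have hv₂0 : 0 ≤ v₂ := by
      intro y
      change 0 ≤ v₂ y
      rcases hcase y with h | h
      · rw [h.2]
      · rw [h.2]; exact hv0 y
    have hz1 : ZeroOn left v₁ := by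
      intro y hy
      refine hv₁2 y fun hyO => hyO.2 ⟨y, hy, Conn.refl hOopen hyO.1⟩
    have hz2 : ZeroOn bot v₂ := by
      intro y hy
      by_cases hyO : y ∈ O₁
      · change v y - v₁ y = 0
        rw [hv₁1 y hyO, sub_self]
      · have hv0' : v y = 0 := by
          by_contra hne
          have hpos : 0 < v y := lt_of_le_of_ne (hv0 y) (Ne.symm hne)
          rcases hvO y hpos with h | h
          · exact hyO h
          · obtain ⟨a, ha, hay⟩ := h
            exact no_crossing_component S he h0 hε ha hy hay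
        change v y - v₁ y = 0
        rw [hv₁2 y hyO, hv0', sub_zero]
    have hMx : ∀ y, v y ≤ M := by
      intro y
      rw [hvx]
      have h1 := hM y
      rw [abs_le] at h1
      have h2 : 0 ≤ M := (abs_nonneg _).trans (hM y)
      exact max_le (by linarith) h2
    have hle1 : ∀ y, v₁ y ≤ M := by
      intro y
      rcases hcase y with h | h
      · rw [h.1]; exact hMx y
      · rw [h.1]; exact (hv0 y).trans (hMx y)
    have hle2 : ∀ y, v₂ y ≤ M := by
      intro y
      rcases hcase y with h | h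
      · rw [h.2]; exact (hv0 y).trans (hMx y)
      · rw [h.2]; exact hMx y
    have hvxi : ∀ j ∈ J, v (Fw (zz j) xi) = 0 := by
      intro j hj
      rw [hvx]
      exact max_eq_right (by linarith [hJ j hj])
    have hJ1 : ∀ j ∈ J, v₁ (Fw (zz j) xi) = 0 := by
      intro j hj
      rcases hcase (Fw (zz j) xi) with h | h
      · rw [h.1, hvxi j hj]
      · exact h.1
    have hJ2 : ∀ j ∈ J, v₂ (Fw (zz j) xi) = 0 := by
      intro j hj
      rcases hcase (Fw (zz j) xi) with h | h
      · exact h.2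
      · rw [h.2, hvxi j hj]
    have hA := hdec v₁ hs1 hv₁0 hz1 M hle1 J hJ1 k hk x hx
    have hB := hdec (v₂.comp swapXY) (d4b_swap_subOff S hs2) (fun y => hv₂0 (swapXY y))
      (fun y hy => hz2 (swapXY y) hy) M (fun y => hle2 _) J (fun j hj => by
        rw [ContinuousMap.comp_apply, d4b_swap_Fw_zz, d4b_swap_xi]
        exact hJ2 j hj) k hk (swapXY x) (d4b_swap_cell hx)
    rw [ContinuousMap.comp_apply, swapXY_swapXY] at hB
    have hsum : v x = v₁ x + v₂ x := by
      change v x = v₁ x + (v x - v₁ x)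
      ring
    have hex : e x - ε ≤ v x := by
      rw [hvx]
      exact le_max_left _ _
    calc e x - ε ≤ v₁ x + v₂ x := hsum ▸ hex
      _ ≤ _ := by linarith
  by_contra hcon
  push Not at hcon
  set R := 2 * C * M * (1 - c) ^ (J.card / 2) * V (Apt k) with hR
  have h1 := key ((e x - R) / 2) (by linarith)
  linarith

theorem d4b_preimage_LamP (n : ℕ) : Fw (zz n) ⁻¹' LamP ⊆ LamP := by
  intro x hx
  have hb := K_bounds x
  have h3 : (1 : ℝ) ≤ 3 ^ n := one_le_pow₀ (by norm_num)
  rcases hx with h | h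
  · left
    have h' : (Fw (zz n) x).1.2 = 1 := h
    rw [Fw_apply2, d4b_pos_zz, d4b_length_zz, div_eq_iff (by positivity)] at h'
    change x.1.2 = 1
    simp only [Int.cast_zero, zero_add, one_mul] at h'
    linarith [hb.2.2.2]
  · right
    have h' : (Fw (zz n) x).1.1 = 1 := h
    rw [Fw_apply1, d4b_pos_zz, d4b_length_zz, div_eq_iff (by positivity)] at h'
    change x.1.1 = 1
    simp only [Int.cast_zero, zero_add, one_mul] at h'
    linarith [hb.2.1]

/-- If `e ≤ s` on the cell of `zz n` and `e c00 = 0` then `-e ≤ C s` on the cell of `zz (n+1)`. -/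
theorem d4b_two_sided : ∃ C : ℝ, 1 ≤ C ∧ ∀ e : C(K, ℝ), HarmOff S LamP e → e c00 = 0 →
    ∀ (n : ℕ) (s : ℝ), (∀ x ∈ cell (zz n), e x ≤ s) → ∀ x ∈ cell (zz (n + 1)), |e x| ≤ C * s := by
  obtain ⟨c, hc, hc1, hwh⟩ := weak_harnack S
  have hcinv : 1 ≤ c⁻¹ := (one_le_inv₀ hc).2 hc1.le
  refine ⟨c⁻¹, hcinv, fun e he h0 n s hs x hx => ?_⟩
  set H : C(K, ℝ) := ContinuousMap.const K s - e.comp (Fw (zz n)) with hH
  have hHh : HarmOff S LamP H := (HarmOff.const LamP s).sub
    (he.restrict (zz n) (Bd_subset_LamP (d4b_pos_zz n)) (d4b_preimage_LamP n))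
  have hHx : ∀ y, H y = s - e (Fw (zz n) y) := fun y => rfl
  have hc00 : Fw (zz n) c00 = c00 := by
    apply K_ext
    · rw [Fw_apply1, d4b_pos_zz]; simp [c00]
    · rw [Fw_apply2, d4b_pos_zz]; simp [c00]
  have hsub : LamP ⊆ out 1 [dg 0 0] := by
    rintro y (hy | hy)
    · exact top_subset_out (by decide) hy
    · exact right_subset_out (by decide) hy
  have hH0 : ∀ y, 0 ≤ H y := fun y => by
    rw [hHx]
    linarith [hs _ ⟨y, rfl⟩]
  have hs0 : 0 ≤ s := by
    have := hH0 c00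
    rw [hHx, hc00, h0] at this
    linarith
  -- write `x` as a point of the small cell
  have hx' : ∃ y ∈ cell [dg 0 0], Fw (zz n) y = x := by
    obtain ⟨z, hz⟩ := hx
    have e1 : zz (n + 1) = zz n ++ [dg 0 0] := by
      simp only [zz]
      rw [List.replicate_succ']
    rw [e1, Fw_append] at hz
    exact ⟨Fw [dg 0 0] z, ⟨z, rfl⟩, hz⟩
  obtain ⟨y, hy, rfl⟩ := hx'
  have hc0cell : c00 ∈ cell [dg 0 0] := by
    refine ⟨c00, ?_⟩
    apply K_ext
    · rw [Fw_apply1]
      have : (pos [dg 0 0]).1 = 0 := by decide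
      rw [this]; simp [c00]
    · rw [Fw_apply2]
      have : (pos [dg 0 0]).2 = 0 := by decide
      rw [this]; simp [c00]
  have h1 := hwh [dg 0 0] H (hHh.sup'.mono hsub) (fun y _ => hH0 y) c00 hc0cell y hy
  rw [hHx c00, hc00, h0, sub_zero, hHx] at h1
  have h2 : s - e (Fw (zz n) y) ≤ c⁻¹ * s := by
    rw [← div_eq_inv_mul, le_div_iff₀ hc]
    linarith
  have h3 : e (Fw (zz n) y) ≤ s := hs _ ⟨y, rfl⟩
  have h4 : s ≤ c⁻¹ * s := by nlinarith
  rw [abs_le]
  constructor
  · linarith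
  · linarith

/-- D4. For `ε > 0` split `(e - ε)⁺ = v₁ + v₂`, `v₂` = part on the components of `{e > ε}` meeting `left`
(zero on `bot` by `no_crossing_component`), `v₁` = the rest (zero on `left`); apply
`scale_decay` to `v₁` and to `v₂ ∘ swapXY`, with `J = {j | e (Fw (zz j) xi) ≤ 0}`, and let `ε → 0`; same
for `-e` and the complementary set of scales; one of the two sets has at least half of the scales
below `k`; finally, if `e ≤ s` on the cell of `zz k` then `-e ≤ C s` on the cell of `zz (k+1)` by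
`weak_harnack` for `s - e` (value `s` at the corner). -/
theorem even_decay {V : C(K, ℝ)} (hV : IsV S V) {e : C(K, ℝ)} (he : HarmOff S LamP e)
    (h0 : e c00 = 0) : ∀ η > 0, ∃ k₀ : ℕ, ∀ k ≥ k₀, ∀ x ∈ cell (zz k), |e x| ≤ η * V (Apt k) := by
  intro η hη
  obtain ⟨C, c, hC, hc, hc1, hdec⟩ := d4b_pos_decay S hV
  obtain ⟨C₂, hC₂, htwo⟩ := d4b_two_sided S
  obtain ⟨-, -, -, -, hVpos, C₃, hC₃, hVk⟩ := V_props S hV
  set M : ℝ := ‖e‖ with hM
  have hMx : ∀ x, |e x| ≤ M := fun x => e.norm_coe_le_norm x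
  have hq0 : 0 ≤ 1 - c := by linarith
  have hq1 : 1 - c < 1 := by linarith
  have hM0 : 0 ≤ M := norm_nonneg e
  -- the estimate at scale `k + 5`
  have main : ∀ k : ℕ, ∀ x ∈ cell (zz (k + 5)),
      |e x| ≤ C₂ * (C * M * (1 - c) ^ ((k - 3) / 4) * V (Apt k)) := by
    intro k
    set J₁ : Finset ℕ := (Finset.Ico 3 k).filter (fun j => e (Fw (zz j) xi) ≤ 0) with hJ₁
    set J₂ : Finset ℕ := (Finset.Ico 3 k).filter (fun j => ¬ e (Fw (zz j) xi) ≤ 0) with hJ₂
    have hcard : J₁.card + J₂.card = k - 3 := by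
      rw [hJ₁, hJ₂, Finset.card_filter_add_card_filter_not, Nat.card_Ico]
    have hrange1 : ∀ j ∈ J₁, 3 ≤ j ∧ j < k := fun j hj =>
      Finset.mem_Ico.1 (Finset.mem_filter.1 hj).1
    have hrange2 : ∀ j ∈ J₂, 3 ≤ j ∧ j < k := fun j hj =>
      Finset.mem_Ico.1 (Finset.mem_filter.1 hj).1
    have hpow : ∀ n : ℕ, (k - 3) / 4 ≤ n → (1 - c) ^ n ≤ (1 - c) ^ ((k - 3) / 4) := fun n hn =>
      pow_le_pow_of_le_one hq0 hq1.le hn
    have hVk0 := (hVpos k).le
    rcases le_total J₂.card J₁.card with hle | hle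
    · have h1 : ∀ x ∈ cell (zz (k + 4)), e x ≤ C * M * (1 - c) ^ ((k - 3) / 4) * V (Apt k) := by
        intro x hx
        have h2 := hdec e he h0 M hMx J₁ (fun j hj => (Finset.mem_filter.1 hj).2) k hrange1 x hx
        refine h2.trans ?_
        have h3 := hpow (J₁.card / 2) (by omega)
        gcongr
      intro x hx
      exact htwo e he h0 (k + 4) _ h1 x hx
    · have h1 : ∀ x ∈ cell (zz (k + 4)), (-e) x ≤ C * M * (1 - c) ^ ((k - 3) / 4) * V (Apt k) := by
        intro x hx
        have h2 := hdec (-e) he.neg (by rw [ContinuousMap.neg_apply, h0, neg_zero]) M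
          (fun y => by rw [ContinuousMap.neg_apply, abs_neg]; exact hMx y) J₂ (fun j hj => by
            have := (Finset.mem_filter.1 hj).2
            push Not at this
            rw [ContinuousMap.neg_apply]
            linarith) k hrange2 x hx
        refine h2.trans ?_
        have h3 := hpow (J₂.card / 2) (by omega)
        gcongr
      intro x hx
      have h4 := htwo (-e) he.neg (by rw [ContinuousMap.neg_apply, h0, neg_zero]) (k + 4) _ h1 x hx
      rwa [ContinuousMap.neg_apply, abs_neg] at h4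
  have hV5 : ∀ k, V (Apt k) ≤ C₃ ^ 5 * V (Apt (k + 5)) := by
    intro k
    have a0 := (hVk k).1
    have a1 := (hVk (k + 1)).1
    have a2 := (hVk (k + 2)).1
    have a3 := (hVk (k + 3)).1
    have a4 := (hVk (k + 4)).1
    have hC0 : 0 ≤ C₃ := by linarith
    calc V (Apt k) ≤ C₃ * V (Apt (k + 1)) := a0
      _ ≤ C₃ * (C₃ * V (Apt (k + 2))) := by gcongr
      _ ≤ C₃ * (C₃ * (C₃ * V (Apt (k + 3)))) := by gcongr
      _ ≤ C₃ * (C₃ * (C₃ * (C₃ * V (Apt (k + 4))))) := by gcongr
      _ ≤ C₃ * (C₃ * (C₃ * (C₃ * (C₃ * V (Apt (k + 5)))))) := by gcongr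
      _ = _ := by ring
  set B : ℝ := C₂ * C * M * C₃ ^ 5 with hB
  have hB0 : 0 ≤ B := by positivity
  obtain ⟨N, hN⟩ := exists_pow_lt_of_lt_one (show 0 < η / (B + 1) by positivity) hq1
  refine ⟨4 * N + 8, fun k hk x hx => ?_⟩
  obtain ⟨m, rfl⟩ : ∃ m, k = m + 5 := ⟨k - 5, by omega⟩
  have h1 := main m x hx
  have h2 := hV5 m
  have hVpos5 := hVpos (m + 5)
  have h3 : (1 - c) ^ ((m - 3) / 4) ≤ (1 - c) ^ N := pow_le_pow_of_le_one hq0 hq1.le (by omega)
  have h4 : (1 - c) ^ ((m - 3) / 4) ≤ η / (B + 1) := h3.trans hN.le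
  have hp0 : 0 ≤ (1 - c) ^ ((m - 3) / 4) := pow_nonneg hq0 _
  calc |e x| ≤ C₂ * (C * M * (1 - c) ^ ((m - 3) / 4) * V (Apt m)) := h1
    _ ≤ C₂ * (C * M * (1 - c) ^ ((m - 3) / 4) * (C₃ ^ 5 * V (Apt (m + 5)))) := by gcongr
    _ = B * (1 - c) ^ ((m - 3) / 4) * V (Apt (m + 5)) := by rw [hB]; ring
    _ ≤ B * (η / (B + 1)) * V (Apt (m + 5)) := by gcongr
    _ ≤ η * V (Apt (m + 5)) := by
      have : B * (η / (B + 1)) ≤ η := by
        rw [mul_div_assoc', div_le_iff₀ (by positivity)]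
        nlinarith
      gcongr

end Pool.Agent.Helper67.SC
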