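import Pool.Agent.Helper67.SC.D4b
import Pool.Agent.Helper67.SC.P0
import Pool.Agent.Helper67.SC.F5b

/-! Module D5: an object is o(V) on both sides of the point (1/3, 0). -/

open MeasureTheory Filter Topology

noncomputable section

namespace Pool.Agent.Helper67.SC

variable (S : CarForm)

/-- Right and left parts at `(1/3,0)`, both as functions on `K` with `(1/3,0) ↔ c00`. -/
def gR (g : C(K, ℝ)) : C(K, ℝ) := g.comp (F (dg 1 0))
def gL (g : C(K, ℝ)) : C(K, ℝ) := (g.comp (F (dg 0 0))).comp flipX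
/-- Even and odd parts. -/
def evn (g : C(K, ℝ)) : C(K, ℝ) := (1 / 2 : ℝ) • (gR g + gL g) - ContinuousMap.const K (g pA)
def odd (g : C(K, ℝ)) : C(K, ℝ) := (1 / 2 : ℝ) • (gR g - gL g)

theorem d5_Fw1 (d : Dig) : Fw [d] = F d := rfl

theorem d5_pos10 : pos [dg 1 0] = (1, 0) := by
  simp [pos, dg, Dig.x, Dig.y]

theorem d5_pos00 : pos [dg 0 0] = (0, 0) := by
  simp [pos, dg, Dig.x, Dig.y]

theorem d5_comp_flip_flip (f : C(K, ℝ)) : (f.comp flipX).comp flipX = f := by
  ext x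
  change f (flipX (flipX x)) = f x
  rw [flipX_flipX]

theorem d5_flipX_mem {f : C(K, ℝ)} (hf : f ∈ S.dom) : f.comp flipX ∈ S.dom := (S.flip_inv f hf).1

theorem d5_Eflip {f g : C(K, ℝ)} (hf : f ∈ S.dom) (hg : g ∈ S.dom) :
    S.E (f.comp flipX) g = S.E f (g.comp flipX) := by
  have h := S.E_flip hf (d5_flipX_mem S hg)
  rw [d5_comp_flip_flip] at h
  exact h

theorem d5_compF_mem (d : Dig) {g : C(K, ℝ)} (hg : g ∈ S.dom) : g.comp (F d) ∈ S.dom :=
  S.comp_Fw_mem [d] hg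

theorem d5_gR_mem {g : C(K, ℝ)} (hg : g ∈ S.dom) : gR g ∈ S.dom := d5_compF_mem S _ hg

theorem d5_gL_mem {g : C(K, ℝ)} (hg : g ∈ S.dom) : gL g ∈ S.dom :=
  d5_flipX_mem S (d5_compF_mem S _ hg)

theorem d5_evn_mem {g : C(K, ℝ)} (hg : g ∈ S.dom) : evn g ∈ S.dom :=
  S.dom.sub_mem (S.dom.smul_mem _ (S.dom.add_mem (d5_gR_mem S hg) (d5_gL_mem S hg))) (S.const_mem _)

theorem d5_odd_mem {g : C(K, ℝ)} (hg : g ∈ S.dom) : odd g ∈ S.dom :=
  S.dom.smul_mem _ (S.dom.sub_mem (d5_gR_mem S hg) (d5_gL_mem S hg))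

theorem d5_coord {u v : List Dig} (h1 : u.length = 1) (h2 : v.length = 1) {x y : K}
    (h : Fw u x = Fw v y) : ((pos u).1 : ℝ) + x.1.1 = (pos v).1 + y.1.1 ∧
      ((pos u).2 : ℝ) + x.1.2 = (pos v).2 + y.1.2 := by
  have e1 : (Fw u x).1.1 = (Fw v y).1.1 := by rw [h]
  have e2 : (Fw u x).1.2 = (Fw v y).1.2 := by rw [h]
  rw [Fw_apply1, Fw_apply1, h1, h2] at e1
  rw [Fw_apply2, Fw_apply2, h1, h2] at e2
  constructor
  · field_simp at e1
    linarith
  · field_simp at e2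
    linarith

open Classical in
/-- the glued test function -/
def d5_G (φ : C(K, ℝ)) (u : List Dig) : C(K, ℝ) :=
  if u = [dg 1 0] then φ else if u = [dg 0 0] then φ.comp flipX else 0

/-- a word of length one different from both -/
theorem d5_other {u : List Dig} (hu : u.length = 1) (h1 : u ≠ [dg 1 0]) (h0 : u ≠ [dg 0 0]) :
    1 ≤ (pos u).2 ∨ ((pos u).2 = 0 ∧ (pos u).1 = 2) := by
  have hp := pos_nonneg u
  have hq := pos_lt u
  rw [hu] at hq
  by_cases h : 1 ≤ (pos u).2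
  · exact Or.inl h
  · right
    have h2 : (pos u).2 = 0 := by omega
    refine ⟨h2, ?_⟩
    by_contra hne
    have h3 : (pos u).1 = 0 ∨ (pos u).1 = 1 := by
      have : (pos u).1 < 3 := by simpa using hq.1
      omega
    rcases h3 with h3 | h3
    · exact h0 (pos_inj (by rw [hu]; rfl) (by rw [d5_pos00]; exact Prod.ext h3 h2))
    · exact h1 (pos_inj (by rw [hu]; rfl) (by rw [d5_pos10]; exact Prod.ext h3 h2))

theorem d5_zero_of_other {φ : C(K, ℝ)} (hφ : ZeroOn LamP φ) {u v : List Dig} (hu : u.length = 1)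
    (hv : v.length = 1) (hv1 : v ≠ [dg 1 0]) (hv0 : v ≠ [dg 0 0]) {x y : K} (h : Fw u x = Fw v y) :
    d5_G φ u x = 0 := by
  obtain ⟨e1, e2⟩ := d5_coord hu hv h
  have hx := K_bounds x
  have hy := K_bounds y
  unfold d5_G
  by_cases h1 : u = [dg 1 0]
  · rw [if_pos h1]
    rw [h1, d5_pos10] at e1 e2
    apply hφ
    rcases d5_other hv hv1 hv0 with h2 | ⟨h2, h3⟩
    · left
      have h4 : (1:ℝ) ≤ (pos v).2 := by exact_mod_cast h2
      change x.1.2 = 1
      push_cast at e2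
      linarith
    · right
      change x.1.1 = 1
      rw [h3] at e1
      push_cast at e1
      linarith
  · rw [if_neg h1]
    by_cases h0 : u = [dg 0 0]
    · rw [if_pos h0]
      rw [h0, d5_pos00] at e1 e2
      change φ (flipX x) = 0
      apply hφ
      rcases d5_other hv hv1 hv0 with h2 | ⟨h2, h3⟩
      · left
        have h4 : (1:ℝ) ≤ (pos v).2 := by exact_mod_cast h2
        change x.1.2 = 1
        push_cast at e2
        linarith
      · rw [h3] at e1
        push_cast at e1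
        linarith
    · rw [if_neg h0]; rfl

theorem d5_pair {φ : C(K, ℝ)} {x y : K} (h : Fw [dg 1 0] x = Fw [dg 0 0] y) :
    d5_G φ [dg 1 0] x = d5_G φ [dg 0 0] y := by
  obtain ⟨e1, e2⟩ := d5_coord rfl rfl h
  rw [d5_pos10, d5_pos00] at e1 e2
  have hx := K_bounds x
  have hy := K_bounds y
  have hne : ([dg 0 0] : List Dig) ≠ [dg 1 0] := by decide
  unfold d5_G
  rw [if_pos rfl, if_neg hne, if_pos rfl]
  change φ x = φ (flipX y)
  congr 1
  push_cast at e1 e2
  apply K_ext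
  · change x.1.1 = 1 - y.1.1
    linarith
  · change x.1.2 = y.1.2
    linarith

theorem d5_compat {φ : C(K, ℝ)} (hφ : ZeroOn LamP φ) (u v : List Dig) (hu : u.length = 1)
    (hv : v.length = 1) (x y : K) (h : Fw u x = Fw v y) : d5_G φ u x = d5_G φ v y := by
  by_cases hv1 : v = [dg 1 0]
  · by_cases hu1 : u = [dg 1 0]
    · subst hv1; subst hu1
      rw [Fw_injective _ h]
    · by_cases hu0 : u = [dg 0 0]
      · subst hv1; subst hu0
        exact (d5_pair h.symm).symm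
      · have h2 : d5_G φ u x = 0 := by
          unfold d5_G; rw [if_neg hu1, if_neg hu0]; rfl
        rw [h2, d5_zero_of_other hφ hv hu hu1 hu0 h.symm]
  · by_cases hv0 : v = [dg 0 0]
    · by_cases hu1 : u = [dg 1 0]
      · subst hv0; subst hu1
        exact d5_pair h
      · by_cases hu0 : u = [dg 0 0]
        · subst hv0; subst hu0
          rw [Fw_injective _ h]
        · have h2 : d5_G φ u x = 0 := by
            unfold d5_G; rw [if_neg hu1, if_neg hu0]; rfl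
          rw [h2, d5_zero_of_other hφ hv hu hu1 hu0 h.symm]
    · have h2 : d5_G φ v y = 0 := by
        unfold d5_G; rw [if_neg hv1, if_neg hv0]; rfl
      rw [h2, d5_zero_of_other hφ hu hv hv1 hv0 h]

theorem d5_add_harm {g : C(K, ℝ)} (hg : HarmOff S Lam g) : HarmOff S LamP (gR g + gL g) := by
  refine ⟨S.dom.add_mem (d5_gR_mem S hg.1) (d5_gL_mem S hg.1), fun φ hφ h0 => ?_⟩
  obtain ⟨Φ, hΦ⟩ := glue 1 (d5_G φ) (d5_compat h0)
  have hne : ([dg 0 0] : List Dig) ≠ [dg 1 0] := by decide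
  have hΦ1 : Φ.comp (Fw [dg 1 0]) = φ := by
    rw [hΦ _ rfl]; unfold d5_G; rw [if_pos rfl]
  have hΦ0 : Φ.comp (Fw [dg 0 0]) = φ.comp flipX := by
    rw [hΦ _ rfl]; unfold d5_G; rw [if_neg hne, if_pos rfl]
  have hΦ2 : ∀ s : List Dig, s.length = 1 → s ≠ [dg 1 0] → s ≠ [dg 0 0] → Φ.comp (Fw s) = 0 := by
    intro s hs h1 h2
    rw [hΦ _ hs]; unfold d5_G; rw [if_neg h1, if_neg h2]
  have hdom : Φ ∈ S.dom := by
    apply S.mem_of_comp_Fw 1
    intro w hw
    by_cases h1 : w = [dg 1 0]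
    · rw [h1, hΦ1]; exact hφ
    · by_cases h2 : w = [dg 0 0]
      · rw [h2, hΦ0]; exact d5_flipX_mem S hφ
      · rw [hΦ2 w hw h1 h2]; exact S.dom.zero_mem
  have hzero : ZeroOn Lam Φ := by
    intro x hx
    obtain ⟨w, hw, y, hy⟩ := exists_cell 1 x
    have hval : Φ x = Φ.comp (Fw w) y := by rw [← hy]; rfl
    have hb := K_bounds y
    have c1 : x.1.1 = ((pos w).1 + y.1.1) / 3 := by rw [← hy, Fw_apply1, hw, pow_one]
    have c2 : x.1.2 = ((pos w).2 + y.1.2) / 3 := by rw [← hy, Fw_apply2, hw, pow_one]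
    rw [hval]
    by_cases h1 : w = [dg 1 0]
    · rw [h1, d5_pos10] at c1 c2
      push_cast at c1 c2
      exfalso
      rcases hx with (hx | hx) | hx
      · have : x.1.1 = 0 := hx
        linarith
      · have : x.1.2 = 1 := hx
        linarith
      · have : x.1.1 = 1 := hx
        linarith
    · by_cases h2 : w = [dg 0 0]
      · rw [h2, d5_pos00] at c1 c2
        push_cast at c1 c2
        rw [h2, hΦ0]
        change φ (flipX y) = 0
        apply h0
        rcases hx with (hx | hx) | hx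
        · right
          have h3 : x.1.1 = 0 := hx
          change 1 - y.1.1 = 1
          linarith
        · have : x.1.2 = 1 := hx
          exfalso; linarith
        · have : x.1.1 = 1 := hx
          exfalso; linarith
      · rw [hΦ2 w hw h1 h2]; rfl
  have hE := hg.2 Φ hdom hzero
  rw [E_eq_sum_of_zero 1 {[dg 1 0], [dg 0 0]} (by
    intro s hs
    simp only [Finset.mem_insert, Finset.mem_singleton] at hs
    rcases hs with rfl | rfl <;> rfl) hg.1 hdom (by
    intro s hs hn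
    simp only [Finset.mem_insert, Finset.mem_singleton, not_or] at hn
    exact hΦ2 s hs hn.1 hn.2), Finset.sum_pair hne.symm, hΦ1, hΦ0] at hE
  have hρ : S.ρ ^ 1 ≠ 0 := by rw [pow_one]; exact S.ρ_pos.ne'
  have h5 := (mul_eq_zero.1 hE).resolve_left hρ
  rw [S.E_add _ (d5_gR_mem S hg.1) _ (d5_gL_mem S hg.1) _ hφ]
  have h6 : S.E (gL g) φ = S.E (g.comp (Fw [dg 0 0])) (φ.comp flipX) :=
    d5_Eflip S (d5_compF_mem S _ hg.1) hφ
  rw [h6]
  exact h5

/-- Test function `φ` zero on `LamP`: `φ` on the cell `(1,0)`, `φ ∘ flipX` on the cell `(0,0)`, zero on the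
other cells of level 1 is in the domain and vanishes on `Lam`. -/
theorem evn_harm {g : C(K, ℝ)} (hg : HarmOff S Lam g) : HarmOff S LamP (evn g) :=
  ((d5_add_harm S hg).smul _).sub (HarmOff.const _ _)

theorem d5_gL_c00 (g : C(K, ℝ)) : gL g c00 = g pA := by
  change g (F (dg 0 0) (flipX c00)) = g pA
  congr 1
  apply K_ext
  · rw [F_apply1]
    unfold pA
    rw [F_apply1]
    change ((1 - (0:ℝ)) + ((dg 0 0).x : ℝ)) / 3 = ((0:ℝ) + ((dg 1 0).x : ℝ)) / 3
    simp [dg, Dig.x]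
  · rw [F_apply2]
    unfold pA
    rw [F_apply2]
    rfl

theorem evn_zero (g : C(K, ℝ)) : evn g c00 = 0 := by
  have h1 : evn g c00 = (1 / 2 : ℝ) * (gR g c00 + gL g c00) - g pA := rfl
  have h2 : gR g c00 = g pA := rfl
  rw [h1, h2, d5_gL_c00]
  ring

theorem d5_flip_harm {A : Set K} {f : C(K, ℝ)} (hf : HarmOff S A f) (hA : ∀ x ∈ A, flipX x ∈ A) :
    HarmOff S A (f.comp flipX) := by
  refine ⟨d5_flipX_mem S hf.1, fun φ hφ h0 => ?_⟩
  rw [d5_Eflip S hf.1 hφ]
  exact hf.2 _ (d5_flipX_mem S hφ) fun x hx => h0 _ (hA x hx)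

theorem odd_harm {g : C(K, ℝ)} (hg : HarmOff S Lam g) :
    HarmOff S (LamP ∪ left) (odd g) ∧ ZeroOn left (odd g) := by
  have hBd : ∀ w : List Dig, (pos w).2 = 0 → Bd w ⊆ LamP ∪ left := by
    intro w hw x hx
    rcases Bd_subset_Lam hw hx with (h | h) | h
    · exact Or.inr h
    · exact Or.inl (Or.inl h)
    · exact Or.inl (Or.inr h)
  have hpre : ∀ w : List Dig, w.length = 1 → (pos w).2 = 0 → (pos w).1 ≤ 1 →
      Fw w ⁻¹' Lam ⊆ LamP ∪ left := by
    intro w hw h2 h1 x hx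
    have hb := K_bounds x
    have hp := pos_nonneg w
    have c1 : (Fw w x).1.1 = ((pos w).1 + x.1.1) / 3 := by rw [Fw_apply1, hw, pow_one]
    have c2 : (Fw w x).1.2 = ((pos w).2 + x.1.2) / 3 := by rw [Fw_apply2, hw, pow_one]
    have h3 : ((pos w).1 : ℝ) ≤ 1 := by exact_mod_cast h1
    have h4 : (0:ℝ) ≤ (pos w).1 := by exact_mod_cast hp.1
    rw [h2] at c2
    push_cast at c2
    rcases hx with (h | h) | h
    · right
      have : (Fw w x).1.1 = 0 := h
      change x.1.1 = 0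
      linarith
    · have : (Fw w x).1.2 = 1 := h
      exfalso; linarith
    · have : (Fw w x).1.1 = 1 := h
      exfalso; linarith
  have hR : HarmOff S (LamP ∪ left) (gR g) :=
    HarmOff.restrict [dg 1 0] hg (hBd _ (by rw [d5_pos10])) (hpre _ rfl (by rw [d5_pos10])
      (by rw [d5_pos10]))
  have hL0 : HarmOff S (LamP ∪ left) (g.comp (F (dg 0 0))) :=
    HarmOff.restrict [dg 0 0] hg (hBd _ (by rw [d5_pos00])) (hpre _ rfl (by rw [d5_pos00])
      (by rw [d5_pos00]; norm_num))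
  have hL : HarmOff S (LamP ∪ left) (gL g) := by
    refine d5_flip_harm S hL0 fun x hx => ?_
    rcases hx with (h | h) | h
    · exact Or.inl (Or.inl h)
    · right
      have : x.1.1 = 1 := h
      change 1 - x.1.1 = 0
      linarith
    · left; right
      have : x.1.1 = 0 := h
      change 1 - x.1.1 = 1
      linarith
  refine ⟨(hR.sub hL).smul _, fun x hx => ?_⟩
  have h1 : odd g x = (1 / 2 : ℝ) * (gR g x - gL g x) := rfl
  have h2 : gR g x = gL g x := by
    change g (F (dg 1 0) x) = g (F (dg 0 0) (flipX x))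
    congr 1
    have h3 : x.1.1 = 0 := hx
    apply K_ext
    · rw [F_apply1, F_apply1]
      change (x.1.1 + ((dg 1 0).x : ℝ)) / 3 = ((1 - x.1.1) + ((dg 0 0).x : ℝ)) / 3
      rw [h3]
      simp [dg, Dig.x]
    · rw [F_apply2, F_apply2]
      rfl
  rw [h1, h2, sub_self, mul_zero]

theorem d5_zz_length (k : ℕ) : (zz k).length = k := by simp [zz]

theorem d5_zz_succ (k : ℕ) : zz (k + 1) = zz k ++ [dg 0 0] := List.replicate_succ'

theorem d5_pos_zz (k : ℕ) : pos (zz k) = (0, 0) := by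
  induction k with
  | zero => rfl
  | succ k ih =>
    rw [d5_zz_succ, pos_snoc, ih]
    simp [dg, Dig.x, Dig.y]

theorem d5_pos_zzf (k : ℕ) : pos ((zz k).map Dig.flip) = (3 ^ k - 1, 0) := by
  induction k with
  | zero => rfl
  | succ k ih =>
    rw [d5_zz_succ, List.map_append, List.map_cons, List.map_nil, pos_snoc, ih]
    have h1 : (dg 0 0).flip.x = 2 := by decide
    have h2 : (dg 0 0).flip.y = 0 := by decide
    rw [h1, h2, pow_succ]
    ext
    · simp only; ring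
    · simp

/-- right cell and left cell of scale `k` -/
def d5_a (k : ℕ) : List Dig := dg 1 0 :: zz k
def d5_b (k : ℕ) : List Dig := dg 0 0 :: (zz k).map Dig.flip

theorem d5_a_length (k : ℕ) : (d5_a k).length = k + 1 := by simp [d5_a, zz]
theorem d5_b_length (k : ℕ) : (d5_b k).length = k + 1 := by simp [d5_b, zz]

theorem d5_near (k : ℕ) : near 1 (d5_b k) (d5_a k) := by
  have h1 : pos (d5_a k) = (3 ^ k, 0) := by
    unfold d5_a
    simp only [pos, d5_pos_zz, d5_zz_length]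
    simp [dg, Dig.x, Dig.y]
  have h2 : pos (d5_b k) = (3 ^ k - 1, 0) := by
    unfold d5_b
    simp only [pos, d5_pos_zzf, List.length_map, d5_zz_length]
    simp [dg, Dig.x, Dig.y]
  unfold near
  rw [h1, h2]
  simp

theorem d5_en_gR (g : C(K, ℝ)) (w : List Dig) : S.en (gR g) w = S.en g (dg 1 0 :: w) := rfl

theorem d5_en_gL {g : C(K, ℝ)} (hg : g ∈ S.dom) (w : List Dig) :
    S.en (gL g) w = S.en g (dg 0 0 :: w.map Dig.flip) := by
  unfold CarForm.en
  have h1 : (gL g).comp (Fw w) = (g.comp (Fw (dg 0 0 :: w.map Dig.flip))).comp flipX := by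
    have h2 : (gL g).comp (Fw w) = (g.comp (F (dg 0 0))).comp (flipX.comp (Fw w)) := rfl
    rw [h2, flipX_Fw]
    rfl
  rw [h1]
  exact S.E_flip (S.comp_Fw_mem _ hg) (S.comp_Fw_mem _ hg)

/-- column words -/
def d5_col (m : ℕ) : Finset (List Dig) := (words m).filter fun v => (pos v).1 = 0

theorem d5_mem_col {m : ℕ} {v : List Dig} : v ∈ d5_col m ↔ v.length = m ∧ (pos v).1 = 0 := by
  unfold d5_col
  rw [Finset.mem_filter, mem_words]

theorem d5_good_zero (m : ℕ) : Good m 0 := by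
  induction m with
  | zero => rfl
  | succ m ih => exact ⟨0, Or.inl (by ring), ih⟩

theorem d5_sum_image (a : List Dig) (m : ℕ) (f : List Dig → ℝ) :
    ∑ s ∈ (d5_col m).image (fun v => a ++ v), f s = ∑ v ∈ d5_col m, f (a ++ v) :=
  Finset.sum_image fun _ _ _ _ h => List.append_cancel_left h

/-- the chain along the left side of a cell -/
theorem d5_chain {C : ℝ} {δ : List Dig → ℝ} (h : Wt C δ) (a : List Dig) (m : ℕ) :
    δ a ≤ C * ∑ v ∈ d5_col m, δ (a ++ v) := by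
  have hcol : ∀ j : ℕ, j < 3 ^ m → ∃ w : List Dig, w.length = m ∧ pos w = (0, (j : ℤ)) := by
    intro j hj
    exact exists_word_col (d5_good_zero m) (by positivity) (by exact_mod_cast hj)
  have hlink : ∀ j : ℕ, j < 3 ^ m → ∀ s t : List Dig, s.length = m → pos s = (0, 0) →
      t.length = m → pos t = (0, (j : ℤ)) →
      Linked (↑((d5_col m).image fun v => a ++ v)) (a ++ s) (a ++ t) := by
    intro j
    induction j with
    | zero =>
      intro _ s t hs hps ht hpt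
      have : s = t := pos_inj (by rw [hs, ht]) (by rw [hps, hpt]; rfl)
      rw [this]
      exact Relation.ReflTransGen.refl
    | succ j ih =>
      intro hj s t hs hps ht hpt
      obtain ⟨w, hw, hpw⟩ := hcol j (by omega)
      refine (ih (by omega) s w hs hps hw hpw).tail ⟨?_, ?_⟩
      · rw [Finset.mem_coe, Finset.mem_image]
        exact ⟨t, d5_mem_col.2 ⟨ht, by rw [hpt]⟩, rfl⟩
      · rw [near_append_left _ _ _ (by rw [hw, ht])]
        unfold near
        rw [hpw, hpt]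
        simp
  have h3 : 1 ≤ 3 ^ m := Nat.one_le_pow _ _ (by norm_num)
  obtain ⟨s, hs, hps⟩ := hcol 0 (by omega)
  obtain ⟨t, ht, hpt⟩ := hcol (3 ^ m - 1) (by omega)
  have hL := hlink (3 ^ m - 1) (by omega) s t hs (by rw [hps]; rfl) ht hpt
  have hsT : a ++ s ∈ (d5_col m).image (fun v => a ++ v) := by
    rw [Finset.mem_image]
    exact ⟨s, d5_mem_col.2 ⟨hs, by rw [hps]⟩, rfl⟩
  have hc1 : c00 ∈ cell s := by
    refine vertex_mem_cell (a := 0) (b := 0) (Or.inl rfl) (Or.inl rfl) ?_ ?_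
    · rw [hps]; simp [c00]
    · rw [hps]; simp [c00]
  have hc2 : c01 ∈ cell t := by
    refine vertex_mem_cell (a := 0) (b := 1) (Or.inl rfl) (Or.inr rfl) ?_ ?_
    · rw [hpt]; simp [c01]
    · rw [hpt, ht]
      simp only [c01]
      push_cast [Nat.cast_sub h3]
      ring
  have hx : Fw a c00 ∈ cell (a ++ s) := by
    obtain ⟨z, hz⟩ := hc1
    exact ⟨z, by rw [Fw_append, ContinuousMap.comp_apply, hz]⟩
  have hy : Fw a c01 ∈ cell (a ++ t) := by
    obtain ⟨z, hz⟩ := hc2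
    exact ⟨z, by rw [Fw_append, ContinuousMap.comp_apply, hz]⟩
  have key := h.chain a (a.length + m) ((d5_col m).image fun v => a ++ v) (by
    intro s' hs'
    rw [Finset.mem_image] at hs'
    obtain ⟨v, hv, rfl⟩ := hs'
    rw [List.length_append, (d5_mem_col.1 hv).1]) (by omega) (a ++ s) hsT (a ++ t) hL _ hx _ hy
    ⟨c00, rfl⟩ (by
      rw [dist_Fw, dist_eq]
      have e : max |c00.1.1 - c01.1.1| |c00.1.2 - c01.1.2| = 1 := by
        simp [c00, c01]
      rw [e]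
      exact div_le_div_of_nonneg_right (by norm_num) (by positivity))
  rwa [d5_sum_image] at key

theorem d5_decomp (g : C(K, ℝ)) : gR g - ContinuousMap.const K (g pA) = evn g + odd g := by
  ext x
  change gR g x - g pA = ((1 / 2 : ℝ) * (gR g x + gL g x) - g pA) + (1 / 2 : ℝ) * (gR g x - gL g x)
  ring

theorem d5_sqrt_gR {g : C(K, ℝ)} (hg : g ∈ S.dom) (w : List Dig) :
    Real.sqrt (S.en (gR g) w) ≤ Real.sqrt (S.en (evn g) w) + Real.sqrt (S.en (odd g) w) := by
  have h1 := (S.E_sub_const (g pA) (S.comp_Fw_mem w (d5_gR_mem S hg))).2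
  have h2 : (gR g).comp (Fw w) - ContinuousMap.const K (g pA) =
      (evn g).comp (Fw w) + (odd g).comp (Fw w) := by
    have h3 := congrArg (fun f : C(K, ℝ) => f.comp (Fw w)) (d5_decomp g)
    exact h3
  rw [h2] at h1
  unfold CarForm.en
  rw [← h1]
  exact S.sqrt_E_add_le (S.comp_Fw_mem w (d5_evn_mem S hg)) (S.comp_Fw_mem w (d5_odd_mem S hg))

theorem d5_sqrt_odd {g : C(K, ℝ)} (hg : g ∈ S.dom) (w : List Dig) :
    Real.sqrt (S.en (odd g) w) ≤ Real.sqrt (S.en (gR g) w) + Real.sqrt (S.en (gL g) w) := by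
  have hR := S.comp_Fw_mem w (d5_gR_mem S hg)
  have hL := S.comp_Fw_mem w (d5_gL_mem S hg)
  have h1 : (odd g).comp (Fw w) = (1 / 2 : ℝ) • ((gR g).comp (Fw w) - (gL g).comp (Fw w)) := rfl
  refine le_trans ?_ (S.sqrt_E_sub_le hR hL)
  apply Real.sqrt_le_sqrt
  unfold CarForm.en
  rw [h1, S.E_smul_self _ (S.dom.sub_mem hR hL)]
  have h2 := S.E_nonneg _ (S.dom.sub_mem hR hL)
  nlinarith

theorem d5_sum_evn {e : C(K, ℝ)} (he : e ∈ S.dom) (k m : ℕ) :
    ∑ v ∈ d5_col m, Real.sqrt (S.en e (zz k ++ v)) ≤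
      Real.sqrt (8 ^ m) * Real.sqrt (S.en e (zz k)) := by
  have hf := S.comp_Fw_mem (zz k) he
  rw [← Real.sqrt_mul (by positivity)]
  apply Real.le_sqrt_of_sq_le
  refine (sq_sum_le_card_mul_sum_sq).trans ?_
  have h1 : ∀ v, Real.sqrt (S.en e (zz k ++ v)) ^ 2 = S.en (e.comp (Fw (zz k))) v := by
    intro v
    rw [Real.sq_sqrt (S.en_nonneg he _), S.en_comp]
  simp only [h1]
  have h2 : ((d5_col m).card : ℝ) ≤ 8 ^ m := by
    have : (d5_col m).card ≤ 8 ^ m := by
      rw [← card_words m]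
      exact Finset.card_filter_le _ _
    exact_mod_cast this
  have h3 : ∑ v ∈ d5_col m, S.en (e.comp (Fw (zz k))) v ≤ S.en e (zz k) := by
    have h4 : ∑ v ∈ d5_col m, S.en (e.comp (Fw (zz k))) v ≤
        ∑ v ∈ words m, S.en (e.comp (Fw (zz k))) v :=
      Finset.sum_le_sum_of_subset_of_nonneg (Finset.filter_subset _ _)
        fun v _ _ => S.en_nonneg hf v
    have h5 := S.E_eq_sum_en m hf
    have h6 : 0 ≤ ∑ v ∈ words m, S.en (e.comp (Fw (zz k))) v :=
      Finset.sum_nonneg fun v _ => S.en_nonneg hf v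
    have h7 : (1:ℝ) ≤ S.ρ ^ m := one_le_pow₀ (one_lt_rho S).le
    have h8 : S.en e (zz k) = S.ρ ^ m * ∑ v ∈ words m, S.en (e.comp (Fw (zz k))) v := h5
    rw [h8]
    nlinarith
  exact mul_le_mul h2 h3 (Finset.sum_nonneg fun v _ => S.en_nonneg hf v) (by positivity)

theorem d5_zz_pre (j : ℕ) : Fw (zz j) ⁻¹' (LamP ∪ left) ⊆ LamP ∪ left := by
  intro x hx
  have hb := K_bounds x
  have c1 : (Fw (zz j) x).1.1 = x.1.1 / 3 ^ j := by
    rw [Fw_apply1, d5_pos_zz, d5_zz_length]; simp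
  have c2 : (Fw (zz j) x).1.2 = x.1.2 / 3 ^ j := by
    rw [Fw_apply2, d5_pos_zz, d5_zz_length]; simp
  have h3 : (1:ℝ) ≤ 3 ^ j := one_le_pow₀ (by norm_num)
  have h3' : (0:ℝ) < 3 ^ j := by positivity
  rcases hx with (h | h) | h
  · left; left
    have h4 : (Fw (zz j) x).1.2 = 1 := h
    rw [c2, div_eq_one_iff_eq h3'.ne'] at h4
    change x.1.2 = 1
    linarith
  · left; right
    have h4 : (Fw (zz j) x).1.1 = 1 := h
    rw [c1, div_eq_one_iff_eq h3'.ne'] at h4
    change x.1.1 = 1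
    linarith
  · right
    have h4 : (Fw (zz j) x).1.1 = 0 := h
    rw [c1, div_eq_zero_iff] at h4
    exact h4.resolve_right h3'.ne'

theorem d5_zz_preP (j : ℕ) : Fw (zz j) ⁻¹' LamP ⊆ LamP := by
  intro x hx
  have hb := K_bounds x
  have c1 : (Fw (zz j) x).1.1 = x.1.1 / 3 ^ j := by
    rw [Fw_apply1, d5_pos_zz, d5_zz_length]; simp
  have c2 : (Fw (zz j) x).1.2 = x.1.2 / 3 ^ j := by
    rw [Fw_apply2, d5_pos_zz, d5_zz_length]; simp
  have h3 : (1:ℝ) ≤ 3 ^ j := one_le_pow₀ (by norm_num)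
  have h3' : (0:ℝ) < 3 ^ j := by positivity
  rcases hx with h | h
  · left
    have h4 : (Fw (zz j) x).1.2 = 1 := h
    rw [c2, div_eq_one_iff_eq h3'.ne'] at h4
    change x.1.2 = 1
    linarith
  · right
    have h4 : (Fw (zz j) x).1.1 = 1 := h
    rw [c1, div_eq_one_iff_eq h3'.ne'] at h4
    change x.1.1 = 1
    linarith

/-- NOL: the even part carries a definite part of the energy at every scale `k ≥ 1`.
Cells of level `m` along the left side in the lower third (words `(0,0) :: v`, first coordinates zero):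
`content_left` for `odd g ∘ Fw (zz (k-1))` gives `∑ sqrt en ≤ C ρ^{-m} δ`, Cauchy-Schwarz for the even part
gives `∑ sqrt en ≤ 3^{m/2} sqrt (en (evn g) (zz k))`, while `Wt.chain` and `CompTo` give a lower
bound `c δ` for the sum for `gR g`; choose `m`. -/
theorem nol (C : ℝ) (hC : 1 ≤ C) : ∃ D : ℝ, 0 < D ∧ ∀ (g : C(K, ℝ)) (δ : List Dig → ℝ),
    Obj S C g δ → ∀ k : ℕ, 1 ≤ k →
      S.en (gR g) (zz k) + S.en (gL g) (zz k) ≤ D * S.en (evn g) (zz k) := by
  obtain ⟨C0, hC0, hcont⟩ := content_left S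
  have hρ := one_lt_rho S
  have hρ0 := S.ρ_pos
  -- choice of m
  obtain ⟨m, hm3, hm⟩ : ∃ m : ℕ, 3 ≤ m ∧ C ^ 2 * (C0 * (2 * C ^ 3)) * (S.ρ ^ (m + 1))⁻¹ ≤ 1 / 2 := by
    have h1 : Tendsto (fun m : ℕ => C ^ 2 * (C0 * (2 * C ^ 3)) * (S.ρ ^ (m + 1))⁻¹) atTop
        (𝓝 (C ^ 2 * (C0 * (2 * C ^ 3)) * 0)) := by
      refine Tendsto.const_mul _ ?_
      exact (tendsto_inv_atTop_zero.comp (tendsto_pow_atTop_atTop_of_one_lt hρ)).comp
        (tendsto_add_atTop_nat 1)
    rw [mul_zero] at h1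
    have h2 := (h1.eventually (gt_mem_nhds (by norm_num : (0:ℝ) < 1 / 2))).and (eventually_ge_atTop 3)
    obtain ⟨m, hm⟩ := h2.exists
    exact ⟨m, hm.2, hm.1.le⟩
  refine ⟨8 * C ^ 8 * 8 ^ m, by positivity, fun g δ hobj k hk => ?_⟩
  obtain ⟨hg, hwt, hcomp⟩ := hobj
  have hgd := hg.1
  have hup : ∀ v, Real.sqrt (S.en g v) ≤ C * δ v := fun v => (hcomp v.length v le_rfl).2
  have hlow : ∀ v, δ v ≤ C * Real.sqrt (S.en g v) := fun v => (hcomp v.length v le_rfl).1
  obtain ⟨j, rfl⟩ : ∃ j, k = j + 1 := ⟨k - 1, by omega⟩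
  set Δ := δ (d5_a (j + 1)) with hΔ
  have hΔ0 : 0 < Δ := hwt.pos _
  have hR : ∀ i, Real.sqrt (S.en (gR g) (zz i)) ≤ C * δ (d5_a i) := fun i => hup (d5_a i)
  have hL : ∀ i, Real.sqrt (S.en (gL g) (zz i)) ≤ C * (C * δ (d5_a i)) := by
    intro i
    rw [d5_en_gL S hgd]
    refine (hup _).trans (mul_le_mul_of_nonneg_left ?_ (by linarith))
    exact hwt.touch (d5_b i) (d5_a i) (by rw [d5_b_length, d5_a_length]) (d5_near i)
  have hstep : δ (d5_a j) ≤ C * Δ := by
    have h1 : d5_a (j + 1) = d5_a j ++ [dg 0 0] := by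
      unfold d5_a
      rw [d5_zz_succ]
      rfl
    rw [hΔ, h1]
    exact hwt.child _ _
  -- the odd part
  obtain ⟨hodd, hodd0⟩ := odd_harm S hg
  set o := (odd g).comp (Fw (zz j)) with ho
  have hoh : HarmOff S (LamP ∪ left) o :=
    hodd.restrict (zz j) ((Bd_subset_LamP (d5_pos_zz j)).trans Set.subset_union_left) (d5_zz_pre j)
  have hoz : ZeroOn left o := by
    intro x hx
    apply hodd0
    change (Fw (zz j) x).1.1 = 0
    rw [Fw_apply1, d5_pos_zz]
    have : x.1.1 = 0 := hx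
    rw [this]
    simp
  have hoE : Real.sqrt (S.E o o) ≤ 2 * C ^ 3 * Δ := by
    have h1 : Real.sqrt (S.E o o) ≤ Real.sqrt (S.en (gR g) (zz j)) + Real.sqrt (S.en (gL g) (zz j)) :=
      d5_sqrt_odd S hgd (zz j)
    have h2 := hR j
    have h3 := hL j
    have h4 : C * δ (d5_a j) ≤ C * (C * δ (d5_a j)) := by
      refine mul_le_mul_of_nonneg_left ?_ (by linarith)
      have := (hwt.pos (d5_a j)).le
      nlinarith
    have h5 : C * (C * δ (d5_a j)) ≤ C * (C * (C * Δ)) := by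
      refine mul_le_mul_of_nonneg_left (mul_le_mul_of_nonneg_left hstep ?_) ?_ <;> linarith
    calc Real.sqrt (S.E o o) ≤ C * δ (d5_a j) + C * (C * δ (d5_a j)) := by linarith
      _ ≤ 2 * (C * (C * (C * Δ))) := by linarith
      _ = 2 * C ^ 3 * Δ := by ring
  have hsumodd : ∑ v ∈ d5_col m, Real.sqrt (S.en (odd g) (zz (j + 1) ++ v)) ≤
      C0 * ((S.ρ ^ (m + 1))⁻¹ * Real.sqrt (S.E o o)) := by
    have h1 := hcont o hoh hoz (m + 1) (by omega) ((d5_col m).image fun v => [dg 0 0] ++ v) (by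
      intro w hw
      rw [Finset.mem_image] at hw
      obtain ⟨v, hv, rfl⟩ := hw
      rw [List.length_append, (d5_mem_col.1 hv).1]
      simp [add_comm]) (by
      intro w hw
      rw [Finset.mem_image] at hw
      obtain ⟨v, hv, rfl⟩ := hw
      obtain ⟨hv1, hv2⟩ := d5_mem_col.1 hv
      have hp : pos ([dg 0 0] ++ v) = (0, (pos v).2) := by
        rw [pos_append, d5_pos00, hv2]
        simp
      have hlt := (pos_lt v).2
      rw [hv1] at hlt
      refine ⟨Fw ([dg 0 0] ++ v) c00, ⟨c00, rfl⟩, ?_, ?_⟩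
      · rw [Fw_apply1, hp]
        simp [c00]
      · rw [Fw_apply2, hp, List.length_append, hv1]
        have h5 : ((pos v).2 : ℝ) ≤ 3 ^ m := by exact_mod_cast hlt.le
        have h6 : (([dg 0 0] : List Dig).length + m) = m + 1 := by simp [add_comm]
        rw [h6, pow_succ]
        have h7 : (c00.1.2 : ℝ) = 0 := rfl
        rw [h7, add_zero, div_le_div_iff₀ (by positivity) (by norm_num)]
        simp only
        nlinarith)
    rw [d5_sum_image] at h1
    refine le_trans (le_of_eq ?_) h1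
    refine Finset.sum_congr rfl fun v _ => ?_
    rw [ho, S.en_comp, d5_zz_succ, List.append_assoc]
  -- the even part
  have hsumev := d5_sum_evn S (d5_evn_mem S hgd) (j + 1) m
  -- lower bound
  have hch := d5_chain hwt (d5_a (j + 1)) m
  have hlow2 : ∑ v ∈ d5_col m, δ (d5_a (j + 1) ++ v) ≤
      C * (∑ v ∈ d5_col m, Real.sqrt (S.en (evn g) (zz (j + 1) ++ v)) +
        ∑ v ∈ d5_col m, Real.sqrt (S.en (odd g) (zz (j + 1) ++ v))) := by
    rw [← Finset.sum_add_distrib, Finset.mul_sum]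
    refine Finset.sum_le_sum fun v _ => ?_
    refine (hlow _).trans (mul_le_mul_of_nonneg_left ?_ (by linarith))
    exact d5_sqrt_gR S hgd (zz (j + 1) ++ v)
  set X := Real.sqrt (S.en (evn g) (zz (j + 1))) with hX
  have hX0 : 0 ≤ X := Real.sqrt_nonneg _
  have hmain : Δ ≤ C ^ 2 * (Real.sqrt (8 ^ m) * X) + 1 / 2 * Δ := by
    have h1 : Δ ≤ C * (C * (Real.sqrt (8 ^ m) * X + C0 * ((S.ρ ^ (m + 1))⁻¹ * (2 * C ^ 3 * Δ)))) := by
      refine hch.trans (mul_le_mul_of_nonneg_left (hlow2.trans (mul_le_mul_of_nonneg_left ?_ ?_)) ?_)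
      · refine add_le_add hsumev (hsumodd.trans (mul_le_mul_of_nonneg_left ?_ hC0.le))
        exact mul_le_mul_of_nonneg_left hoE (by positivity)
      · linarith
      · linarith
    have h2 : C * (C * (Real.sqrt (8 ^ m) * X + C0 * ((S.ρ ^ (m + 1))⁻¹ * (2 * C ^ 3 * Δ)))) =
        C ^ 2 * (Real.sqrt (8 ^ m) * X) + (C ^ 2 * (C0 * (2 * C ^ 3)) * (S.ρ ^ (m + 1))⁻¹) * Δ := by
      ring
    rw [h2] at h1
    have h3 := mul_le_mul_of_nonneg_right hm hΔ0.le
    linarith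
  have hΔX : Δ ≤ 2 * C ^ 2 * (Real.sqrt (8 ^ m) * X) := by linarith
  have hΔ2 : Δ ^ 2 ≤ 4 * C ^ 4 * (8 ^ m * S.en (evn g) (zz (j + 1))) := by
    have h1 := pow_le_pow_left₀ hΔ0.le hΔX 2
    have h2 : (2 * C ^ 2 * (Real.sqrt (8 ^ m) * X)) ^ 2 =
        4 * C ^ 4 * (Real.sqrt (8 ^ m) ^ 2 * X ^ 2) := by ring
    rw [h2, Real.sq_sqrt (by positivity), hX, Real.sq_sqrt (S.en_nonneg (d5_evn_mem S hgd) _)] at h1
    exact h1
  have hRsq : S.en (gR g) (zz (j + 1)) ≤ C ^ 4 * Δ ^ 2 := by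
    have h1 := pow_le_pow_left₀ (Real.sqrt_nonneg _) (hR (j + 1)) 2
    rw [Real.sq_sqrt (S.en_nonneg (d5_gR_mem S hgd) _)] at h1
    have h2 : (C * Δ) ^ 2 ≤ C ^ 4 * Δ ^ 2 := by
      have h3 : C ^ 2 ≤ C ^ 4 := pow_le_pow_right₀ hC (by norm_num)
      have h4 : 0 ≤ Δ ^ 2 := by positivity
      nlinarith
    exact h1.trans h2
  have hLsq : S.en (gL g) (zz (j + 1)) ≤ C ^ 4 * Δ ^ 2 := by
    have h1 := pow_le_pow_left₀ (Real.sqrt_nonneg _) (hL (j + 1)) 2
    rw [Real.sq_sqrt (S.en_nonneg (d5_gL_mem S hgd) _)] at h1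
    have h2 : (C * (C * δ (d5_a (j + 1)))) ^ 2 = C ^ 4 * Δ ^ 2 := by
      rw [hΔ]; ring
    rw [h2] at h1
    exact h1
  calc S.en (gR g) (zz (j + 1)) + S.en (gL g) (zz (j + 1)) ≤ 2 * C ^ 4 * Δ ^ 2 := by linarith
    _ ≤ 2 * C ^ 4 * (4 * C ^ 4 * (8 ^ m * S.en (evn g) (zz (j + 1)))) :=
        mul_le_mul_of_nonneg_left hΔ2 (by positivity)
    _ = 8 * C ^ 8 * 8 ^ m * S.en (evn g) (zz (j + 1)) := by ring

theorem d5_Fw_zz_c00 (k : ℕ) : Fw (zz k) c00 = c00 := by
  apply K_ext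
  · rw [Fw_apply1, d5_pos_zz]
    simp [c00]
  · rw [Fw_apply2, d5_pos_zz]
    simp [c00]

/-- By `nol`, `osc_cell`, `cacc_harm` (cell `(0,0)` for `evn g ∘ Fw (zz (k-1))`, `LamP ⊆ out 1 [(0,0)]`) and
`even_decay`. -/
theorem obj_small {V : C(K, ℝ)} (hV : IsV S V) {C : ℝ} (hC : 1 ≤ C) {g : C(K, ℝ)}
    {δ : List Dig → ℝ} (hg : Obj S C g δ) : ∀ η > 0, ∃ k₀ : ℕ, ∀ k ≥ k₀,
      |gR g (Apt k) - g pA| ≤ η * V (Apt k) ∧ |gL g (Apt k) - g pA| ≤ η * V (Apt k) := by
  intro η hη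
  have hgd := hg.1.1
  obtain ⟨D, hD, hnol⟩ := nol S C hC
  obtain ⟨C1, hC1, hosc⟩ := osc_cell S
  obtain ⟨C2, hC2, hcacc⟩ := cacc_harm S
  obtain ⟨_, _, _, _, hVpos, C3, hC3, hV3⟩ := V_props S hV
  have he := evn_harm S hg.1
  set B := C1 * Real.sqrt (D * C2) * C3 + 1 with hB
  have hBpos : 0 < B := by positivity
  obtain ⟨k0, hk0⟩ := even_decay S hV he (evn_zero g) (η / B) (by positivity)
  refine ⟨k0 + 1, fun k hk => ?_⟩
  obtain ⟨j, rfl⟩ : ∃ j, k = j + 1 := ⟨k - 1, by omega⟩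
  set M := η / B * V (Apt j) with hM
  have hM0 : 0 ≤ M := by
    have := hVpos j
    positivity
  have hdec : ∀ x ∈ cell (zz j), |evn g x| ≤ M := hk0 j (by omega)
  -- Caccioppoli
  have hout : LamP ⊆ out 1 [dg 0 0] := by
    intro x hx
    rcases hx with h | h
    · exact top_subset_out (by rw [d5_pos00]; norm_num) h
    · exact right_subset_out (by rw [d5_pos00]; norm_num) h
  have heh : HarmOff S (out 1 [dg 0 0]) ((evn g).comp (Fw (zz j))) :=
    (he.restrict (zz j) (Bd_subset_LamP (d5_pos_zz j)) (d5_zz_preP j)).mono hout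
  have hen : S.en (evn g) (zz (j + 1)) ≤ C2 * M ^ 2 := by
    have h1 := hcacc [dg 0 0] _ 0 M heh (fun x _ => by
      rw [sub_zero]
      exact hdec _ ⟨x, rfl⟩)
    rw [S.en_comp, ← d5_zz_succ] at h1
    exact h1
  have hsum := hnol g δ hg (j + 1) (by omega)
  have hR0 := S.en_nonneg (d5_gR_mem S hgd) (zz (j + 1))
  have hL0 := S.en_nonneg (d5_gL_mem S hgd) (zz (j + 1))
  have hbound : ∀ f : C(K, ℝ), f ∈ S.dom → f c00 = g pA →
      S.en f (zz (j + 1)) ≤ D * S.en (evn g) (zz (j + 1)) →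
      |f (Apt (j + 1)) - g pA| ≤ η * V (Apt (j + 1)) := by
    intro f hf hf0 hfe
    have h1 := hosc f hf (zz (j + 1)) (Apt (j + 1)) ⟨pA, rfl⟩ c00 ⟨c00, d5_Fw_zz_c00 _⟩
    rw [hf0] at h1
    have h2 : Real.sqrt (S.en f (zz (j + 1))) ≤ Real.sqrt (D * C2) * M := by
      have h3 : S.en f (zz (j + 1)) ≤ D * C2 * M ^ 2 := by
        have := mul_le_mul_of_nonneg_left hen hD.le
        linarith
      calc Real.sqrt (S.en f (zz (j + 1))) ≤ Real.sqrt (D * C2 * M ^ 2) := Real.sqrt_le_sqrt h3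
        _ = Real.sqrt (D * C2) * M := by
            rw [Real.sqrt_mul (by positivity), Real.sqrt_sq hM0]
    have h4 : V (Apt j) ≤ C3 * V (Apt (j + 1)) := (hV3 j).1
    calc |f (Apt (j + 1)) - g pA| ≤ C1 * Real.sqrt (S.en f (zz (j + 1))) := h1
      _ ≤ C1 * (Real.sqrt (D * C2) * M) := mul_le_mul_of_nonneg_left h2 hC1.le
      _ = (C1 * Real.sqrt (D * C2)) * (η / B) * V (Apt j) := by rw [hM]; ring
      _ ≤ (C1 * Real.sqrt (D * C2)) * (η / B) * (C3 * V (Apt (j + 1))) :=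
          mul_le_mul_of_nonneg_left h4 (by positivity)
      _ = (C1 * Real.sqrt (D * C2) * C3) / B * (η * V (Apt (j + 1))) := by ring
      _ ≤ 1 * (η * V (Apt (j + 1))) := by
          refine mul_le_mul_of_nonneg_right ?_ ?_
          · rw [div_le_one hBpos, hB]; linarith
          · have := hVpos (j + 1)
            positivity
      _ = η * V (Apt (j + 1)) := one_mul _
  exact ⟨hbound _ (d5_gR_mem S hgd) rfl (by linarith),
    hbound _ (d5_gL_mem S hgd) (d5_gL_c00 g) (by linarith)⟩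

end Pool.Agent.Helper67.SC
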