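import Mathlib
import Pool.Agent.Helper67.SC.Carpet

/-!
Self-similar symmetric resistance forms on the standard Sierpinski carpet,
the conformal gauge, and the parabolic Harnack inequality.
-/

open MeasureTheory Filter Topology

noncomputable section

namespace Pool.Agent.Helper67.SC

/-- The contraction `p ↦ (p + d) / 3` of the carpet. -/
def F (d : Dig) : C(K, K) where
  toFun p := ⟨((p.1.1 + d.x) / 3, (p.1.2 + d.y) / 3), contr_mem d p.2⟩
  continuous_toFun := by fun_prop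

/-- The reflection `(x, y) ↦ (1 - x, y)` of the carpet. -/
def flipX : C(K, K) where
  toFun p := ⟨(1 - p.1.1, p.1.2), flip_mem p.2⟩
  continuous_toFun := by fun_prop

/-- The reflection `(x, y) ↦ (y, x)` of the carpet. -/
def swapXY : C(K, K) where
  toFun p := ⟨(p.1.2, p.1.1), swap_mem p.2⟩
  continuous_toFun := by fun_prop

/-- Truncation of a function to the interval `[0, 1]`. -/
def clamp (f : C(K, ℝ)) : C(K, ℝ) := (0 ⊔ f) ⊓ 1

/-- A self-similar, symmetric, regular resistance form on the Sierpinski carpet: Kigami's axioms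
for a resistance form (whose domain consists of continuous functions), density of the domain
in the continuous functions (regularity), self-similarity, and invariance under the symmetries of the
square. The canonical form of Barlow-Bass and Kusuoka-Zhou is of this kind. -/
structure CarForm where
  /-- the domain, a linear space of continuous functions -/
  dom : Submodule ℝ C(K, ℝ)
  /-- the form (only its values on the domain matter) -/
  E : C(K, ℝ) → C(K, ℝ) → ℝ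
  /-- the energy scaling factor -/
  ρ : ℝ
  E_add : ∀ f ∈ dom, ∀ g ∈ dom, ∀ h ∈ dom, E (f + g) h = E f h + E g h
  E_smul : ∀ c : ℝ, ∀ f ∈ dom, ∀ g ∈ dom, E (c • f) g = c * E f g
  E_symm : ∀ f ∈ dom, ∀ g ∈ dom, E f g = E g f
  E_nonneg : ∀ f ∈ dom, 0 ≤ E f f
  one_mem : (1 : C(K, ℝ)) ∈ dom
  E_zero : ∀ f ∈ dom, E f f = 0 ↔ ∃ c : ℝ, ∀ x, f x = c
  complete : ∀ f : ℕ → C(K, ℝ), (∀ n, f n ∈ dom) →
    (∀ ε > 0, ∃ N, ∀ m ≥ N, ∀ n ≥ N, E (f m - f n) (f m - f n) < ε) →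
    ∃ g ∈ dom, Tendsto (fun n => E (f n - g) (f n - g)) atTop (𝓝 0)
  resist : ∀ x y : K, ∃ C : ℝ, ∀ f ∈ dom, (f x - f y) ^ 2 ≤ C * E f f
  dense : Dense (dom : Set C(K, ℝ))
  markov : ∀ f ∈ dom, clamp f ∈ dom ∧ E (clamp f) (clamp f) ≤ E f f
  ρ_pos : 0 < ρ
  selfsim_mem : ∀ f : C(K, ℝ), f ∈ dom ↔ ∀ d, f.comp (F d) ∈ dom
  selfsim : ∀ f ∈ dom, E f f = ρ * ∑ d, E (f.comp (F d)) (f.comp (F d))
  flip_inv : ∀ f ∈ dom, f.comp flipX ∈ dom ∧ E (f.comp flipX) (f.comp flipX) = E f f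
  swap_inv : ∀ f ∈ dom, f.comp swapXY ∈ dom ∧ E (f.comp swapXY) (f.comp swapXY) = E f f

/-- Euclidean distance on the carpet. -/
def edist2 (x y : K) : ℝ := Real.sqrt ((x.1.1 - y.1.1) ^ 2 + (x.1.2 - y.1.2) ^ 2)

/-- `θ` is a metric on the carpet in the conformal gauge: a metric that is quasisymmetric to the
Euclidean one. -/
structure Gauge (θ : K → K → ℝ) : Prop where
  zero_iff : ∀ x y, θ x y = 0 ↔ x = y
  symm : ∀ x y, θ x y = θ y x
  triangle : ∀ x y z, θ x z ≤ θ x y + θ y z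
  quasi : ∃ η : NNReal ≃ₜ NNReal, ∀ x a b, x ≠ b →
    θ x a / θ x b ≤ η (Real.toNNReal (edist2 x a / edist2 x b))

/-- Classical caloric functions on the open time interval `(a, b)` and the open set `Ω`, for the
form `E` and the measure `μ`. -/
structure Caloric (S : CarForm) (μ : Measure K) (a b : ℝ) (Ω : Set K) (u : ℝ → C(K, ℝ)) :
    Prop where
  mem : ∀ t ∈ Set.Ioo a b, u t ∈ S.dom
  energy : ContinuousOn (fun t => S.E (u t) (u t)) (Set.Ioo a b)
  deriv : ∃ v : ℝ → C(K, ℝ), ContinuousOn v (Set.Ioo a b) ∧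
    ∀ t ∈ Set.Ioo a b, HasDerivAt u (v t) t ∧
      ∀ φ ∈ S.dom, (∀ x, x ∉ Ω → φ x = 0) → ∫ x, v t x * φ x ∂μ = - S.E (u t) φ

/-- The parabolic Harnack inequality with exponent `β` for `(K, θ, μ)` and the form `S`
(for radii below some positive bound, and tested on classical non-negative caloric functions). -/
def PHI (S : CarForm) (θ : K → K → ℝ) (μ : Measure K) (β : ℝ) : Prop :=
  ∃ C₁ C₂ C₃ C₄ C₅ δ R₀ : ℝ, 0 < C₁ ∧ C₁ < C₂ ∧ C₂ < C₃ ∧ C₃ < C₄ ∧ 0 < C₅ ∧ 0 < δ ∧ δ < 1 ∧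
    0 < R₀ ∧
    ∀ (x : K) (a r : ℝ), 0 < r → r ≤ R₀ → ∀ u : ℝ → C(K, ℝ),
      Caloric S μ a (a + C₄ * r ^ β) {y | θ x y < r} u →
      (∀ t ∈ Set.Ioo a (a + C₄ * r ^ β), ∀ y, θ x y < r → 0 ≤ u t y) →
      ∀ s ∈ Set.Ioo (a + C₁ * r ^ β) (a + C₂ * r ^ β),
        ∀ t ∈ Set.Ioo (a + C₃ * r ^ β) (a + C₄ * r ^ β),
          ∀ y z, θ x y < δ * r → θ x z < δ * r → u s y ≤ C₅ * u t z

end Pool.Agent.Helper67.SC
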