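import Pool.Agent.Helper67.SC.G1

/-! Module F1: basic calculus of the form. -/

open MeasureTheory Filter Topology

noncomputable section

namespace Pool.Agent.Helper67.SC

variable (S : CarForm)

namespace CarForm

theorem E_add_right {f g h : C(K, ℝ)} (hf : f ∈ S.dom) (hg : g ∈ S.dom) (hh : h ∈ S.dom) :
    S.E f (g + h) = S.E f g + S.E f h := by
  rw [S.E_symm f hf _ (S.dom.add_mem hg hh), S.E_add g hg h hh f hf, S.E_symm g hg f hf,
    S.E_symm h hh f hf]

theorem E_smul_right (c : ℝ) {f g : C(K, ℝ)} (hf : f ∈ S.dom) (hg : g ∈ S.dom) :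
    S.E f (c • g) = c * S.E f g := by
  rw [S.E_symm f hf _ (S.dom.smul_mem c hg), S.E_smul c g hg f hf, S.E_symm g hg f hf]

theorem E_neg_left {f g : C(K, ℝ)} (hf : f ∈ S.dom) (hg : g ∈ S.dom) :
    S.E (-f) g = - S.E f g := by
  rw [← neg_one_smul ℝ f, S.E_smul _ f hf g hg]
  ring

theorem E_neg_right {f g : C(K, ℝ)} (hf : f ∈ S.dom) (hg : g ∈ S.dom) :
    S.E f (-g) = - S.E f g := by
  rw [← neg_one_smul ℝ g, S.E_smul_right _ hf hg]
  ring

theorem E_sub_left {f g h : C(K, ℝ)} (hf : f ∈ S.dom) (hg : g ∈ S.dom) (hh : h ∈ S.dom) :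
    S.E (f - g) h = S.E f h - S.E g h := by
  rw [sub_eq_add_neg, S.E_add f hf _ (S.dom.neg_mem hg) h hh, S.E_neg_left hg hh]
  ring

theorem E_sub_right {f g h : C(K, ℝ)} (hf : f ∈ S.dom) (hg : g ∈ S.dom) (hh : h ∈ S.dom) :
    S.E f (g - h) = S.E f g - S.E f h := by
  rw [sub_eq_add_neg, S.E_add_right hf hg (S.dom.neg_mem hh), S.E_neg_right hf hh]
  ring

theorem E_zero_left {g : C(K, ℝ)} (hg : g ∈ S.dom) : S.E 0 g = 0 := by
  have := S.E_smul 0 g hg g hg
  simpa using this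

theorem E_zero_right {g : C(K, ℝ)} (hg : g ∈ S.dom) : S.E g 0 = 0 := by
  rw [S.E_symm g hg 0 S.dom.zero_mem, S.E_zero_left hg]

theorem E_sum_left {ι : Type*} (T : Finset ι) (f : ι → C(K, ℝ)) (hf : ∀ i ∈ T, f i ∈ S.dom)
    {g : C(K, ℝ)} (hg : g ∈ S.dom) : S.E (∑ i ∈ T, f i) g = ∑ i ∈ T, S.E (f i) g := by
  classical
  induction T using Finset.induction_on with
  | empty => simp [S.E_zero_left hg]
  | insert a T ha ih =>
    rw [Finset.sum_insert ha, Finset.sum_insert ha, S.E_add _ (hf a (Finset.mem_insert_self _ _)) _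
      (S.dom.sum_mem fun i hi => hf i (Finset.mem_insert_of_mem hi)) g hg,
      ih fun i hi => hf i (Finset.mem_insert_of_mem hi)]

theorem E_sum_right {ι : Type*} (T : Finset ι) (f : ι → C(K, ℝ)) (hf : ∀ i ∈ T, f i ∈ S.dom)
    {g : C(K, ℝ)} (hg : g ∈ S.dom) : S.E g (∑ i ∈ T, f i) = ∑ i ∈ T, S.E g (f i) := by
  rw [S.E_symm g hg _ (S.dom.sum_mem hf), S.E_sum_left T f hf hg]
  exact Finset.sum_congr rfl fun i hi => S.E_symm _ (hf i hi) g hg

theorem E_add_self {f g : C(K, ℝ)} (hf : f ∈ S.dom) (hg : g ∈ S.dom) :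
    S.E (f + g) (f + g) = S.E f f + 2 * S.E f g + S.E g g := by
  rw [S.E_add f hf g hg _ (S.dom.add_mem hf hg), S.E_add_right hf hf hg, S.E_add_right hg hf hg,
    S.E_symm g hg f hf]
  ring

theorem E_sub_self {f g : C(K, ℝ)} (hf : f ∈ S.dom) (hg : g ∈ S.dom) :
    S.E (f - g) (f - g) = S.E f f - 2 * S.E f g + S.E g g := by
  rw [S.E_sub_left hf hg (S.dom.sub_mem hf hg), S.E_sub_right hf hf hg, S.E_sub_right hg hf hg,
    S.E_symm g hg f hf]
  ring

theorem E_smul_self (c : ℝ) {f : C(K, ℝ)} (hf : f ∈ S.dom) :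
    S.E (c • f) (c • f) = c ^ 2 * S.E f f := by
  rw [S.E_smul c f hf _ (S.dom.smul_mem c hf), S.E_smul_right c hf hf]
  ring

/-- Cauchy-Schwarz. -/
theorem E_cs {f g : C(K, ℝ)} (hf : f ∈ S.dom) (hg : g ∈ S.dom) :
    S.E f g ^ 2 ≤ S.E f f * S.E g g := by
  have key : ∀ t : ℝ, 0 ≤ S.E f f + 2 * t * S.E f g + t ^ 2 * S.E g g := by
    intro t
    have h := S.E_nonneg (f + t • g) (S.dom.add_mem hf (S.dom.smul_mem t hg))
    rw [S.E_add_self hf (S.dom.smul_mem t hg), S.E_smul_right t hf hg, S.E_smul_self t hg] at h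
    linarith
  have hg0 := S.E_nonneg g hg
  rcases hg0.lt_or_eq with h | h
  · have h1 := key (-(S.E f g / S.E g g))
    have h2 : S.E f f + 2 * -(S.E f g / S.E g g) * S.E f g + (-(S.E f g / S.E g g)) ^ 2 * S.E g g
        = S.E f f - S.E f g ^ 2 / S.E g g := by
      field_simp
      ring
    rw [h2] at h1
    have h3 : S.E f g ^ 2 / S.E g g ≤ S.E f f := by linarith
    rwa [div_le_iff₀ h] at h3
  · rw [← h, mul_zero]
    by_contra hcon
    push Not at hcon
    have hne : S.E f g ≠ 0 := by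
      intro h0
      rw [h0] at hcon
      simp at hcon
    have h1 := key (-(S.E f f + 1) / (2 * S.E f g))
    rw [← h] at h1
    have : 2 * (-(S.E f f + 1) / (2 * S.E f g)) * S.E f g = -(S.E f f + 1) := by
      field_simp
    rw [this] at h1
    linarith

theorem E_abs_le {f g : C(K, ℝ)} (hf : f ∈ S.dom) (hg : g ∈ S.dom) :
    |S.E f g| ≤ Real.sqrt (S.E f f) * Real.sqrt (S.E g g) := by
  rw [← Real.sqrt_mul (S.E_nonneg f hf)]
  apply Real.abs_le_sqrt
  exact S.E_cs hf hg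

theorem E_le {f g : C(K, ℝ)} (hf : f ∈ S.dom) (hg : g ∈ S.dom) :
    S.E f g ≤ Real.sqrt (S.E f f) * Real.sqrt (S.E g g) :=
  (le_abs_self _).trans (S.E_abs_le hf hg)

/-- Triangle inequality for `sqrt E`. -/
theorem sqrt_E_add_le {f g : C(K, ℝ)} (hf : f ∈ S.dom) (hg : g ∈ S.dom) :
    Real.sqrt (S.E (f + g) (f + g)) ≤ Real.sqrt (S.E f f) + Real.sqrt (S.E g g) := by
  rw [Real.sqrt_le_left (by positivity), S.E_add_self hf hg]
  have h1 := Real.sq_sqrt (S.E_nonneg f hf)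
  have h2 := Real.sq_sqrt (S.E_nonneg g hg)
  have h3 := S.E_le hf hg
  nlinarith

theorem sqrt_E_sub_le {f g : C(K, ℝ)} (hf : f ∈ S.dom) (hg : g ∈ S.dom) :
    Real.sqrt (S.E (f - g) (f - g)) ≤ Real.sqrt (S.E f f) + Real.sqrt (S.E g g) := by
  rw [Real.sqrt_le_left (by positivity), S.E_sub_self hf hg]
  have h1 := Real.sq_sqrt (S.E_nonneg f hf)
  have h2 := Real.sq_sqrt (S.E_nonneg g hg)
  have h3 := (abs_le.1 (S.E_abs_le hf hg)).1
  nlinarith

theorem E_add_self_le {f g : C(K, ℝ)} (hf : f ∈ S.dom) (hg : g ∈ S.dom) :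
    S.E (f + g) (f + g) ≤ 2 * (S.E f f + S.E g g) := by
  have h := S.E_nonneg (f - g) (S.dom.sub_mem hf hg)
  rw [S.E_sub_self hf hg] at h
  rw [S.E_add_self hf hg]
  linarith

theorem const_mem (c : ℝ) : ContinuousMap.const K c ∈ S.dom := by
  have : ContinuousMap.const K c = c • (1 : C(K, ℝ)) := by
    ext x; simp
  rw [this]
  exact S.dom.smul_mem c S.one_mem

theorem E_const_left (c : ℝ) {g : C(K, ℝ)} (hg : g ∈ S.dom) :
    S.E (ContinuousMap.const K c) g = 0 := by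
  have h := S.E_cs (S.const_mem c) hg
  have h0 : S.E (ContinuousMap.const K c) (ContinuousMap.const K c) = 0 :=
    (S.E_zero _ (S.const_mem c)).2 ⟨c, fun x => rfl⟩
  rw [h0, zero_mul] at h
  exact pow_eq_zero_iff (two_ne_zero) |>.1 (le_antisymm h (sq_nonneg _))

theorem E_const_right (c : ℝ) {g : C(K, ℝ)} (hg : g ∈ S.dom) :
    S.E g (ContinuousMap.const K c) = 0 := by
  rw [S.E_symm g hg _ (S.const_mem c), S.E_const_left c hg]

theorem E_sub_const_left (c : ℝ) {f g : C(K, ℝ)} (hf : f ∈ S.dom) (hg : g ∈ S.dom) :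
    S.E (f - ContinuousMap.const K c) g = S.E f g := by
  rw [S.E_sub_left hf (S.const_mem c) hg, S.E_const_left c hg, sub_zero]

theorem E_sub_const_right (c : ℝ) {f g : C(K, ℝ)} (hf : f ∈ S.dom) (hg : g ∈ S.dom) :
    S.E f (g - ContinuousMap.const K c) = S.E f g := by
  rw [S.E_sub_right hf hg (S.const_mem c), S.E_const_right c hf, sub_zero]

theorem E_sub_const (c : ℝ) {f : C(K, ℝ)} (hf : f ∈ S.dom) :
    f - ContinuousMap.const K c ∈ S.dom ∧
      S.E (f - ContinuousMap.const K c) (f - ContinuousMap.const K c) = S.E f f := by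
  have hm := S.dom.sub_mem hf (S.const_mem c)
  refine ⟨hm, ?_⟩
  rw [S.E_sub_const_left c hf hm, S.E_sub_const_right c hf hf]

theorem pos_aux {f : C(K, ℝ)} (hf : f ∈ S.dom) :
    f ⊔ 0 ∈ S.dom ∧ S.E (f ⊔ 0) (f ⊔ 0) ≤ S.E f f := by
  set M : ℝ := ‖f‖ + 1 with hM
  have hMpos : 0 < M := by positivity
  have hfM : ∀ x, f x ≤ M := fun x =>
    ((le_abs_self _).trans (f.norm_coe_le_norm x)).trans (by linarith)
  have he : f ⊔ 0 = M • clamp (M⁻¹ • f) := by
    ext x
    simp only [ContinuousMap.sup_apply, ContinuousMap.coe_smul, Pi.smul_apply, smul_eq_mul, clamp,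
      ContinuousMap.inf_apply, ContinuousMap.zero_apply, ContinuousMap.one_apply]
    have h1 : M⁻¹ * f x ≤ 1 := by
      rw [inv_mul_le_iff₀ hMpos]
      linarith [hfM x]
    rcases le_total 0 (f x) with h | h
    · have h2 : 0 ≤ M⁻¹ * f x := by positivity
      rw [max_eq_left h, max_eq_right h2, min_eq_left h1, mul_inv_cancel_left₀ hMpos.ne']
    · have h2 : M⁻¹ * f x ≤ 0 := mul_nonpos_of_nonneg_of_nonpos (by positivity) h
      rw [max_eq_right h, max_eq_left h2]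
      simp
  have hm := S.markov (M⁻¹ • f) (S.dom.smul_mem _ hf)
  rw [he]
  refine ⟨S.dom.smul_mem _ hm.1, ?_⟩
  rw [S.E_smul_self _ hm.1]
  have h2 := hm.2
  rw [S.E_smul_self _ hf] at h2
  calc M ^ 2 * S.E (clamp (M⁻¹ • f)) (clamp (M⁻¹ • f)) ≤ M ^ 2 * (M⁻¹ ^ 2 * S.E f f) := by gcongr
    _ = S.E f f := by field_simp

/-- Positive part: `f ⊔ 0 = M • clamp (M⁻¹ • f)` for `M` an upper bound of `|f|`. -/
theorem pos_mem {f : C(K, ℝ)} (hf : f ∈ S.dom) : f ⊔ 0 ∈ S.dom := (S.pos_aux hf).1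

theorem E_pos_le {f : C(K, ℝ)} (hf : f ∈ S.dom) : S.E (f ⊔ 0) (f ⊔ 0) ≤ S.E f f :=
  (S.pos_aux hf).2

theorem sup_eq_add (f g : C(K, ℝ)) : f ⊔ g = g + (f - g) ⊔ 0 := by
  ext x
  simp only [ContinuousMap.sup_apply, ContinuousMap.add_apply, ContinuousMap.sub_apply,
    ContinuousMap.zero_apply]
  rcases le_total (f x) (g x) with h | h
  · rw [max_eq_right h, max_eq_right (by linarith)]; ring
  · rw [max_eq_left h, max_eq_left (by linarith)]; ring

theorem inf_eq_sub (f g : C(K, ℝ)) : f ⊓ g = f - (f - g) ⊔ 0 := by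
  ext x
  simp only [ContinuousMap.inf_apply, ContinuousMap.sub_apply, ContinuousMap.sup_apply,
    ContinuousMap.zero_apply]
  rcases le_total (f x) (g x) with h | h
  · rw [min_eq_left h, max_eq_right (by linarith)]; ring
  · rw [min_eq_right h, max_eq_left (by linarith)]; ring

theorem sup_mem {f g : C(K, ℝ)} (hf : f ∈ S.dom) (hg : g ∈ S.dom) : f ⊔ g ∈ S.dom := by
  rw [sup_eq_add]
  exact S.dom.add_mem hg (S.pos_mem (S.dom.sub_mem hf hg))

theorem inf_mem {f g : C(K, ℝ)} (hf : f ∈ S.dom) (hg : g ∈ S.dom) : f ⊓ g ∈ S.dom := by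
  rw [inf_eq_sub]
  exact S.dom.sub_mem hf (S.pos_mem (S.dom.sub_mem hf hg))

theorem abs_eq_pos (f : C(K, ℝ)) : |f| = f ⊔ 0 + (-f) ⊔ 0 := by
  ext x
  simp only [ContinuousMap.abs_apply, ContinuousMap.add_apply, ContinuousMap.sup_apply,
    ContinuousMap.zero_apply, ContinuousMap.neg_apply]
  rcases le_total 0 (f x) with h | h
  · rw [abs_of_nonneg h, max_eq_left h, max_eq_right (by linarith), add_zero]
  · rw [abs_of_nonpos h, max_eq_right h, max_eq_left (by linarith), zero_add]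

theorem eq_pos_sub (f : C(K, ℝ)) : f = f ⊔ 0 - (-f) ⊔ 0 := by
  ext x
  simp only [ContinuousMap.sub_apply, ContinuousMap.sup_apply,
    ContinuousMap.zero_apply, ContinuousMap.neg_apply]
  rcases le_total 0 (f x) with h | h
  · rw [max_eq_left h, max_eq_right (by linarith), sub_zero]
  · rw [max_eq_right h, max_eq_left (by linarith)]; ring

theorem abs_mem {f : C(K, ℝ)} (hf : f ∈ S.dom) : |f| ∈ S.dom := by
  rw [abs_eq_pos]
  exact S.dom.add_mem (S.pos_mem hf) (S.pos_mem (S.dom.neg_mem hf))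

/-- Disjoint non-negative functions: `E f g ≤ 0` (apply the Markov property to `f - t • g`). -/
theorem E_disj {f g : C(K, ℝ)} (hf : f ∈ S.dom) (hg : g ∈ S.dom) (hf0 : 0 ≤ f) (hg0 : 0 ≤ g)
    (h : ∀ x, f x = 0 ∨ g x = 0) : S.E f g ≤ 0 := by
  have key : ∀ t : ℝ, 0 < t → 2 * S.E f g ≤ t * S.E g g := by
    intro t ht
    have he : (f - t • g) ⊔ 0 = f := by
      ext x
      simp only [ContinuousMap.sup_apply, ContinuousMap.sub_apply, ContinuousMap.coe_smul,
        Pi.smul_apply, smul_eq_mul, ContinuousMap.zero_apply]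
      have h1 : 0 ≤ f x := hf0 x
      have h2 : 0 ≤ g x := hg0 x
      rcases h x with h3 | h3
      · rw [h3, zero_sub, max_eq_right]
        have : 0 ≤ t * g x := by positivity
        linarith
      · rw [h3, mul_zero, sub_zero, max_eq_left h1]
    have h1 := S.E_pos_le (S.dom.sub_mem hf (S.dom.smul_mem t hg))
    rw [he, S.E_sub_self hf (S.dom.smul_mem t hg), S.E_smul_right t hf hg, S.E_smul_self t hg] at h1
    have h2 : t * (2 * S.E f g) ≤ t * (t * S.E g g) := by nlinarith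
    exact le_of_mul_le_mul_left h2 ht
  have hg' := S.E_nonneg g hg
  by_contra hcon
  push Not at hcon
  have h1 := key (S.E f g / (S.E g g + 1)) (by positivity)
  have h2 : S.E f g / (S.E g g + 1) * S.E g g ≤ S.E f g := by
    rw [div_mul_eq_mul_div, div_le_iff₀ (by positivity)]
    nlinarith
  linarith

theorem pos_disj (f : C(K, ℝ)) (x : K) : (f ⊔ 0) x = 0 ∨ ((-f) ⊔ 0) x = 0 := by
  simp only [ContinuousMap.sup_apply, ContinuousMap.zero_apply, ContinuousMap.neg_apply]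
  rcases le_total 0 (f x) with h | h
  · right; rw [max_eq_right (by linarith)]
  · left; rw [max_eq_right h]

theorem pos_nonneg' (f : C(K, ℝ)) : 0 ≤ f ⊔ 0 := le_sup_right

theorem E_pos_neg_le {f : C(K, ℝ)} (hf : f ∈ S.dom) : S.E (f ⊔ 0) ((-f) ⊔ 0) ≤ 0 :=
  S.E_disj (S.pos_mem hf) (S.pos_mem (S.dom.neg_mem hf)) (pos_nonneg' f) (pos_nonneg' _)
    (pos_disj f)

theorem E_abs_self_le {f : C(K, ℝ)} (hf : f ∈ S.dom) : S.E |f| |f| ≤ S.E f f := by
  have h1 := S.E_pos_neg_le hf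
  have hp := S.pos_mem hf
  have hn := S.pos_mem (S.dom.neg_mem hf)
  have e1 : S.E f f = S.E (f ⊔ 0 - (-f) ⊔ 0) (f ⊔ 0 - (-f) ⊔ 0) := by rw [← eq_pos_sub]
  rw [abs_eq_pos, e1, S.E_add_self hp hn, S.E_sub_self hp hn]
  linarith

/-- Submodularity. -/
theorem E_submod {f g : C(K, ℝ)} (hf : f ∈ S.dom) (hg : g ∈ S.dom) :
    S.E (f ⊓ g) (f ⊓ g) + S.E (f ⊔ g) (f ⊔ g) ≤ S.E f f + S.E g g := by
  set p := (f - g) ⊔ 0 with hp
  set q := (-(f - g)) ⊔ 0 with hq
  have hd := S.dom.sub_mem hf hg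
  have hpm : p ∈ S.dom := S.pos_mem hd
  have hqm : q ∈ S.dom := S.pos_mem (S.dom.neg_mem hd)
  have hpq : S.E p q ≤ 0 := S.E_pos_neg_le hd
  have e1 : f ⊓ g = f - p := inf_eq_sub f g
  have e2 : f ⊔ g = g + p := sup_eq_add f g
  have e3 : f - g = p - q := eq_pos_sub _
  rw [e1, e2, S.E_sub_self hf hpm, S.E_add_self hg hpm]
  have e4 : S.E f p - S.E g p = S.E p p - S.E p q := by
    rw [← S.E_sub_left hf hg hpm, e3, S.E_sub_left hpm hqm hpm, S.E_symm q hqm p hpm]
  linarith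

theorem E_inf_le {f g : C(K, ℝ)} (hf : f ∈ S.dom) (hg : g ∈ S.dom) :
    S.E (f ⊓ g) (f ⊓ g) ≤ S.E f f + S.E g g := by
  have h1 := S.E_submod hf hg
  have h2 := S.E_nonneg _ (S.sup_mem hf hg)
  linarith

theorem E_sup_le {f g : C(K, ℝ)} (hf : f ∈ S.dom) (hg : g ∈ S.dom) :
    S.E (f ⊔ g) (f ⊔ g) ≤ S.E f f + S.E g g := by
  have h1 := S.E_submod hf hg
  have h2 := S.E_nonneg _ (S.inf_mem hf hg)
  linarith

theorem E_inf_const_le (c : ℝ) {f : C(K, ℝ)} (hf : f ∈ S.dom) :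
    S.E (f ⊓ ContinuousMap.const K c) (f ⊓ ContinuousMap.const K c) ≤ S.E f f := by
  have h := S.E_inf_le hf (S.const_mem c)
  rwa [S.E_const_left c (S.const_mem c), add_zero] at h

theorem E_sup_const_le (c : ℝ) {f : C(K, ℝ)} (hf : f ∈ S.dom) :
    S.E (f ⊔ ContinuousMap.const K c) (f ⊔ ContinuousMap.const K c) ≤ S.E f f := by
  have h := S.E_sup_le hf (S.const_mem c)
  rwa [S.E_const_left c (S.const_mem c), add_zero] at h

/-- `E (f⁺) (f⁺) ≤ E f (f⁺)`. -/
theorem E_pos_pos_le {f : C(K, ℝ)} (hf : f ∈ S.dom) :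
    S.E (f ⊔ 0) (f ⊔ 0) ≤ S.E f (f ⊔ 0) := by
  have h1 := S.E_pos_neg_le hf
  have hp := S.pos_mem hf
  have hn := S.pos_mem (S.dom.neg_mem hf)
  have e1 : S.E f (f ⊔ 0) = S.E (f ⊔ 0 - (-f) ⊔ 0) (f ⊔ 0) := by rw [← eq_pos_sub]
  rw [e1, S.E_sub_left hp hn hp, S.E_symm _ hn _ hp]
  linarith

/-- A function of zero energy with a zero vanishes. -/
theorem eq_zero_of_E {f : C(K, ℝ)} (hf : f ∈ S.dom) (h : S.E f f ≤ 0) {x : K} (hx : f x = 0) :
    f = 0 := by
  obtain ⟨c, hc⟩ := (S.E_zero f hf).1 (le_antisymm h (S.E_nonneg f hf))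
  ext y
  rw [hc y, ← hc x, hx]
  rfl

/-- The functions of the domain vanishing at the corner. -/
def oscSub : Submodule ℝ C(K, ℝ) where
  carrier := {f | f ∈ S.dom ∧ f c00 = 0}
  add_mem' := fun {f g} hf hg => ⟨S.dom.add_mem hf.1 hg.1, by
    rw [ContinuousMap.add_apply, hf.2, hg.2, add_zero]⟩
  zero_mem' := ⟨S.dom.zero_mem, rfl⟩
  smul_mem' := fun c f hf => ⟨S.dom.smul_mem c hf.1, by
    rw [ContinuousMap.smul_apply, hf.2, smul_zero]⟩

/-- The same space, to be normed by the energy. -/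
def OscSp : Type := S.oscSub

instance : AddCommGroup S.OscSp := inferInstanceAs (AddCommGroup S.oscSub)
instance : Module ℝ S.OscSp := inferInstanceAs (Module ℝ S.oscSub)

/-- The underlying function. -/
def OscSp.val (f : S.OscSp) : C(K, ℝ) := (show S.oscSub from f).1

/-- Constructor. -/
def OscSp.mk (f : C(K, ℝ)) (h : f ∈ S.dom ∧ f c00 = 0) : S.OscSp := (⟨f, h⟩ : S.oscSub)

theorem OscSp.val_mk (f : C(K, ℝ)) (h : f ∈ S.dom ∧ f c00 = 0) :
    OscSp.val S (OscSp.mk S f h) = f := rfl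

theorem OscSp.mem (f : S.OscSp) : OscSp.val S f ∈ S.dom ∧ OscSp.val S f c00 = 0 :=
  (show S.oscSub from f).2

/-- The energy inner product. -/
abbrev oscCore : InnerProductSpace.Core ℝ S.OscSp where
  inner f g := S.E (OscSp.val S f) (OscSp.val S g)
  conj_inner_symm f g := by
    simp only [conj_trivial]
    exact S.E_symm _ (OscSp.mem S g).1 _ (OscSp.mem S f).1
  re_inner_nonneg f := by
    exact S.E_nonneg _ (OscSp.mem S f).1
  add_left f g h := S.E_add _ (OscSp.mem S f).1 _ (OscSp.mem S g).1 _ (OscSp.mem S h).1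
  smul_left f g c := by
    simp only [conj_trivial]
    exact S.E_smul c _ (OscSp.mem S f).1 _ (OscSp.mem S g).1
  definite f hf := by
    have h := S.eq_zero_of_E (OscSp.mem S f).1 (le_of_eq hf) (OscSp.mem S f).2
    apply Subtype.ext
    exact h

instance : NormedAddCommGroup S.OscSp := (oscCore S).toNormedAddCommGroup
instance : InnerProductSpace ℝ S.OscSp := InnerProductSpace.ofCore (oscCore S).toCore

theorem oscSp_norm (f : S.OscSp) :
    ‖f‖ = Real.sqrt (S.E (OscSp.val S f) (OscSp.val S f)) := by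
  rw [norm_eq_sqrt_real_inner]
  rfl

theorem oscSp_complete : CompleteSpace S.OscSp := by
  refine Metric.complete_of_cauchySeq_tendsto fun u hu => ?_
  have hval : ∀ m n, OscSp.val S (u m - u n) = OscSp.val S (u m) - OscSp.val S (u n) :=
    fun m n => rfl
  obtain ⟨g, hg, hlim⟩ := S.complete (fun n => OscSp.val S (u n)) (fun n => (OscSp.mem S (u n)).1) (by
    intro ε hε
    rw [Metric.cauchySeq_iff] at hu
    obtain ⟨N, hN⟩ := hu (Real.sqrt ε) (Real.sqrt_pos.2 hε)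
    refine ⟨N, fun m hm n hn => ?_⟩
    have h := hN m hm n hn
    rw [dist_eq_norm, oscSp_norm, hval] at h
    exact (Real.sqrt_lt_sqrt_iff (S.E_nonneg _
      (S.dom.sub_mem (OscSp.mem S (u m)).1 (OscSp.mem S (u n)).1))).1 h)
  set g' : C(K, ℝ) := g - ContinuousMap.const K (g c00) with hg'
  have hg'm : g' ∈ S.dom ∧ g' c00 = 0 := ⟨(S.E_sub_const (g c00) hg).1, by
    simp [hg']⟩
  refine ⟨OscSp.mk S g' hg'm, ?_⟩
  rw [tendsto_iff_norm_sub_tendsto_zero]
  have e : ∀ n, ‖u n - OscSp.mk S g' hg'm‖ =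
      Real.sqrt (S.E (OscSp.val S (u n) - g) (OscSp.val S (u n) - g)) := by
    intro n
    rw [oscSp_norm]
    have e1 : OscSp.val S (u n - OscSp.mk S g' hg'm) =
        (OscSp.val S (u n) - g) - ContinuousMap.const K (-(g c00)) := by
      change OscSp.val S (u n) - g' = _
      ext x
      simp only [hg', ContinuousMap.sub_apply, ContinuousMap.const_apply]
      ring
    rw [e1, (S.E_sub_const (-(g c00)) (S.dom.sub_mem (OscSp.mem S (u n)).1 hg)).2]
  rw [show (fun n => ‖u n - OscSp.mk S g' hg'm‖) = fun n =>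
    Real.sqrt (S.E (OscSp.val S (u n) - g) (OscSp.val S (u n) - g)) from funext e]
  have := hlim.sqrt
  rwa [Real.sqrt_zero] at this

/-- Global oscillation bound (uniform boundedness principle). -/
theorem osc : ∃ C : ℝ, 0 < C ∧ ∀ f ∈ S.dom, ∀ x y, |f x - f y| ≤ C * Real.sqrt (S.E f f) := by
  have hev : ∀ x : K, ∃ T : S.OscSp →L[ℝ] ℝ, ∀ f, T f = OscSp.val S f x := by
    intro x
    obtain ⟨C, hC⟩ := S.resist x c00
    let L : S.OscSp →ₗ[ℝ] ℝ :=
      { toFun := fun f => OscSp.val S f x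
        map_add' := fun f g => rfl
        map_smul' := fun c f => rfl }
    refine ⟨L.mkContinuous (Real.sqrt |C|) fun f => ?_, fun f => rfl⟩
    rw [oscSp_norm, ← Real.sqrt_mul (abs_nonneg C)]
    change |OscSp.val S f x| ≤ _
    apply Real.abs_le_sqrt
    have h1 := hC _ (OscSp.mem S f).1
    rw [(OscSp.mem S f).2, sub_zero] at h1
    have h2 := S.E_nonneg _ (OscSp.mem S f).1
    have h3 := le_abs_self C
    nlinarith
  choose T hT using hev
  have := oscSp_complete S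
  obtain ⟨C, hC⟩ := banach_steinhaus (g := T) (fun f => ⟨‖OscSp.val S f‖, fun x => by
    rw [hT]
    exact (OscSp.val S f).norm_coe_le_norm x⟩)
  refine ⟨2 * (|C| + 1), by positivity, fun f hf x y => ?_⟩
  set f' : C(K, ℝ) := f - ContinuousMap.const K (f c00) with hf'
  have hf'm : f' ∈ S.dom ∧ f' c00 = 0 := ⟨(S.E_sub_const (f c00) hf).1, by simp [hf']⟩
  have key : ∀ z, |f z - f c00| ≤ (|C| + 1) * Real.sqrt (S.E f f) := by
    intro z
    have h1 := (T z).le_opNorm (OscSp.mk S f' hf'm)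
    rw [hT, oscSp_norm] at h1
    have e1 : OscSp.val S (OscSp.mk S f' hf'm) = f' := rfl
    rw [e1, (S.E_sub_const (f c00) hf).2] at h1
    have h2 : ‖T z‖ ≤ |C| + 1 := (hC z).trans ((le_abs_self C).trans (by linarith))
    calc |f z - f c00| = ‖f' z‖ := rfl
      _ ≤ ‖T z‖ * Real.sqrt (S.E f f) := h1
      _ ≤ _ := by gcongr
  have h1 := key x
  have h2 := key y
  calc |f x - f y| = |(f x - f c00) - (f y - f c00)| := by ring_nf
    _ ≤ |f x - f c00| + |f y - f c00| := abs_sub _ _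
    _ ≤ _ := by linarith

theorem comp_Fw_mem (w : List Dig) {f : C(K, ℝ)} (hf : f ∈ S.dom) : f.comp (Fw w) ∈ S.dom := by
  induction w generalizing f with
  | nil => exact hf
  | cons d w ih =>
    have h := (S.selfsim_mem f).1 hf d
    have h2 := ih h
    exact h2

theorem mem_of_comp_Fw (n : ℕ) {f : C(K, ℝ)}
    (hf : ∀ w : List Dig, w.length = n → f.comp (Fw w) ∈ S.dom) : f ∈ S.dom := by
  induction n generalizing f with
  | zero => exact hf [] rfl
  | succ n ih =>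
    rw [S.selfsim_mem]
    intro d
    exact ih fun w hw => hf (d :: w) (by simp [hw])

theorem E_selfsim_one {f g : C(K, ℝ)} (hf : f ∈ S.dom) (hg : g ∈ S.dom) :
    S.E f g = S.ρ * ∑ d, S.E (f.comp (F d)) (g.comp (F d)) := by
  have hfd := (S.selfsim_mem f).1 hf
  have hgd := (S.selfsim_mem g).1 hg
  have h1 := S.selfsim (f + g) (S.dom.add_mem hf hg)
  have h2 := S.selfsim f hf
  have h3 := S.selfsim g hg
  rw [S.E_add_self hf hg] at h1
  have h4 : ∀ d, S.E ((f + g).comp (F d)) ((f + g).comp (F d)) =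
      S.E (f.comp (F d)) (f.comp (F d)) + 2 * S.E (f.comp (F d)) (g.comp (F d)) +
        S.E (g.comp (F d)) (g.comp (F d)) := by
    intro d
    have : (f + g).comp (F d) = f.comp (F d) + g.comp (F d) := by ext x; rfl
    rw [this, S.E_add_self (hfd d) (hgd d)]
  simp only [h4, Finset.sum_add_distrib, mul_add, ← Finset.mul_sum] at h1
  linarith

/-- Self-similarity at level `n`, bilinear form. -/
theorem E_selfsim (n : ℕ) {f g : C(K, ℝ)} (hf : f ∈ S.dom) (hg : g ∈ S.dom) :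
    S.E f g = S.ρ ^ n * ∑ w ∈ words n, S.E (f.comp (Fw w)) (g.comp (Fw w)) := by
  induction n generalizing f g with
  | zero =>
    rw [sum_words_zero, pow_zero, one_mul]
    rfl
  | succ n ih =>
    rw [sum_words_cons, S.E_selfsim_one hf hg, pow_succ, mul_comm (S.ρ ^ n), mul_assoc]
    congr 1
    rw [Finset.mul_sum]
    refine Finset.sum_congr rfl fun d _ => ?_
    rw [ih ((S.selfsim_mem f).1 hf d) ((S.selfsim_mem g).1 hg d)]
    rfl

theorem en_nonneg {f : C(K, ℝ)} (hf : f ∈ S.dom) (w : List Dig) : 0 ≤ S.en f w :=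
  S.E_nonneg _ (S.comp_Fw_mem w hf)

theorem E_eq_sum_en (n : ℕ) {f : C(K, ℝ)} (hf : f ∈ S.dom) :
    S.E f f = S.ρ ^ n * ∑ w ∈ words n, S.en f w := S.E_selfsim n hf hf

theorem en_comp (f : C(K, ℝ)) (w v : List Dig) : S.en (f.comp (Fw w)) v = S.en f (w ++ v) := by
  unfold CarForm.en
  rw [Fw_append, ContinuousMap.comp_assoc]

/-- `ρ ^ |v| * en f (w ++ v) ≤ en f w`. -/
theorem en_append_le {f : C(K, ℝ)} (hf : f ∈ S.dom) (w v : List Dig) :
    S.ρ ^ v.length * S.en f (w ++ v) ≤ S.en f w := by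
  have h := S.E_eq_sum_en v.length (S.comp_Fw_mem w hf)
  change S.en f w = _ at h
  rw [h]
  have h1 : (0 : ℝ) ≤ S.ρ ^ v.length := pow_nonneg S.ρ_pos.le _
  refine mul_le_mul_of_nonneg_left ?_ h1
  rw [← S.en_comp f w v]
  exact Finset.single_le_sum (f := fun u => S.en (f.comp (Fw w)) u)
    (fun u _ => S.en_nonneg (S.comp_Fw_mem w hf) u) (mem_words.2 rfl)

theorem polar_inv (T : C(K, K)) (h : ∀ f ∈ S.dom, f.comp T ∈ S.dom ∧
    S.E (f.comp T) (f.comp T) = S.E f f) {f g : C(K, ℝ)} (hf : f ∈ S.dom) (hg : g ∈ S.dom) :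
    S.E (f.comp T) (g.comp T) = S.E f g := by
  have h1 := (h (f + g) (S.dom.add_mem hf hg)).2
  have h2 := h f hf
  have h3 := h g hg
  have e : (f + g).comp T = f.comp T + g.comp T := by ext x; rfl
  rw [e, S.E_add_self h2.1 h3.1, S.E_add_self hf hg, h2.2, h3.2] at h1
  linarith

theorem E_flip {f g : C(K, ℝ)} (hf : f ∈ S.dom) (hg : g ∈ S.dom) :
    S.E (f.comp flipX) (g.comp flipX) = S.E f g := S.polar_inv flipX S.flip_inv hf hg

theorem E_swap {f g : C(K, ℝ)} (hf : f ∈ S.dom) (hg : g ∈ S.dom) :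
    S.E (f.comp swapXY) (g.comp swapXY) = S.E f g := S.polar_inv swapXY S.swap_inv hf hg

theorem flipX_mem {f : C(K, ℝ)} (hf : f ∈ S.dom) : f.comp flipX ∈ S.dom := (S.flip_inv f hf).1

theorem swapXY_mem {f : C(K, ℝ)} (hf : f ∈ S.dom) : f.comp swapXY ∈ S.dom := (S.swap_inv f hf).1

theorem flipY_mem {f : C(K, ℝ)} (hf : f ∈ S.dom) : f.comp flipY ∈ S.dom := by
  have h1 := S.swapXY_mem hf
  have h2 := S.flipX_mem h1
  have h3 := S.swapXY_mem h2
  exact h3

theorem E_flipY {f g : C(K, ℝ)} (hf : f ∈ S.dom) (hg : g ∈ S.dom) :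
    S.E (f.comp flipY) (g.comp flipY) = S.E f g := by
  have e : ∀ f : C(K, ℝ), f.comp flipY = ((f.comp swapXY).comp flipX).comp swapXY := fun f => rfl
  rw [e, e, S.E_swap (S.flipX_mem (S.swapXY_mem hf)) (S.flipX_mem (S.swapXY_mem hg)),
    S.E_flip (S.swapXY_mem hf) (S.swapXY_mem hg), S.E_swap hf hg]

/-- Urysohn functions in the domain: approximate a continuous function equal to `-1` on `A` and
`2` on `B` within `1` by an element of the domain and clamp. -/
theorem exists_urysohn {A B : Set K} (hA : IsClosed A) (hB : IsClosed B) (hAB : Disjoint A B) :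
    ∃ χ ∈ S.dom, (∀ x, 0 ≤ χ x ∧ χ x ≤ 1) ∧ (∀ x ∈ A, χ x = 0) ∧ (∀ x ∈ B, χ x = 1) := by
  obtain ⟨f, hfA, hfB, hf01⟩ := exists_continuous_zero_one_of_isClosed hA hB hAB
  set g : C(K, ℝ) := (3 : ℝ) • f - ContinuousMap.const K 1 with hg
  have hd := S.dense g
  rw [Metric.mem_closure_iff] at hd
  obtain ⟨h, hh, hgh⟩ := hd 1 one_pos
  have hpt : ∀ x, |g x - h x| < 1 := by
    intro x
    have := ContinuousMap.dist_apply_le_dist (f := g) (g := h) x
    rw [Real.dist_eq] at this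
    linarith
  refine ⟨clamp h, (S.markov h hh).1, fun x => ?_, fun x hx => ?_, fun x hx => ?_⟩
  · simp only [clamp, ContinuousMap.inf_apply, ContinuousMap.sup_apply, ContinuousMap.zero_apply,
      ContinuousMap.one_apply]
    exact ⟨le_min (le_max_left _ _) zero_le_one, min_le_right _ _⟩
  · have h1 : g x = -1 := by
      simp only [hg, ContinuousMap.sub_apply, ContinuousMap.coe_smul, Pi.smul_apply, smul_eq_mul,
        ContinuousMap.const_apply]
      rw [hfA hx]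
      simp
    have h2 := hpt x
    rw [h1, abs_lt] at h2
    simp only [clamp, ContinuousMap.inf_apply, ContinuousMap.sup_apply, ContinuousMap.zero_apply,
      ContinuousMap.one_apply]
    rw [max_eq_left (by linarith), min_eq_left zero_le_one]
  · have h1 : g x = 2 := by
      simp only [hg, ContinuousMap.sub_apply, ContinuousMap.coe_smul, Pi.smul_apply, smul_eq_mul,
        ContinuousMap.const_apply]
      rw [hfB hx]
      simp
      norm_num
    have h2 := hpt x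
    rw [h1, abs_lt] at h2
    simp only [clamp, ContinuousMap.inf_apply, ContinuousMap.sup_apply, ContinuousMap.zero_apply,
      ContinuousMap.one_apply]
    rw [max_eq_right (by linarith), min_eq_right (by linarith)]

end CarForm

variable {S}

theorem HarmOff.sub {A : Set K} {f g : C(K, ℝ)} (hf : HarmOff S A f) (hg : HarmOff S A g) :
    HarmOff S A (f - g) :=
  ⟨S.dom.sub_mem hf.1 hg.1, fun φ hφ h => by
    rw [S.E_sub_left hf.1 hg.1 hφ, hf.2 φ hφ h, hg.2 φ hφ h, sub_zero]⟩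

theorem HarmOff.add {A : Set K} {f g : C(K, ℝ)} (hf : HarmOff S A f) (hg : HarmOff S A g) :
    HarmOff S A (f + g) :=
  ⟨S.dom.add_mem hf.1 hg.1, fun φ hφ h => by
    rw [S.E_add f hf.1 g hg.1 φ hφ, hf.2 φ hφ h, hg.2 φ hφ h, add_zero]⟩

theorem HarmOff.smul {A : Set K} {f : C(K, ℝ)} (c : ℝ) (hf : HarmOff S A f) :
    HarmOff S A (c • f) :=
  ⟨S.dom.smul_mem c hf.1, fun φ hφ h => by
    rw [S.E_smul c f hf.1 φ hφ, hf.2 φ hφ h, mul_zero]⟩

theorem HarmOff.const (A : Set K) (c : ℝ) : HarmOff S A (ContinuousMap.const K c) :=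
  ⟨S.const_mem c, fun φ hφ _ => S.E_const_left c hφ⟩

theorem HarmOff.neg {A : Set K} {f : C(K, ℝ)} (hf : HarmOff S A f) : HarmOff S A (-f) :=
  ⟨S.dom.neg_mem hf.1, fun φ hφ h => by rw [S.E_neg_left hf.1 hφ, hf.2 φ hφ h, neg_zero]⟩

theorem HarmOff.mono {A B : Set K} (h : A ⊆ B) {f : C(K, ℝ)} (hf : HarmOff S A f) :
    HarmOff S B f := ⟨hf.1, fun φ hφ h' => hf.2 φ hφ fun x hx => h' x (h hx)⟩

theorem SubOff.mono {A B : Set K} (h : A ⊆ B) {f : C(K, ℝ)} (hf : SubOff S A f) :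
    SubOff S B f := ⟨hf.1, fun φ hφ h0 h' => hf.2 φ hφ h0 fun x hx => h' x (h hx)⟩

theorem SupOff.mono {A B : Set K} (h : A ⊆ B) {f : C(K, ℝ)} (hf : SupOff S A f) :
    SupOff S B f := ⟨hf.1, fun φ hφ h0 h' => hf.2 φ hφ h0 fun x hx => h' x (h hx)⟩

theorem HarmOff.sub' {A : Set K} {f : C(K, ℝ)} (hf : HarmOff S A f) : SubOff S A f :=
  ⟨hf.1, fun φ hφ _ h => (hf.2 φ hφ h).le⟩

theorem HarmOff.sup' {A : Set K} {f : C(K, ℝ)} (hf : HarmOff S A f) : SupOff S A f :=
  ⟨hf.1, fun φ hφ _ h => (hf.2 φ hφ h).ge⟩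

theorem SubOff.neg {A : Set K} {f : C(K, ℝ)} (hf : SubOff S A f) : SupOff S A (-f) :=
  ⟨S.dom.neg_mem hf.1, fun φ hφ h0 h => by
    rw [S.E_neg_left hf.1 hφ]
    linarith [hf.2 φ hφ h0 h]⟩

theorem SupOff.neg {A : Set K} {f : C(K, ℝ)} (hf : SupOff S A f) : SubOff S A (-f) :=
  ⟨S.dom.neg_mem hf.1, fun φ hφ h0 h => by
    rw [S.E_neg_left hf.1 hφ]
    linarith [hf.2 φ hφ h0 h]⟩

theorem SubOff.add {A : Set K} {f g : C(K, ℝ)} (hf : SubOff S A f) (hg : SubOff S A g) :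
    SubOff S A (f + g) :=
  ⟨S.dom.add_mem hf.1 hg.1, fun φ hφ h0 h => by
    rw [S.E_add f hf.1 g hg.1 φ hφ]
    linarith [hf.2 φ hφ h0 h, hg.2 φ hφ h0 h]⟩

theorem SupOff.add {A : Set K} {f g : C(K, ℝ)} (hf : SupOff S A f) (hg : SupOff S A g) :
    SupOff S A (f + g) :=
  ⟨S.dom.add_mem hf.1 hg.1, fun φ hφ h0 h => by
    rw [S.E_add f hf.1 g hg.1 φ hφ]
    linarith [hf.2 φ hφ h0 h, hg.2 φ hφ h0 h]⟩

theorem SubOff.smul {A : Set K} {f : C(K, ℝ)} {c : ℝ} (hc : 0 ≤ c) (hf : SubOff S A f) :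
    SubOff S A (c • f) :=
  ⟨S.dom.smul_mem c hf.1, fun φ hφ h0 h => by
    rw [S.E_smul c f hf.1 φ hφ]
    exact mul_nonpos_of_nonneg_of_nonpos hc (hf.2 φ hφ h0 h)⟩

theorem SupOff.smul {A : Set K} {f : C(K, ℝ)} {c : ℝ} (hc : 0 ≤ c) (hf : SupOff S A f) :
    SupOff S A (c • f) :=
  ⟨S.dom.smul_mem c hf.1, fun φ hφ h0 h => by
    rw [S.E_smul c f hf.1 φ hφ]
    exact mul_nonneg hc (hf.2 φ hφ h0 h)⟩

/-- Subharmonicity from the decrease property. -/
theorem subOff_of_le {A : Set K} {f : C(K, ℝ)} (hf : f ∈ S.dom)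
    (h : ∀ φ ∈ S.dom, 0 ≤ φ → ZeroOn A φ → S.E f f ≤ S.E (f - φ) (f - φ)) : SubOff S A f := by
  refine ⟨hf, fun φ hφ h0 hA => ?_⟩
  have key : ∀ t : ℝ, 0 < t → 2 * S.E f φ ≤ t * S.E φ φ := by
    intro t ht
    have h1 := h (t • φ) (S.dom.smul_mem t hφ) (fun x => mul_nonneg ht.le (h0 x))
      (fun x hx => by
        change t * φ x = 0
        rw [hA x hx, mul_zero])
    rw [S.E_sub_self hf (S.dom.smul_mem t hφ), S.E_smul_right t hf hφ, S.E_smul_self t hφ] at h1
    have h2 : t * (2 * S.E f φ) ≤ t * (t * S.E φ φ) := by nlinarith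
    exact le_of_mul_le_mul_left h2 ht
  have hg' := S.E_nonneg φ hφ
  by_contra hcon
  push Not at hcon
  have h1 := key (S.E f φ / (S.E φ φ + 1)) (by positivity)
  have h2 : S.E f φ / (S.E φ φ + 1) * S.E φ φ ≤ S.E f φ := by
    rw [div_mul_eq_mul_div, div_le_iff₀ (by positivity)]
    nlinarith
  linarith

/-- The energy of a subharmonic function increases when it is decreased. -/
theorem SubOff.le_sub {A : Set K} {f φ : C(K, ℝ)} (hf : SubOff S A f) (hφ : φ ∈ S.dom)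
    (h0 : 0 ≤ φ) (hA : ZeroOn A φ) : S.E f f ≤ S.E (f - φ) (f - φ) := by
  have h1 := hf.2 φ hφ h0 hA
  have h2 := S.E_nonneg φ hφ
  rw [S.E_sub_self hf.1 hφ]
  linarith

theorem SupOff.le_add {A : Set K} {f φ : C(K, ℝ)} (hf : SupOff S A f) (hφ : φ ∈ S.dom)
    (h0 : 0 ≤ φ) (hA : ZeroOn A φ) : S.E f f ≤ S.E (f + φ) (f + φ) := by
  have h1 := hf.2 φ hφ h0 hA
  have h2 := S.E_nonneg φ hφ
  rw [S.E_add_self hf.1 hφ]
  linarith

/-- The maximum of a subharmonic function and a constant is subharmonic. -/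
theorem SubOff.sup_const {A : Set K} {f : C(K, ℝ)} (c : ℝ) (hf : SubOff S A f) :
    SubOff S A (f ⊔ ContinuousMap.const K c) := by
  have hc := S.const_mem c
  have hv := S.sup_mem hf.1 hc
  refine subOff_of_le hv fun φ hφ h0 hA => ?_
  set k := ContinuousMap.const K c with hk
  set v := f ⊔ k with hvd
  set g := v - φ with hgd
  have hg : g ∈ S.dom := S.dom.sub_mem hv hφ
  -- `f ⊓ g = f - ψ` with `0 ≤ ψ ≤ φ`
  have h1 : S.E f f ≤ S.E (f ⊓ g) (f ⊓ g) := by
    rw [CarForm.inf_eq_sub]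
    refine hf.le_sub (S.pos_mem (S.dom.sub_mem hf.1 hg)) (CarForm.pos_nonneg' _) fun x hx => ?_
    have e : g x = v x := by
      rw [hgd]
      simp [hA x hx]
    have e2 : f x ≤ v x := by
      rw [hvd, ContinuousMap.sup_apply]
      exact le_max_left _ _
    change max (f x - g x) 0 = 0
    rw [e]
    exact max_eq_right (by linarith)
  have h2 := S.E_submod hf.1 hg
  have h3 : v = (f ⊔ g) ⊔ k := by
    ext x
    have hφx : 0 ≤ φ x := h0 x
    change max (f x) (k x) = max (max (f x) (max (f x) (k x) - φ x)) (k x)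
    rcases le_total (f x) (k x) with h | h
    · rw [max_eq_right h]
      have : max (f x) (k x - φ x) ≤ k x := max_le h (by linarith)
      rw [max_eq_right this]
    · rw [max_eq_left h, max_eq_left (by linarith : f x - φ x ≤ f x), max_eq_left h]
  have h4 : S.E v v ≤ S.E (f ⊔ g) (f ⊔ g) := by
    conv_lhs => rw [h3]
    exact S.E_sup_const_le c (S.sup_mem hf.1 hg)
  linarith

/-- `(f - c)⁺` is subharmonic. -/
theorem SubOff.pos_sub {A : Set K} {f : C(K, ℝ)} (c : ℝ) (hf : SubOff S A f) :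
    SubOff S A ((f - ContinuousMap.const K c) ⊔ 0) := by
  have h1 : SubOff S A (f - ContinuousMap.const K c) :=
    ⟨S.dom.sub_mem hf.1 (S.const_mem c), fun φ hφ h0 hA => by
      rw [S.E_sub_const_left c hf.1 hφ]
      exact hf.2 φ hφ h0 hA⟩
  have h2 := h1.sup_const 0
  exact h2

theorem SubOff.pos {A : Set K} {f : C(K, ℝ)} (hf : SubOff S A f) : SubOff S A (f ⊔ 0) :=
  hf.sup_const 0

/-- `|f - c|` is subharmonic for harmonic `f`. -/
theorem HarmOff.abs_sub {A : Set K} {f : C(K, ℝ)} (c : ℝ) (hf : HarmOff S A f) :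
    SubOff S A |f - ContinuousMap.const K c| := by
  have h := hf.sub (HarmOff.const A c)
  rw [CarForm.abs_eq_pos]
  exact h.sub'.pos.add h.neg.sub'.pos

/-- SUBZERO: a non-negative function which is subharmonic when tested only with functions below it
is subharmonic; in particular it stays subharmonic across sets where it vanishes. -/
theorem subOff_of_test {A : Set K} {v : C(K, ℝ)} (hv : v ∈ S.dom) (hv0 : 0 ≤ v)
    (h : ∀ ψ ∈ S.dom, 0 ≤ ψ → ψ ≤ v → ZeroOn A ψ → S.E v ψ ≤ 0) : SubOff S A v := by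
  refine subOff_of_le hv fun φ hφ h0 hA => ?_
  have hψ := S.inf_mem hv hφ
  have hψ0 : (0 : C(K, ℝ)) ≤ v ⊓ φ := le_inf hv0 h0
  have h1 := h (v ⊓ φ) hψ hψ0 inf_le_left (fun x hx => by
    have h2 : 0 ≤ v x := hv0 x
    rw [ContinuousMap.inf_apply, hA x hx]
    exact min_eq_right h2)
  have h2 := S.E_nonneg _ hψ
  have h3 : S.E v v ≤ S.E (v - v ⊓ φ) (v - v ⊓ φ) := by
    rw [S.E_sub_self hv hψ]
    linarith
  have h4 : v - v ⊓ φ = (v - φ) ⊔ 0 := by
    ext x
    simp only [ContinuousMap.sub_apply, ContinuousMap.inf_apply, ContinuousMap.sup_apply,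
      ContinuousMap.zero_apply]
    rcases le_total (v x) (φ x) with h | h
    · rw [min_eq_left h, max_eq_right (by linarith)]; ring
    · rw [min_eq_right h, max_eq_left (by linarith)]
  rw [h4] at h3
  exact h3.trans (S.E_pos_le (S.dom.sub_mem hv hφ))

theorem SubOff.pos_subOff {A B : Set K} {u : C(K, ℝ)} (hu : SubOff S (A ∪ B) u)
    (hB : ZeroOn B u) : SubOff S A (u ⊔ 0) := by
  have h1 := hu.pos
  refine subOff_of_test h1.1 (CarForm.pos_nonneg' u) fun ψ hψ h0 hle hA => ?_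
  refine h1.2 ψ hψ h0 fun x hx => ?_
  rcases hx with hx | hx
  · exact hA x hx
  · have h2 : ψ x ≤ (u ⊔ 0) x := hle x
    have h3 : 0 ≤ ψ x := h0 x
    have h4 : (u ⊔ 0) x = 0 := by
      rw [ContinuousMap.sup_apply, hB x hx]
      simp
    linarith

/-- If `u` is harmonic off `A ∪ B` and vanishes on `B`, then `|u|`, `u⁺` are subharmonic
off `A`. -/
theorem HarmOff.abs_subOff {A B : Set K} {u : C(K, ℝ)} (hu : HarmOff S (A ∪ B) u)
    (hB : ZeroOn B u) : SubOff S A |u| := by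
  rw [CarForm.abs_eq_pos]
  refine (hu.sub'.pos_subOff hB).add (hu.neg.sub'.pos_subOff fun x hx => ?_)
  rw [ContinuousMap.neg_apply, hB x hx, neg_zero]

/-- Comparison principle. -/
theorem SubOff.le_zero {A : Set K} (hA : A.Nonempty) {f : C(K, ℝ)} (hf : SubOff S A f)
    (h : ∀ x ∈ A, f x ≤ 0) (x : K) : f x ≤ 0 := by
  obtain ⟨a, ha⟩ := hA
  have hz : ZeroOn A (f ⊔ 0) := fun y hy => by
    rw [ContinuousMap.sup_apply]
    exact max_eq_right (h y hy)
  have h1 := hf.2 (f ⊔ 0) (S.pos_mem hf.1) (CarForm.pos_nonneg' f) hz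
  have h2 := S.E_pos_pos_le hf.1
  have h3 := S.eq_zero_of_E (S.pos_mem hf.1) (h2.trans h1) (hz a ha)
  have h4 : (f ⊔ 0) x = 0 := by rw [h3]; rfl
  rw [ContinuousMap.sup_apply] at h4
  exact (le_max_left _ _).trans h4.le

end Pool.Agent.Helper67.SC
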