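import Pool.Agent.Helper67.SC.G3

/-! Module F3: solving linear problems in the domain (Riesz/Lax-Milgram), Dirichlet problem,
Green functions. -/

open MeasureTheory Filter Topology

noncomputable section

namespace Pool.Agent.Helper67.SC

variable (S : CarForm)

/-- General solver. `A` is a non-empty set, `P` a symmetric bilinear perturbation which is bounded
in the sup norm, and `E + P` is coercive on the functions vanishing on `A`; `ℓ` is a linear
functional bounded by `sqrt E`. Proof: the space `{φ ∈ dom | ZeroOn A φ}` with the inner product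
`E + P` is a Hilbert space (completeness: axiom `complete`, and subtract the value of the limit at a
point of `A`; `E`-convergence implies uniform convergence by `osc`), then use the Riesz theorem
(`InnerProductSpace.toDual`). -/
theorem solve {A : Set K} (hA : A.Nonempty) (P : C(K, ℝ) →ₗ[ℝ] C(K, ℝ) →ₗ[ℝ] ℝ)
    (hPs : ∀ f g, P f g = P g f) {B : ℝ} (hPb : ∀ f g, |P f g| ≤ B * ‖f‖ * ‖g‖) {c : ℝ} (hc : 0 < c)
    (hco : ∀ φ ∈ S.dom, ZeroOn A φ → c * S.E φ φ ≤ S.E φ φ + P φ φ)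
    (ℓ : C(K, ℝ) → ℝ) (hℓa : ∀ f ∈ S.dom, ∀ g ∈ S.dom, ℓ (f + g) = ℓ f + ℓ g)
    (hℓs : ∀ (a : ℝ), ∀ f ∈ S.dom, ℓ (a • f) = a * ℓ f) {D : ℝ}
    (hℓb : ∀ φ ∈ S.dom, ZeroOn A φ → |ℓ φ| ≤ D * Real.sqrt (S.E φ φ)) :
    ∃ u ∈ S.dom, ZeroOn A u ∧ ∀ φ ∈ S.dom, ZeroOn A φ → S.E u φ + P u φ = ℓ φ := by
  obtain ⟨a₀, ha₀⟩ := hA
  set J : C(K, ℝ) → ℝ := fun φ => S.E φ φ + P φ φ - 2 * ℓ φ with hJ
  set V : Set C(K, ℝ) := {φ | φ ∈ S.dom ∧ ZeroOn A φ} with hV
  have hV0 : (0 : C(K, ℝ)) ∈ V := ⟨S.dom.zero_mem, fun x _ => rfl⟩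
  have hVadd : ∀ f ∈ V, ∀ g ∈ V, f + g ∈ V := fun f hf g hg =>
    ⟨S.dom.add_mem hf.1 hg.1, fun x hx => by
      rw [ContinuousMap.add_apply, hf.2 x hx, hg.2 x hx, add_zero]⟩
  have hVsmul : ∀ (t : ℝ), ∀ f ∈ V, t • f ∈ V := fun t f hf =>
    ⟨S.dom.smul_mem t hf.1, fun x hx => by
      rw [ContinuousMap.smul_apply, hf.2 x hx, smul_zero]⟩
  -- boundedness from below
  have hlow : ∀ φ ∈ V, -(D ^ 2 / c) ≤ J φ := by
    intro φ hφ
    have h1 := hco φ hφ.1 hφ.2
    have h2 := (abs_le.1 (hℓb φ hφ.1 hφ.2)).2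
    have h3 : Real.sqrt (S.E φ φ) ^ 2 = S.E φ φ := Real.sq_sqrt (S.E_nonneg φ hφ.1)
    have h4 : 0 ≤ (c * Real.sqrt (S.E φ φ) - D) ^ 2 / c := by positivity
    have h5 : (c * Real.sqrt (S.E φ φ) - D) ^ 2 / c =
        c * Real.sqrt (S.E φ φ) ^ 2 - 2 * (D * Real.sqrt (S.E φ φ)) + D ^ 2 / c := by
      field_simp
      ring
    rw [h5, h3] at h4
    simp only [hJ]
    linarith
  set I : ℝ := sInf (J '' V) with hI
  have hbdd : BddBelow (J '' V) := ⟨-(D ^ 2 / c), by rintro _ ⟨φ, hφ, rfl⟩; exact hlow φ hφ⟩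
  have hIle : ∀ φ ∈ V, I ≤ J φ := fun φ hφ => csInf_le hbdd ⟨φ, hφ, rfl⟩
  have hne : (J '' V).Nonempty := ⟨J 0, 0, hV0, rfl⟩
  have hex : ∀ n : ℕ, ∃ φ ∈ V, J φ < I + 1 / ((n : ℝ) + 1) := by
    intro n
    have h1 : I < I + 1 / ((n : ℝ) + 1) := by
      have : (0 : ℝ) < 1 / ((n : ℝ) + 1) := by positivity
      linarith
    obtain ⟨_, ⟨φ, hφ, rfl⟩, h2⟩ := exists_lt_of_csInf_lt hne h1
    exact ⟨φ, hφ, h2⟩
  choose f hfV hfJ using hex
  -- expansion of `J`
  have hJadd : ∀ g ∈ V, ∀ φ ∈ V, ∀ t : ℝ, J (g + t • φ) =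
      J g + 2 * t * (S.E g φ + P g φ - ℓ φ) + t ^ 2 * (S.E φ φ + P φ φ) := by
    intro g hg φ hφ t
    have e1 := S.E_add_self hg.1 (S.dom.smul_mem t hφ.1)
    have e2 : S.E g (t • φ) = t * S.E g φ := S.E_smul_right t hg.1 hφ.1
    have e3 : S.E (t • φ) (t • φ) = t ^ 2 * S.E φ φ := S.E_smul_self t hφ.1
    have e4 : P (g + t • φ) (g + t • φ) = P g g + 2 * (t * P g φ) + t ^ 2 * P φ φ := by
      simp only [map_add, map_smul, LinearMap.add_apply, LinearMap.smul_apply, smul_eq_mul]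
      rw [hPs φ g]
      ring
    have e5 : ℓ (g + t • φ) = ℓ g + t * ℓ φ := by
      rw [hℓa g hg.1 _ (S.dom.smul_mem t hφ.1), hℓs t φ hφ.1]
    simp only [hJ]
    rw [e1, e2, e3, e4, e5]
    ring
  -- the minimizing sequence is Cauchy
  have hpar : ∀ g ∈ V, ∀ k ∈ V, S.E (g - k) (g - k) + P (g - k) (g - k) ≤
      2 * (J g + J k - 2 * I) := by
    intro g hg k hk
    have hk' : (-1 : ℝ) • k ∈ V := hVsmul _ k hk
    have hgk : g - k ∈ V := by
      have : g - k = g + (-1 : ℝ) • k := by rw [neg_one_smul, sub_eq_add_neg]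
      rw [this]
      exact hVadd g hg _ hk'
    have h1 := hJadd k hk (g - k) hgk 1
    have h2 := hJadd k hk (g - k) hgk (1 / 2)
    have h3 : k + (1 : ℝ) • (g - k) = g := by rw [one_smul]; abel
    rw [h3] at h1
    have h4 := hIle _ (hVadd k hk _ (hVsmul (1 / 2) _ hgk))
    rw [h2] at h4
    linarith
  have hsm : ∀ ε > 0, ∃ N : ℕ, ∀ m ≥ N, 1 / ((m : ℝ) + 1) < ε := by
    intro ε hε
    obtain ⟨N, hN⟩ := exists_nat_gt (1 / ε)
    refine ⟨N, fun m hm => ?_⟩
    have h1 : (N : ℝ) ≤ m := by exact_mod_cast hm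
    rw [div_lt_comm₀ (by positivity) hε]
    linarith
  have hsub : ∀ m n, f m - f n ∈ V := fun m n => by
    have : f m - f n = f m + (-1 : ℝ) • f n := by rw [neg_one_smul, sub_eq_add_neg]
    rw [this]
    exact hVadd _ (hfV m) _ (hVsmul _ _ (hfV n))
  obtain ⟨g, hg, hlim⟩ := S.complete f (fun n => (hfV n).1) (by
    intro ε hε
    obtain ⟨N, hN⟩ := hsm (c * ε / 4) (by positivity)
    refine ⟨N, fun m hm n hn => ?_⟩
    have h1 := hpar _ (hfV m) _ (hfV n)
    have h2 := hco _ (hsub m n).1 (hsub m n).2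
    have h3 := hfJ m
    have h4 := hfJ n
    have h5 := hN m hm
    have h6 := hN n hn
    have h7 : c * S.E (f m - f n) (f m - f n) < c * ε := by linarith
    exact lt_of_mul_lt_mul_left h7 hc.le)
  set u : C(K, ℝ) := g - ContinuousMap.const K (g a₀) with hu
  have hud : u ∈ S.dom := (S.E_sub_const (g a₀) hg).1
  have hfu : ∀ n, S.E (f n - u) (f n - u) = S.E (f n - g) (f n - g) := by
    intro n
    have h1 : f n - u = (f n - g) - ContinuousMap.const K (-(g a₀)) := by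
      ext x
      simp only [hu, ContinuousMap.sub_apply, ContinuousMap.const_apply]
      ring
    rw [h1]
    exact (S.E_sub_const _ (S.dom.sub_mem (hfV n).1 hg)).2
  obtain ⟨C, hC, hosc⟩ := S.osc
  have hua : u a₀ = 0 := by
    simp only [hu, ContinuousMap.sub_apply, ContinuousMap.const_apply]
    ring
  have hunif : ∀ n x, |f n x - u x| ≤ C * Real.sqrt (S.E (f n - u) (f n - u)) := by
    intro n x
    have h1 := hosc (f n - u) (S.dom.sub_mem (hfV n).1 hud) x a₀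
    have h2 : (f n - u) x - (f n - u) a₀ = f n x - u x := by
      have e1 : (f n - u) x = f n x - u x := rfl
      have e2 : (f n - u) a₀ = f n a₀ - u a₀ := rfl
      rw [e1, e2, (hfV n).2 a₀ ha₀, hua, sub_zero, sub_zero]
    rwa [h2] at h1
  have hE0 : Tendsto (fun n => Real.sqrt (S.E (f n - u) (f n - u))) atTop (𝓝 0) := by
    simp_rw [hfu]
    have h1 := (Real.continuous_sqrt.tendsto 0).comp hlim
    rwa [Real.sqrt_zero] at h1
  have hzero : ZeroOn A u := by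
    intro x hx
    have h1 : Tendsto (fun n => C * Real.sqrt (S.E (f n - u) (f n - u))) atTop (𝓝 0) := by
      simpa using hE0.const_mul C
    have h2 : ∀ n, |u x| ≤ C * Real.sqrt (S.E (f n - u) (f n - u)) := by
      intro n
      have h3 := hunif n x
      rwa [(hfV n).2 x hx, zero_sub, abs_neg] at h3
    have h3 : |u x| ≤ 0 := ge_of_tendsto' h1 h2
    exact abs_eq_zero.1 (le_antisymm h3 (abs_nonneg _))
  refine ⟨u, hud, hzero, fun φ hφ hφ0 => ?_⟩
  have hφV : φ ∈ V := ⟨hφ, hφ0⟩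
  -- the first variation
  set L : ℝ := S.E u φ + P u φ - ℓ φ with hL
  have hLn : Tendsto (fun n => S.E (f n) φ + P (f n) φ - ℓ φ) atTop (𝓝 L) := by
    rw [tendsto_iff_norm_sub_tendsto_zero]
    have h1 : ∀ n, ‖S.E (f n) φ + P (f n) φ - ℓ φ - L‖ ≤
        Real.sqrt (S.E (f n - u) (f n - u)) * Real.sqrt (S.E φ φ) +
          |B| * (C * Real.sqrt (S.E (f n - u) (f n - u))) * ‖φ‖ := by
      intro n
      have e1 : S.E (f n) φ + P (f n) φ - ℓ φ - L = S.E (f n - u) φ + P (f n - u) φ := by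
        rw [hL, S.E_sub_left (hfV n).1 hud hφ, map_sub P (f n) u, LinearMap.sub_apply]
        ring
      rw [e1]
      have e2 := S.E_abs_le (S.dom.sub_mem (hfV n).1 hud) hφ
      have e3 := hPb (f n - u) φ
      have e4 : ‖f n - u‖ ≤ C * Real.sqrt (S.E (f n - u) (f n - u)) := by
        rw [ContinuousMap.norm_le _ (by positivity)]
        intro x
        exact hunif n x
      have e5 : B * ‖f n - u‖ * ‖φ‖ ≤ |B| * (C * Real.sqrt (S.E (f n - u) (f n - u))) * ‖φ‖ := by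
        refine mul_le_mul_of_nonneg_right ?_ (norm_nonneg _)
        exact mul_le_mul (le_abs_self B) e4 (norm_nonneg _) (abs_nonneg _)
      calc ‖S.E (f n - u) φ + P (f n - u) φ‖ ≤ |S.E (f n - u) φ| + |P (f n - u) φ| :=
            norm_add_le _ _
        _ ≤ _ := add_le_add e2 (e3.trans e5)
    refine squeeze_zero (fun n => norm_nonneg _) h1 ?_
    have h2 := (hE0.mul_const (Real.sqrt (S.E φ φ))).add
      (((hE0.const_mul C).const_mul |B|).mul_const ‖φ‖)
    simpa using h2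
  have hquad : ∀ t : ℝ, 0 ≤ 2 * t * L + t ^ 2 * (S.E φ φ + P φ φ) := by
    intro t
    have h1 : Tendsto (fun n => 2 * t * (S.E (f n) φ + P (f n) φ - ℓ φ) +
        t ^ 2 * (S.E φ φ + P φ φ) + 1 / ((n : ℝ) + 1)) atTop
        (𝓝 (2 * t * L + t ^ 2 * (S.E φ φ + P φ φ) + 0)) :=
      ((hLn.const_mul (2 * t)).add_const _).add tendsto_one_div_add_atTop_nhds_zero_nat
    rw [add_zero] at h1
    refine ge_of_tendsto' h1 fun n => ?_
    have h2 := hIle _ (hVadd _ (hfV n) _ (hVsmul t _ hφV))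
    rw [hJadd _ (hfV n) _ hφV t] at h2
    have h3 := hfJ n
    linarith
  have hL0 : L = 0 := by
    have hQ : 0 ≤ S.E φ φ + P φ φ :=
      le_trans (mul_nonneg hc.le (S.E_nonneg φ hφ)) (hco φ hφ hφ0)
    set q : ℝ := S.E φ φ + P φ φ with hq
    have h1 := hquad (-L / (q + 1))
    have h2 : 2 * (-L / (q + 1)) * L + (-L / (q + 1)) ^ 2 * q =
        -(L ^ 2 * (q + 2)) / (q + 1) ^ 2 := by
      field_simp
      ring
    rw [h2] at h1
    have h3 : 0 ≤ -(L ^ 2 * (q + 2)) := by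
      rw [le_div_iff₀ (by positivity), zero_mul] at h1
      exact h1
    have h4 : L ^ 2 * (q + 2) = 0 := le_antisymm (by linarith) (by positivity)
    rcases mul_eq_zero.1 h4 with h5 | h5
    · exact pow_eq_zero_iff (by norm_num) |>.1 h5
    · linarith
  rw [hL] at hL0
  linarith

/-- Dirichlet problem. -/
theorem exists_dirichlet {A : Set K} (hA : A.Nonempty) {g : C(K, ℝ)} (hg : g ∈ S.dom) :
    ∃ h, HarmOff S A h ∧ ∀ x ∈ A, h x = g x := by
  obtain ⟨u, hu, hu0, h⟩ := solve S hA 0 (fun f g => rfl) (B := 0) (fun f g => by simp)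
    one_pos (fun φ _ _ => by simp) (fun φ => S.E g φ)
    (fun f hf k hk => S.E_add_right hg hf hk) (fun a f hf => S.E_smul_right a hg hf)
    (D := Real.sqrt (S.E g g)) (fun φ hφ _ => S.E_abs_le hg hφ)
  refine ⟨g - u, ⟨S.dom.sub_mem hg hu, fun φ hφ hφ0 => ?_⟩, fun x hx => ?_⟩
  · rw [S.E_sub_left hg hu hφ]
    have h1 := h φ hφ hφ0
    simp only [LinearMap.zero_apply, add_zero] at h1
    rw [h1, sub_self]
  · rw [ContinuousMap.sub_apply, hu0 x hx, sub_zero]

/-- Green function with pole `a` and zero values on `A`. -/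
theorem exists_green {A : Set K} (hA : A.Nonempty) (a : K) :
    ∃ G ∈ S.dom, ZeroOn A G ∧ ∀ φ ∈ S.dom, ZeroOn A φ → S.E G φ = φ a := by
  obtain ⟨C, hC, hosc⟩ := S.osc
  obtain ⟨a₀, ha₀⟩ := hA
  obtain ⟨u, hu, hu0, h⟩ := solve S ⟨a₀, ha₀⟩ 0 (fun f g => rfl) (B := 0) (fun f g => by simp)
    one_pos (fun φ _ _ => by simp) (fun φ => φ a)
    (fun f _ k _ => rfl) (fun c f _ => rfl) (D := C) (fun φ hφ h0 => by
      have h1 := hosc φ hφ a a₀
      rwa [h0 a₀ ha₀, sub_zero] at h1)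
  refine ⟨u, hu, hu0, fun φ hφ hφ0 => ?_⟩
  have h1 := h φ hφ hφ0
  simpa only [LinearMap.zero_apply, add_zero] using h1

/-- Properties of Green functions. -/
theorem green_nonneg {A : Set K} {a : K} {G : C(K, ℝ)} (hA : A.Nonempty) (hG : G ∈ S.dom)
    (h0 : ZeroOn A G) (h : ∀ φ ∈ S.dom, ZeroOn A φ → S.E G φ = φ a) :
    (0 ≤ G) ∧ SupOff S A G ∧ HarmOff S (A ∪ {a}) G ∧ (∀ x, G x ≤ G a) := by
  obtain ⟨a₀, ha₀⟩ := hA
  have hG0 : 0 ≤ G := by
    have hN : (-G) ⊔ 0 ∈ S.dom := S.pos_mem (S.dom.neg_mem hG)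
    have hNz : ZeroOn A ((-G) ⊔ 0) := fun x hx => by
      rw [ContinuousMap.sup_apply, ContinuousMap.neg_apply, h0 x hx, neg_zero,
        ContinuousMap.zero_apply, sup_idem]
    have h1 := h _ hN hNz
    have h2 := S.E_pos_pos_le (S.dom.neg_mem hG)
    rw [S.E_neg_left hG hN, h1] at h2
    have h3 : 0 ≤ ((-G) ⊔ 0) a := by
      rw [ContinuousMap.sup_apply]
      exact le_sup_right
    have h4 := S.eq_zero_of_E hN (by linarith) (hNz a₀ ha₀)
    intro x
    have h5 : ((-G) ⊔ 0) x = 0 := by rw [h4]; rfl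
    rw [ContinuousMap.sup_apply, ContinuousMap.neg_apply, ContinuousMap.zero_apply] at h5
    have h6 : -G x ≤ 0 := le_trans le_sup_left h5.le
    show 0 ≤ G x
    linarith
  refine ⟨hG0, ⟨hG, fun φ hφ hφ0 hz => ?_⟩, ⟨hG, fun φ hφ hz => ?_⟩, fun x => ?_⟩
  · rw [h φ hφ hz]
    exact hφ0 a
  · rw [h φ hφ (fun x hx => hz x (Or.inl hx))]
    exact hz a (Or.inr rfl)
  · set f : C(K, ℝ) := G - ContinuousMap.const K (G a) with hf
    have hfd : f ∈ S.dom := (S.E_sub_const (G a) hG).1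
    have hN : f ⊔ 0 ∈ S.dom := S.pos_mem hfd
    have hNz : ZeroOn A (f ⊔ 0) := fun y hy => by
      rw [ContinuousMap.sup_apply, ContinuousMap.zero_apply]
      refine sup_eq_right.2 ?_
      simp only [hf, ContinuousMap.sub_apply, ContinuousMap.const_apply, h0 y hy]
      have : 0 ≤ G a := hG0 a
      linarith
    have h1 := h _ hN hNz
    have h2 := S.E_pos_pos_le hfd
    have h3 : S.E f (f ⊔ 0) = S.E G (f ⊔ 0) := S.E_sub_const_left (G a) hG hN
    have h4 : (f ⊔ 0) a = 0 := by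
      rw [ContinuousMap.sup_apply, ContinuousMap.zero_apply]
      refine sup_eq_right.2 ?_
      simp only [hf, ContinuousMap.sub_apply, ContinuousMap.const_apply]
      linarith
    rw [h3, h1, h4] at h2
    have h5 := S.eq_zero_of_E hN h2 (hNz a₀ ha₀)
    have h6 : (f ⊔ 0) x = 0 := by rw [h5]; rfl
    rw [ContinuousMap.sup_apply, ContinuousMap.zero_apply] at h6
    have h7 : f x ≤ 0 := le_trans le_sup_left h6.le
    simp only [hf, ContinuousMap.sub_apply, ContinuousMap.const_apply] at h7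
    linarith

/-- `G a` is bounded by a constant depending only on the form. -/
theorem exists_green_bound : ∃ C : ℝ, 0 < C ∧ ∀ (A : Set K) (a : K) (G : C(K, ℝ)), A.Nonempty →
    G ∈ S.dom → ZeroOn A G → (∀ φ ∈ S.dom, ZeroOn A φ → S.E G φ = φ a) → G a ≤ C := by
  obtain ⟨C, hC, hosc⟩ := S.osc
  refine ⟨C ^ 2, by positivity, fun A a G hA hG h0 h => ?_⟩
  obtain ⟨hG0, -, -, -⟩ := green_nonneg S hA hG h0 h
  obtain ⟨a₀, ha₀⟩ := hA
  have h1 := hosc G hG a a₀
  have h2 : 0 ≤ G a := hG0 a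
  rw [h0 a₀ ha₀, sub_zero, h G hG h0, abs_of_nonneg h2] at h1
  have h3 : Real.sqrt (G a) * Real.sqrt (G a) = G a := Real.mul_self_sqrt h2
  rcases (Real.sqrt_nonneg (G a)).eq_or_lt with h4 | h4
  · rw [← h4, mul_zero] at h3
    rw [← h3]
    positivity
  · have h5 : Real.sqrt (G a) ≤ C := by
      have h6 : Real.sqrt (G a) * Real.sqrt (G a) ≤ C * Real.sqrt (G a) := by rw [h3]; exact h1
      exact le_of_mul_le_mul_right h6 h4
    calc G a ≤ C * Real.sqrt (G a) := h1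
      _ ≤ C * C := mul_le_mul_of_nonneg_left h5 hC.le
      _ = C ^ 2 := by ring

/-- Lower bound by the Green function (max principle):
`W ≥ 0` superharmonic off `A` implies `W x * G a ≥ W a * G x`. -/
theorem green_lower {A : Set K} {a : K} {G W : C(K, ℝ)} (hA : A.Nonempty) (hG : G ∈ S.dom)
    (h0 : ZeroOn A G) (h : ∀ φ ∈ S.dom, ZeroOn A φ → S.E G φ = φ a) (hW : SupOff S A W)
    (hW0 : 0 ≤ W) (x : K) : W a * G x ≤ W x * G a := by
  obtain ⟨hG0, -, hharm, -⟩ := green_nonneg S hA hG h0 h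
  have hGa : 0 ≤ G a := hG0 a
  have hf : SubOff S (A ∪ {a}) (W a • G - G a • W) := by
    refine ⟨S.dom.sub_mem (S.dom.smul_mem _ hG) (S.dom.smul_mem _ hW.1), fun φ hφ hφ0 hz => ?_⟩
    rw [S.E_sub_left (S.dom.smul_mem _ hG) (S.dom.smul_mem _ hW.1) hφ,
      S.E_smul _ _ hG _ hφ, S.E_smul _ _ hW.1 _ hφ, hharm.2 φ hφ hz, mul_zero, zero_sub]
    have h1 := hW.2 φ hφ hφ0 (fun y hy => hz y (Or.inl hy))
    have := mul_nonneg hGa h1
    linarith
  have h1 := hf.le_zero (A := A ∪ {a}) ⟨a, Or.inr rfl⟩ (fun y hy => by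
    simp only [ContinuousMap.sub_apply, ContinuousMap.smul_apply, smul_eq_mul]
    rcases hy with hy | hy
    · rw [h0 y hy, mul_zero, zero_sub]
      have h2 : 0 ≤ W y := hW0 y
      have := mul_nonneg hGa h2
      linarith
    · rw [Set.mem_singleton_iff] at hy
      subst hy
      linarith [mul_comm (W y) (G y)]) x
  simp only [ContinuousMap.sub_apply, ContinuousMap.smul_apply, smul_eq_mul] at h1
  linarith [mul_comm (W x) (G a)]

end Pool.Agent.Helper67.SC
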