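import Pool.Agent.Helper67.SC.F2

/-! Module F4a: Caccioppoli inequalities. -/

open MeasureTheory Filter Topology

noncomputable section

namespace Pool.Agent.Helper67.SC

variable (S : CarForm)

theorem f4a_cell_inn {k : ℤ} (hk : 0 ≤ k) (w : List Dig) : cell w ⊆ inn k w :=
  cell_subset_inn rfl (near_refl hk w)

theorem f4a_en_le {f : C(K, ℝ)} (hf : f ∈ S.dom) (w : List Dig) :
    S.ρ ^ w.length * S.en f w ≤ S.E f f := by
  have h := S.en_append_le hf [] w
  exact h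

theorem f4a_en_congr {f g : C(K, ℝ)} {w : List Dig} (h : ∀ x ∈ cell w, f x = g x) :
    S.en f w = S.en g w := by
  have : f.comp (Fw w) = g.comp (Fw w) := by
    ext x
    exact h _ ⟨x, rfl⟩
  unfold CarForm.en
  rw [this]

theorem f4a_en_sub_const (c : ℝ) {f : C(K, ℝ)} (hf : f ∈ S.dom) (w : List Dig) :
    S.en (f - ContinuousMap.const K c) w = S.en f w :=
  (S.E_sub_const c (S.comp_Fw_mem w hf)).2

theorem f4a_en_smul (c : ℝ) {f : C(K, ℝ)} (hf : f ∈ S.dom) (w : List Dig) :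
    S.en (c • f) w = c ^ 2 * S.en f w :=
  S.E_smul_self c (S.comp_Fw_mem w hf)

/-- CACC-sup. WLOG `H ≥ 0` everywhere (`SupOff.pos_of_local`). Let `χ` be the cutoff of
`exists_cutoff 0` and `b = M χ`, `φ = (b - H)⁺` (zero on `out 1 w`). `E (H + φ) ≥ E H` since `E H φ ≥ 0`,
`H ⊔ b = H + φ`, so by submodularity `E (H ⊓ b) ≤ E b ≤ C M² ρ^n`, and `ρ^n en (H ⊓ b) w ≤ E (H ⊓ b)`,
where `b = M` on the cell of `w`. -/
theorem cacc_sup : ∃ C : ℝ, 0 < C ∧ ∀ (w : List Dig) (H : C(K, ℝ)) (M : ℝ), 0 ≤ M →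
    SupOff S (out 1 w) H → (∀ x ∈ inn 1 w, 0 ≤ H x) →
    S.en (H ⊓ ContinuousMap.const K M) w ≤ C * M ^ 2 := by
  obtain ⟨C, hC, hcut⟩ := exists_cutoff S 0
  refine ⟨C, hC, ?_⟩
  intro w H0 M hM hH0 hpos
  obtain ⟨χ, hχ, hχ01, hχ1, hχ0, -, hχE⟩ := hcut w
  obtain ⟨hH, hHeq⟩ := SupOff.pos_of_local hH0 hpos
  set H : C(K, ℝ) := H0 ⊔ 0 with hHdef
  have hHnn : ∀ x, 0 ≤ H x := fun x => le_sup_right
  have hb : M • χ ∈ S.dom := S.dom.smul_mem _ hχ
  set b : C(K, ℝ) := M • χ with hbdef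
  have hbx : ∀ x, b x = M * χ x := fun x => rfl
  have hφ : (b - H) ⊔ 0 ∈ S.dom := S.pos_mem (S.dom.sub_mem hb hH.1)
  set φ : C(K, ℝ) := (b - H) ⊔ 0 with hφdef
  have hφx : ∀ x, φ x = max (b x - H x) 0 := fun x => rfl
  have hφz : ZeroOn (out 1 w) φ := by
    intro x hx
    rw [hφx, hbx, hχ0 x (by simpa using hx), mul_zero]
    exact max_eq_right (by linarith [hHnn x])
  have hφ0 : (0 : C(K, ℝ)) ≤ φ := fun x => le_max_right _ _
  have h1 : 0 ≤ S.E H φ := hH.2 φ hφ hφ0 hφz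
  have h2 : H ⊔ b = H + φ := by
    ext x
    show max (H x) (b x) = H x + φ x
    rw [hφx]
    rcases le_total (b x) (H x) with h | h
    · rw [max_eq_left h, max_eq_right (by linarith), add_zero]
    · rw [max_eq_right h, max_eq_left (by linarith)]; ring
  have h3 := S.E_submod hH.1 hb
  rw [h2, S.E_add_self hH.1 hφ] at h3
  have h4 : S.E (H ⊓ b) (H ⊓ b) ≤ S.E b b := by linarith [S.E_nonneg φ hφ]
  have h5 : S.E b b ≤ M ^ 2 * (C * S.ρ ^ w.length) := by
    rw [hbdef, S.E_smul_self M hχ]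
    exact mul_le_mul_of_nonneg_left hχE (sq_nonneg M)
  have h6 := f4a_en_le S (S.inf_mem hH.1 hb) w
  have h7 : S.en (H ⊓ b) w = S.en (H0 ⊓ ContinuousMap.const K M) w := by
    apply f4a_en_congr
    intro x hx
    have hx0 : x ∈ inn 0 w := f4a_cell_inn le_rfl w hx
    have hx1 : x ∈ inn 1 w := f4a_cell_inn (by norm_num) w hx
    show min (H x) (b x) = min (H0 x) M
    rw [hHeq x hx1, hbx, hχ1 x (by simpa using hx0), mul_one]
  rw [h7] at h6
  have hρ : 0 < S.ρ ^ w.length := pow_pos S.ρ_pos _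
  have h8 : S.ρ ^ w.length * S.en (H0 ⊓ ContinuousMap.const K M) w
      ≤ S.ρ ^ w.length * (C * M ^ 2) := by
    calc _ ≤ S.E (H ⊓ b) (H ⊓ b) := h6
      _ ≤ M ^ 2 * (C * S.ρ ^ w.length) := h4.trans h5
      _ = _ := by ring
  exact le_of_mul_le_mul_left h8 hρ

/-- CACC-sub. `b = M (1 - χ)`, `φ = (v - b)⁺` on `inn 1 w`, `0` elsewhere (`glue_dom`; on the common
points `b = M ≥ v`). Subharmonicity gives `E v ≤ E (v - φ)`; cancel the cells outside, and
use submodularity cell by cell on the cells near `w`: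
`∑ en (v ⊔ b) ≤ ∑ en b ≤ C M²`; on the cell of `w`, `b = 0`. -/
theorem cacc_sub : ∃ C : ℝ, 0 < C ∧ ∀ (w : List Dig) (v : C(K, ℝ)) (M : ℝ),
    SubOff S (out 1 w) v → (∀ x ∈ inn 1 w, 0 ≤ v x ∧ v x ≤ M) → S.en v w ≤ C * M ^ 2 := by
  classical
  obtain ⟨C, hC, hcut⟩ := exists_cutoff S 0
  refine ⟨9 * C, by positivity, ?_⟩
  intro w v M hv hvM
  obtain ⟨χ, hχ, hχ01, hχ1, hχ0, hχe, -⟩ := hcut w
  have hb : M • χ - ContinuousMap.const K M ∈ S.dom :=
    S.dom.sub_mem (S.dom.smul_mem _ hχ) (S.const_mem _)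
  -- `b = M - M χ`
  set b : C(K, ℝ) := ContinuousMap.const K M - M • χ with hbdef
  have hbd : b ∈ S.dom := S.dom.sub_mem (S.const_mem _) (S.dom.smul_mem _ hχ)
  have hbx : ∀ x, b x = M - M * χ x := fun x => rfl
  have hbout : ∀ x ∈ out 1 w, b x = M := fun x hx => by
    rw [hbx, hχ0 x (by simpa using hx)]; ring
  have hbcell : ∀ x ∈ cell w, b x = 0 := fun x hx => by
    rw [hbx, hχ1 x (by simpa using f4a_cell_inn le_rfl w hx)]; ring
  have hben : ∀ s : List Dig, s.length = w.length → S.en b s ≤ C * M ^ 2 := by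
    intro s hs
    have e1 : b = (-1 : ℝ) • (M • χ - ContinuousMap.const K M) := by
      rw [hbdef]; ext x
      show M - M * χ x = -1 * (M * χ x - M)
      ring
    rw [e1, f4a_en_smul S _ hb, f4a_en_sub_const S _ (S.dom.smul_mem _ hχ), f4a_en_smul S _ hχ]
    have h1 := hχe s hs
    have h2 := mul_le_mul_of_nonneg_left h1 (sq_nonneg M)
    linarith
  obtain ⟨φ, hφ, hφ1, hφ2⟩ := glue_dom w.length {s | near 1 s w}
    (S.pos_mem (S.dom.sub_mem hv.1 hbd)) (S.dom.zero_mem) (by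
      intro s t hs ht hsT htT x hxs hxt
      have hx1 : x ∈ inn 1 w := ⟨s, hs, hsT, hxs⟩
      have hx2 : x ∈ out 1 w := ⟨t, ht, htT, hxt⟩
      show max (v x - b x) 0 = 0
      rw [hbout x hx2]
      exact max_eq_right (by linarith [(hvM x hx1).2]))
  have hφnn : (0 : C(K, ℝ)) ≤ φ := by
    intro x
    obtain ⟨s, hs, hxs⟩ := exists_cell w.length x
    show (0 : ℝ) ≤ φ x
    by_cases hn : near 1 s w
    · rw [(hφ1 s hs hn).2 x hxs]
      exact le_max_right _ _
    · rw [(hφ2 s hs hn).2 x hxs]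
      exact le_rfl
  have hφz : ZeroOn (out 1 w) φ := by
    rintro x ⟨s, hs, hn, hxs⟩
    exact (hφ2 s hs hn).2 x hxs
  have h1 : S.E v φ ≤ 0 := hv.2 φ hφ hφnn hφz
  have h2 : S.E v v ≤ S.E (v - φ) (v - φ) := by
    rw [S.E_sub_self hv.1 hφ]
    linarith [S.E_nonneg φ hφ]
  have hvφ : v - φ ∈ S.dom := S.dom.sub_mem hv.1 hφ
  rw [S.E_eq_sum_en w.length hv.1, S.E_eq_sum_en w.length hvφ] at h2
  have h3 := le_of_mul_le_mul_left h2 (pow_pos S.ρ_pos _)
  -- termwise
  have hsup : v ⊔ b ∈ S.dom := S.sup_mem hv.1 hbd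
  set N := (words w.length).filter (fun s =>
      |(pos s).1 - (pos w).1| ≤ ((1 : ℕ) : ℤ) ∧ |(pos s).2 - (pos w).2| ≤ ((1 : ℕ) : ℤ)) with hN
  have h4 : ∀ s ∈ words w.length, S.en (v - φ) s ≤ S.en v s +
      (if s ∈ N then S.en b s - S.en (v ⊔ b) s else 0) := by
    intro s hs
    have hsl : s.length = w.length := mem_words.1 hs
    by_cases hn : near 1 s w
    · have hsN : s ∈ N := by
        rw [hN, Finset.mem_filter]
        exact ⟨hs, hn⟩
      rw [if_pos hsN]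
      have e1 : (v - φ).comp (Fw s) = v.comp (Fw s) ⊓ b.comp (Fw s) := by
        ext x
        have e2 : φ (Fw s x) = max (v (Fw s x) - b (Fw s x)) 0 :=
          (hφ1 s hsl hn).2 _ ⟨x, rfl⟩
        show v (Fw s x) - φ (Fw s x) = min (v (Fw s x)) (b (Fw s x))
        rw [e2]
        rcases le_total (v (Fw s x)) (b (Fw s x)) with h | h
        · rw [min_eq_left h, max_eq_right (by linarith), sub_zero]
        · rw [min_eq_right h, max_eq_left (by linarith)]; ring
      have e3 := S.E_submod (S.comp_Fw_mem s hv.1) (S.comp_Fw_mem s hbd)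
      rw [← e1] at e3
      have e4 : S.en (v ⊔ b) s = S.E (v.comp (Fw s) ⊔ b.comp (Fw s))
        (v.comp (Fw s) ⊔ b.comp (Fw s)) := rfl
      rw [e4]
      show S.E ((v - φ).comp (Fw s)) ((v - φ).comp (Fw s)) ≤ S.E (v.comp (Fw s)) (v.comp (Fw s))
        + (S.E (b.comp (Fw s)) (b.comp (Fw s)) - _)
      linarith
    · have hsN : s ∉ N := by
        rw [hN, Finset.mem_filter]
        rintro ⟨-, h⟩
        exact hn h
      rw [if_neg hsN, add_zero]
      apply le_of_eq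
      apply f4a_en_congr
      intro x hx
      show v x - φ x = v x
      rw [(hφ2 s hsl hn).2 x hx]
      show v x - 0 = v x
      ring
  have h5 := Finset.sum_le_sum h4
  rw [Finset.sum_add_distrib] at h5
  have h6 : 0 ≤ ∑ s ∈ words w.length, (if s ∈ N then S.en b s - S.en (v ⊔ b) s else 0) := by
    linarith
  have hNs : N ⊆ words w.length := Finset.filter_subset _ _
  rw [Finset.sum_ite_mem, Finset.inter_eq_right.2 hNs, Finset.sum_sub_distrib] at h6
  have hwN : w ∈ N := by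
    rw [hN, Finset.mem_filter]
    exact ⟨mem_words.2 rfl, near_refl (by norm_num) w⟩
  have h7 : S.en (v ⊔ b) w ≤ ∑ s ∈ N, S.en (v ⊔ b) s :=
    Finset.single_le_sum (f := fun s => S.en (v ⊔ b) s) (fun s _ => S.en_nonneg hsup s) hwN
  have h8 : S.en (v ⊔ b) w = S.en v w := by
    apply f4a_en_congr
    intro x hx
    show max (v x) (b x) = v x
    rw [hbcell x hx]
    exact max_eq_left (hvM x (f4a_cell_inn (by norm_num) w hx)).1
  have h9 : ∑ s ∈ N, S.en b s ≤ N.card • (C * M ^ 2) :=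
    Finset.sum_le_card_nsmul _ _ _ fun s hs => hben s (mem_words.1 (hNs hs))
  have h10 : (N.card : ℝ) ≤ 9 := by
    have := card_near_le 1 w
    exact_mod_cast this
  have h11 : (N.card : ℝ) * (C * M ^ 2) ≤ 9 * (C * M ^ 2) :=
    mul_le_mul_of_nonneg_right h10 (by positivity)
  rw [nsmul_eq_mul] at h9
  rw [h8] at h7
  linarith

/-- CACC for harmonic functions: apply `cacc_sup` to `h - t + M`. -/
theorem cacc_harm : ∃ C : ℝ, 0 < C ∧ ∀ (w : List Dig) (h : C(K, ℝ)) (t M : ℝ),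
    HarmOff S (out 1 w) h → (∀ x ∈ inn 1 w, |h x - t| ≤ M) → S.en h w ≤ C * M ^ 2 := by
  obtain ⟨C, hC, hc⟩ := cacc_sup S
  refine ⟨4 * C, by positivity, ?_⟩
  intro w h t M hh hM
  have hM0 : 0 ≤ M := by
    have := hM (Fw w c00) (f4a_cell_inn (by norm_num) w ⟨c00, rfl⟩)
    exact le_trans (abs_nonneg _) this
  have h1 : SupOff S (out 1 w) (h - ContinuousMap.const K (t - M)) :=
    (hh.sub (HarmOff.const _ _)).sup'
  have h2 := hc w _ (2 * M) (by linarith) h1 (by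
    intro x hx
    show 0 ≤ h x - (t - M)
    have := abs_le.1 (hM x hx)
    linarith [this.1])
  have h3 : S.en ((h - ContinuousMap.const K (t - M)) ⊓ ContinuousMap.const K (2 * M)) w
      = S.en h w := by
    rw [← f4a_en_sub_const S (t - M) hh.1 w]
    apply f4a_en_congr
    intro x hx
    show min (h x - (t - M)) (2 * M) = h x - (t - M)
    have := abs_le.1 (hM x (f4a_cell_inn (by norm_num) w hx))
    exact min_eq_left (by linarith [this.2])
  rw [h3] at h2
  linarith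

end Pool.Agent.Helper67.SC
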