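import Pool.Agent.Helper67.SC.F4b

/-! Module F5a: Riesz-measure bound and the content estimate. -/

open MeasureTheory Filter Topology

noncomputable section

namespace Pool.Agent.Helper67.SC

variable (S : CarForm)

/-- Functions vanishing on `out 2 w` are bounded by their energy. Let `s'` be a word of length
`|w| - 2` whose cell contains `x`; its cell contains a cell of level `|w|` contained in `out 2 w`
(`exists_far_cell`), where `p = 0`; so `|p x| ≤ C sqrt (en p s') ≤ C sqrt (ρ^{-(|w|-2)} E p)`. -/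
theorem sup_bound : ∃ C : ℝ, 0 < C ∧ ∀ (w : List Dig), 2 ≤ w.length → ∀ p ∈ S.dom,
    ZeroOn (out 2 w) p → ∀ x, p x ^ 2 ≤ C * (S.ρ ^ w.length)⁻¹ * S.E p p := by
  obtain ⟨C, hC, hosc⟩ := osc_cell S
  have hρ := S.ρ_pos
  refine ⟨C ^ 2 * S.ρ ^ 2, by positivity, fun w hw p hp h0 x => ?_⟩
  obtain ⟨s', hs', hx⟩ := exists_cell (w.length - 2) x
  obtain ⟨t, ht, hn⟩ := exists_far_cell w hw s' hs'
  have hlen : (s' ++ t).length = w.length := by rw [List.length_append, hs', ht]; omega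
  have hy1 : Fw (s' ++ t) c00 ∈ cell (s' ++ t) := ⟨c00, rfl⟩
  have hy0 : p (Fw (s' ++ t) c00) = 0 := h0 _ (cell_subset_out hlen hn hy1)
  have hy' : Fw (s' ++ t) c00 ∈ cell s' := cell_append_subset s' t hy1
  have h1 := hosc p hp s' x hx _ hy'
  rw [hy0, sub_zero] at h1
  have hen : 0 ≤ S.en p s' := S.en_nonneg hp s'
  have h2 : p x ^ 2 ≤ C ^ 2 * S.en p s' := by
    have := mul_self_le_mul_self (abs_nonneg _) h1
    rw [abs_mul_abs_self] at this
    have hs := Real.mul_self_sqrt hen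
    nlinarith
  have h3 : S.ρ ^ (w.length - 2) * S.en p s' ≤ S.E p p := by
    rw [S.E_eq_sum_en (w.length - 2) hp]
    apply mul_le_mul_of_nonneg_left _ (by positivity)
    exact Finset.single_le_sum (f := fun w => S.en p w) (fun s _ => S.en_nonneg hp s)
      (mem_words.2 hs')
  have h4 : S.ρ ^ w.length = S.ρ ^ (w.length - 2) * S.ρ ^ 2 := by
    rw [← pow_add]; congr 1; omega
  have h5 : S.en p s' ≤ S.ρ ^ 2 * (S.ρ ^ w.length)⁻¹ * S.E p p := by
    rw [h4]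
    have h6 : S.ρ ^ 2 * (S.ρ ^ (w.length - 2) * S.ρ ^ 2)⁻¹ = (S.ρ ^ (w.length - 2))⁻¹ := by
      field_simp
    rw [h6, inv_mul_eq_div, le_div_iff₀ (by positivity)]
    linarith
  calc p x ^ 2 ≤ C ^ 2 * S.en p s' := h2
    _ ≤ C ^ 2 * (S.ρ ^ 2 * (S.ρ ^ w.length)⁻¹ * S.E p p) :=
      mul_le_mul_of_nonneg_left h5 (by positivity)
    _ = C ^ 2 * S.ρ ^ 2 * (S.ρ ^ w.length)⁻¹ * S.E p p := by ring

theorem f5a_out_two_nonempty {w : List Dig} (hw : 2 ≤ w.length) : (out 2 w).Nonempty := by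
  obtain ⟨s', hs', -⟩ := exists_cell (w.length - 2) c00
  obtain ⟨t, ht, hn⟩ := exists_far_cell w hw s' hs'
  have hlen : (s' ++ t).length = w.length := by rw [List.length_append, hs', ht]; omega
  exact ⟨Fw (s' ++ t) c00, cell_subset_out hlen hn ⟨c00, rfl⟩⟩

/-- RIESZ. `v ≥ 0` subharmonic off `out 3 w`, `χ ≥ 0` in the domain with `χ = 1` on `inn 2 w`, `χ = 0` on
`out 3 w`. Let `H` be harmonic off `out 2 w` with `H = v` on `out 2 w`; `p = H - v ≥ 0` vanishes on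
`out 2 w`, `E p p = - E v p ≤ (sup p) (- E v χ)` (as `p ≤ (sup p) χ`), so
`sup p ≤ C ρ^{-n} (- E v χ)` by `sup_bound`. By `weak_harnack` on the cells near `w`,
`H x ≤ C H x₀` for `x ∈ inn 1 w`, `x₀ ∈ cell w`. So
`v x ≤ H x ≤ C H x₀ = C (v x₀ + p x₀)`. -/
theorem riesz : ∃ C : ℝ, 0 < C ∧ ∀ (w : List Dig), 2 ≤ w.length → ∀ v, SubOff S (out 3 w) v →
    0 ≤ v → ∀ χ ∈ S.dom, 0 ≤ χ → (∀ x ∈ inn 2 w, χ x = 1) → (∀ x ∈ out 3 w, χ x = 0) →
      ∀ x₀ ∈ cell w, ∀ x ∈ inn 1 w,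
        v x ≤ C * (v x₀ + (S.ρ ^ w.length)⁻¹ * (- S.E v χ)) := by
  obtain ⟨C₁, hC₁, hsup⟩ := sup_bound S
  obtain ⟨c, hc, -, hwh⟩ := weak_harnack S
  have hρ := S.ρ_pos
  refine ⟨(c ^ 2)⁻¹ * max 1 C₁, by positivity, fun w hw v hv hv0 χ hχ hχ0 hχ1 hχ3 x₀ hx₀ x hx => ?_⟩
  have hv' : ∀ y, 0 ≤ v y := fun y => hv0 y
  obtain ⟨H, hH, hHv⟩ := exists_dirichlet S (f5a_out_two_nonempty hw) hv.1
  have hsub3 : out 3 w ⊆ out 2 w := out_anti (by norm_num) w
  have hv2 : SubOff S (out 2 w) v := hv.mono hsub3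
  have hdiff : SubOff S (out 2 w) (v + -H) := hv2.add (hH.sup'.neg)
  have hp0' : ∀ y, (v + -H) y ≤ 0 := hdiff.le_zero (f5a_out_two_nonempty hw) (fun y hy => by
    simp [hHv y hy])
  have hp0 : ∀ y, v y ≤ H y := fun y => by
    have := hp0' y
    simp only [ContinuousMap.add_apply, ContinuousMap.neg_apply] at this
    linarith
  set p : C(K, ℝ) := H - v with hp
  have hpd : p ∈ S.dom := S.dom.sub_mem hH.1 hv.1
  have hpz : ZeroOn (out 2 w) p := fun y hy => by simp [hp, hHv y hy]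
  have hpnn : ∀ y, 0 ≤ p y := fun y => by simp only [hp, ContinuousMap.sub_apply]; linarith [hp0 y]
  -- energy identity
  have hE1 : S.E p p = - S.E v p := by
    have h1 : S.E p p = S.E H p - S.E v p := S.E_sub_left hH.1 hv.1 hpd
    rw [hH.2 p hpd hpz] at h1
    linarith
  obtain ⟨xm, -, hxm⟩ := isCompact_univ.exists_isMaxOn (Set.univ_nonempty (α := K))
    p.continuous.continuousOn
  have hmax : ∀ y, p y ≤ p xm := fun y => hxm (Set.mem_univ y)
  set M := p xm with hM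
  have hM0 : 0 ≤ M := hpnn xm
  have hχ' : ∀ y, 0 ≤ χ y := fun y => hχ0 y
  have hE2 : S.E v (M • χ - p) ≤ 0 := by
    refine hv.2 _ (S.dom.sub_mem (S.dom.smul_mem _ hχ) hpd) ?_ ?_
    · intro y
      change (0 : ℝ) ≤ M * χ y - p y
      rcases inn_or_out 2 w y with h | h
      · rw [hχ1 y h]; linarith [hmax y]
      · rw [hpz y h]; have := mul_nonneg hM0 (hχ' y); linarith
    · intro y hy
      simp only [ContinuousMap.sub_apply, ContinuousMap.smul_apply, smul_eq_mul]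
      rw [hχ3 y hy, hpz y (hsub3 hy)]; ring
  have hE3 : S.E v (M • χ - p) = M * S.E v χ - S.E v p := by
    rw [S.E_sub_right hv.1 (S.dom.smul_mem _ hχ) hpd, S.E_smul_right _ hv.1 hχ]
  have hE4 : S.E p p ≤ M * (- S.E v χ) := by rw [hE1]; linarith
  have hχn : 0 ≤ - S.E v χ := by
    have := hv.2 χ hχ hχ0 hχ3
    linarith
  have hMle : M ≤ C₁ * (S.ρ ^ w.length)⁻¹ * (- S.E v χ) := by
    by_cases hM' : M = 0
    · rw [hM']; positivity
    · have hMpos : 0 < M := lt_of_le_of_ne hM0 (Ne.symm hM')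
      have h1 := hsup w hw p hpd hpz xm
      have h2 : C₁ * (S.ρ ^ w.length)⁻¹ * S.E p p ≤ C₁ * (S.ρ ^ w.length)⁻¹ * (M * (- S.E v χ)) :=
        mul_le_mul_of_nonneg_left hE4 (by positivity)
      have h3 : M * M ≤ M * (C₁ * (S.ρ ^ w.length)⁻¹ * (- S.E v χ)) := by
        rw [← hM] at h1
        nlinarith
      exact le_of_mul_le_mul_left h3 hMpos
  -- Harnack
  have hHnn : ∀ y, 0 ≤ H y := fun y => (hv' y).trans (hp0 y)
  have hHs : ∀ s : List Dig, s.length = w.length → near 1 s w → ∀ y ∈ cell s, ∀ z ∈ cell s,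
      c * H z ≤ H y := by
    intro s hs hn y hy z hz
    refine hwh s H ?_ (fun a _ => hHnn a) y hy z hz
    exact hH.sup'.mono (out_subset_out hs hn)
  obtain ⟨s, hs, hn, hxs⟩ := hx
  obtain ⟨z, hz⟩ := exists_common hs hn
  have h1 : c * H x ≤ H z := hHs s hs hn z hz.1 x hxs
  have h2 : c * H z ≤ H x₀ := hHs w rfl (near_refl (by norm_num) w) x₀ hx₀ z hz.2
  have h3 : c ^ 2 * H x ≤ H x₀ := by nlinarith
  have h4 : H x ≤ (c ^ 2)⁻¹ * H x₀ := by
    rw [inv_mul_eq_div, le_div_iff₀ (by positivity)]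
    linarith
  have h5 : H x₀ ≤ max 1 C₁ * (v x₀ + (S.ρ ^ w.length)⁻¹ * (- S.E v χ)) := by
    have e : H x₀ = v x₀ + p x₀ := by simp [hp]
    have a1 : v x₀ ≤ max 1 C₁ * v x₀ := by
      have := mul_le_mul_of_nonneg_right (le_max_left 1 C₁) (hv' x₀)
      linarith
    have a2 : p x₀ ≤ max 1 C₁ * ((S.ρ ^ w.length)⁻¹ * (- S.E v χ)) := by
      have b1 := (hmax x₀).trans hMle
      have b2 : C₁ * ((S.ρ ^ w.length)⁻¹ * (- S.E v χ)) ≤
          max 1 C₁ * ((S.ρ ^ w.length)⁻¹ * (- S.E v χ)) :=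
        mul_le_mul_of_nonneg_right (le_max_right 1 C₁) (by positivity)
      linarith
    rw [e, mul_add]
    linarith
  calc v x ≤ H x := hp0 x
    _ ≤ (c ^ 2)⁻¹ * H x₀ := h4
    _ ≤ (c ^ 2)⁻¹ * (max 1 C₁ * (v x₀ + (S.ρ ^ w.length)⁻¹ * (- S.E v χ))) :=
      mul_le_mul_of_nonneg_left h5 (by positivity)
    _ = (c ^ 2)⁻¹ * max 1 C₁ * (v x₀ + (S.ρ ^ w.length)⁻¹ * (- S.E v χ)) := by ring

/-- CONTENT. `v ≥ 0` subharmonic off `A`; `T` a set of words of level `n` with `A ⊆ out 3 w`, each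
with a point of its cell where `v ≤ ε`; `χ` in the domain with `χ ≥ 0`, `χ ≥ 1` on `inn 3 w` for
`w ∈ T`, `χ = 0` on `A`. Sum `riesz` over `T` with the cutoffs `χ_w` of `exists_cutoff 2`;
`∑ χ_w ≤ 49 * 4 * χ` hence `∑ (- E v χ_w) ≤ 196 (- E v χ) ≤ 196 sqrt (E v) sqrt (E χ)`. -/
theorem content : ∃ C : ℝ, 0 < C ∧ ∀ (A : Set K) (v : C(K, ℝ)), SubOff S A v → 0 ≤ v →
    ∀ (n : ℕ), 2 ≤ n → ∀ (T : Finset (List Dig)), (∀ w ∈ T, w.length = n) →
      (∀ w ∈ T, A ⊆ out 3 w) → ∀ ε : ℝ, (∀ w ∈ T, ∃ x ∈ cell w, v x ≤ ε) →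
        ∀ χ ∈ S.dom, 0 ≤ χ → (∀ w ∈ T, ∀ x ∈ inn 3 w, 1 ≤ χ x) → ZeroOn A χ →
          ∃ m : List Dig → ℝ, (∀ w ∈ T, ∀ x ∈ inn 1 w, v x ≤ m w) ∧
            ∑ w ∈ T, m w ≤ C * (T.card * ε + (S.ρ ^ n)⁻¹ * Real.sqrt (S.E v v) *
              Real.sqrt (S.E χ χ)) := by
  classical
  obtain ⟨C₁, hC₁, hR⟩ := riesz S
  obtain ⟨_, -, hcut⟩ := exists_cutoff S 2
  have hρ := S.ρ_pos
  refine ⟨C₁ * 49, by positivity, fun A v hv hv0 n hn T hT hA ε hε χ hχ hχ0 hχ1 hχA => ?_⟩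
  choose χw hχw_mem hχw_01 hχw_in hχw_out _ _ using hcut
  have hεx : ∀ w : List Dig, ∃ x : K, w ∈ T → x ∈ cell w ∧ v x ≤ ε := by
    intro w
    by_cases hw : w ∈ T
    · obtain ⟨x, hx, hx'⟩ := hε w hw
      exact ⟨x, fun _ => ⟨hx, hx'⟩⟩
    · exact ⟨c00, fun h => absurd h hw⟩
  choose x₀ hx₀ using hεx
  have hv' : ∀ y, 0 ≤ v y := fun y => hv0 y
  have hχ' : ∀ y, 0 ≤ χ y := fun y => hχ0 y
  refine ⟨fun w => C₁ * (v (x₀ w) + (S.ρ ^ n)⁻¹ * (- S.E v (χw w))), fun w hw x hx => ?_, ?_⟩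
  · have hl := hT w hw
    have := hR w (by omega) v (hv.mono (hA w hw)) hv0 (χw w) (hχw_mem w) (fun y => (hχw_01 w y).1)
      (fun y hy => hχw_in w y (by exact_mod_cast hy))
      (fun y hy => hχw_out w y (by norm_num; exact hy)) (x₀ w) (hx₀ w hw).1 x hx
    rw [hl] at this
    exact this
  · -- the sum
    have hsum_dom : ∑ w ∈ T, χw w ∈ S.dom := S.dom.sum_mem (fun w _ => hχw_mem w)
    have hout : ∀ w y, y ∈ out 3 w → χw w y = 0 := fun w y hy =>
      hχw_out w y (by norm_num; exact hy)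
    have hsum_le : ∀ y, ∑ w ∈ T, χw w y ≤ 49 * χ y := by
      intro y
      by_cases hex : ∃ w ∈ T, y ∉ out 3 w
      · obtain ⟨w₁, hw₁, hy₁⟩ := hex
        have hχy : 1 ≤ χ y := by
          apply hχ1 w₁ hw₁
          rcases inn_or_out 3 w₁ y with h | h
          · exact h
          · exact absurd h hy₁
        obtain ⟨s, hs, hys⟩ := exists_cell n y
        have h1 : ∑ w ∈ T, χw w y ≤ ∑ w ∈ (words s.length).filter (fun t =>
            |(pos t).1 - (pos s).1| ≤ (3 : ℕ) ∧ |(pos t).2 - (pos s).2| ≤ (3 : ℕ)), (1 : ℝ) := by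
          rw [← Finset.sum_filter_add_sum_filter_not T (fun w => y ∉ out 3 w)]
          have hz : ∑ w ∈ T with ¬ y ∉ out 3 w, χw w y = 0 := by
            apply Finset.sum_eq_zero
            intro w hw
            rw [Finset.mem_filter, not_not] at hw
            exact hout w y hw.2
          rw [hz, add_zero]
          calc ∑ w ∈ T with y ∉ out 3 w, χw w y ≤ ∑ w ∈ T with y ∉ out 3 w, (1 : ℝ) :=
                Finset.sum_le_sum (fun w _ => (hχw_01 w y).2)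
            _ ≤ _ := by
                apply Finset.sum_le_sum_of_subset_of_nonneg
                · intro w hw
                  rw [Finset.mem_filter] at hw
                  rw [Finset.mem_filter, mem_words]
                  have hwl := hT w hw.1
                  refine ⟨hwl.trans hs.symm, ?_⟩
                  by_contra hcon
                  apply hw.2
                  refine ⟨s, hs.trans hwl.symm, fun hnear => hcon ?_, hys⟩
                  have := near_symm hnear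
                  exact ⟨by exact_mod_cast this.1, by exact_mod_cast this.2⟩
                · intro _ _ _; exact zero_le_one
        have h2 : ∑ w ∈ (words s.length).filter (fun t =>
            |(pos t).1 - (pos s).1| ≤ (3 : ℕ) ∧ |(pos t).2 - (pos s).2| ≤ (3 : ℕ)), (1 : ℝ) ≤ 49 := by
          rw [Finset.sum_const, nsmul_eq_mul, mul_one]
          have := card_near_le 3 s
          exact_mod_cast this
        linarith
      · push Not at hex
        rw [Finset.sum_eq_zero (fun w hw => hout w y (hex w hw))]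
        have := hχ' y
        positivity
    have hkey : S.E v ((49 : ℝ) • χ - ∑ w ∈ T, χw w) ≤ 0 := by
      refine hv.2 _ (S.dom.sub_mem (S.dom.smul_mem _ hχ) hsum_dom) ?_ ?_
      · intro y
        change (0 : ℝ) ≤ 49 * χ y - (∑ w ∈ T, χw w) y
        rw [ContinuousMap.sum_apply]
        linarith [hsum_le y]
      · intro y hy
        simp only [ContinuousMap.sub_apply, ContinuousMap.smul_apply,
          smul_eq_mul, ContinuousMap.sum_apply]
        rw [hχA y hy, Finset.sum_eq_zero (fun w hw => hout w y (hA w hw hy))]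
        ring
    rw [S.E_sub_right hv.1 (S.dom.smul_mem _ hχ) hsum_dom, S.E_smul_right _ hv.1 hχ,
      S.E_sum_right T χw (fun w _ => hχw_mem w) hv.1] at hkey
    have hcs := S.E_abs_le hv.1 hχ
    have hneg : - S.E v χ ≤ Real.sqrt (S.E v v) * Real.sqrt (S.E χ χ) :=
      (neg_le_abs _).trans hcs
    have h1 : ∑ w ∈ T, (- S.E v (χw w)) ≤ 49 * (Real.sqrt (S.E v v) * Real.sqrt (S.E χ χ)) := by
      rw [Finset.sum_neg_distrib]
      linarith
    have h2 : ∑ w ∈ T, v (x₀ w) ≤ T.card * ε := by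
      calc ∑ w ∈ T, v (x₀ w) ≤ ∑ w ∈ T, ε := Finset.sum_le_sum (fun w hw => (hx₀ w hw).2)
        _ = T.card * ε := by rw [Finset.sum_const, nsmul_eq_mul]
    have h3 : (0 : ℝ) ≤ T.card * ε := le_trans (Finset.sum_nonneg (fun w _ => hv' _)) h2
    have h4 : ∑ w ∈ T, C₁ * (v (x₀ w) + (S.ρ ^ n)⁻¹ * (- S.E v (χw w))) =
        C₁ * (∑ w ∈ T, v (x₀ w) + (S.ρ ^ n)⁻¹ * ∑ w ∈ T, (- S.E v (χw w))) := by
      rw [← Finset.mul_sum, Finset.sum_add_distrib, Finset.mul_sum]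
    rw [h4]
    have hinv : 0 ≤ (S.ρ ^ n)⁻¹ := by positivity
    have h5 : (S.ρ ^ n)⁻¹ * ∑ w ∈ T, (- S.E v (χw w)) ≤
        (S.ρ ^ n)⁻¹ * (49 * (Real.sqrt (S.E v v) * Real.sqrt (S.E χ χ))) :=
      mul_le_mul_of_nonneg_left h1 hinv
    calc C₁ * (∑ w ∈ T, v (x₀ w) + (S.ρ ^ n)⁻¹ * ∑ w ∈ T, (- S.E v (χw w)))
        ≤ C₁ * (T.card * ε + (S.ρ ^ n)⁻¹ * (49 * (Real.sqrt (S.E v v) * Real.sqrt (S.E χ χ)))) :=
          mul_le_mul_of_nonneg_left (by linarith) hC₁.le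
      _ ≤ C₁ * (49 * (T.card * ε) +
            (S.ρ ^ n)⁻¹ * (49 * (Real.sqrt (S.E v v) * Real.sqrt (S.E χ χ)))) :=
          mul_le_mul_of_nonneg_left (by linarith) hC₁.le
      _ = C₁ * 49 * (T.card * ε + (S.ρ ^ n)⁻¹ * Real.sqrt (S.E v v) * Real.sqrt (S.E χ χ)) := by
          ring

end Pool.Agent.Helper67.SC
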