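import Mathlib
import Pool.Agent.Helper67.SC.Carpet

/-!
The objects of the statement: resistance forms on the Sierpinski carpet, the canonical form,
the conformal gauge, and the parabolic Harnack inequality for the time-changed form.
All functions are plain real functions on the carpet `K`.
-/

open MeasureTheory Filter Topology

noncomputable section

namespace Pool.Agent.Helper67.SC

/-- Truncation of a function to the interval `[0, 1]`. -/
def trunc (f : K → ℝ) (x : K) : ℝ := max 0 (min (f x) 1)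

/-- `D` is a linear space of continuous functions on the carpet which contains the constants, and
`E` is a non-negative symmetric bilinear form on `D`. (Only the values of `E` on `D` matter.) -/
structure IsForm (D : Set (K → ℝ)) (E : (K → ℝ) → (K → ℝ) → ℝ) : Prop where
  continuous : ∀ f ∈ D, Continuous f
  one_mem : (fun _ => 1) ∈ D
  add_mem : ∀ f ∈ D, ∀ g ∈ D, (fun x => f x + g x) ∈ D
  smul_mem : ∀ c : ℝ, ∀ f ∈ D, (fun x => c * f x) ∈ D
  add_left : ∀ f ∈ D, ∀ g ∈ D, ∀ h ∈ D, E (fun x => f x + g x) h = E f h + E g h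
  smul_left : ∀ c : ℝ, ∀ f ∈ D, ∀ g ∈ D, E (fun x => c * f x) g = c * E f g
  symm : ∀ f ∈ D, ∀ g ∈ D, E f g = E g f
  nonneg : ∀ f ∈ D, 0 ≤ E f f

/-- Kigami's axioms of a (regular) resistance form on the carpet: only constants have energy
zero, the domain is complete, differences of point values are controlled by the energy, truncation
lowers the energy, and the domain is uniformly dense in the continuous functions. -/
structure IsResistanceForm (D : Set (K → ℝ)) (E : (K → ℝ) → (K → ℝ) → ℝ) : Prop where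
  form : IsForm D E
  zero_iff : ∀ f ∈ D, E f f = 0 ↔ ∃ c : ℝ, ∀ x, f x = c
  complete : ∀ f : ℕ → K → ℝ, (∀ n, f n ∈ D) →
    (∀ ε > 0, ∃ N, ∀ m ≥ N, ∀ n ≥ N,
      E (fun x => f m x - f n x) (fun x => f m x - f n x) < ε) →
    ∃ g ∈ D, ∀ ε > 0, ∃ N, ∀ n ≥ N, E (fun x => f n x - g x) (fun x => f n x - g x) < ε
  resistance : ∀ x y : K, ∃ C : ℝ, ∀ f ∈ D, (f x - f y) ^ 2 ≤ C * E f f
  markov : ∀ f ∈ D, trunc f ∈ D ∧ E (trunc f) (trunc f) ≤ E f f
  regular : ∀ f : K → ℝ, Continuous f → ∀ ε > 0, ∃ g ∈ D, ∀ x, |f x - g x| < ε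

/-- The properties of the canonical form of the carpet (Barlow-Bass, Kusuoka-Zhou): it is a regular
resistance form, self-similar with some factor `ρ`, and invariant under the symmetries of the
square. -/
structure IsCanonicalForm (D : Set (K → ℝ)) (E : (K → ℝ) → (K → ℝ) → ℝ) : Prop where
  resistanceForm : IsResistanceForm D E
  selfsimilar_mem : ∀ f : K → ℝ, Continuous f → (∀ d, (fun x => f (cellMap d x)) ∈ D) → f ∈ D
  selfsimilar : ∃ ρ > 0, ∀ f ∈ D, (∀ d, (fun x => f (cellMap d x)) ∈ D) ∧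
    E f f = ρ * ∑ d : Dig, E (fun x => f (cellMap d x)) (fun x => f (cellMap d x))
  mirrorX : ∀ f ∈ D, (fun x => f (mirrorX x)) ∈ D ∧
    E (fun x => f (mirrorX x)) (fun x => f (mirrorX x)) = E f f
  mirrorDiag : ∀ f ∈ D, (fun x => f (mirrorDiag x)) ∈ D ∧
    E (fun x => f (mirrorDiag x)) (fun x => f (mirrorDiag x)) = E f f

/-- Euclidean distance on the carpet. -/
def eucl (x y : K) : ℝ := Real.sqrt ((x.1.1 - y.1.1) ^ 2 + (x.1.2 - y.1.2) ^ 2)

/-- The conformal gauge: `θ` is a metric on the carpet, quasisymmetric to the Euclidean one. -/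
structure InGauge (θ : K → K → ℝ) : Prop where
  zero_iff : ∀ x y, θ x y = 0 ↔ x = y
  symm : ∀ x y, θ x y = θ y x
  triangle : ∀ x y z, θ x z ≤ θ x y + θ y z
  quasisymmetric : ∃ η : NNReal ≃ₜ NNReal, ∀ x a b, x ≠ b →
    θ x a / θ x b ≤ η (Real.toNNReal (eucl x a / eucl x b))

/-- `u` is a (classical) caloric function on `(a, b) × Ω` for the form `(E, D)` time-changed by the
measure `μ`: it has a time derivative `v`, jointly continuous in time and space, its energy
is continuous in time, and `∫ v(t) φ dμ = - E (u(t), φ)` for all `φ` in the domain vanishing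
outside `Ω`. -/
structure IsCaloric (D : Set (K → ℝ)) (E : (K → ℝ) → (K → ℝ) → ℝ) (μ : Measure K) (a b : ℝ)
    (Ω : Set K) (u : ℝ → K → ℝ) : Prop where
  mem : ∀ t ∈ Set.Ioo a b, u t ∈ D
  energy : ContinuousOn (fun t => E (u t) (u t)) (Set.Ioo a b)
  heat : ∃ v : ℝ → K → ℝ,
    ContinuousOn (fun p : ℝ × K => v p.1 p.2) (Set.Ioo a b ×ˢ Set.univ) ∧
    (∀ t ∈ Set.Ioo a b, ∀ x, HasDerivAt (fun s => u s x) (v t x) t) ∧
    ∀ t ∈ Set.Ioo a b, ∀ φ ∈ D, (∀ x, x ∉ Ω → φ x = 0) → ∫ x, v t x * φ x ∂μ = - E (u t) φ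

/-- The parabolic Harnack inequality with exponent `β` for `(K, θ, μ)` and the form `(E, D)`
time-changed by `μ`, asked only for radii below some positive bound and for classical non-negative
caloric functions. -/
def ParabolicHarnack (D : Set (K → ℝ)) (E : (K → ℝ) → (K → ℝ) → ℝ) (θ : K → K → ℝ)
    (μ : Measure K) (β : ℝ) : Prop :=
  ∃ C₁ C₂ C₃ C₄ C₅ δ R₀ : ℝ, 0 < C₁ ∧ C₁ < C₂ ∧ C₂ < C₃ ∧ C₃ < C₄ ∧ 0 < C₅ ∧ 0 < δ ∧ δ < 1 ∧
    0 < R₀ ∧
    ∀ (x : K) (a r : ℝ), 0 < r → r ≤ R₀ → ∀ u : ℝ → K → ℝ,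
      IsCaloric D E μ a (a + C₄ * r ^ β) {y | θ x y < r} u →
      (∀ t ∈ Set.Ioo a (a + C₄ * r ^ β), ∀ y, θ x y < r → 0 ≤ u t y) →
      ∀ s ∈ Set.Ioo (a + C₁ * r ^ β) (a + C₂ * r ^ β),
        ∀ t ∈ Set.Ioo (a + C₃ * r ^ β) (a + C₄ * r ^ β),
          ∀ y z, θ x y < δ * r → θ x z < δ * r → u s y ≤ C₅ * u t z

end Pool.Agent.Helper67.SC
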