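import Pool.Agent.Helper67.SC.Main
import Pool.Agent.Helper67.SC.Stmt

/-! The final statement, in terms of plain functions on the carpet. -/

open MeasureTheory Filter Topology

noncomputable section

namespace Pool.Agent.Helper67.SC

/-- The bundled form attached to a canonical form. -/
def toCar {D : Set (K → ℝ)} {E : (K → ℝ) → (K → ℝ) → ℝ} (h : IsCanonicalForm D E) : CarForm where
  dom :=
    { carrier := {f | ⇑f ∈ D}
      add_mem' := fun {f g} hf hg => h.resistanceForm.form.add_mem f hf g hg
      zero_mem' := by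
        have := h.resistanceForm.form.smul_mem 0 _ h.resistanceForm.form.one_mem
        simp only [zero_mul] at this
        exact this
      smul_mem' := fun c f hf => h.resistanceForm.form.smul_mem c f hf }
  E f g := E f g
  ρ := Classical.choose h.selfsimilar
  E_add f hf g hg k hk := h.resistanceForm.form.add_left f hf g hg k hk
  E_smul c f hf g hg := h.resistanceForm.form.smul_left c f hf g hg
  E_symm f hf g hg := h.resistanceForm.form.symm f hf g hg
  E_nonneg f hf := h.resistanceForm.form.nonneg f hf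
  one_mem := h.resistanceForm.form.one_mem
  E_zero f hf := h.resistanceForm.zero_iff f hf
  complete f hf hc := by
    obtain ⟨g, hg, hlim⟩ := h.resistanceForm.complete (fun n => f n) hf hc
    refine ⟨⟨g, h.resistanceForm.form.continuous g hg⟩, hg, ?_⟩
    rw [Metric.tendsto_atTop]
    intro ε hε
    obtain ⟨N, hN⟩ := hlim ε hε
    refine ⟨N, fun n hn => ?_⟩
    rw [Real.dist_eq, sub_zero, abs_of_nonneg]
    · exact hN n hn
    · refine h.resistanceForm.form.nonneg _ ?_
      have h1 := h.resistanceForm.form.smul_mem (-1) _ hg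
      have h2 := h.resistanceForm.form.add_mem _ (hf n) _ h1
      convert h2 using 2
      simp [sub_eq_add_neg]
  resist x y := by
    obtain ⟨C, hC⟩ := h.resistanceForm.resistance x y
    exact ⟨C, fun f hf => hC f hf⟩
  dense := by
    rw [Metric.dense_iff]
    intro f r hr
    obtain ⟨g, hg, hfg⟩ := h.resistanceForm.regular f f.continuous r hr
    refine ⟨⟨g, h.resistanceForm.form.continuous g hg⟩, ?_, hg⟩
    rw [Metric.mem_ball, dist_comm, ContinuousMap.dist_lt_iff hr]
    exact hfg
  markov f hf := by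
    have e : ⇑(clamp f) = trunc f := by
      funext x
      simp only [clamp, trunc, ContinuousMap.inf_apply, ContinuousMap.sup_apply,
        ContinuousMap.zero_apply, ContinuousMap.one_apply]
      rcases le_total 0 (f x) with h0 | h0 <;> rcases le_total (f x) 1 with h1 | h1
      · simp [h0, h1]
      · simp [h0, h1]
      · simp [h0, h1]
      · exact absurd (h1.trans h0) (by norm_num)
    have := h.resistanceForm.markov f hf
    constructor
    · change ⇑(clamp f) ∈ D
      rw [e]; exact this.1
    · change E ⇑(clamp f) ⇑(clamp f) ≤ E f f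
      rw [e]; exact this.2
  ρ_pos := (Classical.choose_spec h.selfsimilar).1
  selfsim_mem f := ⟨fun hf d => ((Classical.choose_spec h.selfsimilar).2 f hf).1 d,
    fun hf => h.selfsimilar_mem f f.continuous hf⟩
  selfsim f hf := ((Classical.choose_spec h.selfsimilar).2 f hf).2
  flip_inv f hf := h.mirrorX f hf
  swap_inv f hf := h.mirrorDiag f hf

theorem isCaloric_of {D : Set (K → ℝ)} {E : (K → ℝ) → (K → ℝ) → ℝ} (h : IsCanonicalForm D E)
    {μ : Measure K} {a b : ℝ} {Ω : Set K} {u : ℝ → C(K, ℝ)} (hu : Caloric (toCar h) μ a b Ω u) :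
    IsCaloric D E μ a b Ω (fun t => u t) := by
  refine ⟨fun t ht => hu.mem t ht, hu.energy, ?_⟩
  obtain ⟨v, hv, hd⟩ := hu.deriv
  refine ⟨fun t => v t, ?_, fun t ht x => ?_, fun t ht φ hφ h0 => ?_⟩
  · have h1 : ContinuousOn (fun p : ℝ × K => v p.1) (Set.Ioo a b ×ˢ Set.univ) :=
      hv.comp continuous_fst.continuousOn (fun p hp => hp.1)
    exact ContinuousEval.continuous_eval.comp_continuousOn (h1.prodMk continuous_snd.continuousOn)
  · have h1 := (hd t ht).1
    exact ((ContinuousMap.evalCLM ℝ x).hasFDerivAt.comp_hasDerivAt t h1)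
  · exact (hd t ht).2 ⟨φ, h.resistanceForm.form.continuous φ hφ⟩ hφ h0

theorem final {D : Set (K → ℝ)} {E : (K → ℝ) → (K → ℝ) → ℝ} (h : IsCanonicalForm D E)
    {θ : K → K → ℝ} (hθ : InGauge θ) (μ : Measure K) [IsFiniteMeasure μ]
    (hμ : ∀ U : Set K, IsOpen U → U.Nonempty → 0 < μ U) : ¬ ParabolicHarnack D E θ μ 2 := by
  intro hP
  refine not_phi (toCar h) (θ := θ) ⟨hθ.zero_iff, hθ.symm, hθ.triangle, hθ.quasisymmetric⟩ μ hμ ?_
  obtain ⟨C₁, C₂, C₃, C₄, C₅, δ, R₀, h1, h2, h3, h4, h5, h6, h7, h8, H⟩ := hP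
  refine ⟨C₁, C₂, C₃, C₄, C₅, δ, R₀, h1, h2, h3, h4, h5, h6, h7, h8, ?_⟩
  intro x a r hr hrR u hu hpos s hs t ht y z hy hz
  exact H x a r hr hrR (fun t => u t) (isCaloric_of h hu) hpos s hs t ht y z hy hz

end Pool.Agent.Helper67.SC
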