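import Pool.Agent.Helper67.SC.Base

/-! Module G1: geometry of words, cells and positions. -/

open MeasureTheory Filter Topology

noncomputable section

namespace Pool.Agent.Helper67.SC

theorem K_ext {x y : K} (h1 : x.1.1 = y.1.1) (h2 : x.1.2 = y.1.2) : x = y :=
  Subtype.ext (Prod.ext h1 h2)

theorem F_apply1 (d : Dig) (p : K) : (F d p).1.1 = (p.1.1 + d.x) / 3 := rfl
theorem F_apply2 (d : Dig) (p : K) : (F d p).1.2 = (p.1.2 + d.y) / 3 := rfl

theorem Fw_apply1 (w : List Dig) (p : K) :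
    (Fw w p).1.1 = ((pos w).1 + p.1.1) / 3 ^ w.length := by
  induction w with
  | nil => simp [Fw, pos]
  | cons d w ih =>
    change ((Fw w p).1.1 + d.x) / 3 = _
    rw [ih]
    simp only [pos, List.length_cons]
    push_cast
    rw [pow_succ]
    field_simp
    ring

theorem Fw_apply2 (w : List Dig) (p : K) :
    (Fw w p).1.2 = ((pos w).2 + p.1.2) / 3 ^ w.length := by
  induction w with
  | nil => simp [Fw, pos]
  | cons d w ih =>
    change ((Fw w p).1.2 + d.y) / 3 = _
    rw [ih]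
    simp only [pos, List.length_cons]
    push_cast
    rw [pow_succ]
    field_simp
    ring

theorem Fw_append (u v : List Dig) : Fw (u ++ v) = (Fw u).comp (Fw v) := by
  induction u with
  | nil => simp [Fw]
  | cons d u ih => simp only [List.cons_append, Fw, ih, ContinuousMap.comp_assoc]

theorem Fw_injective (w : List Dig) : Function.Injective (Fw w) := by
  intro x y h
  have h1 : (Fw w x).1.1 = (Fw w y).1.1 := by rw [h]
  have h2 : (Fw w x).1.2 = (Fw w y).1.2 := by rw [h]
  rw [Fw_apply1, Fw_apply1] at h1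
  rw [Fw_apply2, Fw_apply2] at h2
  have h3 : (3 : ℝ) ^ w.length ≠ 0 := by positivity
  apply K_ext
  · field_simp at h1
    linarith
  · field_simp at h2
    linarith

theorem pos_append (u v : List Dig) :
    pos (u ++ v) = (3 ^ v.length * (pos u).1 + (pos v).1, 3 ^ v.length * (pos u).2 + (pos v).2) := by
  induction u with
  | nil => simp [pos]
  | cons d u ih =>
    simp only [List.cons_append, pos, ih, List.length_append]
    ext <;> simp <;> ring

theorem Dig.x_nonneg (d : Dig) : 0 ≤ d.x := by simp [Dig.x]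
theorem Dig.y_nonneg (d : Dig) : 0 ≤ d.y := by simp [Dig.y]
theorem Dig.x_le (d : Dig) : d.x ≤ 2 := by
  have := d.1.1.2
  simp only [Dig.x]; omega
theorem Dig.y_le (d : Dig) : d.y ≤ 2 := by
  have := d.1.2.2
  simp only [Dig.y]; omega

theorem pos_nonneg (w : List Dig) : 0 ≤ (pos w).1 ∧ 0 ≤ (pos w).2 := by
  induction w with
  | nil => simp [pos]
  | cons d w ih =>
    have h1 := d.x_nonneg
    have h2 := d.y_nonneg
    have h3 : (0 : ℤ) ≤ 3 ^ w.length := by positivity
    simp only [pos]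
    exact ⟨add_nonneg (mul_nonneg h3 h1) ih.1, add_nonneg (mul_nonneg h3 h2) ih.2⟩

theorem pos_lt (w : List Dig) : (pos w).1 < 3 ^ w.length ∧ (pos w).2 < 3 ^ w.length := by
  induction w with
  | nil => simp [pos]
  | cons d w ih =>
    have h1 := d.x_le
    have h2 := d.y_le
    have h3 : (0 : ℤ) < 3 ^ w.length := by positivity
    simp only [pos, List.length_cons, pow_succ]
    constructor <;> nlinarith [ih.1, ih.2]

theorem Dig.ext' {d e : Dig} (h1 : d.x = e.x) (h2 : d.y = e.y) : d = e := by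
  apply Subtype.ext
  apply Prod.ext
  · apply Fin.ext
    simp only [Dig.x] at h1
    exact_mod_cast h1
  · apply Fin.ext
    simp only [Dig.y] at h2
    exact_mod_cast h2

theorem pos_inj {u v : List Dig} (h : u.length = v.length) (h2 : pos u = pos v) : u = v := by
  induction u generalizing v with
  | nil => cases v with
    | nil => rfl
    | cons e v => simp at h
  | cons d u ih => cases v with
    | nil => simp at h
    | cons e v =>
      have hl : u.length = v.length := by simpa using h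
      simp only [pos, Prod.mk.injEq] at h2
      rw [hl] at h2
      have hu := pos_nonneg u
      have hu' := pos_lt u
      have hv := pos_nonneg v
      have hv' := pos_lt v
      rw [hl] at hu'
      have h3 : (0 : ℤ) < 3 ^ v.length := by positivity
      obtain ⟨h4, h5⟩ := h2
      have hx : d.x = e.x := by
        by_contra hne
        rcases lt_or_gt_of_ne hne with hlt | hlt
        · have : d.x + 1 ≤ e.x := hlt
          nlinarith
        · have : e.x + 1 ≤ d.x := hlt
          nlinarith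
      have hy : d.y = e.y := by
        by_contra hne
        rcases lt_or_gt_of_ne hne with hlt | hlt
        · have : d.y + 1 ≤ e.y := hlt
          nlinarith
        · have : e.y + 1 ≤ d.y := hlt
          nlinarith
      have hde : d = e := Dig.ext' hx hy
      subst hde
      have : u = v := ih hl (Prod.ext (by linarith) (by linarith))
      rw [this]

theorem mem_words {n : ℕ} {w : List Dig} : w ∈ words n ↔ w.length = n := by
  induction n generalizing w with
  | zero => simp [words, List.length_eq_zero_iff]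
  | succ n ih =>
    simp only [words, Finset.mem_image, Finset.mem_product, Finset.mem_univ, true_and]
    constructor
    · rintro ⟨p, hp, rfl⟩
      simp [ih.1 hp]
    · intro h
      cases w with
      | nil => simp at h
      | cons d w => exact ⟨(d, w), ih.2 (by simpa using h), rfl⟩

theorem sum_words_zero {M : Type*} [AddCommMonoid M] (f : List Dig → M) :
    ∑ w ∈ words 0, f w = f [] := by simp [words]

theorem sum_words_cons {M : Type*} [AddCommMonoid M] (n : ℕ) (f : List Dig → M) :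
    ∑ w ∈ words (n + 1), f w = ∑ d, ∑ w ∈ words n, f (d :: w) := by
  simp only [words]
  rw [Finset.sum_image]
  · rw [Finset.sum_product]
  · rintro ⟨a, b⟩ _ ⟨a', b'⟩ _ h
    simp only [List.cons.injEq] at h
    exact Prod.ext h.1 h.2

theorem sum_words_append {M : Type*} [AddCommMonoid M] (m n : ℕ) (f : List Dig → M) :
    ∑ w ∈ words (m + n), f w = ∑ u ∈ words m, ∑ v ∈ words n, f (u ++ v) := by
  induction m generalizing f with
  | zero => simp [sum_words_zero]
  | succ m ih =>
    rw [Nat.add_right_comm, sum_words_cons, sum_words_cons]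
    refine Finset.sum_congr rfl fun d _ => ?_
    rw [ih]
    rfl

theorem sum_words_snoc {M : Type*} [AddCommMonoid M] (n : ℕ) (f : List Dig → M) :
    ∑ w ∈ words (n + 1), f w = ∑ w ∈ words n, ∑ d, f (w ++ [d]) := by
  rw [sum_words_append]
  refine Finset.sum_congr rfl fun w _ => ?_
  have : words 1 = words (0 + 1) := rfl
  rw [this, sum_words_cons]
  simp [sum_words_zero]

theorem card_Dig : Fintype.card Dig = 8 := by decide

theorem card_words (n : ℕ) : (words n).card = 8 ^ n := by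
  induction n with
  | zero => simp [words]
  | succ n ih =>
    rw [Finset.card_eq_sum_ones, sum_words_cons]
    simp only [Finset.sum_const, smul_eq_mul, mul_one, ih, Finset.card_univ, card_Dig]
    ring

theorem K_bounds (x : K) : 0 ≤ x.1.1 ∧ x.1.1 ≤ 1 ∧ 0 ≤ x.1.2 ∧ x.1.2 ≤ 1 := by
  obtain ⟨p, c, h1, h2⟩ := x
  simp only
  have a1 : ∀ k, (0 : ℝ) ≤ (c k).x := fun k => by exact_mod_cast (c k).x_nonneg
  have a2 : ∀ k, ((c k).x : ℝ) ≤ 2 := fun k => by exact_mod_cast (c k).x_le
  have b1 : ∀ k, (0 : ℝ) ≤ (c k).y := fun k => by exact_mod_cast (c k).y_nonneg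
  have b2 : ∀ k, ((c k).y : ℝ) ≤ 2 := fun k => by exact_mod_cast (c k).y_le
  refine ⟨h1.nonneg fun k => div_nonneg (a1 k) (by positivity), hasSum_le (fun k => ?_) h1 hasSum_two,
    h2.nonneg fun k => div_nonneg (b1 k) (by positivity), hasSum_le (fun k => ?_) h2 hasSum_two⟩
  · exact div_le_div_of_nonneg_right (a2 k) (by positivity)
  · exact div_le_div_of_nonneg_right (b2 k) (by positivity)

/-- Every point is the image of a point under one of the contractions. -/
theorem exists_F (x : K) : ∃ d y, F d y = x := by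
  obtain ⟨p, c, h1, h2⟩ := x
  have h1' := (hasSum_nat_add_iff' 1).2 h1
  have h2' := (hasSum_nat_add_iff' 1).2 h2
  simp only [Finset.range_one, Finset.sum_singleton, zero_add, pow_one] at h1' h2'
  have g1 := h1'.mul_left 3
  have g2 := h2'.mul_left 3
  have hy : (3 * (p.1 - (c 0).x / 3), 3 * (p.2 - (c 0).y / 3)) ∈ carpet := by
    refine ⟨fun k => c (k + 1), ?_, ?_⟩
    · have e : (fun k : ℕ => ((c (k + 1)).x : ℝ) / 3 ^ (k + 1)) =
          fun k : ℕ => 3 * (((c (k + 1)).x : ℝ) / 3 ^ (k + 1 + 1)) := by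
        funext k
        rw [pow_succ (3 : ℝ) (k + 1)]
        field_simp
      rw [e]
      exact g1
    · have e : (fun k : ℕ => ((c (k + 1)).y : ℝ) / 3 ^ (k + 1)) =
          fun k : ℕ => 3 * (((c (k + 1)).y : ℝ) / 3 ^ (k + 1 + 1)) := by
        funext k
        rw [pow_succ (3 : ℝ) (k + 1)]
        field_simp
      rw [e]
      exact g2
  refine ⟨c 0, ⟨_, hy⟩, ?_⟩
  apply K_ext
  · rw [F_apply1]
    simp only
    ring
  · rw [F_apply2]
    simp only
    ring

theorem exists_cell (n : ℕ) (x : K) : ∃ w : List Dig, w.length = n ∧ x ∈ cell w := by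
  induction n generalizing x with
  | zero => exact ⟨[], rfl, x, rfl⟩
  | succ n ih =>
    obtain ⟨d, y, hy⟩ := exists_F x
    obtain ⟨w, hw, z, hz⟩ := ih y
    refine ⟨d :: w, by simp [hw], z, ?_⟩
    change F d (Fw w z) = x
    rw [hz, hy]

theorem exists_cell_append (w : List Dig) (n : ℕ) {x : K} (hx : x ∈ cell w) :
    ∃ v : List Dig, v.length = n ∧ x ∈ cell (w ++ v) := by
  obtain ⟨y, hy⟩ := hx
  obtain ⟨v, hv, z, hz⟩ := exists_cell n y
  refine ⟨v, hv, z, ?_⟩
  rw [Fw_append, ContinuousMap.comp_apply, hz, hy]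

theorem cell_append_subset (u v : List Dig) : cell (u ++ v) ⊆ cell u := by
  rintro _ ⟨y, rfl⟩
  exact ⟨Fw v y, by rw [Fw_append]; rfl⟩

/-- The coding map. -/
def code (c : ℕ → Dig) : ℝ × ℝ :=
  (∑' k, ((c k).x : ℝ) / 3 ^ (k + 1), ∑' k, ((c k).y : ℝ) / 3 ^ (k + 1))

theorem summable_dig {a : ℕ → ℤ} (h0 : ∀ k, 0 ≤ a k) (h2 : ∀ k, a k ≤ 2) :
    Summable (fun k => (a k : ℝ) / 3 ^ (k + 1)) := by
  refine Summable.of_nonneg_of_le (fun k => ?_) (fun k => ?_) hasSum_two.summable
  · have : (0 : ℝ) ≤ a k := by exact_mod_cast h0 k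
    positivity
  · have : (a k : ℝ) ≤ 2 := by exact_mod_cast h2 k
    exact div_le_div_of_nonneg_right this (by positivity)

theorem carpet_eq_range : carpet = Set.range code := by
  ext p
  constructor
  · rintro ⟨c, h1, h2⟩
    exact ⟨c, Prod.ext h1.tsum_eq h2.tsum_eq⟩
  · rintro ⟨c, rfl⟩
    exact ⟨c, (summable_dig (fun k => (c k).x_nonneg) (fun k => (c k).x_le)).hasSum,
      (summable_dig (fun k => (c k).y_nonneg) (fun k => (c k).y_le)).hasSum⟩

theorem continuous_code : Continuous code := by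
  refine Continuous.prodMk ?_ ?_
  · refine continuous_tsum (u := fun k : ℕ => (2 : ℝ) / 3 ^ (k + 1)) (fun k => ?_)
      hasSum_two.summable (fun k c => ?_)
    · exact ((continuous_of_discreteTopology (f := fun d : Dig => (d.x : ℝ))).comp
        (continuous_apply k)).div_const _
    · have h1 : (0 : ℝ) ≤ (c k).x := by exact_mod_cast (c k).x_nonneg
      have h2 : ((c k).x : ℝ) ≤ 2 := by exact_mod_cast (c k).x_le
      rw [Real.norm_of_nonneg (by positivity)]
      exact div_le_div_of_nonneg_right h2 (by positivity)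
  · refine continuous_tsum (u := fun k : ℕ => (2 : ℝ) / 3 ^ (k + 1)) (fun k => ?_)
      hasSum_two.summable (fun k c => ?_)
    · exact ((continuous_of_discreteTopology (f := fun d : Dig => (d.y : ℝ))).comp
        (continuous_apply k)).div_const _
    · have h1 : (0 : ℝ) ≤ (c k).y := by exact_mod_cast (c k).y_nonneg
      have h2 : ((c k).y : ℝ) ≤ 2 := by exact_mod_cast (c k).y_le
      rw [Real.norm_of_nonneg (by positivity)]
      exact div_le_div_of_nonneg_right h2 (by positivity)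

instance : CompactSpace K := by
  rw [← isCompact_iff_compactSpace, carpet_eq_range]
  exact isCompact_range continuous_code

instance : Nonempty K := ⟨c00⟩

theorem isClosed_cell (w : List Dig) : IsClosed (cell w) :=
  (isCompact_range (Fw w).continuous).isClosed

theorem mem_cell_coord {w : List Dig} {x : K} (h : x ∈ cell w) :
    ((pos w).1 : ℝ) ≤ 3 ^ w.length * x.1.1 ∧ 3 ^ w.length * x.1.1 ≤ (pos w).1 + 1 ∧
    ((pos w).2 : ℝ) ≤ 3 ^ w.length * x.1.2 ∧ 3 ^ w.length * x.1.2 ≤ (pos w).2 + 1 := by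
  obtain ⟨y, rfl⟩ := h
  have hb := K_bounds y
  have h3 : (3 : ℝ) ^ w.length ≠ 0 := by positivity
  rw [Fw_apply1, Fw_apply2, mul_div_cancel₀ _ h3, mul_div_cancel₀ _ h3]
  refine ⟨?_, ?_, ?_, ?_⟩ <;> linarith [hb.1, hb.2.1, hb.2.2.1, hb.2.2.2]

theorem near_refl {k : ℤ} (hk : 0 ≤ k) (w : List Dig) : near k w w := by
  simp [near, hk]

theorem near_symm {k : ℤ} {u v : List Dig} (h : near k u v) : near k v u := by
  unfold near at *
  rw [abs_sub_comm (pos v).1, abs_sub_comm (pos v).2]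
  exact h

theorem near_mono {k l : ℤ} (hkl : k ≤ l) {u v : List Dig} (h : near k u v) : near l u v :=
  ⟨h.1.trans hkl, h.2.trans hkl⟩

theorem near_trans {k l : ℤ} {u v w : List Dig} (h : near k u v) (h' : near l v w) :
    near (k + l) u w := by
  unfold near at *
  simp only [abs_le] at *
  refine ⟨⟨?_, ?_⟩, ⟨?_, ?_⟩⟩ <;> linarith [h.1.1, h.1.2, h.2.1, h.2.2, h'.1.1, h'.1.2, h'.2.1, h'.2.2]

/-- Words are equal iff they are at index distance `0`. -/
theorem eq_of_near_zero {u v : List Dig} (h : u.length = v.length) (h' : near 0 u v) : u = v := by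
  unfold near at h'
  simp only [abs_le] at h'
  apply pos_inj h
  apply Prod.ext
  · linarith [h'.1.1, h'.1.2]
  · linarith [h'.2.1, h'.2.2]

/-- Index distance from metric distance (`dist` is the sup metric of the plane). -/
theorem near_of_dist {u v : List Dig} {x y : K} (h : u.length = v.length) (hx : x ∈ cell u)
    (hy : y ∈ cell v) {k : ℤ} (hk : 3 ^ u.length * dist x y < k) : near k u v := by
  have h1 := mem_cell_coord hx
  have h2 := mem_cell_coord hy
  rw [← h] at h2
  have h3 : (0 : ℝ) < 3 ^ u.length := by positivity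
  have hd : dist x y = max |x.1.1 - y.1.1| |x.1.2 - y.1.2| := by
    rw [Subtype.dist_eq, Prod.dist_eq, Real.dist_eq, Real.dist_eq]
  have d1 : |x.1.1 - y.1.1| ≤ dist x y := hd ▸ le_max_left _ _
  have d2 : |x.1.2 - y.1.2| ≤ dist x y := hd ▸ le_max_right _ _
  rw [abs_le] at d1 d2
  have e1 : 3 ^ u.length * (x.1.1 - y.1.1) < k := by
    refine lt_of_le_of_lt ?_ hk
    exact mul_le_mul_of_nonneg_left d1.2 h3.le
  have e2 : -(k : ℝ) < 3 ^ u.length * (x.1.1 - y.1.1) := by
    have := mul_le_mul_of_nonneg_left d1.1 h3.le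
    linarith
  have e3 : 3 ^ u.length * (x.1.2 - y.1.2) < k := by
    refine lt_of_le_of_lt ?_ hk
    exact mul_le_mul_of_nonneg_left d2.2 h3.le
  have e4 : -(k : ℝ) < 3 ^ u.length * (x.1.2 - y.1.2) := by
    have := mul_le_mul_of_nonneg_left d2.1 h3.le
    linarith
  have f1 : (pos u).1 - (pos v).1 < k + 1 := by
    have : (((pos u).1 - (pos v).1 : ℤ) : ℝ) < ((k + 1 : ℤ) : ℝ) := by
      push_cast
      linarith [h1.1, h2.2.1]
    exact_mod_cast this
  have f2 : -(k + 1) < (pos u).1 - (pos v).1 := by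
    have : ((-(k + 1) : ℤ) : ℝ) < (((pos u).1 - (pos v).1 : ℤ) : ℝ) := by
      push_cast
      linarith [h1.2.1, h2.1]
    exact_mod_cast this
  have f3 : (pos u).2 - (pos v).2 < k + 1 := by
    have : (((pos u).2 - (pos v).2 : ℤ) : ℝ) < ((k + 1 : ℤ) : ℝ) := by
      push_cast
      linarith [h1.2.2.1, h2.2.2.2]
    exact_mod_cast this
  have f4 : -(k + 1) < (pos u).2 - (pos v).2 := by
    have : ((-(k + 1) : ℤ) : ℝ) < (((pos u).2 - (pos v).2 : ℤ) : ℝ) := by
      push_cast
      linarith [h1.2.2.2, h2.2.2.1]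
    exact_mod_cast this
  constructor <;> rw [abs_le] <;> constructor <;> omega

theorem near_of_mem {u v : List Dig} {x : K} (h : u.length = v.length) (hu : x ∈ cell u)
    (hv : x ∈ cell v) : near 1 u v :=
  near_of_dist h hu hv (by simp)

/-- The corner of the cell of `u` nearest to `v`. -/
theorem exists_common {u v : List Dig} (h : u.length = v.length) (hn : near 1 u v) :
    ∃ x, x ∈ cell u ∧ x ∈ cell v := by
  obtain ⟨h1, h2⟩ := hn
  rw [abs_le] at h1 h2
  -- corner with coordinates a, b ∈ {0, 1}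
  have key : ∀ a b a' b' : ℤ, (a = 0 ∨ a = 1) → (b = 0 ∨ b = 1) → (a' = 0 ∨ a' = 1) →
      (b' = 0 ∨ b' = 1) → (pos u).1 + a = (pos v).1 + a' → (pos u).2 + b = (pos v).2 + b' →
      ∃ x, x ∈ cell u ∧ x ∈ cell v := by
    intro a b a' b' ha hb ha' hb' e1 e2
    have hc : ∀ a b : ℤ, (a = 0 ∨ a = 1) → (b = 0 ∨ b = 1) →
        ∃ c : K, c.1.1 = a ∧ c.1.2 = b := by
      intro a b ha hb
      rcases ha with rfl | rfl <;> rcases hb with rfl | rfl
      · exact ⟨c00, by simp [c00], by simp [c00]⟩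
      · exact ⟨c01, by simp [c01], by simp [c01]⟩
      · exact ⟨c10, by simp [c10], by simp [c10]⟩
      · exact ⟨c11, by simp [c11], by simp [c11]⟩
    obtain ⟨c, hc1, hc2⟩ := hc a b ha hb
    obtain ⟨c', hc1', hc2'⟩ := hc a' b' ha' hb'
    refine ⟨Fw u c, ⟨c, rfl⟩, c', ?_⟩
    apply K_ext
    · rw [Fw_apply1, Fw_apply1, hc1, hc1', h]
      congr 1
      exact_mod_cast e1.symm
    · rw [Fw_apply2, Fw_apply2, hc2, hc2', h]
      congr 1
      exact_mod_cast e2.symm
  have ex : ∃ a a' : ℤ, (a = 0 ∨ a = 1) ∧ (a' = 0 ∨ a' = 1) ∧ (pos u).1 + a = (pos v).1 + a' := by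
    have : (pos u).1 - (pos v).1 = -1 ∨ (pos u).1 - (pos v).1 = 0 ∨ (pos u).1 - (pos v).1 = 1 := by
      omega
    rcases this with e | e | e
    · exact ⟨1, 0, Or.inr rfl, Or.inl rfl, by omega⟩
    · exact ⟨0, 0, Or.inl rfl, Or.inl rfl, by omega⟩
    · exact ⟨0, 1, Or.inl rfl, Or.inr rfl, by omega⟩
  have ey : ∃ a a' : ℤ, (a = 0 ∨ a = 1) ∧ (a' = 0 ∨ a' = 1) ∧ (pos u).2 + a = (pos v).2 + a' := by
    have : (pos u).2 - (pos v).2 = -1 ∨ (pos u).2 - (pos v).2 = 0 ∨ (pos u).2 - (pos v).2 = 1 := by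
      omega
    rcases this with e | e | e
    · exact ⟨1, 0, Or.inr rfl, Or.inl rfl, by omega⟩
    · exact ⟨0, 0, Or.inl rfl, Or.inl rfl, by omega⟩
    · exact ⟨0, 1, Or.inl rfl, Or.inr rfl, by omega⟩
  obtain ⟨a, a', ha, ha', e1⟩ := ex
  obtain ⟨b, b', hb, hb', e2⟩ := ey
  exact key a b a' b' ha hb ha' hb' e1 e2

theorem near_append_left {k : ℤ} (u v v' : List Dig) (h : v.length = v'.length) :
    near k (u ++ v) (u ++ v') ↔ near k v v' := by
  unfold near
  rw [pos_append, pos_append, h]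
  simp

theorem near_parent {k : ℤ} {u v : List Dig} {a b : Dig}
    (hn : near k (u ++ [a]) (v ++ [b])) : near ((k + 2) / 3) u v := by
  obtain ⟨h1, h2⟩ := hn
  rw [pos_append, pos_append] at h1 h2
  simp only [List.length_cons, List.length_nil, zero_add, pow_one, pos, pow_zero, one_mul,
    add_zero] at h1 h2
  have ax := a.x_nonneg
  have ax' := a.x_le
  have ay := a.y_nonneg
  have ay' := a.y_le
  have bx := b.x_nonneg
  have bx' := b.x_le
  have bY := b.y_nonneg
  have bY' := b.y_le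
  rw [abs_le] at h1 h2
  constructor <;> rw [abs_le] <;> constructor <;> omega

theorem dist_eq (x y : K) : dist x y = max |x.1.1 - y.1.1| |x.1.2 - y.1.2| := by
  rw [Subtype.dist_eq, Prod.dist_eq, Real.dist_eq, Real.dist_eq]

theorem dist_le_of_near {k : ℤ} {u v : List Dig} {x y : K} (h : u.length = v.length)
    (hn : near k u v) (hx : x ∈ cell u) (hy : y ∈ cell v) :
    dist x y ≤ (k + 1) / 3 ^ u.length := by
  have h1 := mem_cell_coord hx
  have h2 := mem_cell_coord hy
  rw [← h] at h2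
  have h3 : (0 : ℝ) < 3 ^ u.length := by positivity
  obtain ⟨n1, n2⟩ := hn
  rw [abs_le] at n1 n2
  have m1 : ((pos u).1 : ℝ) - (pos v).1 ≤ k := by exact_mod_cast n1.2
  have m2 : -(k : ℝ) ≤ ((pos u).1 : ℝ) - (pos v).1 := by exact_mod_cast n1.1
  have m3 : ((pos u).2 : ℝ) - (pos v).2 ≤ k := by exact_mod_cast n2.2
  have m4 : -(k : ℝ) ≤ ((pos u).2 : ℝ) - (pos v).2 := by exact_mod_cast n2.1
  rw [dist_eq, le_div_iff₀ h3]
  have key : ∀ t : ℝ, |3 ^ u.length * t| ≤ k + 1 → |t| * 3 ^ u.length ≤ k + 1 := by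
    intro t ht
    rw [abs_mul, abs_of_pos h3] at ht
    linarith
  rw [max_mul_of_nonneg _ _ h3.le]
  refine max_le (key _ ?_) (key _ ?_)
  · rw [abs_le, mul_sub]
    constructor <;> linarith [h1.1, h1.2.1, h2.1, h2.2.1]
  · rw [abs_le, mul_sub]
    constructor <;> linarith [h1.2.2.1, h1.2.2.2, h2.2.2.1, h2.2.2.2]

theorem dist_cell_le {w : List Dig} {x y : K} (hx : x ∈ cell w) (hy : y ∈ cell w) :
    dist x y ≤ 1 / 3 ^ w.length := by
  have := dist_le_of_near (k := 0) rfl (near_refl le_rfl w) hx hy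
  simpa using this

theorem dist_Fw (w : List Dig) (x y : K) : dist (Fw w x) (Fw w y) = dist x y / 3 ^ w.length := by
  have h3 : (0 : ℝ) < 3 ^ w.length := by positivity
  rw [dist_eq, dist_eq, Fw_apply1, Fw_apply1, Fw_apply2, Fw_apply2]
  have e : ∀ a b c : ℝ, |(a + b) / 3 ^ w.length - (a + c) / 3 ^ w.length| = |b - c| / 3 ^ w.length := by
    intro a b c
    rw [← sub_div, abs_div, abs_of_pos h3]
    congr 2
    ring
  rw [e, e, max_div_div_right h3.le]

theorem inn_or_out (k : ℤ) (w : List Dig) (x : K) : x ∈ inn k w ∨ x ∈ out k w := by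
  obtain ⟨s, hs, hx⟩ := exists_cell w.length x
  by_cases hn : near k s w
  · exact Or.inl ⟨s, hs, hn, hx⟩
  · exact Or.inr ⟨s, hs, hn, hx⟩

theorem cell_subset_inn {k : ℤ} {s w : List Dig} (h : s.length = w.length) (hn : near k s w) :
    cell s ⊆ inn k w := fun _ hx => ⟨s, h, hn, hx⟩

theorem cell_subset_out {k : ℤ} {s w : List Dig} (h : s.length = w.length) (hn : ¬ near k s w) :
    cell s ⊆ out k w := fun _ hx => ⟨s, h, hn, hx⟩

theorem inn_mono {k l : ℤ} (hkl : k ≤ l) (w : List Dig) : inn k w ⊆ inn l w := by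
  rintro x ⟨s, hs, hn, hx⟩
  exact ⟨s, hs, near_mono hkl hn, hx⟩

theorem out_anti {k l : ℤ} (hkl : k ≤ l) (w : List Dig) : out l w ⊆ out k w := by
  rintro x ⟨s, hs, hn, hx⟩
  exact ⟨s, hs, fun h => hn (near_mono hkl h), hx⟩

theorem inn_subset_inn {j k : ℤ} {s w : List Dig} (h : s.length = w.length) (hn : near j s w) :
    inn k s ⊆ inn (k + j) w := by
  rintro x ⟨t, ht, htn, hx⟩
  exact ⟨t, ht.trans h, near_trans htn hn, hx⟩

theorem out_subset_out {j k : ℤ} {s w : List Dig} (h : s.length = w.length) (hn : near j s w) :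
    out (k + j) w ⊆ out k s := by
  rintro x ⟨t, ht, htn, hx⟩
  exact ⟨t, ht.trans h.symm, fun h' => htn (near_trans h' hn), hx⟩

/-- `out` neighbourhoods of a child are larger. -/
theorem out_child {k : ℤ} (w : List Dig) (d : Dig) (hk : 0 ≤ k) :
    out k w ⊆ out k (w ++ [d]) := by
  rintro x ⟨s, hs, hn, hx⟩
  obtain ⟨v, hv, hxv⟩ := exists_cell_append s 1 hx
  obtain ⟨a, rfl⟩ := List.length_eq_one_iff.1 hv
  refine ⟨s ++ [a], by simp [hs], fun h => hn ?_, hxv⟩
  refine near_mono ?_ (near_parent h)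
  omega

theorem exists_cell_left (n : ℕ) {x : K} (hx : x.1.1 = 0) :
    ∃ s : List Dig, s.length = n ∧ (pos s).1 = 0 ∧ x ∈ cell s := by
  obtain ⟨s, hs, hxs⟩ := exists_cell n x
  refine ⟨s, hs, ?_, hxs⟩
  have h := (mem_cell_coord hxs).1
  rw [hx, mul_zero] at h
  have h' := (pos_nonneg s).1
  have : (pos s).1 ≤ 0 := by exact_mod_cast h
  omega

theorem exists_cell_bot (n : ℕ) {x : K} (hx : x.1.2 = 0) :
    ∃ s : List Dig, s.length = n ∧ (pos s).2 = 0 ∧ x ∈ cell s := by
  obtain ⟨s, hs, hxs⟩ := exists_cell n x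
  refine ⟨s, hs, ?_, hxs⟩
  have h := (mem_cell_coord hxs).2.2.1
  rw [hx, mul_zero] at h
  have h' := (pos_nonneg s).2
  have : (pos s).2 ≤ 0 := by exact_mod_cast h
  omega

theorem exists_cell_right (n : ℕ) {x : K} (hx : x.1.1 = 1) :
    ∃ s : List Dig, s.length = n ∧ (pos s).1 = 3 ^ n - 1 ∧ x ∈ cell s := by
  obtain ⟨s, hs, hxs⟩ := exists_cell n x
  refine ⟨s, hs, ?_, hxs⟩
  have h := (mem_cell_coord hxs).2.1
  rw [hx, mul_one, hs] at h
  have h' := (pos_lt s).1
  rw [hs] at h'
  have : (3 : ℤ) ^ n ≤ (pos s).1 + 1 := by exact_mod_cast h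
  omega

theorem exists_cell_top (n : ℕ) {x : K} (hx : x.1.2 = 1) :
    ∃ s : List Dig, s.length = n ∧ (pos s).2 = 3 ^ n - 1 ∧ x ∈ cell s := by
  obtain ⟨s, hs, hxs⟩ := exists_cell n x
  refine ⟨s, hs, ?_, hxs⟩
  have h := (mem_cell_coord hxs).2.2.2
  rw [hx, mul_one, hs] at h
  have h' := (pos_lt s).2
  rw [hs] at h'
  have : (3 : ℤ) ^ n ≤ (pos s).2 + 1 := by exact_mod_cast h
  omega

theorem left_subset_out {k : ℤ} {w : List Dig} (h : k < (pos w).1) : left ⊆ out k w := by
  intro x hx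
  obtain ⟨s, hs, hp, hxs⟩ := exists_cell_left w.length hx
  refine ⟨s, hs, fun hn => ?_, hxs⟩
  have := hn.1
  rw [hp, abs_le] at this
  omega

theorem bot_subset_out {k : ℤ} {w : List Dig} (h : k < (pos w).2) : bot ⊆ out k w := by
  intro x hx
  obtain ⟨s, hs, hp, hxs⟩ := exists_cell_bot w.length hx
  refine ⟨s, hs, fun hn => ?_, hxs⟩
  have := hn.2
  rw [hp, abs_le] at this
  omega

theorem right_subset_out {k : ℤ} {w : List Dig} (h : (pos w).1 + k + 1 < 3 ^ w.length) :
    right ⊆ out k w := by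
  intro x hx
  obtain ⟨s, hs, hp, hxs⟩ := exists_cell_right w.length hx
  refine ⟨s, hs, fun hn => ?_, hxs⟩
  have := hn.1
  rw [hp, abs_le] at this
  omega

theorem top_subset_out {k : ℤ} {w : List Dig} (h : (pos w).2 + k + 1 < 3 ^ w.length) :
    top ⊆ out k w := by
  intro x hx
  obtain ⟨s, hs, hp, hxs⟩ := exists_cell_top w.length hx
  refine ⟨s, hs, fun hn => ?_, hxs⟩
  have := hn.2
  rw [hp, abs_le] at this
  omega

/-- For the sup estimate in module F5: every cell two levels up contains a cell of level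
`w.length` at index distance more than `2` from `w`. -/
theorem exists_far_cell (w : List Dig) (_hw : 2 ≤ w.length) (s' : List Dig)
    (_hs : s'.length = w.length - 2) : ∃ t : List Dig, t.length = 2 ∧ ¬ near 2 (s' ++ t) w := by
  by_contra hcon
  push Not at hcon
  have h1 := (hcon [dg 0 0, dg 0 0] rfl).1
  have h2 := (hcon [dg 2 2, dg 2 2] rfl).1
  rw [pos_append] at h1 h2
  have e1 : (pos [dg 0 0, dg 0 0]).1 = 0 := by decide
  have e2 : (pos [dg 2 2, dg 2 2]).1 = 8 := by decide
  simp only [e1, e2, List.length_cons, List.length_nil] at h1 h2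
  rw [abs_le] at h1 h2
  omega

/-- The part of the cell of `w` shared with other cells of its level, pulled back to `K`. -/
def Bd (w : List Dig) : Set K := {x | ∃ s : List Dig, s.length = w.length ∧ s ≠ w ∧ Fw w x ∈ cell s}

/-- A shared point: relation between the offsets. -/
theorem Bd_cases {w : List Dig} {x : K} (h : x ∈ Bd w) : ∃ s : List Dig, s.length = w.length ∧ s ≠ w ∧
    ∃ y : K, ((pos s).1 : ℝ) + y.1.1 = (pos w).1 + x.1.1 ∧
      ((pos s).2 : ℝ) + y.1.2 = (pos w).2 + x.1.2 := by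
  obtain ⟨s, hs, hne, y, hy⟩ := h
  refine ⟨s, hs, hne, y, ?_, ?_⟩
  · have := congrArg (fun z : K => z.1.1) hy
    simp only [Fw_apply1, hs] at this
    have h3 : (3 : ℝ) ^ w.length ≠ 0 := by positivity
    field_simp at this
    exact this
  · have := congrArg (fun z : K => z.1.2) hy
    simp only [Fw_apply2, hs] at this
    have h3 : (3 : ℝ) ^ w.length ≠ 0 := by positivity
    field_simp at this
    exact this

theorem offset_cases {a b : ℤ} {s t : ℝ} (h : (a : ℝ) + s = b + t) (hs : 0 ≤ s) (hs1 : s ≤ 1)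
    (ht : 0 ≤ t) (ht1 : t ≤ 1) : a = b ∨ (a = b + 1 ∧ t = 1) ∨ (a = b - 1 ∧ t = 0) := by
  have h1 : ((a - b : ℤ) : ℝ) ≤ 1 := by push_cast; linarith
  have h2 : (-1 : ℝ) ≤ ((a - b : ℤ) : ℝ) := by push_cast; linarith
  have h1' : a - b ≤ 1 := by exact_mod_cast h1
  have h2' : -1 ≤ a - b := by exact_mod_cast h2
  have : a - b = -1 ∨ a - b = 0 ∨ a - b = 1 := by omega
  rcases this with e | e | e
  · right; right
    have ha : a = b - 1 := by omega
    refine ⟨ha, ?_⟩
    rw [ha] at h
    push_cast at h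
    linarith
  · left; omega
  · right; left
    have ha : a = b + 1 := by omega
    refine ⟨ha, ?_⟩
    rw [ha] at h
    push_cast at h
    linarith

theorem Bd_subset_V0 (w : List Dig) : Bd w ⊆ V0 := by
  intro x hx
  obtain ⟨s, hs, hne, y, h1, h2⟩ := Bd_cases hx
  have hx' := K_bounds x
  have hy' := K_bounds y
  rcases offset_cases h1 hy'.1 hy'.2.1 hx'.1 hx'.2.1 with e | ⟨_, e⟩ | ⟨_, e⟩
  · rcases offset_cases h2 hy'.2.2.1 hy'.2.2.2 hx'.2.2.1 hx'.2.2.2 with f | ⟨_, f⟩ | ⟨_, f⟩
    · exact absurd (pos_inj hs (Prod.ext e f)) hne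
    · exact Or.inr f
    · exact Or.inl (Or.inr f)
  · exact Or.inl (Or.inl (Or.inr e))
  · exact Or.inl (Or.inl (Or.inl e))

theorem Bd_subset_Lam {w : List Dig} (h : (pos w).2 = 0) : Bd w ⊆ Lam := by
  intro x hx
  obtain ⟨s, hs, hne, y, h1, h2⟩ := Bd_cases hx
  have hx' := K_bounds x
  have hy' := K_bounds y
  rcases offset_cases h1 hy'.1 hy'.2.1 hx'.1 hx'.2.1 with e | ⟨_, e⟩ | ⟨_, e⟩
  · rcases offset_cases h2 hy'.2.2.1 hy'.2.2.2 hx'.2.2.1 hx'.2.2.2 with f | ⟨_, f⟩ | ⟨f, _⟩
    · exact absurd (pos_inj hs (Prod.ext e f)) hne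
    · exact Or.inl (Or.inr f)
    · have := (pos_nonneg s).2
      omega
  · exact Or.inr e
  · exact Or.inl (Or.inl e)

theorem Bd_subset_LamP {w : List Dig} (h : pos w = (0, 0)) : Bd w ⊆ LamP := by
  intro x hx
  obtain ⟨s, hs, hne, y, h1, h2⟩ := Bd_cases hx
  have hx' := K_bounds x
  have hy' := K_bounds y
  have g1 : (pos w).1 = 0 := by rw [h]
  have g2 : (pos w).2 = 0 := by rw [h]
  rcases offset_cases h1 hy'.1 hy'.2.1 hx'.1 hx'.2.1 with e | ⟨_, e⟩ | ⟨e, _⟩
  · rcases offset_cases h2 hy'.2.2.1 hy'.2.2.2 hx'.2.2.1 hx'.2.2.2 with f | ⟨_, f⟩ | ⟨f, _⟩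
    · exact absurd (pos_inj hs (Prod.ext e f)) hne
    · exact Or.inl f
    · have := (pos_nonneg s).2
      omega
  · exact Or.inr e
  · have := (pos_nonneg s).1
    omega

theorem flipX_flipX (x : K) : flipX (flipX x) = x := by
  apply K_ext
  · change 1 - (1 - x.1.1) = x.1.1
    ring
  · rfl

theorem swapXY_swapXY (x : K) : swapXY (swapXY x) = x := rfl

theorem flipX_apply (x : K) : (flipX x).1 = (1 - x.1.1, x.1.2) := rfl

theorem flipY_apply (x : K) : (flipY x).1 = (x.1.1, 1 - x.1.2) := rfl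

theorem swapXY_apply (x : K) : (swapXY x).1 = (x.1.2, x.1.1) := rfl

theorem flipY_flipY (x : K) : flipY (flipY x) = x := by
  apply K_ext
  · rfl
  · change 1 - (1 - x.1.2) = x.1.2
    ring

theorem flipX_F (d : Dig) : flipX.comp (F d) = (F d.flip).comp flipX := by
  refine ContinuousMap.ext fun x => ?_
  apply K_ext
  · change 1 - (x.1.1 + d.x) / 3 = ((1 - x.1.1) + d.flip.x) / 3
    rw [Dig.flip_x]
    ring
  · rfl

theorem swapXY_F (d : Dig) : swapXY.comp (F d) = (F d.swap).comp swapXY := by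
  refine ContinuousMap.ext fun x => ?_
  apply K_ext <;> rfl

theorem flipX_Fw (w : List Dig) : flipX.comp (Fw w) = (Fw (w.map Dig.flip)).comp flipX := by
  induction w with
  | nil => exact ContinuousMap.ext fun x => rfl
  | cons d w ih =>
    change (flipX.comp (F d)).comp (Fw w) = ((F d.flip).comp (Fw (w.map Dig.flip))).comp flipX
    rw [flipX_F, ContinuousMap.comp_assoc, ih, ContinuousMap.comp_assoc]

theorem swapXY_Fw (w : List Dig) : swapXY.comp (Fw w) = (Fw (w.map Dig.swap)).comp swapXY := by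
  induction w with
  | nil => exact ContinuousMap.ext fun x => rfl
  | cons d w ih =>
    change (swapXY.comp (F d)).comp (Fw w) = ((F d.swap).comp (Fw (w.map Dig.swap))).comp swapXY
    rw [swapXY_F, ContinuousMap.comp_assoc, ih, ContinuousMap.comp_assoc]

end Pool.Agent.Helper67.SC
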