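import Pool.Agent.Helper67.SC.F1

/-! Module G3: gluing of functions along cells, extension by zero, restriction to cells. -/

open MeasureTheory Filter Topology

noncomputable section

namespace Pool.Agent.Helper67.SC

variable {S : CarForm}

/-- Gluing of continuous functions on the cells of level `n` (finite closed cover). -/
theorem glue (n : ℕ) (g : List Dig → C(K, ℝ))
    (h : ∀ u v : List Dig, u.length = n → v.length = n → ∀ x y, Fw u x = Fw v y → g u x = g v y) :
    ∃ f : C(K, ℝ), ∀ u : List Dig, u.length = n → f.comp (Fw u) = g u := by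
  have hex : ∀ x : K, ∃ p : List Dig × K, p.1.length = n ∧ Fw p.1 p.2 = x := by
    intro x
    obtain ⟨w, hw, y, hy⟩ := exists_cell n x
    exact ⟨(w, y), hw, hy⟩
  choose p hp1 hp2 using hex
  set f : K → ℝ := fun x => g (p x).1 (p x).2 with hf
  have key : ∀ u : List Dig, u.length = n → ∀ y, f (Fw u y) = g u y := by
    intro u hu y
    exact h _ _ (hp1 _) hu _ _ (hp2 _)
  have hcont : Continuous f := by
    rw [continuous_iff_isClosed]
    intro C hC
    have e : f ⁻¹' C = ⋃ u ∈ words n, Fw u '' (g u ⁻¹' C) := by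
      ext x
      simp only [Set.mem_preimage, Set.mem_iUnion, Set.mem_image, exists_prop]
      constructor
      · intro hx
        exact ⟨(p x).1, mem_words.2 (hp1 x), (p x).2, hx, hp2 x⟩
      · rintro ⟨u, hu, y, hy, rfl⟩
        rw [key u (mem_words.1 hu)]
        exact hy
    rw [e]
    refine (words n).finite_toSet.isClosed_biUnion fun u _ => ?_
    have hc : IsClosed (g u ⁻¹' C) := hC.preimage (g u).continuous
    exact (hc.isCompact.image (Fw u).continuous).isClosed
  refine ⟨⟨f, hcont⟩, fun u hu => ?_⟩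
  ext y
  exact key u hu y

/-- `f` on the cells of `T`, `g` on the other cells of level `n`. -/
theorem glue_dom (n : ℕ) (T : Set (List Dig)) {f g : C(K, ℝ)} (hf : f ∈ S.dom) (hg : g ∈ S.dom)
    (h : ∀ u v : List Dig, u.length = n → v.length = n → u ∈ T → v ∉ T →
      ∀ x, x ∈ cell u → x ∈ cell v → f x = g x) :
    ∃ k ∈ S.dom, (∀ u : List Dig, u.length = n → u ∈ T →
        k.comp (Fw u) = f.comp (Fw u) ∧ ∀ x ∈ cell u, k x = f x) ∧
      (∀ u : List Dig, u.length = n → u ∉ T →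
        k.comp (Fw u) = g.comp (Fw u) ∧ ∀ x ∈ cell u, k x = g x) := by
  classical
  obtain ⟨k, hk⟩ := glue n (fun u => if u ∈ T then f.comp (Fw u) else g.comp (Fw u)) (by
    intro u v hu hv x y hxy
    by_cases hu' : u ∈ T <;> by_cases hv' : v ∈ T
    · simp only [hu', hv', if_true, ContinuousMap.comp_apply, hxy]
    · simp only [hu', hv', if_true, if_false, ContinuousMap.comp_apply]
      rw [← hxy]
      exact h u v hu hv hu' hv' _ ⟨x, rfl⟩ ⟨y, hxy.symm⟩
    · simp only [hu', hv', if_true, if_false, ContinuousMap.comp_apply]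
      rw [hxy]
      exact (h v u hv hu hv' hu' _ ⟨y, rfl⟩ ⟨x, hxy⟩).symm
    · simp only [hu', hv', if_false, ContinuousMap.comp_apply, hxy])
  refine ⟨k, S.mem_of_comp_Fw n fun w hw => ?_, fun u hu hT => ?_, fun u hu hT => ?_⟩
  · rw [hk w hw]
    split_ifs
    · exact S.comp_Fw_mem w hf
    · exact S.comp_Fw_mem w hg
  · have e := hk u hu
    rw [if_pos hT] at e
    refine ⟨e, ?_⟩
    rintro _ ⟨y, rfl⟩
    exact congrArg (fun z : C(K, ℝ) => z y) e
  · have e := hk u hu
    rw [if_neg hT] at e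
    refine ⟨e, ?_⟩
    rintro _ ⟨y, rfl⟩
    exact congrArg (fun z : C(K, ℝ) => z y) e

/-- Extension by zero from the cell of `w` to `K`. -/
theorem ext_zero (w : List Dig) {φ : C(K, ℝ)} (hφ : φ ∈ S.dom) (h : ZeroOn (Bd w) φ) :
    ∃ Φ ∈ S.dom, Φ.comp (Fw w) = φ ∧
      (∀ s : List Dig, s.length = w.length → s ≠ w → Φ.comp (Fw s) = 0) ∧
      (∀ x, x ∉ cell w → Φ x = 0) ∧ (0 ≤ φ → 0 ≤ Φ) ∧
      ∀ f ∈ S.dom, S.E f Φ = S.ρ ^ w.length * S.E (f.comp (Fw w)) φ := by
  classical
  obtain ⟨Φ, hΦ⟩ := glue w.length (fun u => if u = w then φ else 0) (by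
    intro u v hu hv x y hxy
    by_cases hu' : u = w <;> by_cases hv' : v = w
    · subst hu'
      subst hv'
      simp only [if_true]
      rw [Fw_injective _ hxy]
    · simp only [hu', hv', if_true, if_false, ContinuousMap.zero_apply]
      subst hu'
      exact h x ⟨v, hv, hv', y, hxy.symm⟩
    · simp only [hu', hv', if_true, if_false, ContinuousMap.zero_apply]
      subst hv'
      exact (h y ⟨u, hu, hu', x, hxy⟩).symm
    · simp only [hu', hv', if_false]
      rfl)
  have h1 : Φ.comp (Fw w) = φ := by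
    rw [hΦ w rfl, if_pos rfl]
  have h2 : ∀ s : List Dig, s.length = w.length → s ≠ w → Φ.comp (Fw s) = 0 := by
    intro s hs hne
    rw [hΦ s hs, if_neg hne]
  have hm : Φ ∈ S.dom := S.mem_of_comp_Fw w.length fun u hu => by
    by_cases hu' : u = w
    · rw [hu', h1]; exact hφ
    · rw [h2 u hu hu']; exact S.dom.zero_mem
  have h3 : ∀ x, x ∉ cell w → Φ x = 0 := by
    intro x hx
    obtain ⟨s, hs, y, rfl⟩ := exists_cell w.length x
    have hne : s ≠ w := by
      rintro rfl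
      exact hx ⟨y, rfl⟩
    exact congrArg (fun z : C(K, ℝ) => z y) (h2 s hs hne)
  refine ⟨Φ, hm, h1, h2, h3, fun h0 x => ?_, fun f hf => ?_⟩
  · by_cases hx : x ∈ cell w
    · obtain ⟨y, rfl⟩ := hx
      have e : Φ (Fw w y) = φ y := congrArg (fun z : C(K, ℝ) => z y) h1
      change 0 ≤ Φ (Fw w y)
      rw [e]
      exact h0 y
    · change 0 ≤ Φ x
      rw [h3 x hx]
  · rw [S.E_selfsim w.length hf hm]
    congr 1
    rw [Finset.sum_eq_single w]
    · rw [h1]
    · intro s hs hne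
      rw [h2 s (mem_words.1 hs) hne, S.E_zero_right (S.comp_Fw_mem s hf)]
    · intro hw
      exact absurd (mem_words.2 rfl) hw

theorem ext_zero_zeroOn {A B : Set K} {w : List Dig} {φ Φ : C(K, ℝ)} (hB : ZeroOn B φ)
    (h2 : Fw w ⁻¹' A ⊆ B) (e : Φ.comp (Fw w) = φ) (e0 : ∀ x, x ∉ cell w → Φ x = 0) :
    ZeroOn A Φ := by
  intro x hx
  by_cases hc : x ∈ cell w
  · obtain ⟨y, rfl⟩ := hc
    have e' : Φ (Fw w y) = φ y := congrArg (fun z : C(K, ℝ) => z y) e
    rw [e']
    exact hB y (h2 hx)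
  · exact e0 x hc

/-- Restriction of harmonic functions to a cell. -/
theorem HarmOff.restrict {A B : Set K} {f : C(K, ℝ)} (w : List Dig) (hf : HarmOff S A f)
    (h1 : Bd w ⊆ B) (h2 : Fw w ⁻¹' A ⊆ B) : HarmOff S B (f.comp (Fw w)) := by
  refine ⟨S.comp_Fw_mem w hf.1, fun φ hφ hB => ?_⟩
  obtain ⟨Φ, hΦ, e, -, e0, -, hE⟩ := ext_zero (S := S) w hφ (fun x hx => hB x (h1 hx))
  have h3 := hf.2 Φ hΦ (ext_zero_zeroOn hB h2 e e0)
  rw [hE f hf.1] at h3
  have h4 : (0 : ℝ) < S.ρ ^ w.length := pow_pos S.ρ_pos _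
  exact (mul_eq_zero.1 h3).resolve_left h4.ne'

theorem SubOff.restrict {A B : Set K} {f : C(K, ℝ)} (w : List Dig) (hf : SubOff S A f)
    (h1 : Bd w ⊆ B) (h2 : Fw w ⁻¹' A ⊆ B) : SubOff S B (f.comp (Fw w)) := by
  refine ⟨S.comp_Fw_mem w hf.1, fun φ hφ h0 hB => ?_⟩
  obtain ⟨Φ, hΦ, e, -, e0, hpos, hE⟩ := ext_zero (S := S) w hφ (fun x hx => hB x (h1 hx))
  have h3 := hf.2 Φ hΦ (hpos h0) (ext_zero_zeroOn hB h2 e e0)
  rw [hE f hf.1] at h3
  have h4 : (0 : ℝ) < S.ρ ^ w.length := pow_pos S.ρ_pos _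
  by_contra hcon
  push Not at hcon
  have := mul_pos h4 hcon
  linarith

theorem SupOff.restrict {A B : Set K} {f : C(K, ℝ)} (w : List Dig) (hf : SupOff S A f)
    (h1 : Bd w ⊆ B) (h2 : Fw w ⁻¹' A ⊆ B) : SupOff S B (f.comp (Fw w)) := by
  have h := (hf.neg.restrict w h1 h2).neg
  have e : -((-f).comp (Fw w)) = f.comp (Fw w) := by
    ext x
    simp
  rwa [e] at h

/-- The energy of a function vanishing on the cells outside `T`. -/
theorem E_eq_sum_of_zero (n : ℕ) (T : Finset (List Dig)) (hT : ∀ s ∈ T, s.length = n)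
    {f g : C(K, ℝ)} (hf : f ∈ S.dom) (hg : g ∈ S.dom)
    (h : ∀ s : List Dig, s.length = n → s ∉ T → g.comp (Fw s) = 0) :
    S.E f g = S.ρ ^ n * ∑ s ∈ T, S.E (f.comp (Fw s)) (g.comp (Fw s)) := by
  rw [S.E_selfsim n hf hg]
  congr 1
  symm
  refine Finset.sum_subset (fun s hs => mem_words.2 (hT s hs)) fun s hs hs' => ?_
  rw [h s (mem_words.1 hs) hs', S.E_zero_right (S.comp_Fw_mem s hf)]

theorem comp_eq_zero_of_out {k : ℤ} {w s : List Dig} {g : C(K, ℝ)} (hs : s.length = w.length)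
    (hn : ¬ near k s w) (h : ZeroOn (out k w) g) : g.comp (Fw s) = 0 := by
  ext y
  exact h _ (cell_subset_out hs hn ⟨y, rfl⟩)

/-- A function vanishing on `out k w` has only few non-zero cells. -/
theorem E_eq_sum_near (k : ℤ) (w : List Dig) {f g : C(K, ℝ)} (hf : f ∈ S.dom) (hg : g ∈ S.dom)
    (h : ZeroOn (out k w) g) :
    S.E f g = S.ρ ^ w.length * ∑ s ∈ (words w.length).filter (fun s =>
      |(pos s).1 - (pos w).1| ≤ k ∧ |(pos s).2 - (pos w).2| ≤ k),
      S.E (f.comp (Fw s)) (g.comp (Fw s)) := by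
  refine E_eq_sum_of_zero w.length _ (fun s hs => mem_words.1 (Finset.mem_filter.1 hs).1) hf hg
    fun s hs hs' => ?_
  refine comp_eq_zero_of_out hs (fun hn => hs' ?_) h
  exact Finset.mem_filter.2 ⟨mem_words.2 hs, hn⟩

theorem card_near_le (k : ℕ) (w : List Dig) :
    ((words w.length).filter (fun s =>
      |(pos s).1 - (pos w).1| ≤ k ∧ |(pos s).2 - (pos w).2| ≤ k)).card ≤ (2 * k + 1) ^ 2 := by
  classical
  have h := Finset.card_le_card_of_injOn (s := (words w.length).filter (fun s =>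
      |(pos s).1 - (pos w).1| ≤ k ∧ |(pos s).2 - (pos w).2| ≤ k))
    (t := Finset.Icc ((pos w).1 - k) ((pos w).1 + k) ×ˢ Finset.Icc ((pos w).2 - k) ((pos w).2 + k))
    pos (fun s hs => by
      have h := (Finset.mem_filter.1 hs).2
      rw [abs_le, abs_le] at h
      simp only [Finset.coe_product, Finset.coe_Icc, Set.mem_prod, Set.mem_Icc]
      constructor <;> constructor <;> linarith [h.1.1, h.1.2, h.2.1, h.2.2]) (fun s hs t ht hst => by
      have h1 := mem_words.1 (Finset.mem_filter.1 hs).1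
      have h2 := mem_words.1 (Finset.mem_filter.1 ht).1
      exact pos_inj (h1.trans h2.symm) hst)
  refine h.trans (le_of_eq ?_)
  rw [Finset.card_product, Int.card_Icc, Int.card_Icc]
  have e : ∀ a : ℤ, (a + (k : ℤ) + 1 - (a - k)).toNat = 2 * k + 1 := by
    intro a
    omega
  rw [e, e]
  ring

/-- Two functions agreeing on the cells where the test function lives have the same pairing. -/
theorem E_congr_cells (n : ℕ) {f g φ : C(K, ℝ)} (hf : f ∈ S.dom) (hg : g ∈ S.dom)
    (hφ : φ ∈ S.dom)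
    (h : ∀ s : List Dig, s.length = n → f.comp (Fw s) = g.comp (Fw s) ∨ φ.comp (Fw s) = 0) :
    S.E f φ = S.E g φ := by
  rw [S.E_selfsim n hf hφ, S.E_selfsim n hg hφ]
  congr 1
  refine Finset.sum_congr rfl fun s hs => ?_
  rcases h s (mem_words.1 hs) with e | e
  · rw [e]
  · rw [e, S.E_zero_right (S.comp_Fw_mem s hf), S.E_zero_right (S.comp_Fw_mem s hg)]

/-- Replacing a function by its positive part away from a neighbourhood where it is
non-negative. -/
theorem SupOff.pos_of_local {k : ℤ} {w : List Dig} {H : C(K, ℝ)} (hH : SupOff S (out k w) H)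
    (h : ∀ x ∈ inn k w, 0 ≤ H x) :
    SupOff S (out k w) (H ⊔ 0) ∧ ∀ x ∈ inn k w, (H ⊔ 0) x = H x := by
  have h1 : ∀ x ∈ inn k w, (H ⊔ 0) x = H x := fun x hx => by
    rw [ContinuousMap.sup_apply]
    exact max_eq_left (h x hx)
  refine ⟨⟨S.pos_mem hH.1, fun φ hφ h0 hz => ?_⟩, h1⟩
  rw [E_congr_cells w.length (S.pos_mem hH.1) hH.1 hφ fun s hs => ?_]
  · exact hH.2 φ hφ h0 hz
  · by_cases hn : near k s w
    · left
      ext y
      exact h1 _ (cell_subset_inn hs hn ⟨y, rfl⟩)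
    · right
      exact comp_eq_zero_of_out hs hn hz

end Pool.Agent.Helper67.SC
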