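import Pool.Agent.Helper67.SC.P0
import Pool.Agent.Helper67.SC.F5b
import Pool.Agent.Helper67.SC.L2

/-! Module I1: objects are not almost constant on macroscopic connected sets. -/

open MeasureTheory Filter Topology

noncomputable section

namespace Pool.Agent.Helper67.SC

variable (S : CarForm)

/-- Words of cells touching the bottom side in the middle third (or the empty word). -/
def BotWord (a : List Dig) : Prop := (∀ d ∈ a, d.y = 0) ∧ (a = [] ∨ ∃ a', a = dg 1 0 :: a')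

theorem pos_two_of_bot {a : List Dig} (h : ∀ d ∈ a, d.y = 0) : (pos a).2 = 0 := by
  induction a with
  | nil => rfl
  | cons d a ih =>
    have h1 := h d (by simp)
    have h2 := ih (fun e he => h e (by simp [he]))
    change 3 ^ a.length * d.y + (pos a).2 = 0
    rw [h1, h2]
    simp

theorem botWord_preimage {a : List Dig} (ha : BotWord a) : Fw a ⁻¹' Lam ⊆ Lam := by
  rcases ha.2 with h | ⟨a', h⟩
  · subst h
    intro x hx
    exact hx
  · subst h
    intro x hx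
    exfalso
    have e1 : (Fw (dg 1 0 :: a') x).1.1 = ((Fw a' x).1.1 + 1) / 3 := by
      change ((Fw a' x).1.1 + ((dg 1 0).x : ℝ)) / 3 = _
      simp [dg, Dig.x]
    have e2 : (Fw (dg 1 0 :: a') x).1.2 = (Fw a' x).1.2 / 3 := by
      change ((Fw a' x).1.2 + ((dg 1 0).y : ℝ)) / 3 = _
      simp [dg, Dig.y]
    have hb := K_bounds (Fw a' x)
    rcases hx with (hx | hx) | hx
    · change (Fw (dg 1 0 :: a') x).1.1 = 0 at hx
      rw [e1] at hx
      linarith [hb.1]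
    · change (Fw (dg 1 0 :: a') x).1.2 = 1 at hx
      rw [e2] at hx
      linarith [hb.2.2.2]
    · change (Fw (dg 1 0 :: a') x).1.1 = 1 at hx
      rw [e1] at hx
      linarith [hb.2.1]

/-- Restriction of an object to a bottom cell is an object. -/
theorem Obj.restrict {C : ℝ} {g : C(K, ℝ)} {δ : List Dig → ℝ} (hg : Obj S C g δ) {a : List Dig}
    (ha : BotWord a) : Obj S C (g.comp (Fw a)) (fun v => δ (a ++ v)) := by
  obtain ⟨h1, h2, h3⟩ := hg
  refine ⟨h1.restrict a (Bd_subset_Lam (pos_two_of_bot ha.1)) (botWord_preimage ha), ?_, ?_⟩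
  · have h := h2.shift a one_pos
    simpa only [one_mul] using h
  · intro m v hv
    rw [S.en_comp]
    exact h3 (a.length + m) (a ++ v) (by simp; omega)

/-- A word of the level of `a` whose cell comes close to the point `Fw a x'` is `a`. -/
theorem eq_of_close {a u : List Dig} (ha : (pos a).2 = 0) (hu : u.length = a.length) {x' z : K}
    (hb : x' ∈ bot) (h1 : 1 / 3 - 1 / 27 ≤ x'.1.1) (h2 : x'.1.1 ≤ 2 / 3 + 1 / 27)
    (hz : z ∈ cell u) (hd : dist (Fw a x') z < 1 / 27 / 3 ^ a.length) : u = a := by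
  have hc := mem_cell_coord hz
  rw [hu] at hc
  have h3 : (0 : ℝ) < 3 ^ a.length := by positivity
  rw [dist_eq, max_lt_iff, Fw_apply1, Fw_apply2] at hd
  have hb' : x'.1.2 = 0 := hb
  have e : ∀ p t : ℝ, |p / 3 ^ a.length - t| < 1 / 27 / 3 ^ a.length →
      |p - 3 ^ a.length * t| < 1 / 27 := by
    intro p t h
    have : |p / 3 ^ a.length - t| * 3 ^ a.length < 1 / 27 := by
      rwa [lt_div_iff₀ h3] at h
    have e2 : p - 3 ^ a.length * t = (p / 3 ^ a.length - t) * 3 ^ a.length := by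
      field_simp
    rw [e2, abs_mul, abs_of_pos h3]
    exact this
  have d1 := e _ _ hd.1
  have d2 := e _ _ hd.2
  rw [abs_lt] at d1 d2
  rw [ha, hb'] at d2
  have hp := pos_nonneg u
  have i1 : (pos u).1 = (pos a).1 := by
    have f1 : (pos u).1 < (pos a).1 + 1 := by
      have : ((pos u).1 : ℝ) < (((pos a).1 + 1 : ℤ) : ℝ) := by
        push_cast
        linarith [hc.1, d1.1]
      exact_mod_cast this
    have f2 : (pos a).1 < (pos u).1 + 1 := by
      have : ((pos a).1 : ℝ) < (((pos u).1 + 1 : ℤ) : ℝ) := by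
        push_cast
        linarith [hc.2.1, d1.2]
      exact_mod_cast this
    omega
  have i2 : (pos u).2 = (pos a).2 := by
    have f1 : (pos u).2 < 1 := by
      have : ((pos u).2 : ℝ) < ((1 : ℤ) : ℝ) := by
        push_cast
        have : ((0 : ℤ) : ℝ) = 0 := by norm_num
        rw [this] at d2
        linarith [hc.2.2.1, d2.1]
      exact_mod_cast this
    omega
  exact pos_inj hu (Prod.ext i1 i2)

/-- The estimate obtained from a chain of cells of level `m` in the cell of `a`. -/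
theorem chain_estimate {C C₁ : ℝ} (hC : 1 ≤ C) (hC₁ : 0 < C₁)
    (hcl : ∀ (h : C(K, ℝ)), HarmOff S Lam h → ∀ (n : ℕ), 4 ≤ n →
    ∀ (T : Finset (List Dig)), (∀ w ∈ T, w.length = n) → (∀ w ∈ T, ∃ x ∈ cell w, x ∈ RegM) →
      ∀ t ε : ℝ, (∀ w ∈ T, ∃ x ∈ cell w, |h x - t| ≤ ε) →
        ∑ w ∈ T, Real.sqrt (S.en h w) ≤
          C₁ * (T.card * ε + (S.ρ ^ n)⁻¹ * Real.sqrt (S.E h h)))
    {g : C(K, ℝ)} {δ : List Dig → ℝ} (hg : Obj S C g δ) {a : List Dig} (ha : BotWord a)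
    {m : ℕ} (hm : 4 ≤ m) (T : Finset (List Dig)) (hT : ∀ w ∈ T, w.length = m)
    (hT2 : ∀ w ∈ T, ∃ x ∈ cell w, x ∈ RegM) {t ε : ℝ} (hε : 0 ≤ ε)
    (hT3 : ∀ w ∈ T, ∃ x ∈ cell w, |g (Fw a x) - t| ≤ ε) (v : List Dig)
    (hch : δ (a ++ v) ≤ C * ∑ s ∈ T, δ (a ++ s)) :
    δ (a ++ v) ≤ C ^ 2 * C₁ * (8 ^ m * ε + (S.ρ ^ m)⁻¹ * Real.sqrt (S.en g a)) := by
  have hr := Obj.restrict S hg ha
  have h1 := hcl _ hr.1 m hm T hT hT2 t ε hT3
  have hC0 : 0 < C := lt_of_lt_of_le one_pos hC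
  have h2 : ∑ s ∈ T, δ (a ++ s) ≤ C * ∑ s ∈ T, Real.sqrt (S.en (g.comp (Fw a)) s) := by
    rw [Finset.mul_sum]
    exact Finset.sum_le_sum fun s hs => (hr.2.2 m s (hT s hs).le).1
  have hcard : (T.card : ℝ) ≤ 8 ^ m := by
    have : T.card ≤ 8 ^ m := by
      rw [← card_words m]
      exact Finset.card_le_card fun s hs => mem_words.2 (hT s hs)
    exact_mod_cast this
  have h3 : (T.card : ℝ) * ε ≤ 8 ^ m * ε := mul_le_mul_of_nonneg_right hcard hε
  have h4 : S.E (g.comp (Fw a)) (g.comp (Fw a)) = S.en g a := rfl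
  rw [h4] at h1
  calc δ (a ++ v) ≤ C * ∑ s ∈ T, δ (a ++ s) := hch
    _ ≤ C * (C * ∑ s ∈ T, Real.sqrt (S.en (g.comp (Fw a)) s)) :=
        mul_le_mul_of_nonneg_left h2 hC0.le
    _ ≤ C * (C * (C₁ * (T.card * ε + (S.ρ ^ m)⁻¹ * Real.sqrt (S.en g a)))) := by
        apply mul_le_mul_of_nonneg_left _ hC0.le
        exact mul_le_mul_of_nonneg_left h1 hC0.le
    _ ≤ C * (C * (C₁ * (8 ^ m * ε + (S.ρ ^ m)⁻¹ * Real.sqrt (S.en g a)))) := by
        apply mul_le_mul_of_nonneg_left _ hC0.le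
        apply mul_le_mul_of_nonneg_left _ hC0.le
        apply mul_le_mul_of_nonneg_left _ hC₁.le
        linarith
    _ = _ := by ring

theorem exists_level_small (A : ℝ) : ∃ m : ℕ, 4 ≤ m ∧ A * (S.ρ ^ m)⁻¹ ≤ 1 / 4 := by
  have h := one_lt_rho S
  obtain ⟨m, hm⟩ := pow_unbounded_of_one_lt (4 * A) h
  refine ⟨m + 4, by omega, ?_⟩
  have h1 : S.ρ ^ m ≤ S.ρ ^ (m + 4) := pow_le_pow_right₀ h.le (by omega)
  have h2 : 0 < S.ρ ^ (m + 4) := pow_pos S.ρ_pos _
  rw [← div_eq_mul_inv, div_le_iff₀ h2]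
  linarith

/-- ICC. `O` open, joined from `x = Fw a x'` (`x'` on the bottom side, `x'.1 ∈ [1/3 - 1/27, 2/3 + 1/27]`) to a
point `y` at distance at least `3^{-|a|}/27`. Take the chain of cells of level `|a| + m` meeting `O`
(`Conn.coarse`) up to the first cell containing a point at distance at least `3^{-|a|}/27`: these cells
are `a ++ s` with the cell of `s` meeting `RegM`, `T` = set of these words. If `|g - t| < ε` on `O` then
`content_level` for `g ∘ Fw a` gives `∑ sqrt (en g (a ++ s)) ≤ C (8^m ε + ρ^{-m} sqrt (en g a))`, and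
`Wt.chain` gives `δ a ≤ C ∑ δ (a ++ s)`; choose `m` with `C' ρ^{-m} ≤ 1/2`. -/
theorem icc (C : ℝ) (hC : 1 ≤ C) : ∃ ε₀ : ℝ, 0 < ε₀ ∧ ∀ (g : C(K, ℝ)) (δ : List Dig → ℝ),
    Obj S C g δ → ∀ a : List Dig, BotWord a → ∀ x' ∈ bot, 1 / 3 - 1 / 27 ≤ x'.1.1 →
      x'.1.1 ≤ 2 / 3 + 1 / 27 → ∀ (O : Set K) (y : K) (t : ℝ), Conn O (Fw a x') y →
        1 / 27 / 3 ^ a.length ≤ dist (Fw a x') y →
          ∃ p ∈ O, ε₀ * Real.sqrt (S.en g a) ≤ |g p - t| := by
  classical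
  obtain ⟨C₁, hC₁, hcl⟩ := content_level S
  have hC0 : 0 < C := lt_of_lt_of_le one_pos hC
  obtain ⟨m, hm4, hm⟩ := exists_level_small S (C ^ 3 * C₁)
  refine ⟨1 / (4 * (C ^ 3 * C₁) * 8 ^ m), by positivity, ?_⟩
  intro g δ hg a ha x' hb h1 h2 O y t hconn hdist
  by_contra hcon
  push Not at hcon
  set ε₀ : ℝ := 1 / (4 * (C ^ 3 * C₁) * 8 ^ m) with hε₀
  have hε₀p : 0 < ε₀ := by positivity
  have hpa := pos_two_of_bot ha.1
  -- the set of words
  set T : Finset (List Dig) := (words m).filter (fun s =>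
    (∃ z ∈ cell (a ++ s), z ∈ O) ∧
      ∃ z ∈ cell (a ++ s), dist (Fw a x') z < 1 / 27 / 3 ^ a.length) with hT
  set T2 : Finset (List Dig) := T.image (fun s => a ++ s) with hT2
  have hmemT2 : ∀ u : List Dig, u.length = a.length + m → (∃ z ∈ cell u, z ∈ O) →
      (∃ z ∈ cell u, dist (Fw a x') z < 1 / 27 / 3 ^ a.length) → u ∈ T2 := by
    intro u hu hO hz
    obtain ⟨z, hz1, hz2⟩ := hz
    have hu1 : (u.take a.length).length = a.length := by
      rw [List.length_take]; omega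
    have hu2 : u = u.take a.length ++ u.drop a.length := (List.take_append_drop _ _).symm
    have hza : z ∈ cell (u.take a.length) := by
      apply cell_append_subset _ (u.drop a.length)
      rw [← hu2]
      exact hz1
    have he := eq_of_close hpa hu1 hb h1 h2 hza hz2
    rw [he] at hu2
    rw [hT2, Finset.mem_image]
    refine ⟨u.drop a.length, ?_, hu2.symm⟩
    rw [hT, Finset.mem_filter]
    refine ⟨mem_words.2 (by rw [List.length_drop]; omega), ?_, ?_⟩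
    · rw [← hu2]; exact hO
    · rw [← hu2]; exact ⟨z, hz1, hz2⟩
  -- the chain
  obtain ⟨s, t', hs, hxs, hyt, hsO, hlink⟩ := hconn.coarse (a.length + m)
  have hr0 : (0 : ℝ) < 1 / 27 / 3 ^ a.length := by positivity
  have hsT : s ∈ T2 := hmemT2 s hs hsO ⟨Fw a x', hxs, by rw [dist_self]; exact hr0⟩
  have hstep : ∀ u, Linked {b | b.length = a.length + m ∧ ∃ z ∈ cell b, z ∈ O} s u →
      (∃ q ∈ T2, Linked (↑T2) s q ∧ ∃ z ∈ cell q, 1 / 27 / 3 ^ a.length ≤ dist (Fw a x') z) ∨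
        (u ∈ T2 ∧ u.length = a.length + m ∧ Linked (↑T2) s u) := by
    intro u hu
    induction hu with
    | refl => exact Or.inr ⟨hsT, hs, Relation.ReflTransGen.refl⟩
    | @tail u u' _ hstep ih =>
      rcases ih with ih | ⟨ih1, ihl, ih2⟩
      · exact Or.inl ih
      · obtain ⟨⟨hu'1, hu'2⟩, hnear⟩ := hstep
        by_cases hq : ∃ z ∈ cell u, 1 / 27 / 3 ^ a.length ≤ dist (Fw a x') z
        · exact Or.inl ⟨u, ih1, ih2, hq⟩
        · push Not at hq
          obtain ⟨z, hz1, hz2⟩ := exists_common (ihl.trans hu'1.symm) hnear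
          have hm' := hmemT2 u' hu'1 hu'2 ⟨z, hz2, hq z hz1⟩
          exact Or.inr ⟨hm', hu'1, ih2.tail ⟨hm', hnear⟩⟩
  have hfin : ∃ q ∈ T2, Linked (↑T2) s q ∧
      ∃ z ∈ cell q, 1 / 27 / 3 ^ a.length ≤ dist (Fw a x') z := by
    rcases hstep t' hlink with h | ⟨h3, _, h4⟩
    · exact h
    · exact ⟨t', h3, h4, y, hyt, hdist⟩
  obtain ⟨q, hq, hsq, z, hz, hzd⟩ := hfin
  have hT2l : ∀ s ∈ T2, s.length = a.length + m := by
    intro s hs
    rw [hT2, Finset.mem_image] at hs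
    obtain ⟨s', hs', rfl⟩ := hs
    rw [hT, Finset.mem_filter] at hs'
    rw [List.length_append, mem_words.1 hs'.1]
  have hchain := hg.2.1.chain a (a.length + m) T2 hT2l (by omega) s hsT q hsq (Fw a x') hxs z hz
    ⟨x', rfl⟩ hzd
  have hsum : ∑ s ∈ T2, δ s = ∑ s ∈ T, δ (a ++ s) := by
    rw [hT2, Finset.sum_image]
    intro u _ v _ huv
    exact List.append_cancel_left huv
  rw [hsum] at hchain
  have hlen : ∀ w ∈ T, w.length = m := by
    intro w hw
    rw [hT, Finset.mem_filter] at hw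
    exact mem_words.1 hw.1
  have hreg : ∀ w ∈ T, ∃ x ∈ cell w, x ∈ RegM := by
    intro w hw
    rw [hT, Finset.mem_filter] at hw
    obtain ⟨_, _, z, hz, hzd⟩ := hw
    rw [show cell (a ++ w) = Set.range (Fw (a ++ w)) from rfl, Fw_append] at hz
    obtain ⟨z0, rfl⟩ := hz
    refine ⟨Fw w z0, ⟨z0, rfl⟩, ?_⟩
    rw [ContinuousMap.comp_apply, dist_Fw] at hzd
    have h3 : (0 : ℝ) < 3 ^ a.length := by positivity
    rw [div_lt_div_iff_of_pos_right h3, dist_eq, max_lt_iff] at hzd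
    obtain ⟨d1, d2⟩ := hzd
    rw [abs_lt] at d1 d2
    have hb' : x'.1.2 = 0 := hb
    refine ⟨?_, ?_, ?_⟩
    · linarith [d1.2]
    · linarith [d1.1]
    · linarith [d2.1]
  have hclose : ∀ w ∈ T, ∃ x ∈ cell w, |g (Fw a x) - t| ≤ ε₀ * Real.sqrt (S.en g a) := by
    intro w hw
    rw [hT, Finset.mem_filter] at hw
    obtain ⟨_, ⟨z, hz, hzO⟩, _⟩ := hw
    have hz' := hz
    rw [show cell (a ++ w) = Set.range (Fw (a ++ w)) from rfl, Fw_append] at hz'
    obtain ⟨z0, rfl⟩ := hz'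
    exact ⟨Fw w z0, ⟨z0, rfl⟩, (hcon _ hzO).le⟩
  have hchain' : δ (a ++ []) ≤ C * ∑ s ∈ T, δ (a ++ s) := by
    rw [List.append_nil]; exact hchain
  have hest := chain_estimate S hC hC₁ hcl hg ha hm4 T hlen hreg
    (mul_nonneg hε₀p.le (Real.sqrt_nonneg _)) hclose [] hchain'
  rw [List.append_nil] at hest
  obtain ⟨c1, c2⟩ := hg.2.2 a.length a le_rfl
  have hδ := hg.2.1.pos a
  set r := Real.sqrt (S.en g a) with hr
  have hrpos : 0 < r := by
    by_contra h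
    have h' : r ≤ 0 := not_lt.1 h
    have : C * r ≤ 0 := mul_nonpos_of_nonneg_of_nonpos hC0.le h'
    linarith
  have k1 : r ≤ C ^ 3 * C₁ * (8 ^ m * (ε₀ * r) + (S.ρ ^ m)⁻¹ * r) := by
    calc r ≤ C * δ a := c2
      _ ≤ C * (C ^ 2 * C₁ * (8 ^ m * (ε₀ * r) + (S.ρ ^ m)⁻¹ * r)) :=
          mul_le_mul_of_nonneg_left hest hC0.le
      _ = _ := by ring
  have k2 : C ^ 3 * C₁ * (8 ^ m * ε₀) = 1 / 4 := by
    rw [hε₀]
    field_simp
  have k3 : C ^ 3 * C₁ * (8 ^ m * (ε₀ * r) + (S.ρ ^ m)⁻¹ * r) =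
      (C ^ 3 * C₁ * (8 ^ m * ε₀)) * r + (C ^ 3 * C₁ * (S.ρ ^ m)⁻¹) * r := by ring
  rw [k3, k2] at k1
  have k4 : (C ^ 3 * C₁ * (S.ρ ^ m)⁻¹) * r ≤ 1 / 4 * r := mul_le_mul_of_nonneg_right hm hrpos.le
  linarith

theorem good_zero (n : ℕ) : Good n 0 := by
  induction n with
  | zero => rfl
  | succ n ih => exact ⟨0, Or.inl (by norm_num), ih⟩

/-- An object is not constant on the middle third of the bottom side (`content_level` and
`Wt.chain` with the words `(1,0) :: v`, second coordinates zero). -/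
theorem nonconst_bot {C : ℝ} (hC : 1 ≤ C) {g : C(K, ℝ)} {δ : List Dig → ℝ} (hg : Obj S C g δ)
    (t : ℝ) : ∃ x ∈ bot, 1 / 3 ≤ x.1.1 ∧ x.1.1 ≤ 2 / 3 ∧ g x ≠ t := by
  classical
  by_contra hcon
  push Not at hcon
  obtain ⟨C₁, hC₁, hcl⟩ := content_level S
  have hC0 : 0 < C := lt_of_lt_of_le one_pos hC
  have hδ := hg.2.1.pos [dg 1 0]
  -- a large constant
  set R := Real.sqrt (S.en g []) with hR
  have hR0 : 0 ≤ R := Real.sqrt_nonneg _
  obtain ⟨m, hm4, hm⟩ := exists_level_small S (C ^ 2 * C₁ * (R + 1) / δ [dg 1 0])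
  -- the words in the middle third of the bottom row
  set T : Finset (List Dig) := (words m).filter (fun s =>
    (pos s).2 = 0 ∧ 3 ^ (m - 1) ≤ (pos s).1 ∧ (pos s).1 < 2 * 3 ^ (m - 1)) with hT
  have h3m : (3 : ℤ) ^ m = 3 * 3 ^ (m - 1) := by
    rw [← pow_succ']
    congr 1
    omega
  have h3pos : (0 : ℤ) < 3 ^ (m - 1) := by positivity
  have hword : ∀ k : ℤ, 3 ^ (m - 1) ≤ k → k < 2 * 3 ^ (m - 1) →
      ∃ w ∈ T, pos w = (k, 0) ∧ w.length = m := by
    intro k hk1 hk2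
    obtain ⟨w, hw1, hw2⟩ := exists_word_row (n := m) (i := k) (j := 0) (by omega) (by omega)
      (good_zero m)
    refine ⟨w, ?_, hw2, hw1⟩
    rw [hT, Finset.mem_filter, hw2]
    exact ⟨mem_words.2 hw1, rfl, hk1, hk2⟩
  have hlen : ∀ w ∈ T, w.length = m := by
    intro w hw
    rw [hT, Finset.mem_filter] at hw
    exact mem_words.1 hw.1
  have hpt : ∀ w ∈ T, ∃ x ∈ cell w, x ∈ bot ∧ 1 / 3 ≤ x.1.1 ∧ x.1.1 ≤ 2 / 3 := by
    intro w hw
    have hl := hlen w hw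
    rw [hT, Finset.mem_filter] at hw
    obtain ⟨_, p2, p1, p1'⟩ := hw
    have h3 : (0 : ℝ) < 3 ^ (m - 1) := by positivity
    have h3' : (3 : ℝ) ^ m = 3 * 3 ^ (m - 1) := by
      rw [← pow_succ']
      congr 1
      omega
    refine ⟨Fw w c00, ⟨c00, rfl⟩, ?_, ?_, ?_⟩
    · change (Fw w c00).1.2 = 0
      rw [Fw_apply2, p2]
      simp [c00]
    · rw [Fw_apply1, hl, h3']
      have : ((3 ^ (m - 1) : ℤ) : ℝ) ≤ ((pos w).1 : ℝ) := by exact_mod_cast p1
      push_cast at this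
      have e : (c00 : K).1.1 = 0 := rfl
      rw [e, add_zero, div_le_div_iff₀ (by norm_num) (by positivity)]
      linarith
    · rw [Fw_apply1, hl, h3']
      have : ((pos w).1 : ℝ) ≤ ((2 * 3 ^ (m - 1) : ℤ) : ℝ) := by exact_mod_cast p1'.le
      push_cast at this
      have e : (c00 : K).1.1 = 0 := rfl
      rw [e, add_zero, div_le_div_iff₀ (by positivity) (by norm_num)]
      linarith
  obtain ⟨s, hsT, hs, hsl⟩ := hword (3 ^ (m - 1)) le_rfl (by omega)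
  have hlink : ∀ k : ℕ, 3 ^ (m - 1) + (k : ℤ) < 2 * 3 ^ (m - 1) →
      ∃ q ∈ T, pos q = (3 ^ (m - 1) + (k : ℤ), 0) ∧ Linked (↑T) s q := by
    intro k
    induction k with
    | zero =>
      intro _
      exact ⟨s, hsT, by rw [hs]; simp, Relation.ReflTransGen.refl⟩
    | succ k ih =>
      intro hk
      push_cast at hk
      obtain ⟨q, hq, hpq, hsq⟩ := ih (by omega)
      obtain ⟨q', hq', hpq', _⟩ := hword (3 ^ (m - 1) + (k : ℤ) + 1) (by omega) (by omega)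
      refine ⟨q', hq', by rw [hpq']; push_cast; rw [add_assoc], hsq.tail ⟨hq', ?_⟩⟩
      unfold near
      rw [hpq, hpq']
      constructor
      · change |3 ^ (m - 1) + (k : ℤ) - (3 ^ (m - 1) + (k : ℤ) + 1)| ≤ 1
        rw [show (3 : ℤ) ^ (m - 1) + (k : ℤ) - (3 ^ (m - 1) + (k : ℤ) + 1) = -1 by ring]
        norm_num
      · change |(0 : ℤ) - 0| ≤ 1
        norm_num
  obtain ⟨N, hN⟩ : ∃ N : ℕ, (N : ℤ) = 3 ^ (m - 1) - 1 := ⟨3 ^ (m - 1) - 1, by
    have : 1 ≤ 3 ^ (m - 1) := Nat.one_le_pow _ _ (by norm_num)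
    push_cast [this]
    ring⟩
  obtain ⟨q, hqT, hpq, hsq⟩ := hlink N (by omega)
  have hql := hlen q hqT
  -- end points
  have h3' : (3 : ℝ) ^ m = 3 * 3 ^ (m - 1) := by
    rw [← pow_succ']
    congr 1
    omega
  have h3 : (0 : ℝ) < 3 ^ (m - 1) := by positivity
  have hx1 : (Fw s c00).1.1 = 1 / 3 := by
    rw [Fw_apply1, hs, hsl, h3']
    have e : (c00 : K).1.1 = 0 := rfl
    rw [e]
    push_cast
    field_simp
    ring
  have hx2 : (Fw s c00).1.2 = 0 := by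
    rw [Fw_apply2, hs]
    simp [c00]
  have hy1 : (Fw q c10).1.1 = 2 / 3 := by
    rw [Fw_apply1, hpq, hql, h3', hN]
    have e : (c10 : K).1.1 = 1 := rfl
    rw [e]
    push_cast
    field_simp
    ring
  have hxv : Fw s c00 ∈ cell [dg 1 0] := by
    refine ⟨c00, ?_⟩
    apply K_ext
    · rw [hx1]
      change (c00.1.1 + ((dg 1 0).x : ℝ)) / 3 = 1 / 3
      simp [dg, Dig.x, c00]
    · rw [hx2]
      change (c00.1.2 + ((dg 1 0).y : ℝ)) / 3 = 0
      simp [dg, Dig.y, c00]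
  have hdist : 1 / 27 / 3 ^ [dg 1 0].length ≤ dist (Fw s c00) (Fw q c10) := by
    rw [dist_eq, hx1, hy1]
    refine le_trans ?_ (le_max_left _ _)
    rw [abs_of_nonpos (by norm_num)]
    norm_num
  have hchain := hg.2.1.chain [dg 1 0] m T hlen (by simp; omega) s hsT q hsq (Fw s c00) ⟨_, rfl⟩
    (Fw q c10) ⟨_, rfl⟩ hxv hdist
  have hnil : BotWord [] := ⟨by simp, Or.inl rfl⟩
  have hreg : ∀ w ∈ T, ∃ x ∈ cell w, x ∈ RegM := by
    intro w hw
    obtain ⟨x, hx, hxb, h1, h2⟩ := hpt w hw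
    have hb' : x.1.2 = 0 := hxb
    exact ⟨x, hx, by linarith, by linarith, by rw [hb']; norm_num⟩
  have hclose : ∀ w ∈ T, ∃ x ∈ cell w, |g (Fw [] x) - t| ≤ 0 := by
    intro w hw
    obtain ⟨x, hx, hxb, h1, h2⟩ := hpt w hw
    refine ⟨x, hx, ?_⟩
    have := hcon x hxb h1 h2
    change |g x - t| ≤ 0
    rw [this]
    simp
  have hest := chain_estimate S hC hC₁ hcl hg hnil hm4 T hlen hreg le_rfl hclose [dg 1 0]
    (by simpa using hchain)
  rw [List.nil_append, mul_zero, zero_add] at hest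
  have hρ : 0 < (S.ρ ^ m)⁻¹ := inv_pos.2 (pow_pos S.ρ_pos _)
  have k1 : C ^ 2 * C₁ * ((S.ρ ^ m)⁻¹ * R) ≤ C ^ 2 * C₁ * (R + 1) * (S.ρ ^ m)⁻¹ := by
    have : C ^ 2 * C₁ * (R + 1) * (S.ρ ^ m)⁻¹ - C ^ 2 * C₁ * ((S.ρ ^ m)⁻¹ * R) =
        C ^ 2 * C₁ * (S.ρ ^ m)⁻¹ := by ring
    have h0 : 0 ≤ C ^ 2 * C₁ * (S.ρ ^ m)⁻¹ := by positivity
    linarith
  have k2 : C ^ 2 * C₁ * (R + 1) * (S.ρ ^ m)⁻¹ ≤ 1 / 4 * δ [dg 1 0] := by
    have : C ^ 2 * C₁ * (R + 1) / δ [dg 1 0] * (S.ρ ^ m)⁻¹ =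
        C ^ 2 * C₁ * (R + 1) * (S.ρ ^ m)⁻¹ / δ [dg 1 0] := by ring
    rw [this, div_le_iff₀ hδ] at hm
    exact hm
  linarith

end Pool.Agent.Helper67.SC
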