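import Pool.Agent.Helper67.SC.G2
import Pool.Agent.Helper67.SC.G3

/-! Module L1: small truncations, strong locality, splitting. -/

open MeasureTheory Filter Topology

noncomputable section

namespace Pool.Agent.Helper67.SC

variable {S : CarForm}

/-- uniform continuity in terms of cells -/
theorem exists_level_osc (f : C(K, ℝ)) {ε : ℝ} (hε : 0 < ε) : ∃ n : ℕ, ∀ m ≥ n,
    ∀ w : List Dig, w.length = m → ∀ x ∈ cell w, ∀ y ∈ cell w, |f x - f y| < ε := by
  have hu : UniformContinuous f := CompactSpace.uniformContinuous_of_continuous f.continuous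
  obtain ⟨δ, hδ, h⟩ := Metric.uniformContinuous_iff.1 hu ε hε
  obtain ⟨n, hn⟩ := exists_pow_lt_of_lt_one hδ (show (1 / 3 : ℝ) < 1 by norm_num)
  refine ⟨n, fun m hm w hw x hx y hy => ?_⟩
  have h1 : dist x y < δ := by
    refine (dist_cell_le hx hy).trans_lt ?_
    rw [hw, ← one_div_pow]
    exact (pow_le_pow_of_le_one (by norm_num) (by norm_num) hm).trans_lt hn
  have h2 := h h1
  rwa [Real.dist_eq] at h2

/-- a sequence in the domain which is Cauchy in energy and converges pointwise -/
theorem mem_of_energy_cauchy {q : ℕ → C(K, ℝ)} (hq : ∀ n, q n ∈ S.dom)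
    (hc : ∀ ε > 0, ∃ N, ∀ m ≥ N, ∀ n ≥ N, S.E (q m - q n) (q m - q n) < ε)
    {v : C(K, ℝ)} (hv : ∀ x, Tendsto (fun n => q n x) atTop (𝓝 (v x))) :
    v ∈ S.dom ∧ Tendsto (fun n => S.E (q n - v) (q n - v)) atTop (𝓝 0) := by
  obtain ⟨g, hg, hlim⟩ := S.complete q hq hc
  obtain ⟨C, hC, hosc⟩ := S.osc
  have hsq : Tendsto (fun n => C * Real.sqrt (S.E (q n - g) (q n - g))) atTop (𝓝 0) := by
    have h1 := ((Real.continuous_sqrt.tendsto 0).comp hlim).const_mul C
    rwa [Real.sqrt_zero, mul_zero] at h1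
  have hconst : ∀ x y, v x - g x = v y - g y := by
    intro x y
    have h1 : Tendsto (fun n => |(q n - g) x - (q n - g) y|) atTop
        (𝓝 |(v x - g x) - (v y - g y)|) := by
      simp only [ContinuousMap.sub_apply]
      exact (((hv x).sub_const _).sub ((hv y).sub_const _)).abs
    have h2 : |(v x - g x) - (v y - g y)| ≤ 0 :=
      le_of_tendsto_of_tendsto' h1 hsq fun n => hosc _ (S.dom.sub_mem (hq n) hg) x y
    have h3 := abs_eq_zero.1 (le_antisymm h2 (abs_nonneg _))
    linarith
  have hvg : v = g - ContinuousMap.const K (g c00 - v c00) := by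
    ext x
    rw [ContinuousMap.sub_apply, ContinuousMap.const_apply]
    linarith [hconst x c00]
  have h1 := S.E_sub_const (g c00 - v c00) hg
  refine ⟨hvg ▸ h1.1, ?_⟩
  have h2 : ∀ n, S.E (q n - v) (q n - v) = S.E (q n - g) (q n - g) := by
    intro n
    have h3 : q n - v = (q n - g) - ContinuousMap.const K (-(g c00 - v c00)) := by
      ext x
      simp only [ContinuousMap.sub_apply, ContinuousMap.const_apply]
      linarith [hconst x c00]
    rw [h3]
    exact (S.E_sub_const _ (S.dom.sub_mem (hq n) hg)).2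
  simp_rw [h2]
  exact hlim

/-- the truncation `(v - ε)⁺` -/
theorem pos_sub_mem {v : C(K, ℝ)} (hv : v ∈ S.dom) (ε : ℝ) :
    (v - ContinuousMap.const K ε) ⊔ 0 ∈ S.dom :=
  S.pos_mem (S.E_sub_const ε hv).1

/-- energy of the difference of `w` and `(w - t)⁺` -/
theorem E_sub_pos_sub_le {w : C(K, ℝ)} (hw : w ∈ S.dom) (t : ℝ) :
    S.E (w - ((w - ContinuousMap.const K t) ⊔ 0)) (w - ((w - ContinuousMap.const K t) ⊔ 0)) ≤
      S.E w w - S.E ((w - ContinuousMap.const K t) ⊔ 0) ((w - ContinuousMap.const K t) ⊔ 0) := by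
  set q : C(K, ℝ) := (w - ContinuousMap.const K t) ⊔ 0 with hq
  have hqd : q ∈ S.dom := pos_sub_mem hw t
  set z : C(K, ℝ) := (-(w - ContinuousMap.const K t)) ⊔ 0 with hz
  have hzd : z ∈ S.dom := S.pos_mem (S.dom.neg_mem (S.E_sub_const t hw).1)
  have hwq : w - q = ContinuousMap.const K t - z := by
    ext x
    simp only [hq, hz, ContinuousMap.sub_apply, ContinuousMap.sup_apply, ContinuousMap.const_apply,
      ContinuousMap.zero_apply, ContinuousMap.neg_apply]
    rcases le_total (w x - t) 0 with h | h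
    · rw [sup_eq_right.2 h, sup_eq_left.2 (by linarith)]
      ring
    · rw [sup_eq_left.2 h, sup_eq_right.2 (by linarith)]
      ring
  have h1 : S.E q z ≤ 0 := by
    refine S.E_disj hqd hzd (fun x => ?_) (fun x => ?_) (fun x => ?_)
    · exact le_sup_right (a := (w - ContinuousMap.const K t) x)
    · exact le_sup_right (a := (-(w - ContinuousMap.const K t)) x)
    · simp only [hq, hz, ContinuousMap.sub_apply, ContinuousMap.sup_apply,
        ContinuousMap.const_apply, ContinuousMap.zero_apply, ContinuousMap.neg_apply]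
      rcases le_total (w x - t) 0 with h | h
      · exact Or.inl (sup_eq_right.2 h)
      · exact Or.inr (sup_eq_right.2 (by linarith))
  have h2 : 0 ≤ S.E q (w - q) := by
    rw [hwq, S.E_sub_right hqd (S.const_mem t) hzd, S.E_const_right t hqd]
    linarith
  have h3 : w = q + (w - q) := by abel
  have h4 := S.E_add_self hqd (S.dom.sub_mem hw hqd)
  rw [← h3] at h4
  linarith

/-- the truncations are Cauchy in energy -/
theorem trunc_cauchy {v : C(K, ℝ)} (hv : v ∈ S.dom) {δ : ℝ} (hδ : 0 < δ) :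
    ∃ N : ℕ, ∀ m ≥ N, ∀ n ≥ N,
      S.E (((v - ContinuousMap.const K (1 / ((m : ℝ) + 1))) ⊔ 0) -
          ((v - ContinuousMap.const K (1 / ((n : ℝ) + 1))) ⊔ 0))
        (((v - ContinuousMap.const K (1 / ((m : ℝ) + 1))) ⊔ 0) -
          ((v - ContinuousMap.const K (1 / ((n : ℝ) + 1))) ⊔ 0)) < δ := by
  set p : ℕ → C(K, ℝ) := fun n => (v - ContinuousMap.const K (1 / ((n : ℝ) + 1))) ⊔ 0 with hp
  have hpd : ∀ n, p n ∈ S.dom := fun n => pos_sub_mem hv _
  have hle : ∀ m n : ℕ, m ≤ n → S.E (p n - p m) (p n - p m) ≤ S.E (p n) (p n) - S.E (p m) (p m) := by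
    intro m n hmn
    have hmn' : (m : ℝ) ≤ n := by exact_mod_cast hmn
    have ht : 1 / ((n : ℝ) + 1) ≤ 1 / ((m : ℝ) + 1) :=
      one_div_le_one_div_of_le (by positivity) (by linarith)
    have h1 := E_sub_pos_sub_le (hpd n) (1 / ((m : ℝ) + 1) - 1 / ((n : ℝ) + 1))
    have h2 : (p n - ContinuousMap.const K (1 / ((m : ℝ) + 1) - 1 / ((n : ℝ) + 1))) ⊔ 0 = p m := by
      ext x
      simp only [hp, ContinuousMap.sub_apply, ContinuousMap.sup_apply, ContinuousMap.const_apply,
        ContinuousMap.zero_apply]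
      rcases le_total (v x - 1 / ((n : ℝ) + 1)) 0 with h | h
      · rw [sup_eq_right.2 h, sup_eq_right.2 (by linarith), sup_eq_right.2 (by linarith)]
      · rw [sup_eq_left.2 h]
        congr 1
        ring
    rw [h2] at h1
    exact h1
  have hmono : Monotone fun n => S.E (p n) (p n) := by
    intro m n hmn
    have h1 := hle m n hmn
    have h2 := S.E_nonneg _ (S.dom.sub_mem (hpd n) (hpd m))
    simp only
    linarith
  have hbdd : BddAbove (Set.range fun n => S.E (p n) (p n)) := by
    refine ⟨S.E v v, ?_⟩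
    rintro _ ⟨n, rfl⟩
    have h1 := S.E_pos_le (S.E_sub_const (1 / ((n : ℝ) + 1)) hv).1
    rwa [(S.E_sub_const (1 / ((n : ℝ) + 1)) hv).2] at h1
  have hlim := tendsto_atTop_ciSup hmono hbdd
  obtain ⟨N, hN⟩ := Metric.cauchySeq_iff.1 hlim.cauchySeq δ hδ
  refine ⟨N, fun m hm n hn => ?_⟩
  have h1 := hN m hm n hn
  rw [Real.dist_eq] at h1
  rcases le_total m n with h | h
  · have h2 := hle m n h
    have h3 : p m - p n = (-1 : ℝ) • (p n - p m) := by
      rw [neg_one_smul]; abel
    have h4 : S.E (p m - p n) (p m - p n) = S.E (p n - p m) (p n - p m) := by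
      rw [h3, S.E_smul_self (-1) (S.dom.sub_mem (hpd n) (hpd m))]
      ring
    show S.E (p m - p n) (p m - p n) < δ
    rw [h4]
    rw [abs_sub_comm] at h1
    exact h2.trans_lt (lt_of_le_of_lt (le_abs_self _) h1)
  · exact (hle n m h).trans_lt (lt_of_le_of_lt (le_abs_self _) h1)

/-- pointwise convergence of the truncations -/
theorem trunc_tendsto {v : C(K, ℝ)} (hv0 : 0 ≤ v) (x : K) :
    Tendsto (fun n : ℕ => ((v - ContinuousMap.const K (1 / ((n : ℝ) + 1))) ⊔ 0 : C(K, ℝ)) x) atTop
      (𝓝 (v x)) := by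
  have h0 : 0 ≤ v x := hv0 x
  have h1 : Tendsto (fun n : ℕ => (v x - 1 / ((n : ℝ) + 1)) ⊔ 0) atTop (𝓝 ((v x - 0) ⊔ 0)) :=
    (tendsto_const_nhds.sub tendsto_one_div_add_atTop_nhds_zero_nat).sup_nhds tendsto_const_nhds
  rw [sub_zero, sup_eq_left.2 h0] at h1
  exact h1

/-- TRUNC. For `v ≥ 0` the energy of `v ⊓ ε` tends to `0`.
Proof: `E (v ⊓ ε) (v - v ⊓ ε) ≥ 0` (as `v ⊓ ε = ε - (ε - v)⁺`, `v - v ⊓ ε = (v - ε)⁺`, `E_disj`), so
`E (v ⊓ ε) ≤ E v - E ((v-ε)⁺)`, and more generally for `ε < ε'`,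
`E ((v-ε)⁺ - (v-ε')⁺) ≤ E ((v-ε)⁺) - E ((v-ε')⁺)`. The energies `E ((v - 1/n)⁺)` are monotone and
bounded by `E v`, so `(v - 1/n)⁺` is `E`-Cauchy; by completeness it converges in energy to some
`g` in the domain, and `g = v + const` by the oscillation bound (uniform convergence to `v`), so
`E (v - (v - 1/n)⁺) → 0`. -/
theorem trunc_small {v : C(K, ℝ)} (hv : v ∈ S.dom) (hv0 : 0 ≤ v) {η : ℝ} (hη : 0 < η) :
    ∃ ε > 0, ∀ ε' > 0, ε' ≤ ε →
      S.E (v ⊓ ContinuousMap.const K ε') (v ⊓ ContinuousMap.const K ε') < η := by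
  have hpd : ∀ n : ℕ, (v - ContinuousMap.const K (1 / ((n : ℝ) + 1))) ⊔ 0 ∈ S.dom :=
    fun n => pos_sub_mem hv _
  obtain ⟨-, hlim⟩ := mem_of_energy_cauchy hpd (fun δ hδ => trunc_cauchy hv hδ)
    (trunc_tendsto hv0)
  obtain ⟨n, hn⟩ := ((tendsto_order.1 hlim).2 η hη).exists
  refine ⟨1 / ((n : ℝ) + 1), by positivity, fun ε' hε' hle => ?_⟩
  have hid : v ⊓ ContinuousMap.const K (1 / ((n : ℝ) + 1)) =
      (-1 : ℝ) • (((v - ContinuousMap.const K (1 / ((n : ℝ) + 1))) ⊔ 0) - v) := by
    ext x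
    simp only [ContinuousMap.inf_apply, ContinuousMap.sub_apply, ContinuousMap.sup_apply,
      ContinuousMap.const_apply, ContinuousMap.zero_apply, ContinuousMap.smul_apply, smul_eq_mul]
    rcases le_total (v x - 1 / ((n : ℝ) + 1)) 0 with h | h
    · rw [sup_eq_right.2 h, inf_eq_left.2 (by linarith)]
      ring
    · rw [sup_eq_left.2 h, inf_eq_right.2 (by linarith)]
      ring
  have h1 : S.E (v ⊓ ContinuousMap.const K (1 / ((n : ℝ) + 1)))
      (v ⊓ ContinuousMap.const K (1 / ((n : ℝ) + 1))) < η := by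
    rw [hid, S.E_smul_self (-1) (S.dom.sub_mem (hpd n) hv)]
    linarith
  have h2 : v ⊓ ContinuousMap.const K ε' =
      (v ⊓ ContinuousMap.const K (1 / ((n : ℝ) + 1))) ⊓ ContinuousMap.const K ε' := by
    ext x
    simp only [ContinuousMap.inf_apply, ContinuousMap.const_apply]
    rw [inf_assoc, inf_eq_right.2 hle]
  rw [h2]
  exact (S.E_inf_const_le ε' (S.inf_mem hv (S.const_mem _))).trans_lt h1

/-- strong locality for non-negative functions -/
theorem E_eq_zero_of_mul_nonneg {f g : C(K, ℝ)} (hf : f ∈ S.dom) (hg : g ∈ S.dom) (hf0 : 0 ≤ f)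
    (h : ∀ x, f x = 0 ∨ g x = 0) : S.E f g = 0 := by
  by_contra hne
  have hpos : 0 < |S.E f g| := abs_pos.2 hne
  set A : ℝ := Real.sqrt (S.E g g) with hA
  have hA0 : 0 ≤ A := Real.sqrt_nonneg _
  set η : ℝ := (|S.E f g| / (A + 1)) ^ 2 with hη
  have hη0 : 0 < η := by positivity
  obtain ⟨ε, hε, hs⟩ := trunc_small hf hf0 hη0
  have h1 := hs ε hε le_rfl
  have hfi : f ⊓ ContinuousMap.const K ε ∈ S.dom := S.inf_mem hf (S.const_mem ε)
  have hfp : (f - ContinuousMap.const K ε) ⊔ 0 ∈ S.dom := pos_sub_mem hf ε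
  have hdec : f = ((f - ContinuousMap.const K ε) ⊔ 0) + f ⊓ ContinuousMap.const K ε := by
    ext x
    simp only [ContinuousMap.inf_apply, ContinuousMap.sub_apply, ContinuousMap.sup_apply,
      ContinuousMap.const_apply, ContinuousMap.zero_apply, ContinuousMap.add_apply]
    rcases le_total (f x - ε) 0 with h | h
    · rw [sup_eq_right.2 h, inf_eq_left.2 (by linarith)]
      ring
    · rw [sup_eq_left.2 h, inf_eq_right.2 (by linarith)]
      ring
  obtain ⟨n, hn⟩ := exists_level_osc f hε
  have h2 : S.E ((f - ContinuousMap.const K ε) ⊔ 0) g = 0 := by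
    rw [S.E_selfsim n hfp hg]
    have h3 : ∀ w ∈ words n, S.E (((f - ContinuousMap.const K ε) ⊔ 0).comp (Fw w))
        (g.comp (Fw w)) = 0 := by
      intro w hw
      have hwn := mem_words.1 hw
      by_cases hc : ∀ x ∈ cell w, f x ≤ ε
      · have h4 : ((f - ContinuousMap.const K ε) ⊔ 0).comp (Fw w) = 0 := by
          ext x
          simp only [ContinuousMap.comp_apply, ContinuousMap.sup_apply, ContinuousMap.sub_apply,
            ContinuousMap.const_apply, ContinuousMap.zero_apply]
          exact sup_eq_right.2 (by linarith [hc (Fw w x) ⟨x, rfl⟩])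
        rw [h4]
        exact S.E_zero_left (S.comp_Fw_mem w hg)
      · push Not at hc
        obtain ⟨x, hx, hfx⟩ := hc
        have h4 : g.comp (Fw w) = 0 := by
          ext z
          rw [ContinuousMap.comp_apply, ContinuousMap.zero_apply]
          have h5 := (abs_lt.1 (hn n le_rfl w hwn x hx (Fw w z) ⟨z, rfl⟩)).2
          rcases h (Fw w z) with h6 | h6
          · rw [h6] at h5
            linarith
          · exact h6
        rw [h4]
        exact S.E_zero_right (S.comp_Fw_mem w hfp)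
    rw [Finset.sum_eq_zero h3, mul_zero]
  have h3 : S.E f g = S.E (f ⊓ ContinuousMap.const K ε) g := by
    have h4 := S.E_add _ hfp _ hfi _ hg
    rw [← hdec, h2, zero_add] at h4
    exact h4
  have h4 := S.E_abs_le hfi hg
  rw [← h3] at h4
  have h5 : Real.sqrt (S.E (f ⊓ ContinuousMap.const K ε) (f ⊓ ContinuousMap.const K ε)) ≤
      |S.E f g| / (A + 1) := by
    rw [← Real.sqrt_sq (show (0 : ℝ) ≤ |S.E f g| / (A + 1) by positivity)]
    exact Real.sqrt_le_sqrt h1.le
  have h6 : |S.E f g| ≤ |S.E f g| / (A + 1) * A :=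
    h4.trans (mul_le_mul_of_nonneg_right h5 hA0)
  rw [div_mul_eq_mul_div, le_div_iff₀ (by positivity)] at h6
  linarith

/-- LOC0 (strong locality): if `f x * g x = 0` everywhere then `E f g = 0`.
Reduce to `f, g ≥ 0`. For `ε > 0` choose `n` such that `f` oscillates by less than `ε` on the cells
of level `n`: each cell either has `(f - ε)⁺ = 0` or `f > 0` (hence `g = 0`) on the whole cell, so
`E ((f - ε)⁺) g = 0` by `E_selfsim`; then `|E f g| = |E (f ⊓ ε) g|` is small by `trunc_small`. -/
theorem E_eq_zero_of_mul {f g : C(K, ℝ)} (hf : f ∈ S.dom) (hg : g ∈ S.dom)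
    (h : ∀ x, f x = 0 ∨ g x = 0) : S.E f g = 0 := by
  have hp : f ⊔ 0 ∈ S.dom := S.pos_mem hf
  have hm : (-f) ⊔ 0 ∈ S.dom := S.pos_mem (S.dom.neg_mem hf)
  have hdec : f = f ⊔ 0 - (-f) ⊔ 0 := by
    ext x
    simp only [ContinuousMap.sub_apply, ContinuousMap.sup_apply, ContinuousMap.zero_apply,
      ContinuousMap.neg_apply]
    rcases le_total (f x) 0 with h | h
    · rw [sup_eq_right.2 h, sup_eq_left.2 (by linarith)]
      ring
    · rw [sup_eq_left.2 h, sup_eq_right.2 (by linarith)]
      ring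
  have h1 : S.E (f ⊔ 0) g = 0 := by
    refine E_eq_zero_of_mul_nonneg hp hg (fun x => le_sup_right (a := f x)) fun x => ?_
    rcases h x with h | h
    · left
      rw [ContinuousMap.sup_apply, h, ContinuousMap.zero_apply, sup_idem]
    · exact Or.inr h
  have h2 : S.E ((-f) ⊔ 0) g = 0 := by
    refine E_eq_zero_of_mul_nonneg hm hg (fun x => le_sup_right (a := (-f) x)) fun x => ?_
    rcases h x with h | h
    · left
      rw [ContinuousMap.sup_apply, ContinuousMap.neg_apply, h, ContinuousMap.zero_apply, neg_zero,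
        sup_idem]
    · exact Or.inr h
  rw [hdec, S.E_sub_left hp hm hg, h1, h2, sub_zero]

/-- SPLIT. Let `v ≥ 0` and `{v > 0} ⊆ O₁ ∪ O₂` with `O₁`, `O₂` open and disjoint. Then `1_{O₁} v` is in the
domain. For `ε > 0`, `(v-ε)⁺ 1_{O₁}` is in the domain because for `n` large each cell of level `n` where
`(v-ε)⁺ ≠ 0` lies in `{v > 0}`, hence in `O₁` or in `O₂` (`cell_subset_or`); these functions are
`E`-Cauchy for `ε = 1/n` by the estimate in `trunc_small`; the limit is `1_{O₁} v`. -/
theorem exists_split {v : C(K, ℝ)} (hv : v ∈ S.dom) (hv0 : 0 ≤ v) {O₁ O₂ : Set K}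
    (h1 : IsOpen O₁) (h2 : IsOpen O₂) (hd : Disjoint O₁ O₂) (h : ∀ x, 0 < v x → x ∈ O₁ ∪ O₂) :
    ∃ v₁ ∈ S.dom, 0 ≤ v₁ ∧ (∀ x ∈ O₁, v₁ x = v x) ∧ (∀ x, x ∉ O₁ → v₁ x = 0) := by
  classical
  -- the continuous function
  have hcont : Continuous fun x => if x ∈ O₁ then v x else 0 := by
    rw [continuous_iff_continuousAt]
    intro x
    by_cases hx : x ∈ O₁
    · have h3 : (fun x => if x ∈ O₁ then v x else 0) =ᶠ[𝓝 x] v := by
        filter_upwards [h1.mem_nhds hx] with y hy
        rw [if_pos hy]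
      exact v.continuous.continuousAt.congr h3.symm
    · by_cases hvx : 0 < v x
      · have hx2 : x ∈ O₂ := (h x hvx).resolve_left hx
        have h3 : (fun x => if x ∈ O₁ then v x else 0) =ᶠ[𝓝 x] fun _ => (0 : ℝ) := by
          filter_upwards [h2.mem_nhds hx2] with y hy
          rw [if_neg]
          exact fun hy1 => Set.disjoint_left.1 hd hy1 hy
        exact continuousAt_const.congr h3.symm
      · have hvx0 : v x = 0 := le_antisymm (not_lt.1 hvx) (hv0 x)
        show Tendsto (fun x => if x ∈ O₁ then v x else 0) (𝓝 x) (𝓝 (if x ∈ O₁ then v x else 0))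
        rw [if_neg hx]
        have h3 : Tendsto v (𝓝 x) (𝓝 0) := by
          have := v.continuous.tendsto x
          rwa [hvx0] at this
        refine squeeze_zero (fun y => ?_) (fun y => ?_) h3
        · split_ifs
          · exact hv0 y
          · exact le_rfl
        · split_ifs
          · exact le_rfl
          · exact hv0 y
  set v₁ : C(K, ℝ) := ⟨fun x => if x ∈ O₁ then v x else 0, hcont⟩ with hv₁
  have hin : ∀ x ∈ O₁, v₁ x = v x := fun x hx => if_pos hx
  have hout : ∀ x, x ∉ O₁ → v₁ x = 0 := fun x hx => if_neg hx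
  have hv₁0 : 0 ≤ v₁ := by
    intro x
    show 0 ≤ v₁ x
    by_cases hx : x ∈ O₁
    · rw [hin x hx]; exact hv0 x
    · rw [hout x hx]
  refine ⟨v₁, ?_, hv₁0, hin, hout⟩
  -- truncations
  set p : ℕ → C(K, ℝ) := fun n => (v - ContinuousMap.const K (1 / ((n : ℝ) + 1))) ⊔ 0 with hp
  set q : ℕ → C(K, ℝ) := fun n => (v₁ - ContinuousMap.const K (1 / ((n : ℝ) + 1))) ⊔ 0 with hq
  have hpd : ∀ n, p n ∈ S.dom := fun n => pos_sub_mem hv _
  -- on small cells `q` is `p` or `0`, and `p` is `0` unless `v > 0` on the cell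
  have hcell : ∀ n : ℕ, ∃ k : ℕ, ∀ l ≥ k, ∀ w : List Dig, w.length = l →
      (∀ x ∈ cell w, q n x = p n x) ∨ (∀ x ∈ cell w, q n x = 0) := by
    intro n
    have hε : (0 : ℝ) < 1 / ((n : ℝ) + 1) := by positivity
    obtain ⟨k, hk⟩ := exists_level_osc v hε
    refine ⟨k, fun l hl w hw => ?_⟩
    by_cases hc : ∀ x ∈ cell w, v x ≤ 1 / ((n : ℝ) + 1)
    · right
      intro x hx
      simp only [hq, ContinuousMap.sup_apply, ContinuousMap.sub_apply, ContinuousMap.const_apply,
        ContinuousMap.zero_apply]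
      refine sup_eq_right.2 ?_
      by_cases hx1 : x ∈ O₁
      · rw [hin x hx1]; linarith [hc x hx]
      · rw [hout x hx1]; linarith
    · push Not at hc
      obtain ⟨x, hx, hvx⟩ := hc
      have hsub : cell w ⊆ O₁ ∪ O₂ := by
        intro y hy
        have h5 := (abs_lt.1 (hk l hl w hw x hx y hy)).2
        exact h y (by linarith)
      rcases cell_subset_or h1 h2 hd hsub with h6 | h6
      · left
        intro y hy
        simp only [hp, hq, ContinuousMap.sup_apply, ContinuousMap.sub_apply, hin y (h6 hy)]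
      · right
        intro y hy
        simp only [hq, ContinuousMap.sup_apply, ContinuousMap.sub_apply, ContinuousMap.const_apply,
          ContinuousMap.zero_apply]
        refine sup_eq_right.2 ?_
        rw [hout y (fun h7 => Set.disjoint_left.1 hd h7 (h6 hy))]
        linarith
  have hqd : ∀ n, q n ∈ S.dom := by
    intro n
    obtain ⟨k, hk⟩ := hcell n
    refine S.mem_of_comp_Fw k fun w hw => ?_
    rcases hk k le_rfl w hw with h3 | h3
    · have h4 : (q n).comp (Fw w) = (p n).comp (Fw w) := by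
        ext x; exact h3 _ ⟨x, rfl⟩
      rw [h4]
      exact S.comp_Fw_mem w (hpd n)
    · have h4 : (q n).comp (Fw w) = 0 := by
        ext x; exact h3 _ ⟨x, rfl⟩
      rw [h4]
      exact S.dom.zero_mem
  have hEle : ∀ m n, S.E (q m - q n) (q m - q n) ≤ S.E (p m - p n) (p m - p n) := by
    intro m n
    obtain ⟨k, hk⟩ := hcell m
    obtain ⟨k', hk'⟩ := hcell n
    obtain ⟨k'', hk''⟩ := exists_level_osc v (show (0 : ℝ) < min (1 / ((m : ℝ) + 1))
      (1 / ((n : ℝ) + 1)) by positivity)
    set l := max (max k k') k'' with hl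
    have hqq := S.dom.sub_mem (hqd m) (hqd n)
    have hpp := S.dom.sub_mem (hpd m) (hpd n)
    rw [S.E_selfsim l hqq hqq, S.E_selfsim l hpp hpp]
    refine mul_le_mul_of_nonneg_left (Finset.sum_le_sum fun w hw => ?_)
      (pow_nonneg S.ρ_pos.le _)
    have hwl := mem_words.1 hw
    -- decide the cell
    by_cases hall : ∀ x ∈ cell w, q m x - q n x = p m x - p n x
    · have h4 : (q m - q n).comp (Fw w) = (p m - p n).comp (Fw w) := by
        ext x; exact hall _ ⟨x, rfl⟩
      rw [h4]
    · have hz : ∀ x ∈ cell w, q m x - q n x = 0 := by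
        -- if some point of the cell has `v x > min`, then the cell lies in `O₁` or in `O₂`
        by_cases hc : ∀ x ∈ cell w, v x ≤ min (1 / ((m : ℝ) + 1)) (1 / ((n : ℝ) + 1))
        · intro x hx
          have h5 := hc x hx
          have h6 : v₁ x ≤ v x := by
            by_cases hx1 : x ∈ O₁
            · rw [hin x hx1]
            · rw [hout x hx1]; exact hv0 x
          have h7 : q m x = 0 := by
            simp only [hq, ContinuousMap.sup_apply, ContinuousMap.sub_apply,
              ContinuousMap.const_apply, ContinuousMap.zero_apply]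
            exact sup_eq_right.2 (by linarith [h5.trans (min_le_left _ _)])
          have h8 : q n x = 0 := by
            simp only [hq, ContinuousMap.sup_apply, ContinuousMap.sub_apply,
              ContinuousMap.const_apply, ContinuousMap.zero_apply]
            exact sup_eq_right.2 (by linarith [h5.trans (min_le_right _ _)])
          rw [h7, h8, sub_zero]
        · push Not at hc
          obtain ⟨x, hx, hvx⟩ := hc
          have hsub : cell w ⊆ O₁ ∪ O₂ := by
            intro y hy
            have h5 := (abs_lt.1 (hk'' l (le_max_right _ _) w hwl x hx y hy)).2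
            exact h y (by linarith)
          rcases cell_subset_or h1 h2 hd hsub with h6 | h6
          · exfalso
            apply hall
            intro y hy
            simp only [hp, hq, ContinuousMap.sup_apply, ContinuousMap.sub_apply, hin y (h6 hy)]
          · intro y hy
            have h7 : v₁ y = 0 := hout y (fun h7 => Set.disjoint_left.1 hd h7 (h6 hy))
            have h8 : ∀ k : ℕ, q k y = 0 := by
              intro k
              simp only [hq, ContinuousMap.sup_apply, ContinuousMap.sub_apply,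
                ContinuousMap.const_apply, ContinuousMap.zero_apply]
              refine sup_eq_right.2 ?_
              have : (0 : ℝ) < 1 / ((k : ℝ) + 1) := by positivity
              linarith
            rw [h8, h8, sub_zero]
      have h4 : (q m - q n).comp (Fw w) = 0 := by
        ext x; exact hz _ ⟨x, rfl⟩
      rw [h4, S.E_zero_left S.dom.zero_mem]
      exact S.E_nonneg _ (S.comp_Fw_mem w hpp)
  exact (mem_of_energy_cauchy hqd (fun δ hδ => by
    obtain ⟨N, hN⟩ := trunc_cauchy hv hδ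
    exact ⟨N, fun m hm n hn => (hEle m n).trans_lt (hN m hm n hn)⟩) (trunc_tendsto hv₁0)).1

/-- The splitting of a subharmonic function is subharmonic (use `subOff_of_test` and
`E_eq_zero_of_mul`). -/
theorem split_subOff {A : Set K} {v v₁ : C(K, ℝ)} (hv : SubOff S A v) (hv₁ : v₁ ∈ S.dom)
    (h0 : 0 ≤ v) (h : ∀ x, v₁ x = v x ∨ v₁ x = 0) : SubOff S A v₁ := by
  refine subOff_of_test hv₁ (fun x => ?_) fun ψ hψ hψ0 hψv hψz => ?_
  · show 0 ≤ v₁ x
    rcases h x with h1 | h1
    · rw [h1]; exact h0 x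
    · rw [h1]
  · have h1 : S.E (v - v₁) ψ = 0 := by
      refine E_eq_zero_of_mul (S.dom.sub_mem hv.1 hv₁) hψ fun x => ?_
      rcases h x with h2 | h2
      · left
        rw [ContinuousMap.sub_apply, h2, sub_self]
      · right
        have h3 : ψ x ≤ v₁ x := hψv x
        exact le_antisymm (by rw [← h2]; exact h3) (hψ0 x)
    rw [S.E_sub_left hv.1 hv₁ hψ] at h1
    have h2 := hv.2 ψ hψ hψ0 hψz
    linarith

end Pool.Agent.Helper67.SC
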