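import Pool.Agent.Helper67.SC.P0
import Pool.Agent.Helper67.SC.F3

/-! Module P1a: upper bound from the parabolic Harnack inequality. -/

open MeasureTheory Filter Topology

noncomputable section

namespace Pool.Agent.Helper67.SC

theorem p1a_int (μ : Measure K) [IsFiniteMeasure μ] {f : K → ℝ} (hf : Continuous f) :
    Integrable f μ :=
  hf.integrable_of_hasCompactSupport (HasCompactSupport.of_compactSpace f)

theorem p1a_mul (μ : Measure K) [IsFiniteMeasure μ] (f g : C(K, ℝ)) :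
    Integrable (fun x => f x * g x) μ := p1a_int μ (f.continuous.mul g.continuous)

/-- The bilinear form `c ∫ f g`. -/
def p1aP (μ : Measure K) [IsFiniteMeasure μ] (c : ℝ) : C(K, ℝ) →ₗ[ℝ] C(K, ℝ) →ₗ[ℝ] ℝ :=
  LinearMap.mk₂ ℝ (fun f g => c * ∫ x, f x * g x ∂μ)
    (fun f f' g => by
      have e : (fun x => (f + f') x * g x) = fun x => f x * g x + f' x * g x := by
        funext x; simp [add_mul]
      rw [e, integral_add (p1a_mul μ f g) (p1a_mul μ f' g), mul_add])
    (fun a f g => by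
      have e : (fun x => (a • f) x * g x) = fun x => a * (f x * g x) := by
        funext x; simp [mul_assoc]
      rw [e, integral_const_mul, smul_eq_mul]
      ring)
    (fun f g g' => by
      have e : (fun x => f x * (g + g') x) = fun x => f x * g x + f x * g' x := by
        funext x; simp [mul_add]
      rw [e, integral_add (p1a_mul μ f g) (p1a_mul μ f g'), mul_add])
    (fun a f g => by
      have e : (fun x => f x * (a • g) x) = fun x => a * (f x * g x) := by
        funext x; simp [mul_left_comm]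
      rw [e, integral_const_mul, smul_eq_mul]
      ring)

theorem p1aP_apply (μ : Measure K) [IsFiniteMeasure μ] (c : ℝ) (f g : C(K, ℝ)) :
    p1aP μ c f g = c * ∫ x, f x * g x ∂μ := rfl

theorem p1a_digit : ∀ d : Dig, ∃ d' : Dig, d' ≠ d ∧ |d.x - d'.x| ≤ 1 ∧ |d.y - d'.y| ≤ 1 := by
  decide

/-- A cell of positive level meets another cell of its level. -/
theorem p1a_bd (w : List Dig) (hw : w ≠ []) : ∃ y, y ∈ cell w ∧ y ∈ out 0 w := by
  obtain ⟨u, d, rfl⟩ : ∃ u d, w = u ++ [d] := by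
    rcases List.eq_nil_or_concat w with h | ⟨u, d, h⟩
    · exact absurd h hw
    · exact ⟨u, d, by rw [h, List.concat_eq_append]⟩
  obtain ⟨d', hne, hx, hy⟩ := p1a_digit d
  have hn : near 1 (u ++ [d]) (u ++ [d']) := by
    refine (near_append_left u [d] [d'] rfl).2 ?_
    unfold near
    simpa [pos] using And.intro hx hy
  obtain ⟨x, hx1, hx2⟩ := exists_common (by simp) hn
  refine ⟨x, hx1, u ++ [d'], by simp, fun h0 => ?_, hx2⟩
  have := eq_of_near_zero (by simp) h0
  simp only [List.append_cancel_left_eq, List.cons.injEq, and_true] at this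
  exact hne this

theorem p1a_mem_cell {w : List Dig} {x : K} (hx : x ∉ out 0 w) : x ∈ cell w := by
  rcases inn_or_out 0 w x with ⟨s, hs, hn, hxs⟩ | h
  · rwa [eq_of_near_zero hs hn] at hxs
  · exact absurd h hx

/-- Functions vanishing off the cell are bounded by the energy. -/
theorem p1a_sup (S : CarForm) : ∃ C : ℝ, 0 < C ∧ ∀ w : List Dig, w ≠ [] → ∀ φ ∈ S.dom,
    ZeroOn (out 0 w) φ → ∀ x, φ x ^ 2 ≤ C * (S.ρ ^ w.length)⁻¹ * S.E φ φ := by
  obtain ⟨C, hC, hosc⟩ := S.osc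
  refine ⟨C ^ 2, by positivity, fun w hw φ hφ h0 x => ?_⟩
  have hρ : 0 < S.ρ ^ w.length := pow_pos S.ρ_pos _
  have hE := S.E_nonneg φ hφ
  by_cases hx : x ∈ out 0 w
  · rw [h0 x hx]
    have : 0 ≤ (S.ρ ^ w.length)⁻¹ := (inv_pos.2 hρ).le
    have : 0 ≤ C ^ 2 * (S.ρ ^ w.length)⁻¹ * S.E φ φ :=
      mul_nonneg (mul_nonneg (sq_nonneg C) this) hE
    simpa using this
  obtain ⟨x', rfl⟩ := p1a_mem_cell hx
  obtain ⟨_, ⟨y', rfl⟩, hy⟩ := p1a_bd w hw
  have h1 := hosc _ (S.comp_Fw_mem w hφ) x' y'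
  have h2 : (φ.comp (Fw w)) y' = 0 := h0 _ hy
  rw [h2, sub_zero] at h1
  have h3 : S.ρ ^ w.length * S.en φ w ≤ S.E φ φ := by
    have := S.en_append_le hφ [] w
    exact this
  have h4 : S.en φ w ≤ (S.ρ ^ w.length)⁻¹ * S.E φ φ := by
    rw [inv_mul_eq_div, le_div_iff₀ hρ, mul_comm]
    exact h3
  have h5 : φ (Fw w x') ^ 2 ≤ (C * Real.sqrt (S.en φ w)) ^ 2 := by
    rw [← sq_abs (φ (Fw w x'))]
    exact pow_le_pow_left₀ (abs_nonneg _) h1 2
  rw [mul_pow, Real.sq_sqrt (S.en_nonneg hφ w)] at h5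
  refine h5.trans ?_
  rw [mul_assoc]
  exact mul_le_mul_of_nonneg_left h4 (sq_nonneg C)

/-- Upper bound `δ_w² ≤ C ρ^{-n} μ(K_w)`. -/
theorem phi_upper (S : CarForm) {θ : K → K → ℝ} (hθ : Gauge θ) (μ : Measure K)
    [IsFiniteMeasure μ] (hμ : ∀ U : Set K, IsOpen U → U.Nonempty → 0 < μ U) (h : PHI S θ μ 2) :
    ∃ C : ℝ, 0 < C ∧ ∀ w : List Dig,
      dlt θ w ^ 2 ≤ C * (S.ρ ^ w.length)⁻¹ * (μ (cell w)).toReal := by
  obtain ⟨C₁, C₂, C₃, C₄, C₅, δ, R₀, h1, h12, h23, h34, h5, hδ, hδ1, hR, hphi⟩ := h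
  obtain ⟨C₀, hC₀, hsup⟩ := p1a_sup S
  obtain ⟨κ₀, hκ₀, hball⟩ := exists_ball_subset hθ
  obtain ⟨D, hD, hdlt, -⟩ := dlt_le hθ
  have hρ : 0 < S.ρ := S.ρ_pos
  obtain ⟨κ, hκ, hκ1, hκ2⟩ : ∃ κ : ℝ, 0 < κ ∧ κ ≤ κ₀ ∧ κ * D ≤ R₀ := by
    refine ⟨min κ₀ (R₀ / D), lt_min hκ₀ (by positivity), min_le_left _ _, ?_⟩
    calc min κ₀ (R₀ / D) * D ≤ R₀ / D * D := by
          exact mul_le_mul_of_nonneg_right (min_le_right _ _) hD.le
      _ = R₀ := by field_simp
  have hself : ∀ x, θ x x = 0 := fun x => (hθ.zero_iff x x).2 rfl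
  set c : ℝ := (C₃ + C₄ - C₁ - C₂) / 2 with hcdef
  have hc : 0 < c := by rw [hcdef]; linarith
  have hμu : 0 < (μ Set.univ).toReal :=
    ENNReal.toReal_pos (hμ _ isOpen_univ ⟨c00, trivial⟩).ne' (measure_ne_top μ _)
  refine ⟨2 * C₀ * (|Real.log C₅| + 1) / (c * κ ^ 2) + D ^ 2 / (μ Set.univ).toReal, by positivity,
    fun w => ?_⟩
  by_cases hw : w = []
  · subst hw
    have e1 : cell ([] : List Dig) = Set.univ := Set.range_id
    rw [e1, List.length_nil, pow_zero, inv_one, mul_one, add_mul,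
      div_mul_cancel₀ _ hμu.ne']
    have h2 : dlt θ [] ^ 2 ≤ D ^ 2 := pow_le_pow_left₀ (dlt_pos hθ []).le (hdlt []) 2
    have h3 : 0 ≤ 2 * C₀ * (|Real.log C₅| + 1) / (c * κ ^ 2) * (μ Set.univ).toReal := by positivity
    linarith
  have hd0 := dlt_pos hθ w
  set x₀ : K := Fw w rp with hx₀
  set m : ℝ := (μ (cell w)).toReal with hm
  have hballcell : ∀ y, θ x₀ y < κ * dlt θ w → y ∈ cell w ∧ y ∉ out 0 w := by
    intro y hy
    have := hball w y (lt_of_lt_of_le hy (mul_le_mul_of_nonneg_right hκ1 hd0.le))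
    exact ⟨p1a_mem_cell this, this⟩
  have hmpos : 0 < m := by
    refine ENNReal.toReal_pos (ne_of_gt ?_) (measure_ne_top μ _)
    refine lt_of_lt_of_le (hμ _ (isOpen_ball hθ x₀ (κ * dlt θ w)) ⟨x₀, ?_⟩)
      (measure_mono fun y hy => (hballcell y hy).1)
    show θ x₀ x₀ < κ * dlt θ w
    rw [hself]
    positivity
  have hρn : 0 < S.ρ ^ w.length := pow_pos hρ _
  set lam : ℝ := S.ρ ^ w.length / (2 * C₀ * m) with hlam
  have hlam0 : 0 < lam := by positivity
  -- the function v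
  obtain ⟨y₀, hy₀c, hy₀⟩ := p1a_bd w hw
  have hcoer : ∀ φ ∈ S.dom, ZeroOn (out 0 w) φ → lam * ∫ x, φ x * φ x ∂μ ≤ (1 / 2) * S.E φ φ := by
    intro φ hφ h0
    have e1 : ∫ x, φ x * φ x ∂μ = ∫ x in cell w, φ x * φ x ∂μ := by
      symm
      apply setIntegral_eq_integral_of_forall_compl_eq_zero
      intro x hx
      have : x ∈ out 0 w := by
        by_contra hcon
        exact hx (p1a_mem_cell hcon)
      rw [h0 x this, mul_zero]
    have e2 : ‖∫ x in cell w, φ x * φ x ∂μ‖ ≤ (C₀ * (S.ρ ^ w.length)⁻¹ * S.E φ φ) * μ.real (cell w) := by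
      apply norm_setIntegral_le_of_norm_le_const (measure_lt_top μ _)
      intro x _
      have := hsup w hw φ hφ h0 x
      rw [Real.norm_eq_abs, ← sq, abs_of_nonneg (sq_nonneg _)]
      exact this
    rw [e1]
    have e3 := (le_abs_self _).trans e2
    have e4 : lam * ((C₀ * (S.ρ ^ w.length)⁻¹ * S.E φ φ) * μ.real (cell w)) = 1 / 2 * S.E φ φ := by
      have : μ.real (cell w) = m := rfl
      rw [this, hlam]
      field_simp
    rw [← e4]
    exact mul_le_mul_of_nonneg_left e3 hlam0.le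
  obtain ⟨v, hv, hv0, hvE⟩ := solve S (A := out 0 w) ⟨y₀, hy₀⟩ (p1aP μ (-lam))
    (fun f g => by
      rw [p1aP_apply, p1aP_apply]
      congr 1
      refine integral_congr_ae (Eventually.of_forall fun x => ?_)
      exact mul_comm _ _)
    (B := lam * μ.real Set.univ)
    (fun f g => by
      rw [p1aP_apply, abs_mul, abs_neg, abs_of_pos hlam0, mul_assoc, mul_assoc]
      refine mul_le_mul_of_nonneg_left ?_ hlam0.le
      have := norm_integral_le_of_norm_le_const (μ := μ) (f := fun x => f x * g x)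
        (C := ‖f‖ * ‖g‖) (Eventually.of_forall fun x => by
          rw [norm_mul]
          exact mul_le_mul (f.norm_coe_le_norm x) (g.norm_coe_le_norm x) (norm_nonneg _)
            (norm_nonneg _))
      rw [Real.norm_eq_abs] at this
      rw [mul_comm (μ.real Set.univ)]
      exact this)
    (c := 1 / 2) (by norm_num)
    (fun φ hφ h0 => by
      have := hcoer φ hφ h0
      rw [p1aP_apply]
      linarith)
    (fun χ => lam * ∫ x, χ x ∂μ)
    (fun f _ g _ => by
      have e : (fun x => (f + g) x) = fun x => f x + g x := rfl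
      show lam * ∫ x, (f + g) x ∂μ = _
      rw [e, integral_add (p1a_int μ f.continuous) (p1a_int μ g.continuous), mul_add])
    (fun a f _ => by
      have e : (fun x => (a • f) x) = fun x => a * f x := rfl
      show lam * ∫ x, (a • f) x ∂μ = _
      rw [e, integral_const_mul]
      ring)
    (D := lam * (Real.sqrt (C₀ * (S.ρ ^ w.length)⁻¹) * μ.real Set.univ))
    (fun φ hφ h0 => by
      rw [abs_mul, abs_of_pos hlam0, mul_assoc]
      refine mul_le_mul_of_nonneg_left ?_ hlam0.le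
      have := norm_integral_le_of_norm_le_const (μ := μ) (f := fun x => φ x)
        (C := Real.sqrt (C₀ * (S.ρ ^ w.length)⁻¹) * Real.sqrt (S.E φ φ))
        (Eventually.of_forall fun x => by
          rw [Real.norm_eq_abs, ← Real.sqrt_mul (by positivity)]
          exact Real.abs_le_sqrt (hsup w hw φ hφ h0 x))
      rw [Real.norm_eq_abs] at this
      refine this.trans (le_of_eq ?_)
      ring)
  have hvE' : ∀ χ ∈ S.dom, ZeroOn (out 0 w) χ →
      S.E v χ = lam * ∫ x, v x * χ x ∂μ + lam * ∫ x, χ x ∂μ := by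
    intro χ hχ h0
    have := hvE χ hχ h0
    rw [p1aP_apply] at this
    linarith
  -- v is non-negative
  have hvn : (-v) ⊔ 0 = 0 := by
    have hn := S.pos_mem (S.dom.neg_mem hv)
    have hn0 : ZeroOn (out 0 w) ((-v) ⊔ 0) := by
      intro x hx
      show max (-(v x)) 0 = 0
      rw [hv0 x hx]; simp
    have e1 := hvE' _ hn hn0
    have e2 : S.E v ((-v) ⊔ 0) ≤ - S.E ((-v) ⊔ 0) ((-v) ⊔ 0) := by
      have := S.E_pos_pos_le (S.dom.neg_mem hv)
      rw [S.E_neg_left hv hn] at this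
      linarith
    have e3 : ∫ x, v x * ((-v) ⊔ 0) x ∂μ = - ∫ x, ((-v) ⊔ 0) x * ((-v) ⊔ 0) x ∂μ := by
      rw [← integral_neg]
      congr 1
      funext x
      show v x * max (-(v x)) 0 = -(max (-(v x)) 0 * max (-(v x)) 0)
      rcases le_total 0 (v x) with h | h
      · rw [max_eq_right (by linarith)]; ring
      · rw [max_eq_left (by linarith)]; ring
    have e4 : 0 ≤ ∫ x, ((-v) ⊔ 0) x ∂μ := integral_nonneg (fun x => le_max_right _ _)
    have e5 := hcoer _ hn hn0
    have e6 := mul_nonneg hlam0.le e4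
    rw [e3] at e1
    refine S.eq_zero_of_E hn ?_ (hn0 y₀ hy₀)
    linarith
  have hvpos : ∀ x, 0 ≤ v x := by
    intro x
    have e : ((-v) ⊔ 0) x = 0 := by rw [hvn]; rfl
    have e' : max (-(v x)) 0 = 0 := e
    have := le_max_left (-(v x)) 0
    linarith
  -- the caloric function
  set φ : C(K, ℝ) := ContinuousMap.const K 1 + v with hφdef
  have hφ : φ ∈ S.dom := S.dom.add_mem (S.const_mem 1) hv
  have hφx : ∀ x, φ x = 1 + v x := fun x => rfl
  have hφE : ∀ χ ∈ S.dom, ZeroOn (out 0 w) χ → S.E φ χ = lam * ∫ x, φ x * χ x ∂μ := by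
    intro χ hχ h0
    rw [hφdef, S.E_add _ (S.const_mem 1) v hv χ hχ, S.E_const_left 1 hχ, hvE' χ hχ h0, zero_add,
      ← mul_add, ← integral_add (p1a_mul μ v χ) (p1a_int μ χ.continuous)]
    congr 2
    funext x
    show v x * χ x + χ x = (1 + v x) * χ x
    ring
  set r : ℝ := κ * dlt θ w with hr
  have hr0 : 0 < r := by positivity
  have hrR : r ≤ R₀ := (mul_le_mul_of_nonneg_left (hdlt w) hκ.le).trans hκ2
  have hcal : Caloric S μ 0 (0 + C₄ * r ^ (2 : ℝ)) {y | θ x₀ y < r}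
      (fun t => Real.exp (-lam * t) • φ) := by
    refine ⟨fun t _ => S.dom.smul_mem _ hφ, ?_, ?_⟩
    · have e : (fun t : ℝ => S.E (Real.exp (-lam * t) • φ) (Real.exp (-lam * t) • φ)) =
          fun t => Real.exp (-lam * t) ^ 2 * S.E φ φ := by
        funext t
        exact S.E_smul_self _ hφ
      rw [e]
      fun_prop
    · refine ⟨fun t => (Real.exp (-lam * t) * (-lam)) • φ, by fun_prop, fun t _ => ⟨?_, ?_⟩⟩
      · have e1 : HasDerivAt (fun t : ℝ => -lam * t) (-lam) t := by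
          simpa using (hasDerivAt_id t).const_mul (-lam)
        exact e1.exp.smul_const φ
      · intro ψ hψ hψ0
        have hψz : ZeroOn (out 0 w) ψ := by
          intro x hx
          apply hψ0
          intro hcon
          exact (hballcell x hcon).2 hx
        rw [S.E_smul _ φ hφ ψ hψ, hφE ψ hψ hψz]
        have e2 : (fun x => ((Real.exp (-lam * t) * (-lam)) • φ) x * ψ x) =
            fun x => (Real.exp (-lam * t) * (-lam)) * (φ x * ψ x) := by
          funext x
          show (Real.exp (-lam * t) * (-lam)) * φ x * ψ x = _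
          ring
        rw [e2, integral_const_mul]
        ring
  have hφ1 : ∀ x, 1 ≤ φ x := fun x => by
    rw [hφx]
    linarith [hvpos x]
  have hr2 : r ^ (2 : ℝ) = r ^ 2 := Real.rpow_two r
  have hr2pos : 0 < r ^ (2 : ℝ) := by rw [hr2]; positivity
  have key := hphi x₀ 0 r hr0 hrR (fun t => Real.exp (-lam * t) • φ) hcal
    (fun t _ y _ => by
      show 0 ≤ Real.exp (-lam * t) * φ y
      have := hφ1 y
      positivity)
    ((C₁ + C₂) / 2 * r ^ (2 : ℝ))
    ⟨by nlinarith, by nlinarith⟩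
    ((C₃ + C₄) / 2 * r ^ (2 : ℝ))
    ⟨by nlinarith, by nlinarith⟩ x₀ x₀
    (by rw [hself]; positivity) (by rw [hself]; positivity)
  have key2 : Real.exp (-lam * ((C₁ + C₂) / 2 * r ^ (2 : ℝ))) * φ x₀ ≤
      C₅ * (Real.exp (-lam * ((C₃ + C₄) / 2 * r ^ (2 : ℝ))) * φ x₀) := key
  have hφ0 : 0 < φ x₀ := by linarith [hφ1 x₀]
  have key3 : Real.exp (-lam * ((C₁ + C₂) / 2 * r ^ (2 : ℝ))) ≤
      C₅ * Real.exp (-lam * ((C₃ + C₄) / 2 * r ^ (2 : ℝ))) := by
    refine le_of_mul_le_mul_right (key2.trans (le_of_eq ?_)) hφ0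
    ring
  have key4 : Real.exp (lam * (c * r ^ 2)) ≤ C₅ := by
    have e1 : Real.exp (lam * (c * r ^ 2)) = Real.exp (-lam * ((C₁ + C₂) / 2 * r ^ (2 : ℝ))) /
        Real.exp (-lam * ((C₃ + C₄) / 2 * r ^ (2 : ℝ))) := by
      rw [← Real.exp_sub]
      congr 1
      rw [hr2, hcdef]
      ring
    rw [e1, div_le_iff₀ (Real.exp_pos _)]
    exact key3
  have key5 : lam * (c * r ^ 2) ≤ |Real.log C₅| + 1 := by
    have := Real.log_le_log (Real.exp_pos _) key4
    rw [Real.log_exp] at this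
    have := le_abs_self (Real.log C₅)
    linarith
  have key6 : dlt θ w ^ 2 ≤ 2 * C₀ * (|Real.log C₅| + 1) / (c * κ ^ 2) * (S.ρ ^ w.length)⁻¹ * m := by
    have e1 : dlt θ w ^ 2 = (lam * (c * r ^ 2)) * (2 * C₀ / (c * κ ^ 2) * (S.ρ ^ w.length)⁻¹ * m) := by
      rw [hlam, hr]
      field_simp
    rw [e1]
    have e2 : 0 ≤ 2 * C₀ / (c * κ ^ 2) * (S.ρ ^ w.length)⁻¹ * m := by positivity
    refine (mul_le_mul_of_nonneg_right key5 e2).trans (le_of_eq ?_)
    ring
  refine key6.trans ?_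
  have e3 : 0 ≤ D ^ 2 / (μ Set.univ).toReal := by positivity
  have e4 : 0 ≤ (S.ρ ^ w.length)⁻¹ := by positivity
  gcongr
  linarith

end Pool.Agent.Helper67.SC
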