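import Pool.Agent.Helper67.SC.P1a
import Pool.Agent.Helper67.SC.P0
import Pool.Agent.Helper67.SC.F4b

/-! Module P1b: lower bound from the parabolic Harnack inequality. -/

open MeasureTheory Filter Topology

noncomputable section

namespace Pool.Agent.Helper67.SC

/-- Existence of the non-negative `κ`-harmonic function off `y₀` with value `1` at `y₀`. -/
theorem p1b_psi (S : CarForm) (μ : Measure K) [IsFiniteMeasure μ] (y₀ : K) {κ : ℝ} (hκ : 0 < κ) :
    ∃ ψ ∈ S.dom, ψ y₀ = 1 ∧ (∀ x, 0 ≤ ψ x) ∧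
      ∀ χ ∈ S.dom, χ y₀ = 0 → S.E ψ χ = -(κ * ∫ x, ψ x * χ x ∂μ) := by
  obtain ⟨C, hC, hosc⟩ := S.osc
  obtain ⟨v, hv, hv0, hvE⟩ := solve S (A := {y₀}) ⟨y₀, rfl⟩ (p1aP μ κ)
    (fun f g => by
      rw [p1aP_apply, p1aP_apply]
      congr 1
      refine integral_congr_ae (Eventually.of_forall fun x => ?_)
      exact mul_comm _ _)
    (B := κ * μ.real Set.univ)
    (fun f g => by
      rw [p1aP_apply, abs_mul, abs_of_pos hκ, mul_assoc, mul_assoc]
      refine mul_le_mul_of_nonneg_left ?_ hκ.le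
      have := norm_integral_le_of_norm_le_const (μ := μ) (f := fun x => f x * g x)
        (C := ‖f‖ * ‖g‖) (Eventually.of_forall fun x => by
          rw [norm_mul]
          exact mul_le_mul (f.norm_coe_le_norm x) (g.norm_coe_le_norm x) (norm_nonneg _)
            (norm_nonneg _))
      rw [Real.norm_eq_abs] at this
      rw [mul_comm (μ.real Set.univ)]
      exact this)
    (c := 1) one_pos
    (fun φ hφ h0 => by
      have h1 : 0 ≤ ∫ x, φ x * φ x ∂μ := integral_nonneg fun x => mul_self_nonneg _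
      have h2 := mul_nonneg hκ.le h1
      rw [p1aP_apply]
      linarith)
    (fun χ => -(κ * ∫ x, χ x ∂μ))
    (fun f _ g _ => by
      have e : (fun x => (f + g) x) = fun x => f x + g x := rfl
      show -(κ * ∫ x, (f + g) x ∂μ) = _
      rw [e, integral_add (p1a_int μ f.continuous) (p1a_int μ g.continuous)]
      ring)
    (fun a f _ => by
      have e : (fun x => (a • f) x) = fun x => a * f x := rfl
      show -(κ * ∫ x, (a • f) x ∂μ) = _
      rw [e, integral_const_mul]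
      ring)
    (D := κ * (C * μ.real Set.univ))
    (fun φ hφ h0 => by
      rw [abs_neg, abs_mul, abs_of_pos hκ, mul_assoc]
      refine mul_le_mul_of_nonneg_left ?_ hκ.le
      have := norm_integral_le_of_norm_le_const (μ := μ) (f := fun x => φ x)
        (C := C * Real.sqrt (S.E φ φ))
        (Eventually.of_forall fun x => by
          have h1 := hosc φ hφ x y₀
          rw [h0 y₀ rfl, sub_zero] at h1
          rw [Real.norm_eq_abs]
          exact h1)
      rw [Real.norm_eq_abs] at this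
      refine this.trans (le_of_eq ?_)
      ring)
  set ψ : C(K, ℝ) := ContinuousMap.const K 1 + v with hψdef
  have hψ : ψ ∈ S.dom := S.dom.add_mem (S.const_mem 1) hv
  have hψx : ∀ x, ψ x = 1 + v x := fun x => rfl
  have hψ1 : ψ y₀ = 1 := by rw [hψx, hv0 y₀ rfl, add_zero]
  have hE : ∀ χ ∈ S.dom, χ y₀ = 0 → S.E ψ χ = -(κ * ∫ x, ψ x * χ x ∂μ) := by
    intro χ hχ h0
    have h1 := hvE χ hχ (fun x hx => by
      rw [Set.mem_singleton_iff] at hx
      rw [hx, h0])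
    rw [p1aP_apply] at h1
    have h2 : ∫ x, ψ x * χ x ∂μ = ∫ x, v x * χ x ∂μ + ∫ x, χ x ∂μ := by
      rw [← integral_add (p1a_mul μ v χ) (p1a_int μ χ.continuous)]
      congr 1
      funext x
      rw [hψx]
      ring
    rw [hψdef, S.E_add _ (S.const_mem 1) v hv χ hχ, S.E_const_left 1 hχ, zero_add, ← hψdef, h2]
    linarith
  refine ⟨ψ, hψ, hψ1, ?_, hE⟩
  have hn := S.pos_mem (S.dom.neg_mem hψ)
  have hn0 : ((-ψ) ⊔ 0) y₀ = 0 := by
    show max (-(ψ y₀)) 0 = 0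
    rw [hψ1]; norm_num
  have e1 := hE _ hn hn0
  have e2 : S.E ψ ((-ψ) ⊔ 0) ≤ - S.E ((-ψ) ⊔ 0) ((-ψ) ⊔ 0) := by
    have := S.E_pos_pos_le (S.dom.neg_mem hψ)
    rw [S.E_neg_left hψ hn] at this
    linarith
  have e3 : ∫ x, ψ x * ((-ψ) ⊔ 0) x ∂μ = - ∫ x, ((-ψ) ⊔ 0) x * ((-ψ) ⊔ 0) x ∂μ := by
    rw [← integral_neg]
    congr 1
    funext x
    show ψ x * max (-(ψ x)) 0 = -(max (-(ψ x)) 0 * max (-(ψ x)) 0)
    rcases le_total 0 (ψ x) with h | h
    · rw [max_eq_right (by linarith)]; ring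
    · rw [max_eq_left (by linarith)]; ring
  have e4 : 0 ≤ ∫ x, ((-ψ) ⊔ 0) x * ((-ψ) ⊔ 0) x ∂μ := integral_nonneg fun x => mul_self_nonneg _
  have e5 := mul_nonneg hκ.le e4
  rw [e3] at e1
  have hz := S.eq_zero_of_E hn (by linarith) hn0
  intro x
  have e : ((-ψ) ⊔ 0) x = 0 := by rw [hz]; rfl
  have e' : max (-(ψ x)) 0 = 0 := e
  have := le_max_left (-(ψ x)) 0
  linarith

/-- Harnack inequality for `κ`-harmonic functions on small balls. -/
theorem p1b_harnack (S : CarForm) {θ : K → K → ℝ} (μ : Measure K) [IsFiniteMeasure μ]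
    (h : PHI S θ μ 2) :
    ∃ δ C₆ R₀ : ℝ, 0 < δ ∧ 1 ≤ C₆ ∧ 0 < R₀ ∧ ∀ (y₀ : K) (κ r : ℝ) (ψ : C(K, ℝ)), 0 < κ → 0 < r →
      r ≤ R₀ → κ * r ^ 2 ≤ 1 → ψ ∈ S.dom → (∀ x, 0 ≤ ψ x) →
      (∀ χ ∈ S.dom, χ y₀ = 0 → S.E ψ χ = -(κ * ∫ x, ψ x * χ x ∂μ)) →
      ∀ x, r ≤ θ x y₀ → ∀ y z, θ x y < δ * r → θ x z < δ * r → ψ y ≤ C₆ * ψ z := by
  obtain ⟨C₁, C₂, C₃, C₄, C₅, δ, R₀, h1, h12, h23, h34, h5, hδ, hδ1, hR, hphi⟩ := h
  refine ⟨δ, max 1 (C₅ * Real.exp C₄), R₀, hδ, le_max_left _ _, hR, ?_⟩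
  intro y₀ κ r ψ hκ hr hrR hκr hψ hψ0 hψE x hxy y z hy hz
  have hcal : Caloric S μ 0 (0 + C₄ * r ^ (2 : ℝ)) {y | θ x y < r}
      (fun t => Real.exp (κ * t) • ψ) := by
    refine ⟨fun t _ => S.dom.smul_mem _ hψ, ?_, ?_⟩
    · have e : (fun t : ℝ => S.E (Real.exp (κ * t) • ψ) (Real.exp (κ * t) • ψ)) =
          fun t => Real.exp (κ * t) ^ 2 * S.E ψ ψ := by
        funext t
        exact S.E_smul_self _ hψ
      rw [e]
      fun_prop
    · refine ⟨fun t => (Real.exp (κ * t) * κ) • ψ, by fun_prop, fun t _ => ⟨?_, ?_⟩⟩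
      · have e1 : HasDerivAt (fun t : ℝ => κ * t) κ t := by
          simpa using (hasDerivAt_id t).const_mul κ
        exact e1.exp.smul_const ψ
      · intro χ hχ hχ0
        have hχz : χ y₀ = 0 := by
          apply hχ0
          intro hcon
          have : θ x y₀ < r := hcon
          linarith
        rw [S.E_smul _ ψ hψ χ hχ, hψE χ hχ hχz]
        have e2 : (fun x => ((Real.exp (κ * t) * κ) • ψ) x * χ x) =
            fun x => (Real.exp (κ * t) * κ) * (ψ x * χ x) := by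
          funext x
          show (Real.exp (κ * t) * κ) * ψ x * χ x = _
          ring
        rw [e2, integral_const_mul]
        ring
  have hr2 : r ^ (2 : ℝ) = r ^ 2 := Real.rpow_two r
  have hr2pos : 0 < r ^ (2 : ℝ) := by rw [hr2]; positivity
  have key := hphi x 0 r hr hrR (fun t => Real.exp (κ * t) • ψ) hcal
    (fun t _ y _ => by
      show 0 ≤ Real.exp (κ * t) * ψ y
      have := hψ0 y
      positivity)
    ((C₁ + C₂) / 2 * r ^ (2 : ℝ))
    ⟨by nlinarith, by nlinarith⟩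
    ((C₃ + C₄) / 2 * r ^ (2 : ℝ))
    ⟨by nlinarith, by nlinarith⟩ y z hy hz
  have key2 : Real.exp (κ * ((C₁ + C₂) / 2 * r ^ (2 : ℝ))) * ψ y ≤
      C₅ * (Real.exp (κ * ((C₃ + C₄) / 2 * r ^ (2 : ℝ))) * ψ z) := key
  have a1 : ψ y ≤ Real.exp (κ * ((C₁ + C₂) / 2 * r ^ (2 : ℝ))) * ψ y := by
    have : 1 ≤ Real.exp (κ * ((C₁ + C₂) / 2 * r ^ (2 : ℝ))) := by
      apply Real.one_le_exp
      have : 0 < C₂ := h1.trans h12
      positivity
    have := mul_le_mul_of_nonneg_right this (hψ0 y)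
    linarith
  have a2 : Real.exp (κ * ((C₃ + C₄) / 2 * r ^ (2 : ℝ))) ≤ Real.exp C₄ := by
    apply Real.exp_le_exp.2
    rw [hr2]
    have hC4 : 0 < C₄ := ((h1.trans h12).trans h23).trans h34
    have b1 : κ * ((C₃ + C₄) / 2 * r ^ 2) = (C₃ + C₄) / 2 * (κ * r ^ 2) := by ring
    rw [b1]
    have b2 : (C₃ + C₄) / 2 ≤ C₄ := by linarith
    have b3 : 0 ≤ κ * r ^ 2 := by positivity
    calc (C₃ + C₄) / 2 * (κ * r ^ 2) ≤ C₄ * (κ * r ^ 2) := mul_le_mul_of_nonneg_right b2 b3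
      _ ≤ C₄ * 1 := mul_le_mul_of_nonneg_left hκr hC4.le
      _ = C₄ := mul_one _
  calc ψ y ≤ _ := a1
    _ ≤ _ := key2
    _ ≤ C₅ * (Real.exp C₄ * ψ z) := by
        refine mul_le_mul_of_nonneg_left ?_ h5.le
        exact mul_le_mul_of_nonneg_right a2 (hψ0 z)
    _ = (C₅ * Real.exp C₄) * ψ z := by ring
    _ ≤ max 1 (C₅ * Real.exp C₄) * ψ z :=
        mul_le_mul_of_nonneg_right (le_max_right _ _) (hψ0 z)

/-- Positivity. -/
theorem p1b_pos (S : CarForm) {θ : K → K → ℝ} (hθ : Gauge θ) (μ : Measure K) [IsFiniteMeasure μ]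
    (h : PHI S θ μ 2) {y₀ : K} {κ : ℝ} {ψ : C(K, ℝ)} (hκ : 0 < κ) (hψ : ψ ∈ S.dom)
    (h1 : ψ y₀ = 1) (h0 : ∀ x, 0 ≤ ψ x)
    (hE : ∀ χ ∈ S.dom, χ y₀ = 0 → S.E ψ χ = -(κ * ∫ x, ψ x * χ x ∂μ)) (x : K) : 0 < ψ x := by
  obtain ⟨δ, C₆, R₀, hδ, hC₆, hR₀, hH⟩ := p1b_harnack S μ h
  have hself : ∀ x, θ x x = 0 := fun x => (hθ.zero_iff x x).2 rfl
  have hcl : IsClopen {x : K | ψ x = 0} := by
    refine ⟨isClosed_eq ψ.continuous continuous_const, ?_⟩
    rw [isOpen_iff_mem_nhds]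
    intro x hx
    have hx0 : ψ x = 0 := hx
    have hne : x ≠ y₀ := by
      rintro rfl
      rw [h1] at hx0
      exact one_ne_zero hx0
    have hpos : 0 < θ x y₀ := lt_of_le_of_ne (hθ.nonneg x y₀)
      (fun hcon => hne ((hθ.zero_iff x y₀).1 hcon.symm))
    obtain ⟨r, hr, hr1, hr2, hr3⟩ : ∃ r : ℝ, 0 < r ∧ r ≤ θ x y₀ ∧ r ≤ R₀ ∧ κ * r ^ 2 ≤ 1 := by
      refine ⟨min (θ x y₀) (min R₀ (Real.sqrt κ⁻¹)), by positivity, min_le_left _ _,
        (min_le_right _ _).trans (min_le_left _ _), ?_⟩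
      have hb : min (θ x y₀) (min R₀ (Real.sqrt κ⁻¹)) ≤ Real.sqrt κ⁻¹ :=
        (min_le_right _ _).trans (min_le_right _ _)
      have hb0 : 0 ≤ min (θ x y₀) (min R₀ (Real.sqrt κ⁻¹)) := by positivity
      calc κ * (min (θ x y₀) (min R₀ (Real.sqrt κ⁻¹))) ^ 2 ≤ κ * (Real.sqrt κ⁻¹) ^ 2 :=
            mul_le_mul_of_nonneg_left (pow_le_pow_left₀ hb0 hb 2) hκ.le
        _ = 1 := by rw [Real.sq_sqrt (by positivity)]; exact mul_inv_cancel₀ hκ.ne'
    have hopen := isOpen_ball hθ x (δ * r)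
    refine Filter.mem_of_superset (hopen.mem_nhds ?_) ?_
    · show θ x x < δ * r
      rw [hself]; positivity
    · intro y hy
      have h2 := hH y₀ κ r ψ hκ hr hr2 hr3 hψ h0 hE x hr1 y x hy (by rw [hself]; positivity)
      rw [hx0, mul_zero] at h2
      exact le_antisymm h2 (h0 y)
  rcases isClopen_iff.1 hcl with h2 | h2
  · have hx : ψ x ≠ 0 := by
      intro hcon
      have : x ∈ {x : K | ψ x = 0} := hcon
      rw [h2] at this
      exact this
    exact lt_of_le_of_ne (h0 x) (Ne.symm hx)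
  · exfalso
    have : y₀ ∈ {x : K | ψ x = 0} := by rw [h2]; trivial
    have h3 : ψ y₀ = 0 := this
    rw [h1] at h3
    exact one_ne_zero h3

/-- Harnack chain along a list of words below `u`. -/
theorem p1b_chain_aux (u : List Dig) (k : ℕ) (ψ : C(K, ℝ)) (C₆ : ℝ) (hC : 1 ≤ C₆)
    (h0 : ∀ x, 0 ≤ ψ x)
    (hh : ∀ t : List Dig, t.length = k → ∀ a ∈ cell (u ++ t), ∀ b ∈ cell (u ++ t), ψ a ≤ C₆ * ψ b) :
    ∀ (l : List (List Dig)) (t : List Dig), t.length = k → (∀ a ∈ l, a.length = k) →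
      List.IsChain (near 1) (t :: l) → ∀ a ∈ cell (u ++ t),
      ∀ b ∈ cell (u ++ (t :: l).getLast (List.cons_ne_nil _ _)), ψ a ≤ C₆ ^ (l.length + 1) * ψ b := by
  intro l
  induction l with
  | nil =>
    intro t ht _ _ a ha b hb
    simp only [List.getLast_singleton] at hb
    simpa using hh t ht a ha b hb
  | cons s l ih =>
    intro t ht hl hch a ha b hb
    have hs : s.length = k := hl s (by simp)
    rw [List.isChain_cons_cons] at hch
    have hn : near 1 (u ++ t) (u ++ s) := (near_append_left u t s (ht.trans hs.symm)).2 hch.1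
    obtain ⟨z, hz1, hz2⟩ := exists_common (by simp [ht, hs]) hn
    have h1 := hh t ht a ha z hz1
    have h2 := ih s hs (fun a ha => hl a (by simp [ha])) hch.2 z hz2 b (by
      rw [List.getLast_cons_cons] at hb
      exact hb)
    have hC0 : 0 ≤ C₆ := by linarith
    calc ψ a ≤ C₆ * ψ z := h1
      _ ≤ C₆ * (C₆ ^ (l.length + 1) * ψ b) := mul_le_mul_of_nonneg_left h2 hC0
      _ = C₆ ^ ((s :: l).length + 1) * ψ b := by
          rw [List.length_cons, pow_succ C₆ (l.length + 1)]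
          ring

/-- Harnack inequality on a cell from that on the cells `k` levels below. -/
theorem p1b_chain (k : ℕ) : ∃ N : ℕ, ∀ (u : List Dig) (ψ : C(K, ℝ)) (C₆ : ℝ), 1 ≤ C₆ →
    (∀ x, 0 ≤ ψ x) →
    (∀ t : List Dig, t.length = k → ∀ a ∈ cell (u ++ t), ∀ b ∈ cell (u ++ t), ψ a ≤ C₆ * ψ b) →
    ∀ a ∈ cell u, ∀ b ∈ cell u, ψ a ≤ C₆ ^ N * ψ b := by
  obtain ⟨N, hN⟩ := linked_words_len k
  refine ⟨N + 1, ?_⟩
  intro u ψ C₆ hC h0 hh a ha b hb
  obtain ⟨t, ht, hat⟩ := exists_cell_append u k ha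
  obtain ⟨t', ht', hbt⟩ := exists_cell_append u k hb
  obtain ⟨l, hl, hlk, hch, hlast⟩ := hN t t' ht ht'
  have h1 := p1b_chain_aux u k ψ C₆ hC h0 hh l t ht hlk hch a hat b (by rw [hlast]; exact hbt)
  refine h1.trans (mul_le_mul_of_nonneg_right ?_ (h0 b))
  exact pow_le_pow_right₀ hC (by omega)

/-- A point far from `w`. -/
theorem p1b_far (w : List Dig) (hw : 3 ≤ w.length) : ∃ y₀ : K, y₀ ∈ out 6 w := by
  by_cases h : 6 < (pos w).1
  · exact ⟨c00, left_subset_out h (by simp [left, c00])⟩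
  · refine ⟨c11, right_subset_out ?_ (by simp [right, c11])⟩
    have h3 : (3 : ℤ) ^ 3 ≤ 3 ^ w.length := pow_le_pow_right₀ (by norm_num) hw
    norm_num at h3
    omega

/-- Positivity and Harnack inequality for `κ`-harmonic functions: let `y₀` be a point,
`ψ` in the domain with `ψ y₀ = 1`, `ψ ≥ 0`, `E ψ χ = - κ ∫ ψ χ` for `χ` vanishing at `y₀`. `PHI` for
`u t = exp (κ t) ψ` on balls of radius `r ≤ κ^{-1/2}` not containing `y₀` gives
`ψ y ≤ C ψ z` for `y, z` in `B(x, δ r)`; the zero set of `ψ` is open and closed, so `ψ > 0`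
(`K` connected). Lower bound `ρ^{-n} μ(K_w) ≤ C δ_w²` for `|w| ≥ 3`: take `y₀` off `inn 6 w`,
`κ = r^{-2}`, `r = c δ_w`, existence of `ψ` by `solve` (`P f g = κ ∫ f g`), Harnack chain below the
parents of the cells of `inn 2 w`, so `ψ ≥ c M` on the cell of `w`, `M = C sup_{inn 2 w} ψ > 0`;
`ψ` is subharmonic off `y₀`, so `en ψ s ≤ C M²` for
`s` near `w` (`cacc_sub`); with the cutoff `χ` of `exists_cutoff 0`,
`κ c M μ(K_w) ≤ κ ∫ ψ χ = - E ψ χ ≤ C ρ^n M`. For `|w| < 3` use finiteness. -/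
theorem phi_lower (S : CarForm) {θ : K → K → ℝ} (hθ : Gauge θ) (μ : Measure K)
    [IsFiniteMeasure μ] (hμ : ∀ U : Set K, IsOpen U → U.Nonempty → 0 < μ U) (h : PHI S θ μ 2) :
    ∃ C : ℝ, 0 < C ∧ ∀ w : List Dig,
      (S.ρ ^ w.length)⁻¹ * (μ (cell w)).toReal ≤ C * dlt θ w ^ 2 := by
  obtain ⟨δ, C₆, R₀, hδ, hC₆, hR₀, hH⟩ := p1b_harnack S μ h
  obtain ⟨κ₁, hκ₁, hball⟩ := exists_ball_subset_inn hθ 5
  obtain ⟨D, hD, hdlt, -⟩ := dlt_le hθ
  have hself : ∀ x, θ x x = 0 := fun x => (hθ.zero_iff x x).2 rfl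
  obtain ⟨c, hc, hc1, hc2⟩ : ∃ c : ℝ, 0 < c ∧ c ≤ κ₁ ∧ c * D ≤ R₀ := by
    refine ⟨min κ₁ (R₀ / D), lt_min hκ₁ (by positivity), min_le_left _ _, ?_⟩
    calc min κ₁ (R₀ / D) * D ≤ R₀ / D * D :=
          mul_le_mul_of_nonneg_right (min_le_right _ _) hD.le
      _ = R₀ := by field_simp
  obtain ⟨k, hk⟩ := exists_small hθ 5 (ε := δ * c) (by positivity)
  obtain ⟨N, hN⟩ := p1b_chain (k + 1)
  obtain ⟨Cc, hCc, hcacc⟩ := cacc_sub S
  obtain ⟨Cx, hCx, hcut⟩ := exists_cutoff S 0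
  set C₇ : ℝ := C₆ ^ N * C₆ ^ N with hC₇
  have hC₆N : 1 ≤ C₆ ^ N := one_le_pow₀ hC₆
  have hC₇1 : 1 ≤ C₇ := by nlinarith
  have hC₇0 : 0 < C₇ := by linarith
  have hρ : 0 < S.ρ := S.ρ_pos
  -- the main estimate
  have main : ∀ w : List Dig, 3 ≤ w.length → (S.ρ ^ w.length)⁻¹ * (μ (cell w)).toReal ≤
      (C₇ * (9 * (C₇ * (Real.sqrt Cc * Real.sqrt Cx))) * c ^ 2) * dlt θ w ^ 2 := by
    intro w hw
    obtain ⟨w', d, hwd⟩ : ∃ u d, w = u ++ [d] := by
      rcases List.eq_nil_or_concat w with h | ⟨u, d, h⟩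
      · rw [h] at hw; simp at hw
      · exact ⟨u, d, by rw [h, List.concat_eq_append]⟩
    have hd0 := dlt_pos hθ w
    obtain ⟨y₀, hy₀⟩ := p1b_far w hw
    set r : ℝ := c * dlt θ w with hr
    have hr0 : 0 < r := by positivity
    have hrR : r ≤ R₀ := (mul_le_mul_of_nonneg_left (hdlt w) hc.le).trans hc2
    have hκ : 0 < (r ^ 2)⁻¹ := by positivity
    have hκr : (r ^ 2)⁻¹ * r ^ 2 ≤ 1 := by
      rw [inv_mul_cancel₀ (by positivity)]
    obtain ⟨ψ, hψ, hψ1, hψ0, hψE⟩ := p1b_psi S μ y₀ hκ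
    have hψpos := p1b_pos S hθ μ h hκ hψ hψ1 hψ0 hψE
    -- Harnack on the small cells
    have hsmall : ∀ s v : List Dig, s.length = w.length → near 5 s w → v.length = k →
        ∀ a ∈ cell (s ++ v), ∀ b ∈ cell (s ++ v), ψ a ≤ C₆ * ψ b := by
      intro s v hs hn hv a ha b hb
      have h1 : θ a b < δ * r := by
        have := hk w s v hs hn hv a ha b hb
        rw [hr]
        linarith
      have hain : a ∈ inn 5 w := ⟨s, hs, hn, cell_append_subset s v ha⟩
      refine hH y₀ (r ^ 2)⁻¹ r ψ hκ hr0 hrR hκr hψ hψ0 hψE a ?_ a b (by rw [hself]; positivity) h1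
      by_contra hcon
      push Not at hcon
      refine hball w a hain y₀ (lt_of_lt_of_le hcon ?_) ?_
      · exact mul_le_mul_of_nonneg_right hc1 hd0.le
      · exact hy₀
    -- Harnack on the parents
    have hpar : ∀ s' : List Dig, s'.length = w'.length → near 1 s' w' →
        ∀ a ∈ cell s', ∀ b ∈ cell s', ψ a ≤ C₆ ^ N * ψ b := by
      intro s' hs' hn'
      refine hN s' ψ C₆ hC₆ hψ0 ?_
      intro t ht a ha b hb
      obtain ⟨e, v, rfl⟩ : ∃ e v, t = e :: v := by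
        cases t with
        | nil => simp at ht
        | cons e v => exact ⟨e, v, rfl⟩
      have ev : s' ++ e :: v = (s' ++ [e]) ++ v := by simp
      rw [ev] at ha hb
      refine hsmall (s' ++ [e]) v (by rw [hwd]; simp [hs']) ?_ (by simpa using ht) a ha b hb
      rw [hwd]
      unfold near at hn' ⊢
      rw [pos_append, pos_append]
      have ax := e.x_nonneg
      have ax' := e.x_le
      have ay := e.y_nonneg
      have ay' := e.y_le
      have bx := d.x_nonneg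
      have bx' := d.x_le
      have bY := d.y_nonneg
      have bY' := d.y_le
      simp only [List.length_cons, List.length_nil, zero_add, pow_one, pos, pow_zero, one_mul,
        add_zero]
      obtain ⟨g1, g2⟩ := hn'
      rw [abs_le] at g1 g2
      constructor <;> rw [abs_le] <;> constructor <;> omega
    have hw'l : w.length = w'.length + 1 := by rw [hwd]; simp
    have hcw : cell w ⊆ cell w' := by rw [hwd]; exact cell_append_subset w' [d]
    set b₀ : K := Fw w c00 with hb₀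
    have hb₀w : b₀ ∈ cell w := ⟨c00, rfl⟩
    have hup : ∀ a ∈ inn 2 w, ψ a ≤ C₇ * ψ b₀ := by
      rintro a ⟨s, hs, hn, ha⟩
      obtain ⟨s', d', hsd⟩ : ∃ u d, s = u ++ [d] := by
        rcases List.eq_nil_or_concat s with h | ⟨u, d, h⟩
        · rw [h] at hs; simp at hs; omega
        · exact ⟨u, d, by rw [h, List.concat_eq_append]⟩
      have hsl : s'.length = w'.length := by
        rw [hsd] at hs
        simp at hs
        omega
      rw [hsd, hwd] at hn
      have hn' : near 1 s' w' := near_parent hn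
      obtain ⟨z, hz1, hz2⟩ := exists_common hsl hn'
      have ha' : a ∈ cell s' := by
        rw [hsd] at ha
        exact cell_append_subset s' [d'] ha
      have h1 := hpar s' hsl hn' a ha' z hz1
      have h2 := hpar w' rfl (near_refl (by norm_num) w') z hz2 b₀ (hcw hb₀w)
      calc ψ a ≤ C₆ ^ N * ψ z := h1
        _ ≤ C₆ ^ N * (C₆ ^ N * ψ b₀) := mul_le_mul_of_nonneg_left h2 (by linarith)
        _ = C₇ * ψ b₀ := by rw [hC₇]; ring
    have hlow : ∀ b ∈ cell w, ψ b₀ ≤ C₇ * ψ b := by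
      intro b hb
      have h2 := hpar w' rfl (near_refl (by norm_num) w') b₀ (hcw hb₀w) b (hcw hb)
      refine h2.trans (mul_le_mul_of_nonneg_right ?_ (hψ0 b))
      rw [hC₇]
      nlinarith
    have hb₀pos := hψpos b₀
    -- subharmonicity
    have hsub : ∀ s : List Dig, s.length = w.length → near 1 s w → SubOff S (out 1 s) ψ := by
      intro s hs hn
      refine ⟨hψ, fun φ hφ hφ0 hz => ?_⟩
      have hy : φ y₀ = 0 := by
        apply hz
        have h1 : y₀ ∈ out (1 + 1) w := out_anti (by norm_num) w hy₀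
        exact out_subset_out hs hn h1
      rw [hψE φ hφ hy]
      have h1 : 0 ≤ ∫ x, ψ x * φ x ∂μ := integral_nonneg fun x => mul_nonneg (hψ0 x) (hφ0 x)
      have := mul_nonneg hκ.le h1
      linarith
    have hen : ∀ s : List Dig, s.length = w.length → near 1 s w →
        S.en ψ s ≤ Cc * (C₇ * ψ b₀) ^ 2 := by
      intro s hs hn
      refine hcacc s ψ (C₇ * ψ b₀) (hsub s hs hn) fun x hx => ⟨hψ0 x, hup x ?_⟩
      exact inn_subset_inn hs hn hx
    -- the cutoff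
    obtain ⟨χ, hχ, hχ01, hχ1, hχ0, hχen, -⟩ := hcut w
    have hχ0' : ZeroOn (out 1 w) χ := by
      intro x hx
      apply hχ0
      simpa using hx
    have hχ1' : ∀ x ∈ cell w, χ x = 1 := by
      intro x hx
      apply hχ1
      exact ⟨w, rfl, near_refl (by simp) w, hx⟩
    have hχy : χ y₀ = 0 := hχ0' y₀ (out_anti (by norm_num) w hy₀)
    have hE1 := hψE χ hχ hχy
    -- lower bound of the integral
    have hint : ψ b₀ / C₇ * (μ (cell w)).toReal ≤ ∫ x, ψ x * χ x ∂μ := by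
      have h1 : ∫ x in cell w, ψ b₀ / C₇ ∂μ ≤ ∫ x in cell w, ψ x * χ x ∂μ := by
        apply setIntegral_mono_on (integrable_const _).integrableOn
          (p1a_mul μ ψ χ).integrableOn (isClosed_cell w).measurableSet
        intro x hx
        rw [hχ1' x hx, mul_one, div_le_iff₀ hC₇0]
        have := hlow x hx
        linarith
      have h2 : ∫ x in cell w, ψ x * χ x ∂μ ≤ ∫ x, ψ x * χ x ∂μ := by
        apply setIntegral_le_integral (p1a_mul μ ψ χ)
        filter_upwards with x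
        exact mul_nonneg (hψ0 x) (hχ01 x).1
      rw [setIntegral_const, smul_eq_mul] at h1
      have h3 : μ.real (cell w) = (μ (cell w)).toReal := rfl
      rw [h3] at h1
      linarith
    -- upper bound of the energy
    have hEup : |S.E ψ χ| ≤ S.ρ ^ w.length * (9 * (C₇ * ψ b₀ * (Real.sqrt Cc * Real.sqrt Cx))) := by
      rw [E_eq_sum_near 1 w hψ hχ hχ0', abs_mul, abs_of_pos (pow_pos hρ _)]
      refine mul_le_mul_of_nonneg_left ?_ (pow_pos hρ _).le
      refine (Finset.abs_sum_le_sum_abs _ _).trans ?_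
      have hterm : ∀ s ∈ (words w.length).filter (fun s =>
          |(pos s).1 - (pos w).1| ≤ 1 ∧ |(pos s).2 - (pos w).2| ≤ 1),
          |S.E (ψ.comp (Fw s)) (χ.comp (Fw s))| ≤ C₇ * ψ b₀ * (Real.sqrt Cc * Real.sqrt Cx) := by
        intro s hs
        rw [Finset.mem_filter, mem_words] at hs
        have h1 := S.E_abs_le (S.comp_Fw_mem s hψ) (S.comp_Fw_mem s hχ)
        have h2 : Real.sqrt (S.en ψ s) ≤ Real.sqrt Cc * (C₇ * ψ b₀) := by
          have h3 := Real.sqrt_le_sqrt (hen s hs.1 hs.2)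
          rwa [Real.sqrt_mul hCc.le, Real.sqrt_sq (by positivity)] at h3
        have h4 : Real.sqrt (S.en χ s) ≤ Real.sqrt Cx := Real.sqrt_le_sqrt (hχen s hs.1)
        refine h1.trans ((mul_le_mul h2 h4 (Real.sqrt_nonneg _) (by positivity)).trans
          (le_of_eq ?_))
        ring
      refine (Finset.sum_le_card_nsmul _ _ _ hterm).trans ?_
      rw [nsmul_eq_mul]
      refine mul_le_mul_of_nonneg_right ?_ (by positivity)
      have hcard := card_near_le 1 w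
      norm_num at hcard
      exact_mod_cast hcard
    have hfin : (r ^ 2)⁻¹ * (ψ b₀ / C₇ * (μ (cell w)).toReal) ≤
        S.ρ ^ w.length * (9 * (C₇ * ψ b₀ * (Real.sqrt Cc * Real.sqrt Cx))) := by
      calc _ ≤ (r ^ 2)⁻¹ * ∫ x, ψ x * χ x ∂μ := mul_le_mul_of_nonneg_left hint hκ.le
        _ = - S.E ψ χ := by rw [hE1]; ring
        _ ≤ |S.E ψ χ| := neg_le_abs _
        _ ≤ _ := hEup
    have hρn : 0 < S.ρ ^ w.length := pow_pos hρ _
    have e1 : (S.ρ ^ w.length)⁻¹ * (μ (cell w)).toReal =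
        ((r ^ 2)⁻¹ * (ψ b₀ / C₇ * (μ (cell w)).toReal)) *
          (r ^ 2 * C₇ * (ψ b₀)⁻¹ * (S.ρ ^ w.length)⁻¹) := by
      field_simp
    rw [e1]
    have e2 : 0 ≤ r ^ 2 * C₇ * (ψ b₀)⁻¹ * (S.ρ ^ w.length)⁻¹ := by positivity
    refine (mul_le_mul_of_nonneg_right hfin e2).trans (le_of_eq ?_)
    rw [hr]
    field_simp
  -- short words
  obtain ⟨C₀, hC₀, hshort⟩ : ∃ C₀ : ℝ, 0 < C₀ ∧ ∀ w : List Dig, w.length < 3 →
      (S.ρ ^ w.length)⁻¹ * (μ (cell w)).toReal ≤ C₀ * dlt θ w ^ 2 := by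
    have hf : ∀ w : List Dig, 0 ≤ (S.ρ ^ w.length)⁻¹ * (μ (cell w)).toReal / dlt θ w ^ 2 := by
      intro w
      have := pow_pos hρ w.length
      positivity
    refine ⟨1 + ∑ n ∈ Finset.range 3, ∑ w ∈ words n,
      (S.ρ ^ w.length)⁻¹ * (μ (cell w)).toReal / dlt θ w ^ 2, ?_, fun w hw => ?_⟩
    · have : 0 ≤ ∑ n ∈ Finset.range 3, ∑ w ∈ words n,
          (S.ρ ^ w.length)⁻¹ * (μ (cell w)).toReal / dlt θ w ^ 2 :=
        Finset.sum_nonneg fun n _ => Finset.sum_nonneg fun w _ => hf w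
      linarith
    · have hd0 := dlt_pos hθ w
      rw [← div_le_iff₀ (by positivity)]
      have h1 : (S.ρ ^ w.length)⁻¹ * (μ (cell w)).toReal / dlt θ w ^ 2 ≤
          ∑ n ∈ Finset.range 3, ∑ w ∈ words n,
            (S.ρ ^ w.length)⁻¹ * (μ (cell w)).toReal / dlt θ w ^ 2 := by
        refine le_trans ?_ (Finset.single_le_sum (f := fun n => ∑ w ∈ words n,
          (S.ρ ^ w.length)⁻¹ * (μ (cell w)).toReal / dlt θ w ^ 2)
          (fun n _ => Finset.sum_nonneg fun w _ => hf w) (Finset.mem_range.2 hw))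
        exact Finset.single_le_sum (f := fun w : List Dig =>
          (S.ρ ^ w.length)⁻¹ * (μ (cell w)).toReal / dlt θ w ^ 2)
          (fun w _ => hf w) (mem_words.2 rfl)
      linarith
  refine ⟨C₇ * (9 * (C₇ * (Real.sqrt Cc * Real.sqrt Cx))) * c ^ 2 + C₀, by positivity, fun w => ?_⟩
  have hd2 : 0 ≤ dlt θ w ^ 2 := sq_nonneg _
  rcases lt_or_ge w.length 3 with hw | hw
  · have h1 := hshort w hw
    have h2 : 0 ≤ (C₇ * (9 * (C₇ * (Real.sqrt Cc * Real.sqrt Cx))) * c ^ 2) * dlt θ w ^ 2 := by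
      positivity
    linarith
  · have h1 := main w hw
    have h2 : 0 ≤ C₀ * dlt θ w ^ 2 := by positivity
    linarith

end Pool.Agent.Helper67.SC
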