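import Pool.Agent.Helper67.SC.Z2
import Pool.Agent.Helper67.SC.A1b
import Pool.Agent.Helper67.SC.A3a
import Pool.Agent.Helper67.SC.A3b
import Pool.Agent.Helper67.SC.P1a
import Pool.Agent.Helper67.SC.P1b

/-! The conformal walk dimension of the Sierpinski carpet is not attained. -/

open MeasureTheory Filter Topology

noncomputable section

namespace Pool.Agent.Helper67.SC

theorem not_phi (S : CarForm) {θ : K → K → ℝ} (hθ : Gauge θ) (μ : Measure K) [IsFiniteMeasure μ]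
    (hμ : ∀ U : Set K, IsOpen U → U.Nonempty → 0 < μ U) : ¬ PHI S θ μ 2 := by
  intro h
  obtain ⟨C₁, hC₁, h1⟩ := phi_upper S hθ μ hμ h
  obtain ⟨C₂, hC₂, h2⟩ := phi_lower S hθ μ hμ h
  have hρ : 0 < S.ρ := S.ρ_pos
  obtain ⟨C, hC, g, δ, hg⟩ : ∃ C : ℝ, 1 ≤ C ∧ ∃ g δ, Obj S C g δ := by
    obtain ⟨C, g, δ, hC, hg⟩ := exists_obj S (exists_comp_bot S (exists_comp S hθ μ
      (C₀ := max C₁ C₂) (lt_max_of_lt_left hC₁)
      (fun w => (h1 w).trans (by
        have h3 : 0 ≤ (μ (cell w)).toReal := ENNReal.toReal_nonneg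
        have h4 : 0 ≤ (S.ρ ^ w.length)⁻¹ := by positivity
        have h5 : C₁ ≤ max C₁ C₂ := le_max_left _ _
        gcongr))
      (fun w => (h2 w).trans (by
        have h5 : C₂ ≤ max C₁ C₂ := le_max_right _ _
        gcongr))))
    exact ⟨C, hC, g, δ, hg⟩
  exact no_obj S hC hg

end Pool.Agent.Helper67.SC
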