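import Pool.Agent.Helper67.SC.F3

/-! Module R1: the scaling factor is greater than one. -/

open MeasureTheory Filter Topology

noncomputable section

namespace Pool.Agent.Helper67.SC

/-- Constant part on the columns. -/
def r1A (n : ℤ) : ℝ := if n = 0 then 0 else if n = 1 then 2 / 7 else 5 / 7

/-- Slope on the columns. -/
def r1B (n : ℤ) : ℝ := if n = 1 then 3 / 7 else 2 / 7

theorem r1_coord {u v : List Dig} (hu : u.length = 1) (hv : v.length = 1) {x y : K}
    (h : Fw u x = Fw v y) : ((pos u).1 : ℝ) + x.1.1 = (pos v).1 + y.1.1 ∧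
      ((pos u).2 : ℝ) + x.1.2 = (pos v).2 + y.1.2 := by
  have h1 : (Fw u x).1.1 = (Fw v y).1.1 := by rw [h]
  have h2 : (Fw u x).1.2 = (Fw v y).1.2 := by rw [h]
  rw [Fw_apply1, Fw_apply1, hu, hv] at h1
  rw [Fw_apply2, Fw_apply2, hu, hv] at h2
  constructor <;> linarith

theorem r1_step {n : ℤ} (h0 : 0 ≤ n) (h2 : n < 2) : r1A n + r1B n = r1A (n + 1) := by
  have : n = 0 ∨ n = 1 := by omega
  rcases this with rfl | rfl
  · norm_num [r1A, r1B]
  · norm_num [r1A, r1B]

theorem r1_compat {f : C(K, ℝ)} (h0 : ∀ x ∈ left, f x = 0) (h1 : ∀ x ∈ right, f x = 1)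
    (hf : ∀ x, f (flipY x) = f x) {u v : List Dig} (hu : u.length = 1) (hv : v.length = 1) {x y : K}
    (h : Fw u x = Fw v y) :
    r1A (pos u).1 + r1B (pos u).1 * f x = r1A (pos v).1 + r1B (pos v).1 * f y := by
  obtain ⟨e1, e2⟩ := r1_coord hu hv h
  have hx := K_bounds x
  have hy := K_bounds y
  have pu := pos_nonneg u
  have pv := pos_nonneg v
  have qu := pos_lt u
  have qv := pos_lt v
  rw [hu] at qu
  rw [hv] at qv
  rcases offset_cases e1 hx.1 hx.2.1 hy.1 hy.2.1 with e | ⟨e, t⟩ | ⟨e, t⟩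
  · have hx1 : x.1.1 = y.1.1 := by rw [e] at e1; linarith
    rw [e]
    rcases offset_cases e2 hx.2.2.1 hx.2.2.2 hy.2.2.1 hy.2.2.2 with g | ⟨g, t⟩ | ⟨g, t⟩
    · have hx2 : x.1.2 = y.1.2 := by rw [g] at e2; linarith
      rw [K_ext hx1 hx2]
    · have hx2 : x.1.2 = 0 := by
        rw [g, t] at e2; push_cast at e2; linarith
      have : x = flipY y := by
        apply K_ext
        · exact hx1
        · show x.1.2 = 1 - y.1.2
          rw [hx2, t]; norm_num
      rw [this, hf]
    · have hx2 : x.1.2 = 1 := by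
        rw [g, t] at e2; push_cast at e2; linarith
      have : x = flipY y := by
        apply K_ext
        · exact hx1
        · show x.1.2 = 1 - y.1.2
          rw [hx2, t]; norm_num
      rw [this, hf]
  · have hx1 : x.1.1 = 0 := by
      rw [e, t] at e1; push_cast at e1; linarith
    rw [h0 x hx1, h1 y t, mul_zero, mul_one, add_zero, e]
    exact (r1_step pv.1 (by omega)).symm
  · have hx1 : x.1.1 = 1 := by
      rw [e, t] at e1; push_cast at e1; linarith
    rw [h1 x hx1, h0 y t, mul_zero, mul_one, add_zero]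
    have := r1_step pu.1 (by omega)
    rw [this, e]
    congr 1
    ring

variable (S : CarForm)

theorem r1_disjoint : Disjoint left right := by
  rw [Set.disjoint_left]
  intro x h1 h2
  have h1' : x.1.1 = 0 := h1
  have h2' : x.1.1 = 1 := h2
  rw [h1'] at h2'
  norm_num at h2'

theorem r1_closed_left : IsClosed left := isClosed_eq (by fun_prop) continuous_const
theorem r1_closed_right : IsClosed right := isClosed_eq (by fun_prop) continuous_const

/-- The minimizer between the left and the right side. -/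
theorem r1_exists : ∃ f, HarmOff S (left ∪ right) f ∧ (∀ x ∈ left, f x = 0) ∧
    (∀ x ∈ right, f x = 1) ∧ ∀ x, f (flipY x) = f x := by
  obtain ⟨g, hg, -, g0, g1⟩ := S.exists_urysohn r1_closed_left r1_closed_right r1_disjoint
  have hne : (left ∪ right).Nonempty := ⟨c00, Or.inl rfl⟩
  obtain ⟨f, hf, hfg⟩ := exists_dirichlet S hne hg
  have f0 : ∀ x ∈ left, f x = 0 := fun x hx => by rw [hfg x (Or.inl hx), g0 x hx]
  have f1 : ∀ x ∈ right, f x = 1 := fun x hx => by rw [hfg x (Or.inr hx), g1 x hx]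
  refine ⟨f, hf, f0, f1, ?_⟩
  have hf' : f.comp flipY ∈ S.dom := S.flipY_mem hf.1
  have hd : f.comp flipY - f ∈ S.dom := S.dom.sub_mem hf' hf.1
  have hz : ZeroOn (left ∪ right) (f.comp flipY - f) := by
    rintro x (hx | hx)
    · show f (flipY x) - f x = 0
      rw [f0 x hx, f0 (flipY x) hx, sub_zero]
    · show f (flipY x) - f x = 0
      rw [f1 x hx, f1 (flipY x) hx, sub_self]
  have hcc : ∀ φ : C(K, ℝ), (φ.comp flipY).comp flipY = φ := by
    intro φ
    ext x
    show φ (flipY (flipY x)) = φ x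
    rw [flipY_flipY]
  have h1 : S.E f (f.comp flipY - f) = 0 := hf.2 _ hd hz
  have h2 : S.E (f.comp flipY) (f.comp flipY - f) = 0 := by
    have hd2 : (f.comp flipY - f).comp flipY ∈ S.dom := S.flipY_mem hd
    have e1 := S.E_flipY hf.1 hd2
    rw [hcc] at e1
    rw [e1]
    apply hf.2 _ hd2
    rintro x (hx | hx)
    · exact hz (flipY x) (Or.inl hx)
    · exact hz (flipY x) (Or.inr hx)
  have h3 : S.E (f.comp flipY - f) (f.comp flipY - f) = 0 := by
    rw [S.E_sub_left hf' hf.1 hd, h1, h2, sub_zero]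
  have h4 := S.eq_zero_of_E hd h3.le (x := c00) (hz c00 (Or.inl rfl))
  intro x
  have h5 : (f.comp flipY - f) x = 0 := by rw [h4]; rfl
  have h6 : f (flipY x) - f x = 0 := h5
  linarith

/-- The scaling factor satisfies `7/6 ≤ ρ`. Let `f` be the minimizer of the energy among the
functions of the domain with `f = 0` on `left` and `f = 1` on `right` (`exists_dirichlet`); it is
symmetric under `flipY` by uniqueness, and not constant, so `R := E f f > 0`. The function `g` which is
`a f` on the cells of the first column, `a + (1 - 2 a) f` on the two cells of the second column and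
`1 - a + a f` on the third column, `a = 2/7`, is well defined by `flipY` symmetry (use `glue`), is
admissible, and has energy `ρ (6 a² + 2 (1 - 2a)²) R = (6/7) ρ R`; so `R ≤ (6/7) ρ R`. -/
theorem rho_ge : (7 : ℝ) / 6 ≤ S.ρ := by
  obtain ⟨f, hf, f0, f1, hfl⟩ := r1_exists S
  have hR0 : 0 ≤ S.E f f := S.E_nonneg f hf.1
  have hR : 0 < S.E f f := by
    rcases hR0.lt_or_eq with h | h
    · exact h
    · exfalso
      have h1 := S.eq_zero_of_E hf.1 h.symm.le (x := c00) (f0 c00 rfl)
      have h2 := f1 c10 rfl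
      rw [h1] at h2
      exact zero_ne_one h2
  obtain ⟨g, hg⟩ := glue 1 (fun w => ContinuousMap.const K (r1A (pos w).1) + r1B (pos w).1 • f)
    (fun u v hu hv x y h => r1_compat f0 f1 hfl hu hv h)
  have hgd : g ∈ S.dom := by
    apply S.mem_of_comp_Fw 1
    intro w hw
    rw [hg w hw]
    exact S.dom.add_mem (S.const_mem _) (S.dom.smul_mem _ hf.1)
  have hg0 : ∀ x ∈ left, g x = 0 := by
    intro x hx
    obtain ⟨s, hs, hp, y, rfl⟩ := exists_cell_left 1 hx
    have hy : y ∈ left := by
      have : (Fw s y).1.1 = 0 := hx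
      rw [Fw_apply1, hp] at this
      have h3 : (3 : ℝ) ^ s.length ≠ 0 := by positivity
      rw [div_eq_zero_iff, or_iff_left h3] at this
      show y.1.1 = 0
      simpa using this
    have h4 : g (Fw s y) = (g.comp (Fw s)) y := rfl
    rw [h4, hg s hs]
    show r1A (pos s).1 + r1B (pos s).1 * f y = 0
    rw [hp, f0 y hy]
    norm_num [r1A]
  have hg1 : ∀ x ∈ right, g x = 1 := by
    intro x hx
    obtain ⟨s, hs, hp, y, rfl⟩ := exists_cell_right 1 hx
    have hy : y ∈ right := by
      have : (Fw s y).1.1 = 1 := hx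
      rw [Fw_apply1, hp, hs] at this
      show y.1.1 = 1
      push_cast at this
      linarith
    have h4 : g (Fw s y) = (g.comp (Fw s)) y := rfl
    rw [h4, hg s hs]
    show r1A (pos s).1 + r1B (pos s).1 * f y = 1
    rw [hp, f1 y hy]
    norm_num [r1A, r1B]
  have hd : g - f ∈ S.dom := S.dom.sub_mem hgd hf.1
  have hz : ZeroOn (left ∪ right) (g - f) := by
    rintro x (hx | hx)
    · show g x - f x = 0
      rw [f0 x hx, hg0 x hx, sub_zero]
    · show g x - f x = 0
      rw [f1 x hx, hg1 x hx, sub_self]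
  have h1 : S.E f f ≤ S.E g g := by
    have e1 : g = f + (g - f) := by abel
    have e2 : S.E g g = S.E f f + 2 * S.E f (g - f) + S.E (g - f) (g - f) := by
      conv_lhs => rw [e1]
      exact S.E_add_self hf.1 hd
    rw [e2, hf.2 _ hd hz]
    linarith [S.E_nonneg _ hd]
  have h2 : S.E g g = S.ρ * (6 / 7 * S.E f f) := by
    rw [S.selfsim g hgd]
    congr 1
    have e3 : ∀ d : Dig, S.E (g.comp (F d)) (g.comp (F d)) = r1B d.x ^ 2 * S.E f f := by
      intro d
      have e4 : g.comp (F d) = ContinuousMap.const K (r1A d.x) + r1B d.x • f := by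
        have e5 := hg [d] rfl
        have e6 : Fw [d] = F d := by
          ext x <;> rfl
        have e7 : (pos [d]).1 = d.x := by simp [pos]
        rw [e6, e7] at e5
        exact e5
      rw [e4, S.E_add_self (S.const_mem _) (S.dom.smul_mem _ hf.1),
        S.E_const_left _ (S.dom.smul_mem _ hf.1), S.E_const_left _ (S.const_mem _),
        S.E_smul_self _ hf.1]
      ring
    simp only [e3]
    rw [← Finset.sum_mul]
    congr 1
    have e8 : ∑ d : Dig, r1B d.x ^ 2
        = ∑ d : Dig, (((if d.x = 1 then 9 else 4 : ℕ) : ℝ) / 49) := by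
      refine Finset.sum_congr rfl fun d _ => ?_
      unfold r1B
      split_ifs <;> norm_num
    rw [e8, ← Finset.sum_div, ← Nat.cast_sum]
    have e9 : ∑ d : Dig, (if d.x = 1 then 9 else 4 : ℕ) = 42 := by decide
    rw [e9]
    norm_num
  rw [h2] at h1
  nlinarith

theorem one_lt_rho : 1 < S.ρ := lt_of_lt_of_le (by norm_num) (rho_ge S)

/-- Oscillation on a cell: `|f x - f y| ≤ C * sqrt (en f w)` for `x, y ∈ cell w`, and
`sqrt (en f (w ++ v)) ≤ ρ^{-|v|/2} sqrt (en f w)`. -/
theorem osc_cell : ∃ C : ℝ, 0 < C ∧ ∀ f ∈ S.dom, ∀ w : List Dig, ∀ x ∈ cell w, ∀ y ∈ cell w,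
    |f x - f y| ≤ C * Real.sqrt (S.en f w) := by
  obtain ⟨C, hC, h⟩ := S.osc
  refine ⟨C, hC, ?_⟩
  rintro f hf w _ ⟨x, rfl⟩ _ ⟨y, rfl⟩
  exact h (f.comp (Fw w)) (S.comp_Fw_mem w hf) x y

theorem en_append_le_en {f : C(K, ℝ)} (hf : f ∈ S.dom) (w v : List Dig) :
    S.en f (w ++ v) ≤ S.en f w := by
  have h1 := S.en_append_le hf w v
  have h2 : 1 ≤ S.ρ ^ v.length := one_le_pow₀ (one_lt_rho S).le
  have h3 := S.en_nonneg hf (w ++ v)
  nlinarith

end Pool.Agent.Helper67.SC
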