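import Mathlib

/-! Module T1: discrete non-crossing lemma in a square grid. -/

namespace Pool.Agent.Helper67.SC

/-- Position along the left, top and right sides of the square `[0,N]²`. -/
def dtau (N : ℤ) (p : ℤ × ℤ) : ℤ :=
  if p.1 = 0 then p.2 else if p.2 = N then N + p.1 else 3 * N - p.2

/-- Outside of the square `[-1,1]²`. -/
def t1Out (x y : ℤ) : Prop := x ≤ -2 ∨ 2 ≤ x ∨ y ≤ -2 ∨ 2 ≤ y

/-- The upper half plane indicator. -/
def t1h (y : ℤ) : ℤ := if 0 ≤ y then 1 else 0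

/-- Signed crossing of the left half axis. -/
def t1cr (x y y' : ℤ) : ℤ := if x < 0 then t1h y' - t1h y else 0

theorem t1_cross {x y x' y' : ℤ} (h : t1Out x y) (h' : t1Out x' y') (hx : |x' - x| ≤ 1)
    (hy : |y' - y| ≤ 1) (hc : t1h y ≠ t1h y') : (x ≤ -2 ∧ x' ≤ -2) ∨ (2 ≤ x ∧ 2 ≤ x') := by
  rw [abs_le] at hx hy
  unfold t1Out at h h'
  have h1 : (0 ≤ y ∧ y' < 0) ∨ (y < 0 ∧ 0 ≤ y') := by
    unfold t1h at hc
    by_cases h2 : 0 ≤ y
    · by_cases h3 : 0 ≤ y'
      · rw [if_pos h2, if_pos h3] at hc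
        exact absurd rfl hc
      · exact Or.inl ⟨h2, not_le.1 h3⟩
    · by_cases h3 : 0 ≤ y'
      · exact Or.inr ⟨not_le.1 h2, h3⟩
      · rw [if_neg h2, if_neg h3] at hc
        exact absurd rfl hc
  omega

theorem t1_closed {x0 y0 x1 y1 x2 y2 x3 y3 : ℤ} (h0 : t1Out x0 y0) (h1 : t1Out x1 y1)
    (h2 : t1Out x2 y2) (h3 : t1Out x3 y3) (h01 : |x1 - x0| ≤ 1 ∧ |y1 - y0| ≤ 1)
    (h02 : |x2 - x0| ≤ 1 ∧ |y2 - y0| ≤ 1) (h13 : |x3 - x1| ≤ 1 ∧ |y3 - y1| ≤ 1)
    (h23 : |x3 - x2| ≤ 1 ∧ |y3 - y2| ≤ 1) :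
    t1cr x0 y0 y1 + t1cr x1 y1 y3 = t1cr x0 y0 y2 + t1cr x2 y2 y3 := by
  have key : (t1h y0 = t1h y1 ∧ t1h y0 = t1h y2 ∧ t1h y1 = t1h y3) ∨
      (x0 < 0 ∧ x1 < 0 ∧ x2 < 0) ∨ (0 ≤ x0 ∧ 0 ≤ x1 ∧ 0 ≤ x2) := by
    by_cases e01 : t1h y0 = t1h y1
    · by_cases e02 : t1h y0 = t1h y2
      · by_cases e13 : t1h y1 = t1h y3
        · exact Or.inl ⟨e01, e02, e13⟩
        · have h4 := t1_cross h1 h3 h13.1 h13.2 e13
          have h5 : t1h y2 ≠ t1h y3 := by
            rw [← e02, e01]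
            exact e13
          have h6 := t1_cross h2 h3 h23.1 h23.2 h5
          have h7 := abs_le.1 h01.1
          omega
      · have h4 := t1_cross h0 h2 h02.1 h02.2 e02
        have h7 := abs_le.1 h01.1
        omega
    · have h4 := t1_cross h0 h1 h01.1 h01.2 e01
      have h7 := abs_le.1 h02.1
      omega
  unfold t1cr
  rcases key with ⟨e01, e02, e13⟩ | ⟨a, b, c⟩ | ⟨a, b, c⟩
  · have e23 : t1h y2 = t1h y3 := by rw [← e02, e01, e13]
    rw [e01.symm, e02.symm, e13.symm.trans e01.symm]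
    simp
  · rw [if_pos a, if_pos b, if_pos a, if_pos c]
    ring
  · rw [if_neg (not_lt.2 a), if_neg (not_lt.2 b), if_neg (not_lt.2 a), if_neg (not_lt.2 c)]

/-- A path in the lower half plane. -/
theorem t1_down (x y : ℕ → ℤ) (k : ℕ) (ho : ∀ i ≤ k, t1Out (x i) (y i))
    (hs : ∀ i < k, |x (i + 1) - x i| ≤ 1 ∧ |y (i + 1) - y i| ≤ 1) (hy : ∀ i ≤ k, y i ≤ 0) :
    ∑ i ∈ Finset.range k, t1cr (x i) (y i) (y (i + 1)) =
      (if y k = 0 ∧ x k < 0 then (1 : ℤ) else 0) - if y 0 = 0 ∧ x 0 < 0 then 1 else 0 := by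
  have h1 : ∀ i ∈ Finset.range k, t1cr (x i) (y i) (y (i + 1)) =
      (if y (i + 1) = 0 ∧ x (i + 1) < 0 then (1 : ℤ) else 0) -
      (if y i = 0 ∧ x i < 0 then 1 else 0) := by
    intro i hi
    rw [Finset.mem_range] at hi
    have h2 := ho i hi.le
    have h3 := ho (i + 1) hi
    have h4 := hs i hi
    have h5 := hy i hi.le
    have h6 := hy (i + 1) hi
    clear hs ho hy
    generalize x i = x0 at *
    generalize y i = y0 at *
    generalize x (i + 1) = x1 at *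
    generalize y (i + 1) = y1 at *
    have hh : ∀ z : ℤ, z ≤ 0 → t1h z = if z = 0 then 1 else 0 := by
      intro z hz
      unfold t1h
      by_cases h : z = 0
      · rw [if_pos h, if_pos h.ge]
      · rw [if_neg h, if_neg (by omega)]
    by_cases hc : t1h y0 = t1h y1
    · have h7 : t1cr x0 y0 y1 = 0 := by
        unfold t1cr
        rw [hc]
        simp
      rw [h7]
      rw [hh y0 h5, hh y1 h6] at hc
      by_cases h9 : y0 = 0
      · have h10 : y1 = 0 := by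
          by_contra h
          rw [if_pos h9, if_neg h] at hc
          exact one_ne_zero hc
        have h11 := abs_le.1 h4.1
        unfold t1Out at h2 h3
        have h12 : x0 < 0 ↔ x1 < 0 := by omega
        simp only [h9, h10, h12, sub_self]
      · have h10 : ¬ y1 = 0 := by
          intro h
          rw [if_neg h9, if_pos h] at hc
          exact zero_ne_one hc
        simp only [h9, h10, false_and, if_false, sub_self]
    · have h7 := t1_cross h2 h3 h4.1 h4.2 hc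
      unfold t1cr
      rw [hh y0 h5, hh y1 h6]
      rcases h7 with ⟨h7, h8⟩ | ⟨h7, h8⟩
      · have e1 : x0 < 0 := by omega
        have e2 : x1 < 0 := by omega
        simp only [e1, e2, and_true, if_true]
      · have e1 : ¬ x0 < 0 := by omega
        have e2 : ¬ x1 < 0 := by omega
        simp only [e1, e2, and_false, if_false, sub_self]
  rw [Finset.sum_congr rfl h1,
    Finset.sum_range_sub (fun i => if y i = 0 ∧ x i < 0 then (1 : ℤ) else 0) k]

/-- A path in the upper half plane. -/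
theorem t1_up (x y : ℕ → ℤ) (k : ℕ) (hy : ∀ i ≤ k, 0 ≤ y i) :
    ∑ i ∈ Finset.range k, t1cr (x i) (y i) (y (i + 1)) = 0 := by
  apply Finset.sum_eq_zero
  intro j hj
  rw [Finset.mem_range] at hj
  unfold t1cr t1h
  rw [if_pos (hy j hj.le), if_pos (hy (j + 1) hj)]
  simp

/-- A path in the right half plane. -/
theorem t1_right (x y : ℕ → ℤ) (k : ℕ) (hx : ∀ i ≤ k, 0 ≤ x i) :
    ∑ i ∈ Finset.range k, t1cr (x i) (y i) (y (i + 1)) = 0 := by
  apply Finset.sum_eq_zero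
  intro j hj
  rw [Finset.mem_range] at hj
  unfold t1cr
  rw [if_neg (not_lt.2 (hx j hj.le))]

/-- A path in the left half plane. -/
theorem t1_left (x y : ℕ → ℤ) (k : ℕ) (ho : ∀ i ≤ k, t1Out (x i) (y i))
    (hs : ∀ i < k, |x (i + 1) - x i| ≤ 1 ∧ |y (i + 1) - y i| ≤ 1) (hx : ∀ i ≤ k, x i ≤ 0) :
    ∑ i ∈ Finset.range k, t1cr (x i) (y i) (y (i + 1)) = t1h (y k) - t1h (y 0) := by
  have h1 : ∀ i ∈ Finset.range k, t1cr (x i) (y i) (y (i + 1)) =
      t1h (y (i + 1)) - t1h (y i) := by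
    intro i hi
    rw [Finset.mem_range] at hi
    by_cases hc : t1h (y i) = t1h (y (i + 1))
    · unfold t1cr
      rw [hc]
      simp
    · have h7 := t1_cross (ho i hi.le) (ho (i + 1) hi) (hs i hi).1 (hs i hi).2 hc
      have h8 := hx i hi.le
      unfold t1cr
      rw [if_pos (by omega)]
  rw [Finset.sum_congr rfl h1, Finset.sum_range_sub (fun i => t1h (y i)) k]

/-- The sums over the boundary of a rectangle. -/
theorem t1_rect (X Y : ℕ → ℕ → ℤ) (m n : ℕ)
    (hout : ∀ i ≤ m, ∀ j ≤ n, t1Out (X i j) (Y i j))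
    (hsa : ∀ i < m, ∀ j ≤ n, |X (i + 1) j - X i j| ≤ 1 ∧ |Y (i + 1) j - Y i j| ≤ 1)
    (hsb : ∀ j < n, ∀ i ≤ m, |X i (j + 1) - X i j| ≤ 1 ∧ |Y i (j + 1) - Y i j| ≤ 1) :
    (∑ i ∈ Finset.range m, t1cr (X i 0) (Y i 0) (Y (i + 1) 0)) +
      ∑ j ∈ Finset.range n, t1cr (X m j) (Y m j) (Y m (j + 1)) =
      (∑ j ∈ Finset.range n, t1cr (X 0 j) (Y 0 j) (Y 0 (j + 1))) +
      ∑ i ∈ Finset.range m, t1cr (X i n) (Y i n) (Y (i + 1) n) := by
  have hstep : ∀ j < n, (∑ i ∈ Finset.range m, t1cr (X i j) (Y i j) (Y (i + 1) j)) +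
      t1cr (X m j) (Y m j) (Y m (j + 1)) = t1cr (X 0 j) (Y 0 j) (Y 0 (j + 1)) +
      ∑ i ∈ Finset.range m, t1cr (X i (j + 1)) (Y i (j + 1)) (Y (i + 1) (j + 1)) := by
    intro j hj
    have h1 : ∀ i < m, t1cr (X i j) (Y i j) (Y (i + 1) j) +
        t1cr (X (i + 1) j) (Y (i + 1) j) (Y (i + 1) (j + 1)) =
        t1cr (X i j) (Y i j) (Y i (j + 1)) +
        t1cr (X i (j + 1)) (Y i (j + 1)) (Y (i + 1) (j + 1)) := by
      intro i hi
      exact t1_closed (hout i hi.le j hj.le) (hout (i + 1) hi j hj.le)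
        (hout i hi.le (j + 1) hj) (hout (i + 1) hi (j + 1) hj) (hsa i hi j hj.le)
        (hsb j hj i hi.le) (hsb j hj (i + 1) hi) (hsa i hi (j + 1) hj)
    have h2 : ∑ i ∈ Finset.range m, (t1cr (X (i + 1) j) (Y (i + 1) j) (Y (i + 1) (j + 1)) -
        t1cr (X i j) (Y i j) (Y i (j + 1))) =
        t1cr (X m j) (Y m j) (Y m (j + 1)) - t1cr (X 0 j) (Y 0 j) (Y 0 (j + 1)) :=
      Finset.sum_range_sub (fun i => t1cr (X i j) (Y i j) (Y i (j + 1))) m
    have h3 : ∑ i ∈ Finset.range m, (t1cr (X (i + 1) j) (Y (i + 1) j) (Y (i + 1) (j + 1)) -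
        t1cr (X i j) (Y i j) (Y i (j + 1))) =
        ∑ i ∈ Finset.range m, (t1cr (X i (j + 1)) (Y i (j + 1)) (Y (i + 1) (j + 1)) -
        t1cr (X i j) (Y i j) (Y (i + 1) j)) := by
      apply Finset.sum_congr rfl
      intro i hi
      have := h1 i (Finset.mem_range.1 hi)
      linarith
    rw [h3, Finset.sum_sub_distrib] at h2
    linarith
  have hind : ∀ k ≤ n, (∑ i ∈ Finset.range m, t1cr (X i 0) (Y i 0) (Y (i + 1) 0)) +
      ∑ j ∈ Finset.range k, t1cr (X m j) (Y m j) (Y m (j + 1)) =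
      (∑ j ∈ Finset.range k, t1cr (X 0 j) (Y 0 j) (Y 0 (j + 1))) +
      ∑ i ∈ Finset.range m, t1cr (X i k) (Y i k) (Y (i + 1) k) := by
    intro k
    induction k with
    | zero => intro _; simp
    | succ k ih =>
      intro hk
      have h1 := ih (by omega)
      have h2 := hstep k (by omega)
      rw [Finset.sum_range_succ, Finset.sum_range_succ]
      linarith
  exact hind n le_rfl

theorem t1_out_of {x y x' y' : ℤ} (h : 2 ≤ max |x - x'| |y - y'|) : t1Out (x' - x) (y' - y) := by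
  rw [le_max_iff, le_abs, le_abs] at h
  unfold t1Out
  omega

/-- The final case distinction. -/
theorem t1_final (N x y u v z S T : ℤ) (hx : 0 ≤ x ∧ x ≤ N) (hy : 0 ≤ y ∧ y ≤ N)
    (hu : 0 ≤ u ∧ u ≤ N) (hv : 0 ≤ v ∧ v ≤ N) (hz : 0 ≤ z ∧ z ≤ N)
    (hO : t1Out (u - x) (v - y)) (hO0 : t1Out (z - x) (0 - y))
    (hrect : (if 0 - y = 0 ∧ z - x < 0 then (1 : ℤ) else 0) + T = S)
    (hSL : u = 0 → S = t1h (v - y) - 1) (hST : v = N → S = 0) (hSR : u = N → S = 0)
    (hTL : x = 0 → T = 0) (hTR : x = N → T = t1h (v - y) - t1h (0 - y))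
    (hTT : y = N → T = (if v - y = 0 ∧ u - x < 0 then (1 : ℤ) else 0) -
      (if 0 - y = 0 ∧ z - x < 0 then 1 else 0))
    (ha : x = 0 ∨ y = N ∨ x = N) (hb : u = 0 ∨ v = N ∨ u = N) :
    dtau N (x, y) < dtau N (u, v) := by
  unfold t1Out at hO hO0
  have hh : ∀ w : ℤ, (0 ≤ w ∧ t1h w = 1) ∨ (w < 0 ∧ t1h w = 0) := by
    intro w
    by_cases h : 0 ≤ w
    · exact Or.inl ⟨h, if_pos h⟩
    · exact Or.inr ⟨not_le.1 h, if_neg h⟩
  have hd : ∀ p q : ℤ, (p = 0 ∧ dtau N (p, q) = q) ∨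
      (p ≠ 0 ∧ q = N ∧ dtau N (p, q) = N + p) ∨
      (p ≠ 0 ∧ q ≠ N ∧ dtau N (p, q) = 3 * N - q) := by
    intro p q
    unfold dtau
    by_cases h : p = 0
    · exact Or.inl ⟨h, if_pos h⟩
    · by_cases h' : q = N
      · exact Or.inr (Or.inl ⟨h, h', by rw [if_neg h, if_pos h']⟩)
      · exact Or.inr (Or.inr ⟨h, h', by rw [if_neg h, if_neg h']⟩)
  have ha1 := hh (v - y)
  have ha2 := hh (0 - y)
  have hd1 := hd x y
  have hd2 := hd u v
  clear hh hd
  generalize dtau N (x, y) = d1 at *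
  generalize dtau N (u, v) = d2 at *
  generalize t1h (v - y) = e1 at *
  generalize t1h (0 - y) = e2 at *
  have hI : ∀ (P : Prop) [Decidable P], (P ∧ (if P then (1 : ℤ) else 0) = 1) ∨
      (¬ P ∧ (if P then (1 : ℤ) else 0) = 0) := by
    intro P _
    by_cases h : P
    · exact Or.inl ⟨h, if_pos h⟩
    · exact Or.inr ⟨h, if_neg h⟩
  have hi1 := hI (0 - y = 0 ∧ z - x < 0)
  have hi2 := hI (v - y = 0 ∧ u - x < 0)
  clear hI
  generalize (if 0 - y = 0 ∧ z - x < 0 then (1 : ℤ) else 0) = i1 at *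
  generalize (if v - y = 0 ∧ u - x < 0 then (1 : ℤ) else 0) = i2 at *
  rcases hb with hL | hT | hR
  · have e3 := hSL hL
    rcases ha with hL' | hT' | hR'
    · have e4 := hTL hL'
      omega
    · have e4 := hTT hT'
      exfalso
      omega
    · have e4 := hTR hR'
      exfalso
      omega
  · have e3 := hST hT
    rcases ha with hL' | hT' | hR'
    · have e4 := hTL hL'
      omega
    · have e4 := hTT hT'
      omega
    · have e4 := hTR hR'
      omega
  · have e3 := hSR hR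
    rcases ha with hL' | hT' | hR'
    · omega
    · omega
    · have e4 := hTR hR'
      omega

/-- Two king paths at mutual sup distance at least `2` in the square `[0,N]²`, both starting on the
bottom side, `a` to the left of `b`, and ending on the left/top/right sides: then `a` ends before `b`.
Proof idea: the map `(i,j) ↦ b j - a i ∈ ℤ² ∖ [-1,1]²`; winding number along the boundary of the
rectangle of indices is zero (small steps), and on each side of the rectangle the vectors stay in a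
half plane (convexity), so the total angle is determined by the end points. (Any other proof is
fine.) -/
theorem dcl (N : ℤ) (hN : 0 ≤ N) (a b : ℕ → ℤ × ℤ) (m n : ℕ)
    (ha : ∀ i ≤ m, 0 ≤ (a i).1 ∧ (a i).1 ≤ N ∧ 0 ≤ (a i).2 ∧ (a i).2 ≤ N)
    (hb : ∀ j ≤ n, 0 ≤ (b j).1 ∧ (b j).1 ≤ N ∧ 0 ≤ (b j).2 ∧ (b j).2 ≤ N)
    (ha' : ∀ i < m, |(a (i + 1)).1 - (a i).1| ≤ 1 ∧ |(a (i + 1)).2 - (a i).2| ≤ 1)
    (hb' : ∀ j < n, |(b (j + 1)).1 - (b j).1| ≤ 1 ∧ |(b (j + 1)).2 - (b j).2| ≤ 1)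
    (hd : ∀ i ≤ m, ∀ j ≤ n, 2 ≤ max |(a i).1 - (b j).1| |(a i).2 - (b j).2|)
    (ha0 : (a 0).2 = 0) (hb0 : (b 0).2 = 0) (hab : (a 0).1 < (b 0).1)
    (ham : (a m).1 = 0 ∨ (a m).2 = N ∨ (a m).1 = N)
    (hbn : (b n).1 = 0 ∨ (b n).2 = N ∨ (b n).1 = N) :
    dtau N (a m) < dtau N (b n) := by
  -- the difference vectors
  have hout : ∀ i ≤ m, ∀ j ≤ n, t1Out ((b j).1 - (a i).1) ((b j).2 - (a i).2) :=
    fun i hi j hj => t1_out_of (hd i hi j hj)
  have hsa : ∀ i < m, ∀ j ≤ n, |((b j).1 - (a (i + 1)).1) - ((b j).1 - (a i).1)| ≤ 1 ∧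
      |((b j).2 - (a (i + 1)).2) - ((b j).2 - (a i).2)| ≤ 1 := by
    intro i hi j _
    have h1 := ha' i hi
    have e1 : ((b j).1 - (a (i + 1)).1) - ((b j).1 - (a i).1) =
      -((a (i + 1)).1 - (a i).1) := by ring
    have e2 : ((b j).2 - (a (i + 1)).2) - ((b j).2 - (a i).2) =
      -((a (i + 1)).2 - (a i).2) := by ring
    rw [e1, e2, abs_neg, abs_neg]
    exact h1
  have hsb : ∀ j < n, ∀ i ≤ m, |((b (j + 1)).1 - (a i).1) - ((b j).1 - (a i).1)| ≤ 1 ∧
      |((b (j + 1)).2 - (a i).2) - ((b j).2 - (a i).2)| ≤ 1 := by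
    intro j hj i _
    have h1 := hb' j hj
    have e1 : ((b (j + 1)).1 - (a i).1) - ((b j).1 - (a i).1) =
      (b (j + 1)).1 - (b j).1 := by ring
    have e2 : ((b (j + 1)).2 - (a i).2) - ((b j).2 - (a i).2) =
      (b (j + 1)).2 - (b j).2 := by ring
    rw [e1, e2]
    exact h1
  have hrect := t1_rect (fun i j => (b j).1 - (a i).1) (fun i j => (b j).2 - (a i).2) m n
    hout hsa hsb
  -- bottom side of the rectangle of indices (`j = 0`): lower half plane
  have hS1 := t1_down (fun i => (b 0).1 - (a i).1) (fun i => (b 0).2 - (a i).2) m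
    (fun i hi => hout i hi 0 (Nat.zero_le n)) (fun i hi => hsa i hi 0 (Nat.zero_le n))
    (fun i hi => by have := (ha i hi).2.2.1; rw [hb0]; linarith)
  have hS1' : ¬ ((b 0).2 - (a 0).2 = 0 ∧ (b 0).1 - (a 0).1 < 0) := by
    rintro ⟨_, h⟩
    linarith
  rw [if_neg hS1', sub_zero] at hS1
  have hS2 := t1_up (fun j => (b j).1 - (a 0).1) (fun j => (b j).2 - (a 0).2) n
    (fun j hj => by have := (hb j hj).2.2.1; rw [ha0]; linarith)
  rw [hS1, hS2, zero_add] at hrect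
  -- the sides `j = n` and `i = m`
  have hS3L : (b n).1 = 0 → ∑ i ∈ Finset.range m, t1cr ((b n).1 - (a i).1)
      ((b n).2 - (a i).2) ((b n).2 - (a (i + 1)).2) = t1h ((b n).2 - (a m).2) - 1 := by
    intro hL
    have h := t1_left (fun i => (b n).1 - (a i).1) (fun i => (b n).2 - (a i).2) m
      (fun i hi => hout i hi n le_rfl) (fun i hi => hsa i hi n le_rfl)
      (fun i hi => by have := (ha i hi).1; rw [hL]; linarith)
    have h2 : t1h ((b n).2 - (a 0).2) = 1 := by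
      apply if_pos
      have := (hb n le_rfl).2.2.1
      linarith
    rw [h, h2]
  have hS3T : (b n).2 = N → ∑ i ∈ Finset.range m, t1cr ((b n).1 - (a i).1)
      ((b n).2 - (a i).2) ((b n).2 - (a (i + 1)).2) = 0 := by
    intro hT
    exact t1_up (fun i => (b n).1 - (a i).1) (fun i => (b n).2 - (a i).2) m
      (fun i hi => by have := (ha i hi).2.2.2; rw [hT]; linarith)
  have hS3R : (b n).1 = N → ∑ i ∈ Finset.range m, t1cr ((b n).1 - (a i).1)
      ((b n).2 - (a i).2) ((b n).2 - (a (i + 1)).2) = 0 := by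
    intro hR
    exact t1_right (fun i => (b n).1 - (a i).1) (fun i => (b n).2 - (a i).2) m
      (fun i hi => by have := (ha i hi).2.1; rw [hR]; linarith)
  have hS4L : (a m).1 = 0 → ∑ j ∈ Finset.range n, t1cr ((b j).1 - (a m).1)
      ((b j).2 - (a m).2) ((b (j + 1)).2 - (a m).2) = 0 := by
    intro hL
    exact t1_right (fun j => (b j).1 - (a m).1) (fun j => (b j).2 - (a m).2) n
      (fun j hj => by have := (hb j hj).1; rw [hL]; linarith)
  have hS4R : (a m).1 = N → ∑ j ∈ Finset.range n, t1cr ((b j).1 - (a m).1)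
      ((b j).2 - (a m).2) ((b (j + 1)).2 - (a m).2) =
      t1h ((b n).2 - (a m).2) - t1h ((b 0).2 - (a m).2) := by
    intro hR
    exact t1_left (fun j => (b j).1 - (a m).1) (fun j => (b j).2 - (a m).2) n
      (fun j hj => hout m le_rfl j hj) (fun j hj => hsb j hj m le_rfl)
      (fun j hj => by have := (hb j hj).2.1; rw [hR]; linarith)
  have hS4T : (a m).2 = N → ∑ j ∈ Finset.range n, t1cr ((b j).1 - (a m).1)
      ((b j).2 - (a m).2) ((b (j + 1)).2 - (a m).2) =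
      (if (b n).2 - (a m).2 = 0 ∧ (b n).1 - (a m).1 < 0 then (1 : ℤ) else 0) -
      (if (b 0).2 - (a m).2 = 0 ∧ (b 0).1 - (a m).1 < 0 then 1 else 0) := by
    intro hT
    exact t1_down (fun j => (b j).1 - (a m).1) (fun j => (b j).2 - (a m).2) n
      (fun j hj => hout m le_rfl j hj) (fun j hj => hsb j hj m le_rfl)
      (fun j hj => by have := (hb j hj).2.2.2; rw [hT]; linarith)
  -- final case distinction
  have hO := hout m le_rfl n le_rfl
  have hO0 := hout m le_rfl 0 (Nat.zero_le n)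
  have hA := ha m le_rfl
  have hB := hb n le_rfl
  have hB0 := hb 0 (Nat.zero_le n)
  rw [hb0] at hrect hO0 hS4R hS4T
  exact t1_final N (a m).1 (a m).2 (b n).1 (b n).2 (b 0).1 _ _ ⟨hA.1, hA.2.1⟩ hA.2.2
    ⟨hB.1, hB.2.1⟩ hB.2.2 ⟨hB0.1, hB0.2.1⟩ hO hO0 hrect hS3L hS3T hS3R hS4L hS4R hS4T ham hbn

end Pool.Agent.Helper67.SC
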