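import Pool.Agent.Helper67.SC.D5
import Pool.Agent.Helper67.SC.I1

/-! Module Z1a: the odd function. -/

open MeasureTheory Filter Topology

noncomputable section

namespace Pool.Agent.Helper67.SC

variable (S : CarForm)

/-- `q ∈ Lam` is reached from points of the bottom side arbitrarily near `z` through
`{s (g - g z) > -ε}`, and `s (g q - g z) ≥ A`. -/
def SPath (g : C(K, ℝ)) (A ε s : ℝ) (z q : K) : Prop :=
  q ∈ Lam ∧ A ≤ s * (g q - g z) ∧ ∃ x ∈ bot, dist x z ≤ ε ∧ Conn {p | -ε < s * (g p - g z)} x q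

theorem z1a_pos_bot {w : List Dig} (h : ∀ d ∈ w, d.y = 0) : (pos w).2 = 0 := by
  induction w with
  | nil => rfl
  | cons d w ih =>
    change 3 ^ w.length * d.y + (pos w).2 = 0
    rw [ih fun e he => h e (List.mem_cons_of_mem _ he), h d List.mem_cons_self]
    simp

theorem z1a_bot_snoc {a : List Dig} (ha : BotWord a) {d : Dig} (hd : d.y = 0) :
    (pos (a ++ [d])).2 = 0 := by
  apply z1a_pos_bot
  intro e he
  rcases List.mem_append.1 he with h | h
  · exact ha.1 e h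
  · rw [List.mem_singleton.1 h]; exact hd

/-- cells below a nonempty bottom word do not meet `Lam` -/
theorem z1a_not_Lam {a : List Dig} (ha : BotWord a) (ha' : a ≠ []) {x : K} (hx : x ∈ cell a) :
    x ∉ Lam := by
  rcases ha.2 with h | ⟨a', rfl⟩
  · exact absurd h ha'
  · have h1 : x ∈ cell [dg 1 0] := cell_append_subset [dg 1 0] a' hx
    obtain ⟨y, rfl⟩ := h1
    have hb := K_bounds y
    have e1 : (Fw [dg 1 0] y).1.1 = (y.1.1 + 1) / 3 := by
      change (y.1.1 + ((dg 1 0).x : ℝ)) / 3 = _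
      simp [dg, Dig.x]
    have e2 : (Fw [dg 1 0] y).1.2 = y.1.2 / 3 := by
      change (y.1.2 + ((dg 1 0).y : ℝ)) / 3 = _
      simp [dg, Dig.y]
    rintro ((h | h) | h)
    · have h' : (Fw [dg 1 0] y).1.1 = 0 := h
      rw [e1] at h'
      linarith [hb.1]
    · have h' : (Fw [dg 1 0] y).1.2 = 1 := h
      rw [e2] at h'
      linarith [hb.2.2.2]
    · have h' : (Fw [dg 1 0] y).1.1 = 1 := h
      rw [e1] at h'
      linarith [hb.2.1]

theorem z1a_x10 : (((dg 1 0).x : ℤ) : ℝ) = 1 := by simp [dg, Dig.x]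
theorem z1a_y10 : (((dg 1 0).y : ℤ) : ℝ) = 0 := by simp [dg, Dig.y]
theorem z1a_x00 : (((dg 0 0).x : ℤ) : ℝ) = 0 := by simp [dg, Dig.x]
theorem z1a_y00 : (((dg 0 0).y : ℤ) : ℝ) = 0 := by simp [dg, Dig.y]
theorem z1a_x20 : (((dg 2 0).x : ℤ) : ℝ) = 2 := by simp [dg, Dig.x]
theorem z1a_y20 : (((dg 2 0).y : ℤ) : ℝ) = 0 := by simp [dg, Dig.y]

/-- coordinates below a word -/
theorem z1a_coord (a : List Dig) (u : List Dig) (x : K) :
    3 ^ a.length * (Fw (a ++ u) x).1.1 = (pos a).1 + (Fw u x).1.1 ∧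
      3 ^ a.length * (Fw (a ++ u) x).1.2 = (pos a).2 + (Fw u x).1.2 := by
  have h3 : (0 : ℝ) < 3 ^ a.length := by positivity
  rw [Fw_append]
  constructor
  · change 3 ^ a.length * (Fw a (Fw u x)).1.1 = _
    rw [Fw_apply1]
    field_simp
  · change 3 ^ a.length * (Fw a (Fw u x)).1.2 = _
    rw [Fw_apply2]
    field_simp

/-- equality of points in cells below the same word -/
theorem z1a_eq {a u v : List Dig} {x y : K} (h : Fw (a ++ u) x = Fw (a ++ v) y) :
    (Fw u x).1.1 = (Fw v y).1.1 ∧ (Fw u x).1.2 = (Fw v y).1.2 := by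
  have h1 := z1a_coord a u x
  have h2 := z1a_coord a v y
  rw [h] at h1
  constructor
  · linarith [h1.1, h2.1]
  · linarith [h1.2, h2.2]

/-- The odd function: `V` on the cell `a (1,0)`, `- V ∘ flipX` on the cell `a (0,0)`, zero on the other
cells of level `|a| + 1`; orthogonal to the functions vanishing off the two cells `a (1,0)(0,0)` and
`a (0,0)(2,0)`. -/
theorem exists_oddV {V : C(K, ℝ)} (hV : IsV S V) {a : List Dig} (ha : BotWord a) (ha' : a ≠ []) :
    ∃ W ∈ S.dom, (∀ k, W (Fw (a ++ [dg 1 0]) (Apt k)) = V (Apt k)) ∧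
      (∀ k, W (Fw (a ++ [dg 0 0]) (flipX (Apt k))) = - V (Apt k)) ∧ ZeroOn Lam W ∧
      ∀ φ ∈ S.dom, (∀ x, x ∉ cell (a ++ [dg 1 0, dg 0 0]) → x ∉ cell (a ++ [dg 0 0, dg 2 0]) →
        φ x = 0) → S.E W φ = 0 := by
  obtain ⟨hVd, hV0, hVE⟩ := hV
  have hy10 : (dg 1 0).y = 0 := by simp [dg, Dig.y]
  have hy00 : (dg 0 0).y = 0 := by simp [dg, Dig.y]
  have hz1 : ZeroOn (Bd (a ++ [dg 1 0])) V := by
    intro x hx
    have h := Bd_subset_Lam (z1a_bot_snoc ha hy10) hx
    apply hV0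
    rcases h with (h | h) | h
    · exact Or.inl h
    · exact Or.inr (Or.inl h)
    · exact Or.inr (Or.inr h)
  have hVf : V.comp flipX ∈ S.dom := S.flipX_mem hVd
  have hz0 : ZeroOn (Bd (a ++ [dg 0 0])) (V.comp flipX) := by
    intro x hx
    have h := Bd_subset_Lam (z1a_bot_snoc ha hy00) hx
    change V (flipX x) = 0
    apply hV0
    rcases h with (h | h) | h
    · refine Or.inr (Or.inr ?_)
      change (1 : ℝ) - x.1.1 = 1
      have : x.1.1 = 0 := h
      rw [this]; ring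
    · exact Or.inr (Or.inl h)
    · refine Or.inl ?_
      change (1 : ℝ) - x.1.1 = 0
      have : x.1.1 = 1 := h
      rw [this]; ring
  obtain ⟨P, hPd, hPw, hPs, hPo, -, hPE⟩ := ext_zero (a ++ [dg 1 0]) hVd hz1
  obtain ⟨Q, hQd, hQw, hQs, hQo, -, hQE⟩ := ext_zero (a ++ [dg 0 0]) hVf hz0
  have hlen : (a ++ [dg 1 0]).length = (a ++ [dg 0 0]).length := by simp
  have hne : a ++ [dg 1 0] ≠ a ++ [dg 0 0] := by
    intro h
    have h1 := List.append_cancel_left h
    have h2 : dg 1 0 = dg 0 0 := by simpa using h1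
    have h3 : (dg 1 0).x = (dg 0 0).x := by rw [h2]
    simp [dg, Dig.x] at h3
  refine ⟨P - Q, S.dom.sub_mem hPd hQd, ?_, ?_, ?_, ?_⟩
  · intro k
    have h1 : P (Fw (a ++ [dg 1 0]) (Apt k)) = V (Apt k) := by
      have := congrArg (fun f : C(K, ℝ) => f (Apt k)) hPw
      exact this
    have h2 : Q (Fw (a ++ [dg 1 0]) (Apt k)) = 0 := by
      have := congrArg (fun f : C(K, ℝ) => f (Apt k)) (hQs _ hlen hne)
      exact this
    rw [ContinuousMap.sub_apply, h1, h2, sub_zero]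
  · intro k
    have h1 : P (Fw (a ++ [dg 0 0]) (flipX (Apt k))) = 0 := by
      have := congrArg (fun f : C(K, ℝ) => f (flipX (Apt k))) (hPs _ hlen.symm hne.symm)
      exact this
    have h2 : Q (Fw (a ++ [dg 0 0]) (flipX (Apt k))) = V (Apt k) := by
      have := congrArg (fun f : C(K, ℝ) => f (flipX (Apt k))) hQw
      refine Eq.trans this ?_
      change V (flipX (flipX (Apt k))) = _
      rw [flipX_flipX]
    rw [ContinuousMap.sub_apply, h1, h2, zero_sub]
  · intro x hx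
    have h1 : P x = 0 := hPo x fun h =>
      z1a_not_Lam ha ha' (cell_append_subset _ _ h) hx
    have h2 : Q x = 0 := hQo x fun h =>
      z1a_not_Lam ha ha' (cell_append_subset _ _ h) hx
    rw [ContinuousMap.sub_apply, h1, h2, sub_zero]
  · intro φ hφ hφ0
    set φ1 : C(K, ℝ) := φ.comp (Fw (a ++ [dg 1 0])) with hφ1
    set φ0' : C(K, ℝ) := φ.comp (Fw (a ++ [dg 0 0])) with hφ0'
    have hφ1d : φ1 ∈ S.dom := S.comp_Fw_mem _ hφ
    have hφ0d : φ0' ∈ S.dom := S.comp_Fw_mem _ hφ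
    have hφfd : φ0'.comp flipX ∈ S.dom := S.flipX_mem hφ0d
    have hff : (φ0'.comp flipX).comp flipX = φ0' := by
      ext x
      change φ0' (flipX (flipX x)) = φ0' x
      rw [flipX_flipX]
    have e1 : S.E (P - Q) φ = S.ρ ^ (a ++ [dg 1 0]).length * S.E V (φ1 - φ0'.comp flipX) := by
      rw [S.E_sub_left hPd hQd hφ, S.E_symm P hPd φ hφ, S.E_symm Q hQd φ hφ, hPE φ hφ, hQE φ hφ,
        ← hlen, S.E_sub_right hVd hφ1d hφfd, S.E_symm _ hφ1d V hVd]
      have e2 : S.E φ0' (V.comp flipX) = S.E V (φ0'.comp flipX) := by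
        rw [S.E_symm _ hφ0d _ hVf]
        conv_lhs => rw [← hff]
        rw [S.E_flip hVd hφfd]
      rw [e2]
      ring
    -- vanishing away from the corner cell
    have hvan : ∀ x : K, (1 / 3 < x.1.1 ∨ 1 / 3 < x.1.2) →
        (φ1 - φ0'.comp flipX) x = 0 := by
      intro x hx
      have hb := K_bounds x
      have h1 : φ1 x = 0 := by
        apply hφ0
        · rintro ⟨y, hy⟩
          have hby := K_bounds y
          obtain ⟨h1, h2⟩ := z1a_eq (u := [dg 1 0, dg 0 0]) (v := [dg 1 0]) hy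
          have h1' : ((y.1.1 + ((dg 0 0).x : ℝ)) / 3 + ((dg 1 0).x : ℝ)) / 3 =
            (x.1.1 + ((dg 1 0).x : ℝ)) / 3 := h1
          have h2' : ((y.1.2 + ((dg 0 0).y : ℝ)) / 3 + ((dg 1 0).y : ℝ)) / 3 =
            (x.1.2 + ((dg 1 0).y : ℝ)) / 3 := h2
          rw [z1a_x00, z1a_x10] at h1'
          rw [z1a_y00, z1a_y10] at h2'
          rcases hx with hx | hx <;> linarith [hby.1, hby.2.1, hby.2.2.1, hby.2.2.2]
        · rintro ⟨y, hy⟩
          have hby := K_bounds y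
          obtain ⟨h1, h2⟩ := z1a_eq (u := [dg 0 0, dg 2 0]) (v := [dg 1 0]) hy
          have h1' : ((y.1.1 + ((dg 2 0).x : ℝ)) / 3 + ((dg 0 0).x : ℝ)) / 3 =
            (x.1.1 + ((dg 1 0).x : ℝ)) / 3 := h1
          have h2' : ((y.1.2 + ((dg 2 0).y : ℝ)) / 3 + ((dg 0 0).y : ℝ)) / 3 =
            (x.1.2 + ((dg 1 0).y : ℝ)) / 3 := h2
          rw [z1a_x00, z1a_x10, z1a_x20] at h1'
          rw [z1a_y00, z1a_y10, z1a_y20] at h2'
          rcases hx with hx | hx <;> linarith [hby.1, hby.2.1, hby.2.2.1, hby.2.2.2]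
      have h0 : (φ0'.comp flipX) x = 0 := by
        apply hφ0
        · rintro ⟨y, hy⟩
          have hby := K_bounds y
          obtain ⟨h1, h2⟩ := z1a_eq (u := [dg 1 0, dg 0 0]) (v := [dg 0 0]) hy
          have h1' : ((y.1.1 + ((dg 0 0).x : ℝ)) / 3 + ((dg 1 0).x : ℝ)) / 3 =
            ((1 - x.1.1) + ((dg 0 0).x : ℝ)) / 3 := h1
          have h2' : ((y.1.2 + ((dg 0 0).y : ℝ)) / 3 + ((dg 1 0).y : ℝ)) / 3 =
            (x.1.2 + ((dg 0 0).y : ℝ)) / 3 := h2
          rw [z1a_x00, z1a_x10] at h1'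
          rw [z1a_y00, z1a_y10] at h2'
          rcases hx with hx | hx <;> linarith [hby.1, hby.2.1, hby.2.2.1, hby.2.2.2]
        · rintro ⟨y, hy⟩
          have hby := K_bounds y
          obtain ⟨h1, h2⟩ := z1a_eq (u := [dg 0 0, dg 2 0]) (v := [dg 0 0]) hy
          have h1' : ((y.1.1 + ((dg 2 0).x : ℝ)) / 3 + ((dg 0 0).x : ℝ)) / 3 =
            ((1 - x.1.1) + ((dg 0 0).x : ℝ)) / 3 := h1
          have h2' : ((y.1.2 + ((dg 2 0).y : ℝ)) / 3 + ((dg 0 0).y : ℝ)) / 3 =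
            (x.1.2 + ((dg 0 0).y : ℝ)) / 3 := h2
          rw [z1a_x00, z1a_x20] at h1'
          rw [z1a_y00, z1a_y20] at h2'
          rcases hx with hx | hx <;> linarith [hby.1, hby.2.1, hby.2.2.1, hby.2.2.2]
      rw [ContinuousMap.sub_apply, h1, h0, sub_zero]
    have hzero : ZeroOn (left ∪ LamP) (φ1 - φ0'.comp flipX) := by
      rintro x (hx | (hx | hx))
      · have hx0 : x.1.1 = 0 := hx
        have hpt : Fw (a ++ [dg 1 0]) x = Fw (a ++ [dg 0 0]) (flipX x) := by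
          have h3 : (0 : ℝ) < 3 ^ a.length := by positivity
          have c1 := z1a_coord a [dg 1 0] x
          have c0 := z1a_coord a [dg 0 0] (flipX x)
          have d1 : (Fw [dg 1 0] x).1.1 = (Fw [dg 0 0] (flipX x)).1.1 := by
            change (x.1.1 + ((dg 1 0).x : ℝ)) / 3 = ((1 - x.1.1) + ((dg 0 0).x : ℝ)) / 3
            rw [z1a_x10, z1a_x00, hx0]
            ring
          have d2 : (Fw [dg 1 0] x).1.2 = (Fw [dg 0 0] (flipX x)).1.2 := by
            change (x.1.2 + ((dg 1 0).y : ℝ)) / 3 = (x.1.2 + ((dg 0 0).y : ℝ)) / 3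
            rw [z1a_y10, z1a_y00]
          apply K_ext
          · apply mul_left_cancel₀ h3.ne'
            rw [c1.1, c0.1, d1]
          · apply mul_left_cancel₀ h3.ne'
            rw [c1.2, c0.2, d2]
        change φ (Fw (a ++ [dg 1 0]) x) - φ (Fw (a ++ [dg 0 0]) (flipX x)) = 0
        rw [hpt, sub_self]
      · apply hvan
        right
        have : x.1.2 = 1 := hx
        rw [this]; norm_num
      · apply hvan
        left
        have : x.1.1 = 1 := hx
        rw [this]; norm_num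
    have hpole : (φ1 - φ0'.comp flipX) pole = 0 := by
      apply hvan
      left
      change 1 / 3 < ((0 : ℝ) + ((dg 2 0).x : ℝ)) / 3
      rw [z1a_x20]
      norm_num
    rw [e1, hVE _ (S.dom.sub_mem hφ1d hφfd) hzero, hpole, mul_zero]

end Pool.Agent.Helper67.SC
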