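import Pool.Agent.Helper67.SC.Z1a

/-! Module Z1b: sign patterns of an object around the points Fw a pA. -/

open MeasureTheory Filter Topology

noncomputable section

namespace Pool.Agent.Helper67.SC

variable (S : CarForm)

/-- A component of an open set is connected inside itself. -/
theorem z1b_conn_component {O : Set K} {x y : K} (h : Conn O x y) :
    Conn {y | Conn O x y} x y := by
  obtain ⟨n, s, t, hs, hx, hy, hsO, hl⟩ := h
  have key : ∀ t, Linked {a | a.length = n ∧ cell a ⊆ O} s t → t.length = n →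
      (cell t ⊆ O) → cell t ⊆ {y | Conn O x y} := by
    intro t ht htn htO z hz
    exact ⟨n, s, t, hs, hx, hz, hsO, ht⟩
  have hs' : cell s ⊆ {y | Conn O x y} := key s Relation.ReflTransGen.refl hs hsO
  refine ⟨n, s, t, hs, hx, hy, hs', ?_⟩
  have : ∀ t, Linked {a | a.length = n ∧ cell a ⊆ O} s t →
      Linked {a | a.length = n ∧ cell a ⊆ {y | Conn O x y}} s t := by
    intro t ht
    induction ht with
    | refl => exact Relation.ReflTransGen.refl
    | tail hab hbc ih =>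
      refine Relation.ReflTransGen.tail ih ⟨⟨hbc.1.1, ?_⟩, hbc.2⟩
      exact key _ (Relation.ReflTransGen.tail hab hbc) hbc.1.1 hbc.1.2
  exact this t hl

theorem z1b_pos_bot {a : List Dig} (ha : BotWord a) : (pos a).2 = 0 := by
  have h := ha.1
  clear ha
  induction a with
  | nil => rfl
  | cons d a ih =>
    simp only [pos]
    rw [ih fun e he => h e (List.mem_cons_of_mem _ he), h d List.mem_cons_self]
    simp

theorem z1b_pA : pA.1.1 = 1 / 3 ∧ pA.1.2 = 0 := by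
  constructor
  · change ((0 : ℝ) + ((dg 1 0).x : ℤ)) / 3 = 1 / 3
    have : (dg 1 0).x = 1 := by decide
    rw [this]
    norm_num
  · change ((0 : ℝ) + ((dg 1 0).y : ℤ)) / 3 = 0
    have : (dg 1 0).y = 0 := by decide
    rw [this]
    norm_num

theorem z1b_Apt (k : ℕ) : (Apt k).1.1 = 1 / 3 ^ (k + 1) ∧ (Apt k).1.2 = 0 := by
  have hp : pos (zz k) = (0, 0) := by
    induction k with
    | zero => rfl
    | succ n ih =>
      change pos (dg 0 0 :: zz n) = _
      simp only [pos, ih]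
      simp [dg, Dig.x, Dig.y]
  have hl : (zz k).length = k := by simp [zz]
  constructor
  · unfold Apt
    rw [Fw_apply1, hp, hl, z1b_pA.1, pow_succ]
    simp only [Int.cast_zero, zero_add]
    field_simp
  · unfold Apt
    rw [Fw_apply2, hp, z1b_pA.2]
    simp

/-- Points off the two small cells at `Fw a pA` are far from `Fw a pA`. -/
theorem z1b_far {a : List Dig} (ha : BotWord a) {y : K}
    (h1 : y ∉ cell (a ++ [dg 1 0, dg 0 0])) (h2 : y ∉ cell (a ++ [dg 0 0, dg 2 0])) :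
    1 / 9 / 3 ^ a.length ≤ dist y (Fw a pA) := by
  by_contra hcon
  push Not at hcon
  obtain ⟨s, hs, hy⟩ := exists_cell (a.length + 2) y
  have hc := mem_cell_coord hy
  rw [hs] at hc
  have h3 : (0 : ℝ) < 3 ^ a.length := by positivity
  have hpow : (3 : ℝ) ^ (a.length + 2) = 9 * 3 ^ a.length := by ring
  rw [hpow] at hc
  have hz1 : (Fw a pA).1.1 = ((pos a).1 + 1 / 3) / 3 ^ a.length := by rw [Fw_apply1, z1b_pA.1]
  have hz2 : (Fw a pA).1.2 = 0 := by rw [Fw_apply2, z1b_pA.2, z1b_pos_bot ha]; simp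
  rw [dist_eq, hz1, hz2] at hcon
  have hx1 := (le_max_left _ _).trans_lt hcon
  have hx2 := (le_max_right _ _).trans_lt hcon
  rw [abs_lt] at hx1 hx2
  have e1 : 9 * 3 ^ a.length * (1 / 9 / 3 ^ a.length) = (1 : ℝ) := by field_simp
  have e2 : 9 * 3 ^ a.length * (((pos a).1 + 1 / 3) / 3 ^ a.length) = (9 * (pos a).1 + 3 : ℝ) := by
    field_simp
    ring
  have hpos9 : (0 : ℝ) < 9 * 3 ^ a.length := by positivity
  have m1 := mul_lt_mul_of_pos_left hx1.1 hpos9
  have m2 := mul_lt_mul_of_pos_left hx1.2 hpos9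
  have m3 := mul_lt_mul_of_pos_left hx2.2 hpos9
  rw [mul_neg, e1, mul_sub, e2] at m1
  rw [e1, mul_sub, e2] at m2
  rw [e1, sub_zero] at m3
  have g1 : (pos s).1 < 9 * (pos a).1 + 4 := by
    have : ((pos s).1 : ℝ) < ((9 * (pos a).1 + 4 : ℤ) : ℝ) := by
      push_cast
      linarith [hc.1]
    exact_mod_cast this
  have g2 : 9 * (pos a).1 + 2 < (pos s).1 + 1 := by
    have : ((9 * (pos a).1 + 2 : ℤ) : ℝ) < (((pos s).1 + 1 : ℤ) : ℝ) := by
      push_cast
      linarith [hc.2.1]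
    exact_mod_cast this
  have g3 : (pos s).2 < 1 := by
    have : ((pos s).2 : ℝ) < ((1 : ℤ) : ℝ) := by
      push_cast
      linarith [hc.2.2.1]
    exact_mod_cast this
  have g4 := (pos_nonneg s).2
  have hpa := z1b_pos_bot ha
  have q1 : pos (a ++ [dg 1 0, dg 0 0]) = (9 * (pos a).1 + 3, 0) := by
    rw [pos_append]
    have : pos [dg 1 0, dg 0 0] = (3, 0) := by decide
    rw [this, hpa]
    simp
  have q2 : pos (a ++ [dg 0 0, dg 2 0]) = (9 * (pos a).1 + 2, 0) := by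
    rw [pos_append]
    have : pos [dg 0 0, dg 2 0] = (2, 0) := by decide
    rw [this, hpa]
    simp
  have hcase : (pos s).1 = 9 * (pos a).1 + 3 ∨ (pos s).1 = 9 * (pos a).1 + 2 := by omega
  rcases hcase with h | h
  · have : s = a ++ [dg 1 0, dg 0 0] :=
      pos_inj (by simp [hs]) (by rw [q1]; exact Prod.ext h (by omega))
    exact h1 (this ▸ hy)
  · have : s = a ++ [dg 0 0, dg 2 0] :=
      pos_inj (by simp [hs]) (by rw [q2]; exact Prod.ext h (by omega))
    exact h2 (this ▸ hy)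

/-- The core of FIN1: a component of a positivity set of `± (g - g z) + t W` starting near `z` reaches `Lam`
with definite amplitude. -/
theorem z1b_reach {C : ℝ} {g : C(K, ℝ)} {δ : List Dig → ℝ} (hg : Obj S C g δ)
    {ε₀ : ℝ} (hε₀ : 0 < ε₀)
    (hicc : ∀ a : List Dig, BotWord a → ∀ x' ∈ bot, 1 / 3 - 1 / 27 ≤ x'.1.1 →
      x'.1.1 ≤ 2 / 3 + 1 / 27 → ∀ (O : Set K) (y : K) (t : ℝ), Conn O (Fw a x') y →
        1 / 27 / 3 ^ a.length ≤ dist (Fw a x') y →
          ∃ p ∈ O, ε₀ * Real.sqrt (S.en g a) ≤ |g p - t|)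
    {a : List Dig} (ha : BotWord a) (ha' : a ≠ []) {W : C(K, ℝ)} (hW : W ∈ S.dom)
    (hWL : ZeroOn Lam W)
    (hWo : ∀ φ ∈ S.dom, (∀ x, x ∉ cell (a ++ [dg 1 0, dg 0 0]) →
      x ∉ cell (a ++ [dg 0 0, dg 2 0]) → φ x = 0) → S.E W φ = 0) :
    ∃ t₀ > 0, ∀ t : ℝ, 0 < t → t ≤ t₀ → ∀ s : ℝ, (s = 1 ∨ s = -1) → ∀ x' ∈ bot,
      |x'.1.1 - 1 / 3| ≤ 1 / 27 →
      0 < s * (g (Fw a x') - g (Fw a pA)) + t * W (Fw a x') →
      ∃ q ∈ Lam, ε₀ * Real.sqrt (S.en g []) / 2 ≤ s * (g q - g (Fw a pA)) ∧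
        Conn {p | 0 < s * (g p - g (Fw a pA)) + t * W p} (Fw a x') q := by
  obtain ⟨hgH, hwt, hcomp⟩ := hg
  obtain ⟨Co, hCo, hosc⟩ := S.osc
  set z := Fw a pA with hz
  set ε₁ : ℝ := ε₀ * Real.sqrt (S.en g []) with hε₁
  set ε₂ : ℝ := ε₀ * Real.sqrt (S.en g a) with hε₂
  have hen : ∀ v : List Dig, 0 < Real.sqrt (S.en g v) := by
    intro v
    have h1 := (hcomp v.length v le_rfl).1
    have h2 := hwt.pos v
    have h3 := Real.sqrt_nonneg (S.en g v)
    rcases h3.lt_or_eq with h | h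
    · exact h
    · rw [← h, mul_zero] at h1
      linarith
  have hε₁pos : 0 < ε₁ := mul_pos hε₀ (hen [])
  have hε₂pos : 0 < ε₂ := mul_pos hε₀ (hen a)
  set B₁ : ℝ := Co * Real.sqrt (S.E W W) with hB₁
  set B₂ : ℝ := ‖W‖ with hB₂
  have hB₁0 : 0 ≤ B₁ := by positivity
  have hB₂0 : 0 ≤ B₂ := norm_nonneg _
  have hWx : ∀ p, |W p| ≤ B₂ := fun p => W.norm_coe_le_norm p
  set D : ℝ := B₁ + B₂ + 1 with hD
  have hDpos : 0 < D := by positivity
  refine ⟨min ε₂ (ε₁ / 2) / (2 * D), by positivity, ?_⟩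
  intro t ht0 ht s hs x' hx'b hx' hfx
  have htD : t * D < ε₂ ∧ t * D < ε₁ / 2 := by
    rw [le_div_iff₀ (by positivity)] at ht
    have h1 := min_le_left ε₂ (ε₁ / 2)
    have h2 := min_le_right ε₂ (ε₁ / 2)
    constructor <;> nlinarith
  have htB : t * (B₁ + B₂) < ε₂ ∧ t * (B₁ + B₂) < ε₁ / 2 := by
    have : t * (B₁ + B₂) ≤ t * D := by
      rw [hD]
      nlinarith
    exact ⟨this.trans_lt htD.1, this.trans_lt htD.2⟩
  have hs2 : |s| = 1 := by rcases hs with rfl | rfl <;> simp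
  set x := Fw a x' with hxdef
  -- the function
  set f : C(K, ℝ) := s • (g - ContinuousMap.const K (g z)) + t • W with hfdef
  have hfv : ∀ p, f p = s * (g p - g z) + t * W p := fun p => rfl
  have hgm := hgH.1
  have hgc := S.dom.sub_mem hgm (S.const_mem (g z))
  have hfm : f ∈ S.dom := S.dom.add_mem (S.dom.smul_mem s hgc) (S.dom.smul_mem t hW)
  have hEf : ∀ ψ ∈ S.dom, ZeroOn Lam ψ → S.E f ψ = t * S.E W ψ := by
    intro ψ hψ hz
    rw [hfdef, S.E_add _ (S.dom.smul_mem s hgc) _ (S.dom.smul_mem t hW) ψ hψ,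
      S.E_smul s _ hgc ψ hψ, S.E_smul t _ hW ψ hψ, S.E_sub_const_left _ hgm hψ, hgH.2 ψ hψ hz]
    ring
  have hOeq : {p | 0 < s * (g p - g z) + t * W p} = {p | 0 < f p} := rfl
  rw [hOeq]
  have hopen : IsOpen {p | 0 < f p} := isOpen_lt continuous_const f.continuous
  have hx0 : x ∈ {p | 0 < f p} := hfx
  have hrefl : Conn {p | 0 < f p} x x := Conn.refl hopen hx0
  obtain ⟨φ, hφ, hφ0, hφ1, hφ2, hφ3⟩ := exists_component hfm x
  have hc00 : c00 ∈ Lam := Or.inl (Or.inl rfl)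
  -- the bound for truncations vanishing on Lam
  have hbound : ∀ μ : ℝ, 0 ≤ μ → (∀ q ∈ Lam, φ q ≤ μ) → ∀ y, φ y ≤ μ + t * B₁ := by
    intro μ hμ hq y
    set ψ : C(K, ℝ) := (φ - ContinuousMap.const K μ) ⊔ 0 with hψdef
    have hψv : ∀ p, ψ p = max (φ p - μ) 0 := fun p => rfl
    have hψ : ψ ∈ S.dom := S.pos_mem (S.dom.sub_mem hφ (S.const_mem μ))
    have hψz : ZeroOn Lam ψ := fun q hq' => by
      rw [hψv]
      exact max_eq_right (by linarith [hq q hq'])
    have h1 := hφ3 μ hμ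
    rw [hEf ψ hψ hψz] at h1
    have h2 := S.E_le hW hψ
    have h3 : S.E ψ ψ ≤ t * (Real.sqrt (S.E W W) * Real.sqrt (S.E ψ ψ)) :=
      h1.trans (mul_le_mul_of_nonneg_left h2 ht0.le)
    have h4 : Real.sqrt (S.E ψ ψ) ≤ t * Real.sqrt (S.E W W) := by
      have h5 := Real.sq_sqrt (S.E_nonneg ψ hψ)
      have h6 := Real.sqrt_nonneg (S.E ψ ψ)
      rcases h6.lt_or_eq with h7 | h7
      · have : Real.sqrt (S.E ψ ψ) * Real.sqrt (S.E ψ ψ) ≤
            t * Real.sqrt (S.E W W) * Real.sqrt (S.E ψ ψ) := by nlinarith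
        exact le_of_mul_le_mul_right this h7
      · rw [← h7]
        positivity
    have h5 := hosc ψ hψ y c00
    rw [hψz c00 hc00, sub_zero] at h5
    have h6 : ψ y ≤ Co * (t * Real.sqrt (S.E W W)) :=
      (le_abs_self _).trans (h5.trans (mul_le_mul_of_nonneg_left h4 hCo.le))
    have h7 : φ y - μ ≤ ψ y := by
      rw [hψv]
      exact le_max_left _ _
    rw [hB₁]
    linarith
  -- values of g on the component
  have hgval : ∀ p, Conn {p | 0 < f p} x p →
      -(t * B₂) < s * (g p - g z) ∧ s * (g p - g z) ≤ φ p + t * B₂ ∧ f p ≤ s * (g p - g z) + t * B₂ := by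
    intro p hp
    have h1 : 0 < f p := hp.mem_right
    have h2 := hφ1 p hp
    rw [hfv] at h1
    have h3 := abs_le.1 (hWx p)
    have h4 : t * W p ≤ t * B₂ := mul_le_mul_of_nonneg_left h3.2 ht0.le
    have h5 : -(t * B₂) ≤ t * W p := by
      have := mul_le_mul_of_nonneg_left h3.1 ht0.le
      linarith
    refine ⟨by linarith, ?_, ?_⟩
    · rw [h2, hfv]; linarith
    · rw [hfv]; linarith
  -- coordinates of x
  have hxbot : x.1.2 = 0 := by
    rw [hxdef, Fw_apply2, z1b_pos_bot ha]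
    have : x'.1.2 = 0 := hx'b
    rw [this]; simp
  have hx'1 := abs_le.1 hx'
  -- step 1: the component reaches Lam
  have hreach : ∃ q ∈ Lam, Conn {p | 0 < f p} x q := by
    by_contra hcon
    push Not at hcon
    have hφz : ZeroOn Lam φ := fun q hq => hφ2 q (hcon q hq)
    have hφle : ∀ y, φ y ≤ t * B₁ := fun y => by
      have := hbound 0 le_rfl (fun q hq => (hφz q hq).le) y
      linarith
    have hy : ∃ y, Conn {p | 0 < f p} x y ∧ y ∉ cell (a ++ [dg 1 0, dg 0 0]) ∧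
        y ∉ cell (a ++ [dg 0 0, dg 2 0]) := by
      by_contra hno
      push Not at hno
      have hsupp : ∀ y, y ∉ cell (a ++ [dg 1 0, dg 0 0]) → y ∉ cell (a ++ [dg 0 0, dg 2 0]) →
          φ y = 0 := fun y h1 h2 => hφ2 y fun hc => h2 (hno y hc h1)
      have h1 := hφ3 0 le_rfl
      have e1 : (φ - ContinuousMap.const K (0 : ℝ)) ⊔ 0 = φ := by
        ext p
        have : 0 ≤ φ p := hφ0 p
        simp [this]
      rw [e1, hEf φ hφ hφz, hWo φ hφ hsupp, mul_zero] at h1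
      have h2 := S.eq_zero_of_E hφ h1 (hφz c00 hc00)
      have h3 := hφ1 x hrefl
      rw [h2] at h3
      have h4 : 0 < f x := hx0
      rw [← h3] at h4
      exact lt_irrefl _ h4
    obtain ⟨y, hxy, hy1, hy2⟩ := hy
    have hfar := z1b_far ha hy1 hy2
    have hnear : dist x z ≤ 1 / 27 / 3 ^ a.length := by
      rw [hxdef, hz, dist_Fw]
      gcongr
      rw [dist_eq, z1b_pA.1, z1b_pA.2]
      have : x'.1.2 = 0 := hx'b
      rw [this, sub_zero, abs_zero]
      exact max_le hx' (by norm_num)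
    have hdist : 1 / 27 / 3 ^ a.length ≤ dist x y := by
      have h1 := dist_triangle y x z
      rw [dist_comm y x] at h1
      have h3 : (0 : ℝ) < 1 / 3 ^ a.length := by positivity
      have e1 : (1 : ℝ) / 9 / 3 ^ a.length = 1 / 9 * (1 / 3 ^ a.length) := by ring
      have e2 : (1 : ℝ) / 27 / 3 ^ a.length = 1 / 27 * (1 / 3 ^ a.length) := by ring
      rw [e1] at hfar
      rw [e2] at hnear ⊢
      linarith
    obtain ⟨p, hp, hp2⟩ := hicc a ha x' hx'b (by linarith [hx'1.1]) (by linarith [hx'1.2])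
      {y | Conn {p | 0 < f p} x y} y (g z) (z1b_conn_component hxy) hdist
    have h1 := hgval p hp
    have h2 := hφle p
    have h3 : |g p - g z| ≤ t * (B₁ + B₂) := by
      have e : |g p - g z| = |s * (g p - g z)| := by rw [abs_mul, hs2, one_mul]
      rw [e, abs_le]
      constructor
      · have : 0 ≤ t * B₁ := by positivity
        linarith [h1.1]
      · linarith [h1.2.1]
    linarith [htB.1]
  obtain ⟨q₀, hq₀, hxq₀⟩ := hreach
  -- x lies over the middle third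
  have hxmid : 1 / 3 ≤ x.1.1 ∧ x.1.1 ≤ 2 / 3 := by
    rcases ha.2 with h | ⟨a', rfl⟩
    · exact absurd h ha'
    · have hb := K_bounds (Fw a' x')
      have e : x.1.1 = ((Fw a' x').1.1 + ((dg 1 0).x : ℤ)) / 3 := rfl
      have e1 : (dg 1 0).x = 1 := by decide
      rw [e, e1]
      push_cast
      constructor
      · linarith [hb.1]
      · linarith [hb.2.1]
  have hdist0 : 1 / 27 / 3 ^ ([] : List Dig).length ≤ dist (Fw [] x) q₀ := by
    simp only [List.length_nil, pow_zero, div_one]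
    change 1 / 27 ≤ dist x q₀
    rw [dist_eq]
    rcases hq₀ with (h | h) | h
    · have h' : q₀.1.1 = 0 := h
      refine le_trans ?_ (le_max_left _ _)
      rw [h', sub_zero, abs_of_nonneg (by linarith [hxmid.1])]
      linarith [hxmid.1]
    · have h' : q₀.1.2 = 1 := h
      refine le_trans ?_ (le_max_right _ _)
      rw [h', hxbot]
      norm_num
    · have h' : q₀.1.1 = 1 := h
      refine le_trans ?_ (le_max_left _ _)
      rw [h', abs_sub_comm, abs_of_nonneg (by linarith [hxmid.2])]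
      linarith [hxmid.2]
  have hnil : BotWord [] := ⟨by simp, Or.inl rfl⟩
  obtain ⟨p, hp, hp2⟩ := hicc [] hnil x hxbot (by linarith [hxmid.1]) (by linarith [hxmid.2])
    {y | Conn {p | 0 < f p} x y} q₀ (g z) (z1b_conn_component hxq₀) hdist0
  have hp3 := hgval p hp
  have htB2 : t * B₂ < ε₁ / 2 := by
    have : t * B₂ ≤ t * (B₁ + B₂) := by nlinarith
    linarith [htB.2]
  have hbig : ε₁ ≤ s * (g p - g z) := by
    have e : |g p - g z| = |s * (g p - g z)| := by rw [abs_mul, hs2, one_mul]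
    rw [e] at hp2
    rcases abs_cases (s * (g p - g z)) with h | h
    · linarith [h.1]
    · exfalso
      linarith [h.1, hp3.1]
  by_contra hcon
  push Not at hcon
  have hle : ∀ q ∈ Lam, φ q ≤ ε₁ / 2 := by
    intro q hq
    by_cases hc : Conn {p | 0 < f p} x q
    · have h1 : ¬ (ε₁ / 2 ≤ s * (g q - g z)) := fun h => hcon q hq h hc
      push Not at h1
      rw [hφ1 q hc, hfv, hWL q hq, mul_zero, add_zero]
      exact h1.le
    · rw [hφ2 q hc]
      positivity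
  have h1 := hbound (ε₁ / 2) (by positivity) hle p
  linarith [hp3.2.1, htB.2]

/-- FIN1. See the plan. -/
theorem four_points {C : ℝ} (hC : 1 ≤ C) {g : C(K, ℝ)} {δ : List Dig → ℝ} (hg : Obj S C g δ) :
    ∃ A : ℝ, 0 < A ∧ ∀ a : List Dig, BotWord a → a ≠ [] → ∀ ε > 0, ∃ q₁ q₂ q₃ q₄ : K,
      SPath g A ε (-1) (Fw a pA) q₁ ∧ SPath g A ε 1 (Fw a pA) q₂ ∧ tau q₁ < tau q₂ ∧
      SPath g A ε 1 (Fw a pA) q₃ ∧ SPath g A ε (-1) (Fw a pA) q₄ ∧ tau q₃ < tau q₄ := by
  obtain ⟨ε₀, hε₀, hicc⟩ := icc S C hC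
  have hicc' := hicc g δ hg
  obtain ⟨V, hV⟩ := exists_V S
  have hVpos := (V_props S hV).2.2.2.2.1
  have hen0 : 0 < Real.sqrt (S.en g []) := by
    have h1 := (hg.2.2 0 [] le_rfl).1
    have h2 := hg.2.1.pos []
    have h3 := Real.sqrt_nonneg (S.en g [])
    rcases h3.lt_or_eq with h | h
    · exact h
    · rw [← h, mul_zero] at h1
      linarith
  refine ⟨ε₀ * Real.sqrt (S.en g []) / 2, by positivity, ?_⟩
  intro a ha ha' ε hε
  set z := Fw a pA with hz
  obtain ⟨W, hW, hW1, hW2, hWL, hWo⟩ := exists_oddV S hV ha ha'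
  obtain ⟨t₁, ht₁, hr₁⟩ := z1b_reach S hg hε₀ hicc' ha ha' hW hWL hWo
  obtain ⟨t₂, ht₂, hr₂⟩ := z1b_reach S hg hε₀ hicc' ha ha' (S.dom.neg_mem hW)
    (fun x hx => by rw [ContinuousMap.neg_apply, hWL x hx, neg_zero])
    (fun φ hφ h => by rw [S.E_neg_left hW hφ, hWo φ hφ h, neg_zero])
  set t : ℝ := min (min t₁ t₂) (ε / (2 * (‖W‖ + 1))) with ht
  have hWn : 0 ≤ ‖W‖ := norm_nonneg W
  have ht0 : 0 < t := by positivity
  have htt₁ : t ≤ t₁ := (min_le_left _ _).trans (min_le_left _ _)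
  have htt₂ : t ≤ t₂ := (min_le_left _ _).trans (min_le_right _ _)
  have htε : t * ‖W‖ < ε := by
    have h1 : t ≤ ε / (2 * (‖W‖ + 1)) := min_le_right _ _
    rw [le_div_iff₀ (by positivity)] at h1
    nlinarith
  have hWx : ∀ p, |W p| ≤ ‖W‖ := fun p => W.norm_coe_le_norm p
  -- small scale
  have hobj := hg.restrict S ha
  obtain ⟨k₀, hk₀⟩ := obj_small S hV hC hobj (t / 2) (by positivity)
  obtain ⟨k₁, hk₁⟩ := exists_pow_lt_of_lt_one hε (show (1 / 3 : ℝ) < 1 by norm_num)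
  set k := max (max k₀ k₁) 1 with hk
  have hkk₀ : k₀ ≤ k := (le_max_left _ _).trans (le_max_left _ _)
  have hkk₁ : k₁ ≤ k := (le_max_right _ _).trans (le_max_left _ _)
  have hk1 : 1 ≤ k := le_max_right _ _
  obtain ⟨hR, hL⟩ := hk₀ k hkk₀
  have hVk := hVpos k
  -- the two starting points
  set xp' : K := F (dg 1 0) (Apt k) with hxp'
  set xm' : K := F (dg 0 0) (flipX (Apt k)) with hxm'
  have hA := z1b_Apt k
  have d10x : (dg 1 0).x = 1 := by decide
  have d10y : (dg 1 0).y = 0 := by decide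
  have d00x : (dg 0 0).x = 0 := by decide
  have d00y : (dg 0 0).y = 0 := by decide
  have hxp1 : xp'.1.1 = 1 / 3 + 1 / 3 ^ (k + 2) := by
    rw [hxp', F_apply1, hA.1, d10x, pow_succ 3 (k + 1)]
    push_cast
    field_simp
    ring
  have hxp2 : xp'.1.2 = 0 := by
    rw [hxp', F_apply2, hA.2, d10y]; simp
  have hxm1 : xm'.1.1 = 1 / 3 - 1 / 3 ^ (k + 2) := by
    rw [hxm', F_apply1, flipX_apply, hA.1, d00x, pow_succ 3 (k + 1)]
    push_cast
    field_simp
    ring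
  have hxm2 : xm'.1.2 = 0 := by
    rw [hxm', F_apply2, flipX_apply, hA.2, d00y]; simp
  have hpowk : (1 : ℝ) / 3 ^ (k + 2) ≤ 1 / 27 := by
    have : (27 : ℝ) ≤ 3 ^ (k + 2) := by
      calc (27 : ℝ) = 3 ^ 3 := by norm_num
        _ ≤ 3 ^ (k + 2) := pow_le_pow_right₀ (by norm_num) (by omega)
    exact one_div_le_one_div_of_le (by norm_num) this
  have hpow0 : (0 : ℝ) < 1 / 3 ^ (k + 2) := by positivity
  have hxpn : |xp'.1.1 - 1 / 3| ≤ 1 / 27 := by
    rw [hxp1, add_sub_cancel_left, abs_of_pos hpow0]; exact hpowk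
  have hxmn : |xm'.1.1 - 1 / 3| ≤ 1 / 27 := by
    rw [hxm1, show (1 : ℝ) / 3 - 1 / 3 ^ (k + 2) - 1 / 3 = -(1 / 3 ^ (k + 2)) by ring, abs_neg,
      abs_of_pos hpow0]
    exact hpowk
  -- values
  have eWp : W (Fw a xp') = V (Apt k) := by
    have := hW1 k
    rw [Fw_append] at this
    exact this
  have eWm : W (Fw a xm') = - V (Apt k) := by
    have := hW2 k
    rw [Fw_append] at this
    exact this
  have hgp : |g (Fw a xp') - g z| ≤ t / 2 * V (Apt k) := hR
  have hgm : |g (Fw a xm') - g z| ≤ t / 2 * V (Apt k) := hL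
  have hgp' := abs_le.1 hgp
  have hgm' := abs_le.1 hgm
  have htV : 0 < t * V (Apt k) := by positivity
  -- distances to z
  have hdist : ∀ x' : K, x'.1.2 = 0 → |x'.1.1 - 1 / 3| ≤ 1 / 3 ^ (k + 2) →
      dist (Fw a x') z ≤ ε := by
    intro x' hx2 hx1
    rw [hz, dist_Fw, dist_eq, z1b_pA.1, z1b_pA.2, hx2, sub_zero, abs_zero,
      max_eq_left (abs_nonneg _)]
    have h1 : (1 : ℝ) ≤ 3 ^ a.length := one_le_pow₀ (by norm_num)
    have h2 : |x'.1.1 - 1 / 3| / 3 ^ a.length ≤ |x'.1.1 - 1 / 3| :=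
      div_le_self (abs_nonneg _) h1
    have h3 : (1 : ℝ) / 3 ^ (k + 2) ≤ (1 / 3) ^ k₁ := by
      rw [one_div, ← inv_pow, one_div]
      exact pow_le_pow_of_le_one (by norm_num) (by norm_num) (by omega)
    linarith
  have hdp : dist (Fw a xp') z ≤ ε := hdist xp' hxp2 (by
    rw [hxp1, add_sub_cancel_left, abs_of_pos hpow0])
  have hdm : dist (Fw a xm') z ≤ ε := hdist xm' hxm2 (by
    rw [hxm1, show (1 : ℝ) / 3 - 1 / 3 ^ (k + 2) - 1 / 3 = -(1 / 3 ^ (k + 2)) by ring, abs_neg,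
      abs_of_pos hpow0])
  have hbotp : Fw a xp' ∈ bot := by
    change (Fw a xp').1.2 = 0
    rw [Fw_apply2, z1b_pos_bot ha, hxp2]; simp
  have hbotm : Fw a xm' ∈ bot := by
    change (Fw a xm').1.2 = 0
    rw [Fw_apply2, z1b_pos_bot ha, hxm2]; simp
  have hlt : (Fw a xm').1.1 < (Fw a xp').1.1 := by
    rw [Fw_apply1, Fw_apply1, hxm1, hxp1]
    have : (0 : ℝ) < 3 ^ a.length := by positivity
    rw [div_lt_div_iff_of_pos_right this]
    linarith
  -- the four components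
  obtain ⟨q₂, hq₂, hA₂, hc₂⟩ := hr₁ t ht0 htt₁ 1 (Or.inl rfl) xp' hxp2 hxpn (by
    rw [eWp]; linarith [hgp'.1])
  obtain ⟨q₁, hq₁, hA₁, hc₁⟩ := hr₂ t ht0 htt₂ (-1) (Or.inr rfl) xm' hxm2 hxmn (by
    rw [ContinuousMap.neg_apply, eWm]; linarith [hgm'.2])
  obtain ⟨q₃, hq₃, hA₃, hc₃⟩ := hr₂ t ht0 htt₂ 1 (Or.inl rfl) xm' hxm2 hxmn (by
    rw [ContinuousMap.neg_apply, eWm]; linarith [hgm'.1])
  obtain ⟨q₄, hq₄, hA₄, hc₄⟩ := hr₁ t ht0 htt₁ (-1) (Or.inr rfl) xp' hxp2 hxpn (by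
    rw [eWp]; linarith [hgp'.2])
  have hsub1 : ∀ s : ℝ, {p | 0 < s * (g p - g z) + t * W p} ⊆ {p | -ε < s * (g p - g z)} := by
    intro s p hp
    have h1 : 0 < s * (g p - g z) + t * W p := hp
    have h2 := (abs_le.1 (hWx p)).2
    have h3 : t * W p ≤ t * ‖W‖ := mul_le_mul_of_nonneg_left h2 ht0.le
    change -ε < s * (g p - g z)
    linarith
  have hsub2 : ∀ s : ℝ, {p | 0 < s * (g p - g z) + t * (-W) p} ⊆ {p | -ε < s * (g p - g z)} := by
    intro s p hp
    have h1 : 0 < s * (g p - g z) + t * (-W p) := hp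
    have h2 := (abs_le.1 (hWx p)).1
    have h3 : t * (-W p) ≤ t * ‖W‖ := mul_le_mul_of_nonneg_left (by linarith) ht0.le
    change -ε < s * (g p - g z)
    linarith
  refine ⟨q₁, q₂, q₃, q₄, ⟨hq₁, hA₁, _, hbotm, hdm, hc₁.mono (hsub2 _)⟩,
    ⟨hq₂, hA₂, _, hbotp, hdp, hc₂.mono (hsub1 _)⟩, ?_,
    ⟨hq₃, hA₃, _, hbotm, hdm, hc₃.mono (hsub2 _)⟩,
    ⟨hq₄, hA₄, _, hbotp, hdp, hc₄.mono (hsub1 _)⟩, ?_⟩
  · refine crossing ?_ hbotm hbotp hlt hq₁ hq₂ hc₁ hc₂
    rw [Set.disjoint_left]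
    intro p hp hp'
    have h1 : 0 < -1 * (g p - g z) + t * (-W p) := hp
    have h2 : 0 < 1 * (g p - g z) + t * W p := hp'
    linarith
  · refine crossing ?_ hbotm hbotp hlt hq₃ hq₄ hc₃ hc₄
    rw [Set.disjoint_left]
    intro p hp hp'
    have h1 : 0 < 1 * (g p - g z) + t * (-W p) := hp
    have h2 : 0 < -1 * (g p - g z) + t * W p := hp'
    linarith

end Pool.Agent.Helper67.SC
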