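import Pool.Agent.Helper67.SC.Z1b

/-! Module Z2: there is no object. -/

open MeasureTheory Filter Topology

noncomputable section

namespace Pool.Agent.Helper67.SC

variable (S : CarForm)

theorem z2_tau_bounds (x : K) : 0 ≤ tau x ∧ tau x ≤ 3 := by
  have h := K_bounds x
  unfold tau
  split_ifs <;> constructor <;> linarith

theorem z2_lam_cases {x : K} (hx : x ∈ Lam) : x.1.1 = 0 ∨ x.1.2 = 1 ∨ x.1.1 = 1 := by
  rcases hx with (h | h) | h
  · exact Or.inl h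
  · exact Or.inr (Or.inl h)
  · exact Or.inr (Or.inr h)

theorem z2_dist_tau {x y : K} (hx : x ∈ Lam) (hy : y ∈ Lam) : dist x y ≤ |tau x - tau y| := by
  rw [dist_eq]
  obtain ⟨hx1, hx2, hx3, hx4⟩ := K_bounds x
  obtain ⟨hy1, hy2, hy3, hy4⟩ := K_bounds y
  have h1 := le_abs_self (tau x - tau y)
  have h2 := neg_le_abs (tau x - tau y)
  have hx' := z2_lam_cases hx
  have hy' := z2_lam_cases hy
  generalize |tau x - tau y| = D at h1 h2 ⊢
  have hxt : (x.1.1 = 0 ∧ tau x = x.1.2) ∨ (x.1.2 = 1 ∧ tau x = 1 + x.1.1) ∨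
      (x.1.1 = 1 ∧ tau x = 3 - x.1.2) := by
    unfold tau
    by_cases ha : x.1.1 = 0
    · left; simp [ha]
    · by_cases hb : x.1.2 = 1
      · right; left; simp [ha, hb]
      · right; right
        rcases hx' with h | h | h
        · exact absurd h ha
        · exact absurd h hb
        · simp [h, hb]
  have hyt : (y.1.1 = 0 ∧ tau y = y.1.2) ∨ (y.1.2 = 1 ∧ tau y = 1 + y.1.1) ∨
      (y.1.1 = 1 ∧ tau y = 3 - y.1.2) := by
    unfold tau
    by_cases ha : y.1.1 = 0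
    · left; simp [ha]
    · by_cases hb : y.1.2 = 1
      · right; left; simp [ha, hb]
      · right; right
        rcases hy' with h | h | h
        · exact absurd h ha
        · exact absurd h hb
        · simp [h, hb]
  apply max_le
  · rw [abs_le]
    rcases hxt with ⟨a1, a2⟩ | ⟨a1, a2⟩ | ⟨a1, a2⟩ <;>
    rcases hyt with ⟨b1, b2⟩ | ⟨b1, b2⟩ | ⟨b1, b2⟩ <;>
    rw [a2, b2] at h1 h2 <;> constructor <;> linarith
  · rw [abs_le]
    rcases hxt with ⟨a1, a2⟩ | ⟨a1, a2⟩ | ⟨a1, a2⟩ <;>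
    rcases hyt with ⟨b1, b2⟩ | ⟨b1, b2⟩ | ⟨b1, b2⟩ <;>
    rw [a2, b2] at h1 h2 <;> constructor <;> linarith

theorem z2_tau_inj {x y : K} (hx : x ∈ Lam) (hy : y ∈ Lam) (h : tau x = tau y) : x = y := by
  have h1 := z2_dist_tau hx hy
  rw [h, sub_self, abs_zero] at h1
  exact dist_le_zero.1 h1

/-- Triples: there is a sign `s` and points `a < b < c` on `Lam` with `SPath` of signs `s, -s, s`. -/
theorem three_points {C : ℝ} (hC : 1 ≤ C) {g : C(K, ℝ)} {δ : List Dig → ℝ} (hg : Obj S C g δ) :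
    ∃ A : ℝ, 0 < A ∧ ∀ a : List Dig, BotWord a → a ≠ [] → ∀ ε > 0, ∃ s : ℝ, (s = 1 ∨ s = -1) ∧
      ∃ q₁ q₂ q₃ : K, tau q₁ < tau q₂ ∧ tau q₂ < tau q₃ ∧ SPath g A ε s (Fw a pA) q₁ ∧
        SPath g A ε (-s) (Fw a pA) q₂ ∧ SPath g A ε s (Fw a pA) q₃ := by
  obtain ⟨A, hA, h⟩ := four_points S hC hg
  refine ⟨A, hA, fun a ha ha' ε hε => ?_⟩
  obtain ⟨q₁, q₂, q₃, q₄, h1, h2, h12, h3, h4, h34⟩ := h a ha ha' ε hε
  rcases lt_trichotomy (tau q₂) (tau q₄) with hlt | heq | hgt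
  · refine ⟨-1, Or.inr rfl, q₁, q₂, q₄, h12, hlt, h1, ?_, h4⟩
    rw [neg_neg]; exact h2
  · exfalso
    have e := z2_tau_inj h2.1 h4.1 heq
    have e2 := h2.2.1
    have e4 := h4.2.1
    rw [e] at e2
    linarith
  · exact ⟨1, Or.inl rfl, q₃, q₄, q₂, h34, hgt, h3, h4, h2⟩

/-- Words along the bottom side approximating a given abscissa. -/
theorem z2_word (n : ℕ) : ∀ t : ℝ, 0 ≤ t → t ≤ 1 → ∃ w : List Dig, (∀ d ∈ w, d.y = 0) ∧
    ∀ p : K, p.1.2 = 0 → |(Fw w p).1.1 - t| ≤ 1 / 3 ^ n ∧ (Fw w p).1.2 = 0 := by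
  induction n with
  | zero =>
    intro t h0 h1
    refine ⟨[], by simp, fun p hp => ⟨?_, hp⟩⟩
    obtain ⟨a, b, -, -⟩ := K_bounds p
    change |p.1.1 - t| ≤ _
    rw [abs_le]
    norm_num
    constructor <;> linarith
  | succ n ih =>
    intro t h0 h1
    have key : ∀ i : Fin 3, (hi : (i, (0 : Fin 3)) ≠ ((1 : Fin 3), (1 : Fin 3))) →
        0 ≤ 3 * t - (((dg i 0).x : ℤ) : ℝ) → 3 * t - (((dg i 0).x : ℤ) : ℝ) ≤ 1 →
        ∃ w : List Dig, (∀ d ∈ w, d.y = 0) ∧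
        ∀ p : K, p.1.2 = 0 → |(Fw w p).1.1 - t| ≤ 1 / 3 ^ (n + 1) ∧ (Fw w p).1.2 = 0 := by
      intro i hi ha hb
      obtain ⟨w, hw, hw'⟩ := ih _ ha hb
      refine ⟨dg i 0 :: w, ?_, fun p hp => ?_⟩
      · intro d hd
        rcases List.mem_cons.1 hd with h | h
        · rw [h]; simp [dg, hi, Dig.y]
        · exact hw d h
      · obtain ⟨e1, e2⟩ := hw' p hp
        constructor
        · change |((Fw w p).1.1 + (((dg i 0).x : ℤ) : ℝ)) / 3 - t| ≤ _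
          rw [abs_le] at e1 ⊢
          rw [pow_succ, one_div, mul_inv, ← one_div]
          constructor <;> linarith [e1.1, e1.2]
        · change ((Fw w p).1.2 + (((dg i 0).y : ℤ) : ℝ)) / 3 = 0
          rw [e2]
          simp [dg, hi, Dig.y]
    by_cases h3 : t ≤ 1 / 3
    · apply key 0 (by decide)
      · simp [dg, Dig.x]; linarith
      · simp [dg, Dig.x]; linarith
    · by_cases h4 : t ≤ 2 / 3
      · apply key 1 (by decide)
        · simp [dg, Dig.x]; linarith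
        · simp [dg, Dig.x]; linarith
      · apply key 2 (by decide)
        · simp [dg, Dig.x]; linarith
        · simp [dg, Dig.x]; linarith

theorem z2_pow_small {ε : ℝ} (hε : 0 < ε) : ∃ n : ℕ, (1 : ℝ) / 3 ^ n < ε := by
  obtain ⟨n, hn⟩ := exists_pow_lt_of_lt_one hε (by norm_num : (1 / 3 : ℝ) < 1)
  refine ⟨n, ?_⟩
  rwa [one_div, inv_pow, ← one_div] at hn

theorem z2_mem (t : ℝ) (h0 : 0 ≤ t) (h1 : t ≤ 1) : ((t, 0) : ℝ × ℝ) ∈ carpet := by
  have hc : IsClosed (carpet : Set (ℝ × ℝ)) := (isCompact_iff_compactSpace.2 inferInstance).isClosed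
  rw [← hc.closure_eq, Metric.mem_closure_iff]
  intro ε hε
  obtain ⟨n, hn⟩ := z2_pow_small hε
  obtain ⟨w, -, hw⟩ := z2_word n t h0 h1
  obtain ⟨e1, e2⟩ := hw c00 rfl
  refine ⟨(Fw w c00).1, (Fw w c00).2, ?_⟩
  rw [Prod.dist_eq, Real.dist_eq, Real.dist_eq, e2, abs_sub_comm]
  simp only [sub_self, abs_zero]
  exact max_lt (lt_of_le_of_lt e1 hn) hε

theorem z2_pA : pA.1.2 = 0 := by
  change ((0 : ℝ) + (((dg 1 0).y : ℤ) : ℝ)) / 3 = 0
  simp [dg, Dig.y]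

theorem z2_Fw_bot {a : List Dig} (ha : ∀ d ∈ a, d.y = 0) {p : K} (hp : p.1.2 = 0) :
    (Fw a p).1.2 = 0 := by
  induction a with
  | nil => exact hp
  | cons d w ih =>
    change ((Fw w p).1.2 + ((d.y : ℤ) : ℝ)) / 3 = 0
    rw [ih (fun e he => ha e (List.mem_cons_of_mem _ he)), ha d List.mem_cons_self]
    simp

/-- Density of the points `Fw a pA` in the middle third of the bottom side. -/
theorem z2_dense (t : ℝ) (h0 : 1 / 3 ≤ t) (h1 : t ≤ 2 / 3) (n : ℕ) :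
    ∃ a : List Dig, BotWord a ∧ a ≠ [] ∧ |(Fw a pA).1.1 - t| ≤ 1 / 3 ^ n ∧ (Fw a pA).1.2 = 0 := by
  obtain ⟨w, hw, hw'⟩ := z2_word n (3 * t - 1) (by linarith) (by linarith)
  obtain ⟨e1, e2⟩ := hw' pA z2_pA
  have hp : (0 : ℝ) ≤ 1 / 3 ^ n := by positivity
  refine ⟨dg 1 0 :: w, ⟨?_, Or.inr ⟨w, rfl⟩⟩, List.cons_ne_nil _ _, ?_, ?_⟩
  · intro d hd
    rcases List.mem_cons.1 hd with h | h
    · rw [h]; simp [dg, Dig.y]
    · exact hw d h
  · change |((Fw w pA).1.1 + (((dg 1 0).x : ℤ) : ℝ)) / 3 - t| ≤ _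
    have : (((dg 1 0).x : ℤ) : ℝ) = 1 := by simp [dg, Dig.x]
    rw [this]
    rw [abs_le] at e1 ⊢
    constructor <;> linarith [e1.1, e1.2]
  · change ((Fw w pA).1.2 + (((dg 1 0).y : ℤ) : ℝ)) / 3 = 0
    rw [e2]
    simp [dg, Dig.y]

/-- Infinitely many values: the points `Fw a pA` are dense in the middle third of the bottom side and
`g` is not constant there. -/
theorem infinite_values {C : ℝ} (hC : 1 ≤ C) {g : C(K, ℝ)} {δ : List Dig → ℝ} (hg : Obj S C g δ) :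
    Set.Infinite {t : ℝ | ∃ a : List Dig, BotWord a ∧ a ≠ [] ∧ t = g (Fw a pA)} := by
  intro hfin
  set T := {t : ℝ | ∃ a : List Dig, BotWord a ∧ a ≠ [] ∧ t = g (Fw a pA)} with hT
  have hcl : IsClosed T := hfin.isClosed
  -- all values on the middle third belong to `T`
  have hval : ∀ x : K, x.1.2 = 0 → 1 / 3 ≤ x.1.1 → x.1.1 ≤ 2 / 3 → g x ∈ T := by
    intro x hx0 hx1 hx2
    rw [← hcl.closure_eq, Metric.mem_closure_iff]
    intro ε hε
    obtain ⟨η, hη, hη'⟩ := Metric.continuous_iff.1 g.continuous x ε hε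
    obtain ⟨n, hn⟩ := z2_pow_small hη
    obtain ⟨a, ha, ha', e1, e2⟩ := z2_dense x.1.1 hx1 hx2 n
    refine ⟨g (Fw a pA), ⟨a, ha, ha', rfl⟩, ?_⟩
    rw [dist_comm]
    apply hη'
    rw [dist_eq, e2, hx0]
    simp only [sub_self, abs_zero]
    exact max_lt (lt_of_le_of_lt e1 hn) hη
  -- the segment
  let ι : Set.Icc (1 / 3 : ℝ) (2 / 3) → K := fun t => ⟨(t.1, 0), z2_mem t.1
    (by have := t.2.1; linarith) (by have := t.2.2; linarith)⟩
  have hι : Continuous ι := by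
    apply Continuous.subtype_mk
    fun_prop
  have : PreconnectedSpace (Set.Icc (1 / 3 : ℝ) (2 / 3)) :=
    isPreconnected_iff_preconnectedSpace.1 isPreconnected_Icc
  have hpre : IsPreconnected (Set.range (fun t => g (ι t))) :=
    isPreconnected_range (g.continuous.comp hι)
  have hsub : Set.range (fun t => g (ι t)) ⊆ T := by
    rintro _ ⟨t, rfl⟩
    exact hval (ι t) rfl t.2.1 t.2.2
  have hss : (Set.range (fun t => g (ι t))).Subsingleton := by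
    intro u hu v hv
    by_contra hne
    rcases lt_or_gt_of_ne hne with h | h
    · have hI := (hpre.ordConnected.out hu hv)
      exact (Set.Icc_infinite h) (hfin.subset (hI.trans hsub))
    · have hI := (hpre.ordConnected.out hv hu)
      exact (Set.Icc_infinite h) (hfin.subset (hI.trans hsub))
  have hx0 : (1 / 3 : ℝ) ∈ Set.Icc (1 / 3 : ℝ) (2 / 3) := by constructor <;> norm_num
  obtain ⟨x, hxb, hx1, hx2, hx3⟩ := nonconst_bot S hC hg (g (ι ⟨1 / 3, hx0⟩))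
  apply hx3
  have e : x = ι ⟨x.1.1, ⟨hx1, hx2⟩⟩ := by
    apply K_ext
    · rfl
    · exact hxb
  rw [e]
  exact hss ⟨_, rfl⟩ ⟨_, rfl⟩

/-- A point with the same arc, between: the values of `g` are close. -/
theorem z2_arc {g : C(K, ℝ)} {A η : ℝ} (hη : ∀ x y : K, dist x y < η → |g x - g y| < A) {N : ℕ}
    (hN : 0 < N) (hN' : 1 / (N : ℝ) < η) {q r y : K} (hr : r ∈ Lam) (hy : y ∈ Lam)
    (h : ⌊(N : ℝ) * tau q⌋₊ = ⌊(N : ℝ) * tau r⌋₊)
    (hb : (tau q ≤ tau y ∧ tau y ≤ tau r) ∨ (tau r ≤ tau y ∧ tau y ≤ tau q)) :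
    |g y - g r| < A := by
  apply hη
  apply lt_of_le_of_lt (z2_dist_tau hy hr)
  have hNr : (0 : ℝ) < N := by exact_mod_cast hN
  have q0 := (z2_tau_bounds q).1
  have r0 := (z2_tau_bounds r).1
  have a1 := Nat.floor_le (mul_nonneg hNr.le q0)
  have a2 := Nat.lt_floor_add_one ((N : ℝ) * tau q)
  have b1 := Nat.floor_le (mul_nonneg hNr.le r0)
  have b2 := Nat.lt_floor_add_one ((N : ℝ) * tau r)
  rw [h] at a1 a2
  refine lt_trans ?_ hN'
  rw [lt_div_iff₀ hNr]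
  have e : |tau y - tau r| * N = |(N : ℝ) * tau y - N * tau r| := by
    rw [← mul_sub, abs_mul, abs_of_pos hNr, mul_comm]
  rw [e, abs_lt]
  rcases hb with ⟨c1, c2⟩ | ⟨c1, c2⟩
  · have d1 := mul_le_mul_of_nonneg_left c1 hNr.le
    have d2 := mul_le_mul_of_nonneg_left c2 hNr.le
    constructor <;> linarith
  · have d1 := mul_le_mul_of_nonneg_left c1 hNr.le
    have d2 := mul_le_mul_of_nonneg_left c2 hNr.le
    constructor <;> linarith

/-- The class of a point. -/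
def z2_P (g : C(K, ℝ)) (A : ℝ) (N : ℕ) (z : K) (m : ℕ)
    (c : Bool × Fin (3 * N + 1) × Fin (3 * N + 1) × Fin (3 * N + 1)) : Prop :=
  ∃ q₁ q₂ q₃ : K, tau q₁ < tau q₂ ∧ tau q₂ < tau q₃ ∧
    SPath g A (1 / ((m : ℝ) + 1)) (if c.1 then 1 else -1) z q₁ ∧
    SPath g A (1 / ((m : ℝ) + 1)) (-(if c.1 then 1 else -1)) z q₂ ∧
    SPath g A (1 / ((m : ℝ) + 1)) (if c.1 then 1 else -1) z q₃ ∧
    ⌊(N : ℝ) * tau q₁⌋₊ = c.2.1 ∧ ⌊(N : ℝ) * tau q₂⌋₊ = c.2.2.1 ∧ ⌊(N : ℝ) * tau q₃⌋₊ = c.2.2.2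

theorem z2_floor_lt (N : ℕ) (q : K) : ⌊(N : ℝ) * tau q⌋₊ < 3 * N + 1 := by
  rw [Nat.lt_succ_iff]
  have h := (z2_tau_bounds q).2
  have : (N : ℝ) * tau q ≤ ((3 * N : ℕ) : ℝ) := by
    push_cast
    nlinarith [(Nat.cast_nonneg N : (0 : ℝ) ≤ N)]
  have h2 := Nat.floor_le_floor this
  rwa [Nat.floor_natCast] at h2

/-- Two opposite paths. -/
theorem z2_cross {g : C(K, ℝ)} {A e₁ e₂ : ℝ} {z₁ z₂ q r : K}
    (h₁ : SPath g A e₁ 1 z₁ q) (h₂ : SPath g A e₂ (-1) z₂ r) (hs : e₁ + e₂ ≤ g z₁ - g z₂)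
    (hd : e₁ + e₂ < |z₁.1.1 - z₂.1.1|) :
    (z₁.1.1 < z₂.1.1 → tau q < tau r) ∧ (z₂.1.1 < z₁.1.1 → tau r < tau q) := by
  obtain ⟨hq, -, x₁, hx₁, hxz₁, hc₁⟩ := h₁
  obtain ⟨hr, -, x₂, hx₂, hxz₂, hc₂⟩ := h₂
  have hdis : Disjoint {p | -e₁ < 1 * (g p - g z₁)} {p | -e₂ < -1 * (g p - g z₂)} := by
    rw [Set.disjoint_left]
    intro p hp hp'
    have hp1 : -e₁ < 1 * (g p - g z₁) := hp
    have hp2 : -e₂ < -1 * (g p - g z₂) := hp'
    linarith
  have a1 : |x₁.1.1 - z₁.1.1| ≤ e₁ := by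
    rw [dist_eq] at hxz₁
    exact le_trans (le_max_left _ _) hxz₁
  have a2 : |x₂.1.1 - z₂.1.1| ≤ e₂ := by
    rw [dist_eq] at hxz₂
    exact le_trans (le_max_left _ _) hxz₂
  rw [abs_le] at a1 a2
  constructor
  · intro h
    rw [abs_of_neg (by linarith)] at hd
    exact crossing hdis hx₁ hx₂ (by linarith [a1.1, a1.2, a2.1, a2.2]) hq hr hc₁ hc₂
  · intro h
    rw [abs_of_pos (by linarith)] at hd
    exact crossing hdis.symm hx₂ hx₁ (by linarith [a1.1, a1.2, a2.1, a2.2]) hr hq hc₂ hc₁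

/-- FIN2. Divide `Lam` into arcs (`⌊N tau q⌋`) on which `g` oscillates by less than `A`. Pigeonhole: each
point `z = Fw a pA` has a class (sign and three arcs) occurring for arbitrarily small `ε`; two points
`z₁, z₂` with `g z₁ > g z₂` have the same class; the sets `{g - g z₁ > -ε}` and `{g - g z₂ < ε}` are disjoint
for `2 ε < g z₁ - g z₂`; `crossing` contradicts the order of the arcs. -/
theorem no_obj {C : ℝ} (hC : 1 ≤ C) {g : C(K, ℝ)} {δ : List Dig → ℝ} (hg : Obj S C g δ) : False := by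
  obtain ⟨A, hA, h3⟩ := three_points S hC hg
  have huc := CompactSpace.uniformContinuous_of_continuous g.continuous
  obtain ⟨η, hη, hη'⟩ := Metric.uniformContinuous_iff.1 huc A hA
  have hη'' : ∀ x y : K, dist x y < η → |g x - g y| < A := by
    intro x y h
    have := hη' h
    rwa [Real.dist_eq] at this
  obtain ⟨N, hN⟩ := exists_nat_one_div_lt hη
  have hN' : 1 / ((N + 1 : ℕ) : ℝ) < η := by
    push_cast; exact hN
  have hN0 : 0 < N + 1 := Nat.succ_pos N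
  generalize N + 1 = M at hN' hN0
  -- every point has a class for every `m`
  have hcls : ∀ a : List Dig, BotWord a → a ≠ [] → ∀ m : ℕ, ∃ c, z2_P g A M (Fw a pA) m c := by
    intro a ha ha' m
    obtain ⟨s, hs, q₁, q₂, q₃, h12, h23, p1, p2, p3⟩ := h3 a ha ha' (1 / ((m : ℝ) + 1)) (by positivity)
    rcases hs with rfl | rfl
    · exact ⟨(true, ⟨_, z2_floor_lt M q₁⟩, ⟨_, z2_floor_lt M q₂⟩, ⟨_, z2_floor_lt M q₃⟩),
        q₁, q₂, q₃, h12, h23, p1, p2, p3, rfl, rfl, rfl⟩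
    · exact ⟨(false, ⟨_, z2_floor_lt M q₁⟩, ⟨_, z2_floor_lt M q₂⟩, ⟨_, z2_floor_lt M q₃⟩),
        q₁, q₂, q₃, h12, h23, p1, p2, p3, rfl, rfl, rfl⟩
  have hcls2 : ∀ a : List Dig, BotWord a → a ≠ [] → ∃ c, ∃ᶠ m in atTop, z2_P g A M (Fw a pA) m c := by
    intro a ha ha'
    by_contra hcon
    have hcon' : ∀ c, ∀ᶠ m in atTop, ¬ z2_P g A M (Fw a pA) m c := by
      intro c
      exact not_frequently.1 (fun h => hcon ⟨c, h⟩)
    have := eventually_all.2 hcon'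
    obtain ⟨m, hm⟩ := this.exists
    obtain ⟨c, hc⟩ := hcls a ha ha' m
    exact hm c hc
  have hinf := infinite_values S hC hg
  have hcls3 : ∀ t ∈ {t : ℝ | ∃ a : List Dig, BotWord a ∧ a ≠ [] ∧ t = g (Fw a pA)},
      ∃ c, ∃ a : List Dig, t = g (Fw a pA) ∧ (Fw a pA).1.2 = 0 ∧
        ∃ᶠ m in atTop, z2_P g A M (Fw a pA) m c := by
    rintro t ⟨a, ha, ha', rfl⟩
    obtain ⟨c, hc⟩ := hcls2 a ha ha'
    exact ⟨c, a, rfl, z2_Fw_bot ha.1 z2_pA, hc⟩
  choose! f hf using hcls3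
  obtain ⟨t₁, ht₁, t₂, ht₂, hne, heq⟩ :=
    hinf.exists_ne_map_eq_of_mapsTo (Set.mapsTo_univ f _) Set.finite_univ
  -- core statement
  have core : ∀ (z₁ z₂ : K) (c : Bool × Fin (3 * M + 1) × Fin (3 * M + 1) × Fin (3 * M + 1)),
      g z₂ < g z₁ → z₁.1.2 = 0 → z₂.1.2 = 0 → (∃ᶠ m in atTop, z2_P g A M z₁ m c) →
      (∃ᶠ m in atTop, z2_P g A M z₂ m c) → False := by
    intro z₁ z₂ c hlt hz₁ hz₂ hf₁ hf₂
    have hne' : z₁.1.1 ≠ z₂.1.1 := by
      intro h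
      have : z₁ = z₂ := K_ext h (by rw [hz₁, hz₂])
      rw [this] at hlt
      exact lt_irrefl _ hlt
    have habs : 0 < |z₁.1.1 - z₂.1.1| := abs_pos.2 (sub_ne_zero.2 hne')
    have hev : ∀ᶠ m : ℕ in atTop, 1 / ((m : ℝ) + 1) <
        min ((g z₁ - g z₂) / 2) (|z₁.1.1 - z₂.1.1| / 2) := by
      have h0 : 0 < min ((g z₁ - g z₂) / 2) (|z₁.1.1 - z₂.1.1| / 2) :=
        lt_min (by linarith) (by linarith)
      exact (tendsto_one_div_add_atTop_nhds_zero_nat).eventually (gt_mem_nhds h0)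
    obtain ⟨m₁, ⟨q₁, q₂, q₃, h12, h23, p1, p2, p3, k1, k2, k3⟩, hm₁⟩ := (hf₁.and_eventually hev).exists
    obtain ⟨m₂, ⟨r₁, r₂, r₃, h12', h23', p1', p2', p3', k1', k2', k3'⟩, hm₂⟩ :=
      (hf₂.and_eventually hev).exists
    have hm₁a := lt_of_lt_of_le hm₁ (min_le_left _ _)
    have hm₁b := lt_of_lt_of_le hm₁ (min_le_right _ _)
    have hm₂a := lt_of_lt_of_le hm₂ (min_le_left _ _)
    have hm₂b := lt_of_lt_of_le hm₂ (min_le_right _ _)
    have s1 : 1 / ((m₁ : ℝ) + 1) + 1 / ((m₂ : ℝ) + 1) ≤ g z₁ - g z₂ := by linarith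
    have s2 : 1 / ((m₁ : ℝ) + 1) + 1 / ((m₂ : ℝ) + 1) < |z₁.1.1 - z₂.1.1| := by linarith
    obtain ⟨b, c1, c2, c3⟩ := c
    simp only at k1 k2 k3 k1' k2' k3'
    cases b
    · -- sign -1: minus at 1, 3, plus at 2
      simp only [Bool.false_eq_true, if_false, neg_neg] at p1 p2 p3 p1' p2' p3'
      have v2 := p2.2.1
      have v1' := p1'.2.1
      have v3' := p3'.2.1
      rcases lt_or_gt_of_ne hne' with hl | hr
      · have hx := (z2_cross p2 p1' s1 s2).1 hl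
        have := z2_arc hη'' hN0 hN' (q := q₁) (r := r₁) (y := q₂) p1'.1 p2.1 (k1.trans k1'.symm)
          (Or.inl ⟨h12.le, hx.le⟩)
        have := (abs_lt.1 this).2
        linarith
      · have hx := (z2_cross p2 p3' s1 s2).2 hr
        have := z2_arc hη'' hN0 hN' (q := q₃) (r := r₃) (y := q₂) p3'.1 p2.1 (k3.trans k3'.symm)
          (Or.inr ⟨hx.le, h23.le⟩)
        have := (abs_lt.1 this).2
        linarith
    · simp only [if_true] at p1 p2 p3 p1' p2' p3'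
      have v2' := p2'.2.1
      have v1 := p1.2.1
      have v3 := p3.2.1
      rcases lt_or_gt_of_ne hne' with hl | hr
      · have hx := (z2_cross p3 p2' s1 s2).1 hl
        have := z2_arc hη'' hN0 hN' (q := r₃) (r := q₃) (y := r₂) p3.1 p2'.1 (k3'.trans k3.symm)
          (Or.inr ⟨hx.le, h23'.le⟩)
        have := (abs_lt.1 this).1
        linarith
      · have hx := (z2_cross p1 p2' s1 s2).2 hr
        have := z2_arc hη'' hN0 hN' (q := r₁) (r := q₁) (y := r₂) p1.1 p2'.1 (k1'.trans k1.symm)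
          (Or.inl ⟨h12'.le, hx.le⟩)
        have := (abs_lt.1 this).1
        linarith
  obtain ⟨a₁, e₁, b₁, f₁⟩ := hf t₁ ht₁
  obtain ⟨a₂, e₂, b₂, f₂⟩ := hf t₂ ht₂
  rw [← heq] at f₂
  rcases lt_or_gt_of_ne hne with h | h
  · rw [e₁, e₂] at h
    exact core _ _ _ h b₂ b₁ f₂ f₁
  · rw [e₁, e₂] at h
    exact core _ _ _ h b₁ b₂ f₁ f₂

end Pool.Agent.Helper67.SC
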